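import Pool.Agent.Work.MP_177351_gt.One

/-!
# Algebra of the ring of exponential polynomials
-/

set_option autoImplicit false

open MeasureTheory MvPolynomial Set Filter Topology
open scoped Pointwise Matrix

namespace Pool.Agent.Covg

theorem ev_single {n : ℕ} (z : Vec n) (a : Vec n) (M : Pol n) :
    ev z (AddMonoidAlgebra.single a M) = MvPolynomial.eval z M * Real.exp (a ⬝ᵥ z) := by
  unfold ev
  exact AddMonoidAlgebra.liftNC_single _ _ _ _

theorem ev_apply {n : ℕ} (z : Vec n) (P : EA n) :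
    ev z P = ∑ a ∈ P.coeff.support, MvPolynomial.eval z (P.coeff a) * Real.exp (a ⬝ᵥ z) := by
  conv_lhs => rw [← AddMonoidAlgebra.sum_coeff_single P, Finsupp.sum, map_sum]
  exact Finset.sum_congr rfl fun a _ => ev_single z a _

theorem continuous_ev {n : ℕ} (P : EA n) : Continuous fun z : Vec n => ev z P := by
  simp only [ev_apply]
  refine continuous_finsetSum _ fun a _ => ?_
  refine (MvPolynomial.continuous_eval _).mul ?_
  refine Real.continuous_exp.comp ?_
  unfold dotProduct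
  fun_prop

/-! ### injectivity of evaluation -/

theorem exists_dot {n : ℕ} (f : Vec n →ₗ[ℝ] ℝ) : ∃ ω : Vec n, ∀ x, f x = x ⬝ᵥ ω := by
  refine ⟨fun i => f (Pi.single i 1), fun x => ?_⟩
  conv_lhs => rw [← Finset.univ_sum_single x, map_sum]
  unfold dotProduct
  refine Finset.sum_congr rfl fun i _ => ?_
  have : Pi.single i (x i) = x i • (Pi.single i (1 : ℝ) : Vec n) := by
    rw [← Pi.single_smul, smul_eq_mul, mul_one]
  rw [this, map_smul, smul_eq_mul]

/-- A functional separating finitely many points. -/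
theorem exists_sep {n : ℕ} (F : Finset (Vec n)) (hF : ∀ v ∈ F, v ≠ 0) :
    ∃ ω : Vec n, ∀ v ∈ F, v ⬝ᵥ ω ≠ 0 := by
  obtain ⟨f, hf⟩ := Module.exists_dual_forall_apply_ne_zero (K := ℝ) (fun v : F => (v : Vec n))
    (fun v => hF v v.2)
  obtain ⟨ω, hω⟩ := exists_dot f
  exact ⟨ω, fun v hv => by rw [← hω]; exact hf ⟨v, hv⟩⟩

theorem exists_sep_support {n : ℕ} (P : EA n) :
    ∃ ω : Vec n, ∀ a ∈ P.coeff.support, ∀ b ∈ P.coeff.support, a ⬝ᵥ ω = b ⬝ᵥ ω → a = b := by
  classical
  obtain ⟨ω, hω⟩ := exists_sep (((P.coeff.support ×ˢ P.coeff.support).image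
    fun p => p.1 - p.2).filter fun v => v ≠ 0) (fun v hv => (Finset.mem_filter.1 hv).2)
  refine ⟨ω, fun a ha b hb hab => ?_⟩
  by_contra hne
  refine hω (a - b) (Finset.mem_filter.2 ⟨Finset.mem_image.2 ⟨(a, b),
    Finset.mem_product.2 ⟨ha, hb⟩, rfl⟩, sub_ne_zero.2 hne⟩) ?_
  rw [sub_dotProduct, hab, sub_self]

/-- The coefficient of `line` when the functional separates the support. -/
theorem coeff_line {n : ℕ} (y ω : Vec n) (P : EA n) (c : ℝ) :
    (line y ω P).coeff c = ∑ a ∈ P.coeff.support with a ⬝ᵥ ω = c,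
      linePol y ω (P.coeff a) * Polynomial.C (Real.exp (a ⬝ᵥ y)) := by
  classical
  conv_lhs => rw [← AddMonoidAlgebra.sum_coeff_single P, Finsupp.sum, map_sum]
  rw [AddMonoidAlgebra.coeff_sum, Finsupp.finsetSum_apply, Finset.sum_filter]
  refine Finset.sum_congr rfl fun a _ => ?_
  rw [line_single, AddMonoidAlgebra.coeff_single, Finsupp.single_apply]

theorem ev_inj {n : ℕ} {P : EA n} (h : ∀ z, ev z P = 0) : P = 0 := by
  classical
  by_contra hP
  obtain ⟨ω, hω⟩ := exists_sep_support P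
  have hne : P.coeff.support.Nonempty := by
    rw [Finsupp.support_nonempty_iff, Ne, AddMonoidAlgebra.coeff_eq_zero]
    exact hP
  obtain ⟨a, ha⟩ := hne
  have hMa : P.coeff a ≠ 0 := Finsupp.mem_support_iff.1 ha
  obtain ⟨y, hy⟩ : ∃ y, MvPolynomial.eval y (P.coeff a) ≠ 0 := by
    by_contra hcon
    push Not at hcon
    exact hMa (MvPolynomial.funext fun y => by rw [hcon y, map_zero])
  have h1 : line y ω P = 0 := ev1_inj (Eventually.of_forall fun t => by rw [ev1_line, h])
  have h2 := coeff_line y ω P (a ⬝ᵥ ω)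
  rw [h1] at h2
  have h3 : (P.coeff.support.filter fun b => b ⬝ᵥ ω = a ⬝ᵥ ω) = {a} := by
    ext b
    rw [Finset.mem_filter, Finset.mem_singleton]
    constructor
    · rintro ⟨hb, hb'⟩
      exact hω b hb a ha hb'
    · rintro rfl
      exact ⟨ha, rfl⟩
  rw [h3, Finset.sum_singleton] at h2
  have h4 : linePol y ω (P.coeff a) ≠ 0 := by
    intro h5
    apply hy
    have := eval_linePol y ω (P.coeff a) 0
    rw [h5, zero_smul, add_zero, Polynomial.eval_zero] at this
    exact this.symm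
  have h5 : linePol y ω (P.coeff a) * Polynomial.C (Real.exp (a ⬝ᵥ y)) ≠ 0 :=
    mul_ne_zero h4 (by rw [Ne, Polynomial.C_eq_zero]; exact (Real.exp_pos _).ne')
  exact h5 h2.symm

/-! ### parts -/

section part

variable {R M : Type} [CommRing R] [AddCommGroup M]

theorem coeff_part (f : M → ℝ) (c : ℝ) (P : AddMonoidAlgebra R M) (a : M) [Decidable (f a = c)] :
    (part f c P).coeff a = if f a = c then P.coeff a else 0 := by
  classical
  unfold part
  rw [AddMonoidAlgebra.coeff_ofCoeff, Finsupp.filter_apply]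
  split_ifs <;> rfl

theorem mem_support_part {f : M → ℝ} {c : ℝ} {P : AddMonoidAlgebra R M} {a : M} :
    a ∈ (part f c P).coeff.support ↔ a ∈ P.coeff.support ∧ f a = c := by
  classical
  unfold part
  rw [AddMonoidAlgebra.coeff_ofCoeff, Finsupp.support_filter, Finset.mem_filter]

theorem part_mul (f : M →+ ℝ) {c d : ℝ}
    {P Q : AddMonoidAlgebra R M} (hP : ∀ a ∈ P.coeff.support, f a ≤ c)
    (hQ : ∀ b ∈ Q.coeff.support, f b ≤ d) :
    part f (c + d) (P * Q) = part f c P * part f d Q := by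
  classical
  apply AddMonoidAlgebra.coeff_injective
  ext v
  rw [coeff_part, AddMonoidAlgebra.coeff_mul, AddMonoidAlgebra.coeff_mul]
  unfold Finsupp.sum
  have h1 : ∀ (F : M → M → R), (∑ a ∈ (part f c P).coeff.support, ∑ b ∈ (part f d Q).coeff.support,
      F a b) = ∑ a ∈ P.coeff.support, ∑ b ∈ Q.coeff.support,
        if f a = c ∧ f b = d then F a b else 0 := by
    intro F
    have e1 : (part f c P).coeff.support = P.coeff.support.filter fun a => f a = c := by
      ext; rw [mem_support_part, Finset.mem_filter]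
    have e2 : (part f d Q).coeff.support = Q.coeff.support.filter fun a => f a = d := by
      ext; rw [mem_support_part, Finset.mem_filter]
    rw [e1, e2, Finset.sum_filter]
    refine Finset.sum_congr rfl fun a _ => ?_
    by_cases ha : f a = c
    · rw [if_pos ha, Finset.sum_filter]
      refine Finset.sum_congr rfl fun b _ => ?_
      simp [ha]
    · rw [if_neg ha]
      simp [ha]
  rw [h1]
  by_cases hv : f v = c + d
  · rw [if_pos hv]
    refine Finset.sum_congr rfl fun a ha => Finset.sum_congr rfl fun b hb => ?_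
    by_cases hab : f a = c ∧ f b = d
    · rw [if_pos hab, coeff_part, coeff_part, if_pos hab.1, if_pos hab.2]
    · rw [if_neg hab]
      refine if_neg ?_
      intro h
      apply hab
      have h2 := hP a ha
      have h3 := hQ b hb
      have h4 : f a + f b = c + d := by rw [← map_add, h, hv]
      constructor <;> linarith
  · rw [if_neg hv]
    symm
    refine Finset.sum_eq_zero fun a ha => Finset.sum_eq_zero fun b hb => ?_
    by_cases hab : f a = c ∧ f b = d
    · rw [if_pos hab]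
      refine if_neg ?_
      intro h
      apply hv
      rw [← h, map_add, hab.1, hab.2]
    · rw [if_neg hab]

theorem part_ne_zero {f : M → ℝ} {c : ℝ} {P : AddMonoidAlgebra R M} {a : M}
    (ha : a ∈ P.coeff.support) (hc : f a = c) : part f c P ≠ 0 := by
  intro h
  have : a ∈ (part f c P).coeff.support := mem_support_part.2 ⟨ha, hc⟩
  rw [h] at this
  simp at this

end part

/-! ### leading parts -/

/-- `a ↦ a ⬝ ω` -/
noncomputable def dotHom {n : ℕ} (ω : Vec n) : Vec n →+ ℝ where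
  toFun a := a ⬝ᵥ ω
  map_zero' := zero_dotProduct _
  map_add' a b := add_dotProduct _ _ _

theorem dotHom_apply {n : ℕ} (ω a : Vec n) : dotHom ω a = a ⬝ᵥ ω := rfl

theorem ne_zero_iff_support {R M : Type} [Semiring R] {P : AddMonoidAlgebra R M} :
    P ≠ 0 ↔ P.coeff.support.Nonempty := by
  rw [Finsupp.support_nonempty_iff, Ne, Ne, AddMonoidAlgebra.coeff_eq_zero]

theorem support_lead {n : ℕ} (ω : Vec n) (P : EA n) : (lead ω P).coeff.support =
    P.coeff.support.filter fun a => ∀ b ∈ P.coeff.support, b ⬝ᵥ ω ≤ a ⬝ᵥ ω := by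
  classical
  unfold lead
  rw [AddMonoidAlgebra.coeff_ofCoeff, Finsupp.support_filter]

theorem mem_support_lead {n : ℕ} {ω : Vec n} {P : EA n} {a : Vec n} :
    a ∈ (lead ω P).coeff.support ↔
      a ∈ P.coeff.support ∧ ∀ b ∈ P.coeff.support, b ⬝ᵥ ω ≤ a ⬝ᵥ ω := by
  rw [support_lead, Finset.mem_filter]

theorem coeff_lead {n : ℕ} (ω : Vec n) (P : EA n) {a : Vec n}
    (ha : a ∈ (lead ω P).coeff.support) : (lead ω P).coeff a = P.coeff a := by
  classical
  have h := (mem_support_lead.1 ha).2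
  unfold lead
  rw [AddMonoidAlgebra.coeff_ofCoeff, Finsupp.filter_apply, if_pos h]

theorem lead_eq_part {n : ℕ} {ω : Vec n} {P : EA n} {c : ℝ}
    (h : ∀ a ∈ P.coeff.support, a ⬝ᵥ ω ≤ c) (hc : ∃ a ∈ P.coeff.support, a ⬝ᵥ ω = c) :
    lead ω P = part (dotHom ω) c P := by
  classical
  obtain ⟨a₀, ha₀, ha₀c⟩ := hc
  apply AddMonoidAlgebra.coeff_injective
  ext a : 1
  rw [coeff_part]
  by_cases ha : a ∈ P.coeff.support
  · unfold lead
    rw [AddMonoidAlgebra.coeff_ofCoeff, Finsupp.filter_apply]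
    have : (∀ b ∈ P.coeff.support, b ⬝ᵥ ω ≤ a ⬝ᵥ ω) ↔ (dotHom ω) a = c := by
      rw [dotHom_apply]
      constructor
      · intro h1
        exact le_antisymm (h a ha) (ha₀c ▸ h1 a₀ ha₀)
      · intro h1 b hb
        rw [h1]
        exact h b hb
    simp only [this]
  · have h0 : P.coeff a = 0 := Finsupp.notMem_support_iff.1 ha
    unfold lead
    rw [AddMonoidAlgebra.coeff_ofCoeff, Finsupp.filter_apply, h0]
    simp

theorem exists_top {n : ℕ} (ω : Vec n) {P : EA n} (hP : P ≠ 0) :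
    ∃ c, (∀ a ∈ P.coeff.support, a ⬝ᵥ ω ≤ c) ∧ ∃ a ∈ P.coeff.support, a ⬝ᵥ ω = c := by
  obtain ⟨a, ha, hmax⟩ := Finset.exists_max_image P.coeff.support (fun a => a ⬝ᵥ ω)
    (ne_zero_iff_support.1 hP)
  exact ⟨a ⬝ᵥ ω, hmax, a, ha, rfl⟩

theorem lead_zero {n : ℕ} (ω : Vec n) : lead ω (0 : EA n) = 0 := by
  classical
  by_contra h
  obtain ⟨a, ha⟩ := ne_zero_iff_support.1 h
  have := (mem_support_lead.1 ha).1
  simp at this

theorem lead_ne_zero {n : ℕ} (ω : Vec n) {P : EA n} (h : P ≠ 0) : lead ω P ≠ 0 := by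
  obtain ⟨c, h1, a, ha, hac⟩ := exists_top ω h
  rw [lead_eq_part h1 ⟨a, ha, hac⟩]
  exact part_ne_zero ha hac

theorem lead_mul {n : ℕ} (ω : Vec n) (P Q : EA n) :
    lead ω (P * Q) = lead ω P * lead ω Q := by
  classical
  by_cases hP : P = 0
  · rw [hP, zero_mul, lead_zero, zero_mul]
  by_cases hQ : Q = 0
  · rw [hQ, mul_zero, lead_zero, mul_zero]
  obtain ⟨c, hc, hc'⟩ := exists_top ω hP
  obtain ⟨d, hd, hd'⟩ := exists_top ω hQ
  have h1 : part (dotHom ω) (c + d) (P * Q) = part (dotHom ω) c P * part (dotHom ω) d Q :=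
    part_mul (dotHom ω) hc hd
  rw [lead_eq_part hc hc', lead_eq_part hd hd', ← h1]
  refine lead_eq_part ?_ ?_
  · intro v hv
    have := AddMonoidAlgebra.support_coeff_mul_subset P Q hv
    obtain ⟨a, ha, b, hb, rfl⟩ := Finset.mem_add.1 this
    rw [add_dotProduct]
    exact add_le_add (hc a ha) (hd b hb)
  · have h2 : part (dotHom ω) (c + d) (P * Q) ≠ 0 := by
      rw [h1, ← lead_eq_part hc hc', ← lead_eq_part hd hd']
      exact mul_ne_zero (lead_ne_zero ω hP) (lead_ne_zero ω hQ)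
    obtain ⟨a, ha⟩ := ne_zero_iff_support.1 h2
    have := mem_support_part.1 ha
    exact ⟨a, this.1, this.2⟩

/-! ### homogeneity -/

theorem isHom_zero {n : ℕ} (d : ℕ) : IsHom d (0 : EA n) := fun a => by
  simpa using MvPolynomial.isHomogeneous_zero _ _ d

theorem isHom_mul {n d e : ℕ} {P Q : EA n} (hP : IsHom d P) (hQ : IsHom e Q) :
    IsHom (d + e) (P * Q) := by
  classical
  intro v
  rw [AddMonoidAlgebra.coeff_mul]
  unfold Finsupp.sum
  refine MvPolynomial.IsHomogeneous.sum _ _ _ fun a _ => ?_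
  refine MvPolynomial.IsHomogeneous.sum _ _ _ fun b _ => ?_
  dsimp only
  split_ifs
  · exact (hP a).mul (hQ b)
  · exact MvPolynomial.isHomogeneous_zero _ _ _

section degree

/-- `M ↦ ∑_d M_d X^{(0,d)}` -/
noncomputable def degPol {n : ℕ} : Pol n →+* AddMonoidAlgebra (Pol n) (Vec n × ℝ) :=
  MvPolynomial.eval₂Hom
    ((AddMonoidAlgebra.singleZeroRingHom).comp (MvPolynomial.C : ℝ →+* Pol n))
    (fun i => AddMonoidAlgebra.single (0, 1) (MvPolynomial.X i))

theorem degPol_monomial {n : ℕ} (s : Fin n →₀ ℕ) (r : ℝ) :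
    degPol (MvPolynomial.monomial s r) =
      AddMonoidAlgebra.single (0, (s.degree : ℝ)) (MvPolynomial.monomial s r) := by
  unfold degPol
  rw [MvPolynomial.coe_eval₂Hom, MvPolynomial.eval₂_monomial]
  have h : ∀ (i : Fin n) (k : ℕ), (AddMonoidAlgebra.single ((0 : Vec n), (1 : ℝ))
      (MvPolynomial.X i : Pol n)) ^ k = AddMonoidAlgebra.single (0, (k : ℝ))
        (MvPolynomial.X i ^ k) := by
    intro i k
    rw [AddMonoidAlgebra.single_pow]
    simp
  have h2 : ∀ F : Finset (Fin n), (∏ i ∈ F, (AddMonoidAlgebra.single ((0 : Vec n), (1 : ℝ))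
      (MvPolynomial.X i : Pol n)) ^ s i) = AddMonoidAlgebra.single (0, ((∑ i ∈ F, s i : ℕ) : ℝ))
        (∏ i ∈ F, MvPolynomial.X i ^ s i) := by
    classical
    intro F
    induction F using Finset.induction_on with
    | empty => simp [AddMonoidAlgebra.one_def]; rfl
    | insert i F hi ih =>
      rw [Finset.prod_insert hi, ih, h, AddMonoidAlgebra.single_mul_single, Finset.sum_insert hi,
        Finset.prod_insert hi]
      simp
  rw [Finsupp.prod, h2]
  change AddMonoidAlgebra.single 0 (MvPolynomial.C r) * _ = _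
  rw [AddMonoidAlgebra.single_mul_single, zero_add, MvPolynomial.monomial_eq]
  rfl

/-- total-degree bookkeeping -/
noncomputable def degEA {n : ℕ} : EA n →+* AddMonoidAlgebra (Pol n) (Vec n × ℝ) :=
  AddMonoidAlgebra.liftNCRingHom degPol
    { toFun := fun a => AddMonoidAlgebra.single (Multiplicative.toAdd a, (0 : ℝ)) 1
      map_one' := rfl
      map_mul' := fun a b => by rw [AddMonoidAlgebra.single_mul_single]; simp }
    (fun _ _ => Commute.all _ _)

theorem degEA_single {n : ℕ} (a : Vec n) (M : Pol n) :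
    degEA (AddMonoidAlgebra.single a M) = degPol M * AddMonoidAlgebra.single (a, (0 : ℝ)) 1 := by
  unfold degEA
  exact AddMonoidAlgebra.liftNC_single _ _ _ _

theorem coeff_degPol {n : ℕ} (M : Pol n) (v : Vec n) (t : ℝ) (hv : v ≠ 0) :
    (degPol M).coeff (v, t) = 0 := by
  classical
  induction M using MvPolynomial.induction_on' with
  | monomial s r =>
    rw [degPol_monomial, AddMonoidAlgebra.coeff_single, Finsupp.single_apply, if_neg]
    intro h
    exact hv (congrArg Prod.fst h).symm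
  | add p q hp hq => rw [map_add, AddMonoidAlgebra.coeff_add, Finsupp.add_apply, hp, hq, add_zero]

theorem coeff_degPol_zero {n : ℕ} (M : Pol n) (d : ℕ) :
    (degPol M).coeff (0, (d : ℝ)) = MvPolynomial.homogeneousComponent d M := by
  classical
  induction M using MvPolynomial.induction_on' with
  | monomial s r =>
    rw [degPol_monomial, AddMonoidAlgebra.coeff_single, Finsupp.single_apply]
    by_cases h : s.degree = d
    · rw [if_pos (by rw [h])]
      symm
      exact MvPolynomial.homogeneousComponent_eq_self (MvPolynomial.isHomogeneous_monomial r h)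
    · rw [if_neg (fun h' => h (Nat.cast_injective (congrArg Prod.snd h')))]
      symm
      have := MvPolynomial.homogeneousComponent_of_mem (m := d) (n := s.degree)
        (p := MvPolynomial.monomial s r) (MvPolynomial.isHomogeneous_monomial r rfl)
      rw [this, if_neg (fun h' => h h'.symm)]
  | add p q hp hq => rw [map_add, AddMonoidAlgebra.coeff_add, Finsupp.add_apply, hp, hq, map_add]

theorem coeff_degPol_nonnat {n : ℕ} (M : Pol n) (t : ℝ) (ht : ∀ d : ℕ, (d : ℝ) ≠ t) :
    (degPol M).coeff (0, t) = 0 := by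
  classical
  induction M using MvPolynomial.induction_on' with
  | monomial s r =>
    rw [degPol_monomial, AddMonoidAlgebra.coeff_single, Finsupp.single_apply, if_neg]
    intro h
    exact ht _ (congrArg Prod.snd h)
  | add p q hp hq => rw [map_add, AddMonoidAlgebra.coeff_add, Finsupp.add_apply, hp, hq, add_zero]

theorem coeff_degEA' {n : ℕ} (P : EA n) (a : Vec n) (t : ℝ) :
    (degEA P).coeff (a, t) = (degPol (P.coeff a)).coeff (0, t) := by
  classical
  conv_lhs => rw [← AddMonoidAlgebra.sum_coeff_single P, Finsupp.sum, map_sum]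
  rw [AddMonoidAlgebra.coeff_sum, Finsupp.finsetSum_apply]
  have h : ∀ b ∈ P.coeff.support, (degEA (AddMonoidAlgebra.single b (P.coeff b))).coeff (a, t) =
      if b = a then (degPol (P.coeff a)).coeff (0, t) else 0 := by
    intro b _
    rw [degEA_single, AddMonoidAlgebra.coeff_mul_single_eq_coeff_mul (m₂ := (a - b, t)), mul_one]
    · split_ifs with hb
      · rw [hb, sub_self]
      · exact coeff_degPol _ _ _ (sub_ne_zero.2 (Ne.symm hb))
    · rintro ⟨v, s⟩ _
      simp only [Prod.mk_add_mk, Prod.mk.injEq, add_zero]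
      constructor
      · rintro ⟨h1, h2⟩
        exact ⟨by rw [← h1]; abel, h2⟩
      · rintro ⟨h1, h2⟩
        exact ⟨by rw [h1]; abel, h2⟩
  rw [Finset.sum_congr rfl h, Finset.sum_ite_eq']
  split_ifs with ha
  · rfl
  · rw [Finsupp.notMem_support_iff.1 ha, map_zero]
    simp

theorem isHom_of_degEA {n : ℕ} {P : EA n} (hP : P ≠ 0) {c : ℝ}
    (h : ∀ v ∈ (degEA P).coeff.support, v.2 = c) : ∃ d : ℕ, (d : ℝ) = c ∧ IsHom d P := by
  have key : ∀ (a : Vec n) (k : ℕ), (k : ℝ) ≠ c →
      MvPolynomial.homogeneousComponent k (P.coeff a) = 0 := by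
    intro a k hk
    rw [← coeff_degPol_zero, ← coeff_degEA']
    by_contra hne
    exact hk (h (a, (k : ℝ)) (Finsupp.mem_support_iff.2 hne))
  by_cases hc : ∃ d : ℕ, (d : ℝ) = c
  · obtain ⟨d, hd⟩ := hc
    refine ⟨d, hd, fun a => ?_⟩
    have h1 := MvPolynomial.sum_homogeneousComponent (P.coeff a)
    rw [← h1]
    refine MvPolynomial.IsHomogeneous.sum _ _ _ fun k _ => ?_
    by_cases hk : k = d
    · rw [hk]
      exact MvPolynomial.homogeneousComponent_isHomogeneous _ _
    · rw [key a k (by rw [← hd]; exact_mod_cast hk)]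
      exact MvPolynomial.isHomogeneous_zero _ _ _
  · exfalso
    obtain ⟨a, ha⟩ := ne_zero_iff_support.1 hP
    apply Finsupp.mem_support_iff.1 ha
    rw [← MvPolynomial.sum_homogeneousComponent (P.coeff a)]
    refine Finset.sum_eq_zero fun k _ => key a k fun hk => hc ⟨k, hk⟩

theorem degEA_ne_zero {n : ℕ} {P : EA n} (hP : P ≠ 0) : degEA P ≠ 0 := by
  intro h
  obtain ⟨d, hd, -⟩ := isHom_of_degEA (P := P) hP (c := 1 / 2) (by rw [h]; simp)
  have h2 : ((2 * d : ℕ) : ℝ) = 1 := by push_cast; rw [hd]; norm_num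
  have h3 : 2 * d = 1 := by exact_mod_cast h2
  omega

theorem degEA_of_isHom {n d : ℕ} {P : EA n} (h : IsHom d P) :
    ∀ v ∈ (degEA P).coeff.support, v.2 = (d : ℝ) := by
  rintro ⟨a, t⟩ hv
  by_contra hne
  rw [Finsupp.mem_support_iff, coeff_degEA'] at hv
  apply hv
  by_cases ht : ∃ k : ℕ, (k : ℝ) = t
  · obtain ⟨k, rfl⟩ := ht
    rw [coeff_degPol_zero, MvPolynomial.homogeneousComponent_of_mem (h a), if_neg]
    intro hk
    exact hne (by rw [hk])
  · push Not at ht
    exact coeff_degPol_nonnat _ _ ht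

theorem isHom_of_mul {n d : ℕ} {P Q : EA n} (hP : P ≠ 0) (hQ : Q ≠ 0) (h : IsHom d (P * Q)) :
    ∃ d₁ d₂, IsHom d₁ P ∧ IsHom d₂ Q ∧ d₁ + d₂ = d := by
  classical
  have hP' := degEA_ne_zero hP
  have hQ' := degEA_ne_zero hQ
  obtain ⟨a, ha, hamax⟩ := Finset.exists_max_image (degEA P).coeff.support (fun v => v.2)
    (ne_zero_iff_support.1 hP')
  obtain ⟨a', ha', hamin⟩ := Finset.exists_min_image (degEA P).coeff.support (fun v => v.2)
    (ne_zero_iff_support.1 hP')
  obtain ⟨b, hb, hbmax⟩ := Finset.exists_max_image (degEA Q).coeff.support (fun v => v.2)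
    (ne_zero_iff_support.1 hQ')
  obtain ⟨b', hb', hbmin⟩ := Finset.exists_min_image (degEA Q).coeff.support (fun v => v.2)
    (ne_zero_iff_support.1 hQ')
  have hd := degEA_of_isHom h
  rw [map_mul] at hd
  let f : Vec n × ℝ →+ ℝ := AddMonoidHom.snd _ _
  have e1 : a.2 + b.2 = d := by
    have h1 := part_mul f (c := a.2) (d := b.2) (P := degEA P) (Q := degEA Q) hamax hbmax
    have h2 : part f (a.2 + b.2) (degEA P * degEA Q) ≠ 0 := by
      rw [h1]
      exact mul_ne_zero (part_ne_zero ha rfl) (part_ne_zero hb rfl)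
    obtain ⟨v, hv⟩ := ne_zero_iff_support.1 h2
    have h3 := mem_support_part.1 hv
    rw [← hd v h3.1]
    exact h3.2.symm
  have e2 : a'.2 + b'.2 = d := by
    have h1 := part_mul (-f) (c := -a'.2) (d := -b'.2) (P := degEA P) (Q := degEA Q)
      (fun v hv => neg_le_neg (hamin v hv)) (fun v hv => neg_le_neg (hbmin v hv))
    have h2 : part (-f : Vec n × ℝ →+ ℝ) (-a'.2 + -b'.2) (degEA P * degEA Q) ≠ 0 := by
      rw [h1]
      exact mul_ne_zero (part_ne_zero ha' rfl) (part_ne_zero hb' rfl)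
    obtain ⟨v, hv⟩ := ne_zero_iff_support.1 h2
    have h3 := mem_support_part.1 hv
    have h4 : -v.2 = -a'.2 + -b'.2 := h3.2
    have h5 := hd v h3.1
    linarith
  have h6 := hamin a ha
  have h7 := hbmin b hb
  obtain ⟨d₁, hd₁, hP1⟩ := isHom_of_degEA hP (c := a.2) fun v hv => by
    have h8 := hamax v hv
    have h9 := hamin v hv
    linarith
  obtain ⟨d₂, hd₂, hQ1⟩ := isHom_of_degEA hQ (c := b.2) fun v hv => by
    have h8 := hbmax v hv
    have h9 := hbmin v hv
    linarith
  refine ⟨d₁, d₂, hP1, hQ1, ?_⟩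
  have : (d₁ : ℝ) + d₂ = d := by rw [hd₁, hd₂, e1]
  exact_mod_cast this

end degree

theorem isHom_lead {n d : ℕ} {P : EA n} (hP : IsHom d P) (ω : Vec n) : IsHom d (lead ω P) := by
  intro a
  by_cases ha : a ∈ (lead ω P).coeff.support
  · rw [coeff_lead _ _ ha]
    exact hP a
  · rw [Finsupp.notMem_support_iff.1 ha]
    exact MvPolynomial.isHomogeneous_zero _ _ _

/-! ### convex geometry of Newton polytopes -/

/-- Inclusion of sets via support functions. -/
theorem sub_of_support {n : ℕ} {A B : Set (Vec n)} (hB : Convex ℝ B) (hBc : IsClosed B)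
    (h : ∀ ω : Vec n, ∀ x ∈ A, ∃ y ∈ B, x ⬝ᵥ ω ≤ y ⬝ᵥ ω) : A ⊆ B := by
  intro x hx
  by_contra hxB
  obtain ⟨f, u, hu, hux⟩ := geometric_hahn_banach_closed_point hB hBc hxB
  obtain ⟨ω, hω⟩ := exists_dot (f : Vec n →ₗ[ℝ] ℝ)
  obtain ⟨y, hy, hxy⟩ := h ω x hx
  have h1 := hu y hy
  have h2 : f x = x ⬝ᵥ ω := hω x
  have h3 : f y = y ⬝ᵥ ω := hω y
  linarith

theorem isCompact_Nw {n : ℕ} (P : EA n) : IsCompact (Nw P) :=
  (Finset.finite_toSet _).isCompact_convexHull ℝ

theorem convex_Nw {n : ℕ} (P : EA n) : Convex ℝ (Nw P) := convex_convexHull _ _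

theorem subset_Nw {n : ℕ} (P : EA n) : (P.coeff.support : Set (Vec n)) ⊆ Nw P :=
  subset_convexHull _ _

theorem Nw_nonempty {n : ℕ} {P : EA n} (hP : P ≠ 0) : (Nw P).Nonempty := by
  obtain ⟨a, ha⟩ := ne_zero_iff_support.1 hP
  exact ⟨a, subset_Nw P ha⟩

/-- A linear functional on a convex hull is bounded by its bound on the generators. -/
theorem dot_le_of_mem_convexHull {n : ℕ} {S : Set (Vec n)} {ω : Vec n} {c : ℝ}
    (h : ∀ a ∈ S, a ⬝ᵥ ω ≤ c) {x : Vec n} (hx : x ∈ convexHull ℝ S) : x ⬝ᵥ ω ≤ c := by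
  have hconv : Convex ℝ {x : Vec n | x ⬝ᵥ ω ≤ c} := by
    refine convex_halfSpace_le ⟨fun x y => add_dotProduct _ _ _, fun r x => smul_dotProduct _ _ _⟩ c
  exact convexHull_min h hconv hx

theorem le_dot_of_mem_convexHull {n : ℕ} {S : Set (Vec n)} {ω : Vec n} {c : ℝ}
    (h : ∀ a ∈ S, c ≤ a ⬝ᵥ ω) {x : Vec n} (hx : x ∈ convexHull ℝ S) : c ≤ x ⬝ᵥ ω := by
  have hconv : Convex ℝ {x : Vec n | c ≤ x ⬝ᵥ ω} := by
    refine convex_halfSpace_ge ⟨fun x y => add_dotProduct _ _ _, fun r x => smul_dotProduct _ _ _⟩ c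
  exact convexHull_min h hconv hx

/-- The face of the convex hull of a finite set. -/
theorem convexHull_face {n : ℕ} (S : Finset (Vec n)) (ω : Vec n) :
    convexHull ℝ ((face ω S : Finset (Vec n)) : Set (Vec n)) =
      {x ∈ convexHull ℝ (S : Set (Vec n)) |
        ∀ y ∈ convexHull ℝ (S : Set (Vec n)), y ⬝ᵥ ω ≤ x ⬝ᵥ ω} := by
  classical
  apply Subset.antisymm
  · intro x hx
    refine ⟨convexHull_mono ?_ hx, fun y hy => ?_⟩
    · intro a ha
      exact (Finset.mem_filter.1 ha).1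
    · refine dot_le_of_mem_convexHull (fun a ha => ?_) hy
      refine le_dot_of_mem_convexHull (fun b hb => ?_) hx
      exact (Finset.mem_filter.1 hb).2 a ha
  · rintro x ⟨hx, hmax⟩
    obtain ⟨w, hw0, hw1, hwx⟩ := Finset.mem_convexHull.1 hx
    rw [Finset.centerMass_eq_of_sum_1 _ _ hw1] at hwx
    simp only [id] at hwx
    have h0 : ∀ a ∈ S, a ∉ face ω S → w a = 0 := by
      intro a ha haf
      by_contra hwa
      have hlt : ∃ b ∈ S, a ⬝ᵥ ω < b ⬝ᵥ ω := by
        by_contra hcon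
        push Not at hcon
        exact haf (Finset.mem_filter.2 ⟨ha, hcon⟩)
      obtain ⟨b, hb, hab⟩ := hlt
      have h1 : x ⬝ᵥ ω = ∑ c ∈ S, w c * (c ⬝ᵥ ω) := by
        rw [← hwx, sum_dotProduct]
        exact Finset.sum_congr rfl fun c _ => by rw [smul_dotProduct, smul_eq_mul]
      have h2 : ∑ c ∈ S, w c * (c ⬝ᵥ ω) < ∑ c ∈ S, w c * (x ⬝ᵥ ω) := by
        refine Finset.sum_lt_sum (fun c hc => ?_) ⟨a, ha, ?_⟩
        · exact mul_le_mul_of_nonneg_left (hmax c (subset_convexHull _ _ hc)) (hw0 c hc)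
        · refine mul_lt_mul_of_pos_left ?_ (lt_of_le_of_ne (hw0 a ha) (Ne.symm hwa))
          exact lt_of_lt_of_le hab (hmax b (subset_convexHull _ _ hb))
      rw [← Finset.sum_mul, hw1, one_mul, ← h1] at h2
      exact lt_irrefl _ h2
    rw [Finset.mem_convexHull]
    have hsub : face ω S ⊆ S := Finset.filter_subset _ _
    refine ⟨w, fun y hy => hw0 y (hsub hy), ?_, ?_⟩
    · rw [← hw1]
      exact Finset.sum_subset hsub fun a ha hna => h0 a ha hna
    · rw [Finset.centerMass_eq_of_sum_1]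
      · rw [← hwx]
        refine Finset.sum_subset hsub fun a ha hna => ?_
        rw [h0 a ha hna, zero_smul]
      · rw [← hw1]
        exact Finset.sum_subset hsub fun a ha hna => h0 a ha hna

theorem Nw_lead {n : ℕ} (ω : Vec n) (P : EA n) :
    Nw (lead ω P) = {x ∈ Nw P | ∀ y ∈ Nw P, y ⬝ᵥ ω ≤ x ⬝ᵥ ω} := by
  unfold Nw
  rw [support_lead]
  exact convexHull_face P.coeff.support ω

theorem Nw_mul_subset {n : ℕ} (P Q : EA n) : Nw (P * Q) ⊆ Nw P + Nw Q := by
  classical
  unfold Nw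
  rw [← convexHull_add]
  refine convexHull_mono fun v hv => ?_
  have := AddMonoidAlgebra.support_coeff_mul_subset P Q (Finset.mem_coe.1 hv)
  rw [← Finset.coe_add]
  exact this

theorem Nw_mul {n : ℕ} {P Q : EA n} (hP : P ≠ 0) (hQ : Q ≠ 0) :
    Nw (P * Q) = Nw P + Nw Q := by
  classical
  refine (Nw_mul_subset P Q).antisymm ?_
  refine sub_of_support (convex_Nw _) (isCompact_Nw _).isClosed fun ω x hx => ?_
  obtain ⟨a, ha, b, hb, rfl⟩ := hx
  obtain ⟨v, hv⟩ := ne_zero_iff_support.1 (lead_ne_zero ω (mul_ne_zero hP hQ))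
  have hv2 := hv
  rw [lead_mul] at hv2
  have := AddMonoidAlgebra.support_coeff_mul_subset _ _ hv2
  obtain ⟨a', ha', b', hb', hab⟩ := Finset.mem_add.1 this
  refine ⟨v, subset_Nw _ (mem_support_lead.1 hv).1, ?_⟩
  rw [← hab, add_dotProduct, add_dotProduct]
  exact add_le_add (dot_le_of_mem_convexHull (mem_support_lead.1 ha').2 ha)
    (dot_le_of_mem_convexHull (mem_support_lead.1 hb').2 hb)

theorem vectorSpan_convexHull' {n : ℕ} (S : Set (Vec n)) :
    vectorSpan ℝ (convexHull ℝ S) = vectorSpan ℝ S := by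
  rw [← direction_affineSpan, ← direction_affineSpan, affineSpan_convexHull]

theorem vs_eq {n : ℕ} (P : EA n) : vs P = vectorSpan ℝ (Nw P) := by
  unfold vs Nw
  rw [vectorSpan_convexHull']

theorem vectorSpan_add' {n : ℕ} {A B : Set (Vec n)} (hA : A.Nonempty) (hB : B.Nonempty) :
    vectorSpan ℝ (A + B) = vectorSpan ℝ A ⊔ vectorSpan ℝ B := by
  apply le_antisymm
  · rw [vectorSpan_def, Submodule.span_le]
    rintro _ ⟨_, ⟨a, ha, b, hb, rfl⟩, _, ⟨a', ha', b', hb', rfl⟩, rfl⟩
    have : (a + b) -ᵥ (a' + b') = (a -ᵥ a') + (b -ᵥ b') := by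
      simp only [vsub_eq_sub]; abel
    simp only
    rw [this]
    exact Submodule.add_mem_sup (vsub_mem_vectorSpan ℝ ha ha') (vsub_mem_vectorSpan ℝ hb hb')
  · refine sup_le ?_ ?_
    · rw [vectorSpan_def, Submodule.span_le]
      rintro _ ⟨a, ha, a', ha', rfl⟩
      obtain ⟨b, hb⟩ := hB
      have : a -ᵥ a' = (a + b) -ᵥ (a' + b) := by simp
      simp only
      rw [this]
      exact vsub_mem_vectorSpan ℝ (add_mem_add ha hb) (add_mem_add ha' hb)
    · rw [vectorSpan_def, Submodule.span_le]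
      rintro _ ⟨b, hb, b', hb', rfl⟩
      obtain ⟨a, ha⟩ := hA
      have : b -ᵥ b' = (a + b) -ᵥ (a + b') := by simp
      simp only
      rw [this]
      exact vsub_mem_vectorSpan ℝ (add_mem_add ha hb) (add_mem_add ha hb')

theorem vs_mul {n : ℕ} {P Q : EA n} (hP : P ≠ 0) (hQ : Q ≠ 0) :
    vs (P * Q) = vs P ⊔ vs Q := by
  rw [vs_eq, vs_eq, vs_eq, Nw_mul hP hQ, vectorSpan_add' (Nw_nonempty hP) (Nw_nonempty hQ)]

/-- faces of faces -/
theorem lead_lead {n : ℕ} (ν ω : Vec n) (P : EA n) :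
    ∃ s₀ : ℝ, ∀ s ≥ s₀, lead (s • ν + ω) P = lead ω (lead ν P) := by
  classical
  have h1 : ∀ᶠ s : ℝ in atTop, ∀ a ∈ P.coeff.support, ∀ b ∈ P.coeff.support,
      a ⬝ᵥ ν < b ⬝ᵥ ν → a ⬝ᵥ (s • ν + ω) < b ⬝ᵥ (s • ν + ω) := by
    rw [eventually_all_finset]
    intro a _
    rw [eventually_all_finset]
    intro b _
    by_cases hab : a ⬝ᵥ ν < b ⬝ᵥ ν
    · have h2 : Tendsto (fun s : ℝ => s * (b ⬝ᵥ ν - a ⬝ᵥ ν)) atTop atTop :=
        tendsto_id.atTop_mul_const (sub_pos.2 hab)
      filter_upwards [h2.eventually_gt_atTop (a ⬝ᵥ ω - b ⬝ᵥ ω)] with s hs _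
      rw [dotProduct_add, dotProduct_add, dotProduct_smul, dotProduct_smul, smul_eq_mul,
        smul_eq_mul]
      nlinarith
    · exact Eventually.of_forall fun s h => absurd h hab
  obtain ⟨s₀, hs₀⟩ := eventually_atTop.1 h1
  refine ⟨s₀, fun s hs => ?_⟩
  have key := hs₀ s hs
  have hsupp : (lead (s • ν + ω) P).coeff.support = (lead ω (lead ν P)).coeff.support := by
    ext a
    rw [mem_support_lead, mem_support_lead, mem_support_lead]
    constructor
    · rintro ⟨ha, hmax⟩
      have hν : ∀ b ∈ P.coeff.support, b ⬝ᵥ ν ≤ a ⬝ᵥ ν := by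
        intro b hb
        by_contra hlt
        exact absurd (hmax b hb) (not_le.2 (key a ha b hb (not_le.1 hlt)))
      refine ⟨⟨ha, hν⟩, fun b hb => ?_⟩
      rw [mem_support_lead] at hb
      have h3 := hmax b hb.1
      have h4 : a ⬝ᵥ ν = b ⬝ᵥ ν := le_antisymm (hb.2 a ha) (hν b hb.1)
      rw [dotProduct_add, dotProduct_add, dotProduct_smul, dotProduct_smul, h4] at h3
      linarith
    · rintro ⟨⟨ha, hν⟩, hmax⟩
      refine ⟨ha, fun b hb => ?_⟩
      rcases lt_or_eq_of_le (hν b hb) with h | h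
      · exact (key b hb a ha h).le
      · have hb' : b ∈ (lead ν P).coeff.support := by
          rw [mem_support_lead]
          exact ⟨hb, fun c hc => h ▸ hν c hc⟩
        have := hmax b hb'
        rw [dotProduct_add, dotProduct_add, dotProduct_smul, dotProduct_smul, h]
        linarith
  apply AddMonoidAlgebra.coeff_injective
  ext a : 1
  by_cases ha : a ∈ (lead (s • ν + ω) P).coeff.support
  · have ha' := ha
    rw [hsupp] at ha'
    rw [coeff_lead _ _ ha, coeff_lead _ _ ha', coeff_lead _ _ (mem_support_lead.1 ha').1]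
  · have ha' := ha
    rw [hsupp] at ha'
    rw [Finsupp.notMem_support_iff.1 ha, Finsupp.notMem_support_iff.1 ha']

end Pool.Agent.Covg
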