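import Pool.Agent.Work.MP_177351_gt.AnaC

/-!
# Module `Ana`: the uniform fibre lemma, analytic part
-/

set_option autoImplicit false

open MeasureTheory MvPolynomial Set Filter Topology
open scoped Pointwise Matrix

namespace Pool.Agent.Covg

namespace AnaAux

theorem zpow_limit {e : ℤ} {L : ℝ} (hL : L ≠ 0)
    (h : Tendsto (fun τ : ℝ => τ ^ e) atTop (𝓝 L)) : e = 0 := by
  rcases lt_trichotomy e 0 with h1 | h1 | h1
  · exact absurd (tendsto_nhds_unique h (tendsto_zpow_atTop_zero h1)) hL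
  · exact h1
  · exact absurd h (not_tendsto_nhds_of_tendsto_atTop (tendsto_zpow_atTop_atTop h1) L)

/-- comparison of the one-sided expansion with a function -/
theorem asym {T q : ℝ → ℝ} {m : ℕ} {a c C δ δ' : ℝ} (hδ : 0 < δ) (hδ' : 0 < δ')
    (h1 : Tendsto (fun τ => τ ^ m * T τ) atTop (𝓝 a))
    (h2 : ∀ τ : ℝ, 1 ≤ τ → a + c / τ - C * Real.exp (-δ * τ) ≤ τ ^ m * T τ)
    (hq : (fun τ => T τ - q τ) =O[atTop] fun τ => Real.exp (-δ' * τ)) :
    Tendsto (fun τ => τ ^ m * q τ) atTop (𝓝 a) ∧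
    ∀ b : ℝ, Tendsto (fun τ => τ * (τ ^ m * q τ - a)) atTop (𝓝 b) → c ≤ b := by
  have h3 : ∀ n : ℕ, Tendsto (fun τ => τ ^ n * (T τ - q τ)) atTop (𝓝 0) := fun n => by
    have h4 := (Asymptotics.isBigO_refl (fun τ : ℝ => τ ^ n) atTop).mul hq
    exact h4.trans_tendsto (tendsto_pow_exp n hδ')
  refine ⟨?_, fun b hb => ?_⟩
  · have h4 := h1.sub (h3 m)
    rw [sub_zero] at h4
    refine h4.congr fun τ => ?_
    ring
  · have h4 := hb.add (h3 (m + 1))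
    rw [add_zero] at h4
    have h5 : Tendsto (fun τ : ℝ => c - C * (τ ^ 1 * Real.exp (-δ * τ))) atTop
        (𝓝 (c - C * 0)) := ((tendsto_pow_exp 1 hδ).const_mul C).const_sub c
    rw [mul_zero, sub_zero] at h5
    refine le_of_tendsto_of_tendsto h5 h4 ?_
    filter_upwards [eventually_ge_atTop 1] with τ hτ
    have h6 := h2 τ hτ
    have hτ0 : 0 < τ := by linarith
    have h7 : τ * (a + c / τ - C * Real.exp (-δ * τ)) ≤ τ * (τ ^ m * T τ) :=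
      mul_le_mul_of_nonneg_left h6 hτ0.le
    have h8 : τ * (a + c / τ - C * Real.exp (-δ * τ)) =
        τ * a + c - C * (τ ^ 1 * Real.exp (-δ * τ)) := by field_simp
    rw [h8] at h7
    have h9 : τ * (τ ^ m * q τ - a) + τ ^ (m + 1) * (T τ - q τ) = τ * (τ ^ m * T τ) - τ * a := by
      ring
    linarith [h9]

/-- polynomial in `1/τ` -/
theorem reverse_eval (p : Polynomial ℝ) {τ : ℝ} (hτ : τ ≠ 0) :
    p.eval τ = p.reverse.eval (τ⁻¹) * τ ^ p.natDegree := by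
  letI : Invertible τ := invertibleOfNonzero hτ
  have h := Polynomial.eval₂_reverse_mul_pow (RingHom.id ℝ) τ p
  rw [invOf_eq_inv] at h
  exact h.symm

end AnaAux

open AnaAux

/-- If the asymptotic expansions of `∫_K exp (τ ω)` at `+∞` and `-∞` agree up to a constant and
a power of `τ`, then the fibres of `A` are points. -/
theorem ana {k m : ℕ} {A : Set (Vec k × Vec m)} {B : Set (Vec k)} (hAc : Convex ℝ A)
    (hAk : IsCompact A) (S : Finset (Vec m))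
    (hS : Prod.snd '' A = convexHull ℝ (S : Set (Vec m))) (hB : Body B)
    (ω : Vec m) {x₁ x₂ : Vec k × Vec m} (hx₁ : x₁ ∈ A) (hx₂ : x₂ ∈ A)
    (h1 : ∀ x ∈ A, x ≠ x₁ → x.2 ⬝ᵥ ω < x₁.2 ⬝ᵥ ω) (h2 : ∀ x ∈ A, x ≠ x₂ → x₂.2 ⬝ᵥ ω < x.2 ⬝ᵥ ω)
    (hint : (interior (Prod.snd '' A)).Nonempty)
    {K : Set (Vec k × Vec m)} (hK : K = {x | ∃ a ∈ A, ∃ b ∈ B, x = (a.1 + b, a.2)})
    (p : Polynomial ℝ) (N : ℕ) (κ : ℝ) (s : ℤ) (δ : ℝ) (hδ : 0 < δ)
    (hp : (fun τ : ℝ => (∫ x in K, Real.exp (τ * (x.2 ⬝ᵥ ω))) *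
      Real.exp (-τ * (x₁.2 ⬝ᵥ ω)) - p.eval τ / τ ^ N) =O[atTop] fun τ => Real.exp (-δ * τ))
    (hm : (fun τ : ℝ => (∫ x in K, Real.exp (τ * (x.2 ⬝ᵥ ω))) *
      Real.exp (-τ * (x₂.2 ⬝ᵥ ω)) - κ * τ ^ s * (p.eval τ / τ ^ N)) =O[atBot]
        fun τ => Real.exp (δ * τ)) :
    ∀ a ∈ A, ∀ a' ∈ A, a.2 = a'.2 → a = a' := by
  by_contra hcon
  push Not at hcon
  have hK' : K = SB A B := hK
  subst hK'
  obtain ⟨a, ha, ht1, c, C, δ₁, hc, hδ₁, hcpos, hT⟩ := one_side hAc hAk S hS hB ω hx₁ h1 hint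
  obtain ⟨a₂, ha₂, ht2, c₂, C₂, δ₂, hc₂, hδ₂, -, hT₂⟩ := one_side hAc hAk S hS hB (-ω) hx₂
    (fun x hx hne => by
      have := h2 x hx hne
      rw [dotProduct_neg, dotProduct_neg]; linarith) hint
  have hcp : 0 < c := hcpos (by
    obtain ⟨b, hb, b', hb', h3, h4⟩ := hcon
    exact ⟨b, hb, b', hb', h3, h4⟩)
  obtain ⟨hq1, hq2⟩ := asym (q := fun τ => p.eval τ / τ ^ N) hδ₁ hδ ht1 hT hp
  -- the reversed function at `-∞`
  have hm' : (fun σ => TT A B x₂.2 (-ω) σ - κ * (-σ) ^ s * (p.eval (-σ) / (-σ) ^ N)) =O[atTop]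
      fun σ => Real.exp (-δ * σ) := by
    have h3 := hm.comp_tendsto tendsto_neg_atTop_atBot
    refine (h3.congr (fun σ => ?_) fun σ => ?_)
    · simp only [Function.comp_apply, TT, dotProduct_neg, neg_mul, mul_neg, neg_neg]
    · simp only [Function.comp_apply]
      congr 1; ring
  obtain ⟨hr1, hr2⟩ := asym (q := fun σ => κ * (-σ) ^ s * (p.eval (-σ) / (-σ) ^ N))
    hδ₂ hδ ht2 hT₂ hm'
  -- normal form of the rational function
  set P := p.reverse with hP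
  set d := p.natDegree with hd
  have hinv : Tendsto (fun τ : ℝ => τ⁻¹) atTop (𝓝 0) := tendsto_inv_atTop_zero
  have hPc : Tendsto (fun τ : ℝ => P.eval τ⁻¹) atTop (𝓝 (P.eval 0)) :=
    (P.continuous.tendsto 0).comp hinv
  have hPc' : Tendsto (fun τ : ℝ => P.eval (-τ)⁻¹) atTop (𝓝 (P.eval 0)) := by
    have h3 : Tendsto (fun τ : ℝ => (-τ)⁻¹) atTop (𝓝 0) := by
      have := hinv.neg
      simpa [inv_neg] using this
    exact (P.continuous.tendsto 0).comp h3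
  have hp0 : p ≠ 0 := by
    rintro rfl
    have h3 : Tendsto (fun τ : ℝ => τ ^ m * ((0 : Polynomial ℝ).eval τ / τ ^ N)) atTop (𝓝 0) := by
      simp
    exact ha.ne' (tendsto_nhds_unique hq1 h3)
  have hP0 : P.eval 0 ≠ 0 := by
    rw [hP, ← Polynomial.coeff_zero_eq_eval_zero, Polynomial.coeff_zero_reverse]
    exact Polynomial.leadingCoeff_ne_zero.2 hp0
  have hform : ∀ τ : ℝ, τ ≠ 0 →
      τ ^ m * (p.eval τ / τ ^ N) = P.eval τ⁻¹ * τ ^ ((m : ℤ) + d - N) := fun τ hτ => by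
    rw [reverse_eval p hτ, zpow_sub₀ hτ, zpow_add₀ hτ, ← hP, ← hd]
    simp only [zpow_natCast]
    ring
  have he : (m : ℤ) + d - N = 0 := by
    have h3 : Tendsto (fun τ : ℝ => (P.eval τ⁻¹)⁻¹ * (τ ^ m * (p.eval τ / τ ^ N))) atTop
        (𝓝 ((P.eval 0)⁻¹ * a)) := (hPc.inv₀ hP0).mul hq1
    have h4 : Tendsto (fun τ : ℝ => τ ^ ((m : ℤ) + d - N)) atTop (𝓝 ((P.eval 0)⁻¹ * a)) := by
      refine h3.congr' ?_
      filter_upwards [eventually_gt_atTop 0, hPc.eventually_ne hP0] with τ hτ h5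
      rw [hform τ hτ.ne', ← mul_assoc, inv_mul_cancel₀ h5, one_mul]
    exact zpow_limit (mul_ne_zero (inv_ne_zero hP0) ha.ne') h4
  have hform' : ∀ τ : ℝ, τ ≠ 0 → τ ^ m * (p.eval τ / τ ^ N) = P.eval τ⁻¹ := fun τ hτ => by
    rw [hform τ hτ, he, zpow_zero, mul_one]
  have hPa : P.eval 0 = a := by
    refine tendsto_nhds_unique hPc (hq1.congr' ?_)
    filter_upwards [eventually_gt_atTop 0] with τ hτ
    exact hform' τ hτ.ne'
  set b := P.derivative.eval 0 with hb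
  have hder : Tendsto (fun h : ℝ => h⁻¹ * (P.eval h - P.eval 0)) (𝓝[≠] 0) (𝓝 b) := by
    have h3 := (P.hasDerivAt 0)
    rw [hasDerivAt_iff_tendsto_slope] at h3
    refine h3.congr fun h => ?_
    simp [slope_def_field, div_eq_inv_mul]
  have hb1 : Tendsto (fun τ => τ * (τ ^ m * (p.eval τ / τ ^ N) - a)) atTop (𝓝 b) := by
    have h3 : Tendsto (fun τ : ℝ => τ⁻¹) atTop (𝓝[≠] 0) := by
      refine tendsto_nhdsWithin_iff.2 ⟨hinv, ?_⟩
      filter_upwards [eventually_gt_atTop 0] with τ hτ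
      exact inv_ne_zero hτ.ne'
    refine (hder.comp h3).congr' ?_
    filter_upwards [eventually_gt_atTop 0] with τ hτ
    simp only [Function.comp_apply]
    rw [hform' τ hτ.ne', hPa, inv_inv]
  have hcb : c ≤ b := hq2 b hb1
  -- the other side
  have hsg : ∀ σ : ℝ, 0 < σ → σ ^ m * (κ * (-σ) ^ s * (p.eval (-σ) / (-σ) ^ N)) =
      κ * (-1) ^ m * (-σ) ^ s * P.eval (-σ)⁻¹ := fun σ hσ => by
    rw [← hform' (-σ) (neg_ne_zero.2 hσ.ne')]
    have h3 : σ ^ m = (-1) ^ m * (-σ) ^ m := by rw [← mul_pow]; ring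
    rw [h3]; ring
  have hs : s = 0 ∧ κ ≠ 0 := by
    have h3 : Tendsto (fun σ : ℝ => (P.eval (-σ)⁻¹)⁻¹ *
        (σ ^ m * (κ * (-σ) ^ s * (p.eval (-σ) / (-σ) ^ N)))) atTop
        (𝓝 ((P.eval 0)⁻¹ * a₂)) := (hPc'.inv₀ hP0).mul hr1
    have h4 : Tendsto (fun σ : ℝ => (κ * (-1) ^ m * (-1) ^ s) * σ ^ s) atTop
        (𝓝 ((P.eval 0)⁻¹ * a₂)) := by
      refine h3.congr' ?_
      filter_upwards [eventually_gt_atTop 0, hPc'.eventually_ne hP0] with σ hσ h5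
      rw [hsg σ hσ]
      have h6 : (-σ) ^ s = (-1) ^ s * σ ^ s := by rw [← mul_zpow]; ring_nf
      rw [h6]
      calc (P.eval (-σ)⁻¹)⁻¹ * (κ * (-1) ^ m * ((-1) ^ s * σ ^ s) * P.eval (-σ)⁻¹)
          = ((P.eval (-σ)⁻¹)⁻¹ * P.eval (-σ)⁻¹) * (κ * (-1) ^ m * (-1) ^ s * σ ^ s) := by ring
        _ = _ := by rw [inv_mul_cancel₀ h5, one_mul]
    have h5 : (P.eval 0)⁻¹ * a₂ ≠ 0 := mul_ne_zero (inv_ne_zero hP0) ha₂.ne'
    have hκ : κ ≠ 0 := by
      rintro rfl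
      simp only [zero_mul] at h4
      exact h5 (tendsto_nhds_unique h4 tendsto_const_nhds)
    refine ⟨?_, hκ⟩
    have h6 : κ * (-1) ^ m * (-1 : ℝ) ^ s ≠ 0 :=
      mul_ne_zero (mul_ne_zero hκ (pow_ne_zero _ (by norm_num))) (zpow_ne_zero _ (by norm_num))
    have h7 : Tendsto (fun σ : ℝ => σ ^ s) atTop
        (𝓝 ((κ * (-1) ^ m * (-1 : ℝ) ^ s)⁻¹ * ((P.eval 0)⁻¹ * a₂))) := by
      refine (h4.const_mul ((κ * (-1) ^ m * (-1 : ℝ) ^ s)⁻¹)).congr fun σ => ?_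
      rw [← mul_assoc, inv_mul_cancel₀ h6, one_mul]
    exact zpow_limit (mul_ne_zero (inv_ne_zero h6) h5) h7
  obtain ⟨hs0, hκ0⟩ := hs
  set κ' := κ * (-1) ^ m with hκ'
  have hsg' : ∀ σ : ℝ, 0 < σ → σ ^ m * (κ * (-σ) ^ s * (p.eval (-σ) / (-σ) ^ N)) =
      κ' * P.eval (-σ)⁻¹ := fun σ hσ => by
    rw [hsg σ hσ, hs0, zpow_zero, mul_one]
  have ha₂' : κ' * a = a₂ := by
    have h3 : Tendsto (fun σ : ℝ => κ' * P.eval (-σ)⁻¹) atTop (𝓝 (κ' * P.eval 0)) :=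
      hPc'.const_mul κ'
    rw [hPa] at h3
    refine tendsto_nhds_unique h3 (hr1.congr' ?_)
    filter_upwards [eventually_gt_atTop 0] with σ hσ
    exact hsg' σ hσ
  have hκpos : 0 < κ' := by
    by_contra h
    push Not at h
    nlinarith
  have hb2 : Tendsto (fun σ => σ * (σ ^ m * (κ * (-σ) ^ s * (p.eval (-σ) / (-σ) ^ N)) - a₂)) atTop
      (𝓝 (-(κ' * b))) := by
    have h3 : Tendsto (fun σ : ℝ => (-σ)⁻¹) atTop (𝓝[≠] 0) := by
      refine tendsto_nhdsWithin_iff.2 ⟨?_, ?_⟩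
      · have := hinv.neg
        simpa [inv_neg] using this
      · filter_upwards [eventually_gt_atTop 0] with τ hτ
        exact inv_ne_zero (neg_ne_zero.2 hτ.ne')
    have h4 := ((hder.comp h3).const_mul κ').neg
    refine h4.congr' ?_
    filter_upwards [eventually_gt_atTop 0] with σ hσ
    simp only [Function.comp_apply]
    rw [hsg' σ hσ, hPa, ← ha₂', inv_inv]
    ring
  have h5 := hr2 _ hb2
  nlinarith

end Pool.Agent.Covg
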