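import Pool.Agent.Work.MP_177351_gt.Defs

/-!
# Module `Ana`, part A: the cone of a polytope at a vertex
-/

set_option autoImplicit false

open MeasureTheory MvPolynomial Set Filter Topology
open scoped Pointwise Matrix

namespace Pool.Agent.Covg.AnaAux

variable {m : ℕ}

/-- exponential decay is integrable -/
theorem integrable_exp_norm {c : ℝ} (hc : 0 < c) :
    Integrable fun u : Vec m => Real.exp (-c * ‖u‖) := by
  have h1 : Integrable fun u : Vec m => (1 + ‖u‖) ^ (-((m : ℝ) + 1)) :=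
    integrable_one_add_norm (by simp)
  -- `(1+x)^(m+1) ≤ C exp (c x)`
  have h2 : ∃ C : ℝ, ∀ x : ℝ, 0 ≤ x → (1 + x) ^ (m + 1) ≤ C * Real.exp (c * x) := by
    refine ⟨Real.exp c * ((m + 1).factorial / c ^ (m + 1)), fun x hx => ?_⟩
    have h3 := Real.pow_div_factorial_le_exp (x := c * (1 + x)) (by positivity) (m + 1)
    rw [mul_pow] at h3
    have h4 : Real.exp (c * (1 + x)) = Real.exp c * Real.exp (c * x) := by
      rw [← Real.exp_add]; ring_nf
    rw [h4, div_le_iff₀ (by positivity)] at h3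
    have h5 : (1 + x) ^ (m + 1) = (c ^ (m + 1) * (1 + x) ^ (m + 1)) / c ^ (m + 1) := by
      field_simp
    rw [h5, div_le_iff₀ (by positivity)]
    refine h3.trans (le_of_eq ?_)
    field_simp
  obtain ⟨C, hC⟩ := h2
  refine (h1.const_mul C).mono' (by fun_prop) (Eventually.of_forall fun u => ?_)
  have h6 := hC ‖u‖ (norm_nonneg _)
  have h7 : (1 + ‖u‖) ^ (-((m : ℝ) + 1)) = ((1 + ‖u‖) ^ (m + 1))⁻¹ := by
    rw [Real.rpow_neg (by positivity)]
    congr 1
    exact_mod_cast Real.rpow_natCast (1 + ‖u‖) (m + 1)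
  rw [Real.norm_of_nonneg (Real.exp_pos _).le, h7, ← div_eq_mul_inv,
    le_div_iff₀ (by positivity), neg_mul, Real.exp_neg, inv_mul_le_iff₀ (Real.exp_pos _), mul_comm]
  exact h6

/-- The cone generated by a set. -/
def cone (D : Set (Vec m)) : Set (Vec m) := {u | ∃ t : ℝ, 0 < t ∧ t • u ∈ D}

theorem subset_cone (D : Set (Vec m)) : D ⊆ cone D := fun u hu => ⟨1, one_pos, by simpa using hu⟩

theorem smul_mem_of {D : Set (Vec m)} (hD : Convex ℝ D) (h0 : (0 : Vec m) ∈ D) {u : Vec m}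
    (hu : u ∈ D) {t : ℝ} (ht : 0 ≤ t) (ht' : t ≤ 1) : t • u ∈ D :=
  hD.smul_mem_of_zero_mem h0 hu ⟨ht, ht'⟩

theorem measurable_cone {D : Set (Vec m)} (hD : Convex ℝ D) (h0 : (0 : Vec m) ∈ D)
    (hc : IsClosed D) : MeasurableSet (cone D) := by
  have : cone D = ⋃ n : ℕ, {u | ((n : ℝ) + 1)⁻¹ • u ∈ D} := by
    ext u
    simp only [cone, mem_setOf_eq, mem_iUnion]
    constructor
    · rintro ⟨t, ht, hu⟩
      obtain ⟨n, hn⟩ := exists_nat_gt (t⁻¹)
      refine ⟨n, ?_⟩
      have h1 : ((n : ℝ) + 1)⁻¹ • u = (((n : ℝ) + 1)⁻¹ * t⁻¹) • (t • u) := by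
        rw [smul_smul]; congr 1; field_simp
      have h1' : (0 : ℝ) < t⁻¹ := by positivity
      rw [h1]
      refine smul_mem_of hD h0 hu (by positivity) ?_
      rw [inv_mul_le_iff₀ (by positivity)]
      linarith
    · rintro ⟨n, hn⟩
      exact ⟨_, by positivity, hn⟩
  rw [this]
  refine MeasurableSet.iUnion fun n => ?_
  exact (hc.preimage (continuous_const_smul _)).measurableSet

/-- The key property of a cone over a polytope with apex at a vertex. -/
theorem cone_key {S : Finset (Vec m)} {w : Vec m} (hw : w ∈ convexHull ℝ (S : Set (Vec m)))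
    (ω : Vec m) (hmax : ∀ s ∈ S, s ≠ w → s ⬝ᵥ ω < w ⬝ᵥ ω) :
    ∃ δ : ℝ, 0 < δ ∧ ∀ u ∈ cone {u : Vec m | u + w ∈ convexHull ℝ (S : Set (Vec m))}, ∀ R : ℝ,
      0 < R → -(R * δ) ≤ u ⬝ᵥ ω → R⁻¹ • u + w ∈ convexHull ℝ (S : Set (Vec m)) := by
  classical
  set S' := S.filter (· ≠ w) with hS'
  have h1 : ∃ δ : ℝ, 0 < δ ∧ ∀ s ∈ S', δ ≤ (w - s) ⬝ᵥ ω := by
    by_cases hne : S'.Nonempty
    · obtain ⟨s₀, hs₀, hmin⟩ := S'.exists_min_image (fun s => (w - s) ⬝ᵥ ω) hne
      refine ⟨(w - s₀) ⬝ᵥ ω, ?_, hmin⟩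
      rw [Finset.mem_filter] at hs₀
      rw [sub_dotProduct]
      linarith [hmax s₀ hs₀.1 hs₀.2]
    · refine ⟨1, one_pos, fun s hs => (hne ⟨s, hs⟩).elim⟩
  obtain ⟨δ, hδ, hδ'⟩ := h1
  refine ⟨δ, hδ, ?_⟩
  rintro u ⟨t, ht, hu⟩ R hR hle
  set D : Set (Vec m) := {u : Vec m | u + w ∈ convexHull ℝ (S : Set (Vec m))} with hD
  have hDc : Convex ℝ D := by
    exact (convex_convexHull ℝ (S : Set (Vec m))).translate_preimage_left w
  have h0 : (0 : Vec m) ∈ D := by simpa [hD] using hw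
  have hsD : ∀ s ∈ S, s - w ∈ D := fun s hs => by
    simpa [hD] using subset_convexHull ℝ (S : Set (Vec m)) hs
  have hu' : t • u + w ∈ convexHull ℝ (S : Set (Vec m)) := hu
  rw [Finset.mem_convexHull'] at hu'
  obtain ⟨α, hα0, hα1, hαs⟩ := hu'
  have h2 : t • u = ∑ s ∈ S', α s • (s - w) := by
    have h3 : ∑ s ∈ S, α s • (s - w) = t • u := by
      simp only [smul_sub, Finset.sum_sub_distrib, hαs, ← Finset.sum_smul, hα1]
      simp
    rw [← h3, hS', Finset.sum_filter]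
    refine Finset.sum_congr rfl fun s _ => ?_
    split_ifs with h
    · rfl
    · push Not at h; simp [h]
  set σ := ∑ s ∈ S', α s with hσ
  have hα0' : ∀ s ∈ S', 0 ≤ α s := fun s hs => hα0 s (Finset.mem_filter.1 hs).1
  have hσ0 : 0 ≤ σ := Finset.sum_nonneg hα0'
  have h4 : t * (u ⬝ᵥ ω) ≤ - (σ * δ) := by
    have : t * (u ⬝ᵥ ω) = ∑ s ∈ S', α s * ((s - w) ⬝ᵥ ω) := by
      rw [← smul_eq_mul, ← smul_dotProduct, h2, sum_dotProduct]
      simp [smul_dotProduct]
    rw [this, hσ, Finset.sum_mul, ← Finset.sum_neg_distrib]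
    refine Finset.sum_le_sum fun s hs => ?_
    have h5 := hδ' s hs
    rw [sub_dotProduct] at h5 ⊢
    nlinarith [hα0' s hs]
  have h5 : σ ≤ R * t := by
    have : -(t * (R * δ)) ≤ -(σ * δ) := by
      refine le_trans ?_ h4
      nlinarith
    have h6 : σ * δ ≤ (R * t) * δ := by linarith
    exact le_of_mul_le_mul_right h6 hδ
  change R⁻¹ • u ∈ D
  rcases hσ0.eq_or_lt with h6 | h6
  · have h7 : ∀ s ∈ S', α s = 0 := (Finset.sum_eq_zero_iff_of_nonneg hα0').1 h6.symm
    have h8 : t • u = 0 := by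
      rw [h2]; exact Finset.sum_eq_zero fun s hs => by simp [h7 s hs]
    have h9 : u = 0 := (smul_eq_zero.1 h8).resolve_left ht.ne'
    simpa [h9] using h0
  · have h7 : (∑ s ∈ S', (α s / σ) • (s - w)) ∈ D := by
      refine hDc.sum_mem (fun s hs => div_nonneg (hα0' s hs) hσ0) ?_
        (fun s hs => hsD s (Finset.mem_filter.1 hs).1)
      rw [← Finset.sum_div, ← hσ, div_self h6.ne']
    have h8 : R⁻¹ • u = (σ / (R * t)) • ∑ s ∈ S', (α s / σ) • (s - w) := by
      rw [Finset.smul_sum]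
      have : ∀ s, (σ / (R * t)) • (α s / σ) • (s - w) = (R * t)⁻¹ • (α s • (s - w)) := fun s => by
        rw [smul_smul, smul_smul]; congr 1; field_simp
      simp only [this]
      rw [← Finset.smul_sum, ← h2, smul_smul]
      congr 1; field_simp
    rw [h8]
    refine smul_mem_of hDc h0 h7 (by positivity) ?_
    rw [div_le_one (by positivity)]
    exact h5

/-- On the cone the functional decays linearly. -/
theorem cone_decay {S : Finset (Vec m)} {w : Vec m} (hw : w ∈ convexHull ℝ (S : Set (Vec m)))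
    (ω : Vec m) (hmax : ∀ s ∈ S, s ≠ w → s ⬝ᵥ ω < w ⬝ᵥ ω) :
    ∃ c : ℝ, 0 < c ∧ ∀ u ∈ cone {u : Vec m | u + w ∈ convexHull ℝ (S : Set (Vec m))},
      u ⬝ᵥ ω ≤ -(c * ‖u‖) := by
  obtain ⟨δ, hδ, key⟩ := cone_key hw ω hmax
  have hb : Bornology.IsBounded (convexHull ℝ (S : Set (Vec m))) :=
    (S.finite_toSet.isCompact_convexHull ℝ).isBounded
  obtain ⟨M₀, hM₀⟩ := hb.exists_norm_le
  set M := M₀ + ‖w‖ + 1 with hM
  have hM₀' : 0 ≤ M₀ := (norm_nonneg _).trans (hM₀ w hw)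
  have hMpos : 0 < M := by positivity
  refine ⟨δ / M, by positivity, fun u hu => ?_⟩
  by_contra hcon
  push Not at hcon
  have hu0 : u ≠ 0 := by
    rintro rfl
    simp at hcon
  have hun : 0 < ‖u‖ := norm_pos_iff.2 hu0
  have h1 : max 0 (-(u ⬝ᵥ ω) / δ) < ‖u‖ / M := by
    refine max_lt (by positivity) ?_
    rw [div_lt_div_iff₀ hδ hMpos]
    have h2 : -(δ / M * ‖u‖) * M = -(δ * ‖u‖) := by field_simp
    nlinarith
  obtain ⟨R, hR1, hR2⟩ := exists_between h1
  have hR0 : 0 < R := (le_max_left _ _).trans_lt hR1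
  have hR3 : -(R * δ) ≤ u ⬝ᵥ ω := by
    have := (le_max_right 0 (-(u ⬝ᵥ ω) / δ)).trans hR1.le
    rw [div_le_iff₀ hδ] at this
    linarith
  have h3 := hM₀ _ (key u hu R hR0 hR3)
  have h4 : ‖R⁻¹ • u‖ ≤ M₀ + ‖w‖ := by
    calc ‖R⁻¹ • u‖ = ‖(R⁻¹ • u + w) - w‖ := by simp
      _ ≤ ‖R⁻¹ • u + w‖ + ‖w‖ := norm_sub_le _ _
      _ ≤ _ := by linarith
  rw [norm_smul, Real.norm_of_nonneg (by positivity), inv_mul_le_iff₀ hR0] at h4
  rw [lt_div_iff₀ hMpos] at hR2
  have : R * (M₀ + ‖w‖) ≤ R * M := by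
    refine mul_le_mul_of_nonneg_left ?_ hR0.le
    simp [hM]
  linarith

theorem integrableOn_cone {S : Finset (Vec m)} {w : Vec m}
    (hw : w ∈ convexHull ℝ (S : Set (Vec m)))
    (ω : Vec m) (hmax : ∀ s ∈ S, s ≠ w → s ⬝ᵥ ω < w ⬝ᵥ ω) {r : ℝ} (hr : 0 < r) :
    IntegrableOn (fun u : Vec m => Real.exp (r * (u ⬝ᵥ ω)))
      (cone {u : Vec m | u + w ∈ convexHull ℝ (S : Set (Vec m))}) := by
  obtain ⟨c, hc, hdec⟩ := cone_decay hw ω hmax
  have hDc : Convex ℝ {u : Vec m | u + w ∈ convexHull ℝ (S : Set (Vec m))} :=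
    (convex_convexHull ℝ (S : Set (Vec m))).translate_preimage_left w
  have hcl : IsClosed {u : Vec m | u + w ∈ convexHull ℝ (S : Set (Vec m))} :=
    (S.finite_toSet.isCompact_convexHull ℝ).isClosed.preimage (continuous_add_const w)
  have hms := measurable_cone hDc (by simpa using hw) hcl
  have h1 := (integrable_exp_norm (m := m) (c := r * c) (by positivity)).integrableOn
    (s := cone {u : Vec m | u + w ∈ convexHull ℝ (S : Set (Vec m))})
  refine h1.mono' (by
    have : Continuous fun u : Vec m => Real.exp (r * (u ⬝ᵥ ω)) := by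
      unfold dotProduct; fun_prop
    exact this.aestronglyMeasurable) ?_
  refine (ae_restrict_iff' hms).2 (Eventually.of_forall fun u hu => ?_)
  rw [Real.norm_of_nonneg (Real.exp_pos _).le, Real.exp_le_exp]
  have := hdec u hu
  nlinarith

/-- Two-sided bound of the Laplace integral at a vertex. -/
theorem I_bound {S : Finset (Vec m)} {w : Vec m} (hw : w ∈ convexHull ℝ (S : Set (Vec m)))
    (ω : Vec m) (hmax : ∀ s ∈ S, s ≠ w → s ⬝ᵥ ω < w ⬝ᵥ ω)
    (hint : (interior (convexHull ℝ (S : Set (Vec m)))).Nonempty) :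
    ∃ c : ℝ, 0 < c ∧ ∃ C : ℝ, 0 ≤ C ∧ ∃ δ : ℝ, 0 < δ ∧ ∀ τ : ℝ, 0 < τ →
      c - C * Real.exp (-δ * τ) ≤ τ ^ m *
        (∫ y in convexHull ℝ (S : Set (Vec m)), Real.exp (τ * ((y - w) ⬝ᵥ ω))) ∧
      τ ^ m * (∫ y in convexHull ℝ (S : Set (Vec m)), Real.exp (τ * ((y - w) ⬝ᵥ ω))) ≤ c := by
  obtain ⟨δ, hδ, key⟩ := cone_key hw ω hmax
  have hi1 := integrableOn_cone hw ω hmax (r := 1) one_pos
  have hi2 := integrableOn_cone hw ω hmax (r := 1 / 2) (by norm_num)
  simp only [one_mul] at hi1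
  set D : Set (Vec m) := {u : Vec m | u + w ∈ convexHull ℝ (S : Set (Vec m))} with hD
  have hDc : Convex ℝ D :=
    (convex_convexHull ℝ (S : Set (Vec m))).translate_preimage_left w
  have hcl : IsClosed D :=
    (S.finite_toSet.isCompact_convexHull ℝ).isClosed.preimage (continuous_add_const w)
  have h0 : (0 : Vec m) ∈ D := by simpa [hD] using hw
  have hms := measurable_cone hDc h0 hcl
  set c := ∫ u in cone D, Real.exp (u ⬝ᵥ ω) with hc
  set C := ∫ u in cone D, Real.exp (1 / 2 * (u ⬝ᵥ ω)) with hC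
  have hposC : 0 ≤ C := setIntegral_nonneg hms fun u _ => (Real.exp_pos _).le
  have hvol : 0 < volume D := by
    have h1 : (interior D).Nonempty := by
      obtain ⟨y, hy⟩ := hint
      have h2 : D = (fun u => u + w) ⁻¹' (convexHull ℝ (S : Set (Vec m))) := rfl
      refine ⟨y - w, ?_⟩
      rw [h2]
      have h3 := (Homeomorph.addRight w).preimage_interior (convexHull ℝ (S : Set (Vec m)))
      have h4 : y - w ∈ (Homeomorph.addRight w) ⁻¹' interior (convexHull ℝ (S : Set (Vec m))) := by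
        simpa using hy
      rw [h3] at h4
      exact h4
    exact (isOpen_interior.measure_pos volume h1).trans_le (measure_mono interior_subset)
  have hcpos : 0 < c := by
    rw [hc, setIntegral_pos_iff_support_of_nonneg_ae
      (Eventually.of_forall fun u => (Real.exp_pos _).le) hi1]
    have : Function.support (fun u : Vec m => Real.exp (u ⬝ᵥ ω)) = univ := by
      ext u; simp [Real.exp_ne_zero]
    rw [this, univ_inter]
    exact hvol.trans_le (measure_mono (subset_cone D))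
  refine ⟨c, hcpos, C, hposC, δ / 2, by positivity, fun τ hτ => ?_⟩
  have hI : τ ^ m * (∫ y in convexHull ℝ (S : Set (Vec m)), Real.exp (τ * ((y - w) ⬝ᵥ ω))) =
      ∫ u in τ • D, Real.exp (u ⬝ᵥ ω) := by
    have h1 : (∫ y in convexHull ℝ (S : Set (Vec m)), Real.exp (τ * ((y - w) ⬝ᵥ ω))) =
        ∫ u in D, Real.exp ((τ • u) ⬝ᵥ ω) := by
      have h2 := (measurePreserving_add_right (volume : Measure (Vec m)) w).setIntegral_preimage_emb
        (MeasurableEquiv.addRight w).measurableEmbedding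
        (fun y => Real.exp (τ * ((y - w) ⬝ᵥ ω))) (convexHull ℝ (S : Set (Vec m)))
      rw [← h2]
      simp only [add_sub_cancel_right, smul_dotProduct, smul_eq_mul]
      rfl
    rw [h1, Measure.setIntegral_comp_smul_of_pos volume (fun u : Vec m => Real.exp (u ⬝ᵥ ω)) D hτ]
    have h3 : Module.finrank ℝ (Vec m) = m := by simp
    rw [h3, smul_eq_mul, ← mul_assoc, mul_inv_cancel₀ (by positivity), one_mul]
  have hsub : τ • D ⊆ cone D := by
    rintro _ ⟨u, hu, rfl⟩
    refine ⟨τ⁻¹, by positivity, ?_⟩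
    simpa [smul_smul, inv_mul_cancel₀ hτ.ne'] using hu
  have hmD : MeasurableSet (τ • D) := (hcl.measurableSet).const_smul₀ τ
  rw [hI]
  constructor
  · have h1 : (∫ u in cone D, Real.exp (u ⬝ᵥ ω)) - ∫ u in τ • D, Real.exp (u ⬝ᵥ ω) =
        ∫ u in cone D \ (τ • D), Real.exp (u ⬝ᵥ ω) := by
      rw [setIntegral_diff hmD hi1 hsub]
    have h2 : (∫ u in cone D \ (τ • D), Real.exp (u ⬝ᵥ ω)) ≤
        ∫ u in cone D \ (τ • D), Real.exp (-(δ / 2) * τ) * Real.exp (1 / 2 * (u ⬝ᵥ ω)) := by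
      refine setIntegral_mono_on (hi1.mono_set sdiff_subset)
        ((hi2.mono_set sdiff_subset).const_mul _) (hms.diff hmD) fun u hu => ?_
      rw [← Real.exp_add, Real.exp_le_exp]
      have h3 : u ⬝ᵥ ω < -(τ * δ) := by
        by_contra hcon
        push Not at hcon
        refine hu.2 ?_
        rw [mem_smul_set_iff_inv_smul_mem₀ hτ.ne']
        exact key u hu.1 τ hτ hcon
      linarith
    have h3 : (∫ u in cone D \ (τ • D), Real.exp (-(δ / 2) * τ) * Real.exp (1 / 2 * (u ⬝ᵥ ω))) ≤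
        Real.exp (-(δ / 2) * τ) * C := by
      rw [integral_const_mul]
      refine mul_le_mul_of_nonneg_left ?_ (Real.exp_pos _).le
      exact setIntegral_mono_set hi2 (Eventually.of_forall fun u => (Real.exp_pos _).le)
        (Eventually.of_forall sdiff_subset)
    rw [← hc] at h1
    rw [mul_comm C]
    linarith
  · exact setIntegral_mono_set hi1 (Eventually.of_forall fun u => (Real.exp_pos _).le)
      (Eventually.of_forall hsub)

end Pool.Agent.Covg.AnaAux
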