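import Pool.Agent.Work.MP_177351_gt.AnaA

/-!
# Module `Ana`, part B: fibre volumes
-/

set_option autoImplicit false

open MeasureTheory MvPolynomial Set Filter Topology
open scoped Pointwise Matrix

namespace Pool.Agent.Covg.AnaAux

variable {k m : ℕ}

/-- fibre volume -/
noncomputable def lam (K : Set (Vec k × Vec m)) (y : Vec m) : ℝ :=
  volume.real {x : Vec k | (x, y) ∈ K}

theorem lam_nonneg (K : Set (Vec k × Vec m)) (y : Vec m) : 0 ≤ lam K y := measureReal_nonneg

theorem fibre_aux {K : Set (Vec k × Vec m)} (hK : IsCompact K) {g : Vec m → ℝ}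
    (hg : Continuous g) :
    Integrable (fun y => lam K y * g y) ∧ (∫ z in K, g z.2) = ∫ y, lam K y * g y := by
  have h1 : IntegrableOn (fun z : Vec k × Vec m => g z.2) K :=
    (hg.comp continuous_snd).continuousOn.integrableOn_compact hK
  have hm : MeasurableSet K := hK.measurableSet
  have h2 : Integrable (K.indicator fun z : Vec k × Vec m => g z.2) :=
    (integrable_indicator_iff hm).2 h1
  have h3 : ∀ y : Vec m, (∫ x : Vec k, (K.indicator fun z : Vec k × Vec m => g z.2) (x, y)) =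
      lam K y * g y := fun y => by
    have h4 : (fun x : Vec k => (K.indicator fun z : Vec k × Vec m => g z.2) (x, y)) =
        Set.indicator {x : Vec k | (x, y) ∈ K} fun _ => g y := by
      ext x
      simp only [Set.indicator, mem_setOf_eq]
      rfl
    have hms : MeasurableSet {x : Vec k | (x, y) ∈ K} :=
      measurableSet_preimage (f := fun x : Vec k => (x, y)) (by fun_prop) hm
    rw [h4, integral_indicator_const _ hms, smul_eq_mul, lam]
  rw [Measure.volume_eq_prod] at h2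
  constructor
  · have := h2.integral_prod_right
    simpa only [h3] using this
  · rw [← integral_indicator hm, Measure.volume_eq_prod, integral_prod_symm _ h2]
    simp only [h3]

theorem lam_le {K : Set (Vec k × Vec m)} (hK : IsCompact K) (y : Vec m) :
    lam K y ≤ volume.real (Prod.fst '' K) := by
  refine measureReal_mono ?_ (hK.image continuous_fst).measure_lt_top.ne
  intro x hx
  exact ⟨(x, y), hx, rfl⟩

theorem lam_zero {K : Set (Vec k × Vec m)} {y : Vec m} (hy : y ∉ Prod.snd '' K) :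
    lam K y = 0 := by
  have : {x : Vec k | (x, y) ∈ K} = ∅ := by
    rw [eq_empty_iff_forall_notMem]
    exact fun x hx => hy ⟨(x, y), hx, rfl⟩
  rw [lam, this, measureReal_empty]

/-- the sum body -/
def SB (A : Set (Vec k × Vec m)) (B : Set (Vec k)) : Set (Vec k × Vec m) :=
  {x | ∃ a ∈ A, ∃ b ∈ B, x = (a.1 + b, a.2)}

theorem isCompact_SB {A : Set (Vec k × Vec m)} {B : Set (Vec k)} (hA : IsCompact A)
    (hB : IsCompact B) : IsCompact (SB A B) := by
  have h1 := (hA.prod hB).image (f := fun q : (Vec k × Vec m) × Vec k => (q.1.1 + q.2, q.1.2))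
    (by fun_prop)
  convert h1 using 1
  ext x
  constructor
  · rintro ⟨a, ha, b, hb, rfl⟩
    exact ⟨(a, b), ⟨ha, hb⟩, rfl⟩
  · rintro ⟨⟨a, b⟩, ⟨ha, hb⟩, rfl⟩
    exact ⟨a, ha, b, hb, rfl⟩

theorem snd_SB {A : Set (Vec k × Vec m)} {B : Set (Vec k)} (hB : B.Nonempty) :
    Prod.snd '' SB A B = Prod.snd '' A := by
  ext y
  simp only [SB, mem_image, mem_setOf_eq]
  constructor
  · rintro ⟨x, ⟨a, ha, b, hb, rfl⟩, rfl⟩
    exact ⟨a, ha, rfl⟩
  · rintro ⟨a, ha, rfl⟩
    obtain ⟨b, hb⟩ := hB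
    exact ⟨(a.1 + b, a.2), ⟨a, ha, b, hb, rfl⟩, rfl⟩

theorem volume_add_left (a : Vec k) (B : Set (Vec k)) :
    volume.real ((fun b => a + b) '' B) = volume.real B := by
  rw [measureReal_def, measureReal_def, image_add_left, measure_preimage_add]

theorem fibre_SB_sub {A : Set (Vec k × Vec m)} {B : Set (Vec k)} {a : Vec k × Vec m}
    (ha : a ∈ A) : (fun b => a.1 + b) '' B ⊆ {x : Vec k | (x, a.2) ∈ SB A B} := by
  rintro _ ⟨b, hb, rfl⟩
  exact ⟨a, ha, b, hb, rfl⟩

theorem fibre_finite {K : Set (Vec k × Vec m)} (hK : IsCompact K) (y : Vec m) :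
    volume {x : Vec k | (x, y) ∈ K} ≠ ⊤ := by
  refine ((measure_mono ?_).trans_lt (hK.image continuous_fst).measure_lt_top).ne
  intro x hx
  exact ⟨(x, y), hx, rfl⟩

theorem lam_lower {A : Set (Vec k × Vec m)} {B : Set (Vec k)} (hA : IsCompact A)
    (hB : IsCompact B) {y : Vec m} (hy : y ∈ Prod.snd '' A) :
    volume.real B ≤ lam (SB A B) y := by
  obtain ⟨a, ha, rfl⟩ := hy
  rw [← volume_add_left a.1 B]
  exact measureReal_mono (fibre_SB_sub ha) (fibre_finite (isCompact_SB hA hB) _)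

theorem lam_upper {A : Set (Vec k × Vec m)} {B : Set (Vec k)} (hA : IsCompact A)
    (hB : IsCompact B) {x₁ : Vec k × Vec m} (hx : ∀ a ∈ A, a.2 = x₁.2 → a = x₁) {ε : ℝ}
    (hε : 0 < ε) : ∃ V : Set (Vec m), IsOpen V ∧ x₁.2 ∈ V ∧
      ∀ y ∈ V, lam (SB A B) y ≤ volume.real B + ε := by
  have hK := isCompact_SB hA hB
  have hcB : IsCompact ((fun b => x₁.1 + b) '' B) := hB.image (by fun_prop)
  obtain ⟨U, hU1, hU2, hU3⟩ := ((fun b => x₁.1 + b) '' B).exists_isOpen_le_add volume
    (ε := ENNReal.ofReal ε) (by simpa using hε)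
  have hlt : volume ((fun b => x₁.1 + b) '' B) ≠ ⊤ := hcB.measure_lt_top.ne
  have hclosed : IsCompact (Prod.snd '' (SB A B ∩ (Prod.fst ⁻¹' Uᶜ))) :=
    (hK.inter_right (hU2.isClosed_compl.preimage continuous_fst)).image continuous_snd
  refine ⟨(Prod.snd '' (SB A B ∩ (Prod.fst ⁻¹' Uᶜ)))ᶜ, hclosed.isClosed.isOpen_compl, ?_, ?_⟩
  · rintro ⟨z, ⟨⟨a, ha, b, hb, rfl⟩, hz2⟩, hz3⟩
    have h1 := hx a ha hz3
    refine hz2 (hU1 ?_)
    subst h1
    exact ⟨b, hb, rfl⟩
  · intro y hy
    have h1 : {x : Vec k | (x, y) ∈ SB A B} ⊆ U := by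
      intro x hx
      by_contra hcon
      exact hy ⟨(x, y), ⟨hx, hcon⟩, rfl⟩
    have hUf : volume U ≠ ⊤ := (hU3.trans_lt (by
      simpa using hlt.lt_top)).ne
    have h2 : lam (SB A B) y ≤ volume.real U := measureReal_mono h1 hUf
    have h3 : volume.real U ≤ volume.real B + ε := by
      rw [← volume_add_left x₁.1 B, measureReal_def, measureReal_def,
        ← ENNReal.toReal_ofReal hε.le, ← ENNReal.toReal_add hlt ENNReal.ofReal_ne_top]
      exact ENNReal.toReal_mono (ENNReal.add_ne_top.2 ⟨hlt, ENNReal.ofReal_ne_top⟩) hU3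
    exact h2.trans h3

/-- Moving a body changes it by a linear amount. -/
theorem shift {B : Set (Vec k)} (hB : Body B) {e : Vec k} (he : e ≠ 0) :
    ∃ κ : ℝ, 0 < κ ∧ ∀ t : ℝ, 0 < t → t ≤ 1 →
      volume.real B + κ * t ≤ volume.real (B ∪ (fun b => t • e + b) '' B) := by
  have hBm := hB.comp.measurableSet
  have hfin : ∀ a : Vec k, volume ((fun b => a + b) '' B) ≠ ⊤ := fun a =>
    (hB.comp.image (by fun_prop)).measure_lt_top.ne
  set f : ℝ → ℝ := fun t => volume.real ((fun b => t • e + b) '' B \ B) with hf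
  have hm : ∀ a : Vec k, MeasurableSet ((fun b => a + b) '' B) := fun a =>
    (hB.comp.image (by fun_prop)).measurableSet
  have hf0 : ∀ t, 0 ≤ f t := fun t => measureReal_nonneg
  have hsubadd : ∀ s t, f (s + t) ≤ f s + f t := by
    intro s t
    have h1 : (fun b => (s + t) • e + b) '' B \ B ⊆
        (fun b => s • e + b) '' ((fun b => t • e + b) '' B \ B) ∪
          ((fun b => s • e + b) '' B \ B) := by
      rintro _ ⟨⟨b, hb, rfl⟩, hnb⟩
      by_cases h : t • e + b ∈ B
      · refine Or.inr ⟨⟨t • e + b, h, ?_⟩, hnb⟩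
        simp only [add_smul]; abel
      · refine Or.inl ⟨t • e + b, ⟨⟨b, hb, rfl⟩, h⟩, ?_⟩
        simp only [add_smul]; abel
    have h2 : f (s + t) ≤ volume.real ((fun b => s • e + b) '' ((fun b => t • e + b) '' B \ B) ∪
          ((fun b => s • e + b) '' B \ B)) := by
      refine measureReal_mono h1 ?_
      refine measure_union_ne_top ?_ ?_
      · refine ((measure_mono (image_mono sdiff_subset)).trans_lt ?_).ne
        rw [image_image]
        exact (hB.comp.image (by fun_prop)).measure_lt_top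
      · exact ((measure_mono sdiff_subset).trans_lt (hfin _).lt_top).ne
    refine h2.trans ((measureReal_union_le _ _).trans ?_)
    rw [volume_add_left, add_comm]
  have hnat : ∀ (n : ℕ) t, f (n * t) ≤ n * f t := by
    intro n t
    induction n with
    | zero => simp [hf]
    | succ n ih =>
      push_cast
      rw [add_mul, one_mul]
      refine (hsubadd _ _).trans ?_
      rw [add_mul, one_mul]
      linarith
  obtain ⟨M, hM⟩ := hB.comp.isBounded.exists_norm_le
  have hepos : 0 < ‖e‖ := norm_pos_iff.2 he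
  obtain ⟨b₀, hb₀⟩ := hB.int
  have hb₀' : b₀ ∈ B := interior_subset hb₀
  have hM0 : 0 ≤ M := (norm_nonneg _).trans (hM _ hb₀')
  set R := (2 * M + 1) / ‖e‖ with hR
  have hRpos : 0 < R := by positivity
  have hbig : ∀ s, R ≤ s → f s = volume.real B := by
    intro s hs
    have h1 : (fun b => s • e + b) '' B \ B = (fun b => s • e + b) '' B := by
      rw [sdiff_eq_left]
      rw [Set.disjoint_left]
      rintro _ ⟨b, hb, rfl⟩ hb'
      have h2 := hM _ hb'
      have h3 := hM _ hb
      have h4 : ‖s • e‖ ≤ 2 * M := by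
        calc ‖s • e‖ = ‖(s • e + b) - b‖ := by simp
          _ ≤ ‖s • e + b‖ + ‖b‖ := norm_sub_le _ _
          _ ≤ _ := by linarith
      rw [norm_smul, Real.norm_of_nonneg (hRpos.le.trans hs)] at h4
      have h5 : R * ‖e‖ ≤ s * ‖e‖ := mul_le_mul_of_nonneg_right hs hepos.le
      have h6 : R * ‖e‖ = 2 * M + 1 := by rw [hR]; field_simp
      linarith
    rw [hf]; simp only [h1, volume_add_left]
  have hvB : 0 < volume.real B := by
    rw [measureReal_def, ENNReal.toReal_pos_iff]
    exact ⟨(isOpen_interior.measure_pos volume hB.int).trans_le (measure_mono interior_subset),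
      hB.comp.measure_lt_top⟩
  refine ⟨volume.real B / (R + 1), by positivity, fun t ht ht1 => ?_⟩
  have h1 : volume.real (B ∪ (fun b => t • e + b) '' B) = volume.real B + f t := by
    rw [← union_sdiff_self, measureReal_union disjoint_sdiff_right ((hm _).diff hBm)
      hB.comp.measure_lt_top.ne ((measure_mono sdiff_subset).trans_lt (hfin _).lt_top).ne]
  rw [h1]
  obtain ⟨n, hn⟩ := exists_nat_ge (R / t)
  set n := ⌈R / t⌉₊ with hn
  have h2 : R / t ≤ n := Nat.le_ceil _
  have h3 : (n : ℝ) < R / t + 1 := Nat.ceil_lt_add_one (by positivity)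
  have h4 : R ≤ n * t := by rwa [div_le_iff₀ ht] at h2
  have h5 := hnat n t
  rw [hbig _ h4] at h5
  have h6 : (n : ℝ) * t ≤ R + 1 := by
    have : (n : ℝ) * t < (R / t + 1) * t := mul_lt_mul_of_pos_right h3 ht
    rw [add_mul, div_mul_cancel₀ _ ht.ne'] at this
    linarith
  have h7 : volume.real B / (R + 1) * t ≤ f t := by
    rw [div_mul_eq_mul_div, div_le_iff₀ (by positivity)]
    calc volume.real B * t ≤ (n * f t) * t := mul_le_mul_of_nonneg_right h5 ht.le
      _ = f t * (n * t) := by ring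
      _ ≤ f t * (R + 1) := mul_le_mul_of_nonneg_left h6 (hf0 t)
  linarith

/-- Lower bound of the fibre volume near a vertex if some fibre is not a point. -/
theorem lam_lower2 {A : Set (Vec k × Vec m)} {B : Set (Vec k)} (hAc : Convex ℝ A)
    (hA : IsCompact A) (hB : Body B) {x₁ : Vec k × Vec m} (hx : x₁ ∈ A) {a a' : Vec k × Vec m}
    (ha : a ∈ A) (ha' : a' ∈ A) (h2 : a.2 = a'.2) (hne : a ≠ a') :
    ∃ κ : ℝ, 0 < κ ∧ ∀ t : ℝ, 0 < t → t ≤ 1 → ∀ y ∈ Prod.snd '' A,
      volume.real B + κ * t ≤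
        lam (SB A B) (x₁.2 + t • ((1 / 2 : ℝ) • (a.2 + y) - x₁.2)) := by
  have hd : a'.1 - a.1 ≠ 0 := by
    intro h
    exact hne (Prod.ext (sub_eq_zero.1 h).symm h2)
  have he : (1 / 2 : ℝ) • (a'.1 - a.1) ≠ 0 := smul_ne_zero (by norm_num) hd
  obtain ⟨κ, hκ, hsh⟩ := shift hB he
  refine ⟨κ, hκ, fun t ht ht1 y hy => ?_⟩
  obtain ⟨v, hv, rfl⟩ := hy
  -- the two points of `A` in the fibre
  have hmem : ∀ c ∈ A, x₁ + t • ((1 / 2 : ℝ) • (c + v) - x₁) ∈ A := by
    intro c hc
    have h3 : (1 / 2 : ℝ) • (c + v) ∈ A := by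
      rw [smul_add]
      exact hAc hc hv (by norm_num) (by norm_num) (by norm_num)
    exact hAc.add_smul_sub_mem hx h3 ⟨ht.le, ht1⟩
  have hp := hmem a ha
  have hp' := hmem a' ha'
  set p := x₁ + t • ((1 / 2 : ℝ) • (a + v) - x₁) with hpdef
  set p' := x₁ + t • ((1 / 2 : ℝ) • (a' + v) - x₁) with hpdef'
  have hp2 : p.2 = x₁.2 + t • ((1 / 2 : ℝ) • (a.2 + v.2) - x₁.2) := by simp [hpdef]
  have hp2' : p'.2 = p.2 := by simp [hpdef, hpdef', h2]
  have hp1 : p'.1 = p.1 + t • ((1 / 2 : ℝ) • (a'.1 - a.1)) := by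
    simp only [hpdef, hpdef', Prod.fst_add, Prod.smul_fst, Prod.fst_sub]
    module
  rw [← hp2]
  refine (hsh t ht ht1).trans ?_
  rw [← volume_add_left p.1]
  refine measureReal_mono ?_ (fibre_finite (isCompact_SB hA hB.comp) _)
  rw [image_union]
  refine union_subset (fibre_SB_sub hp) ?_
  rw [image_image]
  have h5 := fibre_SB_sub (B := B) hp'
  rw [hp2', hp1] at h5
  simpa only [add_assoc] using h5

end Pool.Agent.Covg.AnaAux
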