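import Pool.Agent.Work.MP_177351_gt.AnaB

/-!
# Module `Ana`, part C: the one-sided expansion
-/

set_option autoImplicit false

open MeasureTheory MvPolynomial Set Filter Topology
open scoped Pointwise Matrix

namespace Pool.Agent.Covg.AnaAux

variable {k m : ℕ}

theorem continuous_g (w ω : Vec m) (τ : ℝ) :
    Continuous fun y : Vec m => Real.exp (τ * ((y - w) ⬝ᵥ ω)) := by
  unfold dotProduct; fun_prop

theorem tendsto_pow_exp (n : ℕ) {δ : ℝ} (hδ : 0 < δ) :
    Tendsto (fun τ : ℝ => τ ^ n * Real.exp (-δ * τ)) atTop (𝓝 0) := by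
  have h1 := Real.tendsto_pow_mul_exp_neg_atTop_nhds_zero n
  have h2 : Tendsto (fun τ : ℝ => δ * τ) atTop atTop := tendsto_id.const_mul_atTop hδ
  have h3 := (h1.comp h2).const_mul ((δ ^ n)⁻¹)
  rw [mul_zero] at h3
  refine h3.congr fun τ => ?_
  simp only [Function.comp_apply, mul_pow, neg_mul]
  field_simp

/-- the normalised integral -/
noncomputable def TT (A : Set (Vec k × Vec m)) (B : Set (Vec k)) (w ω : Vec m) (τ : ℝ) : ℝ :=
  (∫ x in SB A B, Real.exp (τ * (x.2 ⬝ᵥ ω))) * Real.exp (-τ * (w ⬝ᵥ ω))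

theorem TT_eq {A : Set (Vec k × Vec m)} {B : Set (Vec k)} (hA : IsCompact A)
    (hB : Body B) (w ω : Vec m) (τ : ℝ) :
    IntegrableOn (fun y => lam (SB A B) y * Real.exp (τ * ((y - w) ⬝ᵥ ω))) (Prod.snd '' A) ∧
    TT A B w ω τ = ∫ y in Prod.snd '' A, lam (SB A B) y * Real.exp (τ * ((y - w) ⬝ᵥ ω)) := by
  obtain ⟨h1, h2⟩ := fibre_aux (isCompact_SB hA hB.comp) (continuous_g w ω τ)
  refine ⟨h1.integrableOn, ?_⟩
  rw [TT, ← integral_mul_const]
  have h3 : ∀ x : Vec k × Vec m, Real.exp (τ * (x.2 ⬝ᵥ ω)) * Real.exp (-τ * (w ⬝ᵥ ω)) =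
      Real.exp (τ * ((x.2 - w) ⬝ᵥ ω)) := fun x => by
    rw [← Real.exp_add, sub_dotProduct]; congr 1; ring
  simp only [h3]
  rw [h2]
  symm
  refine setIntegral_eq_integral_of_forall_compl_eq_zero fun y hy => ?_
  rw [lam_zero, zero_mul]
  rwa [snd_SB (hB.int.mono interior_subset)]

theorem vol_pos {B : Set (Vec k)} (hB : Body B) : 0 < volume.real B := by
  rw [measureReal_def, ENNReal.toReal_pos_iff]
  exact ⟨(isOpen_interior.measure_pos volume hB.int).trans_le (measure_mono interior_subset),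
    hB.comp.measure_lt_top⟩

/-- One-sided expansion. -/
theorem one_side {A : Set (Vec k × Vec m)} {B : Set (Vec k)} (hAc : Convex ℝ A)
    (hA : IsCompact A) (S : Finset (Vec m))
    (hS : Prod.snd '' A = convexHull ℝ (S : Set (Vec m))) (hB : Body B)
    (ω : Vec m) {x₁ : Vec k × Vec m} (hx₁ : x₁ ∈ A)
    (h1 : ∀ x ∈ A, x ≠ x₁ → x.2 ⬝ᵥ ω < x₁.2 ⬝ᵥ ω)
    (hint : (interior (Prod.snd '' A)).Nonempty) :
    ∃ a : ℝ, 0 < a ∧ Tendsto (fun τ => τ ^ m * TT A B x₁.2 ω τ) atTop (𝓝 a) ∧
    ∃ c C δ : ℝ, 0 ≤ c ∧ 0 < δ ∧ ((∃ a ∈ A, ∃ a' ∈ A, a.2 = a'.2 ∧ a ≠ a') → 0 < c) ∧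
      ∀ τ : ℝ, 1 ≤ τ → a + c / τ - C * Real.exp (-δ * τ) ≤ τ ^ m * TT A B x₁.2 ω τ := by
  set w := x₁.2 with hw
  set PP := Prod.snd '' A with hPi
  have hwP : w ∈ PP := ⟨x₁, hx₁, rfl⟩
  have hfib : ∀ a ∈ A, a.2 = x₁.2 → a = x₁ := by
    intro a ha h2
    by_contra hne
    have := h1 a ha hne
    rw [h2] at this
    exact lt_irrefl _ this
  have hmax : ∀ y ∈ PP, y ≠ w → y ⬝ᵥ ω < w ⬝ᵥ ω := by
    rintro _ ⟨x, hx, rfl⟩ hne
    exact h1 x hx fun h => hne (by rw [h])
  have hmaxS : ∀ s ∈ S, s ≠ w → s ⬝ᵥ ω < w ⬝ᵥ ω := fun s hs =>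
    hmax s (hS ▸ subset_convexHull ℝ _ hs)
  obtain ⟨cp, hcp, C, hC, δ, hδ, hI⟩ := I_bound (hS ▸ hwP) ω hmaxS (hS ▸ hint)
  rw [← hS] at hI
  have hPc : IsCompact PP := hA.image continuous_snd
  have hPm : MeasurableSet PP := hPc.measurableSet
  have hPf : volume PP ≠ ⊤ := hPc.measure_lt_top.ne
  set I : ℝ → ℝ := fun τ => ∫ y in PP, Real.exp (τ * ((y - w) ⬝ᵥ ω)) with hIdef
  have hgi : ∀ τ : ℝ, IntegrableOn (fun y : Vec m => Real.exp (τ * ((y - w) ⬝ᵥ ω))) PP := fun τ =>
    (continuous_g w ω τ).continuousOn.integrableOn_compact hPc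
  have hvB := vol_pos hB
  set vB := volume.real B with hvBdef
  have hT : ∀ τ, IntegrableOn (fun y => lam (SB A B) y * Real.exp (τ * ((y - w) ⬝ᵥ ω))) PP ∧
      TT A B w ω τ = ∫ y in PP, lam (SB A B) y * Real.exp (τ * ((y - w) ⬝ᵥ ω)) := fun τ =>
    TT_eq hA hB w ω τ
  -- lower bound
  have hlow : ∀ τ, vB * I τ ≤ TT A B w ω τ := by
    intro τ
    rw [(hT τ).2, hIdef, ← integral_const_mul]
    refine setIntegral_mono_on ((hgi τ).const_mul _) (hT τ).1 hPm fun y hy => ?_
    exact mul_le_mul_of_nonneg_right (lam_lower hA hB.comp hy) (Real.exp_pos _).le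
  -- upper bound
  have hup : ∀ ε : ℝ, 0 < ε → ∃ M : ℝ, ∃ c : ℝ, 0 < c ∧ ∀ τ : ℝ, 0 < τ →
      TT A B w ω τ ≤ (vB + ε) * I τ + M * Real.exp (-c * τ) := by
    intro ε hε
    obtain ⟨V, hVo, hwV, hV⟩ := lam_upper hA hB.comp hfib hε
    have hc : ∃ c : ℝ, 0 < c ∧ ∀ y ∈ PP \ V, (y - w) ⬝ᵥ ω ≤ -c := by
      by_cases hne : (PP \ V).Nonempty
      · have hcomp : IsCompact (PP \ V) := hPc.diff hVo
        have hcont : Continuous fun y : Vec m => (y - w) ⬝ᵥ ω := by
          unfold dotProduct; fun_prop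
        obtain ⟨y₀, hy₀, hmx⟩ := hcomp.exists_isMaxOn hne hcont.continuousOn
        refine ⟨-((y₀ - w) ⬝ᵥ ω), ?_, fun y hy => ?_⟩
        · have := hmax y₀ hy₀.1 (fun h => hy₀.2 (h ▸ hwV))
          rw [sub_dotProduct]; linarith
        · rw [neg_neg]; exact hmx hy
      · exact ⟨1, one_pos, fun y hy => (hne ⟨y, hy⟩).elim⟩
    obtain ⟨c, hc, hcV⟩ := hc
    set M := volume.real (Prod.fst '' SB A B) with hM
    refine ⟨M * volume.real PP, c, hc, fun τ hτ => ?_⟩
    have h2 : (vB + ε) * I τ + M * volume.real PP * Real.exp (-c * τ) =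
        ∫ y in PP, ((vB + ε) * Real.exp (τ * ((y - w) ⬝ᵥ ω)) + M * Real.exp (-c * τ)) := by
      rw [integral_add ((hgi τ).const_mul _) (integrableOn_const hPf), integral_const_mul,
        setIntegral_const, smul_eq_mul]
      ring
    rw [h2, (hT τ).2]
    refine setIntegral_mono_on (hT τ).1
      (((hgi τ).const_mul _).add (integrableOn_const hPf)) hPm fun y hy => ?_
    have hMn : 0 ≤ M := measureReal_nonneg
    by_cases hyV : y ∈ V
    · have h3 := mul_le_mul_of_nonneg_right (hV y hyV) (Real.exp_pos (τ * ((y - w) ⬝ᵥ ω))).le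
      have h4 : 0 ≤ M * Real.exp (-c * τ) := mul_nonneg hMn (Real.exp_pos _).le
      linarith
    · have h3 : Real.exp (τ * ((y - w) ⬝ᵥ ω)) ≤ Real.exp (-c * τ) := by
        rw [Real.exp_le_exp]
        have := hcV y ⟨hy, hyV⟩
        nlinarith
      have h4 : lam (SB A B) y * Real.exp (τ * ((y - w) ⬝ᵥ ω)) ≤ M * Real.exp (-c * τ) :=
        mul_le_mul (lam_le (isCompact_SB hA hB.comp) y) h3 (Real.exp_pos _).le hMn
      have h5 : 0 ≤ (vB + ε) * Real.exp (τ * ((y - w) ⬝ᵥ ω)) :=
        mul_nonneg (by positivity) (Real.exp_pos _).le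
      linarith
  refine ⟨vB * cp, by positivity, ?_, ?_⟩
  · rw [tendsto_order]
    constructor
    · intro a' ha'
      have h2 : Tendsto (fun τ : ℝ => vB * (cp - C * Real.exp (-δ * τ))) atTop
          (𝓝 (vB * (cp - C * 0))) := by
        have := tendsto_pow_exp 0 hδ
        simp only [pow_zero, one_mul] at this
        exact ((this.const_mul C).const_sub cp).const_mul vB
      rw [mul_zero, sub_zero] at h2
      filter_upwards [(tendsto_order.1 h2).1 a' ha', eventually_gt_atTop 0] with τ h3 h4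
      refine h3.trans_le ?_
      calc vB * (cp - C * Real.exp (-δ * τ)) ≤ vB * (τ ^ m * I τ) :=
            mul_le_mul_of_nonneg_left (hI τ h4).1 hvB.le
        _ = τ ^ m * (vB * I τ) := by ring
        _ ≤ _ := mul_le_mul_of_nonneg_left (hlow τ) (by positivity)
    · intro a' ha'
      set ε := (a' - vB * cp) / (2 * cp) with hε
      have hεpos : 0 < ε := div_pos (by linarith) (by positivity)
      obtain ⟨M, c, hc, hM⟩ := hup ε hεpos
      have h2 : Tendsto (fun τ : ℝ => (vB + ε) * cp + M * (τ ^ m * Real.exp (-c * τ))) atTop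
          (𝓝 ((vB + ε) * cp + M * 0)) := ((tendsto_pow_exp m hc).const_mul M).const_add _
      rw [mul_zero, add_zero] at h2
      have h3 : (vB + ε) * cp < a' := by
        have : ε * cp = (a' - vB * cp) / 2 := by rw [hε]; field_simp
        nlinarith
      filter_upwards [(tendsto_order.1 h2).2 a' h3, eventually_gt_atTop 0] with τ h4 h5
      refine lt_of_le_of_lt ?_ h4
      calc τ ^ m * TT A B w ω τ ≤ τ ^ m * ((vB + ε) * I τ + M * Real.exp (-c * τ)) :=
            mul_le_mul_of_nonneg_left (hM τ h5) (by positivity)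
        _ = (vB + ε) * (τ ^ m * I τ) + M * (τ ^ m * Real.exp (-c * τ)) := by ring
        _ ≤ _ := by
          have := mul_le_mul_of_nonneg_left (hI τ h5).2 (show 0 ≤ vB + ε by positivity)
          linarith
  · by_cases hex : ∃ a ∈ A, ∃ a' ∈ A, a.2 = a'.2 ∧ a ≠ a'
    · obtain ⟨a, ha, a', ha', h2, hne⟩ := hex
      obtain ⟨κ, hκ, hlam⟩ := lam_lower2 hAc hA hB hx₁ ha ha' h2 hne
      -- bound for the exponential
      have hbd : ∃ C₁ : ℝ, ∀ y ∈ PP, -C₁ ≤ ((1 / 2 : ℝ) • (a.2 + y) - w) ⬝ᵥ ω := by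
        have hcont : Continuous fun y : Vec m => ((1 / 2 : ℝ) • (a.2 + y) - w) ⬝ᵥ ω := by
          unfold dotProduct; fun_prop
        obtain ⟨y₀, hy₀, hmn⟩ := hPc.exists_isMinOn ⟨w, hwP⟩ hcont.continuousOn
        refine ⟨-(((1 / 2 : ℝ) • (a.2 + y₀) - w) ⬝ᵥ ω), fun y hy => ?_⟩
        rw [neg_neg]; exact hmn hy
      obtain ⟨C₁, hC₁⟩ := hbd
      have hPconv : Convex ℝ PP := hS ▸ convex_convexHull ℝ _
      set vP := volume.real PP with hvP
      have hvPpos : 0 < vP := by
        rw [hvP, measureReal_def, ENNReal.toReal_pos_iff]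
        exact ⟨(isOpen_interior.measure_pos volume hint).trans_le (measure_mono interior_subset),
          hPc.measure_lt_top⟩
      set c := κ * Real.exp (-C₁) * ((1 / 2 : ℝ) ^ m * vP) with hcdef
      have hcpos : 0 < c := by positivity
      refine ⟨c, vB * C, δ, hcpos.le, hδ, fun _ => hcpos, fun τ hτ => ?_⟩
      have hτ0 : 0 < τ := by linarith
      set t := τ⁻¹ with ht
      have ht0 : 0 < t := by positivity
      have ht1 : t ≤ 1 := inv_le_one_of_one_le₀ hτ
      set F : Vec m → Vec m := fun y => w + t • ((1 / 2 : ℝ) • (a.2 + y) - w) with hF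
      have hFcont : Continuous F := by
        simp only [hF]; fun_prop
      have hE : F '' PP ⊆ PP := by
        rintro _ ⟨y, hy, rfl⟩
        refine hPconv.add_smul_sub_mem hwP ?_ ⟨ht0.le, ht1⟩
        rw [smul_add]
        exact hPconv ⟨a, ha, rfl⟩ hy (by norm_num) (by norm_num) (by norm_num)
      have hEm : MeasurableSet (F '' PP) := (hPc.image hFcont).measurableSet
      have hEf : volume (F '' PP) ≠ ⊤ := (hPc.image hFcont).measure_lt_top.ne
      have hvol : volume.real (F '' PP) = (t / 2) ^ m * vP := by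
        have h3 : F '' PP = (fun b => (w + t • ((1 / 2 : ℝ) • a.2 - w)) + b) '' ((t / 2) • PP) := by
          have h3' : F '' PP = ((fun b => (w + t • ((1 / 2 : ℝ) • a.2 - w)) + b) ∘
              (fun x => (t / 2) • x)) '' PP := by
            refine image_congr fun y _ => ?_
            simp only [hF, Function.comp]
            module
          rw [h3']
          exact image_comp _ _ _
        rw [h3, volume_add_left, measureReal_def, Measure.addHaar_smul, ENNReal.toReal_mul]
        simp only [Module.finrank_fintype_fun_eq_card, Fintype.card_fin]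
        rw [ENNReal.toReal_ofReal (abs_nonneg _), abs_of_nonneg (by positivity)]
        rfl
      have h3 : vB * I τ + κ * t * Real.exp (-C₁) * volume.real (F '' PP) ≤ TT A B w ω τ := by
        have h4 : TT A B w ω τ - vB * I τ =
            ∫ y in PP, (lam (SB A B) y - vB) * Real.exp (τ * ((y - w) ⬝ᵥ ω)) := by
          rw [(hT τ).2, hIdef, ← integral_const_mul, ← integral_sub (hT τ).1 ((hgi τ).const_mul _)]
          refine integral_congr_ae (Eventually.of_forall fun y => ?_)
          simp only []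
          ring
        have hint2 : IntegrableOn
            (fun y => (lam (SB A B) y - vB) * Real.exp (τ * ((y - w) ⬝ᵥ ω))) PP := by
          have := (hT τ).1.sub ((hgi τ).const_mul vB)
          refine this.congr (Eventually.of_forall fun y => ?_)
          simp only [_root_.Pi.sub_apply]
          ring
        have h5 : (∫ y in F '' PP, (lam (SB A B) y - vB) * Real.exp (τ * ((y - w) ⬝ᵥ ω))) ≤
            ∫ y in PP, (lam (SB A B) y - vB) * Real.exp (τ * ((y - w) ⬝ᵥ ω)) := by
          refine setIntegral_mono_set hint2 ?_ (Eventually.of_forall hE)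
          refine (ae_restrict_iff' hPm).2 (Eventually.of_forall fun y hy => ?_)
          have := lam_lower hA hB.comp hy
          exact mul_nonneg (by linarith) (Real.exp_pos _).le
        have h6 : (∫ y in F '' PP, κ * t * Real.exp (-C₁)) ≤
            ∫ y in F '' PP, (lam (SB A B) y - vB) * Real.exp (τ * ((y - w) ⬝ᵥ ω)) := by
          refine setIntegral_mono_on (integrableOn_const hEf) (hint2.mono_set hE) hEm ?_
          rintro _ ⟨y, hy, rfl⟩
          have h7 := hlam t ht0 ht1 y hy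
          have h8 : Real.exp (-C₁) ≤ Real.exp (τ * ((F y - w) ⬝ᵥ ω)) := by
            rw [Real.exp_le_exp]
            have h9 : F y - w = t • ((1 / 2 : ℝ) • (a.2 + y) - w) := by simp [hF]
            rw [h9, smul_dotProduct, smul_eq_mul, ← mul_assoc, ht, mul_inv_cancel₀ hτ0.ne',
              one_mul]
            exact hC₁ y hy
          refine mul_le_mul ?_ h8 (Real.exp_pos _).le ?_
          · simp only [hF]; linarith
          · simp only [hF]
            have : 0 < κ * t := by positivity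
            linarith
        rw [setIntegral_const, smul_eq_mul] at h6
        linarith
      have h4 := (hI τ hτ0).1
      have h5 : τ ^ m * (κ * t * Real.exp (-C₁) * volume.real (F '' PP)) = c / τ := by
        rw [hvol, hcdef, ht]
        have h6 : τ ^ m * (τ⁻¹ / 2) ^ m = (1 / 2) ^ m := by
          rw [← mul_pow]; congr 1; field_simp
        rw [← h6]
        field_simp
      calc vB * cp + c / τ - vB * C * Real.exp (-δ * τ)
          = vB * (cp - C * Real.exp (-δ * τ)) + c / τ := by ring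
        _ ≤ vB * (τ ^ m * I τ) + c / τ := by
          have := mul_le_mul_of_nonneg_left h4 hvB.le
          linarith
        _ = τ ^ m * (vB * I τ + κ * t * Real.exp (-C₁) * volume.real (F '' PP)) := by
          rw [mul_add, h5]; ring
        _ ≤ _ := mul_le_mul_of_nonneg_left h3 (by positivity)
    · refine ⟨0, vB * C, δ, le_rfl, hδ, fun h => (hex h).elim, fun τ hτ => ?_⟩
      have hτ0 : 0 < τ := by linarith
      have h4 := (hI τ hτ0).1
      calc vB * cp + 0 / τ - vB * C * Real.exp (-δ * τ)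
          = vB * (cp - C * Real.exp (-δ * τ)) := by ring
        _ ≤ vB * (τ ^ m * I τ) := mul_le_mul_of_nonneg_left h4 hvB.le
        _ = τ ^ m * (vB * I τ) := by ring
        _ ≤ _ := mul_le_mul_of_nonneg_left (hlow τ) (by positivity)

end Pool.Agent.Covg.AnaAux
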