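import Pool.Agent.Work.MP_177351_gt.Alg

/-!
# Laplace transform basics
-/

set_option autoImplicit false

open MeasureTheory MvPolynomial Set Filter Topology
open scoped Pointwise Matrix

namespace Pool.Agent.Covg

namespace LapAux

variable {n : ℕ}

lemma cont_exp (z : Vec n) : Continuous fun x : Vec n => Real.exp (x ⬝ᵥ z) := by
  refine Real.continuous_exp.comp ?_
  unfold dotProduct
  fun_prop

lemma cont_dot (z : Vec n) : Continuous fun x : Vec n => x ⬝ᵥ z := by
  unfold dotProduct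
  fun_prop

lemma intOn {K : Set (Vec n)} (hc : IsCompact K) (z : Vec n) :
    IntegrableOn (fun x : Vec n => Real.exp (x ⬝ᵥ z)) K volume :=
  (cont_exp z).continuousOn.integrableOn_compact hc

lemma vol_pos {K : Set (Vec n)} (hb : Body K) : 0 < volume.real K := by
  have h1 : 0 < volume K := by
    obtain ⟨x, hx⟩ := hb.int
    exact (isOpen_interior.measure_pos volume ⟨x, hx⟩).trans_le (measure_mono interior_subset)
  exact ENNReal.toReal_pos h1.ne' hb.comp.measure_lt_top.ne

lemma bdd_dot {K : Set (Vec n)} (hc : IsCompact K) (z : Vec n) :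
    ∃ M : ℝ, 0 ≤ M ∧ ∀ x ∈ K, |x ⬝ᵥ z| ≤ M := by
  obtain ⟨M, hM⟩ := (hc.image_of_continuousOn (cont_dot z).continuousOn).isBounded.exists_norm_le
  refine ⟨max M 0, le_max_right _ _, fun x hx => ?_⟩
  exact (hM _ (mem_image_of_mem _ hx)).trans (le_max_left _ _)

end LapAux

open LapAux

theorem lap_pos {n : ℕ} {K : Set (Vec n)} (hb : Body K) (z : Vec n) : 0 < lap K z := by
  unfold lap
  obtain ⟨M, hM0, hM⟩ := bdd_dot hb.comp z
  have h1 := setIntegral_ge_of_const_le_real (c := Real.exp (-M)) hb.comp.measurableSet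
    hb.comp.measure_lt_top.ne (fun x hx => ?_) (intOn hb.comp z)
  · exact lt_of_lt_of_le (mul_pos (Real.exp_pos _) (vol_pos hb)) h1
  · exact Real.exp_le_exp.2 (abs_le.1 (hM x hx)).1

theorem continuous_lap {n : ℕ} {K : Set (Vec n)} (hc : IsCompact K) :
    Continuous (lap K) := by
  unfold lap
  refine continuous_parametric_integral_of_continuous (f := fun z x : Vec n => Real.exp (x ⬝ᵥ z))
    ?_ hc
  unfold Function.uncurry dotProduct
  fun_prop

theorem lap_mulVec {n : ℕ} (K : Set (Vec n)) (M : Matrix (Fin n) (Fin n) ℝ)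
    (hM : IsUnit M.det) (z : Vec n) :
    lap ((fun x => M *ᵥ x) '' K) z = |M.det| * lap K (z ᵥ* M) := by
  have hdet : M.det ≠ 0 := hM.ne_zero
  have hmap := Real.map_matrix_volume_pi_eq_smul_volume_pi hdet
  have hemb : MeasurableEmbedding (Matrix.toLin' M) := by
    have hinj : Function.Injective (Matrix.toLin' M) := by
      intro x y hxy
      rw [Matrix.toLin'_apply, Matrix.toLin'_apply] at hxy
      exact Matrix.mulVec_injective_of_isUnit (Matrix.isUnit_iff_isUnit_det _ |>.2 hM) hxy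
    exact (LinearMap.continuous_of_finiteDimensional _).measurableEmbedding hinj
  have h1 := hemb.setIntegral_map (μ := volume) (fun x : Vec n => Real.exp (x ⬝ᵥ z))
    ((fun x => M *ᵥ x) '' K)
  rw [hmap] at h1
  have h2 : (Matrix.toLin' M) ⁻¹' ((fun x => M *ᵥ x) '' K) = K := by
    have : ((fun x => M *ᵥ x) '' K) = (Matrix.toLin' M) '' K := by
      ext; simp
    rw [this]
    exact preimage_image_eq _ hemb.injective
  rw [h2, Measure.restrict_smul, integral_smul_measure] at h1
  unfold lap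
  have h3 : ∀ x : Vec n, (Matrix.toLin' M) x ⬝ᵥ z = x ⬝ᵥ (z ᵥ* M) := by
    intro x
    rw [Matrix.toLin'_apply, dotProduct_comm, Matrix.dotProduct_mulVec, dotProduct_comm]
  simp only [h3] at h1
  rw [← h1, ENNReal.toReal_ofReal (abs_nonneg _), abs_inv, smul_eq_mul, ← mul_assoc,
    mul_inv_cancel₀ (abs_ne_zero.2 hdet), one_mul]

/-- growth from below -/
theorem lap_ge {n : ℕ} {K : Set (Vec n)} (hb : Body K) (y ω : Vec n) {x₀ : Vec n}
    (hx : x₀ ∈ K) : ∃ c > 0, ∀ t : ℝ, 1 ≤ t →
      c / t ^ n * Real.exp (t * (x₀ ⬝ᵥ ω)) ≤ lap K (y + t • ω) := by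
  obtain ⟨M1, hM10, hM1⟩ := bdd_dot hb.comp y
  obtain ⟨M2, hM20, hM2⟩ := bdd_dot hb.comp ω
  refine ⟨Real.exp (-(M1 + 2 * M2)) * volume.real K, mul_pos (Real.exp_pos _) (vol_pos hb),
    fun t ht => ?_⟩
  have ht0 : 0 < t := by linarith
  set Kt : Set (Vec n) := AffineMap.homothety x₀ t⁻¹ '' K with hKt
  have hsub : Kt ⊆ K := by
    rintro _ ⟨u, hu, rfl⟩
    rw [AffineMap.homothety_apply, vsub_eq_sub, vadd_eq_add]
    have h1 := hb.conv hx hu (a := 1 - t⁻¹) (b := t⁻¹)
      (by have := inv_le_one_of_one_le₀ ht; linarith) (by positivity) (by ring)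
    convert h1 using 1
    rw [sub_smul, one_smul, smul_sub]
    abel
  have hvol : volume.real Kt = volume.real K / t ^ n := by
    rw [hKt, Measure.real, Measure.addHaar_image_homothety, ENNReal.toReal_mul,
      ENNReal.toReal_ofReal (abs_nonneg _), ← Measure.real]
    simp only [Module.finrank_fintype_fun_eq_card, Fintype.card_fin]
    rw [abs_of_nonneg (by positivity), inv_pow]
    field_simp
  have hKtc : IsCompact Kt :=
    hb.comp.image (AffineMap.homothety_continuous x₀ t⁻¹)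
  have hpt : ∀ x ∈ Kt, Real.exp (-(M1 + 2 * M2)) * Real.exp (t * (x₀ ⬝ᵥ ω)) ≤
      Real.exp (x ⬝ᵥ (y + t • ω)) := by
    intro x hxt
    have hxK := hsub hxt
    obtain ⟨u, hu, rfl⟩ := hxt
    rw [← Real.exp_add]
    refine Real.exp_le_exp.2 ?_
    rw [dotProduct_add, dotProduct_smul, smul_eq_mul]
    have e1 : t * (AffineMap.homothety x₀ t⁻¹ u ⬝ᵥ ω) = t * (x₀ ⬝ᵥ ω) + (u ⬝ᵥ ω - x₀ ⬝ᵥ ω) := by
      rw [AffineMap.homothety_apply, vsub_eq_sub, vadd_eq_add, add_dotProduct, smul_dotProduct,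
        sub_dotProduct, smul_eq_mul]
      field_simp
      ring
    rw [e1]
    have h1 := (abs_le.1 (hM1 _ hxK)).1
    have h2 := (abs_le.1 (hM2 _ hu)).1
    have h3 := (abs_le.1 (hM2 _ hx)).2
    linarith
  have h1 := setIntegral_ge_of_const_le_real hKtc.measurableSet hKtc.measure_lt_top.ne hpt
    ((intOn hb.comp _).mono_set hsub)
  have h2 : ∫ x in Kt, Real.exp (x ⬝ᵥ (y + t • ω)) ≤ lap K (y + t • ω) :=
    setIntegral_mono_set (intOn hb.comp _) (Eventually.of_forall fun x => (Real.exp_pos _).le)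
      hsub.eventuallyLE
  refine le_trans (le_of_eq ?_) (h1.trans h2)
  rw [hvol]
  ring

/-- growth from above -/
theorem lap_le {n : ℕ} {K : Set (Vec n)} (hc : IsCompact K) (y ω : Vec n) {h : ℝ}
    (hh : ∀ x ∈ K, x ⬝ᵥ ω ≤ h) : ∃ c, ∀ t : ℝ, 0 ≤ t →
      lap K (y + t • ω) ≤ c * Real.exp (t * h) := by
  obtain ⟨M1, hM10, hM1⟩ := bdd_dot hc y
  refine ⟨Real.exp M1 * volume.real K, fun t ht => ?_⟩
  have h1 : lap K (y + t • ω) ≤ ∫ x in K, Real.exp M1 * Real.exp (t * h) := by
    refine setIntegral_mono_on (intOn hc _) (integrableOn_const hc.measure_lt_top.ne)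
      hc.measurableSet fun x hx => ?_
    rw [← Real.exp_add]
    refine Real.exp_le_exp.2 ?_
    rw [dotProduct_add, dotProduct_smul, smul_eq_mul]
    have h1 := (abs_le.1 (hM1 _ hx)).2
    have h2 := mul_le_mul_of_nonneg_left (hh x hx) ht
    linarith
  refine h1.trans (le_of_eq ?_)
  rw [setIntegral_const, smul_eq_mul]
  ring


/-- the product formula for the covariogram -/
theorem lap_cov {n : ℕ} {K : Set (Vec n)} (hc : IsCompact K) (z : Vec n) :
    lap K z * lap K (-z) =
      ∫ x, (volume (K ∩ ((fun y => y + x) '' K))).toReal * Real.exp (x ⬝ᵥ z) := by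
  set f : Vec n → ℝ := K.indicator fun x => Real.exp (x ⬝ᵥ z) with hf
  set g : Vec n → ℝ := fun y => K.indicator (fun x => Real.exp (x ⬝ᵥ (-z))) (-y) with hg
  have hfi : Integrable f := (integrable_indicator_iff hc.measurableSet).2 (intOn hc z)
  have hgi0 : Integrable (K.indicator fun x => Real.exp (x ⬝ᵥ (-z))) :=
    (integrable_indicator_iff hc.measurableSet).2 (intOn hc (-z))
  have hgi : Integrable g := hgi0.comp_neg
  have h1 : lap K z = ∫ x, f x := by
    rw [hf, integral_indicator hc.measurableSet]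
    rfl
  have h2 : lap K (-z) = ∫ x, g x := by
    rw [hg, integral_neg_eq_self (fun y => K.indicator (fun x => Real.exp (x ⬝ᵥ (-z))) y) volume,
      integral_indicator hc.measurableSet]
    rfl
  have h3 := integral_convolution (ContinuousLinearMap.mul ℝ ℝ) hfi hgi (ν := volume)
    (μ := volume)
  rw [h1, h2]
  rw [show (∫ x, f x) * (∫ x, g x) = (ContinuousLinearMap.mul ℝ ℝ) (∫ x, f x) (∫ x, g x) from rfl,
    ← h3]
  refine integral_congr_ae (Eventually.of_forall fun u => ?_)
  simp only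
  rw [convolution_def]
  have h4 : ∀ t : Vec n, (ContinuousLinearMap.mul ℝ ℝ) (f t) (g (u - t)) =
      (K ∩ ((fun y => y + u) '' K)).indicator (fun _ => Real.exp (u ⬝ᵥ z)) t := by
    intro t
    simp only [ContinuousLinearMap.mul_apply', hf, hg]
    have hiff : t ∈ (fun y => y + u) '' K ↔ -(u - t) ∈ K := by
      constructor
      · rintro ⟨y, hy, rfl⟩
        simpa using hy
      · intro h
        exact ⟨-(u - t), h, by simp⟩
    by_cases ht : t ∈ K
    · by_cases ht' : -(u - t) ∈ K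
      · rw [indicator_of_mem ht, indicator_of_mem ht', indicator_of_mem (show t ∈ K ∩ _ from
          ⟨ht, hiff.2 ht'⟩), ← Real.exp_add]
        congr 1
        simp only [neg_sub, sub_dotProduct, dotProduct_neg]
        ring
      · rw [indicator_of_notMem ht', mul_zero, indicator_of_notMem]
        exact fun h => ht' (hiff.1 h.2)
    · rw [indicator_of_notMem ht, zero_mul, indicator_of_notMem]
      exact fun h => ht h.1
  simp only [h4]
  have hm : MeasurableSet (K ∩ ((fun y => y + u) '' K)) :=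
    hc.measurableSet.inter (hc.image (by fun_prop)).measurableSet
  rw [integral_indicator hm, setIntegral_const, smul_eq_mul]
  rfl

namespace LapAux

lemma exists_vec {n : ℕ} (f : StrongDual ℝ (Vec n)) : ∃ ω : Vec n, ∀ x, f x = x ⬝ᵥ ω := by
  refine ⟨fun i => f (Pi.single i 1), fun x => ?_⟩
  have h : x = ∑ i, x i • (Pi.single i (1 : ℝ) : Vec n) := by
    ext j
    simp [Finset.sum_apply, Pi.single_apply]
  conv_lhs => rw [h]
  rw [map_sum]
  unfold dotProduct
  refine Finset.sum_congr rfl fun i _ => ?_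
  rw [map_smul, smul_eq_mul]

lemma line_poly {n : ℕ} (p : Pol n) (y ω : Vec n) :
    ∃ q : Polynomial ℝ, ∀ t : ℝ, eval (y + t • ω) p = q.eval t := by
  induction p using MvPolynomial.induction_on with
  | C a => exact ⟨Polynomial.C a, fun t => by simp⟩
  | add p q hp hq =>
    obtain ⟨p', hp⟩ := hp
    obtain ⟨q', hq⟩ := hq
    exact ⟨p' + q', fun t => by simp [hp, hq]⟩
  | mul_X p i hp =>
    obtain ⟨p', hp⟩ := hp
    refine ⟨p' * (Polynomial.C (y i) + Polynomial.X * Polynomial.C (ω i)), fun t => ?_⟩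
    rw [map_mul, hp, eval_X, Polynomial.eval_mul, Polynomial.eval_add, Polynomial.eval_C,
      Polynomial.eval_mul, Polynomial.eval_X, Polynomial.eval_C]
    rfl

lemma poly_lower {q : Polynomial ℝ} (h : q ≠ 0) : ∃ c > 0, ∀ᶠ t in atTop, c ≤ |q.eval t| := by
  rcases le_or_gt q.degree 0 with hd | hd
  · rw [Polynomial.eq_C_of_degree_le_zero hd] at h ⊢
    have h0 : q.coeff 0 ≠ 0 := fun h0 => h (by rw [h0, Polynomial.C_0])
    exact ⟨|q.coeff 0|, abs_pos.2 h0, Eventually.of_forall fun t => by simp⟩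
  · exact ⟨1, one_pos, (q.abs_tendsto_atTop hd).eventually_ge_atTop 1⟩

lemma poly_upper (q : Polynomial ℝ) : ∃ (A : ℝ) (N : ℕ), 0 ≤ A ∧
    ∀ t : ℝ, 1 ≤ t → |q.eval t| ≤ A * t ^ N := by
  refine ⟨∑ i ∈ Finset.range (q.natDegree + 1), |q.coeff i|, q.natDegree,
    Finset.sum_nonneg fun _ _ => abs_nonneg _, fun t ht => ?_⟩
  rw [Polynomial.eval_eq_sum_range, Finset.sum_mul]
  refine (Finset.abs_sum_le_sum_abs _ _).trans (Finset.sum_le_sum fun i hi => ?_)
  rw [abs_mul, abs_of_nonneg (a := t ^ i) (by positivity)]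
  refine mul_le_mul_of_nonneg_left (pow_le_pow_right₀ ht ?_) (abs_nonneg _)
  rw [Finset.mem_range] at hi
  omega

lemma sum_upper {n : ℕ} (S : Finset (Vec n)) (R : Vec n → Pol n) (y ω : Vec n) (h : ℝ)
    (hS : ∀ a ∈ S, a ⬝ᵥ ω ≤ h) : ∃ (A : ℝ) (N : ℕ), 0 ≤ A ∧ ∀ t : ℝ, 1 ≤ t →
      |∑ a ∈ S, eval (y + t • ω) (R a) * Real.exp (a ⬝ᵥ (y + t • ω))| ≤
        A * t ^ N * Real.exp (t * h) := by
  classical
  induction S using Finset.induction_on with
  | empty => exact ⟨0, 0, le_rfl, fun t _ => by simp⟩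
  | insert b S hb ih =>
    obtain ⟨A, N, hA, hAN⟩ := ih fun a ha => hS a (Finset.mem_insert_of_mem ha)
    obtain ⟨q, hq⟩ := line_poly (R b) y ω
    obtain ⟨A', N', hA', hAN'⟩ := poly_upper q
    refine ⟨A + A' * Real.exp (b ⬝ᵥ y), max N N', by positivity, fun t ht => ?_⟩
    rw [Finset.sum_insert hb]
    have ht0 : 0 ≤ t := by linarith
    have h1 := hAN t ht
    have h2 := hAN' t ht
    have h3 : |eval (y + t • ω) (R b) * Real.exp (b ⬝ᵥ (y + t • ω))| ≤
        A' * Real.exp (b ⬝ᵥ y) * t ^ N' * Real.exp (t * h) := by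
      rw [abs_mul, hq, abs_of_pos (Real.exp_pos _), dotProduct_add, dotProduct_smul, smul_eq_mul,
        Real.exp_add]
      have h4 : Real.exp (t * (b ⬝ᵥ ω)) ≤ Real.exp (t * h) :=
        Real.exp_le_exp.2 (mul_le_mul_of_nonneg_left (hS b (Finset.mem_insert_self b S)) ht0)
      calc |q.eval t| * (Real.exp (b ⬝ᵥ y) * Real.exp (t * (b ⬝ᵥ ω))) ≤
          (A' * t ^ N') * (Real.exp (b ⬝ᵥ y) * Real.exp (t * h)) := by gcongr
        _ = _ := by ring
    have h5 : A * t ^ N * Real.exp (t * h) ≤ A * t ^ max N N' * Real.exp (t * h) := by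
      gcongr
      exact le_max_left _ _
    have h6 : A' * Real.exp (b ⬝ᵥ y) * t ^ N' * Real.exp (t * h) ≤
        A' * Real.exp (b ⬝ᵥ y) * t ^ max N N' * Real.exp (t * h) := by
      gcongr
      exact le_max_right _ _
    calc |eval (y + t • ω) (R b) * Real.exp (b ⬝ᵥ (y + t • ω)) +
          ∑ a ∈ S, eval (y + t • ω) (R a) * Real.exp (a ⬝ᵥ (y + t • ω))| ≤ _ :=
          abs_add_le _ _
      _ ≤ A' * Real.exp (b ⬝ᵥ y) * t ^ max N N' * Real.exp (t * h) +
          A * t ^ max N N' * Real.exp (t * h) := by linarith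
      _ = _ := by ring

lemma lim_zero (A : ℝ) (N : ℕ) {δ : ℝ} (hδ : 0 < δ) :
    Tendsto (fun t : ℝ => A * t ^ N * Real.exp (-(δ * t))) atTop (𝓝 0) := by
  have h := (tendsto_rpow_mul_exp_neg_mul_atTop_nhds_zero N δ hδ).const_mul A
  rw [mul_zero] at h
  refine h.congr fun t => ?_
  rw [Real.rpow_natCast]
  ring_nf

end LapAux

open LapAux

theorem Nw_eq {n : ℕ} {K : Set (Vec n)} {C : Pol n} {R : EA n} (hb : Body K)
    (h : TrC K C R) : Nw R = K := by
  classical
  have hKcl : IsClosed K := hb.comp.isClosed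
  apply Set.Subset.antisymm
  · -- exponents lie in `K`
    refine convexHull_min ?_ hb.conv
    intro s hs
    by_contra hsK
    obtain ⟨f, u, hfu, hus⟩ := geometric_hahn_banach_closed_point hb.conv hKcl hsK
    obtain ⟨ω, hω⟩ := exists_vec f
    simp only [hω] at hfu hus
    have hs' : s ∈ R.coeff.support := hs
    obtain ⟨a0, ha0, hmax⟩ := Finset.exists_max_image R.coeff.support (fun a => a ⬝ᵥ ω) ⟨s, hs'⟩
    set M := a0 ⬝ᵥ ω with hM
    have huM : u < M := hus.trans_le (hmax s hs')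
    have hR0 : R ≠ 0 := by
      rintro rfl
      simp at hs'
    have hlead := lead_ne_zero ω hR0
    obtain ⟨y, hy⟩ : ∃ y, ev y (lead ω R) ≠ 0 := by
      by_contra hcon
      push Not at hcon
      exact hlead (ev_inj hcon)
    set S1 := R.coeff.support.filter fun a => a ⬝ᵥ ω = M with hS1
    set S2 := R.coeff.support.filter fun a => ¬ (a ⬝ᵥ ω = M) with hS2
    have hleadsupp : (lead ω R).coeff.support = S1 := by
      rw [support_lead, hS1]
      refine Finset.filter_congr fun a ha => ?_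
      constructor
      · intro h1
        exact le_antisymm (hmax a ha) (h1 a0 ha0)
      · intro h1 b hb
        rw [h1]
        exact hmax b hb
    have hevlead : ev y (lead ω R) = ∑ a ∈ S1, eval y (R.coeff a) * Real.exp (a ⬝ᵥ y) := by
      rw [ev_apply, hleadsupp]
      refine Finset.sum_congr rfl fun a ha => ?_
      rw [coeff_lead ω R (by rw [hleadsupp]; exact ha)]
    obtain ⟨M', hM'M, hM'⟩ : ∃ M' < M, ∀ a ∈ S2, a ⬝ᵥ ω ≤ M' := by
      rcases S2.eq_empty_or_nonempty with he | hne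
      · exact ⟨M - 1, by linarith, fun a ha => by rw [he] at ha; simp at ha⟩
      · obtain ⟨a1, ha1, hmax1⟩ := Finset.exists_max_image S2 (fun a => a ⬝ᵥ ω) hne
        refine ⟨a1 ⬝ᵥ ω, ?_, hmax1⟩
        rw [hS2, Finset.mem_filter] at ha1
        exact lt_of_le_of_ne (hmax a1 ha1.1) ha1.2
    -- the leading polynomial
    choose qq hqq using fun a => line_poly (R.coeff a) y ω
    set q : Polynomial ℝ := ∑ a ∈ S1, qq a * Polynomial.C (Real.exp (a ⬝ᵥ y)) with hq
    have hq0 : q ≠ 0 := by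
      intro h0
      apply hy
      rw [hevlead]
      have h1 : q.eval 0 = ∑ a ∈ S1, eval y (R.coeff a) * Real.exp (a ⬝ᵥ y) := by
        rw [hq, Polynomial.eval_finsetSum]
        refine Finset.sum_congr rfl fun a _ => ?_
        rw [Polynomial.eval_mul, Polynomial.eval_C, ← hqq a 0]
        simp
      rw [← h1, h0, Polynomial.eval_zero]
    obtain ⟨c, hc, hqlow⟩ := poly_lower hq0
    obtain ⟨A, N, hA, hAN⟩ := sum_upper S2 R.coeff y ω M' hM'
    obtain ⟨cK, hcK⟩ := lap_le hb.comp y ω (h := u) fun x hx => (hfu x hx).le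
    obtain ⟨qC, hqC⟩ := line_poly C y ω
    obtain ⟨A2, N2, hA2, hAN2⟩ := poly_upper qC
    set m := max u M' with hm
    have hmM : m < M := max_lt huM hM'M
    have hlim := ((lim_zero (A2 * |cK|) N2 (sub_pos.2 hmM)).add
      (lim_zero A N (sub_pos.2 hmM)))
    rw [add_zero] at hlim
    have hev := (hlim.eventually_lt_const hc).and (hqlow.and (eventually_ge_atTop 1))
    obtain ⟨t, ht1, ht2, ht3⟩ := hev.exists
    have ht0 : 0 ≤ t := by linarith
    -- compare
    have e1 : ev (y + t • ω) R = q.eval t * Real.exp (t * M) +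
        ∑ a ∈ S2, eval (y + t • ω) (R.coeff a) * Real.exp (a ⬝ᵥ (y + t • ω)) := by
      rw [ev_apply, ← Finset.sum_filter_add_sum_filter_not R.coeff.support
        (fun a => a ⬝ᵥ ω = M)]
      congr 1
      rw [hq, Polynomial.eval_finsetSum, Finset.sum_mul]
      refine Finset.sum_congr rfl fun a ha => ?_
      rw [Finset.mem_filter] at ha
      rw [Polynomial.eval_mul, Polynomial.eval_C, ← hqq a t, dotProduct_add, dotProduct_smul,
        smul_eq_mul, ha.2, Real.exp_add]
      ring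
    have e2 := h.eq (y + t • ω)
    have e3 : |ev (y + t • ω) R| ≤ A2 * |cK| * t ^ N2 * Real.exp (t * m) := by
      rw [e2, abs_mul, abs_of_pos (lap_pos hb _), hqC]
      have h1 := hAN2 t ht3
      have h2 := hcK t ht0
      have h3 : Real.exp (t * u) ≤ Real.exp (t * m) :=
        Real.exp_le_exp.2 (mul_le_mul_of_nonneg_left (le_max_left _ _) ht0)
      have h4 : lap K (y + t • ω) ≤ |cK| * Real.exp (t * m) :=
        h2.trans (mul_le_mul (le_abs_self _) h3 (Real.exp_pos _).le (abs_nonneg _))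
      calc |qC.eval t| * lap K (y + t • ω) ≤ (A2 * t ^ N2) * (|cK| * Real.exp (t * m)) :=
            mul_le_mul h1 h4 (lap_pos hb _).le (by positivity)
        _ = _ := by ring
    have e4 : |∑ a ∈ S2, eval (y + t • ω) (R.coeff a) * Real.exp (a ⬝ᵥ (y + t • ω))| ≤
        A * t ^ N * Real.exp (t * m) := by
      refine (hAN t ht3).trans ?_
      have h3 : Real.exp (t * M') ≤ Real.exp (t * m) :=
        Real.exp_le_exp.2 (mul_le_mul_of_nonneg_left (le_max_right _ _) ht0)
      gcongr
    have e5 : c * Real.exp (t * M) ≤ (A2 * |cK| * t ^ N2 + A * t ^ N) * Real.exp (t * m) := by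
      have h1 : c * Real.exp (t * M) ≤ |q.eval t * Real.exp (t * M)| := by
        rw [abs_mul, abs_of_pos (Real.exp_pos _)]
        gcongr
      have h2 : q.eval t * Real.exp (t * M) = ev (y + t • ω) R -
          ∑ a ∈ S2, eval (y + t • ω) (R.coeff a) * Real.exp (a ⬝ᵥ (y + t • ω)) := by
        rw [e1]; ring
      rw [h2] at h1
      have h3 := (abs_sub _ _ : |ev (y + t • ω) R -
          ∑ a ∈ S2, eval (y + t • ω) (R.coeff a) * Real.exp (a ⬝ᵥ (y + t • ω))| ≤ _)
      linarith
    have e6 : c ≤ A2 * |cK| * t ^ N2 * Real.exp (-((M - m) * t)) +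
        A * t ^ N * Real.exp (-((M - m) * t)) := by
      have h1 : Real.exp (t * m) = Real.exp (t * M) * Real.exp (-((M - m) * t)) := by
        rw [← Real.exp_add]; ring_nf
      rw [h1] at e5
      have h2 : 0 < Real.exp (t * M) := Real.exp_pos _
      have h3 : Real.exp (t * M) * c ≤ Real.exp (t * M) *
          (A2 * |cK| * t ^ N2 * Real.exp (-((M - m) * t)) +
          A * t ^ N * Real.exp (-((M - m) * t))) := by
        calc Real.exp (t * M) * c = c * Real.exp (t * M) := by ring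
          _ ≤ _ := e5
          _ = _ := by ring
      exact le_of_mul_le_mul_left h3 h2
    linarith
  · -- `K` lies in the Newton polytope
    intro x₀ hx₀
    by_contra hx
    have hcl : IsClosed (Nw R) := by
      unfold Nw
      exact (R.coeff.support.finite_toSet.isCompact_convexHull (𝕜 := ℝ)).isClosed
    obtain ⟨f, u, hfu, hus⟩ := geometric_hahn_banach_closed_point
      (convex_convexHull ℝ (R.coeff.support : Set (Vec n))) hcl hx
    obtain ⟨ω, hω⟩ := exists_vec f
    simp only [hω] at hfu hus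
    obtain ⟨y, hy⟩ : ∃ y, eval y C ≠ 0 := by
      by_contra hcon
      push Not at hcon
      exact h.ne (MvPolynomial.funext fun x => by rw [hcon x, map_zero])
    obtain ⟨qC, hqC⟩ := line_poly C y ω
    have hqC0 : qC ≠ 0 := by
      rintro rfl
      apply hy
      have := hqC 0
      simpa using this
    obtain ⟨c, hc, hqlow⟩ := poly_lower hqC0
    obtain ⟨cK, hcK, hlow⟩ := lap_ge hb y ω hx₀
    obtain ⟨A, N, hA, hAN⟩ := sum_upper R.coeff.support R.coeff y ω u fun a ha =>
      (hfu a (subset_convexHull ℝ _ ha)).le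
    have hlim := lim_zero A (N + n) (sub_pos.2 hus)
    have hev := (hlim.eventually_lt_const (mul_pos hc hcK)).and
      (hqlow.and (eventually_ge_atTop 1))
    obtain ⟨t, ht1, ht2, ht3⟩ := hev.exists
    have ht0 : 0 < t := by linarith
    have e1 := hAN t ht3
    rw [← ev_apply, h.eq, abs_mul, abs_of_pos (lap_pos hb _), hqC] at e1
    have e2 := hlow t ht3
    have e3 : c * (cK / t ^ n * Real.exp (t * (x₀ ⬝ᵥ ω))) ≤ A * t ^ N * Real.exp (t * u) := by
      refine le_trans ?_ e1
      exact mul_le_mul ht2 e2 (by positivity) (abs_nonneg _)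
    have h1 : Real.exp (t * u) = Real.exp (t * (x₀ ⬝ᵥ ω)) *
        Real.exp (-((x₀ ⬝ᵥ ω - u) * t)) := by
      rw [← Real.exp_add]; ring_nf
    have htn : 0 < t ^ n := by positivity
    have e4 : Real.exp (t * (x₀ ⬝ᵥ ω)) * (c * cK) ≤ Real.exp (t * (x₀ ⬝ᵥ ω)) *
        (A * t ^ (N + n) * Real.exp (-((x₀ ⬝ᵥ ω - u) * t))) := by
      rw [h1] at e3
      calc Real.exp (t * (x₀ ⬝ᵥ ω)) * (c * cK) =
          t ^ n * (c * (cK / t ^ n * Real.exp (t * (x₀ ⬝ᵥ ω)))) := by field_simp
        _ ≤ t ^ n * (A * t ^ N * (Real.exp (t * (x₀ ⬝ᵥ ω)) *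
            Real.exp (-((x₀ ⬝ᵥ ω - u) * t)))) := by gcongr
        _ = _ := by ring
    have e5 := le_of_mul_le_mul_left e4 (Real.exp_pos _)
    linarith

end Pool.Agent.Covg
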