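import Pool.Agent.Work.MP_177351_gt.Defs

/-!
# Linear changes of coordinates
-/

set_option autoImplicit false

open MeasureTheory MvPolynomial Set Filter Topology
open scoped Pointwise Matrix

namespace Pool.Agent.Covg

namespace TransAux

theorem ev_single {n : ℕ} (z a : Vec n) (p : Pol n) :
    ev z (AddMonoidAlgebra.single a p) = eval z p * Real.exp (a ⬝ᵥ z) := by
  unfold ev
  exact AddMonoidAlgebra.liftNC_single _ _ _ _

theorem eval_lin {n : ℕ} (a z : Vec n) : eval z (lin a) = a ⬝ᵥ z := by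
  simp [lin, dotProduct]

theorem isHomogeneous_lin {n : ℕ} (a : Vec n) : (lin a).IsHomogeneous 1 := by
  unfold lin
  refine IsHomogeneous.sum _ _ _ fun i _ => ?_
  exact isHomogeneous_C_mul_X _ _

theorem mulVec_dot {n : ℕ} (M : Matrix (Fin n) (Fin n) ℝ) (a z : Vec n) :
    (M *ᵥ a) ⬝ᵥ z = a ⬝ᵥ (z ᵥ* M) := by
  rw [dotProduct_comm, Matrix.dotProduct_mulVec, dotProduct_comm]

end TransAux

open TransAux

theorem eval_subst {n : ℕ} (M : Matrix (Fin n) (Fin n) ℝ) (p : Pol n) (z : Vec n) :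
    eval z (subst M p) = eval (z ᵥ* M) p := by
  unfold subst
  have h1 : (eval z).comp ((MvPolynomial.aeval (R := ℝ) fun i => lin fun j => M j i :
      Pol n →ₐ[ℝ] Pol n) : Pol n →+* Pol n) = eval (z ᵥ* M) := by
    apply MvPolynomial.ringHom_ext
    · intro r
      simp
    · intro i
      simp only [RingHom.comp_apply, RingHom.coe_coe, aeval_X, eval_X, eval_lin]
      rw [dotProduct_comm]
      rfl
  exact congrArg (fun g => g p) h1

namespace TransAux

variable {n : ℕ} {M : Matrix (Fin n) (Fin n) ℝ}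

theorem mulVec_bij (hM : IsUnit M.det) : Function.Bijective fun a : Vec n => M *ᵥ a := by
  refine ⟨Matrix.mulVec_injective_of_isUnit ((Matrix.isUnit_iff_isUnit_det M).2 hM), ?_⟩
  intro b
  refine ⟨M⁻¹ *ᵥ b, ?_⟩
  simp only
  rw [Matrix.mulVec_mulVec, Matrix.mul_nonsing_inv M hM, Matrix.one_mulVec]

theorem vecMul_surj (hM : IsUnit M.det) : Function.Surjective fun z : Vec n => z ᵥ* M := by
  intro b
  refine ⟨b ᵥ* M⁻¹, ?_⟩
  simp only
  rw [Matrix.vecMul_vecMul, Matrix.nonsing_inv_mul M hM, Matrix.vecMul_one]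

theorem subst_inj (hM : IsUnit M.det) : Function.Injective (subst M) := by
  rw [injective_iff_map_eq_zero]
  intro p hp
  apply MvPolynomial.funext
  intro z
  obtain ⟨y, rfl⟩ := vecMul_surj hM z
  simp only
  rw [← eval_subst, hp]
  simp

theorem isHomogeneous_subst {d : ℕ} {p : Pol n} (hp : p.IsHomogeneous d) :
    (subst M p).IsHomogeneous d := by
  have := hp.aeval (R := ℝ) (fun i => lin fun j => M j i) (fun i => isHomogeneous_lin _)
  rwa [one_mul] at this

/-- the additive map `a ↦ M a` -/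
def mv (M : Matrix (Fin n) (Fin n) ℝ) : Vec n →+ Vec n where
  toFun a := M *ᵥ a
  map_zero' := Matrix.mulVec_zero M
  map_add' a b := Matrix.mulVec_add M a b

/-- the transformation -/
noncomputable def tm (M : Matrix (Fin n) (Fin n) ℝ) : EA n →+* EA n :=
  (AddMonoidAlgebra.mapDomainRingHom (Pol n) (mv M)).comp
    (AddMonoidAlgebra.mapRingHom (Vec n) (subst M : Pol n →+* Pol n))

theorem tm_single (a : Vec n) (p : Pol n) :
    tm M (AddMonoidAlgebra.single a p) = AddMonoidAlgebra.single (M *ᵥ a) (subst M p) := by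
  simp [tm, mv]

theorem tm_coeff (hM : IsUnit M.det) (P : EA n) (a : Vec n) :
    (tm M P).coeff (M *ᵥ a) = subst M (P.coeff a) := by
  have h1 : (tm M P).coeff = Finsupp.mapDomain (fun a : Vec n => M *ᵥ a)
      (AddMonoidAlgebra.map ((subst M : Pol n →+* Pol n) : Pol n →+ Pol n) P).coeff := rfl
  rw [h1, Finsupp.mapDomain_apply (mulVec_bij hM).1]
  rfl

theorem mem_support_tm (hM : IsUnit M.det) (P : EA n) (a : Vec n) :
    M *ᵥ a ∈ (tm M P).coeff.support ↔ a ∈ P.coeff.support := by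
  rw [Finsupp.mem_support_iff, Finsupp.mem_support_iff, tm_coeff hM, Ne, Ne,
    map_eq_zero_iff _ (subst_inj hM)]

theorem tm_support (hM : IsUnit M.det) (P : EA n) :
    ((tm M P).coeff.support : Set (Vec n)) = (fun a => M *ᵥ a) '' P.coeff.support := by
  ext b
  obtain ⟨a, rfl⟩ := (mulVec_bij hM).2 b
  simp only [Finset.mem_coe]
  rw [mem_support_tm hM]
  constructor
  · intro h; exact ⟨a, h, rfl⟩
  · rintro ⟨a', h, h'⟩
    have := (mulVec_bij hM).1 h'
    rwa [← this]

theorem ev_tm (P : EA n) (z : Vec n) : ev z (tm M P) = ev (z ᵥ* M) P := by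
  rw [← AddMonoidAlgebra.sum_coeff_single P, Finsupp.sum, map_sum, map_sum, map_sum]
  refine Finset.sum_congr rfl fun a _ => ?_
  rw [tm_single, ev_single, ev_single, eval_subst, mulVec_dot]

theorem lead_tm (hM : IsUnit M.det) (P : EA n) (ω : Vec n) :
    lead ω (tm M P) = tm M (lead (ω ᵥ* M) P) := by
  classical
  apply AddMonoidAlgebra.coeff_injective
  ext1 b
  obtain ⟨a, rfl⟩ := (mulVec_bij hM).2 b
  simp only
  rw [tm_coeff hM]
  unfold lead
  rw [AddMonoidAlgebra.coeff_ofCoeff, AddMonoidAlgebra.coeff_ofCoeff, Finsupp.filter_apply,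
    Finsupp.filter_apply, tm_coeff hM]
  have h1 : (∀ b ∈ (tm M P).coeff.support, b ⬝ᵥ ω ≤ (M *ᵥ a) ⬝ᵥ ω) ↔
      ∀ b ∈ P.coeff.support, b ⬝ᵥ (ω ᵥ* M) ≤ a ⬝ᵥ (ω ᵥ* M) := by
    constructor
    · intro h b hb
      have := h _ ((mem_support_tm hM P b).2 hb)
      rwa [mulVec_dot, mulVec_dot] at this
    · intro h b hb
      obtain ⟨b', rfl⟩ := (mulVec_bij hM).2 b
      simp only at hb ⊢
      rw [mulVec_dot, mulVec_dot]
      exact h b' ((mem_support_tm hM P b').1 hb)
  by_cases h2 : ∀ b ∈ P.coeff.support, b ⬝ᵥ (ω ᵥ* M) ≤ a ⬝ᵥ (ω ᵥ* M)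
  · rw [if_pos h2, if_pos (h1.2 h2)]
  · rw [if_neg h2, if_neg (fun h => h2 (h1.1 h)), map_zero]

theorem isHom_tm (hM : IsUnit M.det) {P : EA n} {d : ℕ} (h : IsHom d P) : IsHom d (tm M P) := by
  intro b
  obtain ⟨a, rfl⟩ := (mulVec_bij hM).2 b
  simp only
  rw [tm_coeff hM]
  exact isHomogeneous_subst (h a)

theorem lap_mv (K : Set (Vec n)) (hM : IsUnit M.det) (z : Vec n) :
    lap ((fun x => M *ᵥ x) '' K) z = |M.det| * lap K (z ᵥ* M) := by
  have hdet : M.det ≠ 0 := hM.ne_zero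
  have h1 := Real.map_matrix_volume_pi_eq_smul_volume_pi hdet
  have hcont : Continuous fun x : Vec n => M *ᵥ x := Continuous.matrix_mulVec continuous_const continuous_id
  have hcont' : Continuous fun x : Vec n => M⁻¹ *ᵥ x :=
    Continuous.matrix_mulVec continuous_const continuous_id
  let e : Vec n ≃ₜ Vec n :=
    { toFun := fun x => M *ᵥ x
      invFun := fun x => M⁻¹ *ᵥ x
      left_inv := fun x => by
        simp only
        rw [Matrix.mulVec_mulVec, Matrix.nonsing_inv_mul M hM, Matrix.one_mulVec]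
      right_inv := fun x => by
        simp only
        rw [Matrix.mulVec_mulVec, Matrix.mul_nonsing_inv M hM, Matrix.one_mulVec]
      continuous_toFun := hcont
      continuous_invFun := hcont' }
  have h2 : Measure.map (fun x : Vec n => M *ᵥ x) volume = ENNReal.ofReal |(M.det)⁻¹| • volume := h1
  have h3 : ∫ y in (fun x => M *ᵥ x) '' K, Real.exp (y ⬝ᵥ z)
      ∂(Measure.map (fun x : Vec n => M *ᵥ x) volume) =
      ∫ x in K, Real.exp ((M *ᵥ x) ⬝ᵥ z) := by
    have h3' := (e.measurableEmbedding).setIntegral_map (μ := volume)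
      (fun y => Real.exp (y ⬝ᵥ z)) ((fun x => M *ᵥ x) '' K)
    refine h3'.trans ?_
    have : (fun x : Vec n => M *ᵥ x) ⁻¹' ((fun x => M *ᵥ x) '' K) = K :=
      preimage_image_eq _ (mulVec_bij hM).1
    have h4 : (⇑e) ⁻¹' ((fun x => M *ᵥ x) '' K) = K := this
    rw [h4]
    rfl
  rw [h2, Measure.restrict_smul, integral_smul_measure] at h3
  unfold lap
  have h4 : (ENNReal.ofReal |(M.det)⁻¹|).toReal = |M.det|⁻¹ := by
    rw [ENNReal.toReal_ofReal (abs_nonneg _), abs_inv]
  rw [h4] at h3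
  have h5 : |M.det| ≠ 0 := abs_ne_zero.2 hdet
  have h6 : ∫ y in (fun x => M *ᵥ x) '' K, Real.exp (y ⬝ᵥ z) =
      |M.det| * ∫ x in K, Real.exp ((M *ᵥ x) ⬝ᵥ z) := by
    rw [← h3, smul_eq_mul, ← mul_assoc, mul_inv_cancel₀ h5, one_mul]
  rw [h6]
  simp_rw [mulVec_dot]

theorem ev_smul (c : ℝ) (P : EA n) (z : Vec n) : ev z (c • P) = c * ev z P := by
  conv_lhs => rw [← AddMonoidAlgebra.sum_coeff_single P, Finsupp.sum, Finset.smul_sum, map_sum]
  conv_rhs => rw [← AddMonoidAlgebra.sum_coeff_single P, Finsupp.sum, map_sum, Finset.mul_sum]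
  refine Finset.sum_congr rfl fun a _ => ?_
  rw [AddMonoidAlgebra.smul_single, ev_single, ev_single, MvPolynomial.smul_eval]
  ring

theorem isHom_smul (c : ℝ) {P : EA n} {d : ℕ} (h : IsHom d P) : IsHom d (c • P) := by
  intro a
  have : (c • P).coeff a = c • P.coeff a := rfl
  rw [this, MvPolynomial.smul_eq_C_mul]
  exact (h a).C_mul c

theorem trC_tm (hM : IsUnit M.det) {K : Set (Vec n)} {P : EA n} {C : Pol n} (h : TrC K C P) :
    TrC ((fun x => M *ᵥ x) '' K) (subst M C) (tm M (|M.det| • P)) := by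
  refine ⟨?_, ?_, ?_⟩
  · rw [Ne, map_eq_zero_iff _ (subst_inj hM)]
    exact h.ne
  · obtain ⟨d, h1, h2⟩ := h.hom
    exact ⟨d, isHomogeneous_subst h1, isHom_tm hM (isHom_smul _ h2)⟩
  · intro z
    rw [ev_tm, ev_smul, h.eq, eval_subst, lap_mv K hM]
    ring

theorem body_tm (hM : IsUnit M.det) {K : Set (Vec n)} (h : Body K) :
    Body ((fun x => M *ᵥ x) '' K) := by
  have hcont : Continuous fun x : Vec n => M *ᵥ x := Continuous.matrix_mulVec continuous_const continuous_id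
  have hcont' : Continuous fun x : Vec n => M⁻¹ *ᵥ x :=
    Continuous.matrix_mulVec continuous_const continuous_id
  let e : Vec n ≃ₜ Vec n :=
    { toFun := fun x => M *ᵥ x
      invFun := fun x => M⁻¹ *ᵥ x
      left_inv := fun x => by
        simp only
        rw [Matrix.mulVec_mulVec, Matrix.nonsing_inv_mul M hM, Matrix.one_mulVec]
      right_inv := fun x => by
        simp only
        rw [Matrix.mulVec_mulVec, Matrix.mul_nonsing_inv M hM, Matrix.one_mulVec]
      continuous_toFun := hcont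
      continuous_invFun := hcont' }
  refine ⟨?_, h.comp.image hcont, ?_⟩
  · exact h.conv.linear_image (Matrix.toLin' M)
  · obtain ⟨x, hx⟩ := h.int
    have h1 : e '' interior K = interior (e '' K) := e.image_interior K
    exact ⟨e x, h1 ▸ mem_image_of_mem e hx⟩

theorem fp_tm (hM : IsUnit M.det) {K : Set (Vec n)} {P Q : EA n} (h : FP K P Q) :
    FP ((fun x => M *ᵥ x) '' K) (tm M P) (tm M Q) := by
  refine ⟨body_tm hM h.body, ?_, ?_, ?_⟩
  · obtain ⟨d, hd⟩ := h.homP; exact ⟨d, isHom_tm hM hd⟩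
  · obtain ⟨d, hd⟩ := h.homQ; exact ⟨d, isHom_tm hM hd⟩
  · obtain ⟨D, hD⟩ := h.tr
    have hdet : |M.det| ≠ 0 := abs_ne_zero.2 hM.ne_zero
    refine ⟨|M.det|⁻¹ • subst M D, ?_, ?_, ?_⟩
    · refine smul_ne_zero (inv_ne_zero hdet) ?_
      rw [Ne, map_eq_zero_iff _ (subst_inj hM)]
      exact hD.ne
    · obtain ⟨d, h1, h2⟩ := hD.hom
      refine ⟨d, ?_, ?_⟩
      · rw [MvPolynomial.smul_eq_C_mul]
        exact (isHomogeneous_subst h1).C_mul _
      · rw [← map_mul]
        exact isHom_tm hM h2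
    · intro z
      rw [← map_mul, ev_tm, hD.eq, lap_mv K hM, MvPolynomial.smul_eval, eval_subst]
      field_simp

end TransAux

theorem exists_tm {n : ℕ} (M : Matrix (Fin n) (Fin n) ℝ) (hM : IsUnit M.det) :
    ∃ f : EA n →+* EA n, (∀ P a, (f P).coeff (M *ᵥ a) = subst M (P.coeff a)) ∧
      (∀ P, ((f P).coeff.support : Set (Vec n)) = (fun a => M *ᵥ a) '' P.coeff.support) ∧
      (∀ P z, ev z (f P) = ev (z ᵥ* M) P) ∧
      (∀ P ω, lead ω (f P) = f (lead (ω ᵥ* M) P)) ∧
      (∀ P d, IsHom d P → IsHom d (f P)) ∧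
      (∀ K P C, TrC K C P → TrC ((fun x => M *ᵥ x) '' K) (subst M C) (f (|M.det| • P))) ∧
      (∀ K P Q, FP K P Q → FP ((fun x => M *ᵥ x) '' K) (f P) (f Q)) :=
  ⟨tm M, tm_coeff hM, tm_support hM, ev_tm, lead_tm hM, fun _ _ h => isHom_tm hM h,
    fun _ _ _ h => trC_tm hM h, fun _ _ _ h => fp_tm hM h⟩

end Pool.Agent.Covg
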