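import Pool.Agent.Work.MP_177351_gt.Recur

set_option autoImplicit false

open MeasureTheory MvPolynomial Set Filter Topology
open scoped Pointwise Matrix

namespace Pool.Agent.Covg

/-! ## Module `Rep` -/

theorem HasRep.of_fintype {n : ℕ} {f : Vec n → ℝ} {S : Set (Vec n)} {ι : Type} [Fintype ι]
    (c : ι → ℝ) (v : ι → Vec n) (u : ι → Fin n → Vec n) (hv : ∀ j, v j ∈ S)
    (hu : ∀ j, LinearIndependent ℝ (u j))
    (h : ∀ z, (∀ j i, u j i ⬝ᵥ z ≠ 0) →
      f z = ∑ j, c j * Real.exp (v j ⬝ᵥ z) / ∏ i, (u j i ⬝ᵥ z)) : HasRep f S := by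
  classical
  let e := (Fintype.equivFin ι).symm
  refine ⟨Fintype.card ι, fun j => c (e j), fun j => v (e j), fun j => u (e j),
    fun j => hv _, fun j => hu _, fun z hz => ?_⟩
  rw [h z fun j i => by simpa using hz (e.symm j) i]
  exact (Equiv.sum_comp e _).symm

theorem lap_zero_dim {K : Set (Vec 0)} : HasRep (lap K) (K.extremePoints ℝ) := by
  classical
  by_cases hK : (0 : Vec 0) ∈ K
  · have hKu : K = univ := by
      ext x; simp only [mem_univ, iff_true]
      have : x = 0 := Subsingleton.elim _ _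
      rw [this]; exact hK
    refine HasRep.of_fintype (ι := Unit) (fun _ => 1) (fun _ => 0) (fun _ i => i.elim0)
      (fun _ => ?_) (fun _ => linearIndependent_empty_type) (fun z _ => ?_)
    · rw [mem_extremePoints]
      exact ⟨hK, fun x₁ _ x₂ _ _ => ⟨Subsingleton.elim _ _, Subsingleton.elim _ _⟩⟩
    · rw [hKu]
      unfold lap
      have hv : (volume : Measure (Fin 0 → ℝ)).real univ = 1 := by
        rw [volume_pi, Measure.pi_of_empty (x := (0 : Vec 0))]
        simp
      simp [dotProduct, hv]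
  · have hKe : K = ∅ := by
      ext x; simp only [mem_empty_iff_false, iff_false]
      have : x = 0 := Subsingleton.elim _ _
      rw [this]; exact hK
    refine HasRep.of_fintype (ι := Empty) (fun _ => 1) (fun _ => 0) (fun _ i => i.elim0)
      (fun j => j.elim) (fun j => j.elim) (fun z _ => ?_)
    rw [hKe]
    unfold lap
    simp

/-- lifted vectors -/
noncomputable def liftU {n : ℕ} (a : Vec n) (u : Fin n → Vec n) : Fin (n + 1) → Vec (n + 1) :=
  Fin.cons (Fin.cons 1 0 : Vec (n + 1)) fun i => (Fin.cons (u i ⬝ᵥ a) (u i) : Vec (n + 1))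

theorem liftU_indep {n : ℕ} (a : Vec n) {u : Fin n → Vec n} (hu : LinearIndependent ℝ u) :
    LinearIndependent ℝ (liftU a u) := by
  rw [Fintype.linearIndependent_iff] at hu ⊢
  intro g hg
  have h1 : ∀ i : Fin n, g i.succ = 0 := by
    apply hu
    ext k
    have := congrFun hg k.succ
    simp only [Fin.sum_univ_succ, liftU, Fin.cons_zero, Fin.cons_succ,
      Pi.smul_apply, Finset.sum_apply, Pi.zero_apply, smul_eq_mul, mul_zero, zero_add] at this ⊢
    exact this
  have h0 : g 0 = 0 := by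
    have := congrFun hg 0
    simpa [Fin.sum_univ_succ, liftU, h1] using this
  intro i
  refine Fin.cases h0 h1 i

theorem liftU_dot {n : ℕ} (a : Vec n) (u : Fin n → Vec n) (t : ℝ) (z : Vec n) :
    ∏ i, (liftU a u i ⬝ᵥ (Fin.cons t z : Vec (n + 1))) = t * ∏ i, (u i ⬝ᵥ (z + t • a)) := by
  rw [Fin.prod_univ_succ]
  congr 1
  · simp [liftU, cons_dot_cons]
  · refine Finset.prod_congr rfl fun i _ => ?_
    simp only [liftU, Fin.cons_succ]
    rw [cons_dot_cons, dotProduct_add, dotProduct_smul, smul_eq_mul]; ring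

theorem ext_lift_aux {n : ℕ} {K : Set (Vec (n + 1))} {p : Vec n × ℝ}
    (hK : ∀ w₁ ∈ K, ∀ w₂ ∈ K, ∀ x, (Fin.cons (av p x) x : Vec (n + 1)) ∈ openSegment ℝ w₁ w₂ →
      w₁ = Fin.cons (av p (Fin.tail w₁)) (Fin.tail w₁) ∧
        w₂ = Fin.cons (av p (Fin.tail w₂)) (Fin.tail w₂))
    {x : Vec n} (hx : x ∈ (piece K p).extremePoints ℝ) :
    (Fin.cons (av p x) x : Vec (n + 1)) ∈ K.extremePoints ℝ := by
  rw [mem_extremePoints] at hx ⊢
  refine ⟨hx.1, fun w₁ h₁ w₂ h₂ hw => ?_⟩
  obtain ⟨e₁, e₂⟩ := hK w₁ h₁ w₂ h₂ x hw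
  have h₁' : Fin.tail w₁ ∈ piece K p := by
    show (Fin.cons (av p (Fin.tail w₁)) (Fin.tail w₁) : Vec (n + 1)) ∈ K
    rw [← e₁]; exact h₁
  have h₂' : Fin.tail w₂ ∈ piece K p := by
    show (Fin.cons (av p (Fin.tail w₂)) (Fin.tail w₂) : Vec (n + 1)) ∈ K
    rw [← e₂]; exact h₂
  have hxs : x ∈ openSegment ℝ (Fin.tail w₁) (Fin.tail w₂) := by
    obtain ⟨a, b, ha, hb, hab, hw⟩ := hw
    refine ⟨a, b, ha, hb, hab, ?_⟩
    have := congrArg Fin.tail hw
    rw [Fin.tail_cons] at this
    rw [← this]; rfl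
  obtain ⟨f₁, f₂⟩ := hx.2 _ h₁' _ h₂' hxs
  rw [e₁, e₂, f₁, f₂]
  exact ⟨rfl, rfl⟩

theorem av_comb {n : ℕ} (p : Vec n × ℝ) (x y : Vec n) {a b : ℝ} (hab : a + b = 1) :
    av p (a • x + b • y) = a * av p x + b * av p y := by
  unfold av
  rw [add_dotProduct, smul_dotProduct, smul_dotProduct, smul_eq_mul, smul_eq_mul]
  linear_combination (-p.2) * hab

theorem ext_lift {n : ℕ} {U L Z : Finset (Vec n × ℝ)} {p : Vec n × ℝ} (hp : p ∈ U ∨ p ∈ L)
    {x : Vec n} (hx : x ∈ (piece (ULZ U L Z) p).extremePoints ℝ) :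
    (Fin.cons (av p x) x : Vec (n + 1)) ∈ (ULZ U L Z).extremePoints ℝ := by
  refine ext_lift_aux ?_ hx
  rintro w₁ h₁ w₂ h₂ x ⟨a, b, ha, hb, hab, hw⟩
  have ht : x = a • Fin.tail w₁ + b • Fin.tail w₂ := by
    have := congrArg Fin.tail hw
    rw [Fin.tail_cons] at this
    rw [← this]; rfl
  have h0 : av p x = a * w₁ 0 + b * w₂ 0 := by
    have := congrFun hw 0
    simp only [Pi.add_apply, Pi.smul_apply, smul_eq_mul, Fin.cons_zero] at this
    exact this.symm
  rw [ht, av_comb p _ _ hab] at h0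
  have hfin : w₁ 0 = av p (Fin.tail w₁) ∧ w₂ 0 = av p (Fin.tail w₂) := by
    rcases hp with hp | hp
    · have g₁ : w₁ 0 ≤ av p (Fin.tail w₁) := h₁.1 p hp
      have g₂ : w₂ 0 ≤ av p (Fin.tail w₂) := h₂.1 p hp
      constructor
      · by_contra hne
        have := lt_of_le_of_ne g₁ hne
        nlinarith
      · by_contra hne
        have := lt_of_le_of_ne g₂ hne
        nlinarith
    · have g₁ : av p (Fin.tail w₁) ≤ w₁ 0 := h₁.2.1 p hp
      have g₂ : av p (Fin.tail w₂) ≤ w₂ 0 := h₂.2.1 p hp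
      constructor
      · by_contra hne
        have := lt_of_le_of_ne g₁ (Ne.symm hne)
        nlinarith
      · by_contra hne
        have := lt_of_le_of_ne g₂ (Ne.symm hne)
        nlinarith
  exact ⟨by rw [← hfin.1, Fin.cons_self_tail], by rw [← hfin.2, Fin.cons_self_tail]⟩

theorem null_of_lap {n : ℕ} {K : Set (Vec n)} (hK : Bornology.IsBounded K) {w : Vec n}
    (h : lap K w = 0) : volume K = 0 := by
  have hnn : 0 ≤ᵐ[volume.restrict K] fun x : Vec n => Real.exp (x ⬝ᵥ w) :=
    Eventually.of_forall fun x => (Real.exp_pos _).le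
  have h0 := (setIntegral_eq_zero_iff_of_nonneg_ae hnn (integrableOn_exp hK w)).mp h
  have h1 : ∀ᵐ _ : Vec n ∂(volume.restrict K), False := by
    filter_upwards [h0] with x hx
    exact (Real.exp_pos _).ne' hx
  rwa [Filter.eventually_false_iff_eq_bot, ae_eq_bot, Measure.restrict_eq_zero] at h1

theorem lap_of_null {n : ℕ} {K : Set (Vec n)} (h : volume K = 0) (w : Vec n) : lap K w = 0 := by
  unfold lap
  rw [Measure.restrict_eq_zero.mpr h, integral_zero_measure]

theorem hasRep {n : ℕ} {K : Set (Vec n)} (h : HPoly K) :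
    HasRep (lap K) (K.extremePoints ℝ) := by
  classical
  induction n with
  | zero => exact lap_zero_dim
  | succ n ih =>
    obtain ⟨R, hR⟩ := h.1.exists_norm_le
    have ha : ∀ w ∈ K, w 0 ≤ R := fun w hw =>
      (le_abs_self _).trans ((norm_le_pi_norm w 0).trans (hR w hw))
    have hb : ∀ w ∈ K, -R ≤ w 0 := fun w hw => by
      have := (neg_abs_le (w 0))
      have h2 : |w 0| ≤ R := (norm_le_pi_norm w 0).trans (hR w hw)
      linarith
    obtain ⟨U, L, Z, hU, hL, hK⟩ := hpoly_ulz h ha hb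
    have hbd : Bornology.IsBounded (ULZ U L Z) := hK ▸ h.1
    have hrep : ∀ p : Vec n × ℝ, HasRep (lap (piece (ULZ U L Z) p))
        ((piece (ULZ U L Z) p).extremePoints ℝ) := fun p => ih (hpoly_piece (hK ▸ h) p)
    choose N c v u hv hu hf using hrep
    rw [hK]
    refine HasRep.of_fintype
      (ι := (Σ p : {p // p ∈ U}, Fin (N p)) ⊕ (Σ p : {p // p ∈ L}, Fin (N p)))
      (Sum.elim (fun j => c j.1 j.2) (fun j => - c j.1 j.2))
      (Sum.elim (fun j => (Fin.cons (av j.1 (v j.1 j.2)) (v j.1 j.2) : Vec (n + 1)))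
        (fun j => (Fin.cons (av j.1 (v j.1 j.2)) (v j.1 j.2) : Vec (n + 1))))
      (Sum.elim (fun j => liftU j.1.1.1 (u j.1 j.2)) (fun j => liftU j.1.1.1 (u j.1 j.2)))
      ?_ ?_ ?_
    · rintro (j | j)
      · exact ext_lift (Or.inl j.1.2) (hv j.1 j.2)
      · exact ext_lift (Or.inr j.1.2) (hv j.1 j.2)
    · rintro (j | j)
      · exact liftU_indep _ (hu j.1 j.2)
      · exact liftU_indep _ (hu j.1 j.2)
    · intro w hw
      obtain ⟨t, z, rfl⟩ : ∃ (t : ℝ) (z : Vec n), w = Fin.cons t z :=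
        ⟨w 0, Fin.tail w, (Fin.cons_self_tail w).symm⟩
      have hterm : ∀ p : Vec n × ℝ, (∀ j i, u p j i ⬝ᵥ (z + t • p.1) ≠ 0) →
          Real.exp (t * p.2) * lap (piece (ULZ U L Z) p) (z + t • p.1) =
          ∑ j : Fin (N p), c p j * Real.exp ((Fin.cons (av p (v p j)) (v p j) : Vec (n + 1)) ⬝ᵥ
            (Fin.cons t z : Vec (n + 1))) / ∏ i, (u p j i ⬝ᵥ (z + t • p.1)) := by
        intro p hp
        rw [hf p _ hp, Finset.mul_sum]
        refine Finset.sum_congr rfl fun j _ => ?_
        rw [cons_dot_cons, mul_div_assoc', ← mul_assoc, mul_comm (Real.exp (t * p.2)), mul_assoc,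
          ← Real.exp_add]
        congr 3
        unfold av
        rw [dotProduct_add, dotProduct_smul, smul_eq_mul]; ring
      have hnz : ∀ (p : Vec n × ℝ) (hp : p ∈ U ∨ p ∈ L) (j : Fin (N p)) (i : Fin n),
          u p j i ⬝ᵥ (z + t • p.1) ≠ 0 := by
        intro p hp j i
        have key : liftU p.1 (u p j) i.succ ⬝ᵥ (Fin.cons t z : Vec (n + 1)) =
            u p j i ⬝ᵥ (z + t • p.1) := by
          simp only [liftU, Fin.cons_succ]
          rw [cons_dot_cons, dotProduct_add, dotProduct_smul, smul_eq_mul]; ring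
        rw [← key]
        rcases hp with hp | hp
        · exact hw (Sum.inl ⟨⟨p, hp⟩, j⟩) i.succ
        · exact hw (Sum.inr ⟨⟨p, hp⟩, j⟩) i.succ
      have hsum : ∀ (T : Finset (Vec n × ℝ)) (hT : ∀ p ∈ T, p ∈ U ∨ p ∈ L),
          ∑ p ∈ T, Real.exp (t * p.2) * lap (piece (ULZ U L Z) p) (z + t • p.1) =
          ∑ j : (Σ p : {p // p ∈ T}, Fin (N p)), c j.1 j.2 *
            Real.exp ((Fin.cons (av j.1 (v j.1 j.2)) (v j.1 j.2) : Vec (n + 1)) ⬝ᵥ
            (Fin.cons t z : Vec (n + 1))) / ∏ i, (u j.1 j.2 i ⬝ᵥ (z + t • j.1.1.1)) := by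
        intro T hT
        rw [Fintype.sum_sigma, ← Finset.sum_coe_sort T]
        refine Finset.sum_congr rfl fun p _ => ?_
        exact hterm p (hnz p (hT p p.2))
      have hls := lap_succ ⟨_, hU⟩ ⟨_, hL⟩ hbd t z
      rw [hsum U fun p hp => Or.inl hp, hsum L fun p hp => Or.inr hp] at hls
      rw [Fintype.sum_sum_type]
      simp only [Sum.elim_inl, Sum.elim_inr, liftU_dot]
      by_cases ht : t = 0
      · have hE : IsEmpty ((Σ p : {p // p ∈ U}, Fin (N p)) ⊕
            (Σ p : {p // p ∈ L}, Fin (N p))) := by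
          refine ⟨fun j => hw j 0 ?_⟩
          rcases j with j | j
          · simp only [Sum.elim_inl, liftU, Fin.cons_zero]
            rw [cons_dot_cons, ht]; simp
          · simp only [Sum.elim_inr, liftU, Fin.cons_zero]
            rw [cons_dot_cons, ht]; simp
        have hN : ∀ p : Vec n × ℝ, p ∈ U ∨ p ∈ L → N p = 0 := by
          intro p hp
          by_contra hne
          have j0 : Fin (N p) := ⟨0, Nat.pos_of_ne_zero hne⟩
          rcases hp with hp | hp
          · exact hE.false (Sum.inl ⟨⟨p, hp⟩, j0⟩)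
          · exact hE.false (Sum.inr ⟨⟨p, hp⟩, j0⟩)
        have hz : ∀ p : Vec n × ℝ, p ∈ U ∨ p ∈ L → ∀ y, lap (piece (ULZ U L Z) p) y = 0 := by
          intro p hp y
          have h0 : IsEmpty (Fin (N p)) := by rw [hN p hp]; infer_instance
          rw [hf p y fun j => h0.elim j]
          exact Finset.sum_of_isEmpty _
        have h1 := lap_succ ⟨_, hU⟩ ⟨_, hL⟩ hbd 1 0
        rw [one_mul, Finset.sum_eq_zero fun p hp => by rw [hz p (Or.inl hp), mul_zero],
          Finset.sum_eq_zero fun p hp => by rw [hz p (Or.inr hp), mul_zero], sub_zero] at h1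
        rw [lap_of_null (null_of_lap hbd h1)]
        have hE1 : IsEmpty (Σ p : {p // p ∈ U}, Fin (N p)) := ⟨fun j => hE.false (Sum.inl j)⟩
        have hE2 : IsEmpty (Σ p : {p // p ∈ L}, Fin (N p)) := ⟨fun j => hE.false (Sum.inr j)⟩
        rw [Finset.sum_of_isEmpty, Finset.sum_of_isEmpty, add_zero]
      · have h1 : lap (ULZ U L Z) (Fin.cons t z : Vec (n + 1)) = t⁻¹ * (t *
            lap (ULZ U L Z) (Fin.cons t z : Vec (n + 1))) := by
          rw [← mul_assoc, inv_mul_cancel₀ ht, one_mul]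
        rw [h1, hls, mul_sub, Finset.mul_sum, Finset.mul_sum, sub_eq_add_neg,
          ← Finset.sum_neg_distrib]
        congr 1
        · refine Finset.sum_congr rfl fun j _ => ?_
          rw [div_eq_mul_inv, div_eq_mul_inv, mul_inv]; ring
        · refine Finset.sum_congr rfl fun j _ => ?_
          rw [div_eq_mul_inv, div_eq_mul_inv, mul_inv]; ring

/-! ### existence of the formal transform -/

theorem ev_single' {n : ℕ} (z a : Vec n) (M : Pol n) :
    ev z (AddMonoidAlgebra.single a M : EA n) = MvPolynomial.eval z M * Real.exp (a ⬝ᵥ z) := by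
  unfold ev
  exact AddMonoidAlgebra.liftNC_single _ _ _ _

theorem eval_lin' {n : ℕ} (a z : Vec n) : MvPolynomial.eval z (lin a) = a ⬝ᵥ z := by
  unfold lin dotProduct
  simp

theorem lin_hom {n : ℕ} (a : Vec n) : (lin a).IsHomogeneous 1 := by
  unfold lin
  refine MvPolynomial.IsHomogeneous.sum _ _ _ fun i _ => ?_
  simpa using (MvPolynomial.isHomogeneous_C (Fin n) (a i)).mul (MvPolynomial.isHomogeneous_X ℝ i)

theorem lin_ne {n : ℕ} {a : Vec n} (h : a ≠ 0) : lin a ≠ 0 := by
  intro h0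
  have h1 := eval_lin' a a
  rw [h0, map_zero] at h1
  exact h (dotProduct_self_eq_zero.mp h1.symm)

theorem continuous_lap' {n : ℕ} {K : Set (Vec n)} (hc : IsCompact K) :
    Continuous (lap K) := by
  unfold lap
  refine continuous_parametric_integral_of_continuous (f := fun (z x : Vec n) =>
    Real.exp (x ⬝ᵥ z)) ?_ hc
  exact Real.continuous_exp.comp (continuous_snd.dotProduct continuous_fst)

theorem dense_ne {n : ℕ} {ι : Type} [Fintype ι] (u : ι → Vec n) (hu : ∀ i, u i ≠ 0) :
    Dense {z : Vec n | ∀ i, u i ⬝ᵥ z ≠ 0} := by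
  apply Measure.dense_of_ae (μ := (volume : Measure (Vec n)))
  rw [ae_all_iff]
  intro i
  have h := tie_null (p := ((u i, 0) : Vec n × ℝ)) (q := (0, 0))
    (fun h => hu i (congrArg Prod.fst h))
  filter_upwards [measure_eq_zero_iff_ae_notMem.mp h] with z hz hz'
  apply hz
  simp only [av, dotProduct_zero, add_zero]
  rw [dotProduct_comm]; exact hz'

/-- Existence of the formal transform; `C` is a product of nonzero linear forms. -/
theorem exists_tr_of {n : ℕ} {K : Set (Vec n)} (hKc : IsCompact K) (hK : HPoly K) :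
    ∃ (N : ℕ) (u : Fin N → Vec n) (R : EA n), (∀ i, u i ≠ 0) ∧
      TrC K (∏ i, lin (u i)) R ∧
      (R.coeff.support : Set (Vec n)) ⊆ K.extremePoints ℝ := by
  classical
  obtain ⟨M, c, v, w, hv, hw, hf⟩ := hasRep hK
  -- index set
  let ι := (Fin M × Fin n) ⊕ Fin n
  let U : ι → Vec n := Sum.elim (fun j => w j.1 j.2) (fun i => Pi.single i 1)
  have hU : ∀ i, U i ≠ 0 := by
    rintro (j | i)
    · exact (hw j.1).ne_zero j.2
    · intro h
      have := congrFun h i
      simp [U] at this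
  let e := Fintype.equivFin ι
  -- the coefficient of the `j`-th term
  let G : Fin M → Pol n := fun j =>
    MvPolynomial.C (c j) * ((∏ j' ∈ Finset.univ.erase j, ∏ i, lin (w j' i)) *
      ∏ i : Fin n, lin (Pi.single i 1))
  have hprod : ∏ i, lin (U (e.symm i)) = (∏ j, ∏ i, lin (w j i)) *
      ∏ i : Fin n, lin (Pi.single i 1) := by
    rw [Equiv.prod_comp e.symm fun i => lin (U i), Fintype.prod_sum_type, Fintype.prod_prod_type]
    rfl
  refine ⟨Fintype.card ι, fun i => U (e.symm i), ∑ j, AddMonoidAlgebra.single (v j) (G j),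
    fun i => hU _, ⟨?_, ⟨M * n, ?_, ?_⟩, ?_⟩, ?_⟩
  · exact Finset.prod_ne_zero_iff.mpr fun i _ => lin_ne (hU _)
  · have h1 := MvPolynomial.IsHomogeneous.prod (Finset.univ : Finset (Fin (Fintype.card ι)))
      (fun i => lin (U (e.symm i))) (fun _ => 1) fun i _ => lin_hom _
    convert h1 using 1
    simp [ι]
  · intro a
    rw [AddMonoidAlgebra.coeff_sum, Finsupp.finsetSum_apply]
    refine MvPolynomial.IsHomogeneous.sum _ _ _ fun j _ => ?_
    rw [AddMonoidAlgebra.coeff_single]
    have hG : (G j).IsHomogeneous (M * n) := by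
      have h1 : (∏ j' ∈ Finset.univ.erase j, ∏ i, lin (w j' i)).IsHomogeneous
          (∑ _j' ∈ Finset.univ.erase j, ∑ _i : Fin n, 1) :=
        MvPolynomial.IsHomogeneous.prod _ _ _ fun j' _ =>
          MvPolynomial.IsHomogeneous.prod _ _ _ fun i _ => lin_hom _
      have h2 : (∏ i : Fin n, lin (Pi.single i 1 : Vec n)).IsHomogeneous (∑ _i : Fin n, 1) :=
        MvPolynomial.IsHomogeneous.prod _ _ _ fun i _ => lin_hom _
      have h3 := (MvPolynomial.isHomogeneous_C (Fin n) (c j)).mul (h1.mul h2)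
      convert h3 using 1
      simp only [Finset.sum_const, Finset.card_erase_of_mem (Finset.mem_univ j),
        Finset.card_univ, Fintype.card_fin, smul_eq_mul, mul_one, zero_add]
      have : 0 < M := j.pos
      obtain ⟨M', rfl⟩ : ∃ M', M = M' + 1 := ⟨M - 1, by omega⟩
      simp only [Nat.add_sub_cancel]
      ring
    by_cases h : v j = a
    · rw [h, Finsupp.single_eq_same]; exact hG
    · rw [Finsupp.single_eq_of_ne (Ne.symm h)]; exact MvPolynomial.isHomogeneous_zero _ _ _
  · -- the equation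
    have hcont1 : Continuous fun z : Vec n =>
        ev z (∑ j, AddMonoidAlgebra.single (v j) (G j) : EA n) := by
      simp only [map_sum, ev_single']
      refine continuous_finsetSum _ fun j _ => ?_
      exact (MvPolynomial.continuous_eval _).mul
        (Real.continuous_exp.comp (continuous_const.dotProduct continuous_id))
    have hcont2 : Continuous fun z : Vec n =>
        MvPolynomial.eval z (∏ i, lin (U (e.symm i))) * lap K z :=
      (MvPolynomial.continuous_eval _).mul (continuous_lap' hKc)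
    have hd : Dense {z : Vec n | ∀ j : Fin M × Fin n, w j.1 j.2 ⬝ᵥ z ≠ 0} :=
      dense_ne (fun j : Fin M × Fin n => w j.1 j.2) fun j => (hw j.1).ne_zero j.2
    have heq := Continuous.ext_on hd hcont1 hcont2 ?_
    · exact fun z => congrFun heq z
    intro z hz
    have hz' : ∀ j i, w j i ⬝ᵥ z ≠ 0 := fun j i => hz (j, i)
    simp only [map_sum, ev_single']
    rw [hf z hz', hprod, Finset.mul_sum]
    refine Finset.sum_congr rfl fun j _ => ?_
    simp only [G, map_mul, map_prod, MvPolynomial.eval_C, eval_lin']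
    have hne : ∏ i, (w j i ⬝ᵥ z) ≠ 0 := Finset.prod_ne_zero_iff.mpr fun i _ => hz' j i
    rw [← Finset.mul_prod_erase Finset.univ (fun j => ∏ i, (w j i ⬝ᵥ z)) (Finset.mem_univ j)]
    field_simp
  · intro a ha
    rw [Finset.mem_coe, Finsupp.mem_support_iff, AddMonoidAlgebra.coeff_sum,
      Finsupp.finsetSum_apply] at ha
    obtain ⟨j, -, hj⟩ := Finset.exists_ne_zero_of_sum_ne_zero ha
    rw [AddMonoidAlgebra.coeff_single, Finsupp.single_apply] at hj
    by_cases h : v j = a
    · rw [← h]; exact hv j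
    · rw [if_neg h] at hj; exact absurd rfl hj

theorem ev_C_mul {n : ℕ} (z : Vec n) (C : Pol n) (R : EA n) :
    ev z (AddMonoidAlgebra.single 0 C * R) = MvPolynomial.eval z C * ev z R := by
  rw [map_mul, ev_single']; simp

theorem supp_C_mul {n : ℕ} {C : Pol n} (hC : C ≠ 0) (R : EA n) :
    (AddMonoidAlgebra.single 0 C * R).coeff.support = R.coeff.support := by
  ext a
  rw [Finsupp.mem_support_iff, Finsupp.mem_support_iff, AddMonoidAlgebra.coeff_single_zero_mul]
  simp [hC]

/-- uniqueness of the support, from two representations of the same transform -/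
theorem supp_unique {n : ℕ} {K : Set (Vec n)} {C C₀ : Pol n} {R R₀ : EA n}
    (hinj : ∀ P : EA n, (∀ z, ev z P = 0) → P = 0) (h : TrC K C R) (h₀ : TrC K C₀ R₀) :
    R.coeff.support = R₀.coeff.support := by
  have h1 : (AddMonoidAlgebra.single 0 C₀ * R : EA n) = AddMonoidAlgebra.single 0 C * R₀ := by
    rw [← sub_eq_zero]
    apply hinj
    intro z
    rw [map_sub, ev_C_mul, ev_C_mul, h.eq, h₀.eq]; ring
  rw [← supp_C_mul h₀.ne R, h1, supp_C_mul h.ne]

theorem support_tr_of {n : ℕ} {K : Set (Vec n)} {C : Pol n} {R : EA n}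
    (hinj : ∀ P : EA n, (∀ z, ev z P = 0) → P = 0)
    (hv : ∀ S : Finset (Vec n), HPoly (convexHull ℝ (S : Set (Vec n))))
    (hN : Nw R = K) (h : TrC K C R) :
    (R.coeff.support : Set (Vec n)) = K.extremePoints ℝ := by
  have hK : HPoly K := by rw [← hN]; exact hv _
  have hKc : IsCompact K := by
    rw [← hN]; exact Set.Finite.isCompact_convexHull ℝ (Finset.finite_toSet _)
  obtain ⟨N, u, R₀, -, h₀, hs⟩ := exists_tr_of hKc hK
  apply Subset.antisymm
  · rw [supp_unique hinj h h₀]; exact hs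
  · have : K.extremePoints ℝ ⊆ (R.coeff.support : Set (Vec n)) := by
      conv_lhs => rw [← hN]
      exact extremePoints_convexHull_subset
    exact this

end Pool.Agent.Covg
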