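import Pool.Agent.Work.MP_177351_gt.Defs

set_option autoImplicit false

open MeasureTheory MvPolynomial Set Filter Topology
open scoped Pointwise Matrix

namespace Pool.Agent.Covg

namespace VtoH

/-- finite families of lower and upper bounds -/
theorem exists_between_fin {ι κ : Type} (L : Finset ι) (U : Finset κ) (l : ι → ℝ) (u : κ → ℝ)
    (h : ∀ i ∈ L, ∀ j ∈ U, l i ≤ u j) : ∃ s : ℝ, (∀ i ∈ L, l i ≤ s) ∧ ∀ j ∈ U, s ≤ u j := by
  rcases L.eq_empty_or_nonempty with hL | hL
  · rcases U.eq_empty_or_nonempty with hU | hU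
    · exact ⟨0, by simp [hL], by simp [hU]⟩
    · refine ⟨U.inf' hU u, by simp [hL], fun j hj => Finset.inf'_le _ hj⟩
  · refine ⟨L.sup' hL l, fun i hi => Finset.le_sup' _ hi, fun j hj => ?_⟩
    exact Finset.sup'_le _ _ fun i hi => h i hi j hj

/-- Fourier-Motzkin elimination of one variable. -/
theorem fourier_motzkin {n : ℕ} (F : Finset (Vec n × ℝ × ℝ)) :
    ∃ F' : Finset (Vec n × ℝ), {x : Vec n | ∃ s : ℝ, ∀ p ∈ F, x ⬝ᵥ p.1 + s * p.2.1 ≤ p.2.2} =
      {x | ∀ q ∈ F', x ⬝ᵥ q.1 ≤ q.2} := by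
  classical
  let Z := F.filter fun p => p.2.1 = 0
  let U := F.filter fun p => 0 < p.2.1
  let L := F.filter fun p => p.2.1 < 0
  let F' : Finset (Vec n × ℝ) := (Z.image fun p => (p.1, p.2.2)) ∪
    ((L ×ˢ U).image fun pq => (pq.2.2.1⁻¹ • pq.2.1 - pq.1.2.1⁻¹ • pq.1.1,
      pq.2.2.1⁻¹ * pq.2.2.2 - pq.1.2.1⁻¹ * pq.1.2.2))
  refine ⟨F', ?_⟩
  ext x
  simp only [Set.mem_ofPred_eq]
  constructor
  · rintro ⟨s, hs⟩ q hq
    rw [Finset.mem_union] at hq
    rcases hq with hq | hq
    · obtain ⟨p, hp, rfl⟩ := Finset.mem_image.1 hq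
      obtain ⟨hp1, hp2⟩ := Finset.mem_filter.1 hp
      have := hs p hp1
      rw [hp2, mul_zero, add_zero] at this
      exact this
    · obtain ⟨⟨p, r⟩, hpr, rfl⟩ := Finset.mem_image.1 hq
      obtain ⟨hp, hr⟩ := Finset.mem_product.1 hpr
      obtain ⟨hp1, hp2⟩ := Finset.mem_filter.1 hp
      obtain ⟨hr1, hr2⟩ := Finset.mem_filter.1 hr
      have h1 := hs p hp1
      have h2 := hs r hr1
      simp only at hp2 hr2 ⊢
      rw [dotProduct_sub, dotProduct_smul, dotProduct_smul, smul_eq_mul, smul_eq_mul]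
      have h3 : s ≤ r.2.1⁻¹ * (r.2.2 - x ⬝ᵥ r.1) := by
        rw [le_inv_mul_iff₀ hr2]; linarith
      have h4 : p.2.1⁻¹ * (p.2.2 - x ⬝ᵥ p.1) ≤ s := by
        have h5 : 0 < -p.2.1 := by linarith
        have h6 : (-p.2.1)⁻¹ * (x ⬝ᵥ p.1 - p.2.2) ≤ s := by
          rw [inv_mul_le_iff₀ h5]; linarith
        have h7 : (-p.2.1)⁻¹ * (x ⬝ᵥ p.1 - p.2.2) = p.2.1⁻¹ * (p.2.2 - x ⬝ᵥ p.1) := by
          rw [inv_neg]; ring
        linarith
      linarith
  · intro h
    obtain ⟨s, hs1, hs2⟩ := exists_between_fin L U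
      (fun p => p.2.1⁻¹ * (p.2.2 - x ⬝ᵥ p.1)) (fun r => r.2.1⁻¹ * (r.2.2 - x ⬝ᵥ r.1)) (by
        intro p hp r hr
        have h1 := h (r.2.1⁻¹ • r.1 - p.2.1⁻¹ • p.1, r.2.1⁻¹ * r.2.2 - p.2.1⁻¹ * p.2.2) (by
          apply Finset.mem_union_right
          exact Finset.mem_image.2 ⟨(p, r), Finset.mem_product.2 ⟨hp, hr⟩, rfl⟩)
        rw [dotProduct_sub, dotProduct_smul, dotProduct_smul, smul_eq_mul, smul_eq_mul] at h1
        linarith)
    refine ⟨s, fun p hp => ?_⟩
    rcases lt_trichotomy p.2.1 0 with h0 | h0 | h0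
    · have h1 := hs1 p (Finset.mem_filter.2 ⟨hp, h0⟩)
      have h5 : 0 < -p.2.1 := by linarith
      have h7 : (-p.2.1)⁻¹ * (x ⬝ᵥ p.1 - p.2.2) = p.2.1⁻¹ * (p.2.2 - x ⬝ᵥ p.1) := by
        rw [inv_neg]; ring
      rw [← h7, inv_mul_le_iff₀ h5] at h1
      linarith
    · have h1 := h (p.1, p.2.2) (Finset.mem_union_left _
        (Finset.mem_image.2 ⟨p, Finset.mem_filter.2 ⟨hp, h0⟩, rfl⟩))
      rw [h0, mul_zero, add_zero]
      exact h1
    · have h1 := hs2 p (Finset.mem_filter.2 ⟨hp, h0⟩)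
      rw [le_inv_mul_iff₀ h0] at h1
      linarith

/-- a direction in which a nonempty bounded set contains a ray vanishes -/
theorem ray_bounded {n : ℕ} {K : Set (Vec n)} (hb : Bornology.IsBounded K) {k d : Vec n}
    (h : ∀ t : ℝ, 0 ≤ t → k + t • d ∈ K) : d = 0 := by
  obtain ⟨R, hR⟩ := hb.subset_closedBall 0
  by_contra hd
  have hd' : 0 < ‖d‖ := norm_pos_iff.2 hd
  have h1 := hR (h ((|R| + ‖k‖ + 1) / ‖d‖) (by positivity))
  rw [mem_closedBall_zero_iff] at h1
  have h2 : ‖((|R| + ‖k‖ + 1) / ‖d‖) • d‖ = |R| + ‖k‖ + 1 := by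
    rw [norm_smul, Real.norm_of_nonneg (by positivity)]
    field_simp
  have h3 : ‖((|R| + ‖k‖ + 1) / ‖d‖) • d‖ ≤ ‖k + ((|R| + ‖k‖ + 1) / ‖d‖) • d‖ + ‖k‖ := by
    have := norm_sub_le (k + ((|R| + ‖k‖ + 1) / ‖d‖) • d) k
    simpa using this
  have := le_abs_self R
  linarith

end VtoH

open VtoH

theorem hpoly_convexHull {n : ℕ} (S : Finset (Vec n)) :
    HPoly (convexHull ℝ (S : Set (Vec n))) := by
  classical
  refine ⟨(S.finite_toSet.isCompact_convexHull (𝕜 := ℝ)).isBounded, ?_⟩
  induction S using Finset.induction_on with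
  | empty =>
    refine ⟨{(0, -1)}, ?_⟩
    ext x
    simp
    try norm_num
  | insert p S hp ih =>
    obtain ⟨F, hF⟩ := ih
    rcases S.eq_empty_or_nonempty with hS | hS
    · subst hS
      refine ⟨(Finset.univ.image fun i => (Pi.single i 1, p i)) ∪
        (Finset.univ.image fun i => (-Pi.single i 1, -p i)), ?_⟩
      rw [Finset.coe_insert, Finset.coe_empty, insert_empty_eq, convexHull_singleton]
      ext x
      simp only [Set.mem_singleton_iff, Set.mem_ofPred_eq, Finset.mem_union, Finset.mem_image,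
        Finset.mem_univ, true_and]
      constructor
      · rintro rfl q (⟨i, rfl⟩ | ⟨i, rfl⟩)
        · simp
        · simp
      · intro h
        funext i
        have h1 := h (Pi.single i 1, p i) (Or.inl ⟨i, rfl⟩)
        have h2 := h (-Pi.single i 1, -p i) (Or.inr ⟨i, rfl⟩)
        simp at h1 h2
        linarith
    · let G : Finset (Vec n × ℝ × ℝ) := (F.image fun q => (q.1, q.2 - p ⬝ᵥ q.1, q.2)) ∪
        {(0, 1, 1), (0, -1, 0)}
      obtain ⟨F', hF'⟩ := fourier_motzkin G
      refine ⟨F', ?_⟩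
      rw [← hF']
      have hb : Bornology.IsBounded (convexHull ℝ (S : Set (Vec n))) :=
        (S.finite_toSet.isCompact_convexHull (𝕜 := ℝ)).isBounded
      have hSn : (S : Set (Vec n)).Nonempty := by exact_mod_cast hS
      obtain ⟨k0, hk0⟩ := hSn.convexHull (𝕜 := ℝ)
      have hmem : ∀ x, x ∈ convexHull ℝ (S : Set (Vec n)) ↔ ∀ q ∈ F, x ⬝ᵥ q.1 ≤ q.2 := by
        intro x; rw [hF]; rfl
      have hG : ∀ (x : Vec n) (s : ℝ), (∀ q ∈ G, x ⬝ᵥ q.1 + s * q.2.1 ≤ q.2.2) ↔
          (∀ q ∈ F, (x - s • p) ⬝ᵥ q.1 ≤ (1 - s) * q.2) ∧ s ≤ 1 ∧ 0 ≤ s := by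
        intro x s
        simp only [G, Finset.mem_union, Finset.mem_image, Finset.mem_insert,
          Finset.mem_singleton]
        constructor
        · intro h
          refine ⟨fun q hq => ?_, ?_, ?_⟩
          · have := h _ (Or.inl ⟨q, hq, rfl⟩)
            simp only at this
            rw [sub_dotProduct, smul_dotProduct, smul_eq_mul]
            linarith
          · have := h (0, 1, 1) (Or.inr (Or.inl rfl))
            simpa using this
          · have := h (0, -1, 0) (Or.inr (Or.inr rfl))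
            simpa using this
        · rintro ⟨h1, h2, h3⟩ q (⟨r, hr, rfl⟩ | rfl | rfl)
          · have := h1 r hr
            rw [sub_dotProduct, smul_dotProduct, smul_eq_mul] at this
            simp only
            linarith
          · simpa using h2
          · simpa using h3
      rw [Finset.coe_insert, convexHull_insert hSn]
      ext x
      simp only [Set.mem_ofPred_eq, convexJoin_singleton_left, mem_iUnion, exists_prop]
      constructor
      · rintro ⟨k, hk, hx⟩
        rw [segment_eq_image] at hx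
        obtain ⟨θ, ⟨hθ0, hθ1⟩, rfl⟩ := hx
        refine ⟨1 - θ, (hG _ _).2 ⟨fun q hq => ?_, by linarith, by linarith⟩⟩
        have h1 := (hmem k).1 hk q hq
        have h2 : (1 - θ) • p + θ • k - (1 - θ) • p = θ • k := by abel
        rw [h2, smul_dotProduct, smul_eq_mul]
        have : 1 - (1 - θ) = θ := by ring
        rw [this]
        exact mul_le_mul_of_nonneg_left h1 hθ0
      · rintro ⟨s, hs⟩
        obtain ⟨h1, h2, h3⟩ := (hG x s).1 hs
        rcases h2.lt_or_eq with h2 | h2
        · refine ⟨(1 - s)⁻¹ • (x - s • p), ?_, ?_⟩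
          · rw [hmem]
            intro q hq
            rw [smul_dotProduct, smul_eq_mul, inv_mul_le_iff₀ (by linarith)]
            exact h1 q hq
          · rw [segment_eq_image]
            refine ⟨1 - s, ⟨by linarith, by linarith⟩, ?_⟩
            simp only
            rw [smul_smul, mul_inv_cancel₀ (by linarith), one_smul]
            have : 1 - (1 - s) = s := by ring
            rw [this]
            abel
        · subst h2
          have hx : x - p = 0 := by
            apply ray_bounded hb (k := k0)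
            intro t ht
            rw [hmem]
            intro q hq
            have e1 := (hmem k0).1 hk0 q hq
            have e2 := h1 q hq
            rw [one_smul, sub_self, zero_mul] at e2
            rw [add_dotProduct, smul_dotProduct, smul_eq_mul]
            have := mul_nonpos_of_nonneg_of_nonpos ht e2
            linarith
          refine ⟨k0, hk0, ?_⟩
          rw [sub_eq_zero.1 hx]
          exact left_mem_segment ℝ p k0

end Pool.Agent.Covg
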