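import Pool.Agent.Work.MP_177351_gt.Lap
import Pool.Agent.Work.MP_177351_gt.VtoH
import Pool.Agent.Work.MP_177351_gt.Rep

/-!
# Existence and support of the formal transform of a polytope
-/

set_option autoImplicit false

open MeasureTheory MvPolynomial Set Filter Topology
open scoped Pointwise Matrix

namespace Pool.Agent.Covg

/-- Existence of the formal transform; `C` is a product of nonzero linear forms. -/
theorem exists_tr {n : ℕ} (S : Finset (Vec n)) :
    ∃ (N : ℕ) (u : Fin N → Vec n) (R : EA n), (∀ i, u i ≠ 0) ∧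
      TrC (convexHull ℝ (S : Set (Vec n))) (∏ i, lin (u i)) R ∧
      (R.coeff.support : Set (Vec n)) ⊆ (convexHull ℝ (S : Set (Vec n))).extremePoints ℝ :=
  exists_tr_of (Set.Finite.isCompact_convexHull ℝ (Finset.finite_toSet _)) (hpoly_convexHull S)

theorem support_tr {n : ℕ} {K : Set (Vec n)} {C : Pol n} {R : EA n} (hb : Body K)
    (h : TrC K C R) : (R.coeff.support : Set (Vec n)) = K.extremePoints ℝ :=
  support_tr_of (fun _ hP => ev_inj hP) hpoly_convexHull (Nw_eq hb h) h

end Pool.Agent.Covg
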