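import Pool.Agent.Work.MP_177351_gt.Defs
import Pool.Agent.Work.MP_177351_gt.Alg
import Pool.Agent.Work.MP_177351_gt.Lap
import Pool.Agent.Work.MP_177351_gt.Wrap
import Pool.Agent.Work.MP_177351_gt.Trans

set_option autoImplicit false

open MeasureTheory MvPolynomial Set Filter Topology
open scoped Pointwise Matrix

namespace Pool.Agent.Covg

namespace FinalAux

/-! ### Basic facts on `Mono` -/

theorem mono_zero {n : ℕ} : Mono (0 : EA n) := by simp [Mono]

theorem mono_single {n : ℕ} (a : Vec n) (M : Pol n) : Mono (AddMonoidAlgebra.single a M : EA n) := by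
  intro x hx y hy
  simp only [AddMonoidAlgebra.coeff_single, Finset.mem_coe] at hx hy
  have h1 := Finsupp.support_single_subset hx
  have h2 := Finsupp.support_single_subset hy
  rw [Finset.mem_singleton] at h1 h2
  rw [h1, h2]

theorem eq_single_of_mono {n : ℕ} {P : EA n} (h : Mono P) (h0 : P ≠ 0) :
    ∃ a M, M ≠ 0 ∧ P = AddMonoidAlgebra.single a M := by
  have hne : P.coeff.support.Nonempty := by
    rw [Finsupp.support_nonempty_iff]
    intro hc
    apply h0
    ext1
    simpa using hc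
  obtain ⟨a, ha⟩ := hne
  refine ⟨a, P.coeff a, Finsupp.mem_support_iff.mp ha, ?_⟩
  ext1
  ext1 b
  rw [AddMonoidAlgebra.coeff_single]
  by_cases hb : b = a
  · subst hb; simp
  · rw [Finsupp.single_eq_of_ne hb]
    by_contra hb'
    exact hb (h (Finset.mem_coe.mpr (Finsupp.mem_support_iff.mpr hb')) (Finset.mem_coe.mpr ha))

theorem mono_mul {n : ℕ} {P Q : EA n} (hP : Mono P) (hQ : Mono Q) : Mono (P * Q) := by
  by_cases hP0 : P = 0
  · rw [hP0, zero_mul]; exact mono_zero
  by_cases hQ0 : Q = 0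
  · rw [hQ0, mul_zero]; exact mono_zero
  obtain ⟨a, M, -, rfl⟩ := eq_single_of_mono hP hP0
  obtain ⟨b, M', -, rfl⟩ := eq_single_of_mono hQ hQ0
  rw [AddMonoidAlgebra.single_mul_single]
  exact mono_single _ _

theorem Nw_single {n : ℕ} (a : Vec n) {M : Pol n} (hM : M ≠ 0) :
    Nw (AddMonoidAlgebra.single a M : EA n) = {a} := by
  unfold Nw
  rw [AddMonoidAlgebra.coeff_single, Finsupp.support_single _ hM]
  simp

theorem Nw_nonempty {n : ℕ} {P : EA n} (h0 : P ≠ 0) : (Nw P).Nonempty := by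
  have hne : P.coeff.support.Nonempty := by
    rw [Finsupp.support_nonempty_iff]
    intro hc
    apply h0
    ext1
    simpa using hc
  obtain ⟨a, ha⟩ := hne
  exact ⟨a, subset_convexHull ℝ _ (Finset.mem_coe.mpr ha)⟩

theorem mono_iff_Nw {n : ℕ} {P : EA n} : Mono P ↔ (Nw P).Subsingleton := by
  constructor
  · intro h
    by_cases h0 : P = 0
    · subst h0; simp [Nw]
    · obtain ⟨a, M, hM, rfl⟩ := eq_single_of_mono h h0
      rw [Nw_single a hM]
      exact subsingleton_singleton
  · intro h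
    exact h.anti (subset_convexHull ℝ _)

theorem mono_of_mul {n : ℕ} {P Q : EA n} (hP : P ≠ 0) (hQ : Q ≠ 0) (h : Mono (P * Q)) :
    Mono P := by
  rw [mono_iff_Nw] at h ⊢
  rw [Nw_mul hP hQ] at h
  obtain ⟨q, hq⟩ := Nw_nonempty hQ
  intro x hx y hy
  have := h (add_mem_add hx hq) (add_mem_add hy hq)
  exact add_right_cancel this

/-! ### The lattice -/

theorem exists_lattice {n : ℕ} (S : Finset (Vec n)) :
    ∃ (m : ℕ) (f : (Fin m →₀ ℕ) →+ Vec n) (μ : Vec n), Function.Injective f ∧
      ∀ a ∈ S, μ + a ∈ Set.range f := by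
  classical
  let Λ : Submodule ℤ (Vec n) := Submodule.span ℤ (S : Set (Vec n))
  have : Module.Finite ℤ Λ := Module.Finite.iff_fg.mpr ⟨S, rfl⟩
  have : Module.Free ℤ Λ := Module.free_of_finite_type_torsion_free'
  let b := Module.finBasis ℤ Λ
  set m := Module.finrank ℤ Λ
  let f : (Fin m →₀ ℕ) →+ Vec n :=
    Λ.subtype.toAddMonoidHom.comp (b.repr.symm.toLinearMap.toAddMonoidHom.comp
      (Finsupp.mapRange.addMonoidHom (Nat.castAddMonoidHom ℤ)))
  have hf : ∀ k, f k = ((b.repr.symm (k.mapRange (Nat.cast : ℕ → ℤ) Nat.cast_zero) : Λ) : Vec n) :=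
    fun k => rfl
  have hinj : Function.Injective f := by
    intro k l hkl
    rw [hf, hf] at hkl
    have h1 := b.repr.symm.injective (Subtype.ext hkl)
    ext i
    have h2 := DFunLike.congr_fun h1 i
    simpa using h2
  let c : Vec n → (Fin m →₀ ℤ) := fun a => if h : a ∈ Λ then b.repr ⟨a, h⟩ else 0
  let B : ℕ := ∑ a ∈ S, ∑ i, (c a i).natAbs
  let k0 : Fin m →₀ ℕ := Finsupp.equivFunOnFinite.symm fun _ => B
  refine ⟨m, f, f k0, hinj, fun a ha => ?_⟩
  have haΛ : a ∈ Λ := Submodule.subset_span (Finset.mem_coe.mpr ha)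
  have hca : c a = b.repr ⟨a, haΛ⟩ := by simp only [c, dif_pos haΛ]
  refine ⟨Finsupp.equivFunOnFinite.symm fun i => ((B : ℤ) + c a i).toNat, ?_⟩
  have hpos : ∀ i, 0 ≤ (B : ℤ) + c a i := by
    intro i
    have h1 : (c a i).natAbs ≤ B := by
      refine le_trans ?_ (Finset.single_le_sum (f := fun a => ∑ i, (c a i).natAbs)
        (fun _ _ => Nat.zero_le _) ha)
      exact Finset.single_le_sum (f := fun i => (c a i).natAbs) (fun _ _ => Nat.zero_le _)
        (Finset.mem_univ i)
    have h2 : -(((c a i).natAbs : ℕ) : ℤ) ≤ c a i := by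
      have := neg_abs_le (c a i)
      rwa [Int.abs_eq_natAbs] at this
    have h3 : (((c a i).natAbs : ℕ) : ℤ) ≤ B := by exact_mod_cast h1
    linarith
  rw [hf, hf]
  have e1 : (a : Vec n) = ((b.repr.symm (c a) : Λ) : Vec n) := by rw [hca]; simp
  conv_rhs => rw [e1]
  rw [← Submodule.coe_add, ← map_add]
  congr 2
  ext i
  simp [k0, hpos i]

/-! ### Evaluation -/

theorem ev_single {n : ℕ} (z : Vec n) (a : Vec n) (M : Pol n) :
    ev z (AddMonoidAlgebra.single a M) = eval z M * Real.exp (a ⬝ᵥ z) := by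
  have := AddMonoidAlgebra.liftNC_single ((MvPolynomial.eval z : Pol n →+* ℝ) : Pol n →+ ℝ)
    (chr z) a M
  exact this

theorem ev_const {n : ℕ} (z : Vec n) (M : Pol n) :
    ev z (AddMonoidAlgebra.single 0 M) = eval z M := by
  rw [ev_single]; simp

theorem tr_ne_zero {n : ℕ} {K : Set (Vec n)} {C : Pol n} {R : EA n} (hb : Body K)
    (h : TrC K C R) : R ≠ 0 := by
  rintro rfl
  apply h.ne
  apply MvPolynomial.funext
  intro z
  have h1 := h.eq z
  rw [map_zero] at h1
  have h2 := lap_pos hb z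
  rcases mul_eq_zero.mp h1.symm with h3 | h3
  · rw [h3, map_zero]
  · exact absurd h3 h2.ne'

theorem not_mono_tr {n : ℕ} (hn : 1 ≤ n) {K : Set (Vec n)} {C : Pol n} {R : EA n} (hb : Body K)
    (h : TrC K C R) : ¬ Mono R := by
  rw [mono_iff_Nw, Nw_eq hb h]
  intro hs
  have : Nonempty (Fin n) := ⟨⟨0, hn⟩⟩
  have : Nontrivial (Vec n) := inferInstance
  have h1 : interior K ⊆ interior K := subset_rfl
  obtain ⟨x, hx⟩ := hb.int
  have hK : K = {x} := hs.eq_singleton_of_mem (interior_subset hx)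
  rw [hK, interior_singleton] at hx
  exact hx

/-- every element of the UFD all of whose prime factors are `Mono` is `Mono` -/
theorem mono_of_primes {n m : ℕ} (φ : MvPolynomial (Fin m) (Pol n) →+* EA n)
    (r : MvPolynomial (Fin m) (Pol n)) (hr : ∀ p, Prime p → p ∣ r → Mono (φ p)) :
    Mono (φ r) := by
  induction r using UniqueFactorizationMonoid.induction_on_prime with
  | h₁ => rw [map_zero]; exact mono_zero
  | h₂ x hx =>
    obtain ⟨u, rfl⟩ := hx
    have h1 : φ (u : MvPolynomial (Fin m) (Pol n)) * φ ((u⁻¹ : (MvPolynomial (Fin m) (Pol n))ˣ) :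
        MvPolynomial (Fin m) (Pol n)) = 1 := by
      rw [← map_mul, Units.mul_inv, map_one]
    have h2 : φ (u : MvPolynomial (Fin m) (Pol n)) ≠ 0 := left_ne_zero_of_mul_eq_one h1
    have h3 : φ ((u⁻¹ : (MvPolynomial (Fin m) (Pol n))ˣ) : MvPolynomial (Fin m) (Pol n)) ≠ 0 :=
      right_ne_zero_of_mul_eq_one h1
    refine mono_of_mul h2 h3 ?_
    rw [h1, AddMonoidAlgebra.one_def]
    exact mono_single _ _
  | h₃ a p ha hp ih =>
    rw [map_mul]
    exact mono_mul (hr p hp (dvd_mul_right _ _))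
      (ih fun q hq hqa => hr q hq (hqa.trans (dvd_mul_left _ _)))

/-- the common end of both cases -/
theorem endgame {n : ℕ} (st : EA n →+* EA n)
    (hst : ∀ P, ((st P).coeff.support : Set (Vec n)) = (fun a => -a) '' P.coeff.support)
    {RK RH V U CK CH : EA n} (hRK : RK ≠ 0) (hV : V ≠ 0) (hU : U ≠ 0)
    (hCK : CK ≠ 0) (hCH : Mono CH)
    (hrel : RK * st RK * CH = RH * st RH * CK) (hVm : Mono V) (h : RH * V = RK * U) :
    ∃ y : Vec n, Nw RH = (fun x => x + y) '' Nw RK := by
  have hst0 : ∀ P, P ≠ 0 → st P ≠ 0 := by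
    intro P hP hc
    have h1 := hst P
    rw [hc] at h1
    have h2 : P.coeff.support = ∅ := by
      have : ((fun a => -a) '' (P.coeff.support : Set (Vec n))) = ∅ := by rw [← h1]; simp
      rw [image_eq_empty] at this
      exact_mod_cast this
    apply hP
    ext1
    simpa using h2
  have hstm : ∀ P, Mono P → Mono (st P) := by
    intro P hP
    unfold Mono
    rw [hst]
    exact hP.image _
  have h' : st RH * st V = st RK * st U := by rw [← map_mul, ← map_mul, h]
  have hRKs := hst0 RK hRK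
  have key : CH * (V * st V) = CK * (U * st U) := by
    have e : (RK * st RK) * (CH * (V * st V)) = (RK * st RK) * (CK * (U * st U)) := by
      calc (RK * st RK) * (CH * (V * st V)) = (RK * st RK * CH) * (V * st V) := by ring
        _ = (RH * st RH * CK) * (V * st V) := by rw [hrel]
        _ = CK * ((RH * V) * (st RH * st V)) := by ring
        _ = CK * ((RK * U) * (st RK * st U)) := by rw [h, h']
        _ = _ := by ring
    exact mul_left_cancel₀ (mul_ne_zero hRK hRKs) e
  have hm : Mono (U * (CK * st U)) := by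
    have : U * (CK * st U) = CH * (V * st V) := by rw [key]; ring
    rw [this]
    exact mono_mul hCH (mono_mul hVm (hstm V hVm))
  have hUm : Mono U := mono_of_mul hU (mul_ne_zero hCK (hst0 U hU)) hm
  have hRH : RH ≠ 0 := by
    rintro rfl
    rw [zero_mul] at h
    exact (mul_ne_zero hRK hU) h.symm
  obtain ⟨v, M, hM, rfl⟩ := eq_single_of_mono hVm hV
  obtain ⟨u, M', hM', rfl⟩ := eq_single_of_mono hUm hU
  have hN := congrArg Nw h
  rw [Nw_mul hRH hV, Nw_mul hRK hU, Nw_single v hM, Nw_single u hM'] at hN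
  refine ⟨u - v, ?_⟩
  ext x
  constructor
  · intro hx
    have h1 : x + v ∈ Nw RK + {u} := by rw [← hN]; exact add_mem_add hx rfl
    obtain ⟨w, hw, u', hu', he⟩ := h1
    rw [mem_singleton_iff] at hu'
    subst hu'
    refine ⟨w, hw, ?_⟩
    simp only
    simp only at he
    rw [← add_sub_assoc, he, add_sub_cancel_right]
  · rintro ⟨w, hw, rfl⟩
    have h1 : w + u ∈ Nw RH + {v} := by rw [hN]; exact add_mem_add hw rfl
    obtain ⟨x, hx, v', hv', he⟩ := h1
    rw [mem_singleton_iff] at hv'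
    subst hv'
    have : w + (u - v') = x := by
      simp only at he
      rw [← add_sub_assoc, ← he, add_sub_cancel_right]
    simp only
    rw [this]; exact hx

theorem Nw_neg {n : ℕ} {P Q : EA n}
    (h : (Q.coeff.support : Set (Vec n)) = (fun a => -a) '' P.coeff.support) :
    Nw Q = (fun x => -x) '' Nw P := by
  unfold Nw
  rw [h]
  have := (-(LinearMap.id : Vec n →ₗ[ℝ] Vec n)).image_convexHull (P.coeff.support : Set (Vec n))
  simpa using this.symm

theorem exists_pre {n m : ℕ} {f : (Fin m →₀ ℕ) →+ Vec n} (hf : Function.Injective f)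
    {μ : Vec n} {P : EA n} (h : ∀ a ∈ P.coeff.support, μ + a ∈ Set.range f) :
    ∃ r : AddMonoidAlgebra (Pol n) (Fin m →₀ ℕ),
      AddMonoidAlgebra.mapDomain f r = AddMonoidAlgebra.single μ 1 * P := by
  classical
  refine ⟨_, AddMonoidAlgebra.mapDomain_comapDomain (f := f)
    (x := AddMonoidAlgebra.single μ 1 * P) ?_ hf⟩
  intro b hb
  have h1 := AddMonoidAlgebra.support_coeff_single_mul_subset P (1 : Pol n) μ
    (Finset.mem_coe.mp hb)
  obtain ⟨a, ha, rfl⟩ := Finset.mem_image.mp h1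
  exact h a ha

theorem isHom_shift {n d : ℕ} {P : EA n} (μ : Vec n) (h : IsHom d P) :
    IsHom d (AddMonoidAlgebra.single μ 1 * P) := by
  have h1 : IsHom 0 (AddMonoidAlgebra.single μ 1 : EA n) := by
    intro a
    rw [AddMonoidAlgebra.coeff_single, Finsupp.single_apply]
    split_ifs
    · exact isHomogeneous_one _ _
    · exact isHomogeneous_zero _ _ _
  have := isHom_mul h1 h
  rwa [zero_add] at this

theorem single_shift {n : ℕ} (μ : Vec n) (P : EA n) :
    AddMonoidAlgebra.single (-μ) 1 * (AddMonoidAlgebra.single μ 1 * P) = P := by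
  rw [← mul_assoc, AddMonoidAlgebra.single_mul_single]
  simp [← AddMonoidAlgebra.one_def]

theorem mono_shift {n : ℕ} {μ : Vec n} {P : EA n} (h : Mono (AddMonoidAlgebra.single μ 1 * P)) :
    Mono P := by
  rw [← single_shift μ P]
  exact mono_mul (mono_single _ _) h

/-- the reduction of one case -/
theorem one_case {n m : ℕ} (φ : MvPolynomial (Fin m) (Pol n) →+* EA n)
    {μ : Vec n} {RK RH : EA n} {rK rH p ρ : MvPolynomial (Fin m) (Pol n)}
    (hK : φ rK = AddMonoidAlgebra.single μ 1 * RK) (hH : φ rH = AddMonoidAlgebra.single μ 1 * RH)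
    (hρ : rK = p * ρ) (hp : p ∣ rH) (hRH : RH ≠ 0) :
    ∃ U, U ≠ 0 ∧ RH * φ ρ = RK * U := by
  obtain ⟨σ, hσ⟩ := hp
  have hs : (AddMonoidAlgebra.single μ 1 : EA n) ≠ 0 := by
    intro h
    have := congrArg (fun P : EA n => P.coeff μ) h
    simp at this
  refine ⟨φ σ, ?_, ?_⟩
  · intro h
    rw [hσ, map_mul, h, mul_zero] at hH
    exact (mul_ne_zero hs hRH) hH.symm
  · have e : AddMonoidAlgebra.single μ 1 * (RH * φ ρ) = AddMonoidAlgebra.single μ 1 * (RK * φ σ) := by
      calc AddMonoidAlgebra.single μ 1 * (RH * φ ρ) = φ rH * φ ρ := by rw [hH, mul_assoc]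
        _ = φ rK * φ σ := by rw [hσ, hρ, map_mul, map_mul]; ring
        _ = _ := by rw [hK, mul_assoc]
    exact mul_left_cancel₀ hs e

theorem final_aux {n : ℕ} {K H : Set (Vec n)} {CK CH : Pol n} {RK RH : EA n}
    (hK : Body K) (hH : Body H) (hTK : TrC K CK RK) (hTH : TrC H CH RH) (hn : 1 ≤ n)
    (hcov : ∀ z, lap K z * lap K (-z) = lap H z * lap H (-z))
    (irr : ∀ P Q, FP K P Q → Mono P ∨ Mono Q) :
    ∃ y, H = (fun x => x + y) '' K ∨ H = (fun x => -x + y) '' K := by
  classical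
  have hRK := tr_ne_zero hK hTK
  have hRH := tr_ne_zero hH hTH
  -- the involution
  have hdet : IsUnit (-1 : Matrix (Fin n) (Fin n) ℝ).det := by
    rw [Matrix.det_neg, Matrix.det_one, mul_one]
    exact (isUnit_neg_one).pow _
  obtain ⟨st, -, hst1, hst2, -, -, -, -⟩ := exists_tm (-1 : Matrix (Fin n) (Fin n) ℝ) hdet
  have hst : ∀ P : EA n, ((st P).coeff.support : Set (Vec n)) =
      (fun a => -a) '' P.coeff.support := by
    intro P
    rw [hst1]
    refine image_congr fun a _ => ?_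
    rw [Matrix.neg_mulVec, Matrix.one_mulVec]
  have hev : ∀ (P : EA n) z, ev z (st P) = ev (-z) P := by
    intro P z
    rw [hst2, Matrix.vecMul_neg, Matrix.vecMul_one]
  have hstst : ∀ P : EA n, st (st P) = P := by
    intro P
    rw [← sub_eq_zero]
    refine ev_inj fun z => ?_
    rw [map_sub, hev, hev, neg_neg, sub_self]
  have hst0 : ∀ P : EA n, P ≠ 0 → st P ≠ 0 := by
    intro P hP hc
    apply hP
    rw [← hstst P, hc, map_zero]
  -- the constants
  set CK' := subst (-1 : Matrix (Fin n) (Fin n) ℝ) CK with hCK'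
  set CH' := subst (-1 : Matrix (Fin n) (Fin n) ℝ) CH with hCH'
  have hsub : ∀ (p : Pol n) z, eval z (subst (-1 : Matrix (Fin n) (Fin n) ℝ) p) = eval (-z) p := by
    intro p z
    rw [eval_subst, Matrix.vecMul_neg, Matrix.vecMul_one]
  have hsub0 : ∀ p : Pol n, p ≠ 0 → subst (-1 : Matrix (Fin n) (Fin n) ℝ) p ≠ 0 := by
    intro p hp hc
    apply hp
    apply MvPolynomial.funext
    intro z
    have := hsub p (-z)
    rw [hc, neg_neg, map_zero] at this
    rw [← this, map_zero]
  have hCK0 : CK ≠ 0 := hTK.ne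
  have hCH0 : CH ≠ 0 := hTH.ne
  have hCK0' : CK' ≠ 0 := hsub0 CK hCK0
  have hCH0' : CH' ≠ 0 := hsub0 CH hCH0
  have hrel : RK * st RK * AddMonoidAlgebra.single 0 (CH * CH') =
      RH * st RH * AddMonoidAlgebra.single 0 (CK * CK') := by
    rw [← sub_eq_zero]
    refine ev_inj fun z => ?_
    rw [map_sub, map_mul, map_mul, map_mul, map_mul, hev, hev, ev_const, ev_const, map_mul,
      map_mul, hTK.eq, hTK.eq, hTH.eq, hTH.eq, hCK', hCH', hsub, hsub]
    have := hcov z
    linear_combination (eval z CK * eval (-z) CK * eval z CH * eval (-z) CH) * this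
  -- the lattice
  obtain ⟨m, f, μ, hf, hμ⟩ := exists_lattice
    (RK.coeff.support ∪ RH.coeff.support ∪ (st RK).coeff.support ∪ (st RH).coeff.support)
  let φ : MvPolynomial (Fin m) (Pol n) →+* EA n := AddMonoidAlgebra.mapDomainRingHom (Pol n) f
  have hφ : Function.Injective φ := AddMonoidAlgebra.mapDomain_injective hf
  have hφC : ∀ c : Pol n, φ (MvPolynomial.C c) = AddMonoidAlgebra.single 0 c := by
    intro c
    have : AddMonoidAlgebra.mapDomain f (AddMonoidAlgebra.single 0 c :
      AddMonoidAlgebra (Pol n) (Fin m →₀ ℕ)) = AddMonoidAlgebra.single (f 0) c :=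
      AddMonoidAlgebra.mapDomain_single
    rw [map_zero] at this
    exact this
  obtain ⟨rK, hrK⟩ := exists_pre hf (P := RK) (μ := μ) fun a ha => hμ a (by simp [ha])
  obtain ⟨rH, hrH⟩ := exists_pre hf (P := RH) (μ := μ) fun a ha => hμ a (by simp [ha])
  obtain ⟨rK', hrK'⟩ := exists_pre hf (P := st RK) (μ := μ) fun a ha => hμ a (by simp [ha])
  obtain ⟨rH', hrH'⟩ := exists_pre hf (P := st RH) (μ := μ) fun a ha => hμ a (by simp [ha])
  change MvPolynomial (Fin m) (Pol n) at rK rH rK' rH'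
  change φ rK = _ at hrK
  change φ rH = _ at hrH
  change φ rK' = _ at hrK'
  change φ rH' = _ at hrH'
  have hrel' : rK * rK' * MvPolynomial.C (CH * CH') = rH * rH' * MvPolynomial.C (CK * CK') := by
    apply hφ
    have e1 : φ (rK * rK' * MvPolynomial.C (CH * CH')) =
        φ rK * φ rK' * φ (MvPolynomial.C (CH * CH')) := by rw [map_mul φ, map_mul φ]
    have e2 : φ (rH * rH' * MvPolynomial.C (CK * CK')) =
        φ rH * φ rH' * φ (MvPolynomial.C (CK * CK')) := by rw [map_mul φ, map_mul φ]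
    rw [e1, e2, hφC, hφC, hrK, hrH, hrK', hrH']
    linear_combination (AddMonoidAlgebra.single μ 1 * AddMonoidAlgebra.single μ 1) * hrel
  -- a prime factor which is not a monomial
  obtain ⟨p, hp, hpK, hpm⟩ : ∃ p, Prime p ∧ p ∣ rK ∧ ¬ Mono (φ p) := by
    by_contra hcon
    push Not at hcon
    have := mono_of_primes φ rK fun p hp hpr => hcon p hp hpr
    rw [hrK] at this
    exact not_mono_tr hn hK hTK (mono_shift this)
  obtain ⟨ρ, hρ⟩ := hpK
  have hφp : φ p ≠ 0 := by
    intro h
    apply hp.ne_zero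
    apply hφ
    rw [h, map_zero]
  have hφρ : φ ρ ≠ 0 := by
    intro h
    rw [hρ, map_mul, h, mul_zero] at hrK
    apply hRK
    rw [← single_shift μ RK, ← hrK, mul_zero]
  -- the cofactor is a monomial
  have hPQ : AddMonoidAlgebra.single (-μ) 1 * φ p * φ ρ = RK := by
    rw [mul_assoc, ← map_mul, ← hρ, hrK, single_shift]
  have hsne : AddMonoidAlgebra.single (-μ) 1 * φ p ≠ 0 := by
    intro h
    rw [h, zero_mul] at hPQ
    exact hRK hPQ.symm
  obtain ⟨d, hd1, hd2⟩ := hTK.hom
  have hρm : Mono (φ ρ) := by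
    rw [← hPQ] at hd2
    obtain ⟨d₁, d₂, h1, h2, -⟩ := isHom_of_mul hsne hφρ hd2
    rcases irr _ _ ⟨hK, ⟨d₁, h1⟩, ⟨d₂, h2⟩, ⟨CK, by rw [hPQ]; exact hTK⟩⟩ with h | h
    · exact absurd (mono_shift h) hpm
    · exact h
  -- p divides one of the factors
  have hconst : ∀ c : Pol n, c ≠ 0 → ¬ p ∣ MvPolynomial.C c := by
    rintro c hc ⟨σ, hσ⟩
    have h1 : φ p * φ σ = AddMonoidAlgebra.single 0 c := by rw [← map_mul, ← hσ, hφC]
    have h2 : φ p * φ σ ≠ 0 := by
      rw [h1]
      intro h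
      have := congrArg (fun P : EA n => P.coeff 0) h
      simp at this
      exact hc this
    apply hpm
    refine mono_of_mul hφp (right_ne_zero_of_mul h2) ?_
    rw [h1]; exact mono_single _ _
  have hdvd : p ∣ rH * rH' := by
    have h1 : p ∣ rH * rH' * MvPolynomial.C (CK * CK') := by
      rw [← hrel', hρ]
      exact ((dvd_mul_right _ _).mul_right _).mul_right _
    rcases hp.dvd_or_dvd h1 with h | h
    · exact h
    · exact absurd h (hconst _ (mul_ne_zero hCK0 hCK0'))
  have hcm : Mono (AddMonoidAlgebra.single 0 (CH * CH') : EA n) := mono_single _ _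
  have hc0 : (AddMonoidAlgebra.single 0 (CK * CK') : EA n) ≠ 0 := by
    intro h
    have := congrArg (fun P : EA n => P.coeff 0) h
    simp at this
    rcases this with h | h
    · exact hCK0 h
    · exact hCK0' h
  have hNK := Nw_eq hK hTK
  have hNH := Nw_eq hH hTH
  rcases hp.dvd_or_dvd hdvd with h | h
  · obtain ⟨U, hU, hUe⟩ := one_case φ hrK hrH hρ h hRH
    obtain ⟨y, hy⟩ := endgame st hst hRK hφρ hU hc0 hcm hrel hρm hUe
    rw [hNK, hNH] at hy
    exact ⟨y, Or.inl hy⟩
  · obtain ⟨U, hU, hUe⟩ := one_case φ hrK hrH' hρ h (hst0 _ hRH)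
    have hrel2 : RK * st RK * AddMonoidAlgebra.single 0 (CH * CH') =
        st RH * st (st RH) * AddMonoidAlgebra.single 0 (CK * CK') := by
      rw [hstst, hrel]; ring
    obtain ⟨y, hy⟩ := endgame st hst hRK hφρ hU hc0 hcm hrel2 hρm hUe
    rw [hNK, Nw_neg (hst RH), hNH] at hy
    refine ⟨-y, Or.inr ?_⟩
    ext x
    constructor
    · intro hx
      have h1 : -x ∈ (fun x => x + y) '' K := by rw [← hy]; exact ⟨x, hx, rfl⟩
      obtain ⟨w, hw, he⟩ := h1
      simp only at he
      exact ⟨w, hw, by simp only; rw [← neg_inj, ← he]; abel⟩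
    · rintro ⟨w, hw, rfl⟩
      have h1 : w + y ∈ (fun x => -x) '' H := by rw [hy]; exact ⟨w, hw, rfl⟩
      obtain ⟨x, hx, he⟩ := h1
      simp only at he
      have : -w + -y = x := by rw [← neg_inj, he]; abel
      simp only
      rw [this]; exact hx

end FinalAux

open FinalAux in
/-- The algebraic end of the proof: unique factorisation. -/
theorem final {n : ℕ} {K H : Set (Vec n)} (SK SH : Finset (Vec n)) (hK : Body K) (hH : Body H)
    (hSK : K = convexHull ℝ (SK : Set (Vec n))) (hSH : H = convexHull ℝ (SH : Set (Vec n)))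
    (hn : 1 ≤ n)
    (hcov : ∀ z, lap K z * lap K (-z) = lap H z * lap H (-z))
    (irr : ∀ P Q, FP K P Q → Mono P ∨ Mono Q) :
    ∃ y, H = (fun x => x + y) '' K ∨ H = (fun x => -x + y) '' K := by
  obtain ⟨_, _, RK, _, hTK, _⟩ := exists_tr SK
  obtain ⟨_, _, RH, _, hTH, _⟩ := exists_tr SH
  rw [← hSK] at hTK
  rw [← hSH] at hTH
  exact final_aux hK hH hTK hTH hn hcov irr

end Pool.Agent.Covg
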