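import Pool.Agent.Work.MP_177351_gt.Split

/-!
# Covariograms and joins
-/

set_option autoImplicit false

open Set Pointwise MeasureTheory Module Filter Topology

namespace Pool.MP_177351_gt

variable {V : Type*} [NormedAddCommGroup V] [NormedSpace ℝ V]

section geometry

variable {K F G : Set V} {l : V →ₗ[ℝ] ℝ} {m : ℝ}

/-- Joins are directly indecomposable. -/
theorem Join.indecomposable (J : Join K F G l m) {E₁ E₂ : Submodule ℝ V} (hE : IsCompl E₁ E₂)
    {L M : Set V} (hL : L ⊆ E₁) (hM : M ⊆ E₂) (hK : K = L + M) :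
    L.Subsingleton ∨ M.Subsingleton := by
  -- the functional l ∘ (projection to E₁ along E₂)
  let p : V →ₗ[ℝ] ℝ := LinearMap.ofIsCompl hE (l.domRestrict E₁) 0
  have p1 : ∀ x ∈ E₁, p x = l x := fun x hx => by
    have := LinearMap.ofIsCompl_apply_left hE (φ := l.domRestrict E₁) (ψ := 0) ⟨x, hx⟩
    simpa using this
  have p2 : ∀ x ∈ E₂, p x = 0 := fun x hx => by
    have := LinearMap.ofIsCompl_apply_right hE (φ := l.domRestrict E₁) (ψ := 0) ⟨x, hx⟩
    simpa using this
  obtain ⟨f₀, hf₀⟩ := J.neF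
  obtain ⟨g₀, hg₀⟩ := J.neG
  have hadd : ∀ x ∈ L, ∀ y ∈ M, x + y ∈ K := fun x hx y hy => hK ▸ add_mem_add hx hy
  obtain ⟨lf, hlf, mf, hmf, hf⟩ : ∃ x ∈ L, ∃ y ∈ M, x + y = f₀ := by
    have := J.F_sub hf₀
    rw [hK] at this
    obtain ⟨x, hx, y, hy, h⟩ := this
    exact ⟨x, hx, y, hy, h⟩
  obtain ⟨lg, hlg, mg, hmg, hg⟩ : ∃ x ∈ L, ∃ y ∈ M, x + y = g₀ := by
    have := J.G_sub hg₀
    rw [hK] at this
    obtain ⟨x, hx, y, hy, h⟩ := this
    exact ⟨x, hx, y, hy, h⟩
  have lf0 : l lf + l mf = m + 1 := by rw [← map_add, hf, J.lF _ hf₀]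
  have lg0 : l lg + l mg = m := by rw [← map_add, hg, J.lG _ hg₀]
  -- heights of the decompositions
  have hF : ∀ x ∈ F, p x = l lf := by
    intro x hx
    have hxK := J.F_sub hx
    rw [hK] at hxK
    obtain ⟨u, hu, v, hv, rfl⟩ := hxK
    have h1 : l u + l v = m + 1 := by
      have := J.lF _ hx
      simpa using this
    have h2 := (J.le_height (hadd u hu mf hmf)).2
    have h3 := (J.le_height (hadd lf hlf v hv)).2
    rw [map_add] at h2 h3
    show p (u + v) = _
    rw [map_add, p1 u (hL hu), p2 v (hM hv)]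
    linarith
  have hG : ∀ x ∈ G, p x = l lg := by
    intro x hx
    have hxK := J.G_sub hx
    rw [hK] at hxK
    obtain ⟨u, hu, v, hv, rfl⟩ := hxK
    have h1 : l u + l v = m := by
      have := J.lG _ hx
      simpa using this
    have h2 := (J.le_height (hadd u hu mg hmg)).1
    have h3 := (J.le_height (hadd lg hlg v hv)).1
    rw [map_add] at h2 h3
    show p (u + v) = _
    rw [map_add, p1 u (hL hu), p2 v (hM hv)]
    linarith
  have hker : ∀ v ∈ LinearMap.ker l, p v = 0 := by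
    have h1 : vectorSpan ℝ F ≤ LinearMap.ker p := by
      rw [vectorSpan_def, Submodule.span_le]
      rintro _ ⟨x, hx, y, hy, rfl⟩
      simp only [SetLike.mem_coe, LinearMap.mem_ker, vsub_eq_sub, map_sub]
      rw [hF x hx, hF y hy, sub_self]
    have h2 : vectorSpan ℝ G ≤ LinearMap.ker p := by
      rw [vectorSpan_def, Submodule.span_le]
      rintro _ ⟨x, hx, y, hy, rfl⟩
      simp only [SetLike.mem_coe, LinearMap.mem_ker, vsub_eq_sub, map_sub]
      rw [hG x hx, hG y hy, sub_self]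
    intro v hv
    rw [← J.sup] at hv
    exact (sup_le h1 h2) hv
  set c := p (f₀ - g₀) with hc
  have hpc : ∀ v, p v = c * l v := by
    intro v
    have : v - (l v) • (f₀ - g₀) ∈ LinearMap.ker l := by
      rw [LinearMap.mem_ker, map_sub, map_smul, J.l_sub hf₀ hg₀]; simp
    have := hker _ this
    rw [map_sub, map_smul, smul_eq_mul, sub_eq_zero] at this
    rw [this, mul_comm]
  have conc : ∀ (A B : Set V), (∀ x ∈ A, ∀ y ∈ B, x + y ∈ K) → (∃ a ∈ A, ∃ b ∈ B, a + b ∈ F) →
      (∃ a ∈ A, ∃ b ∈ B, a + b ∈ G) → (∀ x ∈ A, ∀ y ∈ A, l x = l y) → A.Subsingleton := by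
    intro A B hAB h1 h2 hl x hx y hy
    obtain ⟨a, ha, b, hb, hab⟩ := h1
    obtain ⟨a', ha', b', hb', hab'⟩ := h2
    have k1 : ∀ z ∈ A, z + b ∈ F := by
      intro z hz
      apply J.mem_F (hAB z hz b hb)
      rw [map_add, hl z hz a ha, ← map_add, J.lF _ hab]
    have k2 : ∀ z ∈ A, z + b' ∈ G := by
      intro z hz
      apply J.mem_G (hAB z hz b' hb')
      rw [map_add, hl z hz a' ha', ← map_add, J.lG _ hab']
    have e1 : x - y ∈ vectorSpan ℝ F := by
      have := vsub_mem_vectorSpan ℝ (k1 x hx) (k1 y hy)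
      simpa using this
    have e2 : x - y ∈ vectorSpan ℝ G := by
      have := vsub_mem_vectorSpan ℝ (k2 x hx) (k2 y hy)
      simpa using this
    exact sub_eq_zero.1 (J.eq_zero e1 e2 rfl)
  by_cases hc1 : c = 1
  · -- l vanishes on E₂
    right
    have hl2 : ∀ v ∈ E₂, l v = 0 := fun v hv => by
      have h1 := hpc v
      rw [p2 v hv, hc1, one_mul] at h1
      exact h1.symm
    apply conc M L (fun x hx y hy => by rw [add_comm]; exact hadd y hy x hx)
    · exact ⟨mf, hmf, lf, hlf, by rw [add_comm, hf]; exact hf₀⟩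
    · exact ⟨mg, hmg, lg, hlg, by rw [add_comm, hg]; exact hg₀⟩
    · intro x hx y hy
      rw [hl2 x (hM hx), hl2 y (hM hy)]
  · left
    have hl1 : ∀ v ∈ E₁, l v = 0 := fun v hv => by
      have h1 := hpc v
      rw [p1 v hv] at h1
      have h2 : (1 - c) * l v = 0 := by linarith
      exact (mul_eq_zero.1 h2).resolve_left (sub_ne_zero.2 (Ne.symm hc1))
    apply conc L M hadd
    · exact ⟨lf, hlf, mf, hmf, by rw [hf]; exact hf₀⟩
    · exact ⟨lg, hlg, mg, hmg, by rw [hg]; exact hg₀⟩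
    · intro x hx y hy
      rw [hl1 x (hL hx), hl1 y (hL hy)]

end geometry

section measure

variable [FiniteDimensional ℝ V] [MeasurableSpace V] [BorelSpace V] (μ : Measure V)
  [μ.IsAddHaarMeasure]

/-- The covariogram. -/
noncomputable def cov (K : Set V) (x : V) : ENNReal := μ (K ∩ ((fun y => y + x) '' K))

omit [NormedSpace ℝ V] [FiniteDimensional ℝ V] [MeasurableSpace V] [BorelSpace V] in
theorem mem_inter_shift {K : Set V} {x y : V} :
    y ∈ K ∩ ((fun y => y + x) '' K) ↔ y ∈ K ∧ y - x ∈ K := by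
  constructor
  · rintro ⟨h, z, hz, rfl⟩
    exact ⟨h, by simpa using hz⟩
  · rintro ⟨h1, h2⟩
    exact ⟨h1, y - x, h2, by simp⟩

omit [FiniteDimensional ℝ V] [MeasurableSpace V] [BorelSpace V] in
theorem homothety_sub {K : Set V} (hK : Convex ℝ K) {f g : V} (hf : f ∈ K) (hg : g ∈ K) {k : ℝ}
    (h0 : 0 ≤ k) (h1 : k ≤ 1) : AffineMap.homothety f k '' K ⊆
      K ∩ ((fun y => y + (1 - k) • (f - g)) '' K) := by
  rintro _ ⟨h, hh, rfl⟩
  rw [mem_inter_shift, AffineMap.homothety_apply]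
  simp only [vsub_eq_sub, vadd_eq_add]
  constructor
  · have := hK hh hf h0 (by linarith : (0 : ℝ) ≤ 1 - k) (by ring)
    convert this using 1
    module
  · have := hK hh hg h0 (by linarith : (0 : ℝ) ≤ 1 - k) (by ring)
    convert this using 1
    module

theorem cov_of_lin {K : Set V} (hK : Convex ℝ K) {f g : V} (hf : f ∈ K) (hg : g ∈ K)
    (h : Lin K f g) {k : ℝ} (h0 : 0 < k) (h1 : k ≤ 1) :
    cov μ K ((1 - k) • (f - g)) = ENNReal.ofReal |k ^ finrank ℝ V| * μ K := by
  rw [← Measure.addHaar_image_homothety μ f k K, cov]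
  congr 1
  apply Subset.antisymm _ (homothety_sub hK hf hg h0.le h1)
  intro y hy
  rw [mem_inter_shift] at hy
  refine ⟨(1 / k) • (y - (1 - k) • f), ?_, ?_⟩
  · have e : k • ((1 / k) • (y - (1 - k) • f)) = y - (1 - k) • f := by
      rw [smul_smul, mul_one_div_cancel h0.ne', one_smul]
    apply h k h0 h1
    · rw [e]; simpa using hy.1
    · rw [e]
      convert hy.2 using 1
      module
  · rw [AffineMap.homothety_apply]
    simp only [vsub_eq_sub, vadd_eq_add]
    rw [smul_sub, smul_smul, mul_one_div_cancel h0.ne', one_smul]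
    module

omit [FiniteDimensional ℝ V] in
/-- A closed set of full measure in a convex set with interior points contains it. -/
theorem sub_of_measure_le {A B : Set V} (hA : IsClosed A) (hAB : A ⊆ B) (hB : Convex ℝ B)
    (hi : (interior B).Nonempty) (hfin : μ A ≠ ⊤) (hle : μ B ≤ μ A) : B ⊆ A := by
  intro b hb
  by_contra hbA
  have h1 : b ∈ closure (interior B) := by
    rw [hB.closure_interior_eq_closure_of_nonempty_interior hi]
    exact subset_closure hb
  have h2 : (interior B ∩ Aᶜ).Nonempty := by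
    rw [inter_comm]
    exact mem_closure_iff.1 h1 Aᶜ hA.isOpen_compl hbA
  have h3 : 0 < μ (interior B ∩ Aᶜ) :=
    (isOpen_interior.inter hA.isOpen_compl).measure_pos μ h2
  have h4 : μ (interior B ∩ Aᶜ) + μ A ≤ μ A := by
    rw [← measure_union (disjoint_left.2 fun x hx hx' => hx.2 hx') hA.measurableSet]
    refine (measure_mono ?_).trans hle
    rintro x (hx | hx)
    · exact interior_subset hx.1
    · exact hAB hx
  have h5 : μ (interior B ∩ Aᶜ) + μ A ≤ 0 + μ A := by rwa [zero_add]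
  exact absurd ((ENNReal.add_le_add_iff_right hfin).1 h5) (not_le.2 h3)

theorem lin_of_cov {K : Set V} (hK : Convex ℝ K) (hc : IsCompact K) (hi : (interior K).Nonempty)
    {f g : V} (hf : f ∈ K) (hg : g ∈ K)
    (h : ∀ k : ℝ, 0 < k → k ≤ 1 →
      cov μ K ((1 - k) • (f - g)) = ENNReal.ofReal |k ^ finrank ℝ V| * μ K) : Lin K f g := by
  intro k h0 h1 z hz1 hz2
  have hA : IsCompact (AffineMap.homothety f k '' K) :=
    hc.image (AffineMap.homothety_continuous f k)
  have hsub := homothety_sub hK hf hg h0.le h1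
  have hsh : Convex ℝ ((fun y => y + (1 - k) • (f - g)) '' K) := by
    have := hK.translate ((1 - k) • (f - g))
    convert this using 2
    exact add_comm _ _
  have hB : Convex ℝ (K ∩ ((fun y => y + (1 - k) • (f - g)) '' K)) := hK.inter hsh
  have hAi : (interior (AffineMap.homothety f k '' K)).Nonempty := by
    have hopen : IsOpenMap (AffineMap.homothety f k : V →ᵃ[ℝ] V) :=
      AffineMap.homothety_isOpenMap f k h0.ne'
    have := hopen.image_interior_subset K
    exact (hi.image _).mono this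
  have hle := h k h0 h1
  rw [← Measure.addHaar_image_homothety μ f k K, cov] at hle
  have := sub_of_measure_le μ hA.isClosed hsub hB (hAi.mono (interior_mono hsub))
    hA.measure_lt_top.ne hle.le
  have hy : k • z + (1 - k) • f ∈ K ∩ ((fun y => y + (1 - k) • (f - g)) '' K) := by
    rw [mem_inter_shift]
    refine ⟨hz1, ?_⟩
    convert hz2 using 1
    module
  obtain ⟨w, hw, hwe⟩ := this hy
  rw [AffineMap.homothety_apply] at hwe
  simp only [vsub_eq_sub, vadd_eq_add] at hwe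
  have : k • (w - z) = 0 := by
    have : k • (w - f) + f - (k • z + (1 - k) • f) = 0 := by rw [hwe, sub_self]
    rw [← this]
    module
  rw [smul_eq_zero, sub_eq_zero] at this
  rw [← this.resolve_left h0.ne']
  exact hw

theorem cov_pos {K : Set V} (hK : Convex ℝ K) (hi : (interior K).Nonempty)
    {a b : V} (ha : a ∈ K) (hb : b ∈ K) {k : ℝ} (h0 : 0 < k) (h1 : k ≤ 1) :
    0 < cov μ K ((1 - k) • (a - b)) := by
  have h2 : 0 < μ K := (isOpen_interior.measure_pos μ hi).trans_le (measure_mono interior_subset)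
  have h3 : 0 < μ (AffineMap.homothety a k '' K) := by
    rw [Measure.addHaar_image_homothety]
    apply ENNReal.mul_pos _ h2.ne'
    rw [Ne, ENNReal.ofReal_eq_zero, not_le]
    positivity
  exact h3.trans_le (measure_mono (homothety_sub hK ha hb h0.le h1))

/-- The covariogram determines the difference body. -/
theorem diff_of_cov {K H : Set V} (hK : Convex ℝ K) (hi : (interior K).Nonempty)
    (hH : IsCompact H) (h : ∀ x, cov μ H x = cov μ K x) (x : V) (hx : Diff K x) : Diff H x := by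
  obtain ⟨a, ha, b, hb, rfl⟩ := hx
  have hcl : IsClosed (H - H) := by
    have := hH.add hH.neg
    rw [← sub_eq_add_neg] at this
    exact this.isClosed
  rw [diff_eq]
  have hmem : ∀ n : ℕ, (1 - 1 / ((n : ℝ) + 1)) • (a - b) ∈ H - H := by
    intro n
    have hn : (0 : ℝ) < (n : ℝ) + 1 := by positivity
    have h1 : 1 / ((n : ℝ) + 1) ≤ 1 := by
      rw [div_le_one hn]; linarith [Nat.cast_nonneg (α := ℝ) n]
    have h2 := cov_pos μ hK hi ha hb (one_div_pos.2 hn) h1
    rw [← h, cov] at h2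
    obtain ⟨y, hy⟩ := nonempty_of_measure_ne_zero h2.ne'
    rw [mem_inter_shift] at hy
    rw [← diff_eq]
    exact ⟨y, hy.1, _, hy.2, by abel⟩
  have hlim : Tendsto (fun n : ℕ => (1 - 1 / ((n : ℝ) + 1)) • (a - b)) atTop (𝓝 (a - b)) := by
    have h1 : Tendsto (fun n : ℕ => (1 - 1 / ((n : ℝ) + 1))) atTop (𝓝 (1 - 0)) :=
      tendsto_const_nhds.sub tendsto_one_div_add_atTop_nhds_zero_nat
    have h2 := h1.smul_const (a - b)
    rwa [sub_zero, one_smul] at h2
  exact hcl.mem_of_tendsto hlim (Eventually.of_forall hmem)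

theorem interior_of_measure_pos {H : Set V} (hH : Convex ℝ H) (h : μ H ≠ 0) :
    (interior H).Nonempty := by
  by_contra hne
  rw [not_nonempty_iff_eq_empty] at hne
  apply h
  have h1 : H ⊆ frontier H := by
    intro x hx
    rw [frontier, hne, sdiff_empty]
    exact subset_closure hx
  exact measure_mono_null h1 (hH.addHaar_frontier μ)

omit [FiniteDimensional ℝ V] [MeasurableSpace V] [BorelSpace V] in
theorem Join.compact {K F G : Set V} {l : V →ₗ[ℝ] ℝ} {m : ℝ} (J : Join K F G l m) :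
    IsCompact K := by
  have h1 : IsCompact ((Icc (0 : ℝ) 1) ×ˢ (F ×ˢ G)) :=
    isCompact_Icc.prod (J.compF.prod J.compG)
  have h2 := h1.image (f := fun p : ℝ × (V × V) => p.1 • p.2.1 + (1 - p.1) • p.2.2)
    (by fun_prop)
  convert h2 using 1
  ext x
  rw [J.mem, mem_image]
  constructor
  · rintro ⟨s, h0, h1, a, ha, b, hb, rfl⟩
    exact ⟨(s, (a, b)), ⟨⟨h0, h1⟩, ha, hb⟩, rfl⟩
  · rintro ⟨⟨s, a, b⟩, ⟨⟨h0, h1⟩, ha, hb⟩, rfl⟩
    exact ⟨s, h0, h1, a, ha, b, hb, rfl⟩

/-- Joins are determined by their covariogram. -/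
theorem Join.determined_by_cov {K F G : Set V} {l : V →ₗ[ℝ] ℝ} {m : ℝ} (J : Join K F G l m)
    (hK : Convex ℝ K) (hi : (interior K).Nonempty) {H : Set V} (hH : Convex ℝ H)
    (hc : IsCompact H) (h : ∀ x, cov μ H x = cov μ K x) :
    (∃ c : V, ∀ x, x ∈ H ↔ x - c ∈ K) ∨ (∃ c : V, ∀ x, x ∈ H ↔ x - c ∈ -K) := by
  have hvol : μ H = μ K := by
    have := h 0
    simpa [cov] using this
  have hKpos : 0 < μ K :=
    (isOpen_interior.measure_pos μ hi).trans_le (measure_mono interior_subset)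
  have hiH : (interior H).Nonempty := interior_of_measure_pos μ hH (by rw [hvol]; exact hKpos.ne')
  have hD : ∀ x, Diff K x ↔ Diff H x := fun x =>
    ⟨diff_of_cov μ hK hi hc h x, diff_of_cov μ hH hiH J.compact (fun x => (h x).symm) x⟩
  have hne : H.Nonempty := hiH.mono interior_subset
  have hlc : Continuous l := LinearMap.continuous_of_finiteDimensional l
  obtain ⟨xt, hxt, hmax⟩ := hc.exists_isMaxOn hne hlc.continuousOn
  obtain ⟨xb, hxb, hmin⟩ := hc.exists_isMinOn hne hlc.continuousOn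
  have hmax' : ∀ x ∈ H, l x ≤ l xt := fun x hx => hmax hx
  have hmin' : ∀ x ∈ H, l xb ≤ l x := fun x hx => hmin hx
  obtain ⟨f₀, hf₀⟩ := J.neF
  obtain ⟨g₀, hg₀⟩ := J.neG
  have hgap : l xt = l xb + 1 := by
    apply le_antisymm
    · obtain ⟨a, ha, b, hb, hab⟩ := (hD (xt - xb)).2 ⟨xt, hxt, xb, hxb, rfl⟩
      have h1 := congrArg l hab
      rw [map_sub, map_sub] at h1
      have h2 := J.le_height ha
      have h3 := J.le_height hb
      linarith
    · obtain ⟨a, ha, b, hb, hab⟩ := (hD (f₀ - g₀)).1 (J.sub_mem_diff hf₀ hg₀)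
      have h1 := congrArg l hab
      rw [J.l_sub hf₀ hg₀, map_sub] at h1
      have h2 := hmax' a ha
      have h3 := hmin' b hb
      linarith
  -- elements of F - G as differences of faces of H
  have hface : ∀ a ∈ F, ∀ b ∈ G, ∃ x ∈ {x ∈ H | l x = l xb + 1}, ∃ y ∈ {x ∈ H | l x = l xb},
      a - b = x - y := by
    intro a ha b hb
    obtain ⟨x, hx, y, hy, hxy⟩ := (hD (a - b)).1 (J.sub_mem_diff ha hb)
    have h1 := congrArg l hxy
    rw [J.l_sub ha hb, map_sub] at h1
    have h2 := hmax' x hx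
    have h3 := hmin' y hy
    exact ⟨x, ⟨hx, by linarith⟩, y, ⟨hy, by linarith⟩, hxy⟩
  have J' := join_of_lin hH hc l (m := l xb) hmin' (fun x hx => hgap ▸ hmax' x hx)
    ⟨xt, hxt, hgap⟩ ⟨xb, hxb, rfl⟩ ?_ ?_
  · exact J.determined J' hD
  · intro f hf g hg hlf hlg
    have h1 : l (f - g) = 1 := by rw [map_sub, hlf, hlg]; ring
    obtain ⟨a, ha, b, hb, hab⟩ := J.diff_one ((hD _).2 ⟨f, hf, g, hg, rfl⟩) h1
    apply lin_of_cov μ hH hc hiH hf hg
    intro k h0 h1
    rw [h, hab, cov_of_lin μ hK (J.F_sub ha) (J.G_sub hb) (J.lin ha hb) h0 h1, hvol]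
  · rw [← J.sup]
    apply sup_le
    · rw [vectorSpan_def, Submodule.span_le]
      rintro _ ⟨x, hx, y, hy, rfl⟩
      obtain ⟨x1, hx1, y1, hy1, e1⟩ := hface x hx g₀ hg₀
      obtain ⟨x2, hx2, y2, hy2, e2⟩ := hface y hy g₀ hg₀
      have : x -ᵥ y = (x1 - x2) + (y2 - y1) := by
        rw [vsub_eq_sub]
        have : x - y = (x - g₀) - (y - g₀) := by abel
        rw [this, e1, e2]
        abel
      rw [SetLike.mem_coe]
      show x -ᵥ y ∈ _
      rw [this]
      exact add_mem (Submodule.mem_sup_left (vsub_mem_vectorSpan ℝ hx1 hx2))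
        (Submodule.mem_sup_right (vsub_mem_vectorSpan ℝ hy2 hy1))
    · rw [vectorSpan_def, Submodule.span_le]
      rintro _ ⟨x, hx, y, hy, rfl⟩
      obtain ⟨x1, hx1, y1, hy1, e1⟩ := hface f₀ hf₀ x hx
      obtain ⟨x2, hx2, y2, hy2, e2⟩ := hface f₀ hf₀ y hy
      have : x -ᵥ y = (x2 - x1) + (y1 - y2) := by
        rw [vsub_eq_sub]
        have : x - y = (f₀ - y) - (f₀ - x) := by abel
        rw [this, e1, e2]
        abel
      rw [SetLike.mem_coe]
      show x -ᵥ y ∈ _
      rw [this]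
      exact add_mem (Submodule.mem_sup_left (vsub_mem_vectorSpan ℝ hx2 hx1))
        (Submodule.mem_sup_right (vsub_mem_vectorSpan ℝ hy1 hy2))

end measure

/-- Complementary dimensions give a join. -/
theorem join_of_dim [FiniteDimensional ℝ V] {F G : Set V} (hF : Convex ℝ F) (hFc : IsCompact F)
    (hFn : F.Nonempty) (hG : Convex ℝ G) (hGc : IsCompact G) (hGn : G.Nonempty)
    (hdim : finrank ℝ (vectorSpan ℝ F) + finrank ℝ (vectorSpan ℝ G) + 1 = finrank ℝ V)
    (hi : (interior (convexHull ℝ (F ∪ G))).Nonempty) :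
    ∃ (l : V →ₗ[ℝ] ℝ) (m : ℝ), Join (convexHull ℝ (F ∪ G)) F G l m := by
  obtain ⟨f₀, hf₀⟩ := hFn
  obtain ⟨g₀, hg₀⟩ := hGn
  set W := vectorSpan ℝ F ⊔ vectorSpan ℝ G with hW
  have htop : W ⊔ Submodule.span ℝ {f₀ - g₀} = ⊤ := by
    have h1 : vectorSpan ℝ (F ∪ G) = ⊤ := by
      rw [← direction_affineSpan, affineSpan_eq_top_of_nonempty_interior hi,
        AffineSubspace.direction_top]
    rw [eq_top_iff, ← h1, vectorSpan_def, Submodule.span_le]
    have hu : f₀ - g₀ ∈ W ⊔ Submodule.span ℝ {f₀ - g₀} :=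
      Submodule.mem_sup_right (Submodule.mem_span_singleton_self _)
    have hFF : ∀ x ∈ F, ∀ y ∈ F, x - y ∈ W ⊔ Submodule.span ℝ {f₀ - g₀} := fun x hx y hy =>
      Submodule.mem_sup_left (Submodule.mem_sup_left (vsub_mem_vectorSpan ℝ hx hy))
    have hGG : ∀ x ∈ G, ∀ y ∈ G, x - y ∈ W ⊔ Submodule.span ℝ {f₀ - g₀} := fun x hx y hy =>
      Submodule.mem_sup_left (Submodule.mem_sup_right (vsub_mem_vectorSpan ℝ hx hy))
    have hall : ∀ x ∈ F ∪ G, x - g₀ ∈ W ⊔ Submodule.span ℝ {f₀ - g₀} := by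
      rintro x (hx | hx)
      · have := add_mem (hFF x hx f₀ hf₀) hu
        rwa [sub_add_sub_cancel] at this
      · exact hGG x hx g₀ hg₀
    rintro _ ⟨x, hx, y, hy, rfl⟩
    rw [SetLike.mem_coe]
    show x - y ∈ _
    have := sub_mem (hall x hx) (hall y hy)
    rwa [sub_sub_sub_cancel_right] at this
  have hd1 : finrank ℝ V ≤ finrank ℝ W + 1 := by
    have h1 := Submodule.finrank_add_le_finrank_add_finrank W (Submodule.span ℝ {f₀ - g₀})
    rw [htop, finrank_top] at h1
    have h2 : finrank ℝ (Submodule.span ℝ {f₀ - g₀}) ≤ 1 := by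
      have := finrank_span_le_card (R := ℝ) ({f₀ - g₀} : Set V)
      simpa using this
    omega
  have hd2 := Submodule.finrank_sup_add_finrank_inf_eq (vectorSpan ℝ F) (vectorSpan ℝ G)
  rw [← hW] at hd2
  have hinf : finrank ℝ (vectorSpan ℝ F ⊓ vectorSpan ℝ G : Submodule ℝ V) = 0 := by omega
  have hdisj : Disjoint (vectorSpan ℝ F) (vectorSpan ℝ G) := by
    rw [disjoint_iff]
    exact Submodule.finrank_eq_zero.1 hinf
  have hnot : f₀ - g₀ ∉ W := by
    intro hmem
    have h1 : W = ⊤ := by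
      rw [← htop]
      apply (sup_eq_left.2 _).symm
      rw [Submodule.span_le]
      simpa using hmem
    have h2 : finrank ℝ W = finrank ℝ V := by rw [h1, finrank_top]
    omega
  obtain ⟨l, hl0, hl1⟩ := LinearMap.exists_extend_of_notMem (0 : W →ₗ[ℝ] ℝ) hnot 1
  have hlW : ∀ x ∈ W, l x = 0 := fun x hx => by
    have := LinearMap.congr_fun hl0 ⟨x, hx⟩
    simpa using this
  have hker : W = LinearMap.ker l := by
    apply le_antisymm (fun x hx => hlW x hx)
    intro x hx
    obtain ⟨w, hw, u, hu, rfl⟩ := Submodule.mem_sup.1 (htop ▸ Submodule.mem_top : x ∈ W ⊔ _)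
    obtain ⟨c, rfl⟩ := Submodule.mem_span_singleton.1 hu
    rw [LinearMap.mem_ker, map_add, hlW w hw, map_smul, hl1, zero_add, smul_eq_mul, mul_one] at hx
    rw [hx, zero_smul, add_zero]
    exact hw
  refine ⟨l, l g₀, hF, hG, hFc, hGc, ⟨f₀, hf₀⟩, ⟨g₀, hg₀⟩, ?_, ?_, hdisj, hker, ?_⟩
  · intro x hx
    have h1 := hlW (x - f₀) (Submodule.mem_sup_left (vsub_mem_vectorSpan ℝ hx hf₀))
    rw [map_sub] at h1 hl1
    linarith
  · intro x hx
    have h1 := hlW (x - g₀) (Submodule.mem_sup_right (vsub_mem_vectorSpan ℝ hx hg₀))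
    rw [map_sub] at h1
    linarith
  · intro x
    rw [hF.convexHull_union hG ⟨f₀, hf₀⟩ ⟨g₀, hg₀⟩, mem_convexJoin]
    constructor
    · rintro ⟨a, ha, b, hb, s, t, hs, ht, hst, rfl⟩
      exact ⟨s, hs, by linarith, a, ha, b, hb, by rw [← hst]; simp⟩
    · rintro ⟨s, h0, h1, a, ha, b, hb, rfl⟩
      exact ⟨a, ha, b, hb, s, 1 - s, h0, by linarith, by ring, rfl⟩

end Pool.MP_177351_gt
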