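import Pool.Agent.Work.MP_177351_gt.Wrap

/-!
# Moments of factors
-/

set_option autoImplicit false

open MeasureTheory MvPolynomial Set Filter Topology
open scoped Pointwise Matrix

namespace Pool.Agent.Covg

theorem eval_mom {n : ℕ} (i : ℕ) (P : EA n) (z : Vec n) :
    eval z (mom i P) = ∑ a ∈ P.coeff.support, eval z (P.coeff a) * (a ⬝ᵥ z) ^ i := by
  unfold mom
  rw [Finsupp.sum, map_sum]
  refine Finset.sum_congr rfl fun a _ => ?_
  rw [map_mul, map_pow, eval_lin']

theorem exists_mom_ne {n : ℕ} {P : EA n} (hP : P ≠ 0) : ∃ i, mom i P ≠ 0 := by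
  classical
  by_contra hcon
  push Not at hcon
  obtain ⟨a₀, ha₀⟩ := ne_zero_iff_support.1 hP
  -- a point where `P.coeff a₀` does not vanish and the exponents are separated
  have hW : P.coeff a₀ * ∏ b ∈ P.coeff.support.erase a₀, lin (a₀ - b) ≠ 0 := by
    apply mul_ne_zero (Finsupp.mem_support_iff.1 ha₀)
    apply Finset.prod_ne_zero_iff.2
    intro b hb
    exact lin_ne (sub_ne_zero.2 (Finset.ne_of_mem_erase hb).symm)
  obtain ⟨z, hz⟩ : ∃ z, eval z (P.coeff a₀ * ∏ b ∈ P.coeff.support.erase a₀, lin (a₀ - b)) ≠ 0 := by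
    by_contra h
    push Not at h
    exact hW (MvPolynomial.funext fun z => by rw [h z, map_zero])
  rw [map_mul, map_prod] at hz
  have h1 : eval z (P.coeff a₀) ≠ 0 := left_ne_zero_of_mul hz
  have h2 : ∀ b ∈ P.coeff.support.erase a₀, a₀ ⬝ᵥ z - b ⬝ᵥ z ≠ 0 := by
    intro b hb
    have := Finset.prod_ne_zero_iff.1 (right_ne_zero_of_mul hz) b hb
    rwa [eval_lin', sub_dotProduct] at this
  -- every polynomial in `a ⬝ z` sums to zero
  have h3 : ∀ p : Polynomial ℝ,
      ∑ a ∈ P.coeff.support, eval z (P.coeff a) * p.eval (a ⬝ᵥ z) = 0 := by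
    intro p
    induction p using Polynomial.induction_on' with
    | add p q hp hq =>
      simp only [Polynomial.eval_add, mul_add, Finset.sum_add_distrib, hp, hq, add_zero]
    | monomial i c =>
      have h4 := eval_mom i P z
      rw [hcon i, map_zero] at h4
      simp only [Polynomial.eval_monomial]
      have h5 : ∑ a ∈ P.coeff.support, eval z (P.coeff a) * (c * (a ⬝ᵥ z) ^ i) =
          c * ∑ a ∈ P.coeff.support, eval z (P.coeff a) * (a ⬝ᵥ z) ^ i := by
        rw [Finset.mul_sum]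
        exact Finset.sum_congr rfl fun a _ => by ring
      rw [h5, ← h4, mul_zero]
  have h6 := h3 (∏ b ∈ P.coeff.support.erase a₀, (Polynomial.X - Polynomial.C (b ⬝ᵥ z)))
  rw [← Finset.add_sum_erase _ _ ha₀] at h6
  have h7 : ∑ a ∈ P.coeff.support.erase a₀, eval z (P.coeff a) *
      (∏ b ∈ P.coeff.support.erase a₀, (Polynomial.X - Polynomial.C (b ⬝ᵥ z))).eval (a ⬝ᵥ z) = 0 := by
    apply Finset.sum_eq_zero
    intro a ha
    rw [Polynomial.eval_prod, Finset.prod_eq_zero ha, mul_zero]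
    simp
  rw [h7, add_zero, Polynomial.eval_prod] at h6
  rcases mul_eq_zero.1 h6 with h8 | h8
  · exact h1 h8
  · rw [Finset.prod_eq_zero_iff] at h8
    obtain ⟨b, hb, h9⟩ := h8
    simp only [Polynomial.eval_sub, Polynomial.eval_X, Polynomial.eval_C] at h9
    exact h2 b hb h9

theorem eval_smul_hom' {n d : ℕ} {F : Pol n} (hF : F.IsHomogeneous d) (c : ℝ) (v : Vec n) :
    eval (c • v) F = c ^ d * eval v F := by
  rw [eval_eq', eval_eq', Finset.mul_sum]
  refine Finset.sum_congr rfl fun m hm => ?_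
  have h1 : ∑ i, m i = d := by
    have := hF (mem_support_iff.1 hm)
    rw [← this, Finsupp.weight_apply]
    simp [Finsupp.sum_fintype]
  simp only [Pi.smul_apply, smul_eq_mul, mul_pow, Finset.prod_mul_distrib,
    Finset.prod_pow_eq_pow_sum, h1]
  ring

/-- Scaling of a homogeneous exponential polynomial. -/
theorem ev_smul_hom {n d : ℕ} {P : EA n} (hP : IsHom d P) (z : Vec n) (s : ℝ) :
    ev (s • z) P = s ^ d * ∑ a ∈ P.coeff.support, eval z (P.coeff a) * Real.exp (s * (a ⬝ᵥ z)) := by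
  rw [ev_apply, Finset.mul_sum]
  refine Finset.sum_congr rfl fun a _ => ?_
  have h1 : eval (s • z) (P.coeff a) = s ^ d * eval z (P.coeff a) := eval_smul_hom' (hP a) s z
  rw [h1, dotProduct_smul, smul_eq_mul]
  ring

/-- Lowest order term of an exponential sum. -/
theorem lowLim {ι : Type} (S : Finset ι) (c x : ι → ℝ) {p : ℕ}
    (hp : ∀ i < p, ∑ a ∈ S, c a * x a ^ i = 0) :
    Tendsto (fun s : ℝ => (∑ a ∈ S, c a * Real.exp (s * x a)) / s ^ p) (𝓝[>] 0)
      (𝓝 ((∑ a ∈ S, c a * x a ^ p) / p.factorial)) := by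
  classical
  have h1 : ∀ t : ℝ, (fun s : ℝ => Real.exp (s * t) -
      ∑ i ∈ Finset.range (p + 1), (s * t) ^ i / i.factorial) =o[𝓝 0] fun s : ℝ => s ^ p := by
    intro t
    have h2 := (Real.exp_sub_sum_range_succ_isLittleO_pow p)
    have h3 : Tendsto (fun s : ℝ => s * t) (𝓝 0) (𝓝 0) := by
      have : Tendsto (fun s : ℝ => s * t) (𝓝 0) (𝓝 (0 * t)) := tendsto_id.mul_const t
      rwa [zero_mul] at this
    have h4 := h2.comp_tendsto h3
    refine h4.trans_isBigO ?_
    refine Asymptotics.IsBigO.of_bound (|t| ^ p) (Eventually.of_forall fun s => ?_)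
    simp only [Function.comp, Real.norm_eq_abs, abs_mul, mul_pow, abs_pow]
    rw [mul_comm]
  have h5 : (fun s : ℝ => (∑ a ∈ S, c a * Real.exp (s * x a)) -
      s ^ p * ((∑ a ∈ S, c a * x a ^ p) / p.factorial)) =o[𝓝 0] fun s : ℝ => s ^ p := by
    have h6 : (fun s : ℝ => (∑ a ∈ S, c a * Real.exp (s * x a)) -
        s ^ p * ((∑ a ∈ S, c a * x a ^ p) / p.factorial)) =
        fun s : ℝ => ∑ a ∈ S, c a * (Real.exp (s * x a) -
          ∑ i ∈ Finset.range (p + 1), (s * x a) ^ i / i.factorial) := by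
      funext s
      simp only [mul_sub, Finset.sum_sub_distrib]
      congr 1
      have h7 : ∀ a ∈ S, c a * ∑ i ∈ Finset.range (p + 1), (s * x a) ^ i / (i.factorial : ℝ) =
          ∑ i ∈ Finset.range (p + 1), s ^ i / (i.factorial : ℝ) * (c a * x a ^ i) := by
        intro a _
        rw [Finset.mul_sum]
        refine Finset.sum_congr rfl fun i _ => ?_
        rw [mul_pow]; ring
      have h8 : ∑ i ∈ Finset.range p, ∑ a ∈ S, s ^ i / (i.factorial : ℝ) * (c a * x a ^ i) = 0 := by
        refine Finset.sum_eq_zero fun i hi => ?_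
        rw [← Finset.mul_sum, hp i (Finset.mem_range.1 hi), mul_zero]
      rw [Finset.sum_congr rfl h7, Finset.sum_comm, Finset.sum_range_succ, h8, zero_add,
        ← Finset.mul_sum]
      ring
    rw [h6]
    apply Asymptotics.IsLittleO.fun_sum
    intro a _
    exact (h1 (x a)).const_mul_left _
  have h8 := (h5.tendsto_div_nhds_zero).mono_left (nhdsWithin_le_nhds (s := Ioi (0 : ℝ)))
  have h9 := h8.add_const ((∑ a ∈ S, c a * x a ^ p) / p.factorial)
  rw [zero_add] at h9
  refine h9.congr' ?_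
  filter_upwards [self_mem_nhdsWithin] with s hs
  have hs' : s ^ p ≠ 0 := pow_ne_zero _ (ne_of_gt hs)
  field_simp
  ring

/-- An exponential sum which is `s ^ n * g s`. -/
theorem oneD {ι : Type} (S : Finset ι) (c x : ι → ℝ) (n : ℕ) {g : ℝ → ℝ} {L : ℝ}
    (hg : Tendsto g (𝓝[>] 0) (𝓝 L))
    (h : ∀ᶠ s in 𝓝[>] (0 : ℝ), ∑ a ∈ S, c a * Real.exp (s * x a) = s ^ n * g s) :
    (∑ a ∈ S, c a * x a ^ n) / n.factorial = L := by
  have hpow0 : ∀ k : ℕ, 0 < k → Tendsto (fun s : ℝ => s ^ k) (𝓝[>] 0) (𝓝 0) := by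
    intro k hk
    have h1 : Tendsto (fun s : ℝ => s ^ k) (𝓝 0) (𝓝 (0 ^ k)) := (continuous_pow k).tendsto 0
    rw [zero_pow hk.ne'] at h1
    exact h1.mono_left nhdsWithin_le_nhds
  have key : ∀ k ≤ n, ∀ i < k, ∑ a ∈ S, c a * x a ^ i = 0 := by
    intro k
    induction k with
    | zero => intro _ i hi; exact absurd hi (Nat.not_lt_zero _)
    | succ k ih =>
      intro hk i hi
      rcases Nat.lt_succ_iff_lt_or_eq.1 hi with h1 | h1
      · exact ih (by omega) i h1
      · rw [h1]
        have h2 := lowLim S c x (ih (by omega))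
        have h3 : Tendsto (fun s : ℝ => (∑ a ∈ S, c a * Real.exp (s * x a)) / s ^ k) (𝓝[>] 0)
            (𝓝 0) := by
          have h4 := (hpow0 (n - k) (by omega)).mul hg
          rw [zero_mul] at h4
          refine h4.congr' ?_
          filter_upwards [h, self_mem_nhdsWithin] with s hs hs0
          have hs' : s ≠ 0 := ne_of_gt hs0
          rw [hs]
          have h5 : s ^ n = s ^ (n - k) * s ^ k := by rw [← pow_add]; congr 1; omega
          rw [h5]
          field_simp
        have h6 := tendsto_nhds_unique h2 h3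
        rcases div_eq_zero_iff.1 h6 with h7 | h7
        · exact h7
        · exact absurd h7 (Nat.cast_ne_zero.2 (Nat.factorial_ne_zero _))
  have h1 := lowLim S c x (key n le_rfl)
  have h2 : Tendsto (fun s : ℝ => (∑ a ∈ S, c a * Real.exp (s * x a)) / s ^ n) (𝓝[>] 0) (𝓝 L) := by
    refine hg.congr' ?_
    filter_upwards [h, self_mem_nhdsWithin] with s hs hs0
    have hs' : s ≠ 0 := ne_of_gt hs0
    rw [hs]
    field_simp
  exact tendsto_nhds_unique h1 h2

/-- Lowest order term at the origin. -/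
theorem tendsto_low {n p : ℕ} {P : EA n} (hp : ∀ i < p, mom i P = 0) (z : Vec n) :
    Tendsto (fun s : ℝ => (∑ a ∈ P.coeff.support, eval z (P.coeff a) * Real.exp (s * (a ⬝ᵥ z))) /
      s ^ p) (𝓝[>] 0) (𝓝 (eval z (mom p P) / p.factorial)) := by
  rw [eval_mom]
  exact lowLim _ _ _ fun i hi => by rw [← eval_mom, hp i hi, map_zero]

theorem mom_add {n : ℕ} {K : Set (Vec n)} {P Q : EA n} (h : FP K P Q) {p q : ℕ}
    (hp : ∀ i < p, mom i P = 0) (hp' : mom p P ≠ 0) (hq : ∀ i < q, mom i Q = 0)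
    (hq' : mom q Q ≠ 0) : p + q = n := by
  classical
  obtain ⟨C, hT⟩ := h.tr
  obtain ⟨dP, hdP⟩ := h.homP
  obtain ⟨dQ, hdQ⟩ := h.homQ
  obtain ⟨d, hC, hR⟩ := hT.hom
  have hR0 : P * Q ≠ 0 := by
    intro h0
    apply hT.ne
    apply MvPolynomial.funext
    intro z
    have h1 := hT.eq z
    rw [h0, map_zero] at h1
    rw [map_zero]
    exact (mul_eq_zero.1 h1.symm).resolve_right (lap_pos h.body z).ne'
  have hd : d = dP + dQ := by
    obtain ⟨a, ha⟩ := ne_zero_iff_support.1 hR0
    exact (hR a).inj_right (isHom_mul hdP hdQ a) (Finsupp.mem_support_iff.1 ha)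
  have hW : mom p P * mom q Q * C ≠ 0 := mul_ne_zero (mul_ne_zero hp' hq') hT.ne
  obtain ⟨z, hz⟩ : ∃ z, eval z (mom p P * mom q Q * C) ≠ 0 := by
    by_contra h
    push Not at h
    exact hW (MvPolynomial.funext fun z => by rw [h z, map_zero])
  rw [map_mul, map_mul] at hz
  have hzP : eval z (mom p P) ≠ 0 := left_ne_zero_of_mul (left_ne_zero_of_mul hz)
  have hzQ : eval z (mom q Q) ≠ 0 := right_ne_zero_of_mul (left_ne_zero_of_mul hz)
  have hzC : eval z C ≠ 0 := right_ne_zero_of_mul hz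
  set f : ℝ → ℝ := fun s => ∑ a ∈ P.coeff.support, eval z (P.coeff a) * Real.exp (s * (a ⬝ᵥ z))
    with hf
  set g : ℝ → ℝ := fun s => ∑ a ∈ Q.coeff.support, eval z (Q.coeff a) * Real.exp (s * (a ⬝ᵥ z))
    with hg
  have key : ∀ s : ℝ, s ≠ 0 → f s * g s = s ^ n * (eval z C * lap K (s • z)) := by
    intro s hs
    have h1 := hT.eq (s • z)
    rw [map_mul, ev_smul_hom hdP, ev_smul_hom hdQ] at h1
    have h2 : eval (s • z) C = s ^ (d + n) * eval z C := eval_smul_hom' hC s z
    rw [h2, hd] at h1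
    have h3 : s ^ (dP + dQ) ≠ 0 := pow_ne_zero _ hs
    apply mul_left_cancel₀ h3
    calc s ^ (dP + dQ) * (f s * g s) = s ^ dP * f s * (s ^ dQ * g s) := by rw [pow_add]; ring
      _ = s ^ (dP + dQ + n) * eval z C * lap K (s • z) := h1
      _ = s ^ (dP + dQ) * (s ^ n * (eval z C * lap K (s • z))) := by rw [pow_add]; ring
  have hlim := (tendsto_low hp z).mul (tendsto_low hq z)
  have hlap : Tendsto (fun s : ℝ => eval z C * lap K (s • z)) (𝓝[>] 0)
      (𝓝 (eval z C * lap K 0)) := by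
    apply Tendsto.const_mul
    have h1 : Tendsto (fun s : ℝ => lap K (s • z)) (𝓝 0) (𝓝 (lap K ((0 : ℝ) • z))) :=
      ((continuous_lap h.body.comp).comp (continuous_id.smul continuous_const)).tendsto 0
    rw [zero_smul] at h1
    exact h1.mono_left nhdsWithin_le_nhds
  have hlap0 : eval z C * lap K 0 ≠ 0 := mul_ne_zero hzC (lap_pos h.body 0).ne'
  have hPQ0 : eval z (mom p P) / p.factorial * (eval z (mom q Q) / q.factorial) ≠ 0 := by
    apply mul_ne_zero <;> apply div_ne_zero <;>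
      first | assumption | exact Nat.cast_ne_zero.2 (Nat.factorial_ne_zero _)
  -- compare powers
  have hpow0 : ∀ k : ℕ, 0 < k → Tendsto (fun s : ℝ => s ^ k) (𝓝[>] 0) (𝓝 0) := by
    intro k hk
    have h1 : Tendsto (fun s : ℝ => s ^ k) (𝓝 0) (𝓝 (0 ^ k)) := (continuous_pow k).tendsto 0
    rw [zero_pow hk.ne'] at h1
    exact h1.mono_left nhdsWithin_le_nhds
  rcases lt_trichotomy (p + q) n with hlt | heq | hgt
  · exfalso
    have h1 : Tendsto (fun s : ℝ => f s / s ^ p * (g s / s ^ q)) (𝓝[>] 0) (𝓝 0) := by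
      have h2 := (hpow0 (n - (p + q)) (by omega)).mul hlap
      rw [zero_mul] at h2
      refine h2.congr' ?_
      filter_upwards [self_mem_nhdsWithin] with s hs
      have hs' : s ≠ 0 := ne_of_gt hs
      have h3 := key s hs'
      have h4 : s ^ n = s ^ (n - (p + q)) * (s ^ p * s ^ q) := by
        rw [← pow_add, ← pow_add]; congr 1; omega
      rw [div_mul_div_comm, h3, h4]
      field_simp
    exact hPQ0 (tendsto_nhds_unique hlim h1)
  · exact heq
  · exfalso
    have h1 : Tendsto (fun s : ℝ => eval z C * lap K (s • z)) (𝓝[>] 0) (𝓝 0) := by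
      have h2 := (hpow0 (p + q - n) (by omega)).mul hlim
      rw [zero_mul] at h2
      refine h2.congr' ?_
      filter_upwards [self_mem_nhdsWithin] with s hs
      have hs' : s ≠ 0 := ne_of_gt hs
      have h3 := key s hs'
      have h4 : s ^ p * s ^ q = s ^ (p + q - n) * s ^ n := by
        rw [← pow_add, ← pow_add]; congr 1; omega
      rw [div_mul_div_comm]
      change s ^ (p + q - n) * (f s * g s / (s ^ p * s ^ q)) = _
      rw [h3, h4]
      field_simp
    exact hlap0 (tendsto_nhds_unique hlap h1)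

end Pool.Agent.Covg
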