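import Pool.Agent.Work.MP_177351_gt.Facet
import Pool.Agent.Work.MP_177351_gt.Mom

/-!
# Case I: a factor which is a monomial on a facet has a nonzero moment of order at most one
-/

set_option autoImplicit false

open MeasureTheory MvPolynomial Set Filter Topology
open scoped Pointwise Matrix

namespace Pool.Agent.Covg

namespace CaseIAux

open FacetAux TransAux

variable {n : ℕ}

/-- evaluation at the exponents `(t, z)` with coefficients at `z` -/
noncomputable def evt (t : ℝ) (z : Vec n) : AddMonoidAlgebra (Pol n) (Vec (n + 1)) →+* ℝ :=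
  AddMonoidAlgebra.liftNCRingHom (MvPolynomial.eval z) (chr (Fin.cons t z : Vec (n + 1)))
    (fun _ _ => Commute.all _ _)

theorem evt_single (t : ℝ) (z : Vec n) (a : Vec (n + 1)) (p : Pol n) :
    evt t z (AddMonoidAlgebra.single a p) =
      eval z p * Real.exp (a ⬝ᵥ (Fin.cons t z : Vec (n + 1))) := by
  unfold evt
  exact AddMonoidAlgebra.liftNC_single _ _ _ _

theorem dot_cons (a : Vec (n + 1)) (t : ℝ) (z : Vec n) :
    a ⬝ᵥ (Fin.cons t z : Vec (n + 1)) = a 0 * t + Fin.tail a ⬝ᵥ z := by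
  simp [dotProduct, Fin.sum_univ_succ, Fin.tail]

theorem evt_tp (d : ℕ) (P : EA (n + 1)) (t : ℝ) (z : Vec n) :
    evt t z (tp d P) = ∑ a ∈ P.coeff.support,
      eval z (cf n d (P.coeff a)) * Real.exp (a 0 * t + Fin.tail a ⬝ᵥ z) := by
  rw [tp_eq, map_sum]
  refine Finset.sum_congr rfl fun a _ => ?_
  rw [evt_single, dot_cons]

theorem lin_succ (b : Vec (n + 1)) : finSuccEquiv ℝ n (lin b) =
    Polynomial.C (C (b 0)) * Polynomial.X + Polynomial.C (lin (Fin.tail b)) := by
  unfold lin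
  rw [Fin.sum_univ_succ, map_add, map_mul, map_sum, map_sum, finSuccEquiv_X_zero]
  congr 1
  · rw [finSuccEquiv_apply, eval₂Hom_C]; rfl
  · refine Finset.sum_congr rfl fun i _ => ?_
    rw [map_mul, map_mul, finSuccEquiv_X_succ]
    congr 1
    rw [finSuccEquiv_apply, eval₂Hom_C]; rfl

theorem lin_natDegree (b : Vec (n + 1)) : (finSuccEquiv ℝ n (lin b)).natDegree ≤ 1 := by
  rw [lin_succ]
  exact Polynomial.natDegree_linear_le

theorem cf_lin (b : Vec (n + 1)) : cf n 1 (lin b) = C (b 0) := by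
  rw [cf_apply, lin_succ]
  simp

theorem cf_mom0 (d : ℕ) (Q : EA (n + 1)) :
    cf n d (mom 0 Q) = ∑ b ∈ Q.coeff.support, cf n d (Q.coeff b) := by
  unfold mom
  rw [Finsupp.sum, map_sum]
  refine Finset.sum_congr rfl fun b _ => ?_
  rw [pow_zero, mul_one]

theorem cf_mom1 {d : ℕ} {Q : EA (n + 1)} (hQ : ∀ a, (finSuccEquiv ℝ n (Q.coeff a)).natDegree ≤ d) :
    cf n (d + 1) (mom 1 Q) = ∑ b ∈ Q.coeff.support, cf n d (Q.coeff b) * C (b 0) := by
  unfold mom
  rw [Finsupp.sum, map_sum]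
  refine Finset.sum_congr rfl fun b _ => ?_
  rw [pow_one, cf_mul (hQ b) (lin_natDegree b), cf_lin]

/-- a nontrivial exponential sum with a single top exponent does not vanish near 0 -/
theorem exp_sum_ne {ι : Type} (S : Finset ι) (q y : ι → ℝ) {b₀ : ι} (hb₀ : b₀ ∈ S)
    (hq : q b₀ ≠ 0) (hlt : ∀ b ∈ S, b ≠ b₀ → y b < y b₀) :
    ∀ᶠ t in 𝓝[≠] (0 : ℝ), ∑ b ∈ S, q b * Real.exp (y b * t) ≠ 0 := by
  classical
  have han : AnalyticOnNhd ℝ (fun t : ℝ => ∑ b ∈ S, q b * Real.exp (y b * t)) univ := by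
    intro t _
    fun_prop
  rcases (han 0 (mem_univ _)).eventually_eq_zero_or_eventually_ne_zero with h | h
  · exfalso
    have h0 : (fun t : ℝ => ∑ b ∈ S, q b * Real.exp (y b * t)) = fun _ => 0 :=
      han.eq_of_eventuallyEq (fun t _ => analyticAt_const) h
    have h1 : ∀ t : ℝ, ∑ b ∈ S, q b * Real.exp ((y b - y b₀) * t) = 0 := by
      intro t
      have h2 : ∑ b ∈ S, q b * Real.exp (y b * t) = 0 := congrFun h0 t
      have h3 : ∑ b ∈ S, q b * Real.exp ((y b - y b₀) * t) =
          (∑ b ∈ S, q b * Real.exp (y b * t)) * Real.exp (-(y b₀ * t)) := by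
        rw [Finset.sum_mul]
        refine Finset.sum_congr rfl fun b _ => ?_
        rw [mul_assoc, ← Real.exp_add]
        congr 2; ring
      rw [h3, h2, zero_mul]
    have h4 : Tendsto (fun t : ℝ => ∑ b ∈ S, q b * Real.exp ((y b - y b₀) * t)) atTop
        (𝓝 (∑ b ∈ S, if b = b₀ then q b else 0)) := by
      refine tendsto_finsetSum _ fun b hb => ?_
      by_cases hbb : b = b₀
      · rw [if_pos hbb, hbb]
        simp
      · rw [if_neg hbb]
        have h5 : Tendsto (fun t : ℝ => (y b - y b₀) * t) atTop atBot :=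
          tendsto_id.const_mul_atTop_of_neg (by linarith [hlt b hb hbb])
        have h6 := (Real.tendsto_exp_atBot.comp h5).const_mul (q b)
        rw [mul_zero] at h6
        exact h6
    simp only [h1] at h4
    have h7 := tendsto_nhds_unique h4 tendsto_const_nhds
    rw [Finset.sum_ite_eq' S b₀ q, if_pos hb₀] at h7
    exact hq h7
  · exact h

theorem caseI0 {K : Set (Vec (n + 1))} {P Q : EA (n + 1)} (h : FP K P Q)
    (hdim : Module.finrank ℝ (vs (lead (e0 n) (P * Q))) = n) (hQm : Mono (lead (e0 n) Q)) :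
    mom 0 Q ≠ 0 ∨ mom 1 Q ≠ 0 := by
  classical
  by_contra hcon
  push Not at hcon
  obtain ⟨hm0, hm1⟩ := hcon
  obtain ⟨C₀, hT⟩ := h.tr
  have hR := fp_ne h
  have hP0 : P ≠ 0 := left_ne_zero_of_mul hR
  have hQ0 : Q ≠ 0 := right_ne_zero_of_mul hR
  have hNR : Nw (P * Q) = K := Nw_eq h.body hT
  have hsum : Nw P + Nw Q = K := by rw [← Nw_mul hP0 hQ0, hNR]
  have hne : K.Nonempty := h.body.int.mono interior_subset
  obtain ⟨xh, hxh, hmax⟩ := h.body.comp.exists_isMaxOn hne (f := fun x : Vec (n + 1) => x 0)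
    (continuous_apply 0).continuousOn
  obtain ⟨xl, hxl, hmin⟩ := h.body.comp.exists_isMinOn hne (f := fun x : Vec (n + 1) => x 0)
    (continuous_apply 0).continuousOn
  set hh := xh 0 with hhh
  set hl := xl 0 with hhl
  have h1 : ∀ x ∈ K, x 0 ≤ hh := fun x hx => hmax hx
  have h1' : ∀ x ∈ K, hl ≤ x 0 := fun x hx => hmin hx
  have h2 : ∃ x ∈ K, x 0 = hh := ⟨xh, hxh, rfl⟩
  have h2' : ∃ x ∈ K, x 0 = hl := ⟨xl, hxl, rfl⟩
  have hlt : hl < hh := lt_of_body h.body h1 h1'
  obtain ⟨t1, t2⟩ := top_formula h.body hT h1 h2 h1' h2'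
  set c := (finSuccEquiv ℝ n C₀).natDegree with hc
  set lc := (finSuccEquiv ℝ n C₀).leadingCoeff with hlc
  have hlc0 : lc ≠ 0 := by
    rw [hlc, Polynomial.leadingCoeff_ne_zero, Ne, map_eq_zero_iff _ (finSuccEquiv ℝ n).injective]
    exact hT.ne
  have hface : Nw (lead (e0 n) (P * Q)) = {x ∈ K | x 0 = hh} := by
    rw [Nw_lead_e0 (hh := hh) (by rw [hNR]; exact h1) (by rw [hNR]; exact h2), hNR]
  have hG : Body (slice K hh) :=
    body_slice h.body h2 (by rw [← hface, ← vs_eq]; exact hdim)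
  have hGl : IsCompact (slice K hl) := isCompact_slice_top h.body.comp hl
  obtain ⟨dP, aP, hdP, haP, hmP⟩ := exists_tp hP0
  obtain ⟨dQ, aQ, hdQ, haQ, hmQ⟩ := exists_tp hQ0
  have htpP : tp dP P ≠ 0 := by
    rintro h0; rw [h0] at haP; simp at haP
  have htpQ : tp dQ Q ≠ 0 := by
    rintro h0; rw [h0] at haQ; simp at haQ
  have htpR := tp_mul hdP hdQ
  have hc1 : dP + dQ < c := by
    have h3 : tp (dP + dQ) (P * Q) ≠ 0 := by rw [htpR]; exact mul_ne_zero htpP htpQ
    obtain ⟨v, hv⟩ : ∃ v, (tp (dP + dQ) (P * Q)).coeff v ≠ 0 := by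
      by_contra hcon
      push Not at hcon
      apply h3
      apply AddMonoidAlgebra.coeff_injective
      ext1 v
      rw [hcon v]; rfl
    rw [tp_coeff, cf_apply] at hv
    exact (Polynomial.le_natDegree_of_ne_zero hv).trans_lt (t1 v)
  obtain ⟨z0, hz0⟩ : ∃ z0 : Vec n, eval z0 lc ≠ 0 := by
    by_contra hcon
    push Not at hcon
    exact hlc0 (MvPolynomial.funext fun z => by rw [hcon z, map_zero])
  obtain ⟨v, hv1, hv2, hv3⟩ : ∃ v ∈ (P * Q).coeff.support, v 0 = hh ∧
      (finSuccEquiv ℝ n ((P * Q).coeff v)).coeff (c - 1) ≠ 0 := by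
    have h3 := t2 hh z0
    rw [if_pos rfl, if_neg hlt.ne', sub_zero] at h3
    have h4 := mul_ne_zero hz0 (lap_pos hG z0).ne'
    rw [← h3] at h4
    obtain ⟨v, hv, hv'⟩ := Finset.exists_ne_zero_of_sum_ne_zero h4
    rw [Finset.mem_filter] at hv
    refine ⟨v, hv.1, hv.2, fun h0 => hv' ?_⟩
    rw [h0, map_zero, zero_mul]
  have hc2 : c - 1 ≤ dP + dQ :=
    (Polynomial.le_natDegree_of_ne_zero hv3).trans (natDegree_mul_le hdP hdQ v)
  have hc3 : c - 1 = dP + dQ := by omega
  have hle : hh ≤ aP 0 + aQ 0 := by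
    have h3 : v ∈ (tp dP P * tp dQ Q).coeff.support := by
      rw [← htpR, Finsupp.mem_support_iff, tp_coeff, cf_apply, ← hc3]
      exact hv3
    have h4 := AddMonoidAlgebra.support_coeff_mul_subset _ _ h3
    obtain ⟨a, ha, b, hb, hab⟩ := Finset.mem_add.1 h4
    rw [← hv2, ← hab]
    exact add_le_add (hmP a ha) (hmQ b hb)
  have hmemP := mem_supp_of_tp haP
  have hmemQ := mem_supp_of_tp haQ
  have hinP : ∀ a ∈ P.coeff.support, a ∈ Nw P := fun a ha =>
    subset_convexHull ℝ _ (Finset.mem_coe.2 ha)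
  have hinQ : ∀ a ∈ Q.coeff.support, a ∈ Nw Q := fun a ha =>
    subset_convexHull ℝ _ (Finset.mem_coe.2 ha)
  have hQb : ∀ a ∈ Q.coeff.support, a 0 ≤ aQ 0 := by
    intro a ha
    have h3 : aP + a ∈ K := by rw [← hsum]; exact add_mem_add (hinP _ hmemP) (hinQ _ ha)
    have h4 : (aP + a) 0 ≤ hh := h1 _ h3
    rw [Pi.add_apply] at h4
    linarith
  -- the top exponent of `Q` is unique
  have hQlt : ∀ b ∈ Q.coeff.support, b ≠ aQ → b 0 < aQ 0 := by
    intro b hb hbne
    apply lt_of_le_of_ne (hQb b hb)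
    intro h0
    apply hbne
    apply hQm
    · rw [Finset.mem_coe, mem_support_lead]
      refine ⟨hb, fun b' hb' => ?_⟩
      rw [dot_e0, dot_e0, h0]; exact hQb b' hb'
    · rw [Finset.mem_coe, mem_support_lead]
      refine ⟨hmemQ, fun b' hb' => ?_⟩
      rw [dot_e0, dot_e0]; exact hQb b' hb'
  -- homogeneity
  obtain ⟨DP, hDP⟩ := h.homP
  obtain ⟨DQ, hDQ⟩ := h.homQ
  obtain ⟨D, hCD, hRD⟩ := hT.hom
  have hD : D = DP + DQ := by
    have h3 := isHom_mul hDP hDQ
    have h4 : (P * Q).coeff v ≠ 0 := Finsupp.mem_support_iff.1 hv1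
    exact (hRD v).inj_right (h3 v) h4
  have hdD : ∀ {d D : ℕ} {P : EA (n + 1)} {a : Vec (n + 1)}, a ∈ (tp d P).coeff.support →
      IsHom D P → d ≤ D := by
    intro d D P a ha hP
    rw [Finsupp.mem_support_iff, tp_coeff, cf_apply] at ha
    have h3 := Polynomial.le_natDegree_of_ne_zero ha
    rw [natDegree_finSuccEquiv] at h3
    exact h3.trans ((degreeOf_le_totalDegree _ _).trans (hP a).totalDegree_le)
  have hdP' := hdD haP hDP
  have hdQ' := hdD haQ hDQ
  have hcfP : ∀ a, (cf n dP (P.coeff a)).IsHomogeneous (DP - dP) := fun a =>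
    (hDP a).finSuccEquiv_coeff_isHomogeneous dP (DP - dP) (by omega)
  have hcfQ : ∀ a, (cf n dQ (Q.coeff a)).IsHomogeneous (DQ - dQ) := fun a =>
    (hDQ a).finSuccEquiv_coeff_isHomogeneous dQ (DQ - dQ) (by omega)
  have hlcH : lc.IsHomogeneous ((DP - dP) + (DQ - dQ) + n) :=
    hCD.finSuccEquiv_coeff_isHomogeneous c ((DP - dP) + (DQ - dQ) + n) (by omega)
  -- a good direction
  have hcfaQ : cf n dQ (Q.coeff aQ) ≠ 0 := by
    have := Finsupp.mem_support_iff.1 haQ
    rwa [tp_coeff] at this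
  obtain ⟨u, hu⟩ : ∃ u : Vec n, eval u (cf n dQ (Q.coeff aQ) * lc) ≠ 0 := by
    by_contra hcon
    push Not at hcon
    exact mul_ne_zero hcfaQ hlc0 (MvPolynomial.funext fun z => by rw [hcon z, map_zero])
  rw [map_mul] at hu
  have hu1 : eval u (cf n dQ (Q.coeff aQ)) ≠ 0 := left_ne_zero_of_mul hu
  have hu2 : eval u lc ≠ 0 := right_ne_zero_of_mul hu
  set pa : Vec (n + 1) → ℝ := fun a => eval u (cf n dP (P.coeff a)) with hpa
  set qb : Vec (n + 1) → ℝ := fun b => eval u (cf n dQ (Q.coeff b)) with hqb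
  set G := slice K hh with hGdef
  set G' := slice K hl with hGldef
  let A : ℝ → ℝ → ℝ := fun η t => ∑ a ∈ P.coeff.support,
    pa a * Real.exp (a 0 * t) * Real.exp (η * (Fin.tail a ⬝ᵥ u))
  let B : ℝ → ℝ → ℝ := fun η t => ∑ b ∈ Q.coeff.support,
    qb b * Real.exp (b 0 * t) * Real.exp (η * (Fin.tail b ⬝ᵥ u))
  let DD : ℝ → ℝ → ℝ := fun η t =>
    eval u lc * (Real.exp (hh * t) * lap G (η • u) - Real.exp (hl * t) * lap G' (η • u))
  -- evaluation of the top part of `P * Q`
  have hRe : ∀ (t : ℝ) (z : Vec n), evt t z (tp (dP + dQ) (P * Q)) =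
      eval z lc * (Real.exp (hh * t) * lap G z - Real.exp (hl * t) * lap G' z) := by
    intro t z
    rw [evt_tp, ← hc3]
    let Y : Finset ℝ := insert hh (insert hl ((P * Q).coeff.support.image fun v => v 0))
    have h3 : ∀ v ∈ (P * Q).coeff.support, v 0 ∈ Y := fun v hv =>
      Finset.mem_insert_of_mem (Finset.mem_insert_of_mem (Finset.mem_image_of_mem _ hv))
    rw [← Finset.sum_fiberwise_of_maps_to h3]
    have h4 : ∀ y ∈ Y, ∑ v ∈ (P * Q).coeff.support with v 0 = y,
        eval z (cf n (c - 1) ((P * Q).coeff v)) * Real.exp (v 0 * t + Fin.tail v ⬝ᵥ z) =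
        Real.exp (y * t) * (eval z lc *
          ((if y = hh then lap G z else 0) - (if y = hl then lap G' z else 0))) := by
      intro y _
      rw [← t2 y z, Finset.mul_sum]
      refine Finset.sum_congr rfl fun v hv => ?_
      rw [(Finset.mem_filter.1 hv).2, Real.exp_add, cf_apply]
      ring
    rw [Finset.sum_congr rfl h4]
    have h5 : ∀ y ∈ Y, Real.exp (y * t) * (eval z lc *
          ((if y = hh then lap G z else 0) - (if y = hl then lap G' z else 0))) =
        (if y = hh then Real.exp (y * t) * (eval z lc * lap G z) else 0) -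
        (if y = hl then Real.exp (y * t) * (eval z lc * lap G' z) else 0) := by
      intro y _
      split_ifs <;> ring
    rw [Finset.sum_congr rfl h5, Finset.sum_sub_distrib, Finset.sum_ite_eq' Y hh,
      Finset.sum_ite_eq' Y hl, if_pos (Finset.mem_insert_self _ _),
      if_pos (Finset.mem_insert_of_mem (Finset.mem_insert_self _ _))]
    ring
  have key : ∀ η t : ℝ, η ≠ 0 → A η t * B η t = η ^ n * DD η t := by
    intro η t hη
    have h3 := hRe t (η • u)
    rw [htpR, map_mul, evt_tp, evt_tp, eval_smul_hom' hlcH] at h3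
    have h4 : ∑ a ∈ P.coeff.support, eval (η • u) (cf n dP (P.coeff a)) *
        Real.exp (a 0 * t + Fin.tail a ⬝ᵥ (η • u)) = η ^ (DP - dP) * A η t := by
      simp only [A]
      rw [Finset.mul_sum]
      refine Finset.sum_congr rfl fun a _ => ?_
      rw [eval_smul_hom' (hcfP a), Real.exp_add, dotProduct_smul, smul_eq_mul]
      simp only [hpa]; ring
    have h5 : ∑ a ∈ Q.coeff.support, eval (η • u) (cf n dQ (Q.coeff a)) *
        Real.exp (a 0 * t + Fin.tail a ⬝ᵥ (η • u)) = η ^ (DQ - dQ) * B η t := by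
      simp only [B]
      rw [Finset.mul_sum]
      refine Finset.sum_congr rfl fun a _ => ?_
      rw [eval_smul_hom' (hcfQ a), Real.exp_add, dotProduct_smul, smul_eq_mul]
      simp only [hqb]; ring
    rw [h4, h5] at h3
    have h6 : η ^ (DP - dP + (DQ - dQ)) ≠ 0 := pow_ne_zero _ hη
    apply mul_left_cancel₀ h6
    calc η ^ (DP - dP + (DQ - dQ)) * (A η t * B η t)
        = η ^ (DP - dP) * A η t * (η ^ (DQ - dQ) * B η t) := by rw [pow_add]; ring
      _ = _ := h3
      _ = η ^ (DP - dP + (DQ - dQ)) * (η ^ n * DD η t) := by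
        simp only [DD]; rw [pow_add]; ring
  -- continuity in `η`
  have hcB : ∀ t, Continuous fun η => B η t := by
    intro t
    simp only [B]
    fun_prop
  have hlapc : ∀ {G : Set (Vec n)}, IsCompact G → Continuous fun η : ℝ => lap G (η • u) := by
    intro G hG
    exact (continuous_lap hG).comp (continuous_id.smul continuous_const)
  have hcD : ∀ t, Continuous fun η => DD η t := by
    intro t
    simp only [DD]
    exact continuous_const.mul ((continuous_const.mul (hlapc hG.comp)).sub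
      (continuous_const.mul (hlapc hGl)))
  let An : ℝ → ℝ := fun t => (∑ a ∈ P.coeff.support,
    pa a * Real.exp (a 0 * t) * (Fin.tail a ⬝ᵥ u) ^ n) / n.factorial
  have hAn : ∀ t, B 0 t ≠ 0 → An t * B 0 t = DD 0 t := by
    intro t ht
    have h3 : Tendsto (fun η => DD η t / B η t) (𝓝[>] 0) (𝓝 (DD 0 t / B 0 t)) :=
      (((hcD t).tendsto 0).div ((hcB t).tendsto 0) ht).mono_left nhdsWithin_le_nhds
    have h4 : ∀ᶠ η in 𝓝[>] (0 : ℝ), B η t ≠ 0 :=
      nhdsWithin_le_nhds (((hcB t).tendsto 0).eventually_ne ht)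
    have h5 := oneD P.coeff.support (fun a => pa a * Real.exp (a 0 * t))
      (fun a => Fin.tail a ⬝ᵥ u) n h3 (by
        filter_upwards [h4, self_mem_nhdsWithin] with η h6 h7
        have h8 := key η t (ne_of_gt h7)
        have h9 : A η t = η ^ n * (DD η t / B η t) := by
          rw [mul_div_assoc', ← h8, mul_div_cancel_right₀ _ h6]
        exact h9)
    have h6 : An t = DD 0 t / B 0 t := h5
    rw [h6, div_mul_cancel₀ _ ht]
  -- `B 0`
  have hB0 : ∀ t, B 0 t = ∑ b ∈ Q.coeff.support, qb b * Real.exp (b 0 * t) := by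
    intro t
    simp only [B, zero_mul, Real.exp_zero, mul_one]
  have hev : ∀ᶠ t in 𝓝[≠] (0 : ℝ), An t * B 0 t = DD 0 t := by
    have h3 := exp_sum_ne Q.coeff.support qb (fun b => b 0) hmemQ hu1 hQlt
    filter_upwards [h3] with t ht
    exact hAn t (by rw [hB0]; exact ht)
  have hcAn : Continuous An := by
    simp only [An]
    fun_prop
  have hcB0 : Continuous fun t => B 0 t := by
    simp only [B]
    fun_prop
  have hcD0 : Continuous fun t => DD 0 t := by
    simp only [DD]
    fun_prop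
  have hval : An 0 * B 0 0 = DD 0 0 := by
    have h3 : Tendsto (fun t => An t * B 0 t) (𝓝[≠] 0) (𝓝 (An 0 * B 0 0)) :=
      ((hcAn.mul hcB0).tendsto 0).mono_left nhdsWithin_le_nhds
    have h4 : Tendsto (fun t => DD 0 t) (𝓝[≠] 0) (𝓝 (DD 0 0)) :=
      (hcD0.tendsto 0).mono_left nhdsWithin_le_nhds
    exact tendsto_nhds_unique (h3.congr' hev) h4
  have hev' : (fun t => An t * B 0 t) =ᶠ[𝓝 0] fun t => DD 0 t := by
    have h3 := hev
    rw [eventually_nhdsWithin_iff] at h3
    filter_upwards [h3] with t ht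
    by_cases h0 : t = 0
    · rw [h0]; exact hval
    · exact ht h0
  -- the moments
  have hb0 : B 0 0 = 0 := by
    rw [hB0]
    simp only [mul_zero, Real.exp_zero, mul_one]
    have h3 := cf_mom0 dQ Q
    rw [hm0, map_zero] at h3
    have h4 := congrArg (eval u) h3
    rw [map_zero, map_sum] at h4
    exact h4.symm
  have hb1 : ∑ b ∈ Q.coeff.support, qb b * b 0 = 0 := by
    have h3 := cf_mom1 hdQ
    rw [hm1, map_zero] at h3
    have h4 := congrArg (eval u) h3
    rw [map_zero, map_sum] at h4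
    have h5 : ∑ b ∈ Q.coeff.support, qb b * b 0 =
        ∑ b ∈ Q.coeff.support, eval u (cf n dQ (Q.coeff b) * C (b 0)) := by
      refine Finset.sum_congr rfl fun b _ => ?_
      rw [map_mul, eval_C]
    exact h5.trans h4.symm
  have hdB : HasDerivAt (fun t => B 0 t) 0 0 := by
    have h3 : HasDerivAt (fun t : ℝ => ∑ b ∈ Q.coeff.support, qb b * Real.exp (b 0 * t))
        (∑ b ∈ Q.coeff.support, qb b * (Real.exp (b 0 * 0) * (b 0 * 1))) 0 := by
      refine HasDerivAt.fun_sum fun b _ => ?_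
      exact (((hasDerivAt_id (0 : ℝ)).const_mul (b 0)).exp).const_mul (qb b)
    have h4 : (fun t => B 0 t) = fun t : ℝ => ∑ b ∈ Q.coeff.support, qb b * Real.exp (b 0 * t) :=
      funext hB0
    rw [h4]
    have h5 : ∑ b ∈ Q.coeff.support, qb b * (Real.exp (b 0 * 0) * (b 0 * 1)) = 0 := by
      refine (Finset.sum_congr rfl fun b _ => ?_).trans hb1
      simp
    rw [h5] at h3
    exact h3
  have hdA : DifferentiableAt ℝ An 0 := by
    simp only [An]
    fun_prop
  have hdAB : HasDerivAt (fun t => An t * B 0 t) 0 0 := by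
    have h3 : HasDerivAt (fun t => An t * B 0 t) (deriv An 0 * B 0 0 + An 0 * 0) 0 :=
      hdA.hasDerivAt.mul hdB
    rwa [hb0, mul_zero, mul_zero, add_zero] at h3
  have hdD : HasDerivAt (fun t => DD 0 t) (eval u lc * (hh * lap G 0 - hl * lap G' 0)) 0 := by
    have h3 : HasDerivAt (fun t : ℝ => eval u lc * (Real.exp (hh * t) * lap G ((0 : ℝ) • u) -
        Real.exp (hl * t) * lap G' ((0 : ℝ) • u)))
        (eval u lc * ((Real.exp (hh * 0) * (hh * 1)) * lap G ((0 : ℝ) • u) -
          (Real.exp (hl * 0) * (hl * 1)) * lap G' ((0 : ℝ) • u))) 0 := by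
      refine HasDerivAt.const_mul _ (HasDerivAt.sub ?_ ?_)
      · exact (((hasDerivAt_id (0 : ℝ)).const_mul hh).exp).mul_const _
      · exact (((hasDerivAt_id (0 : ℝ)).const_mul hl).exp).mul_const _
    convert h3 using 1
    simp
  have hder : eval u lc * (hh * lap G 0 - hl * lap G' 0) = 0 :=
    hdD.unique (hdAB.congr_of_eventuallyEq hev'.symm)
  have hval' : eval u lc * (lap G 0 - lap G' 0) = 0 := by
    have h3 : DD 0 0 = eval u lc * (lap G 0 - lap G' 0) := by
      simp [DD]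
    rw [← h3, ← hval, hb0, mul_zero]
  have e1 := (mul_eq_zero.1 hder).resolve_left hu2
  have e2 := (mul_eq_zero.1 hval').resolve_left hu2
  have e3 : lap G' 0 = lap G 0 := by linarith
  rw [e3] at e1
  have e4 : (hh - hl) * lap G 0 = 0 := by linarith
  rcases mul_eq_zero.1 e4 with e5 | e5
  · linarith
  · exact (lap_pos hG 0).ne' e5

theorem subst_lin (M : Matrix (Fin n) (Fin n) ℝ) (a : Vec n) : subst M (lin a) = lin (M *ᵥ a) := by
  apply MvPolynomial.funext
  intro z
  rw [eval_subst, eval_lin', eval_lin', mulVec_dot]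

theorem mom_tm {M : Matrix (Fin n) (Fin n) ℝ} (hM : IsUnit M.det) (i : ℕ) (Q : EA n) :
    mom i (tm M Q) = subst M (mom i Q) := by
  classical
  have h1 : (tm M Q).coeff.support = Q.coeff.support.image fun a => M *ᵥ a := by
    apply Finset.coe_injective
    rw [tm_support hM, Finset.coe_image]
  unfold mom
  rw [Finsupp.sum, Finsupp.sum, h1, Finset.sum_image (fun a _ b _ hab => (mulVec_bij hM).1 hab),
    map_sum]
  refine Finset.sum_congr rfl fun a _ => ?_
  rw [tm_coeff hM, map_mul, map_pow, subst_lin]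

end CaseIAux

open FacetAux TransAux CaseIAux in
theorem caseI {n : ℕ} {K : Set (Vec (n + 1))} {P Q : EA (n + 1)} (h : FP K P Q)
    {ν : Vec (n + 1)} (hν : ν ≠ 0)
    (hdim : Module.finrank ℝ (vs (lead ν (P * Q))) = n) (hQ : Mono (lead ν Q)) :
    mom 0 Q ≠ 0 ∨ mom 1 Q ≠ 0 := by
  obtain ⟨M, hM, hMν⟩ := exists_matrix hν
  have h1 := fp_tm hM h
  have hl : ∀ X : EA (n + 1), lead (e0 n) (tm M X) = tm M (lead ν X) := by
    intro X; rw [lead_tm hM, hMν]
  have hinj : Function.Injective (Matrix.mulVecLin M) := (mulVec_bij hM).1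
  have hdim' : Module.finrank ℝ (vs (lead (e0 n) (tm M P * tm M Q))) = n := by
    rw [← map_mul, hl, FacetAux.vs_eq, Nw_tm hM]
    have h2 : (fun x : Vec (n + 1) => M *ᵥ x) '' Nw (lead ν (P * Q)) =
        (fun x => (0 : Vec (n + 1)) + Matrix.mulVecLin M x) '' Nw (lead ν (P * Q)) := by
      refine image_congr fun x _ => ?_
      rw [zero_add, Matrix.mulVecLin_apply]
    rw [h2, vectorSpan_image, finrank_map_inj hinj, ← FacetAux.vs_eq]
    exact hdim
  have hQ' : Mono (lead (e0 n) (tm M Q)) := by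
    rw [hl, Mono, tm_support hM]
    exact Set.Subsingleton.image hQ _
  rcases caseI0 h1 hdim' hQ' with h2 | h2
  · left
    intro h3
    apply h2
    rw [mom_tm hM, h3, map_zero]
  · right
    intro h3
    apply h2
    rw [mom_tm hM, h3, map_zero]

end Pool.Agent.Covg
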