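import Pool.Agent.Work.MP_177351_gt.Defs

set_option autoImplicit false

open MeasureTheory MvPolynomial Set Filter Topology
open scoped Pointwise Matrix

namespace Pool.Agent.Covg

namespace Rot

theorem mem_face {n : ℕ} {ω : Vec n} {S : Finset (Vec n)} {a : Vec n} :
    a ∈ face ω S ↔ a ∈ S ∧ ∀ b ∈ S, b ⬝ᵥ ω ≤ a ⬝ᵥ ω := by
  classical
  unfold face
  rw [Finset.mem_filter]

theorem face_nonempty {n : ℕ} (ω : Vec n) {S : Finset (Vec n)} (hS : S.Nonempty) :
    (face ω S).Nonempty := by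
  obtain ⟨a, ha, h⟩ := S.exists_max_image (fun a => a ⬝ᵥ ω) hS
  exact ⟨a, mem_face.2 ⟨ha, h⟩⟩

/-- the linear functional `x ↦ x ⬝ ν` -/
noncomputable def dfun {n : ℕ} (ν : Vec n) : Vec n →ₗ[ℝ] ℝ where
  toFun x := x ⬝ᵥ ν
  map_add' a b := add_dotProduct a b ν
  map_smul' c a := by simp [smul_dotProduct]

theorem dfun_apply {n : ℕ} (ν x : Vec n) : dfun ν x = x ⬝ᵥ ν := rfl

theorem exists_rep {n : ℕ} (f : Vec n →ₗ[ℝ] ℝ) : ∃ u : Vec n, ∀ x, f x = x ⬝ᵥ u := by
  refine ⟨fun i => f (fun j => if i = j then 1 else 0), fun x => ?_⟩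
  rw [LinearMap.pi_apply_eq_sum_univ f x]
  rfl

theorem vectorSpan_le_ker {n : ℕ} {T : Set (Vec n)} {f : Vec n →ₗ[ℝ] ℝ} {c : ℝ}
    (h : ∀ a ∈ T, f a = c) : vectorSpan ℝ T ≤ LinearMap.ker f := by
  rw [vectorSpan_def, Submodule.span_le]
  rintro _ ⟨a, ha, b, hb, rfl⟩
  simp only [vsub_eq_sub, SetLike.mem_coe, LinearMap.mem_ker, map_sub]
  rw [h a ha, h b hb, sub_self]

theorem dfun_ne {n : ℕ} {ν : Vec n} (hν : ν ≠ 0) : dfun ν ≠ 0 := by
  intro h
  apply hν
  have h1 : ν ⬝ᵥ ν = 0 := by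
    rw [← dfun_apply, h]; rfl
  exact dotProduct_self_eq_zero.1 h1

/-- the step of the rotation -/
theorem rotate_step {n : ℕ} {S : Finset (Vec n)} (hS : vectorSpan ℝ (S : Set (Vec n)) = ⊤)
    {ν : Vec n} (hne : S.Nonempty) {d : ℕ}
    (hd : Module.finrank ℝ (vectorSpan ℝ (face ν S : Set (Vec n))) = d) (hd2 : d + 1 < n) :
    ∃ ν' : Vec n, ν' ≠ 0 ∧ face ν S ⊆ face ν' S ∧
      d < Module.finrank ℝ (vectorSpan ℝ (face ν' S : Set (Vec n))) := by
  classical
  set V := vectorSpan ℝ (face ν S : Set (Vec n)) with hV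
  obtain ⟨a0, ha0⟩ := face_nonempty ν hne
  -- a vector in the kernel of `ν`, outside `V`
  obtain ⟨w, hw1, hw2⟩ : ∃ w, w ∈ LinearMap.ker (dfun ν) ∧ w ∉ V := by
    by_contra hcon
    push Not at hcon
    have h1 : LinearMap.ker (dfun ν) ≤ V := fun w hw => hcon w hw
    have h2 : Module.finrank ℝ (LinearMap.ker (dfun ν)) ≤ d := by
      rw [← hd]; exact Submodule.finrank_mono h1
    have h3 := LinearMap.finrank_range_add_finrank_ker (dfun ν)
    have h4 : Module.finrank ℝ (LinearMap.range (dfun ν)) ≤ 1 := by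
      have := Submodule.finrank_le (LinearMap.range (dfun ν))
      simpa using this
    rw [Module.finrank_fin_fun] at h3
    omega
  obtain ⟨f, hf1, hf2⟩ := Submodule.exists_le_ker_of_notMem hw2
  -- some element where `f` differs
  have hex : ∃ s ∈ S, f s ≠ f a0 := by
    by_contra hcon
    push Not at hcon
    have h1 : vectorSpan ℝ (S : Set (Vec n)) ≤ LinearMap.ker f :=
      vectorSpan_le_ker (c := f a0) fun a ha => hcon a (by simpa using ha)
    rw [hS] at h1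
    exact hf1 (h1 (Submodule.mem_top (x := w)))
  obtain ⟨g, hg1, hg2, hg3⟩ : ∃ g : Vec n →ₗ[ℝ] ℝ, g w ≠ 0 ∧ V ≤ LinearMap.ker g ∧
      ∃ s ∈ S, g a0 < g s := by
    obtain ⟨s, hs, hne⟩ := hex
    rcases lt_or_gt_of_ne hne with h | h
    · refine ⟨-f, by simpa using hf1, fun v hv => ?_, s, hs, ?_⟩
      · have := hf2 hv
        simpa using this
      · simpa using h
    · exact ⟨f, hf1, hf2, s, hs, h⟩
  obtain ⟨u, hu⟩ := exists_rep g
  have ha0S := (mem_face.1 ha0).1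
  have ha0m := (mem_face.1 ha0).2
  set c := a0 ⬝ᵥ ν with hc
  set e := a0 ⬝ᵥ u with he
  have hgu : ∀ a ∈ face ν S, a ⬝ᵥ u = e := by
    intro a ha
    have h1 : a - a0 ∈ V := vsub_mem_vectorSpan ℝ (by simpa using ha) (by simpa using ha0)
    have h2 := hg2 h1
    rw [LinearMap.mem_ker, map_sub, hu, hu] at h2
    linarith
  have hcν : ∀ a ∈ face ν S, a ⬝ᵥ ν = c := by
    intro a ha
    exact le_antisymm (ha0m a (mem_face.1 ha).1) ((mem_face.1 ha).2 a0 ha0S)
  set T := S.filter fun s => e < s ⬝ᵥ u with hT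
  have hTn : T.Nonempty := by
    obtain ⟨s, hs, h⟩ := hg3
    rw [hu, hu] at h
    exact ⟨s, Finset.mem_filter.2 ⟨hs, h⟩⟩
  obtain ⟨s, hsT, hmin⟩ := T.exists_min_image (fun s => (c - s ⬝ᵥ ν) / (s ⬝ᵥ u - e)) hTn
  obtain ⟨hsS, hsu⟩ := Finset.mem_filter.1 hsT
  set τ := (c - s ⬝ᵥ ν) / (s ⬝ᵥ u - e) with hτ
  have hsν : s ⬝ᵥ ν < c := by
    refine lt_of_le_of_ne (ha0m s hsS) fun h => ?_
    have : s ∈ face ν S := mem_face.2 ⟨hsS, fun b hb => (ha0m b hb).trans h.ge⟩
    have := hgu s this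
    linarith
  have hτ0 : 0 < τ := div_pos (by linarith) (by linarith)
  have hbound : ∀ b ∈ S, b ⬝ᵥ (ν + τ • u) ≤ c + τ * e := by
    intro b hb
    rw [dotProduct_add, dotProduct_smul, smul_eq_mul]
    by_cases hbu : e < b ⬝ᵥ u
    · have h1 := hmin b (Finset.mem_filter.2 ⟨hb, hbu⟩)
      rw [le_div_iff₀ (by linarith)] at h1
      nlinarith
    · have h1 := ha0m b hb
      have h2 : τ * (b ⬝ᵥ u) ≤ τ * e := mul_le_mul_of_nonneg_left (not_lt.1 hbu) hτ0.le
      linarith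
  have hin : ∀ a ∈ S, a ⬝ᵥ (ν + τ • u) = c + τ * e → a ∈ face (ν + τ • u) S :=
    fun a ha h => mem_face.2 ⟨ha, fun b hb => (hbound b hb).trans h.ge⟩
  have hsub : face ν S ⊆ face (ν + τ • u) S := by
    intro a ha
    apply hin a (mem_face.1 ha).1
    rw [dotProduct_add, dotProduct_smul, smul_eq_mul, hcν a ha, hgu a ha]
  have hs' : s ∈ face (ν + τ • u) S := by
    apply hin s hsS
    rw [dotProduct_add, dotProduct_smul, smul_eq_mul, hτ]
    have : s ⬝ᵥ u - e ≠ 0 := by linarith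
    field_simp
    ring
  refine ⟨ν + τ • u, ?_, hsub, ?_⟩
  · intro h
    have h1 : w ⬝ᵥ (ν + τ • u) = 0 := by rw [h, dotProduct_zero]
    rw [dotProduct_add, dotProduct_smul, smul_eq_mul] at h1
    rw [LinearMap.mem_ker, dfun_apply] at hw1
    rw [hw1, zero_add] at h1
    rcases mul_eq_zero.1 h1 with h2 | h2
    · linarith
    · rw [← hu] at h2
      exact hg1 h2
  · rw [← hd]
    apply Submodule.finrank_lt_finrank_of_lt
    refine lt_of_le_of_ne (vectorSpan_mono ℝ (by exact_mod_cast hsub)) fun h => ?_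
    have h1 : s - a0 ∈ vectorSpan ℝ (face (ν + τ • u) S : Set (Vec n)) :=
      vsub_mem_vectorSpan ℝ (by simpa using hs') (by simpa using hsub ha0)
    rw [← h] at h1
    have h2 := hg2 h1
    rw [LinearMap.mem_ker, map_sub, hu, hu] at h2
    linarith

end Rot

open Rot

/-- Every proper face lies in a facet. -/
theorem rotate {n : ℕ} {S : Finset (Vec n)} (hS : vectorSpan ℝ (S : Set (Vec n)) = ⊤)
    {ω : Vec n} (hω : ω ≠ 0) :
    ∃ ν : Vec n, ν ≠ 0 ∧ face ω S ⊆ face ν S ∧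
      Module.finrank ℝ (vectorSpan ℝ (face ν S : Set (Vec n))) + 1 = n := by
  classical
  have hne : S.Nonempty := by
    rw [Finset.nonempty_iff_ne_empty]
    rintro rfl
    rw [Finset.coe_empty, vectorSpan_empty] at hS
    apply hω
    have : ω ∈ (⊤ : Submodule ℝ (Vec n)) := Submodule.mem_top
    rw [← hS] at this
    simpa using this
  -- every face is proper
  have hlt : ∀ ν : Vec n, ν ≠ 0 →
      Module.finrank ℝ (vectorSpan ℝ (face ν S : Set (Vec n))) + 1 ≤ n := by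
    intro ν hν
    obtain ⟨a0, ha0⟩ := face_nonempty ν hne
    have h1 : vectorSpan ℝ (face ν S : Set (Vec n)) ≤ LinearMap.ker (dfun ν) := by
      apply vectorSpan_le_ker (c := a0 ⬝ᵥ ν)
      intro a ha
      have ha' : a ∈ face ν S := by simpa using ha
      exact le_antisymm ((mem_face.1 ha0).2 a (mem_face.1 ha').1)
        ((mem_face.1 ha').2 a0 (mem_face.1 ha0).1)
    have h2 : LinearMap.ker (dfun ν) < ⊤ := by
      rw [lt_top_iff_ne_top, Ne, LinearMap.ker_eq_top]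
      exact dfun_ne hν
    have h3 := Submodule.finrank_mono h1
    have h4 : Module.finrank ℝ (LinearMap.ker (dfun ν)) < Module.finrank ℝ (Vec n) :=
      Submodule.finrank_lt h2.ne
    rw [Module.finrank_fin_fun] at h4
    exact lt_of_le_of_lt h3 h4
  -- induct on the codimension
  have key : ∀ k : ℕ, ∀ ν : Vec n, ν ≠ 0 → face ω S ⊆ face ν S →
      n ≤ Module.finrank ℝ (vectorSpan ℝ (face ν S : Set (Vec n))) + 1 + k →
      ∃ ν : Vec n, ν ≠ 0 ∧ face ω S ⊆ face ν S ∧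
        Module.finrank ℝ (vectorSpan ℝ (face ν S : Set (Vec n))) + 1 = n := by
    intro k
    induction k with
    | zero =>
      intro ν hν h1 h2
      have := hlt ν hν
      exact ⟨ν, hν, h1, by omega⟩
    | succ k ih =>
      intro ν hν h1 h2
      rcases (hlt ν hν).lt_or_eq with h3 | h3
      · obtain ⟨ν', hν', h4, h5⟩ := rotate_step hS hne rfl h3
        exact ih ν' hν' (h1.trans h4) (by omega)
      · exact ⟨ν, hν, h1, h3⟩
  exact key n ω hω subset_rfl (by omega)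

/-- A point outside a full-dimensional polytope is separated from it by a facet. -/
theorem facet_sep {n : ℕ} (hn : 1 ≤ n) {S : Finset (Vec n)}
    (hS : (interior (convexHull ℝ (S : Set (Vec n)))).Nonempty) {x : Vec n}
    (hx : x ∉ convexHull ℝ (S : Set (Vec n))) :
    ∃ ν : Vec n, ν ≠ 0 ∧ Module.finrank ℝ (vectorSpan ℝ (face ν S : Set (Vec n))) + 1 = n ∧
      ∀ y ∈ convexHull ℝ (S : Set (Vec n)), y ⬝ᵥ ν < x ⬝ᵥ ν := by
  classical
  have _ := hn
  set K := convexHull ℝ (S : Set (Vec n)) with hK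
  have hKc : Convex ℝ K := convex_convexHull ℝ _
  have hKk : IsCompact K := S.finite_toSet.isCompact_convexHull (𝕜 := ℝ)
  have hspan : vectorSpan ℝ (S : Set (Vec n)) = ⊤ := by
    have h1 := interior_convexHull_nonempty_iff_affineSpan_eq_top.1 hS
    rw [← direction_affineSpan, h1, AffineSubspace.direction_top]
  obtain ⟨x0, hx0⟩ := hS
  have hx0K : x0 ∈ K := interior_subset hx0
  -- the last point of `K` on the segment
  let g : ℝ → Vec n := fun t => x0 + t • (x - x0)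
  have hg : Continuous g := by fun_prop
  have hTc : IsCompact (Icc (0 : ℝ) 1 ∩ g ⁻¹' K) := isCompact_Icc.inter_right (hKk.isClosed.preimage hg)
  have hTn : (Icc (0 : ℝ) 1 ∩ g ⁻¹' K).Nonempty :=
    ⟨0, ⟨le_rfl, zero_le_one⟩, by simpa [g] using hx0K⟩
  obtain ⟨t, ⟨⟨ht0, ht1⟩, htK⟩, hmax⟩ := hTc.exists_isMaxOn hTn continuousOn_id
  have ht1' : t < 1 := by
    refine lt_of_le_of_ne ht1 fun h => hx ?_
    subst h
    simpa [g] using htK
  have hint : g t ∉ interior K := by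
    intro h
    have h1 : ∀ᶠ s in 𝓝 t, g s ∈ interior K :=
      hg.continuousAt.eventually (isOpen_interior.mem_nhds h)
    have h2 : ∀ᶠ s in 𝓝[>] t, g s ∈ interior K ∧ s ∈ Ioo t 1 :=
      (h1.filter_mono nhdsWithin_le_nhds).and (Ioo_mem_nhdsGT ht1')
    obtain ⟨s, hs1, hs2, hs3⟩ := h2.exists
    have hs4 : g s ∈ K := interior_subset hs1
    have := hmax ⟨⟨ht0.trans hs2.le, hs3.le⟩, hs4⟩
    simp only [id] at this
    exact absurd this (not_le.2 hs2)
  have ht0' : 0 < t := by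
    refine lt_of_le_of_ne ht0 fun h => hint ?_
    rw [← h]
    simpa [g] using hx0
  obtain ⟨f, hf⟩ := geometric_hahn_banach_open_point hKc.interior isOpen_interior hint
  obtain ⟨ω, hω⟩ := exists_rep (f : Vec n →ₗ[ℝ] ℝ)
  have hω' : ∀ z, f z = z ⬝ᵥ ω := hω
  have hle : ∀ z ∈ K, z ⬝ᵥ ω ≤ g t ⬝ᵥ ω := by
    intro z hz
    rw [← hω', ← hω']
    have h1 : z ∈ closure (interior K) := by
      rw [hKc.closure_interior_eq_closure_of_nonempty_interior ⟨x0, hx0⟩]
      exact subset_closure hz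
    exact closure_minimal (fun a ha => (hf a ha).le) (isClosed_le f.continuous continuous_const) h1
  have hω0 : ω ≠ 0 := by
    rintro rfl
    have := hf x0 hx0
    rw [hω', hω', dotProduct_zero, dotProduct_zero] at this
    exact lt_irrefl _ this
  obtain ⟨ν, hν, hsub, hdim⟩ := rotate hspan hω0
  refine ⟨ν, hν, hdim, ?_⟩
  -- `g t` is in the face of `ν`
  obtain ⟨w, hw0, hw1, hw2⟩ := (Finset.mem_convexHull').1 htK
  obtain ⟨a0, ha0⟩ := face_nonempty ν (Finset.nonempty_iff_ne_empty.2 (by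
    rintro rfl; simp at hw1) : S.Nonempty)
  have hwface : ∀ a ∈ S, w a ≠ 0 → a ∈ face ν S := by
    intro a ha hwa
    apply hsub
    rw [mem_face]
    refine ⟨ha, fun b hb => ?_⟩
    have hb' := hle b (subset_convexHull ℝ _ hb)
    refine hb'.trans ?_
    by_contra hcon
    push Not at hcon
    have h1 : g t ⬝ᵥ ω = ∑ s ∈ S, w s * (s ⬝ᵥ ω) := by
      rw [← hw2, sum_dotProduct]
      simp only [smul_dotProduct, smul_eq_mul]
    have h2 : ∑ s ∈ S, w s * (s ⬝ᵥ ω) < ∑ s ∈ S, w s * (g t ⬝ᵥ ω) := by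
      apply Finset.sum_lt_sum
      · intro s hs
        exact mul_le_mul_of_nonneg_left (hle s (subset_convexHull ℝ _ hs)) (hw0 s hs)
      · exact ⟨a, ha, mul_lt_mul_of_pos_left hcon (lt_of_le_of_ne (hw0 a ha) hwa.symm)⟩
    rw [← Finset.sum_mul, hw1, one_mul] at h2
    linarith
  have hgt : g t ⬝ᵥ ν = a0 ⬝ᵥ ν := by
    rw [← hw2, sum_dotProduct]
    have : ∀ s ∈ S, (w s • s) ⬝ᵥ ν = w s * (a0 ⬝ᵥ ν) := by
      intro s hs
      rw [smul_dotProduct, smul_eq_mul]
      by_cases h : w s = 0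
      · rw [h, zero_mul, zero_mul]
      · have h1 := hwface s hs h
        rw [le_antisymm ((mem_face.1 ha0).2 s hs) ((mem_face.1 h1).2 a0 (mem_face.1 ha0).1)]
    rw [Finset.sum_congr rfl this, ← Finset.sum_mul, hw1, one_mul]
  have hKle : ∀ z ∈ K, z ⬝ᵥ ν ≤ g t ⬝ᵥ ν := by
    intro z hz
    have h1 : K ⊆ {z | dfun ν z ≤ g t ⬝ᵥ ν} := by
      apply convexHull_min
      · intro s hs
        rw [Set.mem_ofPred_eq, dfun_apply, hgt]
        exact (mem_face.1 ha0).2 s hs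
      · exact convex_halfSpace_le (dfun ν).isLinear _
    exact h1 hz
  -- strict inequality at the interior point
  have hstrict : x0 ⬝ᵥ ν < g t ⬝ᵥ ν := by
    have h1 : ∀ᶠ s in 𝓝 (0 : ℝ), x0 + s • ν ∈ interior K := by
      have hc : ContinuousAt (fun s : ℝ => x0 + s • ν) 0 := by fun_prop
      apply hc.eventually
      apply isOpen_interior.mem_nhds
      simpa using hx0
    have h2 : ∀ᶠ s in 𝓝[>] (0 : ℝ), x0 + s • ν ∈ interior K ∧ s ∈ Ioi (0 : ℝ) :=
      (h1.filter_mono nhdsWithin_le_nhds).and self_mem_nhdsWithin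
    obtain ⟨s, hs1, hs2⟩ := h2.exists
    have h3 := hKle _ (interior_subset hs1)
    rw [add_dotProduct, smul_dotProduct, smul_eq_mul] at h3
    have h4 : 0 < ν ⬝ᵥ ν := by
      rcases (Finset.sum_nonneg fun i _ => mul_self_nonneg (ν i) : 0 ≤ ν ⬝ᵥ ν).lt_or_eq with h | h
      · exact h
      · exact absurd (dotProduct_self_eq_zero.1 h.symm) hν
    have := mul_pos (show 0 < s from hs2) h4
    linarith
  intro y hy
  refine (hKle y hy).trans_lt ?_
  have h5 : g t ⬝ᵥ ν = x0 ⬝ᵥ ν + t * (x ⬝ᵥ ν - x0 ⬝ᵥ ν) := by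
    simp only [g]
    rw [add_dotProduct, smul_dotProduct, sub_dotProduct, smul_eq_mul]
  nlinarith

end Pool.Agent.Covg
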