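import Pool.Agent.Work.MP_177351_gt.Defs

set_option autoImplicit false

open MeasureTheory MvPolynomial Set Filter Topology
open scoped Pointwise Matrix

namespace Pool.Agent.Covg

/-! ## Module `Recur` -/

theorem cons_dot {n : ℕ} (s : ℝ) (x : Vec n) (v : Vec (n + 1)) :
    (Fin.cons s x : Vec (n + 1)) ⬝ᵥ v = s * v 0 + x ⬝ᵥ Fin.tail v := by
  simp [dotProduct, Fin.sum_univ_succ, Fin.tail]

theorem cons_dot_cons {n : ℕ} (s t : ℝ) (x z : Vec n) :
    (Fin.cons s x : Vec (n + 1)) ⬝ᵥ (Fin.cons t z : Vec (n + 1)) = s * t + x ⬝ᵥ z := by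
  rw [cons_dot]; simp

theorem hpoly_ulz {n : ℕ} {K : Set (Vec (n + 1))} (h : HPoly K) {a b : ℝ}
    (ha : ∀ w ∈ K, w 0 ≤ a) (hb : ∀ w ∈ K, b ≤ w 0) :
    ∃ U L Z : Finset (Vec n × ℝ), (0, a) ∈ U ∧ (0, b) ∈ L ∧ K = ULZ U L Z := by
  classical
  obtain ⟨-, F, rfl⟩ := h
  let g : Vec (n + 1) × ℝ → Vec n × ℝ := fun p => (-((p.1 0)⁻¹ • Fin.tail p.1), (p.1 0)⁻¹ * p.2)
  refine ⟨insert (0, a) ((F.filter fun p => 0 < p.1 0).image g),
    insert (0, b) ((F.filter fun p => p.1 0 < 0).image g),
    (F.filter fun p => p.1 0 = 0).image fun p => (-Fin.tail p.1, p.2),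
    Finset.mem_insert_self _ _, Finset.mem_insert_self _ _, ?_⟩
  have key : ∀ w : Vec (n + 1), ∀ p : Vec (n + 1) × ℝ,
      w ⬝ᵥ p.1 = w 0 * p.1 0 + Fin.tail w ⬝ᵥ Fin.tail p.1 := by
    intro w p
    conv_lhs => rw [← Fin.cons_self_tail w]
    rw [cons_dot]
  have hg : ∀ w : Vec (n + 1), ∀ p : Vec (n + 1) × ℝ, p.1 0 ≠ 0 →
      Fin.tail w ⬝ᵥ (g p).1 + (g p).2 = w 0 + (p.1 0)⁻¹ * (p.2 - w ⬝ᵥ p.1) := by
    intro w p hp
    rw [key w p]
    simp only [g, dotProduct_neg, dotProduct_smul, smul_eq_mul]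
    field_simp
    ring
  ext w
  simp only [mem_ofPred_eq, ULZ, Finset.mem_insert, Finset.mem_image, Finset.mem_filter]
  constructor
  · intro hw
    refine ⟨?_, ?_, ?_⟩
    · rintro q (rfl | ⟨p, ⟨hp, hp0⟩, rfl⟩)
      · simpa using ha w hw
      · rw [hg w p hp0.ne']
        have := hw p hp
        have h2 : 0 ≤ (p.1 0)⁻¹ * (p.2 - w ⬝ᵥ p.1) := by
          apply mul_nonneg (inv_pos.mpr hp0).le; linarith
        linarith
    · rintro q (rfl | ⟨p, ⟨hp, hp0⟩, rfl⟩)
      · simpa using hb w hw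
      · rw [hg w p hp0.ne]
        have := hw p hp
        have h2 : (p.1 0)⁻¹ * (p.2 - w ⬝ᵥ p.1) ≤ 0 :=
          mul_nonpos_of_nonpos_of_nonneg (inv_neg''.mpr hp0).le (by linarith)
        linarith
    · rintro q ⟨p, ⟨hp, hp0⟩, rfl⟩
      have := hw p hp
      rw [key w p, hp0] at this
      simp only [dotProduct_neg]
      linarith
  · rintro ⟨h1, h2, h3⟩ p hp
    rcases lt_trichotomy (p.1 0) 0 with h0 | h0 | h0
    · have := h2 (g p) (Or.inr ⟨p, ⟨hp, h0⟩, rfl⟩)
      rw [hg w p h0.ne] at this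
      by_contra hcon
      push Not at hcon
      have h4 : 0 < (p.1 0)⁻¹ * (p.2 - w ⬝ᵥ p.1) :=
        mul_pos_of_neg_of_neg (inv_neg''.mpr h0) (by linarith)
      linarith
    · have := h3 (-Fin.tail p.1, p.2) ⟨p, ⟨hp, h0⟩, rfl⟩
      rw [key w p, h0]
      simp only [dotProduct_neg] at this
      linarith
    · have := h1 (g p) (Or.inr ⟨p, ⟨hp, h0⟩, rfl⟩)
      rw [hg w p h0.ne'] at this
      by_contra hcon
      push Not at hcon
      have h4 : (p.1 0)⁻¹ * (p.2 - w ⬝ᵥ p.1) < 0 :=
        mul_neg_of_pos_of_neg (inv_pos.mpr h0) (by linarith)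
      linarith

theorem norm_le_cons {n : ℕ} (s : ℝ) (x : Vec n) : ‖x‖ ≤ ‖(Fin.cons s x : Vec (n + 1))‖ := by
  rw [pi_norm_le_iff_of_nonneg (norm_nonneg _)]
  intro i
  have := norm_le_pi_norm (Fin.cons s x : Vec (n + 1)) i.succ
  simpa using this

theorem bounded_of_cons {n : ℕ} {K : Set (Vec (n + 1))} (hK : Bornology.IsBounded K)
    {D : Set (Vec n)} (hD : ∀ x ∈ D, ∃ s : ℝ, (Fin.cons s x : Vec (n + 1)) ∈ K) :
    Bornology.IsBounded D := by
  obtain ⟨R, hR⟩ := hK.exists_norm_le
  refine isBounded_iff_forall_norm_le.mpr ⟨R, fun x hx => ?_⟩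
  obtain ⟨s, hs⟩ := hD x hx
  exact (norm_le_cons s x).trans (hR _ hs)

theorem hpoly_piece {n : ℕ} {K : Set (Vec (n + 1))} (h : HPoly K) (p : Vec n × ℝ) :
    HPoly (piece K p) := by
  classical
  obtain ⟨hb, F, hF⟩ := h
  refine ⟨bounded_of_cons hb fun x hx => ⟨_, hx⟩,
    F.image fun q => (q.1 0 • p.1 + Fin.tail q.1, q.2 - p.2 * q.1 0), ?_⟩
  ext x
  simp only [piece, hF, mem_ofPred_eq, Finset.mem_image, forall_exists_index, and_imp,
    forall_apply_eq_imp_iff₂]
  refine forall₂_congr fun q _ => ?_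
  rw [cons_dot, dotProduct_add, dotProduct_smul, smul_eq_mul]
  constructor
  · intro h; linarith
  · intro h; linarith

/-- the value of the affine function `p` at `x` -/
noncomputable def av {n : ℕ} (p : Vec n × ℝ) (x : Vec n) : ℝ := x ⬝ᵥ p.1 + p.2

theorem continuous_av {n : ℕ} (p : Vec n × ℝ) : Continuous (av p) := by
  unfold av
  exact (continuous_id.dotProduct continuous_const).add continuous_const

/-- the projection of `ULZ U L Z` -/
def prj {n : ℕ} (U L Z : Finset (Vec n × ℝ)) : Set (Vec n) :=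
  {x | (∀ p ∈ U, ∀ q ∈ L, av q x ≤ av p x) ∧ ∀ p ∈ Z, 0 ≤ av p x}

theorem mem_ulz {n : ℕ} (U L Z : Finset (Vec n × ℝ)) (s : ℝ) (x : Vec n) :
    (Fin.cons s x : Vec (n + 1)) ∈ ULZ U L Z ↔
      (∀ p ∈ U, s ≤ av p x) ∧ (∀ p ∈ L, av p x ≤ s) ∧ ∀ p ∈ Z, 0 ≤ av p x := by
  simp [ULZ, av]

theorem isClosed_ulz {n : ℕ} (U L Z : Finset (Vec n × ℝ)) : IsClosed (ULZ U L Z) := by
  have hc : Continuous fun w : Vec (n + 1) => w 0 := continuous_apply 0
  have ht : Continuous fun w : Vec (n + 1) => Fin.tail w :=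
    continuous_pi fun i => continuous_apply i.succ
  have ha : ∀ p : Vec n × ℝ, Continuous fun w : Vec (n + 1) => Fin.tail w ⬝ᵥ p.1 + p.2 :=
    fun p => (continuous_av p).comp ht
  have : ULZ U L Z = (⋂ p ∈ U, {w | w 0 ≤ Fin.tail w ⬝ᵥ p.1 + p.2}) ∩
      ((⋂ p ∈ L, {w | Fin.tail w ⬝ᵥ p.1 + p.2 ≤ w 0}) ∩
      ⋂ p ∈ Z, {w | 0 ≤ Fin.tail w ⬝ᵥ p.1 + p.2}) := by
    ext w; simp [ULZ]
  rw [this]
  refine IsClosed.inter ?_ (IsClosed.inter ?_ ?_)
  · exact isClosed_biInter fun p _ => isClosed_le hc (ha p)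
  · exact isClosed_biInter fun p _ => isClosed_le (ha p) hc
  · exact isClosed_biInter fun p _ => isClosed_le continuous_const (ha p)

theorem isClosed_prj {n : ℕ} (U L Z : Finset (Vec n × ℝ)) : IsClosed (prj U L Z) := by
  have : prj U L Z = (⋂ p ∈ U, ⋂ q ∈ L, {x | av q x ≤ av p x}) ∩
      ⋂ p ∈ Z, {x | 0 ≤ av p x} := by
    ext w; simp [prj]
  rw [this]
  refine IsClosed.inter ?_ ?_
  · exact isClosed_biInter fun p _ => isClosed_biInter fun q _ =>
      isClosed_le (continuous_av q) (continuous_av p)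
  · exact isClosed_biInter fun p _ => isClosed_le continuous_const (continuous_av p)

/-- upper bound -/
noncomputable def up {n : ℕ} (U : Finset (Vec n × ℝ)) (hU : U.Nonempty) (x : Vec n) : ℝ :=
  U.inf' hU fun p => av p x

/-- lower bound -/
noncomputable def lo {n : ℕ} (L : Finset (Vec n × ℝ)) (hL : L.Nonempty) (x : Vec n) : ℝ :=
  L.sup' hL fun p => av p x

theorem mem_ulz' {n : ℕ} {U L Z : Finset (Vec n × ℝ)} (hU : U.Nonempty) (hL : L.Nonempty) (s : ℝ)
    (x : Vec n) : (Fin.cons s x : Vec (n + 1)) ∈ ULZ U L Z ↔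
      x ∈ prj U L Z ∧ s ∈ Icc (lo L hL x) (up U hU x) := by
  rw [mem_ulz]
  simp only [prj, mem_ofPred_eq, mem_Icc, lo, up, Finset.sup'_le_iff, Finset.le_inf'_iff]
  constructor
  · rintro ⟨h1, h2, h3⟩
    exact ⟨⟨fun p hp q hq => (h2 q hq).trans (h1 p hp), h3⟩, h2, h1⟩
  · rintro ⟨⟨_, h3⟩, h2, h1⟩
    exact ⟨h1, h2, h3⟩

theorem lo_le_up {n : ℕ} {U L Z : Finset (Vec n × ℝ)} (hU : U.Nonempty) (hL : L.Nonempty)
    {x : Vec n} (hx : x ∈ prj U L Z) : lo L hL x ≤ up U hU x := by
  unfold lo up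
  rw [Finset.sup'_le_iff]
  intro q hq
  rw [Finset.le_inf'_iff]
  intro p hp
  exact hx.1 p hp q hq

theorem piece_up {n : ℕ} {U L Z : Finset (Vec n × ℝ)} (hU : U.Nonempty) (hL : L.Nonempty)
    {p : Vec n × ℝ} (hp : p ∈ U) (x : Vec n) :
    x ∈ piece (ULZ U L Z) p ↔ x ∈ prj U L Z ∧ av p x = up U hU x := by
  have h1 : x ∈ piece (ULZ U L Z) p ↔ (Fin.cons (av p x) x : Vec (n + 1)) ∈ ULZ U L Z := Iff.rfl
  rw [h1, mem_ulz' hU hL, mem_Icc]
  constructor
  · rintro ⟨h2, h3, h4⟩
    exact ⟨h2, le_antisymm h4 (Finset.inf'_le _ hp)⟩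
  · rintro ⟨h2, h3⟩
    exact ⟨h2, h3 ▸ lo_le_up hU hL h2, h3.le⟩

theorem piece_lo {n : ℕ} {U L Z : Finset (Vec n × ℝ)} (hU : U.Nonempty) (hL : L.Nonempty)
    {p : Vec n × ℝ} (hp : p ∈ L) (x : Vec n) :
    x ∈ piece (ULZ U L Z) p ↔ x ∈ prj U L Z ∧ av p x = lo L hL x := by
  have h1 : x ∈ piece (ULZ U L Z) p ↔ (Fin.cons (av p x) x : Vec (n + 1)) ∈ ULZ U L Z := Iff.rfl
  rw [h1, mem_ulz' hU hL, mem_Icc]
  constructor
  · rintro ⟨h2, h3, h4⟩
    exact ⟨h2, le_antisymm (Finset.le_sup' (fun p => av p x) hp |>.trans le_rfl) h3⟩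
  · rintro ⟨h2, h3⟩
    exact ⟨h2, h3.ge, h3 ▸ lo_le_up hU hL h2⟩

/-- two different affine functions agree only on a null set -/
theorem tie_null {n : ℕ} {p q : Vec n × ℝ} (h : p ≠ q) :
    volume {x : Vec n | av p x = av q x} = 0 := by
  by_cases h1 : p.1 = q.1
  · have h2 : p.2 ≠ q.2 := fun h2 => h (Prod.ext h1 h2)
    have : {x : Vec n | av p x = av q x} = ∅ := by
      ext x
      simp only [mem_ofPred_eq, mem_empty_iff_false, iff_false, av, h1]
      intro h3
      exact h2 (by linarith)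
    rw [this, measure_empty]
  · -- a hyperplane
    let f : Vec n →ₗ[ℝ] ℝ :=
      { toFun := fun x => x ⬝ᵥ (p.1 - q.1)
        map_add' := fun x y => add_dotProduct x y (p.1 - q.1)
        map_smul' := fun c x => smul_dotProduct c x (p.1 - q.1) }
    by_cases h2 : ∃ x₀ : Vec n, av p x₀ = av q x₀
    · obtain ⟨x₀, hx₀⟩ := h2
      have hs : {x : Vec n | av p x = av q x} =
          (AffineSubspace.mk' x₀ (LinearMap.ker f) : Set (Vec n)) := by
        ext x
        simp only [mem_ofPred_eq, SetLike.mem_coe, AffineSubspace.mem_mk', LinearMap.mem_ker,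
          vsub_eq_sub]
        show av p x = av q x ↔ (x - x₀) ⬝ᵥ (p.1 - q.1) = 0
        rw [sub_dotProduct, dotProduct_sub, dotProduct_sub]
        unfold av at hx₀ ⊢
        constructor
        · intro h; linarith
        · intro h; linarith
      rw [hs]
      apply Measure.addHaar_affineSubspace
      intro htop
      have h3 : LinearMap.ker f = ⊤ := by
        have := congrArg AffineSubspace.direction htop
        simpa using this
      have h4 : f (p.1 - q.1) = 0 := by
        have : (p.1 - q.1) ∈ LinearMap.ker f := by rw [h3]; trivial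
        exact this
      have h5 : (p.1 - q.1) ⬝ᵥ (p.1 - q.1) = 0 := h4
      rw [dotProduct_self_eq_zero] at h5
      exact h1 (sub_eq_zero.mp h5)
    · have : {x : Vec n | av p x = av q x} = ∅ := by
        ext x
        simp only [mem_ofPred_eq, mem_empty_iff_false, iff_false]
        exact fun h3 => h2 ⟨x, h3⟩
      rw [this, measure_empty]

theorem ae_no_tie {n : ℕ} (U : Finset (Vec n × ℝ)) :
    ∀ᵐ x : Vec n, ∀ p ∈ U, ∀ q ∈ U, p ≠ q → av p x ≠ av q x := by
  have h1 : ∀ p ∈ U, ∀ᵐ x : Vec n, ∀ q ∈ U, p ≠ q → av p x ≠ av q x := by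
    intro p _
    have h2 : ∀ q ∈ U, ∀ᵐ x : Vec n, p ≠ q → av p x ≠ av q x := by
      intro q _
      by_cases h : p = q
      · exact Eventually.of_forall fun x h' => absurd h h'
      · have := tie_null h
        filter_upwards [measure_eq_zero_iff_ae_notMem.mp this] with x hx _ using hx
    exact (Finset.eventually_all U).mpr h2
  exact (Finset.eventually_all U).mpr h1

theorem int_exp_Icc {a b : ℝ} (hab : a ≤ b) (t : ℝ) :
    t * ∫ s in Icc a b, Real.exp (s * t) = Real.exp (b * t) - Real.exp (a * t) := by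
  rw [integral_Icc_eq_integral_Ioc, ← intervalIntegral.integral_of_le hab]
  rcases eq_or_ne t 0 with rfl | ht
  · simp
  · have h : ∀ x ∈ Set.uIcc a b, HasDerivAt (fun s => Real.exp (s * t)) (t * Real.exp (x * t)) x := by
      intro x _
      have := ((hasDerivAt_id x).mul_const t).exp
      simpa [mul_comm] using this
    rw [← intervalIntegral.integral_const_mul]
    exact intervalIntegral.integral_eq_sub_of_hasDerivAt h
      (Continuous.intervalIntegrable (by fun_prop) _ _)

theorem continuous_expdot {n : ℕ} (v : Vec n) : Continuous fun w : Vec n => Real.exp (w ⬝ᵥ v) :=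
  Real.continuous_exp.comp (continuous_id.dotProduct continuous_const)

theorem integrableOn_exp {n : ℕ} {K : Set (Vec n)} (hK : Bornology.IsBounded K) (v : Vec n) :
    IntegrableOn (fun w => Real.exp (w ⬝ᵥ v)) K :=
  ((continuous_expdot v).continuousOn.integrableOn_compact hK.isCompact_closure).mono_set
    subset_closure

/-- Fubini in the first coordinate -/
theorem lap_fubini {n : ℕ} {K : Set (Vec (n + 1))} (hK : Bornology.IsBounded K)
    (hm : MeasurableSet K) (v : Vec (n + 1)) :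
    lap K v = ∫ x : Vec n, ∫ s : ℝ,
      K.indicator (fun w => Real.exp (w ⬝ᵥ v)) (Fin.cons s x : Vec (n + 1)) := by
  have hint : Integrable (K.indicator fun w : Vec (n + 1) => Real.exp (w ⬝ᵥ v)) :=
    (integrable_indicator_iff hm).mpr (integrableOn_exp hK v)
  have hmp := (volume_preserving_piFinSuccAbove (fun _ : Fin (n + 1) => ℝ) 0).symm
  unfold lap
  rw [← integral_indicator hm, ← hmp.integral_comp' (g := K.indicator fun w => Real.exp (w ⬝ᵥ v))]
  have hint2 : Integrable (fun z : ℝ × Vec n => K.indicator (fun w => Real.exp (w ⬝ᵥ v))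
      ((MeasurableEquiv.piFinSuccAbove (fun _ : Fin (n + 1) => ℝ) 0).symm z)) :=
    (hmp.integrable_comp_emb (MeasurableEquiv.measurableEmbedding _)).mpr hint
  rw [show (volume : Measure (ℝ × Vec n)) = (volume : Measure ℝ).prod volume from rfl] at hint2 ⊢
  rw [integral_prod_symm _ hint2]
  refine integral_congr_ae (Eventually.of_forall fun x => ?_)
  refine integral_congr_ae (Eventually.of_forall fun s => ?_)
  have : (MeasurableEquiv.piFinSuccAbove (fun _ : Fin (n + 1) => ℝ) 0).symm (s, x) =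
      (Fin.cons s x : Vec (n + 1)) := by
    simp [MeasurableEquiv.piFinSuccAbove, Fin.insertNthEquiv]
  simp only [this]

theorem lap_succ {n : ℕ} {U L Z : Finset (Vec n × ℝ)} (hU : U.Nonempty) (hL : L.Nonempty)
    (hK : Bornology.IsBounded (ULZ U L Z)) (t : ℝ) (z : Vec n) :
    t * lap (ULZ U L Z) (Fin.cons t z : Vec (n + 1)) =
      ∑ p ∈ U, Real.exp (t * p.2) * lap (piece (ULZ U L Z) p) (z + t • p.1) -
      ∑ p ∈ L, Real.exp (t * p.2) * lap (piece (ULZ U L Z) p) (z + t • p.1) := by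
  classical
  have hD : Bornology.IsBounded (prj U L Z) := bounded_of_cons hK fun x hx =>
    ⟨lo L hL x, (mem_ulz' hU hL _ _).mpr ⟨hx, le_rfl, lo_le_up hU hL hx⟩⟩
  have hDm : MeasurableSet (prj U L Z) := (isClosed_prj U L Z).measurableSet
  -- the pieces
  have hpm : ∀ p, MeasurableSet (piece (ULZ U L Z) p) := fun p => by
    have hc : Continuous fun x : Vec n => (Fin.cons (av p x) x : Vec (n + 1)) := by
      refine continuous_pi fun i => ?_
      refine Fin.cases ?_ (fun j => ?_) i
      · simpa using continuous_av p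
      · simpa using continuous_apply j
    exact ((isClosed_ulz U L Z).preimage hc).measurableSet
  have hpb : ∀ p, Bornology.IsBounded (piece (ULZ U L Z) p) := fun p =>
    bounded_of_cons hK fun x hx => ⟨_, hx⟩
  have hpe : ∀ p : Vec n × ℝ, Real.exp (t * p.2) * lap (piece (ULZ U L Z) p) (z + t • p.1) =
      ∫ x, (piece (ULZ U L Z) p).indicator (fun x => Real.exp (x ⬝ᵥ z) * Real.exp (t * av p x)) x := by
    intro p
    unfold lap
    rw [integral_indicator (hpm p), ← integral_const_mul]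
    refine integral_congr_ae (Eventually.of_forall fun x => ?_)
    simp only [av]
    rw [← Real.exp_add, ← Real.exp_add]
    congr 1
    rw [dotProduct_add, dotProduct_smul, smul_eq_mul]
    ring
  have hpi : ∀ p : Vec n × ℝ, Integrable
      ((piece (ULZ U L Z) p).indicator (fun x => Real.exp (x ⬝ᵥ z) * Real.exp (t * av p x))) := by
    intro p
    rw [integrable_indicator_iff (hpm p)]
    have hc : Continuous fun x : Vec n => Real.exp (x ⬝ᵥ z) * Real.exp (t * av p x) :=
      (continuous_expdot z).mul (Real.continuous_exp.comp (continuous_const.mul (continuous_av p)))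
    exact (hc.continuousOn.integrableOn_compact (hpb p).isCompact_closure).mono_set subset_closure
  have hsumU : ∑ p ∈ U, Real.exp (t * p.2) * lap (piece (ULZ U L Z) p) (z + t • p.1) =
      ∫ x, (prj U L Z).indicator (fun x => Real.exp (x ⬝ᵥ z) * Real.exp (t * up U hU x)) x := by
    rw [Finset.sum_congr rfl fun p _ => hpe p, ← integral_finsetSum U fun p _ => hpi p]
    refine integral_congr_ae ?_
    filter_upwards [ae_no_tie U] with x hx
    by_cases hxD : x ∈ prj U L Z
    · rw [indicator_of_mem hxD]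
      obtain ⟨p0, hp0, hp0e⟩ := Finset.exists_mem_eq_inf' hU fun p => av p x
      have e0 : up U hU x = av p0 x := hp0e
      rw [Finset.sum_eq_single p0]
      · rw [indicator_of_mem ((piece_up hU hL hp0 x).mpr ⟨hxD, e0.symm⟩), e0]
      · intro q hq hne
        rw [indicator_of_notMem]
        intro hmem
        have := ((piece_up hU hL hq x).mp hmem).2
        exact hx q hq p0 hp0 hne (this.trans e0)
      · intro h; exact absurd hp0 h
    · rw [indicator_of_notMem hxD]
      refine Finset.sum_eq_zero fun p hp => ?_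
      rw [indicator_of_notMem]
      exact fun hmem => hxD ((piece_up hU hL hp x).mp hmem).1
  have hsumL : ∑ p ∈ L, Real.exp (t * p.2) * lap (piece (ULZ U L Z) p) (z + t • p.1) =
      ∫ x, (prj U L Z).indicator (fun x => Real.exp (x ⬝ᵥ z) * Real.exp (t * lo L hL x)) x := by
    rw [Finset.sum_congr rfl fun p _ => hpe p, ← integral_finsetSum L fun p _ => hpi p]
    refine integral_congr_ae ?_
    filter_upwards [ae_no_tie L] with x hx
    by_cases hxD : x ∈ prj U L Z
    · rw [indicator_of_mem hxD]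
      obtain ⟨p0, hp0, hp0e⟩ := Finset.exists_mem_eq_sup' hL fun p => av p x
      have e0 : lo L hL x = av p0 x := hp0e
      rw [Finset.sum_eq_single p0]
      · rw [indicator_of_mem ((piece_lo hU hL hp0 x).mpr ⟨hxD, e0.symm⟩), e0]
      · intro q hq hne
        rw [indicator_of_notMem]
        intro hmem
        have := ((piece_lo hU hL hq x).mp hmem).2
        exact hx q hq p0 hp0 hne (this.trans e0)
      · intro h; exact absurd hp0 h
    · rw [indicator_of_notMem hxD]
      refine Finset.sum_eq_zero fun p hp => ?_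
      rw [indicator_of_notMem]
      exact fun hmem => hxD ((piece_lo hU hL hp x).mp hmem).1
  have hcup : Continuous (up U hU) := Continuous.finset_inf'_apply hU fun p _ => continuous_av p
  have hclo : Continuous (lo L hL) := Continuous.finset_sup'_apply hL fun p _ => continuous_av p
  have hiU : Integrable ((prj U L Z).indicator
      (fun x => Real.exp (x ⬝ᵥ z) * Real.exp (t * up U hU x))) := by
    rw [integrable_indicator_iff hDm]
    have hc : Continuous fun x : Vec n => Real.exp (x ⬝ᵥ z) * Real.exp (t * up U hU x) :=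
      (continuous_expdot z).mul (Real.continuous_exp.comp (continuous_const.mul hcup))
    exact (hc.continuousOn.integrableOn_compact hD.isCompact_closure).mono_set subset_closure
  have hiL : Integrable ((prj U L Z).indicator
      (fun x => Real.exp (x ⬝ᵥ z) * Real.exp (t * lo L hL x))) := by
    rw [integrable_indicator_iff hDm]
    have hc : Continuous fun x : Vec n => Real.exp (x ⬝ᵥ z) * Real.exp (t * lo L hL x) :=
      (continuous_expdot z).mul (Real.continuous_exp.comp (continuous_const.mul hclo))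
    exact (hc.continuousOn.integrableOn_compact hD.isCompact_closure).mono_set subset_closure
  rw [hsumU, hsumL, ← integral_sub hiU hiL, lap_fubini hK (isClosed_ulz U L Z).measurableSet,
    ← integral_const_mul]
  refine integral_congr_ae (Eventually.of_forall fun x => ?_)
  simp only
  by_cases hxD : x ∈ prj U L Z
  · rw [indicator_of_mem hxD, indicator_of_mem hxD]
    have h1 : ∀ s : ℝ, (ULZ U L Z).indicator
        (fun w : Vec (n + 1) => Real.exp (w ⬝ᵥ (Fin.cons t z : Vec (n + 1))))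
        (Fin.cons s x : Vec (n + 1)) =
        (Icc (lo L hL x) (up U hU x)).indicator
          (fun s => Real.exp (x ⬝ᵥ z) * Real.exp (s * t)) s := by
      intro s
      by_cases hs : s ∈ Icc (lo L hL x) (up U hU x)
      · rw [indicator_of_mem hs, indicator_of_mem ((mem_ulz' hU hL s x).mpr ⟨hxD, hs⟩),
          cons_dot_cons, ← Real.exp_add, add_comm]
      · rw [indicator_of_notMem hs, indicator_of_notMem]
        exact fun hmem => hs ((mem_ulz' hU hL s x).mp hmem).2
    simp_rw [h1]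
    rw [integral_indicator measurableSet_Icc, integral_const_mul]
    have := int_exp_Icc (lo_le_up hU hL hxD) t
    calc t * (Real.exp (x ⬝ᵥ z) * ∫ s in Icc (lo L hL x) (up U hU x), Real.exp (s * t))
        = Real.exp (x ⬝ᵥ z) * (t * ∫ s in Icc (lo L hL x) (up U hU x), Real.exp (s * t)) := by ring
      _ = _ := by rw [this, mul_comm t, mul_comm t]; ring
  · rw [indicator_of_notMem hxD, indicator_of_notMem hxD]
    have h1 : ∀ s : ℝ, (ULZ U L Z).indicator
        (fun w : Vec (n + 1) => Real.exp (w ⬝ᵥ (Fin.cons t z : Vec (n + 1))))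
        (Fin.cons s x : Vec (n + 1)) = 0 := by
      intro s
      rw [indicator_of_notMem]
      exact fun hmem => hxD ((mem_ulz' hU hL s x).mp hmem).1
    simp_rw [h1]
    simp

end Pool.Agent.Covg
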