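import Pool.Agent.Work.MP_177351_gt.One
import Pool.Agent.Work.MP_177351_gt.Alg
import Pool.Agent.Work.MP_177351_gt.Lap
import Pool.Agent.Work.MP_177351_gt.VtoH
import Pool.Agent.Work.MP_177351_gt.Recur
import Pool.Agent.Work.MP_177351_gt.Rep

/-!
# The top coefficients of the formal transform (module Top)
-/

set_option autoImplicit false

open MeasureTheory MvPolynomial Set Filter Topology
open scoped Pointwise Matrix

namespace Pool.Agent.Covg

theorem eval_lin_top {n : ℕ} (a z : Vec n) : MvPolynomial.eval z (lin a) = a ⬝ᵥ z := by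
  unfold lin dotProduct
  simp

theorem lin_ne_zero_top {n : ℕ} {a : Vec n} (ha : a ≠ 0) : (lin a : Pol n) ≠ 0 := by
  intro h
  apply ha
  have h1 := eval_lin_top a a
  rw [h, map_zero] at h1
  exact dotProduct_self_eq_zero.mp h1.symm

theorem dense_eval_ne_top {n : ℕ} {W : Pol n} (hW : W ≠ 0) :
    Dense {z : Vec n | MvPolynomial.eval z W ≠ 0} := by
  intro x
  rw [Metric.mem_closure_iff]
  intro ε hε
  by_contra hcon
  push Not at hcon
  apply hW
  refine MvPolynomial.funext_set (s := fun i => Ioo (x i - ε) (x i + ε)) ?_ ?_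
  · intro i
    exact Ioo_infinite (by linarith)
  · intro z hz
    rw [map_zero]
    by_contra hz'
    have h1 := hcon z hz'
    have h2 : dist x z < ε := by
      rw [dist_pi_lt_iff hε]
      intro i
      have := hz i (mem_univ i)
      rw [Real.dist_eq, abs_lt]
      constructor
      · linarith [this.2]
      · linarith [this.1]
    linarith

theorem coeff_sum_single_top {ι : Type} (I : Finset ι) (y : ι → ℝ) (Q : ι → Polynomial ℝ)
    (c : ℝ) [DecidablePred fun k => y k = c] :
    (∑ k ∈ I, (AddMonoidAlgebra.single (y k) (Q k) : E1)).coeff c = ∑ k ∈ I with y k = c, Q k := by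
  classical
  rw [AddMonoidAlgebra.coeff_sum, Finsupp.finsetSum_apply, Finset.sum_filter]
  refine Finset.sum_congr rfl fun k _ => ?_
  rw [AddMonoidAlgebra.coeff_single, Finsupp.single_apply]

theorem top_ov {ι β : Type} [DecidableEq ι] (I : Finset ι) (yk : ι → ℝ) (g : ι → ℝ)
    (Den : ι → Polynomial ℝ) (hDen : ∀ k ∈ I, Den k ≠ 0) (V : Finset β) (yv : β → ℝ)
    (P : β → Polynomial ℝ) (Cz : Polynomial ℝ) (hC : Cz ≠ 0)
    (h : ∀ t : ℝ, (∀ k ∈ I, (Den k).eval t ≠ 0) →
      t * ∑ v ∈ V, (P v).eval t * Real.exp (yv v * t) =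
        Cz.eval t * ∑ k ∈ I, g k / (Den k).eval t * Real.exp (yk k * t))
    (Lim : ι → ℝ) (hLim : ∀ k ∈ I, Tendsto (fun t => g k / (Den k).eval t) atTop (𝓝 (Lim k)))
    (y : ℝ) [DecidablePred fun v => yv v = y] [DecidablePred fun k => yk k = y]
    (k : ℕ) (hk : Cz.natDegree ≤ k) :
    (Polynomial.X * ∑ v ∈ V with yv v = y, P v).coeff k =
      (∑ k ∈ I with yk k = y, Lim k) * Cz.coeff k := by
  classical
  set Dn := ∏ k ∈ I, Den k with hDn
  have hDn0 : Dn ≠ 0 := Finset.prod_ne_zero_iff.mpr hDen
  set Dk : ι → Polynomial ℝ := fun k => ∏ j ∈ I.erase k, Den j with hDk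
  have hDk' : ∀ k ∈ I, Dn = Den k * Dk k := fun k hk => (Finset.mul_prod_erase I Den hk).symm
  set F : E1 := ∑ v ∈ V, (AddMonoidAlgebra.single (yv v) (Polynomial.X * P v * Dn) : E1) -
    ∑ k ∈ I, (AddMonoidAlgebra.single (yk k) (Cz * Polynomial.C (g k) * Dk k) : E1) with hF
  have hroots : ∀ᶠ t : ℝ in atTop, Dn.eval t ≠ 0 := by
    have := Polynomial.eventually_atTop_not_isRoot Dn hDn0
    filter_upwards [this] with t ht
    exact ht
  have hroots' : ∀ t : ℝ, Dn.eval t ≠ 0 → ∀ k ∈ I, (Den k).eval t ≠ 0 := by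
    intro t ht k hk hk0
    apply ht
    rw [hDk' k hk, Polynomial.eval_mul, hk0, zero_mul]
  have hF0 : F = 0 := by
    apply ev1_inj
    filter_upwards [hroots] with t ht
    have hden := hroots' t ht
    rw [hF, map_sub, map_sum, map_sum]
    simp only [ev1_single, Polynomial.eval_mul, Polynomial.eval_X, Polynomial.eval_C]
    have e1 : ∑ v ∈ V, t * (P v).eval t * Dn.eval t * Real.exp (yv v * t) =
        Dn.eval t * (t * ∑ v ∈ V, (P v).eval t * Real.exp (yv v * t)) := by
      rw [Finset.mul_sum, Finset.mul_sum]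
      exact Finset.sum_congr rfl fun v _ => by ring
    rw [e1, h t hden, Finset.mul_sum, Finset.mul_sum, ← Finset.sum_sub_distrib]
    refine Finset.sum_eq_zero fun k hk => ?_
    have hd := hden k hk
    rw [hDk' k hk, Polynomial.eval_mul]
    field_simp
    ring
  have hcy : (∑ v ∈ V with yv v = y, Polynomial.X * P v * Dn) =
      ∑ k ∈ I with yk k = y, Cz * Polynomial.C (g k) * Dk k := by
    have h1 : F.coeff y = 0 := by rw [hF0]; simp
    rw [hF, AddMonoidAlgebra.coeff_sub, Finsupp.sub_apply, coeff_sum_single_top,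
      coeff_sum_single_top] at h1
    exact sub_eq_zero.mp h1
  set Py := ∑ v ∈ V with yv v = y, P v with hPy
  set Ly := ∑ k ∈ I with yk k = y, Lim k with hLy
  have hroots2 : ∀ᶠ t : ℝ in atTop, Cz.eval t ≠ 0 := by
    have := Polynomial.eventually_atTop_not_isRoot Cz hC
    filter_upwards [this] with t ht
    exact ht
  have hlim : Tendsto (fun t : ℝ => (Polynomial.X * Py).eval t / Cz.eval t) atTop (𝓝 Ly) := by
    have h1 : Tendsto (fun t : ℝ => ∑ k ∈ I with yk k = y, g k / (Den k).eval t) atTop (𝓝 Ly) :=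
      tendsto_finsetSum _ fun k hk => hLim k (Finset.mem_filter.mp hk).1
    refine h1.congr' ?_
    filter_upwards [hroots, hroots2] with t ht htC
    have hden := hroots' t ht
    rw [eq_div_iff htC]
    apply mul_right_cancel₀ ht
    have h2 := congrArg (Polynomial.eval t) hcy
    simp only [Polynomial.eval_finsetSum, Polynomial.eval_mul, Polynomial.eval_X,
      Polynomial.eval_C] at h2
    have e3 : (Polynomial.X * Py).eval t * Dn.eval t =
        ∑ v ∈ V with yv v = y, t * (P v).eval t * Dn.eval t := by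
      rw [Polynomial.eval_mul, Polynomial.eval_X, hPy, Polynomial.eval_finsetSum, Finset.mul_sum,
        Finset.sum_mul]
    rw [e3, h2, Finset.sum_mul, Finset.sum_mul]
    refine Finset.sum_congr rfl fun k hk => ?_
    have hkI := (Finset.mem_filter.mp hk).1
    have hd := hden k hkI
    rw [hDk' k hkI, Polynomial.eval_mul]
    field_simp
  set W := Polynomial.X * Py - Polynomial.C Ly * Cz with hW
  have hWlim : Tendsto (fun t : ℝ => W.eval t / Cz.eval t) atTop (𝓝 0) := by
    have h1 := hlim.sub_const Ly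
    rw [sub_self] at h1
    refine h1.congr' ?_
    filter_upwards [hroots2] with t htC
    rw [hW, Polynomial.eval_sub, Polynomial.eval_mul (p := Polynomial.C Ly), Polynomial.eval_C]
    field_simp
  have hdeg := (Polynomial.div_tendsto_atTop_zero_iff_degree_lt W Cz hC).mp hWlim
  have hcoef : W.coeff k = 0 := by
    apply Polynomial.coeff_eq_zero_of_degree_lt
    refine lt_of_lt_of_le hdeg ?_
    rw [Polynomial.degree_eq_natDegree hC]
    exact_mod_cast hk
  rw [hW, Polynomial.coeff_sub, Polynomial.coeff_C_mul] at hcoef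
  linarith

/-- a vector orthogonal to `n` linearly independent vectors vanishes -/
theorem exists_dot_ne_top {n : ℕ} {u : Fin n → Vec n} (hu : LinearIndependent ℝ u) {a : Vec n}
    (ha : a ≠ 0) : ∃ i, u i ⬝ᵥ a ≠ 0 := by
  by_contra hcon
  push Not at hcon
  apply ha
  have hspan : Submodule.span ℝ (Set.range u) = ⊤ :=
    hu.span_eq_top_of_card_eq_finrank' (by simp)
  have h1 : ∀ w : Vec n, w ⬝ᵥ a = 0 := by
    intro w
    have hw : w ∈ Submodule.span ℝ (Set.range u) := by rw [hspan]; trivial
    induction hw using Submodule.span_induction with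
    | mem x hx =>
      obtain ⟨i, rfl⟩ := hx
      exact hcon i
    | zero => simp
    | add x y _ _ hx hy => rw [add_dotProduct, hx, hy, add_zero]
    | smul c x _ hx => rw [smul_dotProduct, hx, smul_zero]
  exact dotProduct_self_eq_zero.mp (h1 a)

/-- the denominators -/
noncomputable def denT {n : ℕ} (u : Fin n → Vec n) (z a : Vec n) : Polynomial ℝ :=
  ∏ i, (Polynomial.C (u i ⬝ᵥ z) + Polynomial.C (u i ⬝ᵥ a) * Polynomial.X)

theorem eval_denT {n : ℕ} (u : Fin n → Vec n) (z a : Vec n) (t : ℝ) :
    (denT u z a).eval t = ∏ i, u i ⬝ᵥ (z + t • a) := by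
  unfold denT
  rw [Polynomial.eval_prod]
  refine Finset.prod_congr rfl fun i _ => ?_
  simp only [Polynomial.eval_add, Polynomial.eval_mul, Polynomial.eval_C, Polynomial.eval_X,
    dotProduct_add, dotProduct_smul, smul_eq_mul]
  ring

theorem denT_ne_zero {n : ℕ} {u : Fin n → Vec n} {z a : Vec n} (hz : ∀ i, u i ⬝ᵥ z ≠ 0) :
    denT u z a ≠ 0 := by
  intro h
  have h1 := eval_denT u z a 0
  rw [h, Polynomial.eval_zero, zero_smul, add_zero] at h1
  exact Finset.prod_ne_zero_iff.mpr (fun i _ => hz i) h1.symm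

theorem tendsto_denT {n : ℕ} {u : Fin n → Vec n} (hu : LinearIndependent ℝ u) {z a : Vec n}
    (hz : ∀ i, u i ⬝ᵥ z ≠ 0) (ha : a ≠ 0) (g : ℝ) :
    Tendsto (fun t => g / (denT u z a).eval t) atTop (𝓝 0) := by
  have hne := denT_ne_zero (a := a) hz
  obtain ⟨i, hi⟩ := exists_dot_ne_top hu ha
  have hdeg : (Polynomial.C g).degree < (denT u z a).degree := by
    have h1 : 1 ≤ (denT u z a).natDegree := by
      unfold denT
      rw [Polynomial.natDegree_prod]
      · have h2 : (Polynomial.C (u i ⬝ᵥ z) + Polynomial.C (u i ⬝ᵥ a) * Polynomial.X :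
            Polynomial ℝ).natDegree = 1 := by
          rw [add_comm]
          exact Polynomial.natDegree_linear hi
        calc 1 = _ := h2.symm
          _ ≤ _ := Finset.single_le_sum (f := fun i => (Polynomial.C (u i ⬝ᵥ z) +
            Polynomial.C (u i ⬝ᵥ a) * Polynomial.X : Polynomial ℝ).natDegree)
            (fun _ _ => Nat.zero_le _) (Finset.mem_univ i)
      · intro j _ h0
        apply hz j
        have := congrArg (Polynomial.eval 0) h0
        simpa using this
    rw [Polynomial.degree_eq_natDegree hne]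
    refine lt_of_le_of_lt Polynomial.degree_C_le ?_
    exact_mod_cast h1
  have := Polynomial.div_tendsto_atTop_zero_of_degree_lt (Polynomial.C g) (denT u z a) hdeg
  simpa only [Polynomial.eval_C] using this

theorem dot_cons_top {n : ℕ} (v : Vec (n + 1)) (t : ℝ) (z : Vec n) :
    v ⬝ᵥ (Fin.cons t z : Vec (n + 1)) = v 0 * t + Fin.tail v ⬝ᵥ z := by
  unfold dotProduct
  rw [Fin.sum_univ_succ]
  simp [Fin.tail]

open Classical in
/-- The identity of the top coefficients for generic `z`. -/
theorem top_generic {n : ℕ} {K : Set (Vec (n + 1))} {C : Pol (n + 1)} {R : EA (n + 1)}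
    (hT : ∀ z, ev z R = MvPolynomial.eval z C * lap K z)
    {U L Z : Finset (Vec n × ℝ)} (hU : U.Nonempty) (hL : L.Nonempty) (hK : K = ULZ U L Z)
    (hKb : Bornology.IsBounded K)
    (N : Vec n × ℝ → ℕ) (c : (p : Vec n × ℝ) → Fin (N p) → ℝ)
    (v : (p : Vec n × ℝ) → Fin (N p) → Vec n) (u : (p : Vec n × ℝ) → Fin (N p) → Fin n → Vec n)
    (hli : ∀ p j, LinearIndependent ℝ (u p j))
    (hrep : ∀ p z, (∀ j i, u p j i ⬝ᵥ z ≠ 0) → lap (piece K p) z =
      ∑ j, c p j * Real.exp (v p j ⬝ᵥ z) / ∏ i, (u p j i ⬝ᵥ z))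
    {z : Vec n} (hz : ∀ p ∈ U ∪ L, ∀ j i, u p j i ⬝ᵥ z ≠ 0)
    (hCz : (finSuccEquiv ℝ n C).map (MvPolynomial.eval z) ≠ 0) (y : ℝ) (k : ℕ)
    (hk : ((finSuccEquiv ℝ n C).map (MvPolynomial.eval z)).natDegree ≤ k) :
    (Polynomial.X * ∑ w ∈ R.coeff.support.filter (fun w : Vec (n + 1) => w 0 = y),
      (finSuccEquiv ℝ n (R.coeff w)).map (MvPolynomial.eval z) *
        Polynomial.C (Real.exp (Fin.tail w ⬝ᵥ z))).coeff k =
      ((if ((0 : Vec n), y) ∈ U then lap (slice K y) z else 0) -
        (if ((0 : Vec n), y) ∈ L then lap (slice K y) z else 0)) *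
        ((finSuccEquiv ℝ n C).map (MvPolynomial.eval z)).coeff k := by
  -- index set
  let pr : (Vec n × ℝ) ⊕ (Vec n × ℝ) → Vec n × ℝ := Sum.elim id id
  let sg : (Vec n × ℝ) ⊕ (Vec n × ℝ) → ℝ := Sum.elim (fun _ => 1) (fun _ => -1)
  let I : Finset (Σ q : (Vec n × ℝ) ⊕ (Vec n × ℝ), Fin (N (pr q))) :=
    (U.disjSum L).sigma fun _ => Finset.univ
  have hprI : ∀ q ∈ U.disjSum L, pr q ∈ U ∪ L := by
    intro q hq
    rcases Finset.mem_disjSum.mp hq with ⟨p, hp, rfl⟩ | ⟨p, hp, rfl⟩
    · exact Finset.mem_union_left _ hp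
    · exact Finset.mem_union_right _ hp
  have hzI : ∀ k ∈ I, ∀ i, u (pr k.1) k.2 i ⬝ᵥ z ≠ 0 := by
    intro k hk i
    exact hz _ (hprI _ (Finset.mem_sigma.mp hk).1) _ _
  -- the data
  let yk : (Σ q : (Vec n × ℝ) ⊕ (Vec n × ℝ), Fin (N (pr q))) → ℝ :=
    fun k => (pr k.1).2 + v (pr k.1) k.2 ⬝ᵥ (pr k.1).1
  let g : (Σ q : (Vec n × ℝ) ⊕ (Vec n × ℝ), Fin (N (pr q))) → ℝ :=
    fun k => sg k.1 * (c (pr k.1) k.2 * Real.exp (v (pr k.1) k.2 ⬝ᵥ z))
  let Den : (Σ q : (Vec n × ℝ) ⊕ (Vec n × ℝ), Fin (N (pr q))) → Polynomial ℝ :=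
    fun k => denT (u (pr k.1) k.2) z (pr k.1).1
  let Lim : (Σ q : (Vec n × ℝ) ⊕ (Vec n × ℝ), Fin (N (pr q))) → ℝ :=
    fun k => if (pr k.1).1 = 0 then g k / ∏ i, (u (pr k.1) k.2 i ⬝ᵥ z) else 0
  have hmain := top_ov I yk g Den (fun k hk => denT_ne_zero (hzI k hk)) R.coeff.support
    (fun w => w 0) (fun w => (finSuccEquiv ℝ n (R.coeff w)).map (MvPolynomial.eval z) *
        Polynomial.C (Real.exp (Fin.tail w ⬝ᵥ z)))
    ((finSuccEquiv ℝ n C).map (MvPolynomial.eval z)) hCz ?_ Lim ?_ y k hk
  · rw [hmain]
    congr 1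
    -- compute the limit
    rw [Finset.sum_filter, Finset.sum_sigma]
    have hq : ∀ q ∈ U.disjSum L, (∑ j : Fin (N (pr q)), if yk ⟨q, j⟩ = y then Lim ⟨q, j⟩ else 0) =
        if pr q = (0, y) then sg q * lap (slice K y) z else 0 := by
      intro q hq
      by_cases h0 : (pr q).1 = 0
      · have hyk : ∀ j, yk ⟨q, j⟩ = (pr q).2 := by
          intro j
          simp only [yk, h0, dotProduct_zero, add_zero]
        by_cases hy : (pr q).2 = y
        · have hpq : pr q = (0, y) := Prod.ext h0 hy
          rw [if_pos hpq]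
          have hs : slice K y = piece K (pr q) := by
            rw [hpq]
            unfold slice piece
            simp
          rw [hs, hrep (pr q) z (hz _ (hprI q hq)), Finset.mul_sum]
          refine Finset.sum_congr rfl fun j _ => ?_
          rw [if_pos ((hyk j).trans hy)]
          simp only [Lim, g]
          rw [if_pos h0]
          ring
        · have hpq : pr q ≠ (0, y) := fun h => hy (by rw [h])
          rw [if_neg hpq]
          refine Finset.sum_eq_zero fun j _ => ?_
          rw [if_neg (fun h => hy ((hyk j).symm.trans h))]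
      · have hpq : pr q ≠ (0, y) := fun h => h0 (by rw [h])
        rw [if_neg hpq]
        refine Finset.sum_eq_zero fun j _ => ?_
        simp only [Lim]
        rw [if_neg h0, ite_self]
    rw [Finset.sum_congr rfl hq, Finset.sum_disjSum]
    simp only [pr, sg, Sum.elim_inl, Sum.elim_inr, id, one_mul, neg_mul]
    rw [Finset.sum_ite_eq', Finset.sum_ite_eq']
    split_ifs <;> ring
  · -- the identity
    intro t ht
    have hL1 : ∑ w ∈ R.coeff.support, ((finSuccEquiv ℝ n (R.coeff w)).map (MvPolynomial.eval z) *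
        Polynomial.C (Real.exp (Fin.tail w ⬝ᵥ z))).eval t * Real.exp (w 0 * t) =
        ev (Fin.cons t z : Vec (n + 1)) R := by
      rw [ev_apply]
      refine Finset.sum_congr rfl fun w _ => ?_
      rw [Polynomial.eval_mul, Polynomial.eval_C, eval_eq_eval_mv_eval', dot_cons_top, Real.exp_add]
      ring
    rw [hL1, hT, eval_eq_eval_mv_eval', mul_left_comm]
    congr 1
    rw [hK] at hKb
    have h1 := lap_succ hU hL hKb t z
    rw [← hK] at h1
    rw [h1, Finset.sum_sigma, Finset.sum_disjSum]
    have hterm : ∀ q ∈ U.disjSum L, ∑ j : Fin (N (pr q)), g ⟨q, j⟩ / (Den ⟨q, j⟩).eval t *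
        Real.exp (yk ⟨q, j⟩ * t) = sg q * (Real.exp (t * (pr q).2) *
          lap (piece K (pr q)) (z + t • (pr q).1)) := by
      intro q hq
      rw [hrep (pr q) (z + t • (pr q).1), Finset.mul_sum, Finset.mul_sum]
      · refine Finset.sum_congr rfl fun j _ => ?_
        simp only [g, Den, yk, eval_denT]
        rw [dotProduct_add, dotProduct_smul, smul_eq_mul, add_mul, Real.exp_add, Real.exp_add,
          mul_comm (pr q).2 t, mul_comm (v (pr q) j ⬝ᵥ (pr q).1) t]
        ring
      · intro j i
        have h2 := ht ⟨q, j⟩ (Finset.mem_sigma.mpr ⟨hq, Finset.mem_univ _⟩)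
        simp only [Den, eval_denT] at h2
        exact Finset.prod_ne_zero_iff.mp h2 i (Finset.mem_univ i)
    have hU' : ∀ p ∈ U, ∑ j : Fin (N (pr (Sum.inl p))), g ⟨Sum.inl p, j⟩ / (Den ⟨Sum.inl p, j⟩).eval t *
        Real.exp (yk ⟨Sum.inl p, j⟩ * t) = Real.exp (t * p.2) * lap (piece K p) (z + t • p.1) := by
      intro p hp
      rw [hterm (Sum.inl p) (Finset.inl_mem_disjSum.mpr hp)]
      simp [sg, pr]
    have hL' : ∀ p ∈ L, ∑ j : Fin (N (pr (Sum.inr p))), g ⟨Sum.inr p, j⟩ / (Den ⟨Sum.inr p, j⟩).eval t *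
        Real.exp (yk ⟨Sum.inr p, j⟩ * t) = -(Real.exp (t * p.2) * lap (piece K p) (z + t • p.1)) := by
      intro p hp
      rw [hterm (Sum.inr p) (Finset.inr_mem_disjSum.mpr hp)]
      simp [sg, pr]
    rw [Finset.sum_congr rfl hU', Finset.sum_congr rfl hL', Finset.sum_neg_distrib]
    ring
  · -- the limits
    intro k hk
    simp only [Lim]
    by_cases h0 : (pr k.1).1 = 0
    · rw [if_pos h0]
      have : ∀ t, (Den k).eval t = ∏ i, (u (pr k.1) k.2 i ⬝ᵥ z) := by
        intro t
        simp only [Den, eval_denT, h0, smul_zero, add_zero]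
      simp only [this]
      exact tendsto_const_nhds
    · rw [if_neg h0]
      exact tendsto_denT (hli _ _) (hzI k hk) h0 _

theorem isCompact_slice_top {n : ℕ} {K : Set (Vec (n + 1))} (hK : IsCompact K) (t : ℝ) :
    IsCompact (slice K t) := by
  have h1 : IsClosed (slice K t) := by
    have hc : Continuous fun x : Vec n => (Fin.cons t x : Vec (n + 1)) := by
      refine continuous_pi fun i => ?_
      refine Fin.cases ?_ (fun j => ?_) i
      · simpa using continuous_const
      · simpa using continuous_apply j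
    exact hK.isClosed.preimage hc
  have h2 : IsCompact ((fun x : Vec (n + 1) => (Fin.tail x : Vec n)) '' K) := by
    refine hK.image ?_
    exact continuous_pi fun i => continuous_apply i.succ
  refine h2.of_isClosed_subset h1 ?_
  intro x hx
  exact ⟨_, hx, by simp⟩

theorem ev_single_top {n : ℕ} (z a : Vec n) (M : Pol n) :
    ev z (AddMonoidAlgebra.single a M) = MvPolynomial.eval z M * Real.exp (a ⬝ᵥ z) := by
  unfold ev
  exact AddMonoidAlgebra.liftNC_single _ _ _ _

theorem lap_empty_top {n : ℕ} (z : Vec n) : lap (∅ : Set (Vec n)) z = 0 := by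
  unfold lap
  simp

theorem top_formula {n : ℕ} {K : Set (Vec (n + 1))} {C : Pol (n + 1)} {R : EA (n + 1)}
    (hb : Body K) (hT : TrC K C R) {h h' : ℝ} (h1 : ∀ x ∈ K, x 0 ≤ h) (h2 : ∃ x ∈ K, x 0 = h)
    (h1' : ∀ x ∈ K, h' ≤ x 0) (h2' : ∃ x ∈ K, x 0 = h') :
    (∀ v, (finSuccEquiv ℝ n (R.coeff v)).natDegree < (finSuccEquiv ℝ n C).natDegree) ∧
    ∀ (y : ℝ) (z : Vec n), ∑ v ∈ R.coeff.support with v 0 = y,
        eval z ((finSuccEquiv ℝ n (R.coeff v)).coeff ((finSuccEquiv ℝ n C).natDegree - 1)) *
          Real.exp (Fin.tail v ⬝ᵥ z) =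
      eval z (finSuccEquiv ℝ n C).leadingCoeff *
        ((if y = h then lap (slice K h) z else 0) - (if y = h' then lap (slice K h') z else 0)) := by
  classical
  have hHP : HPoly K := by
    rw [← Nw_eq hb hT]
    exact hpoly_convexHull _
  obtain ⟨U, L, Z, hU, hL, hK⟩ := hpoly_ulz hHP h1 h1'
  have hrep0 : ∀ p, HasRep (lap (piece K p)) ((piece K p).extremePoints ℝ) :=
    fun p => hasRep (hpoly_piece hHP p)
  unfold HasRep at hrep0
  choose N c v u hv hli hrep using hrep0
  set Cs := finSuccEquiv ℝ n C with hCs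
  set D := Cs.natDegree with hD
  have hCs0 : Cs ≠ 0 := by
    intro h0
    apply hT.ne
    have : finSuccEquiv ℝ n C = finSuccEquiv ℝ n 0 := by rw [← hCs, h0, map_zero]
    exact (finSuccEquiv ℝ n).injective this
  have hlc : Cs.leadingCoeff ≠ 0 := Polynomial.leadingCoeff_ne_zero.mpr hCs0
  set W : Pol n := Cs.leadingCoeff * ∏ p ∈ U ∪ L, ∏ j, ∏ i, lin (u p j i) with hW
  have hW0 : W ≠ 0 := by
    refine mul_ne_zero hlc (Finset.prod_ne_zero_iff.mpr fun p _ =>
      Finset.prod_ne_zero_iff.mpr fun j _ => Finset.prod_ne_zero_iff.mpr fun i _ =>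
        lin_ne_zero_top ((hli p j).ne_zero i))
  have hdense := dense_eval_ne_top hW0
  -- the generic statement
  have hgen : ∀ z : Vec n, MvPolynomial.eval z W ≠ 0 → ∀ (y : ℝ) (k : ℕ), D ≤ k →
      (Polynomial.X * ∑ w ∈ R.coeff.support.filter (fun w : Vec (n + 1) => w 0 = y),
      (finSuccEquiv ℝ n (R.coeff w)).map (MvPolynomial.eval z) *
        Polynomial.C (Real.exp (Fin.tail w ⬝ᵥ z))).coeff k =
      ((if ((0 : Vec n), y) ∈ U then lap (slice K y) z else 0) -
        (if ((0 : Vec n), y) ∈ L then lap (slice K y) z else 0)) *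
        (Cs.map (MvPolynomial.eval z)).coeff k := by
    intro z hz y k hk
    rw [hW, map_mul] at hz
    have hz1 : MvPolynomial.eval z Cs.leadingCoeff ≠ 0 := left_ne_zero_of_mul hz
    have hz2 : ∀ p ∈ U ∪ L, ∀ j i, u p j i ⬝ᵥ z ≠ 0 := by
      intro p hp j i
      have h3 := right_ne_zero_of_mul hz
      rw [map_prod] at h3
      have h4 := Finset.prod_ne_zero_iff.mp h3 p hp
      rw [map_prod] at h4
      have h5 := Finset.prod_ne_zero_iff.mp h4 j (Finset.mem_univ j)
      rw [map_prod] at h5
      have h6 := Finset.prod_ne_zero_iff.mp h5 i (Finset.mem_univ i)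
      rwa [eval_lin_top] at h6
    have hnd : (Cs.map (MvPolynomial.eval z)).natDegree = D :=
      Polynomial.natDegree_map_of_leadingCoeff_ne_zero _ hz1
    have hC0 : Cs.map (MvPolynomial.eval z) ≠ 0 := by
      intro h0
      apply hz1
      have h3 := congrArg (fun q => Polynomial.coeff q D) h0
      simp only [Polynomial.coeff_map, Polynomial.coeff_zero] at h3
      exact h3
    exact top_generic hT.eq ⟨_, hU⟩ ⟨_, hL⟩ hK hb.comp.isBounded N c v u hli
      (fun p z hz => hrep p z hz) hz2 hC0 y k (by rw [hnd]; exact hk)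
  -- coefficients of the sums
  have hcoef : ∀ (z : Vec n) (y : ℝ) (k : ℕ),
      (∑ w ∈ R.coeff.support.filter (fun w : Vec (n + 1) => w 0 = y),
      (finSuccEquiv ℝ n (R.coeff w)).map (MvPolynomial.eval z) *
        Polynomial.C (Real.exp (Fin.tail w ⬝ᵥ z))).coeff k =
      ∑ w ∈ R.coeff.support.filter (fun w : Vec (n + 1) => w 0 = y),
        eval z ((finSuccEquiv ℝ n (R.coeff w)).coeff k) * Real.exp (Fin.tail w ⬝ᵥ z) := by
    intro z y k
    rw [Polynomial.finsetSum_coeff]
    refine Finset.sum_congr rfl fun w _ => ?_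
    rw [Polynomial.coeff_mul_C, Polynomial.coeff_map]
  have hcontF : ∀ (y : ℝ) (k : ℕ), Continuous fun z : Vec n =>
      ∑ w ∈ R.coeff.support.filter (fun w : Vec (n + 1) => w 0 = y),
        eval z ((finSuccEquiv ℝ n (R.coeff w)).coeff k) * Real.exp (Fin.tail w ⬝ᵥ z) := by
    intro y k
    refine continuous_finsetSum _ fun w _ => ?_
    have h3 : Continuous fun z : Vec n => eval z ((finSuccEquiv ℝ n (R.coeff w)).coeff k) :=
      MvPolynomial.continuous_eval _
    have h4 : Continuous fun z : Vec n => Fin.tail w ⬝ᵥ z := by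
      unfold dotProduct
      fun_prop
    exact h3.mul (Real.continuous_exp.comp h4)
  -- vanishing of high coefficients
  have hA : ∀ k, D ≤ k → ∀ w, (finSuccEquiv ℝ n (R.coeff w)).coeff k = 0 := by
    intro k hk w
    by_cases hw : w ∈ R.coeff.support
    · have hzero : ∀ z : Vec n, ∑ w' ∈ R.coeff.support.filter (fun w' : Vec (n + 1) => w' 0 = w 0),
          eval z ((finSuccEquiv ℝ n (R.coeff w')).coeff k) * Real.exp (Fin.tail w' ⬝ᵥ z) = 0 := by
        have := Continuous.ext_on hdense (hcontF (w 0) k) continuous_const (g := fun _ => 0) ?_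
        · exact fun z => congrFun this z
        · intro z hz
          have h3 := hgen z hz (w 0) (k + 1) (by omega)
          rw [Polynomial.coeff_X_mul, hcoef] at h3
          have h4 : (Cs.map (MvPolynomial.eval z)).coeff (k + 1) = 0 := by
            rw [Polynomial.coeff_map, Polynomial.coeff_eq_zero_of_natDegree_lt (by omega), map_zero]
          rw [h4, mul_zero] at h3
          exact h3
      set G : EA n := ∑ w' ∈ R.coeff.support.filter (fun w' : Vec (n + 1) => w' 0 = w 0),
        AddMonoidAlgebra.single (Fin.tail w' : Vec n) ((finSuccEquiv ℝ n (R.coeff w')).coeff k)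
        with hG
      have hG0 : G = 0 := by
        apply ev_inj
        intro z
        rw [hG, map_sum, ← hzero z]
        exact Finset.sum_congr rfl fun w' _ => ev_single_top _ _ _
      have h5 : G.coeff (Fin.tail w) = (finSuccEquiv ℝ n (R.coeff w)).coeff k := by
        rw [hG, AddMonoidAlgebra.coeff_sum, Finsupp.finsetSum_apply]
        rw [Finset.sum_eq_single w]
        · rw [AddMonoidAlgebra.coeff_single, Finsupp.single_eq_same]
        · intro w' hw' hne
          rw [AddMonoidAlgebra.coeff_single, Finsupp.single_apply, if_neg]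
          intro h6
          apply hne
          have h7 := (Finset.mem_filter.mp hw').2
          rw [← Fin.cons_self_tail w', ← Fin.cons_self_tail w, h6, h7]
        · intro h6
          exact (h6 (by simpa using hw)).elim
      rw [← h5, hG0]
      simp
    · rw [Finsupp.notMem_support_iff.mp hw]
      simp
  have hD1 : 1 ≤ D := by
    by_contra hD0
    have hD0' : D = 0 := by omega
    have hR : R = 0 := by
      apply AddMonoidAlgebra.coeff_injective
      ext1 w
      have h3 : finSuccEquiv ℝ n (R.coeff w) = finSuccEquiv ℝ n 0 := by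
        rw [map_zero]
        ext1 k
        rw [hA k (by omega) w, Polynomial.coeff_zero]
      have h4 := (finSuccEquiv ℝ n).injective h3
      rw [h4]
      simp
    apply hT.ne
    apply MvPolynomial.funext
    intro z
    have h3 := hT.eq z
    rw [hR, map_zero] at h3
    have h4 := lap_pos hb z
    rw [map_zero]
    rcases mul_eq_zero.mp h3.symm with h5 | h5
    · exact h5
    · exact absurd h5 h4.ne'
  refine ⟨fun w => ?_, fun y z => ?_⟩
  · have h3 : (finSuccEquiv ℝ n (R.coeff w)).natDegree ≤ D - 1 := by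
      rw [Polynomial.natDegree_le_iff_coeff_eq_zero]
      intro k hk
      exact hA k (by omega) w
    omega
  · -- the value of the limit
    have hval : ∀ z : Vec n, ((if ((0 : Vec n), y) ∈ U then lap (slice K y) z else 0) -
        (if ((0 : Vec n), y) ∈ L then lap (slice K y) z else 0)) =
        ((if y = h then lap (slice K h) z else 0) - (if y = h' then lap (slice K h') z else 0)) := by
      intro z
      congr 1
      · by_cases hy : y = h
        · subst hy
          rw [if_pos hU, if_pos rfl]
        · rw [if_neg hy]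
          split_ifs with hyU
          · -- then `h < y` and the slice is empty
            have h3 : h < y := by
              obtain ⟨x, hx, hx0⟩ := h2
              have hx' := hx
              rw [hK] at hx'
              have := hx'.1 _ hyU
              simp only [dotProduct_zero, zero_add] at this
              rw [← hx0]
              rw [← hx0] at hy
              exact lt_of_le_of_ne this (Ne.symm hy)
            have h4 : slice K y = ∅ := by
              rw [Set.eq_empty_iff_forall_notMem]
              intro x hx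
              have h5 := h1 _ hx
              simp only [Fin.cons_zero] at h5
              linarith
            rw [h4, lap_empty_top]
          · rfl
      · by_cases hy : y = h'
        · subst hy
          rw [if_pos hL, if_pos rfl]
        · rw [if_neg hy]
          split_ifs with hyL
          · have h3 : y < h' := by
              obtain ⟨x, hx, hx0⟩ := h2'
              have hx' := hx
              rw [hK] at hx'
              have := hx'.2.1 _ hyL
              simp only [dotProduct_zero, zero_add] at this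
              rw [← hx0]
              rw [← hx0] at hy
              exact lt_of_le_of_ne this hy
            have h4 : slice K y = ∅ := by
              rw [Set.eq_empty_iff_forall_notMem]
              intro x hx
              have h5 := h1' _ hx
              simp only [Fin.cons_zero] at h5
              linarith
            rw [h4, lap_empty_top]
          · rfl
    have hcR : Continuous fun z : Vec n => eval z Cs.leadingCoeff *
        ((if y = h then lap (slice K h) z else 0) - (if y = h' then lap (slice K h') z else 0)) := by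
      have h3 : Continuous fun z : Vec n => eval z Cs.leadingCoeff :=
        MvPolynomial.continuous_eval _
      refine h3.mul (Continuous.sub ?_ ?_)
      · split_ifs
        · exact continuous_lap (isCompact_slice_top hb.comp h)
        · exact continuous_const
      · split_ifs
        · exact continuous_lap (isCompact_slice_top hb.comp h')
        · exact continuous_const
    have hext := Continuous.ext_on hdense (hcontF y (D - 1)) hcR ?_
    · exact congrFun hext z
    · intro z hz
      have h3 := hgen z hz y D le_rfl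
      obtain ⟨D', hD'⟩ : ∃ D', D = D' + 1 := ⟨D - 1, by omega⟩
      rw [hD', Polynomial.coeff_X_mul, hcoef, hval, ← hD', Polynomial.coeff_map] at h3
      have h4 : D - 1 = D' := by omega
      simp only
      rw [h4, h3, Polynomial.leadingCoeff]
      ring

end Pool.Agent.Covg
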