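import Pool.Agent.Work.MP_177351_gt.Trans
import Pool.Agent.Work.MP_177351_gt.Lap
import Pool.Agent.Work.MP_177351_gt.Top
import Pool.Agent.Work.MP_177351_gt.Rotate

/-!
# Descent of factor pairs to faces
-/

set_option autoImplicit false

open MeasureTheory MvPolynomial Set Filter Topology
open scoped Pointwise Matrix

namespace Pool.Agent.Covg

namespace FacetAux

open TransAux

variable {n : ℕ}

/-! ### coefficient of `τ^d` -/

/-- coefficient of `τ^d` as an additive map -/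
noncomputable def cf (n d : ℕ) : Pol (n + 1) →+ Pol n where
  toFun p := (finSuccEquiv ℝ n p).coeff d
  map_zero' := by simp
  map_add' p q := by simp

theorem cf_apply (d : ℕ) (p : Pol (n + 1)) : cf n d p = (finSuccEquiv ℝ n p).coeff d := rfl

theorem cf_mul {d e : ℕ} {p q : Pol (n + 1)} (hp : (finSuccEquiv ℝ n p).natDegree ≤ d)
    (hq : (finSuccEquiv ℝ n q).natDegree ≤ e) : cf n (d + e) (p * q) = cf n d p * cf n e q := by
  rw [cf_apply, map_mul]
  exact Polynomial.coeff_mul_add_eq_of_natDegree_le hp hq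

/-- the coefficient of `τ^d` in all coefficients -/
noncomputable def tp (d : ℕ) (P : EA (n + 1)) : AddMonoidAlgebra (Pol n) (Vec (n + 1)) :=
  AddMonoidAlgebra.map (cf n d) P

theorem tp_coeff (d : ℕ) (P : EA (n + 1)) (a : Vec (n + 1)) :
    (tp d P).coeff a = cf n d (P.coeff a) := rfl

theorem tp_eq (d : ℕ) (P : EA (n + 1)) :
    tp d P = ∑ a ∈ P.coeff.support, AddMonoidAlgebra.single a (cf n d (P.coeff a)) := by
  conv_lhs => rw [← AddMonoidAlgebra.sum_coeff_single P, Finsupp.sum]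
  unfold tp
  rw [AddMonoidAlgebra.map_sum]
  exact Finset.sum_congr rfl fun a _ => AddMonoidAlgebra.map_single _ _ _

theorem mul_expand {R M : Type} [CommRing R] [AddCommGroup M] (P Q : AddMonoidAlgebra R M) :
    P * Q = ∑ a ∈ P.coeff.support, ∑ b ∈ Q.coeff.support,
      AddMonoidAlgebra.single (a + b) (P.coeff a * Q.coeff b) := by
  conv_lhs => rw [← AddMonoidAlgebra.sum_coeff_single P, ← AddMonoidAlgebra.sum_coeff_single Q,
    Finsupp.sum, Finsupp.sum, Finset.sum_mul_sum]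
  refine Finset.sum_congr rfl fun a _ => Finset.sum_congr rfl fun b _ => ?_
  exact AddMonoidAlgebra.single_mul_single _ _ _ _

theorem tp_mul {d e : ℕ} {P Q : EA (n + 1)}
    (hP : ∀ a, (finSuccEquiv ℝ n (P.coeff a)).natDegree ≤ d)
    (hQ : ∀ a, (finSuccEquiv ℝ n (Q.coeff a)).natDegree ≤ e) :
    tp (d + e) (P * Q) = tp d P * tp e Q := by
  rw [mul_expand, tp_eq d P, tp_eq e Q, Finset.sum_mul_sum]
  unfold tp
  rw [AddMonoidAlgebra.map_sum]
  refine Finset.sum_congr rfl fun a _ => ?_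
  rw [AddMonoidAlgebra.map_sum]
  refine Finset.sum_congr rfl fun b _ => ?_
  rw [AddMonoidAlgebra.map_single, cf_mul (hP a) (hQ b), AddMonoidAlgebra.single_mul_single]

theorem sum_coeff {R M ι : Type} [CommRing R] [AddCommGroup M] (s : Finset ι)
    (f : ι → AddMonoidAlgebra R M) (v : M) :
    (∑ i ∈ s, f i).coeff v = ∑ i ∈ s, (f i).coeff v := by
  classical
  induction s using Finset.induction_on with
  | empty => simp
  | insert a s ha ih => rw [Finset.sum_insert ha, Finset.sum_insert ha, ← ih]; rfl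

theorem single_coeff {R M : Type} [CommRing R] [AddCommGroup M] [DecidableEq M] (a v : M) (r : R) :
    (AddMonoidAlgebra.single a r).coeff v = if a = v then r else 0 := by
  rw [AddMonoidAlgebra.coeff_single, Finsupp.single_apply]

theorem natDegree_mul_le {d e : ℕ} {P Q : EA (n + 1)}
    (hP : ∀ a, (finSuccEquiv ℝ n (P.coeff a)).natDegree ≤ d)
    (hQ : ∀ a, (finSuccEquiv ℝ n (Q.coeff a)).natDegree ≤ e) (v : Vec (n + 1)) :
    (finSuccEquiv ℝ n ((P * Q).coeff v)).natDegree ≤ d + e := by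
  classical
  rw [mul_expand, sum_coeff, map_sum]
  refine Polynomial.natDegree_sum_le_of_forall_le _ _ fun a _ => ?_
  rw [sum_coeff, map_sum]
  refine Polynomial.natDegree_sum_le_of_forall_le _ _ fun b _ => ?_
  rw [single_coeff]
  split_ifs
  · rw [map_mul]
    exact Polynomial.natDegree_mul_le.trans (add_le_add (hP a) (hQ b))
  · simp

/-! ### the part at a given height -/

/-- height -/
def f0 (n : ℕ) : Vec (n + 1) →+ ℝ where
  toFun a := a 0
  map_zero' := rfl
  map_add' _ _ := rfl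

/-- tail -/
def tl (n : ℕ) : Vec (n + 1) →ₗ[ℝ] Vec n where
  toFun a := Fin.tail a
  map_add' _ _ := rfl
  map_smul' _ _ := rfl

@[simp] theorem tl_apply (a : Vec (n + 1)) : tl n a = Fin.tail a := rfl

/-- the face element -/
noncomputable def fe (d : ℕ) (α : ℝ) (P : EA (n + 1)) : EA n :=
  AddMonoidAlgebra.mapDomainRingHom (Pol n) ((tl n : Vec (n + 1) →ₗ[ℝ] Vec n) :
    Vec (n + 1) →+ Vec n) (part (f0 n) α (tp d P))

theorem fe_mul {d e : ℕ} {α β : ℝ} {P Q : EA (n + 1)}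
    (hP : ∀ a, (finSuccEquiv ℝ n (P.coeff a)).natDegree ≤ d)
    (hQ : ∀ a, (finSuccEquiv ℝ n (Q.coeff a)).natDegree ≤ e)
    (hα : ∀ a ∈ (tp d P).coeff.support, a 0 ≤ α) (hβ : ∀ a ∈ (tp e Q).coeff.support, a 0 ≤ β) :
    fe (d + e) (α + β) (P * Q) = fe d α P * fe e β Q := by
  unfold fe
  rw [tp_mul hP hQ, part_mul (f0 n) hα hβ, map_mul]

theorem part_tp (d : ℕ) (α : ℝ) (P : EA (n + 1)) : part (f0 n) α (tp d P) =
    ∑ a ∈ P.coeff.support with a 0 = α, AddMonoidAlgebra.single a (cf n d (P.coeff a)) := by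
  classical
  apply AddMonoidAlgebra.coeff_injective
  ext1 b
  rw [sum_coeff]
  simp_rw [single_coeff]
  unfold part
  rw [AddMonoidAlgebra.coeff_ofCoeff, Finsupp.filter_apply, Finset.sum_ite_eq', tp_coeff]
  by_cases h1 : f0 n b = α
  · have h1' : b 0 = α := h1
    rw [if_pos h1]
    by_cases h2 : b ∈ P.coeff.support
    · rw [if_pos (Finset.mem_filter.2 ⟨h2, h1'⟩)]
    · rw [if_neg (fun h => h2 (Finset.mem_filter.1 h).1), Finsupp.notMem_support_iff.1 h2, map_zero]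
  · have h1' : ¬ b 0 = α := h1
    have h3 : b ∉ P.coeff.support.filter (fun a => a 0 = α) :=
      fun h => h1' (Finset.mem_filter.1 h).2
    rw [if_neg h1, if_neg h3]

theorem fe_eq (d : ℕ) (α : ℝ) (P : EA (n + 1)) : fe d α P =
    ∑ a ∈ P.coeff.support with a 0 = α,
      AddMonoidAlgebra.single (Fin.tail a) (cf n d (P.coeff a)) := by
  unfold fe
  rw [part_tp, map_sum]
  refine Finset.sum_congr rfl fun a _ => ?_
  simp

theorem ev_fe (d : ℕ) (α : ℝ) (P : EA (n + 1)) (z : Vec n) : ev z (fe d α P) =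
    ∑ a ∈ P.coeff.support with a 0 = α,
      eval z ((finSuccEquiv ℝ n (P.coeff a)).coeff d) * Real.exp (Fin.tail a ⬝ᵥ z) := by
  rw [fe_eq, map_sum]
  refine Finset.sum_congr rfl fun a _ => ?_
  rw [ev_single, cf_apply]

theorem fe_support (d : ℕ) (α : ℝ) (P : EA (n + 1)) {x : Vec n}
    (hx : x ∈ (fe d α P).coeff.support) :
    ∃ a ∈ P.coeff.support, a 0 = α ∧ Fin.tail a = x := by
  classical
  by_contra hcon
  push Not at hcon
  rw [Finsupp.mem_support_iff, fe_eq, sum_coeff] at hx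
  apply hx
  refine Finset.sum_eq_zero fun a ha => ?_
  rw [Finset.mem_filter] at ha
  rw [single_coeff, if_neg (hcon a ha.1 ha.2)]

theorem isHom_fe {D d : ℕ} (hd : d ≤ D) (α : ℝ) {P : EA (n + 1)} (hP : IsHom D P) :
    IsHom (D - d) (fe d α P) := by
  classical
  intro x
  rw [fe_eq, sum_coeff]
  refine IsHomogeneous.sum _ _ _ fun a _ => ?_
  rw [single_coeff]
  split_ifs
  · exact (hP a).finSuccEquiv_coeff_isHomogeneous d (D - d) (by omega)
  · exact isHomogeneous_zero _ _ _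

theorem exists_tp {P : EA (n + 1)} (hP : P ≠ 0) : ∃ (d : ℕ) (a : Vec (n + 1)),
    (∀ b, (finSuccEquiv ℝ n (P.coeff b)).natDegree ≤ d) ∧ a ∈ (tp d P).coeff.support ∧
      ∀ b ∈ (tp d P).coeff.support, b 0 ≤ a 0 := by
  have hne : P.coeff.support.Nonempty := by
    rw [Finsupp.support_nonempty_iff]
    intro h
    exact hP (AddMonoidAlgebra.coeff_injective h)
  obtain ⟨a₀, ha₀, hmax⟩ := Finset.exists_max_image P.coeff.support
    (fun a => (finSuccEquiv ℝ n (P.coeff a)).natDegree) hne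
  set d := (finSuccEquiv ℝ n (P.coeff a₀)).natDegree with hd
  have h1 : ∀ b, (finSuccEquiv ℝ n (P.coeff b)).natDegree ≤ d := by
    intro b
    by_cases hb : b ∈ P.coeff.support
    · exact hmax b hb
    · rw [Finsupp.notMem_support_iff.1 hb]; simp
  have h2 : a₀ ∈ (tp d P).coeff.support := by
    rw [Finsupp.mem_support_iff, tp_coeff, cf_apply, hd]
    have h3 : finSuccEquiv ℝ n (P.coeff a₀) ≠ 0 := by
      rw [Ne, map_eq_zero_iff _ (finSuccEquiv ℝ n).injective]
      exact Finsupp.mem_support_iff.1 ha₀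
    exact Polynomial.leadingCoeff_ne_zero.2 h3
  obtain ⟨a, ha, hamax⟩ := Finset.exists_max_image (tp d P).coeff.support (fun a => a 0) ⟨a₀, h2⟩
  exact ⟨d, a, h1, ha, hamax⟩

theorem mem_supp_of_tp {d : ℕ} {P : EA (n + 1)} {a : Vec (n + 1)}
    (ha : a ∈ (tp d P).coeff.support) : a ∈ P.coeff.support := by
  rw [Finsupp.mem_support_iff] at ha ⊢
  intro h
  apply ha
  rw [tp_coeff, h, map_zero]

/-! ### convexity -/

theorem cancel {X Y X' Y' : Set (Vec n)} (hX : Convex ℝ X) (hXc : IsCompact X) (hXX : X ⊆ X')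
    (hYY : Y ⊆ Y') (hYc : IsCompact Y') (hYn : Y'.Nonempty) (hsum : X + Y = X' + Y') :
    X = X' := by
  refine Subset.antisymm hXX fun x' hx' => ?_
  by_contra hx
  obtain ⟨f, u, h1, h2⟩ := geometric_hahn_banach_closed_point hX hXc.isClosed hx
  obtain ⟨y', hy', hmax⟩ := hYc.exists_isMaxOn hYn f.continuous.continuousOn
  have h3 : x' + y' ∈ X + Y := by rw [hsum]; exact add_mem_add hx' hy'
  obtain ⟨x, hx1, y, hy1, hxy⟩ := h3
  have h4 : f x + f y = f x' + f y' := by rw [← map_add, ← map_add, ← hxy]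
  have h5 := h1 x hx1
  have h6 : f y ≤ f y' := hmax (hYY hy1)
  linarith

theorem vectorSpan_convexHull' (s : Set (Vec n)) :
    vectorSpan ℝ (convexHull ℝ s) = vectorSpan ℝ s := by
  rw [← direction_affineSpan, ← direction_affineSpan, affineSpan_convexHull]

theorem vs_eq (P : EA n) : vs P = vectorSpan ℝ (Nw P) := by
  unfold vs Nw
  rw [vectorSpan_convexHull']

theorem Nw_compact (P : EA n) : IsCompact (Nw P) :=
  P.coeff.support.finite_toSet.isCompact_convexHull ℝ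

theorem Nw_convex (P : EA n) : Convex ℝ (Nw P) := convex_convexHull ℝ _

theorem Nw_nonempty {P : EA n} (hP : P ≠ 0) : (Nw P).Nonempty := by
  unfold Nw
  rw [convexHull_nonempty_iff]
  have : P.coeff.support.Nonempty := by
    rw [Finsupp.support_nonempty_iff]
    intro h
    exact hP (AddMonoidAlgebra.coeff_injective h)
  exact this

theorem fp_ne {K : Set (Vec n)} {P Q : EA n} (h : FP K P Q) : P * Q ≠ 0 := by
  obtain ⟨C, hT⟩ := h.tr
  intro h0
  apply hT.ne
  apply MvPolynomial.funext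
  intro z
  have h1 := hT.eq z
  rw [h0, map_zero] at h1
  have h2 := lap_pos h.body z
  rw [map_zero]
  rcases mul_eq_zero.1 h1.symm with h3 | h3
  · exact h3
  · exact absurd h3 h2.ne'

/-! ### the case `ν = e₀` -/

/-- the first unit vector -/
def e0 (n : ℕ) : Vec (n + 1) := Pi.single 0 1

theorem dot_e0 (x : Vec (n + 1)) : x ⬝ᵥ e0 n = x 0 := by
  unfold e0
  simp

theorem Nw_lead_e0 {R : EA (n + 1)} {hh : ℝ} (h1 : ∀ x ∈ Nw R, x 0 ≤ hh)
    (h2 : ∃ x ∈ Nw R, x 0 = hh) : Nw (lead (e0 n) R) = {x ∈ Nw R | x 0 = hh} := by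
  rw [Nw_lead]
  ext x
  simp only [dot_e0, mem_sep_iff]
  constructor
  · rintro ⟨hx, hm⟩
    obtain ⟨y, hy, hy'⟩ := h2
    exact ⟨hx, le_antisymm (h1 x hx) (hy' ▸ hm y hy)⟩
  · rintro ⟨hx, hm⟩
    exact ⟨hx, fun y hy => hm ▸ h1 y hy⟩

theorem slice_eq (K : Set (Vec (n + 1))) (hh : ℝ) :
    slice K hh = tl n '' {x ∈ K | x 0 = hh} := by
  ext x
  constructor
  · intro hx
    exact ⟨Fin.cons hh x, ⟨hx, rfl⟩, by simp⟩
  · rintro ⟨y, ⟨hy, hy0⟩, rfl⟩
    show (Fin.cons hh (Fin.tail y) : Vec (n + 1)) ∈ K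
    rw [← hy0, Fin.cons_self_tail]
    exact hy

theorem cons_image {F : Set (Vec (n + 1))} {α : ℝ} (h : ∀ x ∈ F, x 0 = α) :
    F = (fun x => (Fin.cons α x : Vec (n + 1))) '' (tl n '' F) := by
  ext x
  constructor
  · intro hx
    exact ⟨tl n x, ⟨x, hx, rfl⟩, by simp only [tl_apply]; rw [← h x hx, Fin.cons_self_tail]⟩
  · rintro ⟨_, ⟨y, hy, rfl⟩, rfl⟩
    simp only [tl_apply]
    rw [← h y hy, Fin.cons_self_tail]
    exact hy

theorem tl_inj_aux {F : Set (Vec (n + 1))} {α : ℝ} (h : ∀ x ∈ F, x 0 = α) {v : Vec (n + 1)}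
    (hv : v ∈ vectorSpan ℝ F) : v 0 = 0 := by
  have h1 : vectorSpan ℝ F ≤ LinearMap.ker (LinearMap.proj (R := ℝ) (φ := fun _ => ℝ)
      (0 : Fin (n + 1))) := by
    unfold vectorSpan
    rw [Submodule.span_le]
    rintro _ ⟨x, hx, y, hy, rfl⟩
    simp [h x hx, h y hy]
  exact h1 hv

theorem vectorSpan_tl (F : Set (Vec (n + 1))) :
    vectorSpan ℝ (tl n '' F) = (vectorSpan ℝ F).map (tl n) := by
  exact (AffineMap.map_vectorSpan (tl n).toAffineMap (s := F)).symm

theorem finrank_tl {F : Set (Vec (n + 1))} {α : ℝ} (h : ∀ x ∈ F, x 0 = α) :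
    Module.finrank ℝ (vectorSpan ℝ (tl n '' F)) = Module.finrank ℝ (vectorSpan ℝ F) := by
  rw [vectorSpan_tl]
  have hinj : Function.Injective ((tl n).domRestrict (vectorSpan ℝ F)) := by
    rw [← LinearMap.ker_eq_bot, LinearMap.ker_eq_bot']
    rintro ⟨v, hv⟩ hv0
    have h1 : Fin.tail v = 0 := hv0
    have h2 := tl_inj_aux h hv
    apply Subtype.ext
    show v = 0
    rw [← Fin.cons_self_tail v, h1, h2]
    ext i
    refine Fin.cases ?_ (fun j => ?_) i <;> simp
  have h3 := LinearMap.finrank_range_of_inj hinj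
  rw [← h3, LinearMap.range_domRestrict]

theorem body_of_finrank {G : Set (Vec n)} (hG : Convex ℝ G) (hc : IsCompact G)
    (hne : G.Nonempty) (hf : Module.finrank ℝ (vectorSpan ℝ G) = n) : Body G := by
  refine ⟨hG, hc, ?_⟩
  rw [hG.interior_nonempty_iff_affineSpan_eq_top,
    AffineSubspace.affineSpan_eq_top_iff_vectorSpan_eq_top_of_nonempty _ _ _ hne]
  apply Submodule.eq_top_of_finrank_eq
  rw [hf]
  simp

theorem body_slice {K : Set (Vec (n + 1))} (hK : Body K) {hh : ℝ}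
    (h2 : ∃ x ∈ K, x 0 = hh)
    (hf : Module.finrank ℝ (vectorSpan ℝ {x ∈ K | x 0 = hh}) = n) : Body (slice K hh) := by
  have hF : {x ∈ K | x 0 = hh} = K ∩ (LinearMap.proj (R := ℝ) (φ := fun _ => ℝ)
      (0 : Fin (n + 1))) ⁻¹' {hh} := by
    ext x; simp
  have hFc : Convex ℝ {x ∈ K | x 0 = hh} := by
    rw [hF]
    exact hK.conv.inter ((convex_singleton hh).linear_preimage _)
  have hFk : IsCompact {x ∈ K | x 0 = hh} := by
    refine hK.comp.inter_right ?_
    exact isClosed_eq (continuous_apply 0) continuous_const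
  rw [slice_eq]
  refine body_of_finrank (hFc.linear_image _) (hFk.image (LinearMap.continuous_of_finiteDimensional _))
    ?_ ?_
  · obtain ⟨x, hx, hx'⟩ := h2
    exact ⟨_, ⟨x, ⟨hx, hx'⟩, rfl⟩⟩
  · rw [finrank_tl (fun x hx => hx.2), hf]

theorem lt_of_body {K : Set (Vec (n + 1))} (hK : Body K) {hh hl : ℝ} (h1 : ∀ x ∈ K, x 0 ≤ hh)
    (h1' : ∀ x ∈ K, hl ≤ x 0) : hl < hh := by
  obtain ⟨x, hx⟩ := hK.int
  have hx' := mem_interior_iff_mem_nhds.mp hx
  have hcont : Continuous fun t : ℝ => x + t • e0 n := by fun_prop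
  have h2 : ∀ᶠ t in 𝓝 (0 : ℝ), x + t • e0 n ∈ K := by
    have : Tendsto (fun t : ℝ => x + t • e0 n) (𝓝 0) (𝓝 x) := by
      have := hcont.tendsto 0
      simpa using this
    exact this hx'
  have h3 : ∀ᶠ t in 𝓝[>] (0 : ℝ), x + t • e0 n ∈ K := h2.filter_mono nhdsWithin_le_nhds
  obtain ⟨t, ht1, ht2⟩ := (h3.and self_mem_nhdsWithin).exists
  have h4 := h1 _ ht1
  have h5 := h1' x (interior_subset hx)
  have h6 : (x + t • e0 n) 0 = x 0 + t := by simp [e0]
  rw [h6] at h4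
  have : (0 : ℝ) < t := ht2
  linarith

theorem Nw_le {P : EA (n + 1)} {α : ℝ} (h : ∀ a ∈ P.coeff.support, a 0 ≤ α) :
    ∀ x ∈ Nw P, x 0 ≤ α := by
  intro x hx
  have h1 : Nw P ⊆ {x : Vec (n + 1) | x 0 ≤ α} := by
    refine convexHull_min (fun a ha => h a ha) ?_
    exact convex_halfSpace_le (LinearMap.proj (R := ℝ) (φ := fun _ => ℝ)
      (0 : Fin (n + 1))).isLinear α
  exact h1 hx

theorem lead_ne {n : ℕ} (ω : Vec n) {P : EA n} (h : P ≠ 0) : lead ω P ≠ 0 := lead_ne_zero ω h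

theorem Nw_fe_subset {d : ℕ} {α : ℝ} {P : EA (n + 1)} (h1 : ∀ x ∈ Nw P, x 0 ≤ α)
    (h2 : ∃ x ∈ Nw P, x 0 = α) : Nw (fe d α P) ⊆ tl n '' Nw (lead (e0 n) P) := by
  refine convexHull_min ?_ ((Nw_convex _).linear_image _)
  intro x hx
  obtain ⟨a, ha, ha0, rfl⟩ := fe_support d α P (Finset.mem_coe.1 hx)
  refine ⟨a, ?_, rfl⟩
  rw [Nw_lead_e0 h1 h2]
  exact ⟨subset_convexHull ℝ _ (Finset.mem_coe.2 ha), ha0⟩

theorem facet0 {K : Set (Vec (n + 1))} {P Q : EA (n + 1)} (h : FP K P Q)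
    (hdim : Module.finrank ℝ (vs (lead (e0 n) (P * Q))) = n) :
    ∃ (K' : Set (Vec n)) (P' Q' : EA n) (α β : ℝ), FP K' P' Q' ∧
      Nw (lead (e0 n) P) = (fun x => (Fin.cons α x : Vec (n + 1))) '' Nw P' ∧
      Nw (lead (e0 n) Q) = (fun x => (Fin.cons β x : Vec (n + 1))) '' Nw Q' := by
  classical
  obtain ⟨C, hT⟩ := h.tr
  have hR := fp_ne h
  have hP0 : P ≠ 0 := left_ne_zero_of_mul hR
  have hQ0 : Q ≠ 0 := right_ne_zero_of_mul hR
  have hNR : Nw (P * Q) = K := Nw_eq h.body hT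
  have hsum : Nw P + Nw Q = K := by rw [← Nw_mul hP0 hQ0, hNR]
  have hne : K.Nonempty := h.body.int.mono interior_subset
  obtain ⟨xh, hxh, hmax⟩ := h.body.comp.exists_isMaxOn hne (f := fun x : Vec (n + 1) => x 0)
    (continuous_apply 0).continuousOn
  obtain ⟨xl, hxl, hmin⟩ := h.body.comp.exists_isMinOn hne (f := fun x : Vec (n + 1) => x 0)
    (continuous_apply 0).continuousOn
  set hh := xh 0 with hhh
  set hl := xl 0 with hhl
  have h1 : ∀ x ∈ K, x 0 ≤ hh := fun x hx => hmax hx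
  have h1' : ∀ x ∈ K, hl ≤ x 0 := fun x hx => hmin hx
  have h2 : ∃ x ∈ K, x 0 = hh := ⟨xh, hxh, rfl⟩
  have h2' : ∃ x ∈ K, x 0 = hl := ⟨xl, hxl, rfl⟩
  have hlt : hl < hh := lt_of_body h.body h1 h1'
  obtain ⟨t1, t2⟩ := top_formula h.body hT h1 h2 h1' h2'
  set c := (finSuccEquiv ℝ n C).natDegree with hc
  set lc := (finSuccEquiv ℝ n C).leadingCoeff with hlc
  have hlc0 : lc ≠ 0 := by
    rw [hlc, Polynomial.leadingCoeff_ne_zero, Ne, map_eq_zero_iff _ (finSuccEquiv ℝ n).injective]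
    exact hT.ne
  have hface : Nw (lead (e0 n) (P * Q)) = {x ∈ K | x 0 = hh} := by
    rw [Nw_lead_e0 (hh := hh) (by rw [hNR]; exact h1) (by rw [hNR]; exact h2), hNR]
  have hG : Body (slice K hh) :=
    body_slice h.body h2 (by rw [← hface, ← vs_eq]; exact hdim)
  obtain ⟨dP, aP, hdP, haP, hmP⟩ := exists_tp hP0
  obtain ⟨dQ, aQ, hdQ, haQ, hmQ⟩ := exists_tp hQ0
  -- first inequality
  have htpP : tp dP P ≠ 0 := by
    rintro h0; rw [h0] at haP; simp at haP
  have htpQ : tp dQ Q ≠ 0 := by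
    rintro h0; rw [h0] at haQ; simp at haQ
  have htpR := tp_mul hdP hdQ
  have hc1 : dP + dQ < c := by
    have h3 : tp (dP + dQ) (P * Q) ≠ 0 := by rw [htpR]; exact mul_ne_zero htpP htpQ
    obtain ⟨v, hv⟩ : ∃ v, (tp (dP + dQ) (P * Q)).coeff v ≠ 0 := by
      by_contra hcon
      push Not at hcon
      apply h3
      apply AddMonoidAlgebra.coeff_injective
      ext1 v
      rw [hcon v]; rfl
    rw [tp_coeff, cf_apply] at hv
    exact (Polynomial.le_natDegree_of_ne_zero hv).trans_lt (t1 v)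
  -- second
  obtain ⟨z0, hz0⟩ : ∃ z0 : Vec n, eval z0 lc ≠ 0 := by
    by_contra hcon
    push Not at hcon
    exact hlc0 (MvPolynomial.funext fun z => by rw [hcon z, map_zero])
  obtain ⟨v, hv1, hv2, hv3⟩ : ∃ v ∈ (P * Q).coeff.support, v 0 = hh ∧
      (finSuccEquiv ℝ n ((P * Q).coeff v)).coeff (c - 1) ≠ 0 := by
    have h3 := t2 hh z0
    rw [if_pos rfl, if_neg hlt.ne', sub_zero] at h3
    have h4 := mul_ne_zero hz0 (lap_pos hG z0).ne'
    rw [← h3] at h4
    obtain ⟨v, hv, hv'⟩ := Finset.exists_ne_zero_of_sum_ne_zero h4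
    rw [Finset.mem_filter] at hv
    refine ⟨v, hv.1, hv.2, fun h0 => hv' ?_⟩
    rw [h0, map_zero, zero_mul]
  have hc2 : c - 1 ≤ dP + dQ :=
    (Polynomial.le_natDegree_of_ne_zero hv3).trans (natDegree_mul_le hdP hdQ v)
  have hc3 : c - 1 = dP + dQ := by omega
  have hle : hh ≤ aP 0 + aQ 0 := by
    have h3 : v ∈ (tp dP P * tp dQ Q).coeff.support := by
      rw [← htpR, Finsupp.mem_support_iff, tp_coeff, cf_apply, ← hc3]
      exact hv3
    have h4 := AddMonoidAlgebra.support_coeff_mul_subset _ _ h3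
    obtain ⟨a, ha, b, hb, hab⟩ := Finset.mem_add.1 h4
    rw [← hv2, ← hab]
    exact add_le_add (hmP a ha) (hmQ b hb)
  have hmemP := mem_supp_of_tp haP
  have hmemQ := mem_supp_of_tp haQ
  have hinP : ∀ a ∈ P.coeff.support, a ∈ Nw P := fun a ha =>
    subset_convexHull ℝ _ (Finset.mem_coe.2 ha)
  have hinQ : ∀ a ∈ Q.coeff.support, a ∈ Nw Q := fun a ha =>
    subset_convexHull ℝ _ (Finset.mem_coe.2 ha)
  have hge : aP 0 + aQ 0 ≤ hh := by
    have h3 : aP + aQ ∈ K := by rw [← hsum]; exact add_mem_add (hinP _ hmemP) (hinQ _ hmemQ)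
    exact h1 _ h3
  have heq : aP 0 + aQ 0 = hh := le_antisymm hge hle
  have hPa : ∀ a ∈ P.coeff.support, a 0 ≤ aP 0 := by
    intro a ha
    have h3 : a + aQ ∈ K := by rw [← hsum]; exact add_mem_add (hinP _ ha) (hinQ _ hmemQ)
    have h4 : (a + aQ) 0 ≤ hh := h1 _ h3
    rw [Pi.add_apply] at h4
    linarith
  have hQb : ∀ a ∈ Q.coeff.support, a 0 ≤ aQ 0 := by
    intro a ha
    have h3 : aP + a ∈ K := by rw [← hsum]; exact add_mem_add (hinP _ hmemP) (hinQ _ ha)
    have h4 : (aP + a) 0 ≤ hh := h1 _ h3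
    rw [Pi.add_apply] at h4
    linarith
  set α := aP 0 with hα
  set β := aQ 0 with hβ
  have hfm : fe (dP + dQ) (α + β) (P * Q) = fe dP α P * fe dQ β Q := fe_mul hdP hdQ hmP hmQ
  -- homogeneity
  obtain ⟨DP, hDP⟩ := h.homP
  obtain ⟨DQ, hDQ⟩ := h.homQ
  obtain ⟨D, hCD, hRD⟩ := hT.hom
  have hD : D = DP + DQ := by
    have h3 := isHom_mul hDP hDQ
    have h4 : (P * Q).coeff v ≠ 0 := Finsupp.mem_support_iff.1 hv1
    exact (hRD v).inj_right (h3 v) h4
  have hdD : ∀ {d D : ℕ} {P : EA (n + 1)} {a : Vec (n + 1)}, a ∈ (tp d P).coeff.support →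
      IsHom D P → d ≤ D := by
    intro d D P a ha hP
    rw [Finsupp.mem_support_iff, tp_coeff, cf_apply] at ha
    have h3 := Polynomial.le_natDegree_of_ne_zero ha
    rw [natDegree_finSuccEquiv] at h3
    exact h3.trans ((degreeOf_le_totalDegree _ _).trans (hP a).totalDegree_le)
  have hdP' := hdD haP hDP
  have hdQ' := hdD haQ hDQ
  have hTG : TrC (slice K hh) lc (fe dP α P * fe dQ β Q) := by
    refine ⟨hlc0, ⟨(DP - dP) + (DQ - dQ), ?_, isHom_mul (isHom_fe hdP' _ hDP)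
      (isHom_fe hdQ' _ hDQ)⟩, fun z => ?_⟩
    · have h3 := hCD.finSuccEquiv_coeff_isHomogeneous c ((DP - dP) + (DQ - dQ) + n) (by omega)
      exact h3
    · rw [← hfm, ev_fe, ← hc3, t2, if_pos heq, if_neg (by rw [heq]; exact hlt.ne'), sub_zero]
  have hFP : FP (slice K hh) (fe dP α P) (fe dQ β Q) :=
    ⟨hG, ⟨_, isHom_fe hdP' _ hDP⟩, ⟨_, isHom_fe hdQ' _ hDQ⟩, ⟨lc, hTG⟩⟩
  -- Newton polytopes
  have hNPle := Nw_le hPa
  have hNQle := Nw_le hQb
  have hNPex : ∃ x ∈ Nw P, x 0 = α := ⟨aP, hinP _ hmemP, rfl⟩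
  have hNQex : ∃ x ∈ Nw Q, x 0 = β := ⟨aQ, hinQ _ hmemQ, rfl⟩
  have hsubP : Nw (fe dP α P) ⊆ tl n '' Nw (lead (e0 n) P) := Nw_fe_subset hNPle hNPex
  have hsubQ : Nw (fe dQ β Q) ⊆ tl n '' Nw (lead (e0 n) Q) := Nw_fe_subset hNQle hNQex
  have hne' := fp_ne hFP
  have hs : Nw (fe dP α P) + Nw (fe dQ β Q) =
      tl n '' Nw (lead (e0 n) P) + tl n '' Nw (lead (e0 n) Q) := by
    rw [← Nw_mul (left_ne_zero_of_mul hne') (right_ne_zero_of_mul hne'), Nw_eq hG hTG,
      ← image_add, ← Nw_mul (lead_ne _ hP0) (lead_ne _ hQ0), ← lead_mul, hface, slice_eq]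
  have hcomp : ∀ P : EA (n + 1), IsCompact (tl n '' Nw (lead (e0 n) P)) := fun P =>
    (Nw_compact _).image (LinearMap.continuous_of_finiteDimensional _)
  have eP : Nw (fe dP α P) = tl n '' Nw (lead (e0 n) P) :=
    cancel (Nw_convex _) (Nw_compact _) hsubP hsubQ (hcomp Q)
      ((Nw_nonempty (lead_ne _ hQ0)).image _) hs
  have eQ : Nw (fe dQ β Q) = tl n '' Nw (lead (e0 n) Q) :=
    cancel (Nw_convex _) (Nw_compact _) hsubQ hsubP (hcomp P)
      ((Nw_nonempty (lead_ne _ hP0)).image _) (by rw [add_comm, hs, add_comm])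
  refine ⟨slice K hh, fe dP α P, fe dQ β Q, α, β, hFP, ?_, ?_⟩
  · rw [eP]
    refine cons_image ?_
    rw [Nw_lead_e0 hNPle hNPex]
    exact fun x hx => hx.2
  · rw [eQ]
    refine cons_image ?_
    rw [Nw_lead_e0 hNQle hNQex]
    exact fun x hx => hx.2

/-! ### general direction -/

theorem e0_ne : e0 n ≠ 0 := by
  intro h
  have := congrFun h 0
  simp [e0] at this

theorem exists_matrix {ν : Vec (n + 1)} (hν : ν ≠ 0) :
    ∃ M : Matrix (Fin (n + 1)) (Fin (n + 1)) ℝ, IsUnit M.det ∧ e0 n ᵥ* M = ν := by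
  obtain ⟨A, hA⟩ := SeparatingDual.exists_continuousLinearEquiv_apply_eq (R := ℝ)
    (V := Vec (n + 1)) e0_ne hν
  refine ⟨(LinearMap.toMatrix' (A.toLinearEquiv : Vec (n + 1) →ₗ[ℝ] Vec (n + 1)))ᵀ, ?_, ?_⟩
  · rw [Matrix.det_transpose, LinearMap.det_toMatrix']
    exact LinearEquiv.isUnit_det' A.toLinearEquiv
  · rw [Matrix.vecMul_transpose, LinearMap.toMatrix'_mulVec]
    exact hA

theorem finrank_map_inj {V W : Type} [AddCommGroup V] [Module ℝ V] [AddCommGroup W] [Module ℝ W]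
    {f : V →ₗ[ℝ] W} (hf : Function.Injective f) (p : Submodule ℝ V) :
    Module.finrank ℝ (p.map f) = Module.finrank ℝ p := by
  have h1 : Function.Injective (f.domRestrict p) := by
    intro x y hxy
    exact Subtype.ext (hf hxy)
  rw [← LinearMap.finrank_range_of_inj h1, LinearMap.range_domRestrict]

theorem vectorSpan_image {V W : Type} [AddCommGroup V] [Module ℝ V] [AddCommGroup W] [Module ℝ W]
    (f : V →ₗ[ℝ] W) (p : W) (F : Set V) :
    vectorSpan ℝ ((fun x => p + f x) '' F) = (vectorSpan ℝ F).map f := by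
  have h1 : (fun x => p + f x) '' F = (fun y => p + y) '' (f '' F) := by rw [image_image]
  rw [h1]
  have h2 : vectorSpan ℝ ((fun y => p + y) '' (f '' F)) = vectorSpan ℝ (f '' F) :=
    vectorSpan_vadd (k := ℝ) (f '' F) p
  rw [h2]
  exact (AffineMap.map_vectorSpan f.toAffineMap (s := F)).symm

theorem Nw_tm {M : Matrix (Fin n) (Fin n) ℝ} (hM : IsUnit M.det) (X : EA n) :
    Nw (tm M X) = (fun x => M *ᵥ x) '' Nw X := by
  unfold Nw
  rw [tm_support hM]
  exact ((Matrix.mulVecLin M).image_convexHull _).symm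

end FacetAux

open FacetAux TransAux in
/-- Descent of factor pairs to facets. -/
theorem facet_descent {n : ℕ} {K : Set (Vec (n + 1))} {P Q : EA (n + 1)} (h : FP K P Q)
    {ν : Vec (n + 1)} (hν : ν ≠ 0)
    (hdim : Module.finrank ℝ (vs (lead ν (P * Q))) = n) :
    ∃ (K' : Set (Vec n)) (P' Q' : EA n) (j : Vec n →ₗ[ℝ] Vec (n + 1)) (p q : Vec (n + 1)),
      FP K' P' Q' ∧ Function.Injective j ∧ Nw (lead ν P) = (fun x => p + j x) '' Nw P' ∧
      Nw (lead ν Q) = (fun x => q + j x) '' Nw Q' := by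
  obtain ⟨M, hM, hMν⟩ := exists_matrix hν
  have h1 := fp_tm hM h
  have hl : ∀ X : EA (n + 1), lead (e0 n) (tm M X) = tm M (lead ν X) := by
    intro X; rw [lead_tm hM, hMν]
  have hinj : Function.Injective (Matrix.mulVecLin M) := (mulVec_bij hM).1
  have hdim' : Module.finrank ℝ (vs (lead (e0 n) (tm M P * tm M Q))) = n := by
    rw [← map_mul, hl, vs_eq, Nw_tm hM]
    have h2 : (fun x : Vec (n + 1) => M *ᵥ x) '' Nw (lead ν (P * Q)) =
        (fun x => (0 : Vec (n + 1)) + Matrix.mulVecLin M x) '' Nw (lead ν (P * Q)) := by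
      refine image_congr fun x _ => ?_
      rw [zero_add, Matrix.mulVecLin_apply]
    rw [h2, vectorSpan_image, finrank_map_inj hinj, ← vs_eq]
    exact hdim
  obtain ⟨K', P', Q', α, β, hFP, hP, hQ⟩ := facet0 h1 hdim'
  have hinv : ∀ x : Vec (n + 1), M⁻¹ *ᵥ (M *ᵥ x) = x := by
    intro x
    rw [Matrix.mulVec_mulVec, Matrix.nonsing_inv_mul M hM, Matrix.one_mulVec]
  have hinj' : Function.Injective (Matrix.mulVecLin M⁻¹) := by
    have : IsUnit (M⁻¹).det := Matrix.isUnit_nonsing_inv_det M hM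
    exact (mulVec_bij this).1
  let c0 : Vec n →ₗ[ℝ] Vec (n + 1) :=
    { toFun := fun x => Fin.cons 0 x
      map_add' := fun x y => by
        ext i; refine Fin.cases ?_ (fun i => ?_) i <;> simp
      map_smul' := fun c x => by
        ext i; refine Fin.cases ?_ (fun i => ?_) i <;> simp }
  have hc0 : Function.Injective c0 := by
    intro x y hxy
    have : (Fin.cons 0 x : Vec (n + 1)) = Fin.cons 0 y := hxy
    exact (Fin.cons_inj.1 this).2
  have hcons : ∀ (α : ℝ) (x : Vec n), (Fin.cons α x : Vec (n + 1)) = α • e0 n + c0 x := by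
    intro α x
    ext i
    refine Fin.cases ?_ (fun i => ?_) i
    · simp [e0, c0]
    · simp [e0, c0]
  have key : ∀ (X : EA (n + 1)) (X' : EA n) (α : ℝ),
      Nw (lead (e0 n) (tm M X)) = (fun x => (Fin.cons α x : Vec (n + 1))) '' Nw X' →
      Nw (lead ν X) = (fun x => (M⁻¹ *ᵥ (α • e0 n)) + (Matrix.mulVecLin M⁻¹ ∘ₗ c0) x) '' Nw X' := by
    intro X X' α hX
    rw [hl, Nw_tm hM] at hX
    have h3 : Nw (lead ν X) = (fun x => M⁻¹ *ᵥ x) '' ((fun x => M *ᵥ x) '' Nw (lead ν X)) := by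
      rw [image_image]
      simp_rw [hinv]
      simp
    rw [h3, hX, image_image]
    refine image_congr fun x _ => ?_
    rw [hcons, Matrix.mulVec_add]
    rfl
  exact ⟨K', P', Q', Matrix.mulVecLin M⁻¹ ∘ₗ c0, M⁻¹ *ᵥ (α • e0 n), M⁻¹ *ᵥ (β • e0 n), hFP,
    hinj'.comp hc0, key P P' α hP, key Q Q' β hQ⟩

namespace FacetAux

open TransAux

variable {n : ℕ}

theorem lead_zero_dir (P : EA n) : lead 0 P = P := by
  unfold lead
  apply AddMonoidAlgebra.coeff_injective
  rw [AddMonoidAlgebra.coeff_ofCoeff]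
  ext1 a
  rw [Finsupp.filter_apply, if_pos]
  intro b _
  simp

theorem vs_top_of_fp {K : Set (Vec n)} {P Q : EA n} (h : FP K P Q) : vs (P * Q) = ⊤ := by
  obtain ⟨C, hT⟩ := h.tr
  rw [vs_eq, Nw_eq h.body hT]
  have h1 := (h.body.conv.interior_nonempty_iff_affineSpan_eq_top).1 h.body.int
  rw [← direction_affineSpan, h1, AffineSubspace.direction_top]

theorem Nw_sub {P : EA n} (ω : Vec n) : Nw (lead ω P) ⊆ Nw P := by
  rw [Nw_lead]; exact fun x hx => hx.1

/-- one factor in the descent to smaller faces -/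
theorem face_factor {m : ℕ} {P : EA n} {P1 : EA m} (hP : P ≠ 0) {ν ω : Vec n} {ω1 : Vec m}
    {j : Vec m →ₗ[ℝ] Vec n} {p : Vec n} (hj : ∀ x, j x ⬝ᵥ ω = x ⬝ᵥ ω1)
    (hsub : Nw (lead ω P) ⊆ Nw (lead ν P)) (hN : Nw (lead ν P) = (fun x => p + j x) '' Nw P1) :
    Nw (lead ω P) = (fun x => p + j x) '' Nw (lead ω1 P1) := by
  have h1 : Nw (lead ω P) = {x ∈ Nw (lead ν P) | ∀ y ∈ Nw (lead ν P), y ⬝ᵥ ω ≤ x ⬝ᵥ ω} := by
    ext x
    constructor
    · intro hx
      refine ⟨hsub hx, fun y hy => ?_⟩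
      rw [Nw_lead] at hx
      exact hx.2 y (Nw_sub _ hy)
    · rintro ⟨hx, hm⟩
      obtain ⟨x0, hx0⟩ := Nw_nonempty (lead_ne ω hP)
      have h2 := hm x0 (hsub hx0)
      rw [Nw_lead] at hx0 ⊢
      exact ⟨Nw_sub _ hx, fun y hy => (hx0.2 y hy).trans h2⟩
  rw [h1, hN, Nw_lead]
  ext x
  constructor
  · rintro ⟨⟨u, hu, rfl⟩, hm⟩
    refine ⟨u, ⟨hu, fun w hw => ?_⟩, rfl⟩
    have := hm _ ⟨w, hw, rfl⟩
    simp only [add_dotProduct, hj] at this
    linarith
  · rintro ⟨u, ⟨hu, hm⟩, rfl⟩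
    refine ⟨⟨u, hu, rfl⟩, ?_⟩
    rintro _ ⟨w, hw, rfl⟩
    simp only [add_dotProduct, hj]
    have := hm w hw
    linarith

end FacetAux

open FacetAux TransAux in
/-- Descent to faces of any dimension. -/
theorem face_descent {n k : ℕ} {K : Set (Vec n)} {P Q : EA n} (h : FP K P Q)
    (ω : Vec n) (hdim : Module.finrank ℝ (vs (lead ω (P * Q))) = k) :
    ∃ (K' : Set (Vec k)) (P' Q' : EA k) (j : Vec k →ₗ[ℝ] Vec n) (p q : Vec n),
      FP K' P' Q' ∧ Function.Injective j ∧ Nw (lead ω P) = (fun x => p + j x) '' Nw P' ∧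
      Nw (lead ω Q) = (fun x => q + j x) '' Nw Q' := by
  induction n with
  | zero =>
    have hω : ω = 0 := Subsingleton.elim _ _
    subst hω
    rw [lead_zero_dir, vs_top_of_fp h, finrank_top] at hdim
    have hk : k = 0 := by rw [← hdim]; simp
    subst hk
    refine ⟨K, P, Q, LinearMap.id, 0, 0, h, fun _ _ h => h, ?_, ?_⟩ <;>
      · rw [lead_zero_dir]
        simp only [LinearMap.id_apply, zero_add, image_id']
  | succ m ih =>
    by_cases hω : ω = 0
    · subst hω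
      rw [lead_zero_dir, vs_top_of_fp h, finrank_top] at hdim
      have hk : k = m + 1 := by rw [← hdim]; simp
      subst hk
      refine ⟨K, P, Q, LinearMap.id, 0, 0, h, fun _ _ h => h, ?_, ?_⟩ <;>
      · rw [lead_zero_dir]
        simp only [LinearMap.id_apply, zero_add, image_id']
    · have hR := fp_ne h
      have hP0 : P ≠ 0 := left_ne_zero_of_mul hR
      have hQ0 : Q ≠ 0 := right_ne_zero_of_mul hR
      obtain ⟨ν, hν, hface, hfin⟩ := rotate (S := (P * Q).coeff.support) (vs_top_of_fp h) hω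
      have hsup : ∀ μ : Vec (m + 1), (lead μ (P * Q)).coeff.support =
          face μ (P * Q).coeff.support := by
        intro μ
        rw [support_lead]
        unfold face
        congr
      have hd : Module.finrank ℝ (vs (lead ν (P * Q))) = m := by
        unfold vs
        rw [hsup]
        exact Nat.add_right_cancel hfin
      obtain ⟨K1, P1, Q1, j1, p1, q1, hFP1, hj1, hNP1, hNQ1⟩ := facet_descent h hν hd
      let ω1 : Vec m := fun i => j1 (fun j => if i = j then 1 else 0) ⬝ᵥ ω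
      have hω1 : ∀ x, j1 x ⬝ᵥ ω = x ⬝ᵥ ω1 := by
        intro x
        rw [LinearMap.pi_apply_eq_sum_univ j1 x, sum_dotProduct]
        simp only [smul_dotProduct, smul_eq_mul]
        rfl
      have hNwle : Nw (lead ω (P * Q)) ⊆ Nw (lead ν (P * Q)) := by
        unfold Nw
        rw [hsup, hsup]
        exact convexHull_mono (Finset.coe_subset.2 hface)
      have hsubP : Nw (lead ω P) ⊆ Nw (lead ν P) := by
        intro x hx
        obtain ⟨b, hb⟩ := Nw_nonempty (lead_ne ω hQ0)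
        have h2 : x + b ∈ Nw (lead ω (P * Q)) := by
          rw [lead_mul, Nw_mul (lead_ne _ hP0) (lead_ne _ hQ0)]
          exact add_mem_add hx hb
        have h3 := hNwle h2
        rw [Nw_lead] at h3 ⊢
        refine ⟨Nw_sub _ hx, fun y hy => ?_⟩
        have h4 := h3.2 (y + b) (by rw [Nw_mul hP0 hQ0]; exact add_mem_add hy (Nw_sub _ hb))
        rw [add_dotProduct, add_dotProduct] at h4
        linarith
      have hsubQ : Nw (lead ω Q) ⊆ Nw (lead ν Q) := by
        intro x hx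
        obtain ⟨b, hb⟩ := Nw_nonempty (lead_ne ω hP0)
        have h2 : b + x ∈ Nw (lead ω (P * Q)) := by
          rw [lead_mul, Nw_mul (lead_ne _ hP0) (lead_ne _ hQ0)]
          exact add_mem_add hb hx
        have h3 := hNwle h2
        rw [Nw_lead] at h3 ⊢
        refine ⟨Nw_sub _ hx, fun y hy => ?_⟩
        have h4 := h3.2 (b + y) (by rw [Nw_mul hP0 hQ0]; exact add_mem_add (Nw_sub _ hb) hy)
        rw [add_dotProduct, add_dotProduct] at h4
        linarith
      have eP := face_factor hP0 hω1 hsubP hNP1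
      have eQ := face_factor hQ0 hω1 hsubQ hNQ1
      have hR1 := fp_ne hFP1
      have hP10 : P1 ≠ 0 := left_ne_zero_of_mul hR1
      have hQ10 : Q1 ≠ 0 := right_ne_zero_of_mul hR1
      have hd1 : Module.finrank ℝ (vs (lead ω1 (P1 * Q1))) = k := by
        rw [← hdim, lead_mul, lead_mul, vs_mul (lead_ne _ hP0) (lead_ne _ hQ0),
          vs_mul (lead_ne _ hP10) (lead_ne _ hQ10), vs_eq (lead ω P), vs_eq (lead ω Q), eP, eQ,
          vectorSpan_image, vectorSpan_image, ← Submodule.map_sup, finrank_map_inj hj1,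
          ← vs_eq, ← vs_eq]
      obtain ⟨K', P', Q', j2, p2, q2, hFP2, hj2, hNP2, hNQ2⟩ := ih hFP1 ω1 hd1
      refine ⟨K', P', Q', j1 ∘ₗ j2, p1 + j1 p2, q1 + j1 q2, hFP2, hj1.comp hj2, ?_, ?_⟩
      · rw [eP, hNP2, image_image]
        refine image_congr fun x _ => ?_
        simp [add_assoc]
      · rw [eQ, hNQ2, image_image]
        refine image_congr fun x _ => ?_
        simp [add_assoc]

end Pool.Agent.Covg
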