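import Pool.Agent.Work.MP_177351_gt.PD4

/-!
# Module PlanarData: minimal representation and assembly
-/

set_option autoImplicit false

open MeasureTheory MvPolynomial Set Filter Topology
open scoped Pointwise Matrix

namespace Pool.Agent.Covg
namespace PD

theorem cst_ne {h : Pol 2} (hh : h ≠ 0) : (AddMonoidAlgebra.single 0 h : EA 2) ≠ 0 := by
  intro h0
  have := congrArg (fun S : EA 2 => S.coeff 0) h0
  simp only [AddMonoidAlgebra.coeff_single, Finsupp.single_eq_same, AddMonoidAlgebra.coeff_zero,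
    Finsupp.zero_apply] at this
  exact hh this

theorem isHom_cst {d : ℕ} {h : Pol 2} (hh : IsHom d (AddMonoidAlgebra.single 0 h : EA 2)) :
    h.IsHomogeneous d := by
  have := hh 0
  rwa [AddMonoidAlgebra.coeff_single, Finsupp.single_eq_same] at this

theorem cst_isHom {d : ℕ} {h : Pol 2} (hh : h.IsHomogeneous d) :
    IsHom d (AddMonoidAlgebra.single 0 h : EA 2) := by
  intro a
  rw [AddMonoidAlgebra.coeff_single, Finsupp.single_apply]
  split_ifs
  · exact hh
  · exact isHomogeneous_zero _ _ _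

theorem hom_of_mul {d : ℕ} {F G : Pol 2} (hF : F ≠ 0) (hG : G ≠ 0)
    (h : (F * G).IsHomogeneous d) :
    ∃ d₁ d₂, F.IsHomogeneous d₁ ∧ G.IsHomogeneous d₂ ∧ d₁ + d₂ = d := by
  have h1 : IsHom d ((AddMonoidAlgebra.single 0 F : EA 2) * AddMonoidAlgebra.single 0 G) := by
    rw [AddMonoidAlgebra.single_mul_single, add_zero]
    exact cst_isHom h
  obtain ⟨d₁, d₂, h2, h3, h4⟩ := isHom_of_mul (cst_ne hF) (cst_ne hG) h1
  exact ⟨d₁, d₂, isHom_cst h2, isHom_cst h3, h4⟩

theorem isUnit_of_hom_zero {F : Pol 2} (hF : F ≠ 0) (h : F.IsHomogeneous 0) : IsUnit F := by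
  have h1 : F = C (coeff 0 F) := by
    rw [← totalDegree_eq_zero_iff_eq_C]
    exact (totalDegree_zero_iff_isHomogeneous _).2 h
  have h2 : coeff 0 F ≠ 0 := by
    intro h0
    rw [h0, map_zero] at h1
    exact hF h1
  rw [h1]
  exact (isUnit_iff_ne_zero.2 h2).map C

structure Good (K : Set (Vec 2)) (P Q : EA 2) (S S' : Finset (Vec 2)) (dP dQ : ℕ) (C : Pol 2) :
    Prop where
  suppP : P.coeff.support = S
  suppQ : Q.coeff.support = S'
  homP : IsHom dP P
  homQ : IsHom dQ Q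
  ne : C ≠ 0
  hom : C.IsHomogeneous (dP + dQ + 2)
  eq : ∀ z, ev z (P * Q) = MvPolynomial.eval z C * lap K z

theorem Good.symm {K : Set (Vec 2)} {P Q : EA 2} {S S' : Finset (Vec 2)} {dP dQ : ℕ} {C : Pol 2}
    (h : Good K P Q S S' dP dQ C) : Good K Q P S' S dQ dP C :=
  ⟨h.suppQ, h.suppP, h.homQ, h.homP, h.ne, by rw [add_comm dQ dP]; exact h.hom,
    by rw [mul_comm]; exact h.eq⟩

theorem Good.trC {K : Set (Vec 2)} {P Q : EA 2} {S S' : Finset (Vec 2)} {dP dQ : ℕ} {C : Pol 2}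
    (h : Good K P Q S S' dP dQ C) : TrC K C (P * Q) :=
  ⟨h.ne, ⟨dP + dQ, h.hom, isHom_mul h.homP h.homQ⟩, h.eq⟩

theorem Good.reduce {K : Set (Vec 2)} {P Q : EA 2} {S S' : Finset (Vec 2)} {dP dQ : ℕ} {C : Pol 2}
    (g : Good K P Q S S' dP dQ C) (hK : IsCompact K) (hP : P ≠ 0) (hQ : Q ≠ 0) {h : Pol 2}
    (hh : h ≠ 0) (hu : ¬ IsUnit h) (hC : h ∣ C) (hPa : ∀ a, h ∣ P.coeff a) :
    ∃ P₁ dP₁ C₁, dP₁ < dP ∧ Good K P₁ Q S S' dP₁ dQ C₁ := by
  classical
  choose q hq using hPa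
  obtain ⟨C₁, hC₁⟩ := hC
  have hqs : ∀ a, q a ≠ 0 → a ∈ P.coeff.support := by
    intro a ha
    rw [Finsupp.mem_support_iff, hq a]
    exact mul_ne_zero hh ha
  set P₁ : EA 2 := AddMonoidAlgebra.ofCoeff (Finsupp.onFinset P.coeff.support q hqs) with hP₁
  have hcoeff : ∀ a, P₁.coeff a = q a := fun a => rfl
  have hPP : P = AddMonoidAlgebra.single 0 h * P₁ := by
    apply AddMonoidAlgebra.coeff_injective
    ext1 a
    rw [AddMonoidAlgebra.coeff_single_zero_mul, hcoeff, hq a]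
  have hP₁0 : P₁ ≠ 0 := by
    intro h0
    rw [h0, mul_zero] at hPP
    exact hP hPP
  have hC₁0 : C₁ ≠ 0 := by
    intro h0
    rw [h0, mul_zero] at hC₁
    exact g.ne hC₁
  have h1 := g.homP
  rw [hPP] at h1
  obtain ⟨d₁, d₂, h2, h3, h4⟩ := isHom_of_mul (cst_ne hh) hP₁0 h1
  have h2' := isHom_cst h2
  have h5 := g.hom
  rw [hC₁] at h5
  obtain ⟨d₁', d₂', h6, h7, h8⟩ := hom_of_mul hh hC₁0 h5
  have h9 : d₁' = d₁ := h6.inj_right h2' hh
  have hd1 : d₁ ≠ 0 := by
    intro h0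
    rw [h0] at h2'
    exact hu (isUnit_of_hom_zero hh h2')
  refine ⟨P₁, d₂, C₁, by omega, ?_, g.suppQ, h3, g.homQ, hC₁0, ?_, ?_⟩
  · rw [← g.suppP]
    ext a
    rw [Finsupp.mem_support_iff, Finsupp.mem_support_iff, hcoeff, hq a]
    simp [hh]
  · have : d₂ + dQ + 2 = d₂' := by omega
    rw [this]; exact h7
  · have hd := dense_eval_ne_top hh
    have hc1 : Continuous fun z : Vec 2 => ev z (P₁ * Q) := continuous_ev _
    have hc2 : Continuous fun z : Vec 2 => MvPolynomial.eval z C₁ * lap K z :=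
      (MvPolynomial.continuous_eval _).mul (continuous_lap hK)
    have heq := Continuous.ext_on hd hc1 hc2 ?_
    · exact fun z => congrFun heq z
    · intro z hz
      have hz' : MvPolynomial.eval z h ≠ 0 := hz
      apply mul_left_cancel₀ hz'
      have h10 : MvPolynomial.eval z h * ev z (P₁ * Q) =
          MvPolynomial.eval z h * MvPolynomial.eval z C₁ * lap K z := by
        rw [← ev_C_mul, ← mul_assoc, ← hPP, g.eq, hC₁, map_mul]
      change MvPolynomial.eval z h * ev z (P₁ * Q) =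
        MvPolynomial.eval z h * (MvPolynomial.eval z C₁ * lap K z)
      rw [h10]; ring

theorem prime_mul {h : Pol 2} (hh : Prime h) {P Q : EA 2} (hv : ∀ v, h ∣ (P * Q).coeff v) :
    (∀ a, h ∣ P.coeff a) ∨ ∀ a, h ∣ Q.coeff a := by
  let I : Ideal (Pol 2) := Ideal.span {h}
  have : I.IsPrime := (Ideal.span_singleton_prime hh.ne_zero).2 hh
  let φ : EA 2 →+* AddMonoidAlgebra (Pol 2 ⧸ I) (Vec 2) :=
    AddMonoidAlgebra.mapRingHom (Vec 2) (Ideal.Quotient.mk I)
  have key : ∀ S : EA 2, φ S = 0 ↔ ∀ a, h ∣ S.coeff a := by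
    intro S
    constructor
    · intro hS a
      have h1 := congrArg (fun T : AddMonoidAlgebra (Pol 2 ⧸ I) (Vec 2) => T.coeff a) hS
      simp only [φ, AddMonoidAlgebra.coeff_mapRingHom, AddMonoidAlgebra.coeff_zero,
        Finsupp.zero_apply] at h1
      exact Ideal.mem_span_singleton.1 (Ideal.Quotient.eq_zero_iff_mem.1 h1)
    · intro hS
      apply AddMonoidAlgebra.coeff_injective
      ext1 a
      simp only [φ, AddMonoidAlgebra.coeff_mapRingHom, AddMonoidAlgebra.coeff_zero,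
        Finsupp.zero_apply]
      exact Ideal.Quotient.eq_zero_iff_mem.2 (Ideal.mem_span_singleton.2 (hS a))
  have h1 := (key (P * Q)).2 hv
  rw [map_mul] at h1
  rcases mul_eq_zero.1 h1 with h2 | h2
  · exact Or.inl ((key P).1 h2)
  · exact Or.inr ((key Q).1 h2)

theorem exists_D (N : ℕ) : ∀ (C : Pol 2), C ≠ 0 → C.IsHomogeneous N →
    (∀ h, Prime h → h ∣ C → ∃ u : Vec 2, u ≠ 0 ∧ Associated h (lin u)) →
    (∀ ν : Vec 2, ν ≠ 0 → ¬ (lin (rot ν) * lin (rot ν) ∣ C)) →
    ∃ D : Finset (Vec 2), D.card = N ∧ (∀ ν ∈ D, ν ≠ 0) ∧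
      (∀ ν ∈ D, ∀ μ ∈ D, ν ≠ μ → LinearIndependent ℝ ![ν, μ]) ∧
      Associated C (∏ ν ∈ D, lin (rot ν)) := by
  classical
  induction N with
  | zero =>
    intro C hC hh _ _
    refine ⟨∅, rfl, by simp, by simp, ?_⟩
    rw [Finset.prod_empty]
    exact (associated_one_iff_isUnit).2 (isUnit_of_hom_zero hC hh)
  | succ N ih =>
    intro C hC hh hpr hsq
    have hnu : ¬ IsUnit C := by
      intro hu
      obtain ⟨c, hc, hc'⟩ := (MvPolynomial.isUnit_iff_eq_C_of_isReduced).1 hu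
      have h1 : C.IsHomogeneous 0 := by rw [hc']; exact isHomogeneous_C _ _
      have := hh.inj_right h1 hC
      omega
    obtain ⟨h, hirr, hdvd⟩ := WfDvdMonoid.exists_irreducible_factor hnu hC
    have hprime := hirr.prime
    obtain ⟨u, hu, hass⟩ := hpr h hprime hdvd
    have hν : -rot u ≠ 0 := neg_ne_zero.2 (rot_ne hu)
    have hrot : rot (-rot u) = u := by rw [rot_neg, rot_rot, neg_neg]
    obtain ⟨C₁, hC₁⟩ : lin (rot (-rot u)) ∣ C := by
      rw [hrot]; exact (hass.symm.dvd).trans hdvd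
    have hC₁0 : C₁ ≠ 0 := by
      intro h0
      rw [h0, mul_zero] at hC₁
      exact hC hC₁
    have hl0 : lin (rot (-rot u)) ≠ 0 := lin_ne (rot_ne hν)
    have hC₁h : C₁.IsHomogeneous N := by
      have h1 := hh
      rw [hC₁] at h1
      obtain ⟨d₁, d₂, h2, h3, h4⟩ := hom_of_mul hl0 hC₁0 h1
      have h5 : d₁ = 1 := h2.inj_right (lin_hom _) hl0
      have : d₂ = N := by omega
      rwa [this] at h3
    obtain ⟨D, hD1, hD2, hD3, hD4⟩ := ih C₁ hC₁0 hC₁h
      (fun h' hp' hd' => hpr h' hp' (hd'.trans ⟨_, hC₁.trans (mul_comm _ _)⟩))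
      (fun ν hν hd => hsq ν hν (hd.trans ⟨_, hC₁.trans (mul_comm _ _)⟩))
    -- independence of the new direction
    have hind : ∀ μ ∈ D, LinearIndependent ℝ ![-rot u, μ] := by
      intro μ hμ
      by_contra hcon
      have hμ0 := hD2 μ hμ
      rw [LinearIndependent.pair_iff] at hcon
      push Not at hcon
      obtain ⟨s, t, hst, hne⟩ := hcon
      have hs : s ≠ 0 := by
        intro hs
        rw [hs, zero_smul, zero_add, smul_eq_zero] at hst
        exact hne hs (hst.resolve_right hμ0)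
      have ht : t ≠ 0 := by
        intro ht
        rw [ht, zero_smul, add_zero, smul_eq_zero] at hst
        exact hs (hst.resolve_right hν)
      have e1 : μ = (-(s / t)) • (-rot u) := by
        have : t • μ = (-s) • (-rot u) := by
          rw [neg_smul]; exact eq_neg_of_add_eq_zero_right hst
        rw [← inv_smul_smul₀ ht μ, this, smul_smul]
        congr 1
        field_simp
      have e2 : lin (rot μ) = MvPolynomial.C (-(s / t)) * lin (rot (-rot u)) := by
        apply MvPolynomial.funext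
        intro z
        have e3 : rot μ = (-(s / t)) • rot (-rot u) := by
          rw [e1]
          ext i; fin_cases i <;> simp [rot]
        rw [map_mul, eval_lin_top, eval_lin_top, eval_C, e3, smul_dotProduct, smul_eq_mul]
      have e4 : lin (rot (-rot u)) ∣ C₁ := by
        have e5 : lin (rot μ) ∣ C₁ :=
          (Finset.dvd_prod_of_mem _ hμ).trans hD4.symm.dvd
        rw [e2] at e5
        exact (Dvd.intro_left _ rfl).trans e5
      apply hsq _ hν
      rw [hC₁]
      exact mul_dvd_mul_left _ e4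
    have hnot : -rot u ∉ D := by
      intro hmem
      have h1 := hind _ hmem
      rw [LinearIndependent.pair_iff] at h1
      have := h1 1 (-1) (by simp)
      simp at this
    refine ⟨insert (-rot u) D, ?_, ?_, ?_, ?_⟩
    · rw [Finset.card_insert_of_notMem hnot, hD1]
    · intro ν hν'
      rcases Finset.mem_insert.1 hν' with rfl | h'
      · exact hν
      · exact hD2 ν h'
    · intro ν hν' μ hμ' hne
      rcases Finset.mem_insert.1 hν' with rfl | h'
      · rcases Finset.mem_insert.1 hμ' with rfl | h''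
        · exact absurd rfl hne
        · exact hind μ h''
      · rcases Finset.mem_insert.1 hμ' with rfl | h''
        · exact LinearIndependent.pair_symm_iff.1 (hind ν h')
        · exact hD3 ν h' μ h'' hne
    · rw [Finset.prod_insert hnot, hC₁]
      exact hD4.mul_left _

theorem parallel {μ ν : Vec 2} (hμ : μ ≠ 0) (hν : ν ≠ 0) (h : rot μ ⬝ᵥ ν = 0) :
    ∃ c : ℝ, c ≠ 0 ∧ ν = c • μ := by
  have h1 := decomp hμ ν
  rw [dotProduct_comm ν (rot μ), h, zero_div, zero_smul, add_zero] at h1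
  refine ⟨_, ?_, h1⟩
  intro h0
  rw [h0, zero_smul] at h1
  exact hν h1

end PD

open PD in
theorem planar_data {K : Set (Vec 2)} {P Q : EA 2} (h : FP K P Q) :
    ∃ (P' Q' : EA 2) (dP dQ : ℕ) (D : Finset (Vec 2)),
      P'.coeff.support = P.coeff.support ∧ Q'.coeff.support = Q.coeff.support ∧
      PData K P' Q' dP dQ D := by
  classical
  have hb := h.body
  obtain ⟨C₀, hC₀⟩ := h.tr
  have hPQ : P * Q ≠ 0 := by
    intro h0
    have h1 := hC₀.eq
    rw [h0] at h1
    apply hC₀.ne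
    apply MvPolynomial.funext
    intro z
    have h2 := h1 z
    rw [map_zero] at h2
    rw [map_zero]
    rcases mul_eq_zero.1 h2.symm with h3 | h3
    · exact h3
    · exact absurd h3 (lap_pos hb z).ne'
  have hP : P ≠ 0 := left_ne_zero_of_mul hPQ
  have hQ : Q ≠ 0 := right_ne_zero_of_mul hPQ
  -- minimal representation
  have hex : ∃ d : ℕ, ∃ (P' Q' : EA 2) (dP dQ : ℕ) (C : Pol 2), dP + dQ = d ∧
      Good K P' Q' P.coeff.support Q.coeff.support dP dQ C := by
    obtain ⟨dP, hdP⟩ := h.homP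
    obtain ⟨dQ, hdQ⟩ := h.homQ
    obtain ⟨d, hd1, hd2⟩ := hC₀.hom
    have h1 : d = dP + dQ := by
      obtain ⟨a, ha⟩ := ne_zero_iff_support.1 hPQ
      rw [Finsupp.mem_support_iff] at ha
      exact (hd2 a).inj_right (isHom_mul hdP hdQ a) ha
    subst h1
    exact ⟨_, P, Q, dP, dQ, C₀, rfl, rfl, rfl, hdP, hdQ, hC₀.ne, hd1, hC₀.eq⟩
  obtain ⟨P', Q', dP, dQ, C, hdd, g⟩ := Nat.find_spec hex
  have hmin := fun m (hm : m < Nat.find hex) => Nat.find_min hex hm
  have hP' : P' ≠ 0 := by rw [ne_zero_iff_support, g.suppP]; exact ne_zero_iff_support.1 hP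
  have hQ' : Q' ≠ 0 := by rw [ne_zero_iff_support, g.suppQ]; exact ne_zero_iff_support.1 hQ
  have hTr := g.trC
  have hprim : ∀ h' : Pol 2, Prime h' → h' ∣ C → ∃ v, ¬ h' ∣ (P' * Q').coeff v := by
    intro h' hp hd
    by_contra hcon
    push Not at hcon
    rcases prime_mul hp hcon with h1 | h1
    · obtain ⟨P₁, dP₁, C₁, hlt, g₁⟩ := g.reduce hb.comp hP' hQ' hp.ne_zero hp.not_isUnit hd h1
      exact hmin (dP₁ + dQ) (by omega) ⟨P₁, Q', dP₁, dQ, C₁, rfl, g₁⟩
    · obtain ⟨Q₁, dQ₁, C₁, hlt, g₁⟩ := g.symm.reduce hb.comp hQ' hP' hp.ne_zero hp.not_isUnit hd h1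
      exact hmin (dP + dQ₁) (by omega) ⟨P', Q₁, dP, dQ₁, C₁, rfl, g₁.symm⟩
  -- no nonunit divides both `C` and all coefficients
  have hprim' : ∀ h' : Pol 2, h' ≠ 0 → ¬ IsUnit h' → h' ∣ C → ∃ v, ¬ h' ∣ (P' * Q').coeff v := by
    intro h' h0 hu hd
    obtain ⟨i, hi, hid⟩ := WfDvdMonoid.exists_irreducible_factor hu h0
    obtain ⟨v, hv⟩ := hprim i hi.prime (hid.trans hd)
    exact ⟨v, fun h1 => hv (hid.trans h1)⟩
  -- the prime factors of `C` are linear
  have hKc : IsCompact K := hb.comp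
  have hNw := Nw_eq hb hTr
  have hHP : HPoly K := by rw [← hNw]; exact hpoly_convexHull _
  obtain ⟨N, u, R₀, hu0, hTr₀, -⟩ := exists_tr_of hKc hHP
  have hrel : ∀ v, (∏ i, lin (u i)) * (P' * Q').coeff v = C * R₀.coeff v := by
    have h1 : (AddMonoidAlgebra.single 0 (∏ i, lin (u i)) * (P' * Q') : EA 2) =
        AddMonoidAlgebra.single 0 C * R₀ := by
      rw [← sub_eq_zero]
      apply ev_inj
      intro z
      rw [map_sub, ev_C_mul, ev_C_mul, hTr.eq, hTr₀.eq]; ring
    intro v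
    have h2 := congrArg (fun S : EA 2 => S.coeff v) h1
    simpa only [AddMonoidAlgebra.coeff_single_zero_mul] using h2
  have hlin : ∀ h' : Pol 2, Prime h' → h' ∣ C → ∃ w : Vec 2, w ≠ 0 ∧ Associated h' (lin w) := by
    intro h' hp hd
    obtain ⟨v, hv⟩ := hprim h' hp hd
    have h1 : h' ∣ (∏ i, lin (u i)) * (P' * Q').coeff v := by
      rw [hrel v]; exact hd.mul_right _
    have h2 := (hp.dvd_or_dvd h1).resolve_right hv
    obtain ⟨i, -, hi⟩ := (hp.dvd_finsetProd_iff _).1 h2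
    refine ⟨u i, hu0 i, ?_⟩
    obtain ⟨w, hw⟩ := hi
    have hl0 : lin (u i) ≠ 0 := lin_ne (hu0 i)
    have hw0 : w ≠ 0 := by
      intro h0
      rw [h0, mul_zero] at hw
      exact hl0 hw
    have h3 := lin_hom (u i)
    rw [hw] at h3
    obtain ⟨d₁, d₂, h4, h5, h6⟩ := hom_of_mul hp.ne_zero hw0 h3
    have hd1 : d₁ ≠ 0 := by
      intro h0
      rw [h0] at h4
      exact hp.not_isUnit (isUnit_of_hom_zero hp.ne_zero h4)
    have hd2 : d₂ = 0 := by omega
    rw [hd2] at h5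
    obtain ⟨w', hw'⟩ := isUnit_of_hom_zero hw0 h5
    exact ⟨w', by rw [hw', hw]⟩
  have hR := isHom_mul g.homP g.homQ
  have hnu : ∀ ν : Vec 2, ν ≠ 0 → ¬ IsUnit (lin (rot ν)) := by
    intro ν hν h1
    have h2 := h1.map (MvPolynomial.eval ν)
    rw [eval_lin_rot] at h2
    exact not_isUnit_zero h2
  -- a linear form of `C` survives at its zero
  have hsurv : ∀ ν : Vec 2, ν ≠ 0 → lin (rot ν) ∣ C → evAt ν (P' * Q') ≠ 0 := by
    intro ν hν hd h0
    obtain ⟨v, hv⟩ := hprim' _ (lin_ne (rot_ne hν)) (hnu ν hν) hd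
    apply hv
    apply lin_dvd (hR v) hν
    rw [← coeff_evAt, h0]
    rfl
  -- cofactors
  have hcof : ∀ ν : Vec 2, ν ≠ 0 → ∀ C₁, C = lin (rot ν) * C₁ →
      C₁.IsHomogeneous (dP + dQ + 1) := by
    intro ν hν C₁ hC₁
    have hC₁0 : C₁ ≠ 0 := by
      intro h0
      rw [h0, mul_zero] at hC₁
      exact g.ne hC₁
    have hl0 := lin_ne (rot_ne hν)
    have h1 := g.hom
    rw [hC₁] at h1
    obtain ⟨d₁, d₂, h2, h3, h4⟩ := hom_of_mul hl0 hC₁0 h1
    have h5 : d₁ = 1 := h2.inj_right (lin_hom _) hl0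
    have : d₂ = dP + dQ + 1 := by omega
    rwa [this] at h3
  have hsq : ∀ ν : Vec 2, ν ≠ 0 → ¬ (lin (rot ν) * lin (rot ν) ∣ C) := by
    rintro ν hν ⟨C₂, hC₂⟩
    rw [mul_assoc] at hC₂
    obtain ⟨l, l', p, p', -, -, -, -, -, he⟩ := dir hb hTr hR (hcof ν hν _ hC₂) hν hC₂
    have e0 : MvPolynomial.eval ν (lin (rot ν) * C₂) = 0 := by
      rw [map_mul, eval_lin_rot, zero_mul]
    rw [e0, zero_smul] at he
    exact hsurv ν hν ⟨_, hC₂⟩ he
  obtain ⟨D, hD1, hD2, hD3, hD4⟩ := exists_D _ C g.ne g.hom hlin hsq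
  have hDdvd : ∀ ν ∈ D, ∃ C₁, C = lin (rot ν) * C₁ := fun ν hν =>
    (Finset.dvd_prod_of_mem (fun ν => lin (rot ν)) hν).trans hD4.symm.dvd
  have hDne : ∀ ν ∈ D, ∀ C₁, C = lin (rot ν) * C₁ → MvPolynomial.eval ν C₁ ≠ 0 := by
    intro ν hν C₁ hC₁ h0
    apply hsq ν (hD2 ν hν)
    rw [hC₁]
    exact mul_dvd_mul_left _ (lin_dvd (hcof ν (hD2 ν hν) C₁ hC₁) (hD2 ν hν) h0)
  refine ⟨P', Q', dP, dQ, D, g.suppP, g.suppQ, hb, hP', hQ', ?_, g.homP, g.homQ, hD1.symm, hD2,
    hD3, ?_, ?_, ?_⟩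
  · rw [← Nw_mul hP' hQ', hNw]
  · -- edges
    intro ν hν hsub
    have hCν : MvPolynomial.eval ν C = 0 := by
      by_contra hne
      apply hsub
      have hl0 := lin_ne (rot_ne hν)
      have hTr2 : TrC K (lin (rot ν) * C)
          (AddMonoidAlgebra.single 0 (lin (rot ν)) * (P' * Q')) := by
        refine ⟨mul_ne_zero hl0 g.ne, ⟨1 + (dP + dQ), ?_, ?_⟩, ?_⟩
        · have := (lin_hom (rot ν)).mul g.hom
          rw [← add_assoc] at this
          exact this
        · exact isHom_mul (cst_isHom (lin_hom _)) hR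
        · intro z
          rw [ev_C_mul, hTr.eq, map_mul, mul_assoc]
      have hR2 : IsHom (1 + (dP + dQ)) (AddMonoidAlgebra.single 0 (lin (rot ν)) * (P' * Q')) :=
        isHom_mul (cst_isHom (lin_hom _)) hR
      have hhom : C.IsHomogeneous (1 + (dP + dQ) + 1) := by
        have : 1 + (dP + dQ) + 1 = dP + dQ + 2 := by omega
        rw [this]; exact g.hom
      obtain ⟨l, l', p, p', hl, hl', hF, hF', hpp, he⟩ := dir hb hTr2 hR2 hhom hν rfl
      have he0 : evAt ν (AddMonoidAlgebra.single 0 (lin (rot ν)) * (P' * Q')) = 0 := by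
        apply AddMonoidAlgebra.coeff_injective
        ext1 a
        rw [coeff_evAt, AddMonoidAlgebra.coeff_single_zero_mul, map_mul, eval_lin_rot, zero_mul]
        rfl
      rw [he0] at he
      have hl0' : l = 0 := by
        by_contra hl0'
        have h1 := congrArg (fun S : AddMonoidAlgebra ℝ (Vec 2) => S.coeff (p + l • rot ν)) he
        simp only [AddMonoidAlgebra.coeff_smul_apply, AddMonoidAlgebra.coeff_add,
          AddMonoidAlgebra.coeff_sub, Finsupp.add_apply, Finsupp.sub_apply,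
          AddMonoidAlgebra.coeff_single, Finsupp.single_apply, AddMonoidAlgebra.coeff_zero,
          Finsupp.zero_apply] at h1
        have hdot : (p + l • rot ν) ⬝ᵥ ν = p ⬝ᵥ ν := by
          rw [add_dotProduct, smul_dotProduct, rot_dot, smul_zero, add_zero]
        rw [if_pos trivial, if_neg, if_neg, if_neg] at h1
        · simp at h1
          exact hne h1.symm
        · intro h2
          rw [← h2] at hdot
          exact absurd hdot hpp.ne
        · intro h2
          rw [← h2, add_dotProduct, smul_dotProduct, rot_dot, smul_zero, add_zero] at hdot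
          exact absurd hdot hpp.ne
        · intro h2
          have h3 : l • rot ν = 0 := by
            have := h2.symm
            rwa [add_eq_left] at this
          rcases smul_eq_zero.1 h3 with h4 | h4
          · exact hl0' h4
          · exact rot_ne hν h4
      rw [hF, hl0', zero_smul, add_zero, segment_same]
      exact Set.subsingleton_singleton
    obtain ⟨w, hw⟩ := hD4
    have h1 : MvPolynomial.eval ν (∏ μ ∈ D, lin (rot μ)) = 0 := by
      rw [← hw, map_mul, hCν, zero_mul]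
    rw [map_prod, Finset.prod_eq_zero_iff] at h1
    obtain ⟨μ, hμ, hμν⟩ := h1
    rw [eval_lin_top] at hμν
    obtain ⟨c, hc, hcc⟩ := parallel (hD2 μ hμ) hν hμν
    exact ⟨μ, hμ, c, hc, hcc⟩
  · -- full heights
    intro ν hν
    obtain ⟨C₁, hC₁⟩ := hDdvd ν hν
    exact full hb hTr hP' hQ' g.homP g.homQ (hD2 ν hν) hC₁ (hcof ν (hD2 ν hν) C₁ hC₁)
      (hDne ν hν C₁ hC₁)
  · intro ν hν
    obtain ⟨C₁, hC₁⟩ := hDdvd ν hν
    obtain ⟨l, l', p, p', hl, hl', hF, hF', hpp, he⟩ :=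
      dir hb hTr hR (hcof ν (hD2 ν hν) C₁ hC₁) (hD2 ν hν) hC₁
    refine ⟨_, l, l', p, p', hDne ν hν C₁ hC₁, hl, hl', ?_, hF, hF', ?_⟩
    · by_contra hcon
      have e1 : l = 0 := by linarith
      have e2 : l' = 0 := by linarith
      apply hsurv ν (hD2 ν hν) ⟨_, hC₁⟩
      rw [he, e1, e2]
      simp
    · rw [← map_mul, he]

end Pool.Agent.Covg
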