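import Pool.Agent.Work.MP_177351_gt.PlanarCore
import Pool.Agent.Work.MP_177351_gt.PlanarData

/-!
# The planar lemma: in the plane only parallelograms split
-/

set_option autoImplicit false

open MeasureTheory MvPolynomial Set Filter Topology
open scoped Pointwise Matrix

namespace Pool.Agent.Covg

theorem planar {K : Set (Vec 2)} {P Q : EA 2} (h : FP K P Q) (hP : ¬ Mono P) (hQ : ¬ Mono Q) :
    ∃ v d d' : Vec 2, LinearIndependent ℝ ![d, d'] ∧
      K = {x | ∃ s ∈ Icc (0 : ℝ) 1, ∃ r ∈ Icc (0 : ℝ) 1, x = v + s • d + r • d'} := by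
  obtain ⟨P', Q', dP, dQ, D, h1, h2, h3⟩ := planar_data h
  refine planar_core h3 ?_ ?_
  · rw [Mono, h1]; exact hP
  · rw [Mono, h2]; exact hQ

end Pool.Agent.Covg
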