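import Mathlib

/-!
# Convex bodies in which the homothety property holds: structure theorem
-/

set_option autoImplicit false

open Set Pointwise

namespace Pool.MP_177351_gt

variable {V : Type*} [NormedAddCommGroup V] [NormedSpace ℝ V]

/-- The property `H ∩ (H + (1-k)(f-g)) ⊆ k H + (1-k) f` for all `0 < k ≤ 1`. -/
def Lin (H : Set V) (f g : V) : Prop :=
  ∀ k : ℝ, 0 < k → k ≤ 1 → ∀ z : V, k • z + (1 - k) • f ∈ H → k • z + (1 - k) • g ∈ H → z ∈ H

theorem Lin.symm {H : Set V} {f g : V} (h : Lin H f g) : Lin H g f :=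
  fun k h0 h1 z hz1 hz2 => h k h0 h1 z hz2 hz1

/-- Relative interior points, in the algebraic sense. -/
def RelInt (F : Set V) (f : V) : Prop :=
  f ∈ F ∧ ∀ v ∈ vectorSpan ℝ F, ∃ e : ℝ, 0 < e ∧ ∀ d : ℝ, |d| ≤ e → f + d • v ∈ F

theorem exists_relInt [FiniteDimensional ℝ V] {F : Set V} (hF : Convex ℝ F) (hn : F.Nonempty) :
    ∃ f, RelInt F f := by
  obtain ⟨f, hf⟩ := (intrinsicInterior_nonempty hF).2 hn
  rw [mem_intrinsicInterior] at hf
  obtain ⟨y, hy, rfl⟩ := hf
  have hsub : interior ((↑) ⁻¹' F : Set (affineSpan ℝ F)) ⊆ ((↑) ⁻¹' F : Set (affineSpan ℝ F)) :=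
    interior_subset
  have hyF : (y : V) ∈ F := hsub hy
  refine ⟨y, hyF, fun v hv => ?_⟩
  have hmem : ∀ d : ℝ, (y : V) + d • v ∈ affineSpan ℝ F := by
    intro d
    have := AffineSubspace.vadd_mem_of_mem_direction (s := affineSpan ℝ F) (v := d • v)
      (by rw [direction_affineSpan]; exact Submodule.smul_mem _ _ hv) y.2
    rwa [vadd_eq_add, add_comm] at this
  let γ : ℝ → affineSpan ℝ F := fun d => ⟨(y : V) + d • v, hmem d⟩
  have hγ : Continuous γ := by
    apply Continuous.subtype_mk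
    fun_prop
  have h0 : γ 0 = y := by
    apply Subtype.ext
    simp [γ]
  have hnh : (γ ⁻¹' (interior ((↑) ⁻¹' F : Set (affineSpan ℝ F)))) ∈ nhds (0 : ℝ) :=
    (isOpen_interior.preimage hγ).mem_nhds (by rw [mem_preimage, h0]; exact hy)
  obtain ⟨e, he, hball⟩ := Metric.mem_nhds_iff.1 hnh
  refine ⟨e / 2, half_pos he, fun d hd => ?_⟩
  have : d ∈ Metric.ball (0 : ℝ) e := by
    rw [Metric.mem_ball, Real.dist_eq, sub_zero]
    linarith
  exact hsub (hball this)

theorem Lin.unique {H : Set V} (hH : Convex ℝ H) (hb : Bornology.IsBounded H) {f g f' g' : V}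
    (hf : f ∈ H) (h : Lin H f g) (hf' : f' ∈ H) (hg' : g' ∈ H) (he : f - g = f' - g') :
    f = f' := by
  have step : ∀ x ∈ H, x + (f' - f) ∈ H := by
    intro x hx
    apply h (1 / 2) (by norm_num) (by norm_num)
    · have := hH hx hf' (by norm_num : (0 : ℝ) ≤ 1 / 2) (by norm_num : (0 : ℝ) ≤ 1 / 2)
        (by norm_num)
      convert this using 1
      module
    · have := hH hx hg' (by norm_num : (0 : ℝ) ≤ 1 / 2) (by norm_num : (0 : ℝ) ≤ 1 / 2)
        (by norm_num)
      convert this using 1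
      have : g = f - f' + g' := by
        rw [eq_comm, ← sub_eq_zero]
        rw [← sub_eq_zero] at he
        rw [← he]
        abel
      rw [this]
      module
  have iter : ∀ n : ℕ, f + (n : ℝ) • (f' - f) ∈ H := by
    intro n
    induction n with
    | zero => simpa using hf
    | succ n ih =>
      have := step _ ih
      convert this using 1
      push_cast
      module
  obtain ⟨C, hC⟩ := hb.exists_norm_le
  by_contra hne
  have hpos : 0 < ‖f' - f‖ := norm_pos_iff.2 (sub_ne_zero.2 (Ne.symm hne))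
  obtain ⟨n, hn⟩ := exists_nat_gt ((C + ‖f‖) / ‖f' - f‖)
  have h1 := hC _ (iter n)
  have h2 : (n : ℝ) * ‖f' - f‖ ≤ ‖f + (n : ℝ) • (f' - f)‖ + ‖f‖ := by
    have := norm_sub_le (f + (n : ℝ) • (f' - f)) f
    rw [add_sub_cancel_left, norm_smul, Real.norm_natCast] at this
    exact this
  rw [div_lt_iff₀ hpos] at hn
  linarith

/-- The key step of the structure theorem. -/
theorem Lin.key {H F G : Set V} (hH : Convex ℝ H) (hFH : F ⊆ H) (hGH : G ⊆ H) {f g : V}
    (hf : RelInt F f) (hg : RelInt G g) (h : Lin H f g) {v w : V} (hv : v ∈ vectorSpan ℝ F)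
    (hw : w ∈ vectorSpan ℝ G) {s : ℝ} (hs0 : 0 ≤ s) (hs1 : s < 1)
    (hx : s • f + (1 - s) • g + v + w ∈ H) : g + (1 / (1 - s)) • w ∈ H := by
  obtain ⟨e1, he1, hf1⟩ := hf.2 v hv
  obtain ⟨e2, he2, hg2⟩ := hg.2 w hw
  obtain ⟨d, hd0, hd1, hd2, hd3⟩ : ∃ d : ℝ, 0 < d ∧ d ≤ 1 / 2 ∧ 2 * d ≤ e1 ∧ d ≤ e2 := by
    refine ⟨min (1 / 2) (min (e1 / 2) e2), ?_, min_le_left _ _, ?_, ?_⟩
    · exact lt_min (by norm_num) (lt_min (half_pos he1) he2)
    · have := (min_le_right (1 / 2 : ℝ) (min (e1 / 2) e2)).trans (min_le_left _ _)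
      linarith
    · exact (min_le_right _ _).trans (min_le_right _ _)
  have h1s : 0 < 1 - s := by linarith
  have h1d : 0 < 1 - d := by linarith
  have hfa : f + (-(d / (1 - d))) • v ∈ H := by
    apply hFH
    apply hf1
    rw [abs_neg, abs_of_pos (div_pos hd0 h1d), div_le_iff₀ h1d]
    nlinarith
  have hga : g + d • w ∈ H := hGH (hg2 d (by rwa [abs_of_pos hd0]))
  have hk0 : 0 < d * (1 - s) := mul_pos hd0 h1s
  have hk1 : d * (1 - s) ≤ 1 := by nlinarith
  apply h (d * (1 - s)) hk0 hk1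
  · have := hH hx hfa hd0.le h1d.le (by ring)
    convert this using 1
    have e1 : (1 - d) • (f + (-(d / (1 - d))) • v) = (1 - d) • f - d • v := by
      rw [smul_add, smul_smul, mul_neg, mul_div_cancel₀ _ h1d.ne', neg_smul, ← sub_eq_add_neg]
    have e2 : (d * (1 - s)) • (g + (1 / (1 - s)) • w) = (d * (1 - s)) • g + d • w := by
      rw [smul_add, smul_smul, mul_assoc, mul_one_div, div_self h1s.ne', mul_one]
    rw [e1, e2]
    module
  · convert hga using 1
    have e2 : (d * (1 - s)) • (g + (1 / (1 - s)) • w) = (d * (1 - s)) • g + d • w := by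
      rw [smul_add, smul_smul, mul_assoc, mul_one_div, div_self h1s.ne', mul_one]
    rw [e2]
    module

/-- `K` is the join of `F` (at height `m+1`) and `G` (at height `m`). -/
structure Join (K F G : Set V) (l : V →ₗ[ℝ] ℝ) (m : ℝ) : Prop where
  convF : Convex ℝ F
  convG : Convex ℝ G
  compF : IsCompact F
  compG : IsCompact G
  neF : F.Nonempty
  neG : G.Nonempty
  lF : ∀ x ∈ F, l x = m + 1
  lG : ∀ x ∈ G, l x = m
  disj : Disjoint (vectorSpan ℝ F) (vectorSpan ℝ G)
  sup : vectorSpan ℝ F ⊔ vectorSpan ℝ G = LinearMap.ker l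
  mem : ∀ x, x ∈ K ↔ ∃ s : ℝ, 0 ≤ s ∧ s ≤ 1 ∧ ∃ a ∈ F, ∃ b ∈ G, x = s • a + (1 - s) • b

namespace Join

variable {K F G : Set V} {l : V →ₗ[ℝ] ℝ} {m : ℝ}

theorem eq_zero (J : Join K F G l m) {v w : V} (hv : v ∈ vectorSpan ℝ F)
    (hw : w ∈ vectorSpan ℝ G) (h : v = w) : v = 0 := by
  have := Submodule.disjoint_def.1 J.disj v hv (h ▸ hw)
  exact this

theorem F_sub (J : Join K F G l m) : F ⊆ K := fun x hx => by
  obtain ⟨g, hg⟩ := J.neG
  exact (J.mem x).2 ⟨1, zero_le_one, le_rfl, x, hx, g, hg, by simp⟩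

theorem G_sub (J : Join K F G l m) : G ⊆ K := fun x hx => by
  obtain ⟨f, hf⟩ := J.neF
  exact (J.mem x).2 ⟨0, le_rfl, zero_le_one, f, hf, x, hx, by simp⟩

theorem height (J : Join K F G l m) {s : ℝ} {a b : V} (ha : a ∈ F) (hb : b ∈ G) :
    l (s • a + (1 - s) • b) = m + s := by
  rw [map_add, map_smul, map_smul, J.lF a ha, J.lG b hb, smul_eq_mul, smul_eq_mul]
  ring

theorem le_height (J : Join K F G l m) {x : V} (hx : x ∈ K) : m ≤ l x ∧ l x ≤ m + 1 := by
  obtain ⟨s, h0, h1, a, ha, b, hb, rfl⟩ := (J.mem x).1 hx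
  rw [J.height ha hb]
  constructor <;> linarith

theorem mem_F (J : Join K F G l m) {x : V} (hx : x ∈ K) (h : l x = m + 1) : x ∈ F := by
  obtain ⟨s, h0, h1, a, ha, b, hb, rfl⟩ := (J.mem x).1 hx
  rw [J.height ha hb] at h
  have : s = 1 := by linarith
  rw [this]
  simpa using ha

theorem mem_G (J : Join K F G l m) {x : V} (hx : x ∈ K) (h : l x = m) : x ∈ G := by
  obtain ⟨s, h0, h1, a, ha, b, hb, rfl⟩ := (J.mem x).1 hx
  rw [J.height ha hb] at h
  have : s = 0 := by linarith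
  rw [this]
  simpa using hb

theorem lin (J : Join K F G l m) {f g : V} (hf : f ∈ F) (hg : g ∈ G) : Lin K f g := by
  intro k hk0 hk1 z hz1 hz2
  obtain ⟨s, hs0, hs1, a, ha, b, hb, e1⟩ := (J.mem _).1 hz1
  obtain ⟨s', hs0', hs1', a', ha', b', hb', e2⟩ := (J.mem _).1 hz2
  have q1 : k * l z + (1 - k) * (m + 1) = m + s := by
    rw [← J.height (s := s) ha hb, ← e1, map_add, map_smul, map_smul, J.lF f hf, smul_eq_mul, smul_eq_mul]
  have q2 : k * l z + (1 - k) * m = m + s' := by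
    rw [← J.height (s := s') ha' hb', ← e2, map_add, map_smul, map_smul, J.lG g hg, smul_eq_mul,
      smul_eq_mul]
  have hs : s = s' + (1 - k) := by linarith
  have p : ((1 - k) • (f - a) + s' • (a' - a) : V) = (1 - k) • (g - b') + (1 - s) • (b - b') := by
    have h3 : ((1 - k) • f - (1 - k) • g : V)
        = (s • a + (1 - s) • b) - (s' • a' + (1 - s') • b') := by
      rw [← e1, ← e2]; abel
    rw [← sub_eq_zero] at h3 ⊢
    rw [← h3, hs]
    module
  have hm1 : ((1 - k) • (f - a) + s' • (a' - a) : V) ∈ vectorSpan ℝ F :=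
    add_mem (Submodule.smul_mem _ _ (vsub_mem_vectorSpan ℝ hf ha))
      (Submodule.smul_mem _ _ (vsub_mem_vectorSpan ℝ ha' ha))
  have hm2 : ((1 - k) • (g - b') + (1 - s) • (b - b') : V) ∈ vectorSpan ℝ G :=
    add_mem (Submodule.smul_mem _ _ (vsub_mem_vectorSpan ℝ hg hb'))
      (Submodule.smul_mem _ _ (vsub_mem_vectorSpan ℝ hb hb'))
  have hz := J.eq_zero hm1 hm2 p
  refine (J.mem z).2 ⟨s' / k, div_nonneg hs0' hk0.le, ?_, a', ha', b, hb, ?_⟩
  · rw [div_le_one hk0]; linarith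
  · have h5 : k • z = s' • a' + (1 - s) • b := by
      have : k • z = (s • a + (1 - s) • b) - (1 - k) • f := by rw [← e1]; abel
      rw [this, ← sub_eq_zero, ← neg_eq_zero, ← hz, hs]
      module
    have h6 : z = (1 / k) • (k • z) := by
      rw [smul_smul, one_div_mul_cancel hk0.ne', one_smul]
    rw [h6, h5, smul_add, smul_smul, smul_smul]
    congr 2
    · ring
    · rw [hs]; field_simp; ring

end Join

/-- Structure theorem: a compact convex body whose top and bottom faces are related by the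
homothety property, with spans filling the kernel, is the join of these faces. -/
theorem join_of_lin [FiniteDimensional ℝ V] {H : Set V} (hH : Convex ℝ H) (hc : IsCompact H)
    (l : V →ₗ[ℝ] ℝ) {m : ℝ} (hlo : ∀ x ∈ H, m ≤ l x) (hhi : ∀ x ∈ H, l x ≤ m + 1)
    (hF : ∃ x ∈ H, l x = m + 1) (hG : ∃ x ∈ H, l x = m)
    (hlin : ∀ f ∈ H, ∀ g ∈ H, l f = m + 1 → l g = m → Lin H f g)
    (hspan : LinearMap.ker l ≤ vectorSpan ℝ {x ∈ H | l x = m + 1} ⊔
      vectorSpan ℝ {x ∈ H | l x = m}) :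
    Join H {x ∈ H | l x = m + 1} {x ∈ H | l x = m} l m := by
  have hlc : Continuous l := LinearMap.continuous_of_finiteDimensional l
  set F : Set V := {x ∈ H | l x = m + 1} with hFdef
  set G : Set V := {x ∈ H | l x = m} with hGdef
  have cF : Convex ℝ F := by
    intro x hx y hy a b ha hb hab
    refine ⟨hH hx.1 hy.1 ha hb hab, ?_⟩
    rw [map_add, map_smul, map_smul, hx.2, hy.2, smul_eq_mul, smul_eq_mul, ← add_mul, hab,
      one_mul]
  have cG : Convex ℝ G := by
    intro x hx y hy a b ha hb hab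
    refine ⟨hH hx.1 hy.1 ha hb hab, ?_⟩
    rw [map_add, map_smul, map_smul, hx.2, hy.2, smul_eq_mul, smul_eq_mul, ← add_mul, hab,
      one_mul]
  have nF : F.Nonempty := by obtain ⟨x, hx, h⟩ := hF; exact ⟨x, hx, h⟩
  have nG : G.Nonempty := by obtain ⟨x, hx, h⟩ := hG; exact ⟨x, hx, h⟩
  have kF : IsCompact F := hc.inter_right (isClosed_singleton.preimage hlc)
  have kG : IsCompact G := hc.inter_right (isClosed_singleton.preimage hlc)
  have vF : vectorSpan ℝ F ≤ LinearMap.ker l := by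
    rw [vectorSpan_def, Submodule.span_le]
    rintro _ ⟨x, hx, y, hy, rfl⟩
    simp only [SetLike.mem_coe, LinearMap.mem_ker, vsub_eq_sub, map_sub]
    rw [hx.2, hy.2, sub_self]
  have vG : vectorSpan ℝ G ≤ LinearMap.ker l := by
    rw [vectorSpan_def, Submodule.span_le]
    rintro _ ⟨x, hx, y, hy, rfl⟩
    simp only [SetLike.mem_coe, LinearMap.mem_ker, vsub_eq_sub, map_sub]
    rw [hx.2, hy.2, sub_self]
  obtain ⟨f, hf⟩ := exists_relInt cF nF
  obtain ⟨g, hg⟩ := exists_relInt cG nG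
  have hl := hlin f hf.1.1 g hg.1.1 hf.1.2 hg.1.2
  have hdisj : Disjoint (vectorSpan ℝ F) (vectorSpan ℝ G) := by
    rw [Submodule.disjoint_def]
    intro v hv hw
    obtain ⟨e1, he1, hf1⟩ := hf.2 v hv
    obtain ⟨e2, he2, hg2⟩ := hg.2 v hw
    have a1 : f + (min e1 e2) • v ∈ F := hf1 _ (by
      rw [abs_of_pos (lt_min he1 he2)]; exact min_le_left _ _)
    have a2 : g + (min e1 e2) • v ∈ G := hg2 _ (by
      rw [abs_of_pos (lt_min he1 he2)]; exact min_le_right _ _)
    have := hl.unique hH hc.isBounded hf.1.1 a1.1 a2.1 (by abel)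
    have h0 : (min e1 e2) • v = 0 := by
      have := congrArg (fun x => x - f) this
      simpa using this.symm
    exact (smul_eq_zero.1 h0).resolve_left (lt_min he1 he2).ne'
  refine ⟨cF, cG, kF, kG, nF, nG, fun x hx => hx.2, fun x hx => hx.2, hdisj,
    le_antisymm (sup_le vF vG) hspan, fun x => ⟨fun hx => ?_, ?_⟩⟩
  · -- the main step
    set s := l x - m with hs
    have hs0 : 0 ≤ s := by have := hlo x hx; linarith
    have hs1 : s ≤ 1 := by have := hhi x hx; linarith
    rcases hs0.eq_or_lt with h0 | h0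
    · exact ⟨0, le_rfl, zero_le_one, f, hf.1, x, ⟨hx, by linarith⟩, by simp⟩
    rcases hs1.eq_or_lt with h1 | h1
    · exact ⟨1, zero_le_one, le_rfl, x, ⟨hx, by linarith⟩, g, hg.1, by simp⟩
    have hk : x - (s • f + (1 - s) • g) ∈ LinearMap.ker l := by
      rw [LinearMap.mem_ker, map_sub, map_add, map_smul, map_smul, hf.1.2, hg.1.2, smul_eq_mul,
        smul_eq_mul, hs]
      ring
    obtain ⟨v, hv, w, hw, hvw⟩ := Submodule.mem_sup.1 (hspan hk)
    have hx' : x = s • f + (1 - s) • g + v + w := by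
      rw [add_assoc, hvw]; abel
    have hb : g + (1 / (1 - s)) • w ∈ H :=
      hl.key hH (fun _ h => h.1) (fun _ h => h.1) hf hg hv hw h0.le h1 (hx' ▸ hx)
    have ha : f + (1 / (1 - (1 - s))) • v ∈ H := by
      refine hl.symm.key hH (F := G) (G := F) (fun _ h => h.1) (fun _ h => h.1) hg hf hw hv
        (by linarith) (by linarith) ?_
      convert hx using 1
      rw [hx']
      module
    have e1 : (1 - (1 - s)) = s := by ring
    rw [e1] at ha
    refine ⟨s, h0.le, h1.le, _, ⟨ha, ?_⟩, _, ⟨hb, ?_⟩, ?_⟩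
    · rw [map_add, map_smul, hf.1.2, LinearMap.mem_ker.1 (vF hv)]; simp
    · rw [map_add, map_smul, hg.1.2, LinearMap.mem_ker.1 (vG hw)]; simp
    · rw [smul_add, smul_add, smul_smul, smul_smul, mul_one_div_cancel h0.ne',
        mul_one_div_cancel (by linarith : (1 - s) ≠ 0), one_smul, one_smul, hx']
      abel
  · rintro ⟨s, h0, h1, a, ha, b, hb, rfl⟩
    exact hH ha.1 hb.1 h0 (by linarith) (by ring)

end Pool.MP_177351_gt
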