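import Pool.Agent.Work.MP_177351_gt.Ufl3
import Pool.Agent.Work.MP_177351_gt.Ana

/-!
# The uniform fibre lemma
-/

set_option autoImplicit false

open MeasureTheory MvPolynomial Set Filter Topology
open scoped Pointwise Matrix

namespace Pool.Agent.Covg

namespace UflAux

lemma exists_scale {k m n : ℕ} (L : Vec n ≃L[ℝ] Vec k × Vec m) : ∃ c1 : ℝ,
    ∀ (K : Set (Vec n)) (f : Vec k × Vec m → ℝ),
      ∫ x in L '' K, f x = c1 * ∫ x in K, f (L x) := by
  set ν : Measure (Vec k × Vec m) := Measure.map L volume with hν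
  have hν1 : ν.IsAddHaarMeasure := L.isAddHaarMeasure_map volume
  have hv : (volume : Measure (Vec k × Vec m)).IsAddHaarMeasure :=
    Measure.prod.instIsAddHaarMeasure (volume : Measure (Vec k)) (volume : Measure (Vec m))
  have h1 : (volume : Measure (Vec k × Vec m)) =
      Measure.addHaarScalarFactor (volume : Measure (Vec k × Vec m)) ν • ν :=
    Measure.isAddLeftInvariant_eq_smul _ _
  have hemb : MeasurableEmbedding L := L.toHomeomorph.measurableEmbedding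
  obtain ⟨r, hr⟩ : ∃ r : NNReal, (volume : Measure (Vec k × Vec m)) = r • ν := ⟨_, h1⟩
  refine ⟨(r : ℝ), fun K f => ?_⟩
  have h2 : ∫ x in L '' K, f x = ∫ x in L '' K, f x ∂(r • ν) := by
    rw [← hr]
  rw [h2, Measure.restrict_smul, integral_smul_nnreal_measure, hν,
    hemb.setIntegral_map (μ := volume) f (L '' K), preimage_image_eq _ L.injective]
  rfl

lemma exists_vec' {m : ℕ} (f : Vec m →ₗ[ℝ] ℝ) : ∃ ω : Vec m, ∀ x, f x = x ⬝ᵥ ω :=
  LapAux.exists_vec (LinearMap.toContinuousLinearMap f)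

/-- one side of the asymptotics -/
lemma asym {ι : Type} [DecidableEq ι] (S : Finset ι) (q : ι → Polynomial ℝ) (e : ι → ℝ)
    (i₀ : ι) (hi₀ : i₀ ∉ S → q i₀ = 0) {ρ : Polynomial ℝ} (hρ : ρ ≠ 0) {y h δ : ℝ}
    (hy : e i₀ = y) (hS : ∀ b ∈ S.erase i₀, e b ≤ h) (hδ : 0 < δ) (hhy : 2 * δ ≤ y - h)
    (F : ℝ → ℝ) (hF : ∀ t, ∑ b ∈ S, (q b).eval t * Real.exp (e b * t) = ρ.eval t * F t)
    (c1 : ℝ) (P : ℝ → ℝ) (hP : ∀ᶠ t in atTop, ρ.eval t * P t = c1 * (q i₀).eval t) :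
    (fun t : ℝ => c1 * F t * Real.exp (-y * t) - P t) =O[atTop]
      fun t : ℝ => Real.exp (-δ * t) := by
  obtain ⟨c, hc, hlow⟩ := LapAux.poly_lower hρ
  have h1 := (side_bigO hρ (S.erase i₀) q e hS hδ hhy).const_mul_left c1
  refine h1.congr' ?_ EventuallyEq.rfl
  filter_upwards [hlow, hP] with t ht1 ht2
  have hρt : ρ.eval t ≠ 0 := by
    intro h0
    rw [h0, abs_zero] at ht1
    linarith
  have h2 : ∑ b ∈ S, (q b).eval t * Real.exp (e b * t) =
      (q i₀).eval t * Real.exp (y * t) +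
        ∑ b ∈ S.erase i₀, (q b).eval t * Real.exp (e b * t) := by
    by_cases hmem : i₀ ∈ S
    · rw [← Finset.add_sum_erase S _ hmem, hy]
    · rw [hi₀ hmem, Finset.erase_eq_of_notMem hmem]
      simp
  have h3 := hF t
  rw [h2] at h3
  have h4 : F t = ((q i₀).eval t * Real.exp (y * t) +
      ∑ b ∈ S.erase i₀, (q b).eval t * Real.exp (e b * t)) / ρ.eval t := by
    rw [h3]
    field_simp
  have h5 : P t = c1 * (q i₀).eval t / ρ.eval t := by
    rw [← ht2]
    field_simp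
  have h6 : Real.exp (y * t) * Real.exp (-y * t) = 1 := by
    rw [← Real.exp_add]
    simp
  rw [h4, h5]
  generalize Real.exp (y * t) = E1' at h6 ⊢
  generalize Real.exp (-y * t) = E2' at h6 ⊢
  generalize ∑ b ∈ S.erase i₀, (q b).eval t * Real.exp (e b * t) = Sg
  field_simp
  linear_combination (-c1 * (q i₀).eval t) * h6

end UflAux

open UflAux

theorem ufl {n : ℕ} {K : Set (Vec n)} (hb : Body K) {C : Pol n} {R : EA n} (hT : TrC K C R)
    {A B : Set (Vec n)} (hAc : Convex ℝ A) (hAk : IsCompact A)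
    (hBc : Convex ℝ B) (hBk : IsCompact B) (hB0 : vectorSpan ℝ B ≠ ⊥) (hK : K = A + B)
    {ω : Vec n} (hω : ∀ w ∈ vectorSpan ℝ B, w ⬝ᵥ ω = 0) {x₁ x₂ : Vec n} (hx₁ : x₁ ∈ A)
    (hx₂ : x₂ ∈ A) (h1 : ∀ x ∈ A, x ≠ x₁ → x ⬝ᵥ ω < x₁ ⬝ᵥ ω)
    (h2 : ∀ x ∈ A, x ≠ x₂ → x₂ ⬝ᵥ ω < x ⬝ᵥ ω)
    {M₁ M₂ : Pol n} {d₁ d₂ : ℕ} (hM₁ : M₁ ≠ 0) (hM₂ : M₂ ≠ 0) (hd₁ : M₁.IsHomogeneous d₁)
    (hd₂ : M₂.IsHomogeneous d₂)
    (hrel : AddMonoidAlgebra.single x₂ M₂ * lead ω R =
      AddMonoidAlgebra.single x₁ M₁ * lead (-ω) R) :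
    ∀ a ∈ A, ∀ a' ∈ A, a - a' ∈ vectorSpan ℝ B → a = a' := by
  classical
  set W := vectorSpan ℝ B with hW
  obtain ⟨W', hW'⟩ := W.exists_isCompl
  set k := Module.finrank ℝ W with hk
  set m := Module.finrank ℝ W' with hm
  set L : Vec n ≃ₗ[ℝ] Vec k × Vec m := (Submodule.prodEquivOfIsCompl W W' hW').symm.trans
    (LinearEquiv.prodCongr (Module.finBasis ℝ W).equivFun (Module.finBasis ℝ W').equivFun) with hL
  set Lc : Vec n ≃L[ℝ] Vec k × Vec m := L.toContinuousLinearEquiv with hLc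
  have hLcL : ∀ x, Lc x = L x := fun x => rfl
  -- `W` is the first factor
  have hLW : ∀ w ∈ W, (L w).2 = 0 := by
    intro w hw
    have h3 : (Submodule.prodEquivOfIsCompl W W' hW').symm w = (⟨w, hw⟩, 0) := by
      rw [LinearEquiv.symm_apply_eq]
      simp
    rw [hL]
    simp [h3]
  have hLW' : ∀ x, (L x).2 = 0 → x ∈ W := by
    intro x hx
    set y := (Submodule.prodEquivOfIsCompl W W' hW').symm x with hy
    have h3 : (L x).2 = (Module.finBasis ℝ W').equivFun y.2 := rfl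
    rw [h3, LinearEquiv.map_eq_zero_iff] at hx
    have h4 : x = (Submodule.prodEquivOfIsCompl W W' hW') y := by
      rw [hy, LinearEquiv.apply_symm_apply]
    rw [h4, Submodule.coe_prodEquivOfIsCompl', hx]
    simp
  -- the functional
  obtain ⟨ω', hω'⟩ : ∃ ω' : Vec m, ∀ x, x ⬝ᵥ ω = (L x).2 ⬝ᵥ ω' := by
    set φ : Vec m →ₗ[ℝ] ℝ :=
      { toFun := fun v => L.symm (0, v) ⬝ᵥ ω
        map_add' := fun v w => by
          have : ((0 : Vec k), v + w) = (0, v) + (0, w) := by simp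
          rw [this, map_add, add_dotProduct]
        map_smul' := fun c v => by
          have : ((0 : Vec k), c • v) = c • ((0 : Vec k), v) := by simp
          rw [this, map_smul, smul_dotProduct]
          rfl } with hφ
    obtain ⟨ω', h3⟩ := exists_vec' φ
    refine ⟨ω', fun x => ?_⟩
    rw [← h3]
    change x ⬝ᵥ ω = L.symm (0, (L x).2) ⬝ᵥ ω
    have h4 : x - L.symm (0, (L x).2) ∈ W := by
      apply hLW'
      rw [map_sub, LinearEquiv.apply_symm_apply]
      simp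
    have h5 := hω _ h4
    rw [sub_dotProduct] at h5
    linarith
  -- a point of `B`
  obtain ⟨x0, hx0⟩ := hb.int
  have hx0K := interior_subset hx0
  rw [hK] at hx0K
  obtain ⟨a0, ha0, b0, hb0, -⟩ := hx0K
  have hBω : ∀ b ∈ B, b ⬝ᵥ ω = b0 ⬝ᵥ ω := by
    intro b hb'
    have := hω _ (vsub_mem_vectorSpan ℝ hb' hb0)
    rw [vsub_eq_sub, sub_dotProduct] at this
    linarith
  have hBL : ∀ b ∈ B, (L b).2 = (L b0).2 := by
    intro b hb'
    have := hLW _ (vsub_mem_vectorSpan ℝ hb' hb0)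
    rw [vsub_eq_sub, map_sub, Prod.snd_sub, sub_eq_zero] at this
    exact this
  set v0 := (L b0).2 with hv0
  -- the support of `R`
  have hNw := Nw_eq hb hT
  have hne : R.coeff.support.Nonempty := by
    rw [Finset.nonempty_iff_ne_empty]
    intro h0
    have : (Nw R).Nonempty := by
      rw [hNw]
      exact ⟨x0, interior_subset hx0⟩
    unfold Nw at this
    rw [h0] at this
    simp at this
  obtain ⟨ap, hap, hapm⟩ := Finset.exists_max_image R.coeff.support (fun a => a ⬝ᵥ ω) hne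
  obtain ⟨am, ham, hamm⟩ := Finset.exists_min_image R.coeff.support (fun a => a ⬝ᵥ ω) hne
  have hsub : ∀ a ∈ R.coeff.support, a ∈ K := fun a ha => by
    rw [← hNw]
    exact subset_convexHull ℝ _ ha
  have hKle : ∀ x ∈ K, x ⬝ᵥ ω ≤ ap ⬝ᵥ ω := by
    intro x hx
    rw [← hNw] at hx
    have h3 : Convex ℝ {x : Vec n | x ⬝ᵥ ω ≤ ap ⬝ᵥ ω} :=
      convex_halfSpace_le (IsLinearMap.mk (fun x y => add_dotProduct _ _ _)
        fun c x => smul_dotProduct _ _ _) _
    exact convexHull_min hapm h3 hx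
  have hKge : ∀ x ∈ K, am ⬝ᵥ ω ≤ x ⬝ᵥ ω := by
    intro x hx
    rw [← hNw] at hx
    have h3 : Convex ℝ {x : Vec n | am ⬝ᵥ ω ≤ x ⬝ᵥ ω} :=
      convex_halfSpace_ge (IsLinearMap.mk (fun x y => add_dotProduct _ _ _)
        fun c x => smul_dotProduct _ _ _) _
    exact convexHull_min hamm h3 hx
  have hle₁ : ∀ x ∈ A, x ⬝ᵥ ω ≤ x₁ ⬝ᵥ ω := by
    intro x hx
    by_cases h : x = x₁
    · rw [h]
    · exact (h1 x hx h).le
  have hle₂ : ∀ x ∈ A, x₂ ⬝ᵥ ω ≤ x ⬝ᵥ ω := by
    intro x hx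
    by_cases h : x = x₂
    · rw [h]
    · exact (h2 x hx h).le
  have hyp : ap ⬝ᵥ ω = x₁ ⬝ᵥ ω + b0 ⬝ᵥ ω := by
    apply le_antisymm
    · have h3 := hsub ap hap
      rw [hK] at h3
      obtain ⟨a, ha, b, hb', hab⟩ := h3
      rw [← hab, add_dotProduct, hBω b hb']
      linarith [hle₁ a ha]
    · have h3 := hKle (x₁ + b0) (by rw [hK]; exact add_mem_add hx₁ hb0)
      rwa [add_dotProduct] at h3
  have hym : am ⬝ᵥ ω = x₂ ⬝ᵥ ω + b0 ⬝ᵥ ω := by
    apply le_antisymm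
    · have h3 := hKge (x₂ + b0) (by rw [hK]; exact add_mem_add hx₂ hb0)
      rwa [add_dotProduct] at h3
    · have h3 := hsub am ham
      rw [hK] at h3
      obtain ⟨a, ha, b, hb', hab⟩ := h3
      rw [← hab, add_dotProduct, hBω b hb']
      linarith [hle₂ a ha]
  obtain ⟨G, ρ, c, D, γ, κ, s, hγ, hρ, hργ, hG, hGs, hGr⟩ := key hb hT ω hM₁ hM₂ hd₁ hd₂ hrel
    (yp := ap ⬝ᵥ ω) (ym := am ⬝ᵥ ω) hapm ⟨ap, hap, rfl⟩ hamm ⟨am, ham, rfl⟩
    (by rw [hyp, hym]; ring)
  obtain ⟨c1, hc1⟩ := exists_scale Lc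
  -- the transformed sets
  set A1 : Set (Vec k × Vec m) := (fun a => L a + (0, v0)) '' A with hA1
  set B1 : Set (Vec k) := ((LinearMap.fst ℝ (Vec k) (Vec m)) ∘ₗ L.toLinearMap) '' B with hB1
  set K1 : Set (Vec k × Vec m) := Lc '' K with hK1
  have hcontL : Continuous L := Lc.continuous
  have hA1c : Convex ℝ A1 := by
    have h3 : A1 = (fun y => y + ((0 : Vec k), v0)) '' (L '' A) := by
      rw [hA1, image_image]
    rw [h3]
    have h4 := (hAc.linear_image L.toLinearMap).translate ((0 : Vec k), v0)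
    convert h4 using 2
    ext y
    all_goals simp [add_comm]
  have hA1k : IsCompact A1 := hAk.image (hcontL.add continuous_const)
  have hB1b : Body B1 := by
    refine ⟨hBc.linear_image _, hBk.image ?_, ?_⟩
    · exact continuous_fst.comp hcontL
    · have hconv : Convex ℝ B1 := hBc.linear_image _
      rw [hconv.interior_nonempty_iff_affineSpan_eq_top]
      have hne1 : B1.Nonempty := ⟨_, mem_image_of_mem _ hb0⟩
      rw [AffineSubspace.affineSpan_eq_top_iff_vectorSpan_eq_top_of_nonempty _ _ _ hne1]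
      have h3 := AffineMap.map_vectorSpan
        (f := ((LinearMap.fst ℝ (Vec k) (Vec m)) ∘ₗ L.toLinearMap).toAffineMap) (s := B)
      have h4 : B1 = ((LinearMap.fst ℝ (Vec k) (Vec m)) ∘ₗ L.toLinearMap).toAffineMap '' B := by
        rw [hB1, LinearMap.coe_toAffineMap]
      rw [h4, ← h3, eq_top_iff]
      intro v _
      refine ⟨L.symm (v, 0), ?_, ?_⟩
      · apply hLW'
        rw [LinearEquiv.apply_symm_apply]
      · simp
  have hK1eq : K1 = {x | ∃ a ∈ A1, ∃ b ∈ B1, x = (a.1 + b, a.2)} := by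
    ext x
    constructor
    · rintro ⟨y, hy, rfl⟩
      rw [hK] at hy
      obtain ⟨a, ha, b, hb', rfl⟩ := hy
      refine ⟨_, mem_image_of_mem _ ha, _, mem_image_of_mem _ hb', ?_⟩
      rw [hLcL]
      ext1
      · simp
      · simp [hBL b hb']
    · rintro ⟨_, ⟨a, ha, rfl⟩, _, ⟨b, hb', rfl⟩, rfl⟩
      refine ⟨a + b, by rw [hK]; exact add_mem_add ha hb', ?_⟩
      rw [hLcL]
      ext1
      · simp
      · simp [hBL b hb']
  have hsnd : Prod.snd '' A1 = Prod.snd '' K1 := by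
    ext v
    constructor
    · rintro ⟨_, ⟨a, ha, rfl⟩, rfl⟩
      refine ⟨L (a + b0), ⟨a + b0, by rw [hK]; exact add_mem_add ha hb0, rfl⟩, ?_⟩
      simp [hv0]
    · rintro ⟨_, ⟨y, hy, rfl⟩, rfl⟩
      rw [hK] at hy
      obtain ⟨a, ha, b, hb', rfl⟩ := hy
      refine ⟨_, mem_image_of_mem _ ha, ?_⟩
      rw [hLcL]
      simp [hBL b hb']
  have hSS : Prod.snd '' A1 = convexHull ℝ
      ((R.coeff.support.image fun a => (L a).2 : Finset (Vec m)) : Set (Vec m)) := by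
    rw [hsnd, hK1, ← hNw]
    unfold Nw
    have h3 : Prod.snd '' (Lc '' (convexHull ℝ (R.coeff.support : Set (Vec n)))) =
        ((LinearMap.snd ℝ (Vec k) (Vec m)) ∘ₗ L.toLinearMap) ''
          (convexHull ℝ (R.coeff.support : Set (Vec n))) := by
      rw [image_image]
      rfl
    rw [h3, LinearMap.image_convexHull, Finset.coe_image]
    rfl
  have hint1 : (interior (Prod.snd '' A1)).Nonempty := by
    rw [hsnd]
    have hop : IsOpen (Prod.snd '' (Lc '' interior K)) :=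
      isOpenMap_snd _ (Lc.toHomeomorph.isOpenMap _ isOpen_interior)
    refine ⟨(Lc x0).2, ?_⟩
    refine interior_maximal (image_mono (image_mono interior_subset)) hop ?_
    exact mem_image_of_mem _ (mem_image_of_mem _ hx0)
  have hval : ∀ a : Vec n, (L a + ((0 : Vec k), v0)).2 ⬝ᵥ ω' = a ⬝ᵥ ω + b0 ⬝ᵥ ω := by
    intro a
    rw [Prod.snd_add, add_dotProduct, ← hω', hv0, ← hω']
  -- exponents
  have hlap : ∀ τ : ℝ, ∫ x in K1, Real.exp (τ * (x.2 ⬝ᵥ ω')) = c1 * lap K (τ • ω) := by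
    intro τ
    rw [hK1, hc1]
    unfold lap
    congr 1
    refine integral_congr_ae (Eventually.of_forall fun x => ?_)
    simp only
    rw [hLcL, ← hω', dotProduct_smul, smul_eq_mul]
  obtain ⟨hp, hpp, hpb⟩ := exists_lt_bound (G.coeff.support.erase (ap ⬝ᵥ ω)) (y := ap ⬝ᵥ ω)
    fun b hb' => by
      rw [Finset.mem_erase] at hb'
      exact lt_of_le_of_ne (hGs b hb'.2).2 hb'.1
  obtain ⟨hq, hqq, hqb⟩ := exists_lt_bound ((G.coeff.support.erase (am ⬝ᵥ ω)).image fun b => -b)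
    (y := -(am ⬝ᵥ ω)) fun b hb' => by
      rw [Finset.mem_image] at hb'
      obtain ⟨b', hb', rfl⟩ := hb'
      rw [Finset.mem_erase] at hb'
      exact neg_lt_neg (lt_of_le_of_ne (hGs b' hb'.2).1 (Ne.symm hb'.1))
  set δ := min ((ap ⬝ᵥ ω - hp) / 2) ((-(am ⬝ᵥ ω) - hq) / 2) with hδ
  have hδ0 : 0 < δ := lt_min (by linarith) (by linarith)
  have hδ1 : 2 * δ ≤ ap ⬝ᵥ ω - hp := by
    have := min_le_left ((ap ⬝ᵥ ω - hp) / 2) ((-(am ⬝ᵥ ω) - hq) / 2)
    linarith
  have hδ2 : 2 * δ ≤ -(am ⬝ᵥ ω) - hq := by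
    have := min_le_right ((ap ⬝ᵥ ω - hp) / 2) ((-(am ⬝ᵥ ω) - hq) / 2)
    linarith
  set p : Polynomial ℝ := Polynomial.C (c1 / γ) * Polynomial.X ^ c * G.coeff (ap ⬝ᵥ ω) with hpdef
  have hpρ : ∀ τ : ℝ, τ ≠ 0 → ρ.eval τ * (p.eval τ / τ ^ D) =
      c1 * (G.coeff (ap ⬝ᵥ ω)).eval τ := by
    intro τ hτ
    have h3 := hργ τ
    have hτD : τ ^ D ≠ 0 := pow_ne_zero _ hτ
    rw [hpdef, Polynomial.eval_mul, Polynomial.eval_mul, Polynomial.eval_C, Polynomial.eval_pow,
      Polynomial.eval_X]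
    field_simp
    linear_combination (c1 * (G.coeff (ap ⬝ᵥ ω)).eval τ) * h3
  have hGF : ∀ t : ℝ, ∑ b ∈ G.coeff.support, (G.coeff b).eval t * Real.exp (id b * t) =
      ρ.eval t * lap K (t • ω) := by
    intro t
    rw [← hG, ev1_apply]
    rfl
  have asp := asym G.coeff.support (fun b => G.coeff b) id (ap ⬝ᵥ ω)
    (fun h => Finsupp.notMem_support_iff.1 h) hρ (y := ap ⬝ᵥ ω) rfl hpb hδ0 hδ1
    (fun t => lap K (t • ω)) hGF c1 (fun t => p.eval t / t ^ D) (by
      filter_upwards [eventually_gt_atTop 0] with t ht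
      exact hpρ t ht.ne')
  have hρ' : ρ.comp (-Polynomial.X) ≠ 0 := by
    intro h1
    apply hρ
    refine Polynomial.funext fun t => ?_
    have h2 := congrArg (fun p : Polynomial ℝ => p.eval (-t)) h1
    simpa using h2
  have hev : ∀ (P : Polynomial ℝ) (t : ℝ), (P.comp (-Polynomial.X)).eval t = P.eval (-t) := by
    intro P t
    rw [Polynomial.eval_comp, Polynomial.eval_neg, Polynomial.eval_X]
  have asm := asym G.coeff.support (fun b => (G.coeff b).comp (-Polynomial.X)) (fun b => -b)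
    (am ⬝ᵥ ω) (fun h => by
      rw [Finsupp.notMem_support_iff.1 h, Polynomial.zero_comp]) hρ' (y := -(am ⬝ᵥ ω)) rfl
    (fun b hb' => hqb _ (Finset.mem_image_of_mem _ hb')) hδ0 hδ2
    (fun t => lap K ((-t) • ω)) (fun t => by
      rw [hev, ← hGF (-t)]
      refine Finset.sum_congr rfl fun b _ => ?_
      rw [hev]
      congr 2
      simp only [id]
      ring) c1 (fun t => κ * (-t) ^ s * (p.eval (-t) / (-t) ^ D)) (by
      filter_upwards [eventually_gt_atTop 0] with t ht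
      have ht' : -t ≠ 0 := by
        rw [neg_ne_zero]
        exact ht.ne'
      rw [hev, hev, hGr (-t) ht']
      linear_combination (κ * (-t) ^ s) * hpρ (-t) ht')
  have hfin := ana hA1c hA1k (R.coeff.support.image fun a => (L a).2) hSS hB1b ω'
    (x₁ := L x₁ + (0, v0)) (x₂ := L x₂ + (0, v0)) (mem_image_of_mem _ hx₁)
    (mem_image_of_mem _ hx₂) ?_ ?_ hint1 hK1eq p D κ s δ hδ0 ?_ ?_
  · intro a ha a' ha' haa
    have h3 := hfin _ (mem_image_of_mem _ ha) _ (mem_image_of_mem _ ha') (by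
      have h4 := hLW _ haa
      rw [map_sub, Prod.snd_sub, sub_eq_zero] at h4
      simp [h4])
    exact L.injective (add_right_cancel h3)
  · rintro _ ⟨a, ha, rfl⟩ hne
    rw [hval, hval]
    have : a ≠ x₁ := fun h => hne (by rw [h])
    linarith [h1 a ha this]
  · rintro _ ⟨a, ha, rfl⟩ hne
    rw [hval, hval]
    have : a ≠ x₂ := fun h => hne (by rw [h])
    linarith [h2 a ha this]
  · refine asp.congr_left fun τ => ?_
    rw [hlap, hval, ← hyp]
    ring_nf
  · have h3 := asm.comp_tendsto tendsto_neg_atBot_atTop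
    refine (h3.congr_left fun τ => ?_).congr_right fun τ => ?_
    · simp only [Function.comp_apply, neg_neg]
      rw [hlap, hval, ← hym]
      ring_nf
    · change Real.exp (-δ * -τ) = Real.exp (δ * τ)
      rw [neg_mul_neg]

end Pool.Agent.Covg
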