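import Pool.Agent.Work.MP_177351_gt.Lap
import Pool.Agent.Work.MP_177351_gt.Rotate
import Pool.Agent.Work.MP_177351_gt.Ufl
import Pool.Agent.Work.MP_177351_gt.Struct
import Pool.Agent.Work.MP_177351_gt.Facet
import Pool.Agent.Work.MP_177351_gt.Planar
import Pool.Agent.Work.MP_177351_gt.CaseI

/-!
# Factor pairs without split edges have complementary direction spaces
-/

set_option autoImplicit false

open MeasureTheory MvPolynomial Set Filter Topology
open scoped Pointwise Matrix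

namespace Pool.Agent.Covg

/-! ### basic facts about factor pairs -/

theorem FP.symm {n : ℕ} {K : Set (Vec n)} {P Q : EA n} (h : FP K P Q) : FP K Q P :=
  ⟨h.body, h.homQ, h.homP, by rw [mul_comm]; exact h.tr⟩

theorem NoSplit.symm {n : ℕ} {P Q : EA n} (h : NoSplit P Q) : NoSplit Q P := by
  intro ω hω
  rw [mul_comm] at hω
  exact (h ω hω).symm

theorem FP.mul_ne {n : ℕ} {K : Set (Vec n)} {P Q : EA n} (h : FP K P Q) : P * Q ≠ 0 := by
  obtain ⟨C, hT⟩ := h.tr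
  intro h0
  obtain ⟨z, hz⟩ : ∃ z, eval z C ≠ 0 := by
    by_contra hcon
    push Not at hcon
    exact hT.ne (MvPolynomial.funext fun x => by rw [hcon x, map_zero])
  have h1 := hT.eq z
  rw [h0, map_zero] at h1
  exact (mul_ne_zero hz (lap_pos h.body z).ne') h1.symm

theorem FP.ne_left {n : ℕ} {K : Set (Vec n)} {P Q : EA n} (h : FP K P Q) : P ≠ 0 :=
  left_ne_zero_of_mul h.mul_ne

theorem FP.ne_right {n : ℕ} {K : Set (Vec n)} {P Q : EA n} (h : FP K P Q) : Q ≠ 0 :=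
  right_ne_zero_of_mul h.mul_ne

theorem FP.nw {n : ℕ} {K : Set (Vec n)} {P Q : EA n} (h : FP K P Q) : Nw (P * Q) = K := by
  obtain ⟨C, hT⟩ := h.tr
  exact Nw_eq h.body hT

theorem FP.nw_add {n : ℕ} {K : Set (Vec n)} {P Q : EA n} (h : FP K P Q) : Nw P + Nw Q = K := by
  rw [← Nw_mul h.ne_left h.ne_right, h.nw]

theorem FP.vs_top {n : ℕ} {K : Set (Vec n)} {P Q : EA n} (h : FP K P Q) : vs (P * Q) = ⊤ := by
  rw [vs_eq, h.nw]
  have h1 := (h.body.conv.interior_nonempty_iff_affineSpan_eq_top).1 h.body.int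
  rwa [AffineSubspace.affineSpan_eq_top_iff_vectorSpan_eq_top_of_nonempty ℝ _ _
    (h.body.int.mono interior_subset)] at h1

theorem mono_iff_vs {n : ℕ} {P : EA n} : Mono P ↔ vs P = ⊥ :=
  (vectorSpan_eq_bot_iff_subsingleton ℝ).symm

theorem mono_iff_nw {n : ℕ} {P : EA n} : Mono P ↔ (Nw P).Subsingleton := by
  rw [mono_iff_vs, vs_eq, vectorSpan_eq_bot_iff_subsingleton]

/-- A functional vanishing on the direction space is constant on the Newton polytope. -/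
theorem Tn.const_of_perp {n : ℕ} {P : EA n} {ω : Vec n} (h : ∀ w ∈ vs P, w ⬝ᵥ ω = 0)
    {a b : Vec n} (ha : a ∈ Nw P) (hb : b ∈ Nw P) : a ⬝ᵥ ω = b ⬝ᵥ ω := by
  have h1 : a - b ∈ vs P := by
    rw [vs_eq]
    exact vsub_mem_vectorSpan ℝ ha hb
  have h2 := h _ h1
  rw [sub_dotProduct] at h2
  linarith

/-- A functional constant on the Newton polytope vanishes on the direction space. -/
theorem Tn.perp_of_const {n : ℕ} {P : EA n} {ω : Vec n} {c : ℝ}
    (h : ∀ a ∈ Nw P, a ⬝ᵥ ω = c) : ∀ w ∈ vs P, w ⬝ᵥ ω = 0 := by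
  intro w hw
  rw [vs_eq] at hw
  exact Rot.vectorSpan_le_ker (f := Rot.dfun ω) h hw

theorem Tn.lead_of_perp {n : ℕ} {P : EA n} {ω : Vec n} (h : ∀ w ∈ vs P, w ⬝ᵥ ω = 0) :
    lead ω P = P := by
  classical
  refine AddMonoidAlgebra.coeff_injective (Finsupp.ext fun a => ?_)
  by_cases ha : a ∈ P.coeff.support
  · have h1 : a ∈ (lead ω P).coeff.support :=
      mem_support_lead.2 ⟨ha, fun b hb =>
        (Tn.const_of_perp h (subset_Nw P hb) (subset_Nw P ha)).le⟩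
    exact coeff_lead ω P h1
  · have h1 : a ∉ (lead ω P).coeff.support := fun h2 => ha (mem_support_lead.1 h2).1
    rw [Finsupp.notMem_support_iff.1 ha, Finsupp.notMem_support_iff.1 h1]

/-- The leading part has constant height. -/
theorem Tn.lead_perp {n : ℕ} (ν : Vec n) (P : EA n) : ∀ w ∈ vs (lead ν P), w ⬝ᵥ ν = 0 := by
  intro w hw
  by_cases hP : P = 0
  · rw [hP, lead_zero, mono_iff_vs.1 (by simp [Mono])] at hw
    rw [(Submodule.mem_bot ℝ).1 hw, zero_dotProduct]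
  obtain ⟨a, ha⟩ := Nw_nonempty (lead_ne_zero ν hP)
  refine Tn.perp_of_const (c := a ⬝ᵥ ν) (fun b hb => ?_) w hw
  rw [Nw_lead] at ha hb
  exact le_antisymm (ha.2 b hb.1) (hb.2 a ha.1)

/-- If `p + q` is maximal on `Nw P + Nw Q`, then `p` is maximal on `Nw P`. -/
theorem Tn.max_left {n : ℕ} {A B : Set (Vec n)} {ω p q : Vec n} (hq : q ∈ B)
    (h : ∀ y ∈ A + B, y ⬝ᵥ ω ≤ (p + q) ⬝ᵥ ω) : ∀ y ∈ A, y ⬝ᵥ ω ≤ p ⬝ᵥ ω := by
  intro y hy
  have h1 := h (y + q) (Set.add_mem_add hy hq)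
  rw [add_dotProduct, add_dotProduct] at h1
  linarith

/-! ### descent to a facet -/

theorem Tn.vectorSpan_aff {n m : ℕ} (j : Vec n →ₗ[ℝ] Vec m) (p : Vec m) (T : Set (Vec n)) :
    vectorSpan ℝ ((fun x => p + j x) '' T) = (vectorSpan ℝ T).map j := by
  let f : Vec n →ᵃ[ℝ] Vec m := AffineMap.const ℝ (Vec n) p + j.toAffineMap
  have h1 : (fun x => p + j x) = f := by
    funext x
    simp [f]
  rw [h1, ← AffineMap.map_vectorSpan]
  congr 1
  ext x
  simp [f]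

theorem Tn.nw_face {n m : ℕ} {P : EA m} {P' : EA n} {ν ω'' : Vec m} {ω' : Vec n}
    {j : Vec n →ₗ[ℝ] Vec m} {p : Vec m} (hj : ∀ x, j x ⬝ᵥ ω'' = x ⬝ᵥ ω')
    (hP : Nw (lead ν P) = (fun x => p + j x) '' Nw P') :
    Nw (lead ω'' (lead ν P)) = (fun x => p + j x) '' Nw (lead ω' P') := by
  rw [Nw_lead, Nw_lead ω' P', hP]
  ext y
  constructor
  · rintro ⟨⟨x, hx, rfl⟩, hy⟩
    refine ⟨x, ⟨hx, fun z hz => ?_⟩, rfl⟩
    have h1 := hy _ (mem_image_of_mem _ hz)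
    simp only [add_dotProduct, hj] at h1
    linarith
  · rintro ⟨x, ⟨hx, hy⟩, rfl⟩
    refine ⟨mem_image_of_mem _ hx, ?_⟩
    rintro _ ⟨z, hz, rfl⟩
    have h1 := hy z hz
    simp only [add_dotProduct, hj]
    linarith

theorem Tn.descend {n : ℕ} {K : Set (Vec (n + 1))} {P Q : EA (n + 1)} (h : FP K P Q)
    (hs : NoSplit P Q) {ν : Vec (n + 1)} (hν : ν ≠ 0)
    (hdim : Module.finrank ℝ (vs (lead ν (P * Q))) = n)
    (IH : ∀ {K' : Set (Vec n)} {P' Q' : EA n}, FP K' P' Q' → NoSplit P' Q' →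
      Disjoint (vs P') (vs Q')) : Disjoint (vs (lead ν P)) (vs (lead ν Q)) := by
  obtain ⟨K', P', Q', j, p, q, hFP, hj, hP, hQ⟩ := facet_descent h hν hdim
  have hns : NoSplit P' Q' := by
    intro ω' hω'
    obtain ⟨g, hg⟩ := LinearMap.exists_leftInverse_of_injective j (LinearMap.ker_eq_bot.2 hj)
    obtain ⟨ω'', hω''⟩ := Rot.exists_rep ((Rot.dfun ω').comp g)
    have hjω : ∀ x, j x ⬝ᵥ ω'' = x ⬝ᵥ ω' := by
      intro x
      rw [← hω'', LinearMap.comp_apply, Rot.dfun_apply, ← LinearMap.comp_apply, hg]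
      rfl
    obtain ⟨s₁, hs₁⟩ := lead_lead ν ω'' P
    obtain ⟨s₂, hs₂⟩ := lead_lead ν ω'' Q
    have e1 := hs₁ (max s₁ s₂) (le_max_left _ _)
    have e2 := hs₂ (max s₁ s₂) (le_max_right _ _)
    have hP2 := Tn.nw_face hjω hP
    have hQ2 := Tn.nw_face hjω hQ
    have h1 : vs (lead ((max s₁ s₂) • ν + ω'') (P * Q)) = (vs (lead ω' (P' * Q'))).map j := by
      rw [lead_mul, e1, e2, vs_mul (lead_ne_zero _ (lead_ne_zero _ h.ne_left))
        (lead_ne_zero _ (lead_ne_zero _ h.ne_right)), vs_eq, vs_eq (lead ω'' (lead ν Q)), hP2, hQ2,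
        Tn.vectorSpan_aff, Tn.vectorSpan_aff, ← Submodule.map_sup, ← vs_eq, ← vs_eq, lead_mul,
        vs_mul (lead_ne_zero _ hFP.ne_left) (lead_ne_zero _ hFP.ne_right)]
    have h2 : Module.finrank ℝ (vs (lead ((max s₁ s₂) • ν + ω'') (P * Q))) = 1 := by
      rw [h1, ← (Submodule.equivMapOfInjective j hj _).finrank_eq, hω']
    rcases hs _ h2 with h3 | h3
    · left
      rw [e1, mono_iff_nw, hP2] at h3
      rw [mono_iff_nw]
      intro x hx y hy
      have h4 := h3 (mem_image_of_mem _ hx) (mem_image_of_mem _ hy)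
      exact hj (add_left_cancel h4)
    · right
      rw [e2, mono_iff_nw, hQ2] at h3
      rw [mono_iff_nw]
      intro x hx y hy
      have h4 := h3 (mem_image_of_mem _ hx) (mem_image_of_mem _ hy)
      exact hj (add_left_cancel h4)
  have h5 := IH hFP hns
  rw [vs_eq, vs_eq (lead ν Q), hP, hQ, Tn.vectorSpan_aff, Tn.vectorSpan_aff, ← vs_eq, ← vs_eq,
    disjoint_iff, ← Submodule.map_inf _ hj, disjoint_iff.1 h5, Submodule.map_bot]

/-! ### one factor is not full-dimensional -/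

theorem Tn.exists_generic {n : ℕ} (W : Submodule ℝ (Vec n)) (S : Finset (Vec n)) :
    ∃ ω : Vec n, (∀ w ∈ W, w ⬝ᵥ ω = 0) ∧
      ∀ v ∈ S, ∀ v' ∈ S, v ⬝ᵥ ω = v' ⬝ᵥ ω → v - v' ∈ W := by
  classical
  let F : Finset (Vec n) := ((S ×ˢ S).image fun x => x.1 - x.2).filter fun x => x ∉ W
  obtain ⟨f, hf⟩ := Module.exists_dual_forall_apply_ne_zero (K := ℝ)
    (fun v : F => W.mkQ (v : Vec n)) (fun v => by
      intro h0
      have h1 := (Finset.mem_filter.1 v.2).2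
      rw [Submodule.mkQ_apply, Submodule.Quotient.mk_eq_zero] at h0
      exact h1 h0)
  obtain ⟨ω, hω⟩ := Rot.exists_rep ((f : (Vec n ⧸ W) →ₗ[ℝ] ℝ).comp W.mkQ)
  refine ⟨ω, fun w hw => ?_, fun v hv v' hv' he => ?_⟩
  · rw [← hω, LinearMap.comp_apply, Submodule.mkQ_apply, (Submodule.Quotient.mk_eq_zero W).2 hw,
      map_zero]
  · by_contra hcon
    have h1 : v - v' ∈ F := Finset.mem_filter.2 ⟨Finset.mem_image.2
      ⟨(v, v'), Finset.mem_product.2 ⟨hv, hv'⟩, rfl⟩, hcon⟩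
    have h2 := hf ⟨v - v', h1⟩
    apply h2
    change ((f : (Vec n ⧸ W) →ₗ[ℝ] ℝ).comp W.mkQ) (v - v') = 0
    rw [hω, sub_dotProduct, he, sub_self]

theorem Tn.support_face {n : ℕ} (ν : Vec n) (P : EA n) :
    (lead ν P).coeff.support = face ν P.coeff.support := by
  ext a
  rw [mem_support_lead, Rot.mem_face]

theorem Tn.mono_top {n : ℕ} {K : Set (Vec (n + 1))} {P Q : EA (n + 1)} (h : FP K P Q)
    (hs : NoSplit P Q)
    (IH : ∀ {K' : Set (Vec n)} {P' Q' : EA n}, FP K' P' Q' → NoSplit P' Q' →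
      Disjoint (vs P') (vs Q'))
    {ω : Vec (n + 1)} (hω0 : ω ≠ 0) (hω : ∀ w ∈ vs Q, w ⬝ᵥ ω = 0)
    (hgen : ∀ v ∈ P.coeff.support, ∀ v' ∈ P.coeff.support, v ⬝ᵥ ω = v' ⬝ᵥ ω → v - v' ∈ vs Q) :
    Mono (lead ω P) := by
  obtain ⟨ν, hν, hface, hdim⟩ := rotate (S := (P * Q).coeff.support) h.vs_top hω0
  have hdim' : Module.finrank ℝ (vs (lead ν (P * Q))) = n := by
    rw [vs, Tn.support_face]
    exact Nat.add_right_cancel hdim
  have hsub : Nw (lead ω (P * Q)) ⊆ Nw (lead ν (P * Q)) := by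
    unfold Nw
    rw [Tn.support_face, Tn.support_face]
    exact convexHull_mono (by exact_mod_cast hface)
  have hQω : lead ω Q = Q := Tn.lead_of_perp hω
  have hadd : Nw (lead ω P) + Nw Q = Nw (lead ω (P * Q)) := by
    rw [lead_mul, hQω, Nw_mul (lead_ne_zero _ h.ne_left) h.ne_right]
  have hPν : Nw (lead ω P) ⊆ Nw (lead ν P) := by
    intro p hp
    obtain ⟨q, hq⟩ := Nw_nonempty h.ne_right
    have h1 : p + q ∈ Nw (lead ν (P * Q)) := hsub (hadd ▸ Set.add_mem_add hp hq)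
    rw [Nw_lead] at h1 hp ⊢
    refine ⟨hp.1, Tn.max_left hq ?_⟩
    rw [← Nw_mul h.ne_left h.ne_right]
    exact h1.2
  have hQν : ∀ w ∈ vs Q, w ⬝ᵥ ν = 0 := by
    obtain ⟨p, hp⟩ := Nw_nonempty (lead_ne_zero ω h.ne_left)
    obtain ⟨r, hr⟩ := Nw_nonempty (lead_ne_zero ν h.mul_ne)
    refine Tn.perp_of_const (c := r ⬝ᵥ ν - p ⬝ᵥ ν) fun q hq => ?_
    have h1 : p + q ∈ Nw (lead ν (P * Q)) := hsub (hadd ▸ Set.add_mem_add hp hq)
    have h2 := Tn.const_of_perp (Tn.lead_perp ν (P * Q)) h1 hr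
    rw [add_dotProduct] at h2
    linarith
  have hdisj := Tn.descend h hs hν hdim' IH
  rw [Tn.lead_of_perp hQν] at hdisj
  intro a ha b hb
  have ha' := subset_Nw _ ha
  have hb' := subset_Nw _ hb
  have h1 : a - b ∈ vs (lead ν P) := by
    rw [vs_eq]
    exact vsub_mem_vectorSpan ℝ (hPν ha') (hPν hb')
  have h2 : a - b ∈ vs Q :=
    hgen a (mem_support_lead.1 ha).1 b (mem_support_lead.1 hb).1
      (Tn.const_of_perp (Tn.lead_perp ω P) ha' hb')
  exact sub_eq_zero.1 (Submodule.disjoint_def.1 hdisj _ h1 h2)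

/-- A nonzero `P` with monomial leading part. -/
theorem Tn.lead_single {n : ℕ} {P : EA n} {ω : Vec n} (hP : P ≠ 0) (hm : Mono (lead ω P)) :
    ∃ a ∈ Nw P, P.coeff a ≠ 0 ∧ lead ω P = AddMonoidAlgebra.single a (P.coeff a) ∧
      ∀ x ∈ Nw P, x ≠ a → x ⬝ᵥ ω < a ⬝ᵥ ω := by
  classical
  obtain ⟨a, ha⟩ := ne_zero_iff_support.1 (lead_ne_zero ω hP)
  have ha' := subset_Nw _ ha
  have haP := (mem_support_lead.1 ha).1
  refine ⟨a, subset_Nw _ haP, Finsupp.mem_support_iff.1 haP, ?_, fun x hx hne => ?_⟩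
  · refine AddMonoidAlgebra.coeff_injective (Finsupp.ext fun b => ?_)
    rw [AddMonoidAlgebra.coeff_single, Finsupp.single_apply]
    split_ifs with hab
    · rw [← hab, coeff_lead ω P ha]
    · by_contra hb
      exact hab (hm ha (Finsupp.mem_support_iff.2 hb))
  · by_contra hcon
    rw [not_lt] at hcon
    have h1 : x ∈ Nw (lead ω P) := by
      rw [Nw_lead] at ha' ⊢
      exact ⟨hx, fun y hy => (ha'.2 y hy).trans hcon⟩
    exact hne (mono_iff_nw.1 hm h1 ha')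

theorem Tn.caseII {n : ℕ} {K : Set (Vec (n + 1))} {P Q : EA (n + 1)} (h : FP K P Q)
    (hs : NoSplit P Q)
    (IH : ∀ {K' : Set (Vec n)} {P' Q' : EA n}, FP K' P' Q' → NoSplit P' Q' →
      Disjoint (vs P') (vs Q'))
    (hQ : vs Q ≠ ⊤) (hQm : ¬ Mono Q) : Disjoint (vs P) (vs Q) := by
  obtain ⟨ω, hω, hgen⟩ := Tn.exists_generic (vs Q) P.coeff.support
  have hω0 : ω ≠ 0 := by
    rintro rfl
    apply hQ
    have h1 : vs P ≤ vs Q := by
      conv_lhs => rw [vs, vectorSpan_def]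
      rw [Submodule.span_le]
      rintro _ ⟨a, ha, b, hb, rfl⟩
      exact hgen a ha b hb (by simp)
    rw [← h.vs_top, vs_mul h.ne_left h.ne_right, sup_eq_right.2 h1]
  have hm1 := Tn.mono_top h hs IH hω0 hω hgen
  have hm2 := Tn.mono_top h hs IH (neg_ne_zero.2 hω0)
    (fun w hw => by rw [dotProduct_neg, hω w hw, neg_zero])
    (fun v hv v' hv' he => hgen v hv v' hv' (by
      rw [dotProduct_neg, dotProduct_neg, neg_inj] at he
      exact he))
  obtain ⟨a₁, ha₁, hM₁, hl₁, hmax₁⟩ := Tn.lead_single h.ne_left hm1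
  obtain ⟨a₂, ha₂, hM₂, hl₂, hmax₂⟩ := Tn.lead_single h.ne_left hm2
  obtain ⟨C, hT⟩ := h.tr
  obtain ⟨d, hd⟩ := h.homP
  have key := ufl h.body hT (convex_Nw P) (isCompact_Nw P) (convex_Nw Q) (isCompact_Nw Q)
    (by rw [← vs_eq]; exact fun h0 => hQm (mono_iff_vs.2 h0)) h.nw_add.symm
    (ω := ω) (by rw [← vs_eq]; exact hω) ha₁ ha₂ hmax₁
    (fun x hx hne => by
      have h1 := hmax₂ x hx hne
      rw [dotProduct_neg, dotProduct_neg] at h1
      linarith) hM₁ hM₂ (hd a₁) (hd a₂)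
    (by
      rw [lead_mul, lead_mul, hl₁, hl₂, Tn.lead_of_perp hω, Tn.lead_of_perp (ω := -ω)
        (fun w hw => by rw [dotProduct_neg, hω w hw, neg_zero]), mul_left_comm])
  rw [Submodule.disjoint_def]
  intro w hwP hwQ
  obtain ⟨f, hf, hf'⟩ := Pool.MP_177351_gt.exists_relInt (convex_Nw P) (Nw_nonempty h.ne_left)
  obtain ⟨e, he, he'⟩ := hf' w (by rw [← vs_eq]; exact hwP)
  have h1 := key (f + e • w) (he' e (by rw [abs_of_pos he])) f hf (by
    rw [← vs_eq, add_sub_cancel_left]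
    exact Submodule.smul_mem _ _ hwQ)
  have h2 : e • w = 0 := by
    rwa [add_eq_left] at h1
  exact (smul_eq_zero.1 h2).resolve_left he.ne'

/-! ### both factors are full-dimensional -/

theorem Tn.finrank_ker {n : ℕ} {ν : Vec (n + 1)} (hν : ν ≠ 0) :
    Module.finrank ℝ (LinearMap.ker (Rot.dfun ν)) = n := by
  have h1 := LinearMap.finrank_range_add_finrank_ker (Rot.dfun ν)
  have h2 : LinearMap.range (Rot.dfun ν) = ⊤ :=
    LinearMap.range_eq_top.2 (LinearMap.surjective (Rot.dfun_ne hν))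
  rw [h2, finrank_top, Module.finrank_self, Module.finrank_fin_fun] at h1
  omega

theorem Tn.mom_of_top {n : ℕ} {K : Set (Vec (n + 1))} {P Q : EA (n + 1)} (h : FP K P Q)
    (hs : NoSplit P Q)
    (IH : ∀ {K' : Set (Vec n)} {P' Q' : EA n}, FP K' P' Q' → NoSplit P' Q' →
      Disjoint (vs P') (vs Q'))
    (hP : vs P = ⊤) : mom 0 Q ≠ 0 ∨ mom 1 Q ≠ 0 := by
  obtain ⟨ν, hν, -, hdim⟩ := rotate (S := P.coeff.support) hP
    (ω := (Pi.single 0 1 : Vec (n + 1))) (by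
      intro h0
      have := congrFun h0 0
      simp at this)
  have hdimP : Module.finrank ℝ (vs (lead ν P)) = n := by
    rw [vs, Tn.support_face]
    exact Nat.add_right_cancel hdim
  have hle : ∀ R : EA (n + 1), vs (lead ν R) ≤ LinearMap.ker (Rot.dfun ν) := fun R w hw => by
    rw [LinearMap.mem_ker, Rot.dfun_apply]
    exact Tn.lead_perp ν R w hw
  have hPker : vs (lead ν P) = LinearMap.ker (Rot.dfun ν) :=
    Submodule.eq_of_le_of_finrank_eq (hle P) (by rw [hdimP, Tn.finrank_ker hν])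
  have hmul : vs (lead ν (P * Q)) = LinearMap.ker (Rot.dfun ν) := by
    refine le_antisymm (hle _) ?_
    rw [lead_mul, vs_mul (lead_ne_zero _ h.ne_left) (lead_ne_zero _ h.ne_right), hPker]
    exact le_sup_left
  have hdim' : Module.finrank ℝ (vs (lead ν (P * Q))) = n := by rw [hmul, Tn.finrank_ker hν]
  have hdisj := Tn.descend h hs hν hdim' IH
  have hQ : vs (lead ν Q) = ⊥ := by
    rw [hPker] at hdisj
    exact (disjoint_iff.1 (hdisj.mono_left (hle Q))).symm ▸ (inf_idem _).symm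
  exact caseI h hν hdim' (mono_iff_vs.2 hQ)

theorem Tn.least_mom {n : ℕ} {Q : EA n} (h : mom 0 Q ≠ 0 ∨ mom 1 Q ≠ 0) :
    ∃ q ≤ 1, (∀ i < q, mom i Q = 0) ∧ mom q Q ≠ 0 := by
  by_cases h0 : mom 0 Q = 0
  · refine ⟨1, le_rfl, fun i hi => ?_, h.resolve_left (fun h1 => h1 h0)⟩
    obtain rfl : i = 0 := by omega
    exact h0
  · exact ⟨0, zero_le_one, fun i hi => absurd hi (Nat.not_lt_zero i), h0⟩

theorem Tn.step {n : ℕ} (hn : 2 ≤ n) {K : Set (Vec (n + 1))} {P Q : EA (n + 1)} (h : FP K P Q)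
    (hs : NoSplit P Q)
    (IH : ∀ {K' : Set (Vec n)} {P' Q' : EA n}, FP K' P' Q' → NoSplit P' Q' →
      Disjoint (vs P') (vs Q'))
    (hPm : ¬ Mono P) (hQm : ¬ Mono Q) : Disjoint (vs P) (vs Q) := by
  by_cases hQ : vs Q = ⊤
  · by_cases hP : vs P = ⊤
    · exfalso
      obtain ⟨q, hq1, hq2, hq3⟩ := Tn.least_mom (Tn.mom_of_top h hs IH hP)
      obtain ⟨p, hp1, hp2, hp3⟩ := Tn.least_mom (Tn.mom_of_top h.symm hs.symm IH hQ)
      have := mom_add h hp2 hp3 hq2 hq3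
      omega
    · exact (Tn.caseII h.symm hs.symm IH hP hPm).symm
  · exact Tn.caseII h hs IH hQ hQm

/-! ### the plane -/

theorem Tn.dual {d d' : Vec 2} (h : LinearIndependent ℝ ![d, d']) :
    ∃ ν ν' : Vec 2, d ⬝ᵥ ν = 1 ∧ d' ⬝ᵥ ν = 0 ∧ d ⬝ᵥ ν' = 0 ∧ d' ⬝ᵥ ν' = 1 ∧
      ∀ w : Vec 2, w ⬝ᵥ ν = 0 → w ⬝ᵥ ν' = 0 → w = 0 := by
  let b := basisOfLinearIndependentOfCardEqFinrank h (by simp)
  have hb0 : b 0 = d := by simp [b]
  have hb1 : b 1 = d' := by simp [b]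
  obtain ⟨ν, hν⟩ := Rot.exists_rep (b.coord 0)
  obtain ⟨ν', hν'⟩ := Rot.exists_rep (b.coord 1)
  refine ⟨ν, ν', ?_, ?_, ?_, ?_, fun w h1 h2 => ?_⟩
  · rw [← hν, ← hb0]; simp
  · rw [← hν, ← hb1]; simp
  · rw [← hν', ← hb0]; simp
  · rw [← hν', ← hb1]; simp
  · rw [← hν] at h1
    rw [← hν'] at h2
    refine b.ext_elem fun i => ?_
    fin_cases i
    · simpa using h1
    · simpa using h2

theorem Tn.planar_mono {K : Set (Vec 2)} {P Q : EA 2} (h : FP K P Q) {v d d' ν ν' : Vec 2}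
    (h1 : d ⬝ᵥ ν = 1) (h2 : d' ⬝ᵥ ν = 0) (h3 : d ⬝ᵥ ν' = 0) (h4 : d' ⬝ᵥ ν' = 1)
    (hK : K = {x | ∃ s ∈ Icc (0 : ℝ) 1, ∃ r ∈ Icc (0 : ℝ) 1, x = v + s • d + r • d'})
    (hm : Mono (lead (-ν') P)) : ∀ w ∈ vs P, w ⬝ᵥ ν = 0 := by
  have hv : v ∈ K := by
    rw [hK]
    exact ⟨0, by simp, 0, by simp, by simp⟩
  have hvd : v + d ∈ K := by
    rw [hK]
    exact ⟨1, by simp, 0, by simp, by simp⟩
  have hadd := h.nw_add
  obtain ⟨p, hp, q, hq, hpq⟩ := (hadd ▸ hv : v ∈ Nw P + Nw Q)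
  obtain ⟨p', hp', q', hq', hpq'⟩ := (hadd ▸ hvd : v + d ∈ Nw P + Nw Q)
  simp only at hpq hpq'
  have e1 : p ∈ Nw (lead (-ν') P) := by
    rw [Nw_lead]
    refine ⟨hp, Tn.max_left hq ?_⟩
    rw [hadd, hpq, hK]
    rintro _ ⟨s, hs, r, hr, rfl⟩
    simp only [dotProduct_neg, add_dotProduct, smul_dotProduct, h3, h4, smul_eq_mul]
    linarith [hr.1]
  have e2 : p' ∈ Nw (lead (-ν') P) := by
    rw [Nw_lead]
    refine ⟨hp', Tn.max_left hq' ?_⟩
    rw [hadd, hpq', hK]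
    rintro _ ⟨s, hs, r, hr, rfl⟩
    simp only [dotProduct_neg, add_dotProduct, smul_dotProduct, h3, h4, smul_eq_mul]
    linarith [hr.1]
  have e3 : p = p' := mono_iff_nw.1 hm e1 e2
  have e4 : ∀ y ∈ Nw P, y ⬝ᵥ (-ν) ≤ p ⬝ᵥ (-ν) := by
    refine Tn.max_left hq ?_
    rw [hadd, hpq, hK]
    rintro _ ⟨s, hs, r, hr, rfl⟩
    simp only [dotProduct_neg, add_dotProduct, smul_dotProduct, h1, h2, smul_eq_mul]
    linarith [hs.1]
  have e5 : ∀ y ∈ Nw P, y ⬝ᵥ ν ≤ p' ⬝ᵥ ν := by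
    refine Tn.max_left hq' ?_
    rw [hadd, hpq', hK]
    rintro _ ⟨s, hs, r, hr, rfl⟩
    simp only [add_dotProduct, smul_dotProduct, h1, h2, smul_eq_mul]
    linarith [hs.2]
  refine Tn.perp_of_const (c := p ⬝ᵥ ν) fun y hy => le_antisymm ?_ ?_
  · rw [e3]
    exact e5 y hy
  · have := e4 y hy
    rw [dotProduct_neg, dotProduct_neg] at this
    linarith

theorem Tn.planar_side {K : Set (Vec 2)} {P Q : EA 2} (h : FP K P Q) (hs : NoSplit P Q)
    {v d d' ν ν' : Vec 2} (h1 : d ⬝ᵥ ν = 1) (h2 : d' ⬝ᵥ ν = 0) (h3 : d ⬝ᵥ ν' = 0)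
    (h4 : d' ⬝ᵥ ν' = 1)
    (hK : K = {x | ∃ s ∈ Icc (0 : ℝ) 1, ∃ r ∈ Icc (0 : ℝ) 1, x = v + s • d + r • d'}) :
    (∀ w ∈ vs P, w ⬝ᵥ ν = 0) ∨ (∀ w ∈ vs Q, w ⬝ᵥ ν = 0) := by
  have hd0 : d ≠ 0 := by
    rintro rfl
    simp at h1
  have hseg : Nw (lead (-ν') (P * Q)) = (fun x => v + (LinearMap.toSpanSingleton ℝ (Vec 2) d) x) ''
      Icc (0 : ℝ) 1 := by
    rw [Nw_lead, h.nw, hK]
    ext x
    constructor
    · rintro ⟨⟨s, hs, r, hr, rfl⟩, hx⟩
      refine ⟨s, hs, ?_⟩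
      have h5 := hx v ⟨0, by simp, 0, by simp, by simp⟩
      simp only [dotProduct_neg, add_dotProduct, smul_dotProduct, h3, h4, smul_eq_mul] at h5
      have h6 : r = 0 := le_antisymm (by linarith) hr.1
      simp [h6]
    · rintro ⟨s, hs, rfl⟩
      refine ⟨⟨s, hs, 0, by simp, by simp⟩, ?_⟩
      rintro _ ⟨s', hs', r', hr', rfl⟩
      simp only [dotProduct_neg, add_dotProduct, smul_dotProduct, h3, h4, smul_eq_mul,
        LinearMap.toSpanSingleton_apply]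
      linarith [hr'.1]
  have hdim : Module.finrank ℝ (vs (lead (-ν') (P * Q))) = 1 := by
    have h5 : vs (lead (-ν') (P * Q)) = Submodule.span ℝ {d} := by
      rw [vs_eq, hseg]
      apply le_antisymm
      · rw [vectorSpan_def, Submodule.span_le]
        rintro _ ⟨_, ⟨s, -, rfl⟩, _, ⟨r, -, rfl⟩, rfl⟩
        rw [SetLike.mem_coe, Submodule.mem_span_singleton]
        refine ⟨s - r, ?_⟩
        simp only [LinearMap.toSpanSingleton_apply, vsub_eq_sub, sub_smul]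
        abel
      · rw [Submodule.span_singleton_le_iff_mem]
        have h6 := vsub_mem_vectorSpan ℝ
          (mem_image_of_mem (fun x => v + (LinearMap.toSpanSingleton ℝ (Vec 2) d) x)
            (show (1 : ℝ) ∈ Icc (0 : ℝ) 1 by simp))
          (mem_image_of_mem (fun x => v + (LinearMap.toSpanSingleton ℝ (Vec 2) d) x)
            (show (0 : ℝ) ∈ Icc (0 : ℝ) 1 by simp))
        simpa using h6
    rw [h5, finrank_span_singleton hd0]
  rcases hs _ hdim with hm | hm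
  · exact Or.inl (Tn.planar_mono h h1 h2 h3 h4 hK hm)
  · exact Or.inr (Tn.planar_mono h.symm h1 h2 h3 h4 hK hm)

theorem Tn.planar {K : Set (Vec 2)} {P Q : EA 2} (h : FP K P Q) (hs : NoSplit P Q)
    (hPm : ¬ Mono P) (hQm : ¬ Mono Q) : Disjoint (vs P) (vs Q) := by
  obtain ⟨v, d, d', hdd, hK⟩ := Covg.planar h hPm hQm
  obtain ⟨ν, ν', h1, h2, h3, h4, hw⟩ := Tn.dual hdd
  have hK' : K = {x | ∃ s ∈ Icc (0 : ℝ) 1, ∃ r ∈ Icc (0 : ℝ) 1, x = v + s • d' + r • d} := by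
    rw [hK]
    ext x
    constructor
    · rintro ⟨s, hs, r, hr, rfl⟩
      exact ⟨r, hr, s, hs, by abel⟩
    · rintro ⟨s, hs, r, hr, rfl⟩
      exact ⟨r, hr, s, hs, by abel⟩
  have k1 := Tn.planar_side h hs h1 h2 h3 h4 hK
  have k2 := Tn.planar_side h hs h4 h3 h2 h1 hK'
  rw [Submodule.disjoint_def]
  intro w hwP hwQ
  exact hw w (k1.elim (fun k => k w hwP) fun k => k w hwQ)
    (k2.elim (fun k => k w hwP) fun k => k w hwQ)

/-! ### the theorem -/

theorem tn {n : ℕ} (hn : 1 ≤ n) {K : Set (Vec n)} {P Q : EA n} (h : FP K P Q)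
    (hs : NoSplit P Q) : Disjoint (vs P) (vs Q) := by
  induction n with
  | zero => omega
  | succ n ih =>
    by_cases hPm : Mono P
    · rw [mono_iff_vs.1 hPm]
      exact disjoint_bot_left
    by_cases hQm : Mono Q
    · rw [mono_iff_vs.1 hQm]
      exact disjoint_bot_right
    rcases Nat.lt_or_ge n 2 with hn2 | hn2
    · interval_cases n
      · -- dimension one
        exfalso
        have h0 : ∀ R : EA 1, lead 0 R = R := fun R =>
          Tn.lead_of_perp fun w _ => by simp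
        have h1 := hs 0 (by rw [h0, h.vs_top, finrank_top, Module.finrank_fin_fun])
        rw [h0, h0] at h1
        exact h1.elim hPm hQm
      · exact Tn.planar h hs hPm hQm
    · exact Tn.step hn2 h hs (fun h' hs' => ih (by omega) h' hs') hPm hQm

end Pool.Agent.Covg
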