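import Pool.Agent.Work.MP_177351_gt.Prism
import Pool.Agent.Work.MP_177351_gt.Tn
import Pool.Agent.Work.MP_177351_gt.Final
import Pool.Agent.Work.MP_177351_gt.Measure

/-!
# The assembly: directly indecomposable polytopes are determined by their covariogram
-/

set_option autoImplicit false

open MeasureTheory MvPolynomial Set Filter Topology
open scoped Pointwise Matrix

namespace Pool.Agent.Covg

/-! ### Step 1: direct sums -/

section direct

variable {V : Type*} [AddCommGroup V] [Module ℝ V]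

/-- the direction space of a convex set consists of multiples of differences -/
theorem asm_mem_vectorSpan {A : Set V} (hA : Convex ℝ A) (hne : A.Nonempty) {w : V}
    (hw : w ∈ vectorSpan ℝ A) : ∃ c : ℝ, 0 ≤ c ∧ ∃ a ∈ A, ∃ a' ∈ A, w = c • (a - a') := by
  rw [vectorSpan_def] at hw
  induction hw using Submodule.span_induction with
  | mem x hx =>
    obtain ⟨a, ha, a', ha', rfl⟩ := hx
    exact ⟨1, zero_le_one, a, ha, a', ha', by simp⟩
  | zero =>
    obtain ⟨a, ha⟩ := hne
    exact ⟨0, le_rfl, a, ha, a, ha, by simp⟩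
  | add x y _ _ hx hy =>
    obtain ⟨c, hc, a, ha, a', ha', rfl⟩ := hx
    obtain ⟨d, hd, b, hb, b', hb', rfl⟩ := hy
    rcases (add_nonneg hc hd).eq_or_lt with h0 | h0
    · have hc0 : c = 0 := by linarith
      have hd0 : d = 0 := by linarith
      exact ⟨0, le_rfl, a, ha, a, ha, by simp [hc0, hd0]⟩
    · refine ⟨c + d, h0.le, (c / (c + d)) • a + (d / (c + d)) • b,
        hA ha hb (by positivity) (by positivity) (by field_simp),
        (c / (c + d)) • a' + (d / (c + d)) • b',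
        hA ha' hb' (by positivity) (by positivity) (by field_simp), ?_⟩
      have e1 : (c + d) * (c / (c + d)) = c := by field_simp
      have e2 : (c + d) * (d / (c + d)) = d := by field_simp
      have : (c + d) • ((c / (c + d)) • a + (d / (c + d)) • b -
          ((c / (c + d)) • a' + (d / (c + d)) • b')) =
          ((c + d) * (c / (c + d))) • (a - a') + ((c + d) * (d / (c + d))) • (b - b') := by
        module
      rw [this, e1, e2]
  | smul r x _ hx =>
    obtain ⟨c, hc, a, ha, a', ha', rfl⟩ := hx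
    rcases le_total 0 r with hr | hr
    · exact ⟨r * c, mul_nonneg hr hc, a, ha, a', ha', by rw [smul_smul]⟩
    · refine ⟨-(r * c), by nlinarith, a', ha', a, ha, ?_⟩
      module

theorem asm_disjoint {A B : Set V} (hA : Convex ℝ A) (hne : A.Nonempty)
    (h : ∀ a ∈ A, ∀ a' ∈ A, a - a' ∈ vectorSpan ℝ B → a = a') :
    Disjoint (vectorSpan ℝ A) (vectorSpan ℝ B) := by
  rw [Submodule.disjoint_def]
  intro w hw hwB
  obtain ⟨c, hc, a, ha, a', ha', rfl⟩ := asm_mem_vectorSpan hA hne hw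
  rcases hc.eq_or_lt with h0 | h0
  · rw [← h0, zero_smul]
  · have h1 : a - a' ∈ vectorSpan ℝ B := by
      have := (vectorSpan ℝ B).smul_mem c⁻¹ hwB
      rwa [smul_smul, inv_mul_cancel₀ h0.ne', one_smul] at this
    rw [h a ha a' ha' h1, sub_self, smul_zero]

end direct

theorem asm_vectorSpan_top {n : ℕ} {K : Set (Vec n)} (hi : (interior K).Nonempty) :
    vectorSpan ℝ K = ⊤ := by
  rw [← direction_affineSpan, affineSpan_eq_top_of_nonempty_interior
    (hi.mono (interior_mono (subset_convexHull ℝ K))), AffineSubspace.direction_top]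

theorem asm_vectorSpan_add {n : ℕ} {A B : Set (Vec n)} :
    vectorSpan ℝ (A + B) ≤ vectorSpan ℝ A ⊔ vectorSpan ℝ B := by
  rw [vectorSpan_def, Submodule.span_le]
  rintro _ ⟨x, ⟨a, ha, b, hb, rfl⟩, y, ⟨a', ha', b', hb', rfl⟩, rfl⟩
  have : (a + b) -ᵥ (a' + b') = (a -ᵥ a') + (b -ᵥ b') := by
    simp only [vsub_eq_sub]; abel
  show (a + b) -ᵥ (a' + b') ∈ _
  rw [this]
  exact add_mem (Submodule.mem_sup_left (vsub_mem_vectorSpan ℝ ha ha'))
    (Submodule.mem_sup_right (vsub_mem_vectorSpan ℝ hb hb'))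

/-- Step 1: a Minkowski sum with point fibres is a direct sum. -/
theorem asm_direct {n : ℕ} {A B K : Set (Vec n)} (hA : Convex ℝ A) (hAc : IsCompact A)
    (hB : Convex ℝ B) (hBc : IsCompact B) (hK : K = A + B) (hi : (interior K).Nonempty)
    (h : ∀ a ∈ A, ∀ a' ∈ A, a - a' ∈ vectorSpan ℝ B → a = a') :
    ∃ (E₁ E₂ : Submodule ℝ (Vec n)) (L M : Set (Vec n)) (u v : Vec n), IsCompl E₁ E₂ ∧
      L ⊆ E₁ ∧ M ⊆ E₂ ∧ Convex ℝ L ∧ IsCompact L ∧ Convex ℝ M ∧ IsCompact M ∧
      L = (fun x => x + u) '' A ∧ M = (fun x => x + v) '' B ∧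
      K = {z | ∃ x ∈ L, ∃ y ∈ M, x + y = z} := by
  obtain ⟨z, hz⟩ : K.Nonempty := hi.mono interior_subset
  rw [hK] at hz
  obtain ⟨a₀, ha₀, b₀, hb₀, -⟩ := hz
  have hd := asm_disjoint hA ⟨a₀, ha₀⟩ h
  have ht : vectorSpan ℝ A ⊔ vectorSpan ℝ B = ⊤ := by
    rw [eq_top_iff, ← asm_vectorSpan_top hi, hK]
    exact asm_vectorSpan_add
  have hcompl : IsCompl (vectorSpan ℝ A) (vectorSpan ℝ B) := ⟨hd, codisjoint_iff.2 ht⟩
  have hz0 : a₀ + b₀ ∈ vectorSpan ℝ A ⊔ vectorSpan ℝ B := by rw [ht]; trivial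
  obtain ⟨u, hu, v, hv, huv⟩ := Submodule.mem_sup.1 hz0
  refine ⟨vectorSpan ℝ A, vectorSpan ℝ B, (fun x => x + (u - a₀)) '' A,
    (fun x => x + (v - b₀)) '' B, u - a₀, v - b₀, hcompl, ?_, ?_, ?_, ?_, ?_, ?_, rfl, rfl, ?_⟩
  · rintro _ ⟨a, ha, rfl⟩
    have h1 := add_mem (vsub_mem_vectorSpan ℝ ha ha₀) hu
    have h2 : a -ᵥ a₀ + u = a + (u - a₀) := by rw [vsub_eq_sub]; abel
    rw [h2] at h1
    exact h1
  · rintro _ ⟨b, hb, rfl⟩
    have h1 := add_mem (vsub_mem_vectorSpan ℝ hb hb₀) hv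
    have h2 : b -ᵥ b₀ + v = b + (v - b₀) := by rw [vsub_eq_sub]; abel
    rw [h2] at h1
    exact h1
  · have h1 : (fun x : Vec n => x + (u - a₀)) = fun x => (u - a₀) + x := by
      ext1 x; exact add_comm _ _
    rw [h1]
    exact hA.translate (u - a₀)
  · exact hAc.image (continuous_id.add continuous_const)
  · have h1 : (fun x : Vec n => x + (v - b₀)) = fun x => (v - b₀) + x := by
      ext1 x; exact add_comm _ _
    rw [h1]
    exact hB.translate (v - b₀)
  · exact hBc.image (continuous_id.add continuous_const)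
  · have huv' : u - a₀ + (v - b₀) = 0 := by
      have : u - a₀ + (v - b₀) = (u + v) - (a₀ + b₀) := by abel
      rw [this, huv, sub_self]
    rw [hK]
    ext z
    constructor
    · rintro ⟨a, ha, b, hb, rfl⟩
      refine ⟨_, ⟨a, ha, rfl⟩, _, ⟨b, hb, rfl⟩, ?_⟩
      have : a + (u - a₀) + (b + (v - b₀)) = a + b + (u - a₀ + (v - b₀)) := by abel
      show a + (u - a₀) + (b + (v - b₀)) = a + b
      rw [this, huv', add_zero]
    · rintro ⟨_, ⟨a, ha, rfl⟩, _, ⟨b, hb, rfl⟩, rfl⟩
      refine ⟨a, ha, b, hb, ?_⟩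
      have : a + (u - a₀) + (b + (v - b₀)) = a + b + (u - a₀ + (v - b₀)) := by abel
      show a + b = a + (u - a₀) + (b + (v - b₀))
      rw [this, huv', add_zero]

/-- direct indecomposability in `Vec n` -/
def asm_DI {n : ℕ} (K : Set (Vec n)) : Prop :=
  ∀ (E₁ E₂ : Submodule ℝ (Vec n)) (L M : Set (Vec n)),
    IsCompl E₁ E₂ → L ⊆ E₁ → M ⊆ E₂ → Convex ℝ L → IsCompact L → Convex ℝ M → IsCompact M →
      K = {z | ∃ x ∈ L, ∃ y ∈ M, x + y = z} → (∃ x, L = {x}) ∨ (∃ y, M = {y})

theorem asm_direct' {n : ℕ} {A B K : Set (Vec n)} (hDI : asm_DI K) (hA : Convex ℝ A)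
    (hAc : IsCompact A) (hB : Convex ℝ B) (hBc : IsCompact B) (hK : K = A + B)
    (hi : (interior K).Nonempty)
    (h : ∀ a ∈ A, ∀ a' ∈ A, a - a' ∈ vectorSpan ℝ B → a = a') :
    A.Subsingleton ∨ B.Subsingleton := by
  obtain ⟨E₁, E₂, L, M, u, v, h1, h2, h3, h4, h5, h6, h7, h8, h9, h10⟩ :=
    asm_direct hA hAc hB hBc hK hi h
  rcases hDI E₁ E₂ L M h1 h2 h3 h4 h5 h6 h7 h10 with ⟨x, hx⟩ | ⟨y, hy⟩
  · left
    intro a ha a' ha'
    have e1 : a + u ∈ L := by rw [h8]; exact ⟨a, ha, rfl⟩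
    have e2 : a' + u ∈ L := by rw [h8]; exact ⟨a', ha', rfl⟩
    rw [hx, mem_singleton_iff] at e1 e2
    exact add_right_cancel (e1.trans e2.symm)
  · right
    intro a ha a' ha'
    have e1 : a + v ∈ M := by rw [h9]; exact ⟨a, ha, rfl⟩
    have e2 : a' + v ∈ M := by rw [h9]; exact ⟨a', ha', rfl⟩
    rw [hy, mem_singleton_iff] at e1 e2
    exact add_right_cancel (e1.trans e2.symm)

/-! ### Step 2: irreducibility -/

theorem asm_ne_zero {n : ℕ} {K : Set (Vec n)} {P Q : EA n} (h : FP K P Q) : P * Q ≠ 0 := by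
  intro h0
  obtain ⟨C, hC⟩ := h.tr
  apply hC.ne
  apply MvPolynomial.funext
  intro z
  have h1 := hC.eq z
  rw [h0, map_zero] at h1
  have h2 := lap_pos h.body z
  rcases mul_eq_zero.1 h1.symm with h3 | h3
  · rw [h3, map_zero]
  · exact absurd h3 h2.ne'

theorem asm_vectorSpan_Nw {n : ℕ} (P : EA n) : vectorSpan ℝ (Nw P) = vs P := by
  rw [Nw, vs, ← direction_affineSpan, ← direction_affineSpan, affineSpan_convexHull]

theorem asm_mono_of_Nw {n : ℕ} {P : EA n} (h : (Nw P).Subsingleton) : Mono P :=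
  h.anti (subset_convexHull ℝ _)

theorem asm_vectorSpan_segment {n : ℕ} (e : Vec n) :
    vectorSpan ℝ (segment ℝ 0 e) ≤ Submodule.span ℝ {e} := by
  rw [vectorSpan_def, Submodule.span_le]
  rintro _ ⟨x, hx, y, hy, rfl⟩
  rw [segment_eq_image'] at hx hy
  obtain ⟨s, -, rfl⟩ := hx
  obtain ⟨t, -, rfl⟩ := hy
  simp only [sub_zero, zero_add, vsub_eq_sub]
  exact sub_mem (Submodule.smul_mem _ _ (Submodule.mem_span_singleton_self e))
    (Submodule.smul_mem _ _ (Submodule.mem_span_singleton_self e))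

theorem asm_irr {n : ℕ} (hn : 2 ≤ n) {K : Set (Vec n)} (hDI : asm_DI K) :
    ∀ P Q, FP K P Q → Mono P ∨ Mono Q := by
  intro P Q h
  by_contra hcon
  push Not at hcon
  obtain ⟨hP, hQ⟩ := hcon
  have hi := h.body.int
  have hne := asm_ne_zero h
  have hP0 : P ≠ 0 := left_ne_zero_of_mul hne
  have hQ0 : Q ≠ 0 := right_ne_zero_of_mul hne
  by_cases hs : NoSplit P Q
  · have hd := tn (by omega) h hs
    obtain ⟨C, hC⟩ := h.tr
    have hK : K = Nw P + Nw Q := by
      rw [← Nw_mul hP0 hQ0]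
      exact (Nw_eq h.body hC).symm
    have hfin : ∀ R : EA n, IsCompact (Nw R) := fun R =>
      (Finset.finite_toSet _).isCompact_convexHull ℝ
    rcases asm_direct' (A := Nw P) (B := Nw Q) hDI (convex_convexHull ℝ _) (hfin P)
      (convex_convexHull ℝ _) (hfin Q) hK hi
      (fun a ha a' ha' hm => by
        rw [asm_vectorSpan_Nw] at hm
        have h1 : a - a' ∈ vs P := by
          rw [← asm_vectorSpan_Nw]
          exact vsub_mem_vectorSpan ℝ ha ha'
        exact sub_eq_zero.1 (Submodule.disjoint_def.1 hd _ h1 hm)) with h1 | h1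
    · exact hP (asm_mono_of_Nw h1)
    · exact hQ (asm_mono_of_Nw h1)
  · unfold NoSplit at hs
    push Not at hs
    obtain ⟨ω, hω, hP', hQ'⟩ := hs
    obtain ⟨e, A, he, hAc, hAk, hK, hfib⟩ := prism hn h hω hP' hQ'
    have hsc : IsCompact (segment ℝ (0 : Vec n) e) := by
      rw [segment_eq_image']
      exact isCompact_Icc.image (by fun_prop)
    rcases asm_direct' hDI hAc hAk (convex_segment _ _) hsc hK hi
      (fun a ha a' ha' hm => hfib a ha a' ha' (asm_vectorSpan_segment e hm)) with h1 | h1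
    · have h2 : vectorSpan ℝ K ≤ Submodule.span ℝ {e} := by
        rw [hK]
        refine asm_vectorSpan_add.trans (sup_le ?_ (asm_vectorSpan_segment e))
        rw [vectorSpan_def, Submodule.span_le]
        rintro _ ⟨x, hx, y, hy, rfl⟩
        rw [h1 hx hy]
        simp
      rw [asm_vectorSpan_top hi] at h2
      have h3 : Module.finrank ℝ (⊤ : Submodule ℝ (Vec n)) ≤
          Module.finrank ℝ (Submodule.span ℝ {e}) := Submodule.finrank_mono h2
      rw [finrank_top, Module.finrank_fin_fun, finrank_span_singleton he] at h3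
      omega
    · exact he (h1 (right_mem_segment ℝ 0 e) (left_mem_segment ℝ 0 e))

/-! ### Step 3: bodies with the difference body of a polytope are polytopes -/

theorem asm_polytope_of_diff {n : ℕ} {H : Set (Vec n)} (S : Finset (Vec n)) (hH : Convex ℝ H)
    (hne : H.Nonempty)
    (hd : H - H = convexHull ℝ (S : Set (Vec n)) - convexHull ℝ (S : Set (Vec n))) :
    ∃ SH : Finset (Vec n), H = convexHull ℝ (SH : Set (Vec n)) := by
  classical
  rw [← convexHull_sub, ← Finset.coe_sub] at hd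
  have hmem : ∀ d ∈ S - S, ∃ p : Vec n × Vec n, p.1 ∈ H ∧ p.2 ∈ H ∧ d = p.1 - p.2 := by
    intro d hdS
    have h1 : d ∈ H - H := by
      rw [hd]
      exact subset_convexHull ℝ _ (Finset.mem_coe.2 hdS)
    obtain ⟨x, hx, y, hy, rfl⟩ := h1
    exact ⟨(x, y), hx, hy, rfl⟩
  choose! p hp1 hp2 hp3 using hmem
  refine ⟨(S - S).image fun d => (p d).1, ?_⟩
  apply Subset.antisymm
  · intro h hh
    by_contra hc
    have hcl : IsClosed (convexHull ℝ (((S - S).image fun d => (p d).1 : Finset (Vec n)) :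
        Set (Vec n))) := ((Finset.finite_toSet _).isCompact_convexHull ℝ).isClosed
    obtain ⟨f, u, hfu, huh⟩ := geometric_hahn_banach_closed_point (convex_convexHull ℝ _) hcl hc
    have hSne : (S - S).Nonempty := by
      by_contra hemp
      rw [Finset.not_nonempty_iff_eq_empty] at hemp
      obtain ⟨x, hx⟩ := hne
      have : x - x ∈ H - H := ⟨x, hx, x, hx, rfl⟩
      rw [hd, hemp] at this
      simp at this
    obtain ⟨d₀, hd₀, hmax⟩ := Finset.exists_max_image (S - S) (fun d => f d) hSne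
    have h1 : ∀ d ∈ H - H, f d ≤ f d₀ := by
      intro d hdd
      rw [hd] at hdd
      have hconv : Convex ℝ {d : Vec n | f d ≤ f d₀} :=
        convex_halfSpace_le (f : Vec n →ₗ[ℝ] ℝ).isLinear (f d₀)
      exact convexHull_min (fun d hd => hmax d (Finset.mem_coe.1 hd)) hconv hdd
    have h2 := h1 (h - (p d₀).2) ⟨h, hh, _, hp2 d₀ hd₀, rfl⟩
    have h4 : f d₀ = f (p d₀).1 - f (p d₀).2 := by
      rw [← map_sub, ← hp3 d₀ hd₀]
    rw [map_sub, h4] at h2
    have h3 : f (p d₀).1 < u := hfu _ (subset_convexHull ℝ _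
      (Finset.mem_coe.2 (Finset.mem_image_of_mem _ hd₀)))
    linarith
  · apply convexHull_min _ hH
    intro x hx
    rw [Finset.mem_coe, Finset.mem_image] at hx
    obtain ⟨d, hdS, rfl⟩ := hx
    exact hp1 d hdS

/-! ### Step 4: the theorem in `Vec n` -/

theorem asm_main {n : ℕ} (hn : 2 ≤ n) (S : Finset (Vec n))
    (hi : (interior (convexHull ℝ (S : Set (Vec n)))).Nonempty)
    (hDI : asm_DI (convexHull ℝ (S : Set (Vec n)))) {H : Set (Vec n)} (hH : Convex ℝ H)
    (hHc : IsCompact H)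
    (hcov : ∀ x, volume (H ∩ ((fun y => y + x) '' H)) =
      volume (convexHull ℝ (S : Set (Vec n)) ∩
        ((fun y => y + x) '' convexHull ℝ (S : Set (Vec n))))) :
    ∃ y, H = (fun x => x + y) '' convexHull ℝ (S : Set (Vec n)) ∨
      H = (fun x => -x + y) '' convexHull ℝ (S : Set (Vec n)) := by
  set K := convexHull ℝ (S : Set (Vec n)) with hKdef
  have hK : Body K := ⟨convex_convexHull ℝ _, (Finset.finite_toSet _).isCompact_convexHull ℝ, hi⟩
  have hvol : volume H = volume K := by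
    have := hcov 0
    simpa using this
  have hKpos : 0 < volume K :=
    (isOpen_interior.measure_pos volume hi).trans_le (measure_mono interior_subset)
  have hiH : (interior H).Nonempty :=
    Pool.MP_177351_gt.interior_of_measure_pos volume hH (by rw [hvol]; exact hKpos.ne')
  have hHb : Body H := ⟨hH, hHc, hiH⟩
  have hdiff : H - H = K - K := by
    ext x
    rw [← Pool.MP_177351_gt.diff_eq, ← Pool.MP_177351_gt.diff_eq]
    exact ⟨Pool.MP_177351_gt.diff_of_cov volume hH hiH hK.comp (fun x => (hcov x).symm) x,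
      Pool.MP_177351_gt.diff_of_cov volume hK.conv hi hHc hcov x⟩
  obtain ⟨SH, hSH⟩ := asm_polytope_of_diff S hH (hiH.mono interior_subset) hdiff
  have hlap : ∀ z, lap K z * lap K (-z) = lap H z * lap H (-z) := by
    intro z
    rw [lap_cov hK.comp, lap_cov hHc]
    congr 1
    ext x
    rw [hcov x]
  exact final S SH hK hHb rfl hSH (by omega) hlap (asm_irr hn hDI)

end Pool.Agent.Covg
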