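import Pool.Agent.Work.MP_177351_gt.Asm

/-!
# Transfer of the main theorem to `EuclideanSpace`
-/

set_option autoImplicit false

open Set MeasureTheory Module
open Pool.Agent.Covg (Vec asm_DI asm_main)

namespace Pool.Agent.Covg.Transfer

/-- the identification of the two models of `ℝ^n` -/
noncomputable def eqv (n : ℕ) : EuclideanSpace ℝ (Fin n) ≃L[ℝ] Vec n := EuclideanSpace.equiv (Fin n) ℝ

theorem vol_image {n : ℕ} (s : Set (EuclideanSpace ℝ (Fin n))) :
    volume (eqv n '' s) = volume s := by
  have h := ((EuclideanSpace.volume_preserving_symm_measurableEquiv_toLp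
    (Fin n)).symm).measure_preimage_equiv s
  rw [← h]
  congr 1
  ext x
  constructor
  · rintro ⟨y, hy, rfl⟩
    exact hy
  · intro hx
    exact ⟨_, hx, rfl⟩

theorem cov_image {n : ℕ} (K : Set (EuclideanSpace ℝ (Fin n))) (x : EuclideanSpace ℝ (Fin n)) :
    volume ((eqv n '' K) ∩ ((fun y => y + eqv n x) '' (eqv n '' K))) = volume (K ∩ ((fun y => y + x) '' K)) := by
  rw [← vol_image (K ∩ _)]
  congr 1
  rw [image_inter (eqv n).injective, image_image, image_image]
  simp only [map_add]

/-- A directly indecomposable polytope with interior points in `ℝ^n`, `n ≥ 2`, is determined by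
its covariogram among all convex bodies. -/
theorem main {n : ℕ} (hn : 2 ≤ n) (S : Finset (EuclideanSpace ℝ (Fin n)))
    (hi : (interior (convexHull ℝ (S : Set (EuclideanSpace ℝ (Fin n))))).Nonempty)
    (hDI : ∀ (E₁ E₂ : Submodule ℝ (EuclideanSpace ℝ (Fin n)))
      (L M : Set (EuclideanSpace ℝ (Fin n))),
      IsCompl E₁ E₂ → L ⊆ E₁ → M ⊆ E₂ → Convex ℝ L → IsCompact L → Convex ℝ M → IsCompact M →
      convexHull ℝ (S : Set (EuclideanSpace ℝ (Fin n))) = {z | ∃ x ∈ L, ∃ y ∈ M, x + y = z} →
        (∃ x, L = {x}) ∨ (∃ y, M = {y}))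
    {H : Set (EuclideanSpace ℝ (Fin n))} (hH : Convex ℝ H) (hHc : IsCompact H)
    (hcov : ∀ x, volume (H ∩ ((fun y => y + x) '' H)) =
      volume (convexHull ℝ (S : Set (EuclideanSpace ℝ (Fin n))) ∩
        ((fun y => y + x) '' convexHull ℝ (S : Set (EuclideanSpace ℝ (Fin n)))))) :
    ∃ y, H = (fun x => x + y) '' convexHull ℝ (S : Set (EuclideanSpace ℝ (Fin n))) ∨
      H = (fun x => -x + y) '' convexHull ℝ (S : Set (EuclideanSpace ℝ (Fin n))) := by
  classical
  set e := eqv n with he
  have hhull : convexHull ℝ ((S.image e : Finset (Vec n)) : Set (Vec n)) =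
      e '' convexHull ℝ (S : Set (EuclideanSpace ℝ (Fin n))) := by
    rw [Finset.coe_image]
    exact ((e : EuclideanSpace ℝ (Fin n) →ₗ[ℝ] Vec n).image_convexHull _).symm
  have hi' : (interior (convexHull ℝ ((S.image e : Finset (Vec n)) : Set (Vec n)))).Nonempty := by
    rw [hhull]
    have h1 := e.toHomeomorph.image_interior (convexHull ℝ (S : Set (EuclideanSpace ℝ (Fin n))))
    have h2 := hi.image e
    have h3 : e '' interior (convexHull ℝ (S : Set (EuclideanSpace ℝ (Fin n)))) =
      interior (e '' convexHull ℝ (S : Set (EuclideanSpace ℝ (Fin n)))) := h1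
    rwa [h3] at h2
  have hDI' : asm_DI (convexHull ℝ ((S.image e : Finset (Vec n)) : Set (Vec n))) := by
    intro E₁ E₂ L M hE hL hM hLc hLk hMc hMk hK
    rw [hhull] at hK
    have hcompl : IsCompl (E₁.comap (e : EuclideanSpace ℝ (Fin n) →ₗ[ℝ] Vec n))
        (E₂.comap (e : EuclideanSpace ℝ (Fin n) →ₗ[ℝ] Vec n)) := by
      have := (Submodule.orderIsoMapComap (e.toLinearEquiv)).symm.isCompl hE
      exact this
    have hpc : ∀ T : Set (Vec n), IsCompact T → IsCompact (e ⁻¹' T) := by
      intro T hT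
      have := hT.image e.symm.continuous
      rwa [e.symm.image_eq_preimage_symm] at this
    rcases hDI _ _ (e ⁻¹' L) (e ⁻¹' M) hcompl (fun x hx => hL hx) (fun x hx => hM hx)
      (hLc.linear_preimage (e : EuclideanSpace ℝ (Fin n) →ₗ[ℝ] Vec n)) (hpc L hLk)
      (hMc.linear_preimage (e : EuclideanSpace ℝ (Fin n) →ₗ[ℝ] Vec n)) (hpc M hMk) (by
        ext z
        constructor
        · intro hz
          have h1 : e z ∈ e '' convexHull ℝ (S : Set (EuclideanSpace ℝ (Fin n))) := ⟨z, hz, rfl⟩
          rw [hK] at h1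
          obtain ⟨x, hx, y, hy, hxy⟩ := h1
          refine ⟨e.symm x, by simpa using hx, e.symm y, by simpa using hy, ?_⟩
          rw [← map_add, hxy, e.symm_apply_apply]
        · rintro ⟨x, hx, y, hy, rfl⟩
          have h1 : e (x + y) ∈ {z | ∃ x ∈ L, ∃ y ∈ M, x + y = z} :=
            ⟨e x, hx, e y, hy, (map_add _ _ _).symm⟩
          rw [← hK] at h1
          obtain ⟨w, hw, hwe⟩ := h1
          rwa [← e.injective hwe]) with ⟨x, hx⟩ | ⟨x, hx⟩
    · left
      refine ⟨e x, ?_⟩
      have := congrArg (fun T => e '' T) hx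
      simpa [image_preimage_eq _ e.surjective] using this
    · right
      refine ⟨e x, ?_⟩
      have := congrArg (fun T => e '' T) hx
      simpa [image_preimage_eq _ e.surjective] using this
  have hcov' : ∀ x, volume ((e '' H) ∩ ((fun y => y + x) '' (e '' H))) =
      volume (convexHull ℝ ((S.image e : Finset (Vec n)) : Set (Vec n)) ∩
        ((fun y => y + x) '' convexHull ℝ ((S.image e : Finset (Vec n)) : Set (Vec n)))) := by
    intro x
    rw [hhull]
    have h1 := cov_image H (e.symm x)
    have h2 := cov_image (convexHull ℝ (S : Set (EuclideanSpace ℝ (Fin n)))) (e.symm x)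
    rw [← he, e.apply_symm_apply] at h1 h2
    rw [h1, h2, hcov]
  have hHconv : Convex ℝ (e '' H) :=
    hH.is_linear_image (e : EuclideanSpace ℝ (Fin n) →ₗ[ℝ] Vec n).isLinear
  obtain ⟨y, hy⟩ := asm_main hn (S.image e) hi' hDI' hHconv (hHc.image e.continuous) hcov'
  rw [hhull] at hy
  refine ⟨e.symm y, ?_⟩
  rcases hy with hy | hy
  · left
    apply e.injective.image_injective
    show e '' H = _
    rw [image_image] at hy ⊢
    rw [hy]
    simp only [map_add, e.apply_symm_apply]
  · right
    apply e.injective.image_injective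
    show e '' H = _
    rw [image_image] at hy ⊢
    rw [hy]
    simp only [map_add, map_neg, e.apply_symm_apply]

end Pool.Agent.Covg.Transfer
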