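import Mathlib

/-!
# Covariogram of polytopes: the ring of exponential polynomials, Laplace transforms, basic notions
-/

set_option autoImplicit false

open MeasureTheory MvPolynomial Set
open scoped Pointwise Matrix

namespace Pool.Agent.Covg

/-- The ambient space `ℝ^n`. -/
abbrev Vec (n : ℕ) := Fin n → ℝ

/-- Polynomials in the dual variable `z`. -/
abbrev Pol (n : ℕ) := MvPolynomial (Fin n) ℝ

/-- Formal exponential polynomials `∑ M_a(z) X^a`, `a ∈ ℝ^n`. -/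
abbrev EA (n : ℕ) := AddMonoidAlgebra (Pol n) (Vec n)

/-- The character `a ↦ exp (a ⬝ z)`. -/
noncomputable def chr {n : ℕ} (z : Vec n) : Multiplicative (Vec n) →* ℝ where
  toFun a := Real.exp (Multiplicative.toAdd a ⬝ᵥ z)
  map_one' := by simp
  map_mul' a b := by simp [add_dotProduct, Real.exp_add]

/-- Evaluation `∑ M_a(z) exp (a ⬝ z)`. -/
noncomputable def ev {n : ℕ} (z : Vec n) : EA n →+* ℝ :=
  AddMonoidAlgebra.liftNCRingHom (MvPolynomial.eval z) (chr z) (fun _ _ => Commute.all _ _)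

/-- The (two-sided) Laplace transform of the indicator of `K`. -/
noncomputable def lap {n : ℕ} (K : Set (Vec n)) (z : Vec n) : ℝ :=
  ∫ x in K, Real.exp (x ⬝ᵥ z)

/-- All coefficients are homogeneous of degree `d`. -/
def IsHom {n : ℕ} (d : ℕ) (P : EA n) : Prop := ∀ a, (P.coeff a).IsHomogeneous d

/-- Newton polytope. -/
def Nw {n : ℕ} (P : EA n) : Set (Vec n) := convexHull ℝ (P.coeff.support : Set (Vec n))

/-- The part of `P` on the exponents `a` with `f a = c`. -/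
noncomputable def part {R M : Type} [Semiring R] (f : M → ℝ) (c : ℝ)
    (P : AddMonoidAlgebra R M) : AddMonoidAlgebra R M :=
  AddMonoidAlgebra.ofCoeff (P.coeff.filter fun a => f a = c)

/-- The part of `P` on the exponents maximising the functional `ω`. -/
noncomputable def lead {n : ℕ} (ω : Vec n) (P : EA n) : EA n :=
  AddMonoidAlgebra.ofCoeff (P.coeff.filter fun a => ∀ b ∈ P.coeff.support, b ⬝ᵥ ω ≤ a ⬝ᵥ ω)

/-- The direction space of the Newton polytope. -/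
noncomputable def vs {n : ℕ} (P : EA n) : Submodule ℝ (Vec n) :=
  vectorSpan ℝ (P.coeff.support : Set (Vec n))

/-- `P` has at most one exponent. -/
def Mono {n : ℕ} (P : EA n) : Prop := (P.coeff.support : Set (Vec n)).Subsingleton

/-- A convex body with nonempty interior. -/
structure Body {n : ℕ} (K : Set (Vec n)) : Prop where
  conv : Convex ℝ K
  comp : IsCompact K
  int : (interior K).Nonempty

/-- `R` represents the Laplace transform of `K` up to a polynomial factor `C`. -/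
structure TrC {n : ℕ} (K : Set (Vec n)) (C : Pol n) (R : EA n) : Prop where
  ne : C ≠ 0
  hom : ∃ d : ℕ, C.IsHomogeneous (d + n) ∧ IsHom d R
  eq : ∀ z, ev z R = MvPolynomial.eval z C * lap K z

/-- A factor pair of the polytope `K`. -/
structure FP {n : ℕ} (K : Set (Vec n)) (P Q : EA n) : Prop where
  body : Body K
  homP : ∃ d, IsHom d P
  homQ : ∃ d, IsHom d Q
  tr : ∃ C, TrC K C (P * Q)

/-- No edge of `K` is a sum of nontrivial edges of the two Newton polytopes. -/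
def NoSplit {n : ℕ} (P Q : EA n) : Prop :=
  ∀ ω : Vec n, Module.finrank ℝ (vs (lead ω (P * Q))) = 1 → Mono (lead ω P) ∨ Mono (lead ω Q)

/-- The linear form `z ↦ a ⬝ z` as a polynomial. -/
noncomputable def lin {n : ℕ} (a : Vec n) : Pol n := ∑ i, MvPolynomial.C (a i) * MvPolynomial.X i

/-- The `i`-th moment of the coefficients. -/
noncomputable def mom {n : ℕ} (i : ℕ) (P : EA n) : Pol n :=
  P.coeff.sum fun a M => M * lin a ^ i

/-- Slice of `K` at first coordinate `t`. -/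
def slice {n : ℕ} (K : Set (Vec (n + 1))) (t : ℝ) : Set (Vec n) :=
  {x | (Fin.cons t x : Vec (n + 1)) ∈ K}

/-- Bounded H-polyhedron. -/
def HPoly {n : ℕ} (K : Set (Vec n)) : Prop :=
  Bornology.IsBounded K ∧ ∃ F : Finset (Vec n × ℝ), K = {x | ∀ p ∈ F, x ⬝ᵥ p.1 ≤ p.2}

/-- `f` is a finite sum of simple cone transforms with exponents in `S`. -/
def HasRep {n : ℕ} (f : Vec n → ℝ) (S : Set (Vec n)) : Prop :=
  ∃ (N : ℕ) (c : Fin N → ℝ) (v : Fin N → Vec n) (u : Fin N → Fin n → Vec n),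
    (∀ j, v j ∈ S) ∧ (∀ j, LinearIndependent ℝ (u j)) ∧
    ∀ z, (∀ j i, u j i ⬝ᵥ z ≠ 0) →
      f z = ∑ j, c j * Real.exp (v j ⬝ᵥ z) / ∏ i, (u j i ⬝ᵥ z)

/-- A polyhedron in `ℝ^{n+1}` given by upper, lower and vertical constraints. -/
def ULZ {n : ℕ} (U L Z : Finset (Vec n × ℝ)) : Set (Vec (n + 1)) :=
  {w | (∀ p ∈ U, w 0 ≤ Fin.tail w ⬝ᵥ p.1 + p.2) ∧ (∀ p ∈ L, Fin.tail w ⬝ᵥ p.1 + p.2 ≤ w 0) ∧
    ∀ p ∈ Z, 0 ≤ Fin.tail w ⬝ᵥ p.1 + p.2}

/-- The projection of the piece of `K` on the graph of `x ↦ x ⬝ a + c`. -/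
def piece {n : ℕ} (K : Set (Vec (n + 1))) (p : Vec n × ℝ) : Set (Vec n) :=
  {x | (Fin.cons (x ⬝ᵥ p.1 + p.2) x : Vec (n + 1)) ∈ K}


/-- substitution `p(z) ↦ p(z M)` -/
noncomputable def subst {n : ℕ} (M : Matrix (Fin n) (Fin n) ℝ) : Pol n →ₐ[ℝ] Pol n :=
  MvPolynomial.aeval fun i => lin fun j => M j i


/-- The face of a finite set. -/
noncomputable def face {n : ℕ} (ω : Vec n) (S : Finset (Vec n)) : Finset (Vec n) :=
  S.filter fun a => ∀ b ∈ S, b ⬝ᵥ ω ≤ a ⬝ᵥ ω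


/-- Evaluation of the coefficients at `ν`. -/
noncomputable def evAt (ν : Vec 2) : EA 2 →+* AddMonoidAlgebra ℝ (Vec 2) :=
  AddMonoidAlgebra.liftNCRingHom
    ((AddMonoidAlgebra.singleZeroRingHom).comp (MvPolynomial.eval ν))
    (AddMonoidAlgebra.of ℝ (Vec 2)) (fun _ _ => Commute.all _ _)

/-- rotation by a right angle -/
def rot (ν : Vec 2) : Vec 2 := ![-ν 1, ν 0]

/-- The face of a convex set. -/
def fc {n : ℕ} (K : Set (Vec n)) (ν : Vec n) : Set (Vec n) :=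
  {x ∈ K | ∀ y ∈ K, y ⬝ᵥ ν ≤ x ⬝ᵥ ν}

/-- The coefficients of `P` which survive at `ν` reach both extreme heights. -/
def FullH (ν : Vec 2) (P : EA 2) : Prop :=
  (∃ a ∈ (evAt ν P).coeff.support, ∀ b ∈ P.coeff.support, b ⬝ᵥ ν ≤ a ⬝ᵥ ν) ∧
  ∃ a ∈ (evAt ν P).coeff.support, ∀ b ∈ P.coeff.support, a ⬝ᵥ ν ≤ b ⬝ᵥ ν

/-- Everything the combinatorial part of the planar lemma needs. -/
structure PData (K : Set (Vec 2)) (P Q : EA 2) (dP dQ : ℕ) (D : Finset (Vec 2)) : Prop where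
  body : Body K
  neP : P ≠ 0
  neQ : Q ≠ 0
  sum : Nw P + Nw Q = K
  homP : IsHom dP P
  homQ : IsHom dQ Q
  card : dP + dQ + 2 = D.card
  ne : ∀ ν ∈ D, ν ≠ 0
  indep : ∀ ν ∈ D, ∀ μ ∈ D, ν ≠ μ → LinearIndependent ℝ ![ν, μ]
  edge : ∀ ν : Vec 2, ν ≠ 0 → ¬ (fc K ν).Subsingleton → ∃ μ ∈ D, ∃ c : ℝ, c ≠ 0 ∧ ν = c • μ
  full : ∀ ν ∈ D, FullH ν P ∨ FullH ν Q
  prod : ∀ ν ∈ D, ∃ (c l l' : ℝ) (p p' : Vec 2), c ≠ 0 ∧ 0 ≤ l ∧ 0 ≤ l' ∧ 0 < l + l' ∧
    fc K ν = segment ℝ p (p + l • rot ν) ∧ fc K (-ν) = segment ℝ p' (p' + l' • rot ν) ∧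
    evAt ν P * evAt ν Q = c • (AddMonoidAlgebra.single (p + l • rot ν) 1 -
      AddMonoidAlgebra.single p 1 - AddMonoidAlgebra.single (p' + l' • rot ν) 1 +
      AddMonoidAlgebra.single p' 1)


end Pool.Agent.Covg
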