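import Pool.Agent.Work.MP_177351_gt.Defs

/-!
# One-variable exponential polynomials
-/

set_option autoImplicit false

open MeasureTheory Set Filter Topology
open scoped Pointwise Matrix

namespace Pool.Agent.Covg

/-- One-variable exponential polynomials `∑ p_c(t) e^{ct}`. -/
abbrev E1 := AddMonoidAlgebra (Polynomial ℝ) ℝ

/-- The character `c ↦ exp (c t)`. -/
noncomputable def chr1 (t : ℝ) : Multiplicative ℝ →* ℝ where
  toFun a := Real.exp (Multiplicative.toAdd a * t)
  map_one' := by simp
  map_mul' a b := by simp [add_mul, Real.exp_add]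

/-- Evaluation at `t`. -/
noncomputable def ev1 (t : ℝ) : E1 →+* ℝ :=
  AddMonoidAlgebra.liftNCRingHom (Polynomial.evalRingHom t) (chr1 t) (fun _ _ => Commute.all _ _)

theorem ev1_single (t c : ℝ) (p : Polynomial ℝ) :
    ev1 t (AddMonoidAlgebra.single c p) = p.eval t * Real.exp (c * t) := by
  unfold ev1
  exact AddMonoidAlgebra.liftNC_single _ _ _ _

theorem ev1_apply (t : ℝ) (F : E1) :
    ev1 t F = ∑ c ∈ F.coeff.support, (F.coeff c).eval t * Real.exp (c * t) := by
  conv_lhs => rw [← AddMonoidAlgebra.sum_coeff_single F, Finsupp.sum, map_sum]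
  exact Finset.sum_congr rfl fun a _ => ev1_single t a _

/-- `p(t) e^{-δt} / t^d → 0` for `δ > 0`. -/
theorem tendsto_poly_exp (p : Polynomial ℝ) (d : ℕ) {δ : ℝ} (hδ : 0 < δ) :
    Tendsto (fun t : ℝ => p.eval t * Real.exp (-δ * t) / t ^ d) atTop (𝓝 0) := by
  have h1 : Tendsto (fun t : ℝ => p.eval t * Real.exp (-δ * t)) atTop (𝓝 0) := by
    have h2 : ∀ m : ℕ, Tendsto (fun t : ℝ => t ^ m * Real.exp (-δ * t)) atTop (𝓝 0) := by
      intro m
      have := (Real.tendsto_pow_mul_exp_neg_atTop_nhds_zero m).comp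
        (tendsto_id.const_mul_atTop hδ)
      have h3 := this.const_mul ((δ ^ m)⁻¹)
      rw [mul_zero] at h3
      refine h3.congr fun t => ?_
      simp only [Function.comp_apply, id]
      rw [mul_pow, ← mul_assoc, ← mul_assoc, inv_mul_cancel₀ (pow_ne_zero _ hδ.ne'), one_mul]
      congr 2
      ring
    have h4 : Tendsto (fun t : ℝ => ∑ i ∈ Finset.range (p.natDegree + 1),
        p.coeff i * (t ^ i * Real.exp (-δ * t))) atTop
        (𝓝 (∑ i ∈ Finset.range (p.natDegree + 1), p.coeff i * 0)) :=
      tendsto_finsetSum _ fun i _ => (h2 i).const_mul _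
    simp only [mul_zero, Finset.sum_const_zero] at h4
    refine h4.congr fun t => ?_
    rw [Polynomial.eval_eq_sum_range, Finset.sum_mul]
    exact Finset.sum_congr rfl fun i _ => by ring
  have h5 : ∀ᶠ t : ℝ in atTop, ‖p.eval t * Real.exp (-δ * t) / t ^ d‖ ≤
      ‖p.eval t * Real.exp (-δ * t)‖ := by
    filter_upwards [eventually_ge_atTop 1] with t ht
    rw [norm_div]
    refine div_le_self (norm_nonneg _) ?_
    rw [norm_pow, Real.norm_of_nonneg (by linarith)]
    exact one_le_pow₀ ht
  have h6 := h1.norm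
  rw [norm_zero] at h6
  exact squeeze_zero_norm' h5 h6

/-- Growth of an exponential polynomial with top exponent `c`. -/
theorem ev1_tendsto {F : E1} {c : ℝ} (hc : ∀ b ∈ F.coeff.support, b ≤ c) (d : ℕ)
    (hd : (F.coeff c).natDegree ≤ d) :
    Tendsto (fun t : ℝ => ev1 t F * Real.exp (-c * t) / t ^ d) atTop
      (𝓝 ((F.coeff c).coeff d)) := by
  classical
  have h1 : ∀ b ∈ F.coeff.support, Tendsto (fun t : ℝ =>
      (F.coeff b).eval t * Real.exp ((b - c) * t) / t ^ d) atTop
        (𝓝 (if b = c then (F.coeff c).coeff d else 0)) := by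
    intro b hb
    by_cases hbc : b = c
    · rw [if_pos hbc, hbc]
      simp only [sub_self, zero_mul, Real.exp_zero, mul_one]
      by_cases hd' : (F.coeff c).natDegree = d
      · by_cases h0 : F.coeff c = 0
        · rw [h0]; simp
        have := Polynomial.div_tendsto_leadingCoeff_div_of_degree_eq (F.coeff c)
          (Polynomial.X ^ d : Polynomial ℝ) (by
            rw [Polynomial.degree_X_pow, Polynomial.degree_eq_natDegree h0, hd'])
        simp only [Polynomial.eval_pow, Polynomial.eval_X, Polynomial.leadingCoeff_X_pow,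
          div_one] at this
        rwa [Polynomial.leadingCoeff, hd'] at this
      · have hlt : (F.coeff c).natDegree < d := lt_of_le_of_ne hd hd'
        rw [Polynomial.coeff_eq_zero_of_natDegree_lt hlt]
        have := Polynomial.div_tendsto_zero_of_degree_lt (F.coeff c)
          (Polynomial.X ^ d : Polynomial ℝ) (by
            rw [Polynomial.degree_X_pow]
            exact lt_of_le_of_lt Polynomial.degree_le_natDegree (by exact_mod_cast hlt))
        simpa using this
    · rw [if_neg hbc]
      have hlt : 0 < c - b := sub_pos.2 (lt_of_le_of_ne (hc b hb) hbc)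
      have := tendsto_poly_exp (F.coeff b) d hlt
      refine this.congr fun t => ?_
      congr 3
      ring
  have h2 := tendsto_finsetSum F.coeff.support h1
  rw [Finset.sum_ite_eq'] at h2
  have h3 : (if c ∈ F.coeff.support then (F.coeff c).coeff d else 0) = (F.coeff c).coeff d := by
    split_ifs with h
    · rfl
    · rw [Finsupp.notMem_support_iff.1 h]; simp
  rw [h3] at h2
  refine h2.congr fun t => ?_
  rw [ev1_apply, Finset.sum_mul, Finset.sum_div]
  refine Finset.sum_congr rfl fun b _ => ?_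
  rw [mul_assoc, ← Real.exp_add]
  congr 3
  ring

/-- Leading asymptotics. -/
theorem ev1_lead {F : E1} (hF : F ≠ 0) : ∃ (c : ℝ) (d : ℕ) (L : ℝ),
    c ∈ F.coeff.support ∧ (∀ b ∈ F.coeff.support, b ≤ c) ∧ L ≠ 0 ∧
    d = (F.coeff c).natDegree ∧ L = (F.coeff c).leadingCoeff ∧
    Tendsto (fun t : ℝ => ev1 t F * Real.exp (-c * t) / t ^ d) atTop (𝓝 L) := by
  have hne : F.coeff.support.Nonempty := by
    rw [Finsupp.support_nonempty_iff]
    intro h
    exact hF (AddMonoidAlgebra.coeff_injective h)
  obtain ⟨c, hc, hc'⟩ := Finset.exists_max_image F.coeff.support id hne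
  refine ⟨c, (F.coeff c).natDegree, (F.coeff c).leadingCoeff, hc, hc', ?_, rfl, rfl, ?_⟩
  · rw [Ne, Polynomial.leadingCoeff_eq_zero]
    exact Finsupp.mem_support_iff.1 hc
  · exact ev1_tendsto hc' _ le_rfl

theorem ev1_inj {F : E1} (h : ∀ᶠ t : ℝ in atTop, ev1 t F = 0) : F = 0 := by
  by_contra hF
  obtain ⟨c, d, L, -, -, hL, -, -, ht⟩ := ev1_lead hF
  have h2 : Tendsto (fun t : ℝ => ev1 t F * Real.exp (-c * t) / t ^ d) atTop (𝓝 0) := by
    refine tendsto_const_nhds.congr' ?_
    filter_upwards [h] with t ht'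
    rw [ht', zero_mul, zero_div]
  exact hL (tendsto_nhds_unique ht h2)

/-- If an exponential polynomial is `O(e^{ct})·poly` then exponents are `≤ c`. -/
theorem ev1_exponent_le {F : E1} {c : ℝ} (q : ℕ) (C : ℝ)
    (h : ∀ᶠ t : ℝ in atTop, |ev1 t F| ≤ C * t ^ q * Real.exp (c * t)) :
    ∀ b ∈ F.coeff.support, b ≤ c := by
  intro b hb
  have hF : F ≠ 0 := by
    rintro rfl
    simp at hb
  obtain ⟨c', d, L, hc', hmax, hL, -, -, ht⟩ := ev1_lead hF
  refine (hmax b hb).trans ?_
  by_contra hlt
  rw [not_le] at hlt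
  have h1 := tendsto_poly_exp (Polynomial.C C * Polynomial.X ^ q) d (sub_pos.2 hlt)
  have h2 : Tendsto (fun t : ℝ => ev1 t F * Real.exp (-c' * t) / t ^ d) atTop (𝓝 0) := by
    refine squeeze_zero_norm' ?_ h1
    filter_upwards [h, eventually_ge_atTop 1] with t ht' ht1
    have h3 : (0 : ℝ) < t ^ d := by positivity
    rw [norm_div, norm_mul, Real.norm_eq_abs, Real.norm_eq_abs, Real.abs_exp, Real.norm_eq_abs,
      abs_of_pos h3]
    refine div_le_div_of_nonneg_right ?_ h3.le
    calc |ev1 t F| * Real.exp (-c' * t) ≤ C * t ^ q * Real.exp (c * t) * Real.exp (-c' * t) :=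
          mul_le_mul_of_nonneg_right ht' (Real.exp_pos _).le
      _ = _ := by
          rw [mul_assoc, ← Real.exp_add]
          simp only [Polynomial.eval_mul, Polynomial.eval_C, Polynomial.eval_pow,
            Polynomial.eval_X]
          congr 2
          ring
  exact hL (tendsto_nhds_unique ht h2)

/-! ### restriction of `EA n` to a line -/

/-- `M ↦ M(y + T ω)` -/
noncomputable def linePol {n : ℕ} (y ω : Vec n) : Pol n →+* Polynomial ℝ :=
  (MvPolynomial.aeval fun i => Polynomial.C (y i) + Polynomial.C (ω i) * Polynomial.X :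
    Pol n →ₐ[ℝ] Polynomial ℝ).toRingHom

theorem eval_linePol {n : ℕ} (y ω : Vec n) (M : Pol n) (t : ℝ) :
    (linePol y ω M).eval t = MvPolynomial.eval (y + t • ω) M := by
  have h : (Polynomial.evalRingHom t).comp (linePol y ω) =
      (MvPolynomial.eval (y + t • ω) : Pol n →+* ℝ) := by
    refine MvPolynomial.ringHom_ext (fun r => ?_) fun i => ?_
    · simp [linePol]
    · simp only [linePol, AlgHom.toRingHom_eq_coe, RingHom.comp_apply, RingHom.coe_coe,
        MvPolynomial.aeval_X, Polynomial.coe_evalRingHom, Polynomial.eval_add, Polynomial.eval_mul,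
        Polynomial.eval_C, Polynomial.eval_X, MvPolynomial.eval_X, Pi.add_apply, Pi.smul_apply,
        smul_eq_mul]
      ring
  exact congrArg (fun f : Pol n →+* ℝ => f M) h

/-- exponents: `a ↦ e^{a.y} X^{a.ω}` -/
noncomputable def lineChr {n : ℕ} (y ω : Vec n) : Multiplicative (Vec n) →* E1 where
  toFun a := AddMonoidAlgebra.single (Multiplicative.toAdd a ⬝ᵥ ω)
    (Polynomial.C (Real.exp (Multiplicative.toAdd a ⬝ᵥ y)))
  map_one' := by simp [AddMonoidAlgebra.one_def]
  map_mul' a b := by
    rw [AddMonoidAlgebra.single_mul_single]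
    simp [add_dotProduct, Real.exp_add]

/-- The restriction to the line `y + t ω`. -/
noncomputable def line {n : ℕ} (y ω : Vec n) : EA n →+* E1 :=
  AddMonoidAlgebra.liftNCRingHom
    ((AddMonoidAlgebra.singleZeroRingHom).comp (linePol y ω)) (lineChr y ω)
    (fun _ _ => Commute.all _ _)

theorem line_single {n : ℕ} (y ω a : Vec n) (M : Pol n) :
    line y ω (AddMonoidAlgebra.single a M) = AddMonoidAlgebra.single (a ⬝ᵥ ω)
      (linePol y ω M * Polynomial.C (Real.exp (a ⬝ᵥ y))) := by
  unfold line
  refine (AddMonoidAlgebra.liftNC_single _ _ _ _).trans ?_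
  change AddMonoidAlgebra.single 0 (linePol y ω M) *
    AddMonoidAlgebra.single (a ⬝ᵥ ω) (Polynomial.C (Real.exp (a ⬝ᵥ y))) = _
  rw [AddMonoidAlgebra.single_mul_single, zero_add]

theorem ev1_line {n : ℕ} (y ω : Vec n) (t : ℝ) (P : EA n) :
    ev1 t (line y ω P) = ev (y + t • ω) P := by
  have h : (ev1 t).comp (line y ω) = ev (y + t • ω) := by
    refine AddMonoidAlgebra.ringHom_ext (fun r => ?_) fun a => ?_
    · simp only [RingHom.comp_apply, line_single, ev1_single]
      unfold ev
      refine Eq.trans ?_ (AddMonoidAlgebra.liftNC_single _ _ _ _).symm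
      simp [chr, eval_linePol]
    · simp only [RingHom.comp_apply, line_single, ev1_single]
      unfold ev
      refine Eq.trans ?_ (AddMonoidAlgebra.liftNC_single _ _ _ _).symm
      simp [chr, dotProduct_add, dotProduct_smul, Real.exp_add]
      ring_nf
  exact congrArg (fun f : EA n →+* ℝ => f P) h

end Pool.Agent.Covg
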