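import Pool.Agent.Work.MP_177351_gt.Alg
import Pool.Agent.Work.MP_177351_gt.Lap
import Pool.Agent.Work.MP_177351_gt.VtoH
import Pool.Agent.Work.MP_177351_gt.Rep
import Pool.Agent.Work.MP_177351_gt.Trans
import Pool.Agent.Work.MP_177351_gt.Top

/-!
# Module PlanarData, part 1: algebra
-/

set_option autoImplicit false

open MeasureTheory MvPolynomial Set Filter Topology
open scoped Pointwise Matrix

namespace Pool.Agent.Covg
namespace PD

theorem rot_dot (ν : Vec 2) : rot ν ⬝ᵥ ν = 0 := by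
  simp [rot, dotProduct, Fin.sum_univ_two]; ring

theorem rot_rot (ν : Vec 2) : rot (rot ν) = -ν := by
  ext i; fin_cases i <;> simp [rot]

theorem rot_dot_rot (ν : Vec 2) : rot ν ⬝ᵥ rot ν = ν ⬝ᵥ ν := by
  simp [rot, dotProduct, Fin.sum_univ_two]; ring

theorem rot_ne {ν : Vec 2} (h : ν ≠ 0) : rot ν ≠ 0 := by
  intro h0
  apply h
  rw [← dotProduct_self_eq_zero, ← rot_dot_rot, h0, dotProduct_zero]

theorem coeff_evAt (ν : Vec 2) (P : EA 2) (a : Vec 2) :
    (evAt ν P).coeff a = MvPolynomial.eval ν (P.coeff a) := by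
  have h : evAt ν P = AddMonoidAlgebra.mapRingHom (Vec 2) (MvPolynomial.eval ν) P := by
    induction P using AddMonoidAlgebra.induction_linear with
    | zero => simp
    | add f g hf hg => rw [map_add, map_add, hf, hg]
    | single a m =>
      rw [AddMonoidAlgebra.mapRingHom_single]
      unfold evAt
      refine (AddMonoidAlgebra.liftNC_single _ _ _ _).trans ?_
      change AddMonoidAlgebra.single 0 (MvPolynomial.eval ν m) *
        AddMonoidAlgebra.single a (1 : ℝ) = _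
      rw [AddMonoidAlgebra.single_mul_single, zero_add, mul_one]
  rw [h, AddMonoidAlgebra.coeff_mapRingHom]

/-- homogeneous substitution -/
theorem aeval_hom {n d : ℕ} {F : Pol n} (hF : F.IsHomogeneous d) {A : Type} [CommRing A]
    [Algebra ℝ A] (s : A) (w : Vec n) :
    MvPolynomial.aeval (fun i => algebraMap ℝ A (w i) * s) F =
      s ^ d * algebraMap ℝ A (MvPolynomial.eval w F) := by
  rw [MvPolynomial.aeval_def, MvPolynomial.eval₂_eq', MvPolynomial.eval_eq', map_sum,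
    Finset.mul_sum]
  refine Finset.sum_congr rfl fun m hm => ?_
  have hd : ∑ i, m i = d := by
    rw [hF.degree_eq_sum_deg_support hm]
    symm
    apply Finset.sum_subset (Finset.subset_univ _)
    intro i _ hi
    exact Finsupp.notMem_support_iff.1 hi
  rw [map_mul, map_prod]
  simp only [mul_pow, Finset.prod_mul_distrib, Finset.prod_pow_eq_pow_sum, hd, map_pow]
  ring

theorem eval_smul_hom {n d : ℕ} {F : Pol n} (hF : F.IsHomogeneous d) (s : ℝ) (w : Vec n) :
    MvPolynomial.eval (s • w) F = s ^ d * MvPolynomial.eval w F := by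
  have h := aeval_hom hF (A := ℝ) s w
  simp only [Algebra.algebraMap_self, RingHom.id_apply] at h
  rw [← h, MvPolynomial.aeval_eq_eval]
  congr 2
  ext i; simp [mul_comm]

/-- a binary form which vanishes at `ν` is divisible by the linear form of `rot ν` -/
theorem lin_dvd {d : ℕ} {F : Pol 2} (hF : F.IsHomogeneous d) {ν : Vec 2} (hν : ν ≠ 0)
    (h0 : MvPolynomial.eval ν F = 0) : lin (rot ν) ∣ F := by
  rw [← Ideal.mem_span_singleton, ← Ideal.Quotient.eq_zero_iff_mem]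
  set I : Ideal (Pol 2) := Ideal.span {lin (rot ν)} with hI
  have hq : ν ⬝ᵥ ν ≠ 0 := fun h => hν (dotProduct_self_eq_zero.1 h)
  have hrel : (Ideal.Quotient.mk I) (lin (rot ν)) = 0 :=
    Ideal.Quotient.eq_zero_iff_mem.2 (Ideal.mem_span_singleton_self _)
  let x : Fin 2 → (Pol 2 ⧸ I) := fun i => Ideal.Quotient.mk I (X i)
  have hrel2 : algebraMap ℝ (Pol 2 ⧸ I) (-ν 1) * x 0 + algebraMap ℝ (Pol 2 ⧸ I) (ν 0) * x 1 = 0 := by
    have h1 : (Ideal.Quotient.mk I) (lin (rot ν)) =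
      algebraMap ℝ (Pol 2 ⧸ I) (-ν 1) * x 0 + algebraMap ℝ (Pol 2 ⧸ I) (ν 0) * x 1 := by
      simp only [lin, Fin.sum_univ_two, map_add, map_mul, rot, Matrix.cons_val_zero,
        Matrix.cons_val_one, x]
      rfl
    rw [← h1, hrel]
  set s : Pol 2 ⧸ I := algebraMap ℝ (Pol 2 ⧸ I) ((ν ⬝ᵥ ν)⁻¹) *
    (algebraMap ℝ (Pol 2 ⧸ I) (ν 0) * x 0 + algebraMap ℝ (Pol 2 ⧸ I) (ν 1) * x 1) with hs
  have hinv : algebraMap ℝ (Pol 2 ⧸ I) ((ν ⬝ᵥ ν)⁻¹) * algebraMap ℝ (Pol 2 ⧸ I) (ν ⬝ᵥ ν) = 1 := by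
    rw [← map_mul, inv_mul_cancel₀ hq, map_one]
  have hdot : algebraMap ℝ (Pol 2 ⧸ I) (ν ⬝ᵥ ν) = algebraMap ℝ (Pol 2 ⧸ I) (ν 0) ^ 2 +
      algebraMap ℝ (Pol 2 ⧸ I) (ν 1) ^ 2 := by
    rw [dotProduct, Fin.sum_univ_two, map_add, map_mul, map_mul]; ring
  rw [map_neg] at hrel2
  have hx : x = fun i => algebraMap ℝ (Pol 2 ⧸ I) (ν i) * s := by
    funext i
    set q := algebraMap ℝ (Pol 2 ⧸ I) ((ν ⬝ᵥ ν)⁻¹)
    set a := algebraMap ℝ (Pol 2 ⧸ I) (ν 0)
    set b := algebraMap ℝ (Pol 2 ⧸ I) (ν 1)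
    rw [hdot] at hinv
    fin_cases i
    · change x 0 = a * s
      rw [hs]
      linear_combination (-x 0) * hinv - q * b * hrel2
    · change x 1 = b * s
      rw [hs]
      linear_combination (-x 1) * hinv + q * a * hrel2
  have h1 : Ideal.Quotient.mk I F = MvPolynomial.aeval x F := by
    have h2 : (Ideal.Quotient.mkₐ ℝ I) = (MvPolynomial.aeval x : Pol 2 →ₐ[ℝ] Pol 2 ⧸ I) := by
      apply MvPolynomial.algHom_ext
      intro i
      simp [x]
    exact congrArg (fun f : Pol 2 →ₐ[ℝ] Pol 2 ⧸ I => f F) h2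
  rw [h1, hx, aeval_hom hF, h0, map_zero, mul_zero]

theorem eval_lin_rot (ν : Vec 2) : MvPolynomial.eval ν (lin (rot ν)) = 0 := by
  rw [eval_lin_top, rot_dot]

theorem finSucc_coeff_top {d : ℕ} {F : Pol 2} (hF : F.IsHomogeneous d) (z : Vec 1) :
    MvPolynomial.eval z ((finSuccEquiv ℝ 1 F).coeff d) = MvPolynomial.eval ![1, 0] F := by
  have hc : ∀ i j, i + j = d → ((finSuccEquiv ℝ 1 F).coeff i).IsHomogeneous j :=
    fun i j h => hF.finSuccEquiv_coeff_isHomogeneous i j h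
  have h0 := hc d 0 (by simp)
  have hC : (finSuccEquiv ℝ 1 F).coeff d = C (coeff 0 ((finSuccEquiv ℝ 1 F).coeff d)) := by
    rw [← totalDegree_eq_zero_iff_eq_C]
    exact (totalDegree_zero_iff_isHomogeneous _).2 h0
  have hdeg : (finSuccEquiv ℝ 1 F).natDegree ≤ d := by
    rw [Polynomial.natDegree_le_iff_coeff_eq_zero]
    intro i hi
    ext m
    rw [finSuccEquiv_coeff_coeff, coeff_zero]
    apply hF.coeff_eq_zero
    rw [Finsupp.degree_eq_sum, Fin.sum_univ_succ]
    simp only [Finsupp.cons_zero]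
    omega
  have h2 : (![1, 0] : Vec 2) = Fin.cons 1 (0 : Vec 1) := by
    ext i; fin_cases i <;> rfl
  rw [h2, eval_eq_eval_mv_eval', Polynomial.eval_eq_sum_range' (n := d + 1)
    (lt_of_le_of_lt (Polynomial.natDegree_map_le) (Nat.lt_succ_of_le hdeg)),
    Finset.sum_range_succ, Finset.sum_eq_zero, zero_add, Polynomial.coeff_map, one_pow, mul_one]
  · rw [hC, eval_C, eval_C]
  · intro i hi
    rw [Finset.mem_range] at hi
    rw [Polynomial.coeff_map, one_pow, mul_one]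
    have h3 := hc i (d - i) (by omega)
    have h4 := eval_smul_hom h3 0 (0 : Vec 1)
    rw [smul_zero, zero_pow (by omega), zero_mul] at h4
    exact h4

theorem finSucc_natDegree_le {d : ℕ} {F : Pol 2} (hF : F.IsHomogeneous d) :
    (finSuccEquiv ℝ 1 F).natDegree ≤ d := by
  rw [Polynomial.natDegree_le_iff_coeff_eq_zero]
  intro i hi
  ext m
  rw [finSuccEquiv_coeff_coeff, coeff_zero]
  apply hF.coeff_eq_zero
  rw [Finsupp.degree_eq_sum, Fin.sum_univ_succ]
  simp only [Finsupp.cons_zero]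
  omega

end PD
end Pool.Agent.Covg
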