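import Pool.Agent.Work.MP_177351_gt.PD1

/-!
# Module PlanarData, part 2: the top formula in the plane
-/

set_option autoImplicit false

open MeasureTheory MvPolynomial Set Filter Topology
open scoped Pointwise Matrix

namespace Pool.Agent.Covg
namespace PD

theorem lap_interval {a b : ℝ} (hab : a ≤ b) (z : Vec 1) :
    z 0 * lap {x : Vec 1 | a ≤ x 0 ∧ x 0 ≤ b} z = Real.exp (b * z 0) - Real.exp (a * z 0) := by
  have h1 : lap {x : Vec 1 | a ≤ x 0 ∧ x 0 ≤ b} z = ∫ y in Icc a b, Real.exp (y * z 0) := by
    have h := (volume_preserving_funUnique (Fin 1) ℝ).setIntegral_preimage_emb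
      (MeasurableEquiv.measurableEmbedding _) (fun y : ℝ => Real.exp (y * z 0)) (Icc a b)
    rw [← h]
    unfold lap
    have hs : {x : Vec 1 | a ≤ x 0 ∧ x 0 ≤ b} = ⇑(MeasurableEquiv.funUnique (Fin 1) ℝ) ⁻¹' Icc a b := by
      ext x
      simp [MeasurableEquiv.funUnique]
    rw [hs]
    congr 1
    ext x
    simp [dotProduct, MeasurableEquiv.funUnique]
  rw [h1, integral_Icc_eq_integral_Ioc, ← intervalIntegral.integral_of_le hab, mul_comm,
    ← smul_eq_mul]
  by_cases h0 : z 0 = 0
  · simp [h0]
  · have h2 := intervalIntegral.integral_comp_mul_right (fun y => Real.exp y) h0 (a := a) (b := b)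
    rw [h2, integral_exp, smul_eq_mul, smul_eq_mul]
    field_simp

theorem coord {K : Set (Vec 2)} {C G : Pol 2} {R : EA 2} (hb : Body K) (hT : TrC K C R) {d : ℕ}
    (hR : IsHom d R) (hG : G.IsHomogeneous (d + 1)) (hCG : C = X 1 * G)
    {h h' : ℝ} (h1 : ∀ x ∈ K, x 0 ≤ h) (h2 : ∃ x ∈ K, x 0 = h)
    (h1' : ∀ x ∈ K, h' ≤ x 0) (h2' : ∃ x ∈ K, x 0 = h') {a b a' b' : ℝ} (hab : a ≤ b)
    (hab' : a' ≤ b') (hs : slice K h = {x | a ≤ x 0 ∧ x 0 ≤ b})
    (hs' : slice K h' = {x | a' ≤ x 0 ∧ x 0 ≤ b'}) (v : Vec 2) :
    MvPolynomial.eval ![1, 0] (R.coeff v) = MvPolynomial.eval ![1, 0] G *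
      ((if v 0 = h then (if v 1 = b then 1 else 0) - (if v 1 = a then 1 else 0) else 0) -
        (if v 0 = h' then (if v 1 = b' then 1 else 0) - (if v 1 = a' then 1 else 0) else 0)) := by
  classical
  have htop := top_formula hb hT h1 h2 h1' h2'
  have hfC : finSuccEquiv ℝ 1 C = Polynomial.C (X 0) * finSuccEquiv ℝ 1 G := by
    rw [hCG, map_mul]
    congr 1
    exact finSuccEquiv_X_succ (j := (0 : Fin 1))
  have hX0 : (X 0 : Pol 1) ≠ 0 := X_ne_zero _
  have hnd : (finSuccEquiv ℝ 1 C).natDegree = (finSuccEquiv ℝ 1 G).natDegree := by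
    rw [hfC, Polynomial.natDegree_C_mul hX0]
  have hGle := finSucc_natDegree_le hG
  by_cases hG0 : MvPolynomial.eval ![1, 0] G = 0
  · rw [hG0, zero_mul]
    have hcoef : (finSuccEquiv ℝ 1 G).coeff (d + 1) = 0 := by
      apply MvPolynomial.funext
      intro z
      rw [finSucc_coeff_top hG, hG0, map_zero]
    have hlt : (finSuccEquiv ℝ 1 G).natDegree ≤ d := by
      by_contra hcon
      have he : (finSuccEquiv ℝ 1 G).natDegree = d + 1 := by omega
      have hne : finSuccEquiv ℝ 1 G ≠ 0 := by
        intro h0
        rw [h0, Polynomial.natDegree_zero] at he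
        omega
      apply hne
      rw [← Polynomial.leadingCoeff_eq_zero, Polynomial.leadingCoeff, he, hcoef]
    have h3 := htop.1 v
    rw [hnd] at h3
    rw [← finSucc_coeff_top (hR v) 0, Polynomial.coeff_eq_zero_of_natDegree_lt (by omega), map_zero]
  · have hcoef : (finSuccEquiv ℝ 1 G).coeff (d + 1) ≠ 0 := by
      intro h0
      apply hG0
      rw [← finSucc_coeff_top hG 0, h0, map_zero]
    have hGd : (finSuccEquiv ℝ 1 G).natDegree = d + 1 :=
      le_antisymm hGle (Polynomial.le_natDegree_of_ne_zero hcoef)
    have hlc : ∀ z : Vec 1, MvPolynomial.eval z (finSuccEquiv ℝ 1 C).leadingCoeff =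
        z 0 * MvPolynomial.eval ![1, 0] G := by
      intro z
      rw [hfC, Polynomial.leadingCoeff_mul, Polynomial.leadingCoeff_C, map_mul, eval_X,
        Polynomial.leadingCoeff, hGd, finSucc_coeff_top hG]
    have hmain : ∀ (y : ℝ) (z : Vec 1), ∑ w ∈ R.coeff.support with w 0 = y,
        MvPolynomial.eval ![1, 0] (R.coeff w) * Real.exp (w 1 * z 0) =
        MvPolynomial.eval ![1, 0] G * ((if y = h then (Real.exp (b * z 0) - Real.exp (a * z 0)) else 0)
          - (if y = h' then (Real.exp (b' * z 0) - Real.exp (a' * z 0)) else 0)) := by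
      intro y z
      have h3 := htop.2 y z
      rw [hlc, hnd, hGd, Nat.add_sub_cancel] at h3
      rw [← lap_interval hab, ← lap_interval hab', ← hs, ← hs']
      have e1 : ∑ w ∈ R.coeff.support with w 0 = y,
          MvPolynomial.eval ![1, 0] (R.coeff w) * Real.exp (w 1 * z 0) =
          ∑ w ∈ R.coeff.support with w 0 = y,
        MvPolynomial.eval z ((finSuccEquiv ℝ 1 (R.coeff w)).coeff d) *
          Real.exp (Fin.tail w ⬝ᵥ z) := by
        refine Finset.sum_congr rfl fun w _ => ?_
        rw [finSucc_coeff_top (hR w)]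
        congr 2
        simp [Fin.tail, dotProduct]
      rw [e1, h3]
      split_ifs <;> ring
    -- pass to `E1`
    set y := v 0 with hy
    set g := MvPolynomial.eval ![1, 0] G with hg
    let E : E1 := (∑ w ∈ R.coeff.support.filter (fun w : Vec 2 => w 0 = y),
        (AddMonoidAlgebra.single (w 1) (Polynomial.C (MvPolynomial.eval ![1, 0] (R.coeff w))) : E1)) -
      ((if y = h then (AddMonoidAlgebra.single b (Polynomial.C g) -
          AddMonoidAlgebra.single a (Polynomial.C g)) else 0) -
        (if y = h' then (AddMonoidAlgebra.single b' (Polynomial.C g) -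
          AddMonoidAlgebra.single a' (Polynomial.C g)) else 0))
    have hE : E = 0 := by
      apply ev1_inj
      refine Eventually.of_forall fun t => ?_
      have h3 := hmain y ![t]
      simp only [E, map_sub, map_sum, ev1_single, Polynomial.eval_C]
      simp only [Matrix.cons_val_zero] at h3
      rw [h3]
      split_ifs <;> simp [ev1_single] <;> ring
    have hEv : E.coeff (v 1) = 0 := by rw [hE]; rfl
    have hsum : (∑ w ∈ R.coeff.support.filter (fun w : Vec 2 => w 0 = y),
        (AddMonoidAlgebra.single (w 1) (Polynomial.C (MvPolynomial.eval ![1, 0] (R.coeff w))) : E1)).coeff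
          (v 1) = Polynomial.C (MvPolynomial.eval ![1, 0] (R.coeff v)) := by
      rw [coeff_sum_single_top, Finset.filter_filter]
      by_cases hv : v ∈ R.coeff.support
      · rw [Finset.sum_eq_single_of_mem v]
        · simp [hv, hy, -Finsupp.mem_support_iff]
        · intro w hw hwv
          exfalso
          apply hwv
          rw [Finset.mem_filter] at hw
          ext i
          fin_cases i
          · exact hw.2.1
          · exact hw.2.2
      · rw [Finsupp.notMem_support_iff.1 hv, map_zero, map_zero]
        refine Finset.sum_eq_zero fun w hw => ?_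
        exfalso
        rw [Finset.mem_filter] at hw
        apply hv
        have : w = v := by
          ext i
          fin_cases i
          · exact hw.2.1
          · exact hw.2.2
        rw [← this]
        exact hw.1
    have h4 := congrArg (Polynomial.eval 0) hEv
    simp only [E] at h4
    rw [AddMonoidAlgebra.coeff_sub, Finsupp.sub_apply, hsum] at h4
    have h5 : ∀ (x c : ℝ), (AddMonoidAlgebra.single x (Polynomial.C c) : E1).coeff (v 1) =
        if v 1 = x then Polynomial.C c else 0 := by
      intro x c
      rw [AddMonoidAlgebra.coeff_single, Finsupp.single_apply]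
      simp only [eq_comm]
    have h6 : Polynomial.eval 0 (((if y = h then (AddMonoidAlgebra.single b (Polynomial.C g) -
          AddMonoidAlgebra.single a (Polynomial.C g)) else 0) -
        (if y = h' then (AddMonoidAlgebra.single b' (Polynomial.C g) -
          AddMonoidAlgebra.single a' (Polynomial.C g)) else 0) : E1).coeff (v 1)) =
          g * ((if y = h then (if v 1 = b then 1 else 0) - (if v 1 = a then 1 else 0) else 0) -
        (if y = h' then (if v 1 = b' then 1 else 0) - (if v 1 = a' then 1 else 0) else 0)) := by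
      rw [AddMonoidAlgebra.coeff_sub, Finsupp.sub_apply]
      have h7 : ∀ (p : Prop) [Decidable p] (x : E1), (if p then x else 0).coeff (v 1) =
          if p then x.coeff (v 1) else 0 := by
        intro p _ x
        split_ifs <;> rfl
      simp only [h7, AddMonoidAlgebra.coeff_sub, Finsupp.sub_apply, h5]
      split_ifs <;> simp <;> ring
    rw [Polynomial.eval_sub, h6, Polynomial.eval_C, Polynomial.eval_zero, sub_eq_zero] at h4
    exact h4

end PD
end Pool.Agent.Covg
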