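import Pool.Agent.Work.MP_177351_gt.PD2

/-!
# Module PlanarData, part 3: arbitrary directions
-/

set_option autoImplicit false

open MeasureTheory MvPolynomial Set Filter Topology
open scoped Pointwise Matrix

namespace Pool.Agent.Covg
namespace PD

theorem cont_dot {n : ℕ} (z : Vec n) : Continuous fun x : Vec n => x ⬝ᵥ z :=
  continuous_id.dotProduct continuous_const

theorem dot_self_pos {ν : Vec 2} (h : ν ≠ 0) : 0 < ν ⬝ᵥ ν := by
  have h1 : ν ⬝ᵥ ν ≠ 0 := fun h0 => h (dotProduct_self_eq_zero.1 h0)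
  have h2 : 0 ≤ ν ⬝ᵥ ν := by
    simp only [dotProduct, Fin.sum_univ_two]
    nlinarith [mul_self_nonneg (ν 0), mul_self_nonneg (ν 1)]
  exact lt_of_le_of_ne h2 h1.symm

theorem decomp {ν : Vec 2} (h : ν ≠ 0) (w : Vec 2) :
    w = ((w ⬝ᵥ ν) / (ν ⬝ᵥ ν)) • ν + ((w ⬝ᵥ rot ν) / (ν ⬝ᵥ ν)) • rot ν := by
  have h1 := (dot_self_pos h).ne'
  ext i
  simp only [Pi.add_apply, Pi.smul_apply, smul_eq_mul]
  field_simp
  fin_cases i <;> simp [rot, dotProduct, Fin.sum_univ_two] <;> ring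

theorem eq_of_dot {ν : Vec 2} (h : ν ≠ 0) {w w' : Vec 2} (h1 : w ⬝ᵥ ν = w' ⬝ᵥ ν)
    (h2 : w ⬝ᵥ rot ν = w' ⬝ᵥ rot ν) : w = w' := by
  rw [decomp h w, decomp h w', h1, h2]

theorem mem_seg {p u x : Vec 2} {l : ℝ} (hl : 0 ≤ l) :
    x ∈ segment ℝ p (p + l • u) ↔ ∃ s : ℝ, 0 ≤ s ∧ s ≤ l ∧ x = p + s • u := by
  rw [segment_eq_image']
  constructor
  · rintro ⟨θ, ⟨h0, h1⟩, rfl⟩
    refine ⟨θ * l, by positivity, by nlinarith, ?_⟩
    simp [smul_smul]
  · rintro ⟨s, h0, h1, rfl⟩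
    rcases hl.eq_or_lt with h | h
    · have : s = 0 := by linarith
      refine ⟨0, by simp, ?_⟩
      simp [this]
    · refine ⟨s / l, ⟨by positivity, by rw [div_le_one h]; exact h1⟩, ?_⟩
      simp only [add_sub_cancel_left, smul_smul]
      rw [div_mul_cancel₀ _ h.ne']

theorem seg_of {F : Set (Vec 2)} (hc : Convex ℝ F) (hk : IsCompact F) (hn : F.Nonempty)
    {ν : Vec 2} (hν : ν ≠ 0) {h : ℝ} (hh : ∀ x ∈ F, x ⬝ᵥ ν = h) :
    ∃ (l : ℝ) (p : Vec 2), 0 ≤ l ∧ p ∈ F ∧ F = segment ℝ p (p + l • rot ν) := by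
  have hcont : Continuous fun x : Vec 2 => x ⬝ᵥ rot ν := cont_dot _
  obtain ⟨p, hp, hmin⟩ := hk.exists_isMinOn hn hcont.continuousOn
  obtain ⟨q, hq, hmax⟩ := hk.exists_isMaxOn hn hcont.continuousOn
  have hν2 := dot_self_pos hν
  have key : ∀ x ∈ F, x = p + ((x ⬝ᵥ rot ν - p ⬝ᵥ rot ν) / (ν ⬝ᵥ ν)) • rot ν := by
    intro x hx
    apply eq_of_dot hν
    · rw [add_dotProduct, smul_dotProduct, rot_dot, smul_zero, add_zero, hh x hx, hh p hp]
    · rw [add_dotProduct, smul_dotProduct, rot_dot_rot, smul_eq_mul, div_mul_cancel₀ _ hν2.ne']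
      ring
  refine ⟨(q ⬝ᵥ rot ν - p ⬝ᵥ rot ν) / (ν ⬝ᵥ ν), p, ?_, hp, ?_⟩
  · exact div_nonneg (sub_nonneg.2 (hmin hq)) hν2.le
  · rw [← key q hq]
    apply Subset.antisymm
    · intro x hx
      rw [key q hq, mem_seg (div_nonneg (sub_nonneg.2 (hmin hq)) hν2.le)]
      refine ⟨_, ?_, ?_, key x hx⟩
      · exact div_nonneg (sub_nonneg.2 (hmin hx)) hν2.le
      · refine div_le_div_of_nonneg_right (sub_le_sub_right (hmax hx) _) hν2.le
    · exact hc.segment_subset hp hq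

theorem fc_compact {n : ℕ} {K : Set (Vec n)} (hk : IsCompact K) (ν : Vec n) :
    IsCompact (fc K ν) := by
  have : fc K ν = K ∩ ⋂ y ∈ K, {x | y ⬝ᵥ ν ≤ x ⬝ᵥ ν} := by
    ext x
    simp [fc]
  rw [this]
  refine hk.inter_right (isClosed_biInter fun y _ => ?_)
  exact isClosed_le continuous_const (cont_dot _)

theorem fc_convex {n : ℕ} {K : Set (Vec n)} (hk : Convex ℝ K) (ν : Vec n) :
    Convex ℝ (fc K ν) := by
  intro x hx y hy a b ha hb hab
  refine ⟨hk hx.1 hy.1 ha hb hab, fun w hw => ?_⟩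
  rw [add_dotProduct, smul_dotProduct, smul_dotProduct]
  have h1 := hx.2 w hw
  have h2 := hy.2 w hw
  calc w ⬝ᵥ ν = a * (w ⬝ᵥ ν) + b * (w ⬝ᵥ ν) := by rw [← add_mul, hab, one_mul]
    _ ≤ _ := by
      simp only [smul_eq_mul]
      gcongr

theorem fc_nonempty {n : ℕ} {K : Set (Vec n)} (hk : IsCompact K) (hn : K.Nonempty) (ν : Vec n) :
    (fc K ν).Nonempty := by
  obtain ⟨x, hx, hmax⟩ := hk.exists_isMaxOn hn (cont_dot ν).continuousOn
  exact ⟨x, hx, fun y hy => hmax hy⟩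

theorem fc_const {n : ℕ} {K : Set (Vec n)} {ν : Vec n} {x y : Vec n} (hx : x ∈ fc K ν)
    (hy : y ∈ fc K ν) : x ⬝ᵥ ν = y ⬝ᵥ ν :=
  le_antisymm (hy.2 x hx.1) (hx.2 y hy.1)

/-- a body is not contained in a hyperplane -/
theorem body_height {K : Set (Vec 2)} (hb : Body K) {ν : Vec 2} (hν : ν ≠ 0) {p p' : Vec 2}
    (hp : p ∈ fc K ν) (hp' : p' ∈ fc K (-ν)) : p' ⬝ᵥ ν < p ⬝ᵥ ν := by
  obtain ⟨x, hx⟩ := hb.int
  rw [mem_interior_iff_mem_nhds] at hx
  have hc : Tendsto (fun t : ℝ => x + t • ν) (𝓝 0) (𝓝 x) := by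
    have h1 : Continuous fun t : ℝ => x + t • ν := by fun_prop
    have h2 := h1.tendsto 0
    simpa using h2
  have h3 := hc hx
  rw [Filter.mem_map, Metric.mem_nhds_iff] at h3
  obtain ⟨ε, hε, h4⟩ := h3
  have h5 : x + (ε / 2) • ν ∈ K := by
    apply h4
    rw [Metric.mem_ball, Real.dist_eq, sub_zero, abs_of_pos (by positivity)]
    linarith
  have h6 := hp.2 _ h5
  have h7 : x ∈ K := mem_of_mem_nhds hx
  have h8 := hp'.2 _ h7
  rw [dotProduct_neg, dotProduct_neg] at h8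
  rw [add_dotProduct, smul_dotProduct, smul_eq_mul] at h6
  have h9 := dot_self_pos hν
  have : 0 < ε / 2 * (ν ⬝ᵥ ν) := by positivity
  linarith

/-- the matrix with rows `ν`, `rot ν` -/
def mat (ν : Vec 2) : Matrix (Fin 2) (Fin 2) ℝ := Matrix.of ![ν, rot ν]

theorem mat_det (ν : Vec 2) : (mat ν).det = ν ⬝ᵥ ν := by
  rw [Matrix.det_fin_two]
  simp [mat, rot, dotProduct, Fin.sum_univ_two]

theorem mat_zero (ν a : Vec 2) : (mat ν *ᵥ a) 0 = a ⬝ᵥ ν := by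
  rw [dotProduct_comm]; rfl

theorem mat_one (ν a : Vec 2) : (mat ν *ᵥ a) 1 = a ⬝ᵥ rot ν := by
  rw [dotProduct_comm]; rfl

theorem vecMul_mat (ν : Vec 2) : (![1, 0] : Vec 2) ᵥ* mat ν = ν := by
  ext i
  fin_cases i <;> simp [mat, Matrix.vecMul, dotProduct, Fin.sum_univ_two]

theorem subst_lin (ν : Vec 2) : subst (mat ν) (lin (rot ν)) = MvPolynomial.C (ν ⬝ᵥ ν) * X 1 := by
  apply MvPolynomial.funext
  intro z
  rw [eval_subst, eval_lin_top, map_mul, eval_C, eval_X]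
  simp [mat, rot, Matrix.vecMul, dotProduct, Fin.sum_univ_two]
  ring

theorem dir {K : Set (Vec 2)} {C C₁ : Pol 2} {R : EA 2} (hb : Body K) (hT : TrC K C R) {d : ℕ}
    (hR : IsHom d R) (hC₁ : C₁.IsHomogeneous (d + 1)) {ν : Vec 2} (hν : ν ≠ 0)
    (hCC : C = lin (rot ν) * C₁) :
    ∃ (l l' : ℝ) (p p' : Vec 2), 0 ≤ l ∧ 0 ≤ l' ∧ fc K ν = segment ℝ p (p + l • rot ν) ∧
      fc K (-ν) = segment ℝ p' (p' + l' • rot ν) ∧ p' ⬝ᵥ ν < p ⬝ᵥ ν ∧
      evAt ν R = (MvPolynomial.eval ν C₁) • (AddMonoidAlgebra.single (p + l • rot ν) 1 -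
        AddMonoidAlgebra.single p 1 - AddMonoidAlgebra.single (p' + l' • rot ν) 1 +
        AddMonoidAlgebra.single p' 1) := by
  classical
  have hKn : K.Nonempty := hb.int.mono interior_subset
  obtain ⟨x₀, hx₀⟩ := fc_nonempty hb.comp hKn ν
  obtain ⟨x₁, hx₁⟩ := fc_nonempty hb.comp hKn (-ν)
  obtain ⟨l, p, hl, hp, hF⟩ := seg_of (fc_convex hb.conv ν) (fc_compact hb.comp ν) ⟨x₀, hx₀⟩ hν
    (h := x₀ ⬝ᵥ ν) (fun x hx => fc_const hx hx₀)
  obtain ⟨l', p', hl', hp', hF'⟩ := seg_of (fc_convex hb.conv (-ν)) (fc_compact hb.comp (-ν))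
    ⟨x₁, hx₁⟩ hν (h := x₁ ⬝ᵥ ν) (fun x hx => by
      have := fc_const hx hx₁
      rwa [dotProduct_neg, dotProduct_neg, neg_inj] at this)
  refine ⟨l, l', p, p', hl, hl', hF, hF', body_height hb hν hp hp', ?_⟩
  have hq := dot_self_pos hν
  have hdet : IsUnit (mat ν).det := by rw [mat_det]; exact hq.ne'.isUnit
  obtain ⟨f, hf1, hf2, hf3, hf4, hf5, hf6, hf7⟩ := exists_tm (mat ν) hdet
  have hTM := hf6 K R C hT
  have hbM : Body ((fun x => mat ν *ᵥ x) '' K) := by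
    have hFP : FP K R 1 := ⟨hb, ⟨d, hR⟩, ⟨0, fun a => ?_⟩, ⟨C, by rw [mul_one]; exact hT⟩⟩
    · exact (hf7 _ _ _ hFP).body
    · rw [AddMonoidAlgebra.one_def, AddMonoidAlgebra.coeff_single, Finsupp.single_apply]
      split_ifs
      · exact isHomogeneous_one _ _
      · exact isHomogeneous_zero _ _ _
  have hdetabs : |(mat ν).det| = ν ⬝ᵥ ν := by rw [mat_det, abs_of_pos hq]
  -- the slices
  have hslice : ∀ (h : ℝ) (F : Set (Vec 2)) (p : Vec 2) (l : ℝ), 0 ≤ l →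
      F = segment ℝ p (p + l • rot ν) → p ⬝ᵥ ν = h → (∀ x, x ∈ F ↔ x ∈ K ∧ x ⬝ᵥ ν = h) →
      slice ((fun x => mat ν *ᵥ x) '' K) h =
        {x : Vec 1 | p ⬝ᵥ rot ν ≤ x 0 ∧ x 0 ≤ (p + l • rot ν) ⬝ᵥ rot ν} := by
    intro h F p l hl hF hph hmem
    ext x
    simp only [slice, mem_image, mem_ofPred_eq]
    rw [add_dotProduct, smul_dotProduct, rot_dot_rot, smul_eq_mul]
    constructor
    · rintro ⟨w, hw, hwx⟩
      have e0 : w ⬝ᵥ ν = h := by rw [← mat_zero, hwx]; rfl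
      have e1 : w ⬝ᵥ rot ν = x 0 := by rw [← mat_one, hwx]; rfl
      have hwF := (hmem w).2 ⟨hw, e0⟩
      rw [hF, mem_seg hl] at hwF
      obtain ⟨s, hs0, hs1, hws⟩ := hwF
      rw [← e1, hws, add_dotProduct, smul_dotProduct, rot_dot_rot, smul_eq_mul]
      constructor
      · nlinarith
      · nlinarith
    · rintro ⟨h1, h2⟩
      have hs : p + ((x 0 - p ⬝ᵥ rot ν) / (ν ⬝ᵥ ν)) • rot ν ∈ F := by
        rw [hF, mem_seg hl]
        refine ⟨_, div_nonneg (by linarith) hq.le, ?_, rfl⟩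
        rw [div_le_iff₀ hq]
        linarith
      refine ⟨_, ((hmem _).1 hs).1, ?_⟩
      ext i
      refine Fin.cases ?_ (fun j => ?_) i
      · rw [mat_zero, add_dotProduct, smul_dotProduct, rot_dot, smul_zero, add_zero, hph]
        rfl
      · have hj : j = 0 := Subsingleton.elim _ _
        subst hj
        change (mat ν *ᵥ _) 1 = x 0
        rw [mat_one, add_dotProduct, smul_dotProduct, rot_dot_rot, smul_eq_mul,
          div_mul_cancel₀ _ hq.ne']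
        ring
  have hs1 := hslice (p ⬝ᵥ ν) (fc K ν) p l hl hF rfl (fun x => by
    constructor
    · intro hx
      exact ⟨hx.1, fc_const hx hp⟩
    · rintro ⟨hx, hxp⟩
      exact ⟨hx, fun y hy => by rw [hxp]; exact hp.2 y hy⟩)
  have hs2 := hslice (p' ⬝ᵥ ν) (fc K (-ν)) p' l' hl' hF' rfl (fun x => by
    constructor
    · intro hx
      have := fc_const hx hp'
      rw [dotProduct_neg, dotProduct_neg, neg_inj] at this
      exact ⟨hx.1, this⟩
    · rintro ⟨hx, hxp⟩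
      refine ⟨hx, fun y hy => ?_⟩
      have := hp'.2 y hy
      rw [dotProduct_neg, dotProduct_neg] at this ⊢
      rw [hxp]
      exact this)
  set G : Pol 2 := MvPolynomial.C (ν ⬝ᵥ ν) * subst (mat ν) C₁ with hGdef
  have hG : G.IsHomogeneous (d + 1) := by
    have h1 : (subst (mat ν) C₁).IsHomogeneous (d + 1) := by
      have := hC₁.aeval (R := ℝ) (fun i => lin fun j => mat ν j i) (n := 1) fun i => lin_hom _
      rwa [one_mul] at this
    exact h1.C_mul _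
  have hCG : subst (mat ν) C = X 1 * G := by
    rw [hCC, map_mul, subst_lin, hGdef]; ring
  have hRM : IsHom d (f (|(mat ν).det| • R)) := by
    apply hf5
    intro a
    rw [AddMonoidAlgebra.coeff_smul_apply, MvPolynomial.smul_eq_C_mul]
    exact (hR a).C_mul _
  have hco := coord hbM hTM hRM hG hCG (h := p ⬝ᵥ ν) (h' := p' ⬝ᵥ ν)
    (by
      rintro _ ⟨x, hx, rfl⟩
      simp only [mat_zero]
      exact hp.2 x hx)
    ⟨_, ⟨p, hp.1, rfl⟩, mat_zero _ _⟩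
    (by
      rintro _ ⟨x, hx, rfl⟩
      simp only [mat_zero]
      have := hp'.2 x hx
      rw [dotProduct_neg, dotProduct_neg] at this
      linarith)
    ⟨_, ⟨p', hp'.1, rfl⟩, mat_zero _ _⟩
    (a := p ⬝ᵥ rot ν) (b := (p + l • rot ν) ⬝ᵥ rot ν) (a' := p' ⬝ᵥ rot ν)
    (b' := (p' + l' • rot ν) ⬝ᵥ rot ν)
    (by rw [add_dotProduct, smul_dotProduct, rot_dot_rot, smul_eq_mul]; nlinarith)
    (by rw [add_dotProduct, smul_dotProduct, rot_dot_rot, smul_eq_mul]; nlinarith)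
    hs1 hs2
  have hiff : ∀ (a q : Vec 2), (a ⬝ᵥ ν = q ⬝ᵥ ν ∧ a ⬝ᵥ rot ν = q ⬝ᵥ rot ν) ↔ q = a := by
    intro a q
    constructor
    · rintro ⟨h1, h2⟩
      exact (eq_of_dot hν h1 h2).symm
    · rintro rfl
      exact ⟨rfl, rfl⟩
  have hpl : (p + l • rot ν) ⬝ᵥ ν = p ⬝ᵥ ν := by
    rw [add_dotProduct, smul_dotProduct, rot_dot, smul_zero, add_zero]
  have hpl' : (p' + l' • rot ν) ⬝ᵥ ν = p' ⬝ᵥ ν := by
    rw [add_dotProduct, smul_dotProduct, rot_dot, smul_zero, add_zero]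
  have hI : ∀ (a q : Vec 2), (if q = a then (1 : ℝ) else 0) =
      if a ⬝ᵥ ν = q ⬝ᵥ ν then (if a ⬝ᵥ rot ν = q ⬝ᵥ rot ν then 1 else 0) else 0 := by
    intro a q
    rw [← ite_and]
    exact if_congr (hiff a q).symm rfl rfl
  apply AddMonoidAlgebra.coeff_injective
  ext1 a
  rw [coeff_evAt]
  have h1 := hco (mat ν *ᵥ a)
  rw [hf1, eval_subst, vecMul_mat, AddMonoidAlgebra.coeff_smul_apply, MvPolynomial.smul_eval,
    mat_zero, mat_one, hGdef, map_mul, eval_C, eval_subst, vecMul_mat, hdetabs, mul_assoc] at h1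
  have h2 := mul_left_cancel₀ hq.ne' h1
  rw [h2, AddMonoidAlgebra.coeff_smul_apply, smul_eq_mul]
  congr 1
  simp only [AddMonoidAlgebra.coeff_add, AddMonoidAlgebra.coeff_sub, Finsupp.add_apply,
    Finsupp.sub_apply, AddMonoidAlgebra.coeff_single, Finsupp.single_apply]
  rw [hI a (p + l • rot ν), hI a p, hI a (p' + l' • rot ν), hI a p', hpl, hpl']
  by_cases e1 : a ⬝ᵥ ν = p ⬝ᵥ ν <;> by_cases e2 : a ⬝ᵥ ν = p' ⬝ᵥ ν
  · rw [if_pos e1, if_pos e2, if_pos e1, if_pos e1, if_pos e2, if_pos e2]; ring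
  · rw [if_pos e1, if_neg e2, if_pos e1, if_pos e1, if_neg e2, if_neg e2]; ring
  · rw [if_neg e1, if_pos e2, if_neg e1, if_neg e1, if_pos e2, if_pos e2]; ring
  · rw [if_neg e1, if_neg e2, if_neg e1, if_neg e1, if_neg e2, if_neg e2]; ring

end PD
end Pool.Agent.Covg
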