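import Pool.Agent.Work.MP_177351_gt.PD3

/-!
# Module PlanarData, part 4: the factors reach both extreme heights
-/

set_option autoImplicit false

open MeasureTheory MvPolynomial Set Filter Topology
open scoped Pointwise Matrix

namespace Pool.Agent.Covg
namespace PD

/-- derivative of a polynomial along a line -/
theorem hasDeriv_pol (w u : Vec 2) (M : Pol 2) :
    HasDerivAt (fun s : ℝ => MvPolynomial.eval (w + s • u) M)
      (u 0 * MvPolynomial.eval w (pderiv 0 M) + u 1 * MvPolynomial.eval w (pderiv 1 M)) 0 := by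
  induction M using MvPolynomial.induction_on with
  | C a => simpa using hasDerivAt_const (0 : ℝ) a
  | add p q hp hq =>
    simp only [map_add]
    refine (hp.fun_add hq).congr_deriv ?_
    ring
  | mul_X p i hp =>
    have hx : HasDerivAt (fun s : ℝ => MvPolynomial.eval (w + s • u) (X i : Pol 2)) (u i) 0 := by
      simp only [eval_X, Pi.add_apply, Pi.smul_apply, smul_eq_mul]
      have := ((hasDerivAt_id (0 : ℝ)).mul_const (u i)).const_add (w i)
      simpa using this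
    simp only [map_mul]
    refine (hp.fun_mul hx).congr_deriv ?_
    simp only [Derivation.leibniz, smul_eq_mul, map_add, map_mul, eval_X, zero_smul, add_zero]
    fin_cases i
    · simp [pderiv_X]; ring
    · simp [pderiv_X]; ring

/-- the derivative of an exponential polynomial in the direction `u` -/
noncomputable def der (u : Vec 2) (P : EA 2) : EA 2 :=
  ∑ a ∈ P.coeff.support, AddMonoidAlgebra.single a
    (MvPolynomial.C (u 0) * pderiv 0 (P.coeff a) + MvPolynomial.C (u 1) * pderiv 1 (P.coeff a) +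
      MvPolynomial.C (a ⬝ᵥ u) * P.coeff a)

theorem hasDeriv_ev (w u : Vec 2) (P : EA 2) :
    HasDerivAt (fun s : ℝ => ev (w + s • u) P) (ev w (der u P)) 0 := by
  have h : ∀ a ∈ P.coeff.support, HasDerivAt (fun s : ℝ =>
      MvPolynomial.eval (w + s • u) (P.coeff a) * Real.exp (a ⬝ᵥ (w + s • u)))
      (ev w (AddMonoidAlgebra.single a
    (MvPolynomial.C (u 0) * pderiv 0 (P.coeff a) + MvPolynomial.C (u 1) * pderiv 1 (P.coeff a) +
      MvPolynomial.C (a ⬝ᵥ u) * P.coeff a))) 0 := by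
    intro a _
    have h1 : HasDerivAt (fun s : ℝ => Real.exp (a ⬝ᵥ (w + s • u)))
        (Real.exp (a ⬝ᵥ w) * (a ⬝ᵥ u)) 0 := by
      have h2 : HasDerivAt (fun s : ℝ => a ⬝ᵥ (w + s • u)) (a ⬝ᵥ u) 0 := by
        have := ((hasDerivAt_id (0 : ℝ)).mul_const (a ⬝ᵥ u)).const_add (a ⬝ᵥ w)
        simp only [id, one_mul] at this
        simpa [dotProduct_add, dotProduct_smul] using this
      have h3 := h2.exp
      simpa using h3
    refine ((hasDeriv_pol w u (P.coeff a)).fun_mul h1).congr_deriv ?_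
    rw [ev_single']
    simp only [map_add, map_mul, eval_C, zero_smul, add_zero]
    ring
  have h5 := HasDerivAt.fun_sum h
  rw [← map_sum] at h5
  have h6 : (fun s : ℝ => ev (w + s • u) P) = fun s : ℝ => ∑ a ∈ P.coeff.support,
      MvPolynomial.eval (w + s • u) (P.coeff a) * Real.exp (a ⬝ᵥ (w + s • u)) := by
    funext s
    rw [ev_apply]
  rw [h6]
  exact h5

theorem ev1_bound {F : E1} {c : ℝ} (hc : ∀ b ∈ F.coeff.support, b ≤ c) :
    ∃ (A : ℝ) (q : ℕ), 0 ≤ A ∧ ∀ᶠ t : ℝ in atTop, |ev1 t F| ≤ A * t ^ q * Real.exp (c * t) := by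
  have h1 := ev1_tendsto hc _ le_rfl
  set L := (F.coeff c).coeff (F.coeff c).natDegree
  refine ⟨|L| + 1, (F.coeff c).natDegree, by positivity, ?_⟩
  have h2 := h1.abs
  have h3 : ∀ᶠ t : ℝ in atTop, |ev1 t F * Real.exp (-c * t) / t ^ (F.coeff c).natDegree| <
    |L| + 1 := h2.eventually_lt_const (by linarith)
  filter_upwards [h3, eventually_gt_atTop 0] with t ht ht0
  have ht' : (0 : ℝ) < t ^ (F.coeff c).natDegree := by positivity
  rw [abs_div, abs_mul, Real.abs_exp, abs_of_pos ht', div_lt_iff₀ ht'] at ht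
  have h4 : |ev1 t F| = |ev1 t F| * Real.exp (-c * t) * Real.exp (c * t) := by
    rw [mul_assoc, ← Real.exp_add]
    simp
  rw [h4]
  exact mul_le_mul_of_nonneg_right ht.le (Real.exp_pos _).le

theorem mem_support_line {ν : Vec 2} {P : EA 2} {c : ℝ} (hc : c ∈ (line 0 ν P).coeff.support) :
    ∃ a ∈ P.coeff.support, a ⬝ᵥ ν = c ∧ linePol 0 ν (P.coeff a) ≠ 0 := by
  classical
  have h1 : line 0 ν P = ∑ a ∈ P.coeff.support, AddMonoidAlgebra.single (a ⬝ᵥ ν)
      (linePol 0 ν (P.coeff a) * Polynomial.C (Real.exp (a ⬝ᵥ 0))) := by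
    conv_lhs => rw [← AddMonoidAlgebra.sum_coeff_single P, Finsupp.sum, map_sum]
    exact Finset.sum_congr rfl fun a _ => line_single 0 ν a _
  rw [h1, Finsupp.mem_support_iff, coeff_sum_single_top] at hc
  obtain ⟨a, ha, ha'⟩ := Finset.exists_ne_zero_of_sum_ne_zero hc
  rw [Finset.mem_filter] at ha
  exact ⟨a, ha.1, ha.2, left_ne_zero_of_mul ha'⟩

theorem support_der_subset (u : Vec 2) (P : EA 2) : (der u P).coeff.support ⊆ P.coeff.support := by
  classical
  intro a ha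
  rw [Finsupp.mem_support_iff, der, AddMonoidAlgebra.coeff_sum, Finsupp.finsetSum_apply] at ha
  obtain ⟨b, hb, hb'⟩ := Finset.exists_ne_zero_of_sum_ne_zero ha
  rw [AddMonoidAlgebra.coeff_single, Finsupp.single_apply] at hb'
  by_cases h : b = a
  · rw [← h]; exact hb
  · rw [if_neg h] at hb'; exact absurd rfl hb'

theorem hasDeriv_mul_self {g : ℝ → ℝ} (hg : ContinuousAt g 0) :
    HasDerivAt (fun s : ℝ => s * g s) (g 0) 0 := by
  rw [hasDerivAt_iff_tendsto_slope]
  have h1 : Tendsto g (𝓝[≠] 0) (𝓝 (g 0)) := hg.tendsto.mono_left nhdsWithin_le_nhds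
  refine h1.congr' ?_
  filter_upwards [self_mem_nhdsWithin] with s hs
  have : s ≠ 0 := hs
  rw [slope_def_field]
  field_simp
  ring

theorem full_aux {K : Set (Vec 2)} {C C₁ : Pol 2} {P Q : EA 2} (hb : Body K)
    (hT : TrC K C (P * Q)) (hP : P ≠ 0) (hQ : Q ≠ 0) {dQ k : ℕ} (hhQ : IsHom dQ Q) {ν : Vec 2}
    (hν : ν ≠ 0) (hCC : C = lin (rot ν) * C₁) (hC₁ : C₁.IsHomogeneous k)
    (hC₁ν : MvPolynomial.eval ν C₁ ≠ 0) (h0 : ∀ t : ℝ, ev (t • ν) P = 0) :
    ∃ a ∈ (evAt ν Q).coeff.support, ∀ b ∈ Q.coeff.support, b ⬝ᵥ ν ≤ a ⬝ᵥ ν := by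
  have hKn : K.Nonempty := hb.int.mono interior_subset
  obtain ⟨x₀, hx₀⟩ := fc_nonempty hb.comp hKn ν
  have hq := dot_self_pos hν
  -- the first order identity
  have hid : ∀ t : ℝ, ev (t • ν) (der (rot ν) P) * ev (t • ν) Q =
      (ν ⬝ᵥ ν) * (t ^ k * MvPolynomial.eval ν C₁) * lap K (t • ν) := by
    intro t
    have e1 := (hasDeriv_ev (t • ν) (rot ν) P).mul (hasDeriv_ev (t • ν) (rot ν) Q)
    simp only [zero_smul, add_zero] at e1
    rw [h0 t, zero_mul, add_zero] at e1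
    let g : ℝ → ℝ := fun s => (ν ⬝ᵥ ν) * MvPolynomial.eval (t • ν + s • rot ν) C₁ *
      lap K (t • ν + s • rot ν)
    have hg : Continuous g := by
      have hl : Continuous fun s : ℝ => t • ν + s • rot ν := by fun_prop
      exact (continuous_const.mul ((MvPolynomial.continuous_eval C₁).comp hl)).mul
        ((continuous_lap hb.comp).comp hl)
    have e2 := hasDeriv_mul_self hg.continuousAt
    have e3 : (fun s : ℝ => s * g s) = fun s => ev (t • ν + s • rot ν) P *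
        ev (t • ν + s • rot ν) Q := by
      funext s
      rw [← map_mul, hT.eq, hCC, map_mul, eval_lin_top, dotProduct_add, dotProduct_smul,
        dotProduct_smul, rot_dot, rot_dot_rot, smul_zero, zero_add, smul_eq_mul]
      simp only [g]
      ring
    rw [e3] at e2
    have e4 := HasDerivAt.unique e1 e2
    rw [e4]
    simp only [g, zero_smul, add_zero]
    rw [eval_smul_hom hC₁]
  -- the two one-variable exponential polynomials
  set FP := line 0 ν (der (rot ν) P) with hFP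
  set FQ := line 0 ν Q with hFQ
  have hev : ∀ (t : ℝ) (S : EA 2), ev1 t (line 0 ν S) = ev (t • ν) S := by
    intro t S
    rw [ev1_line, zero_add]
  have hFQ0 : FQ ≠ 0 := by
    intro h
    have h1 := hid 1
    rw [← hev 1 Q, ← hFQ, h, map_zero, mul_zero] at h1
    have h2 := lap_pos hb ((1 : ℝ) • ν)
    have h3 : (ν ⬝ᵥ ν) * (1 ^ k * MvPolynomial.eval ν C₁) * lap K ((1 : ℝ) • ν) ≠ 0 := by
      rw [one_pow, one_mul]
      exact mul_ne_zero (mul_ne_zero hq.ne' hC₁ν) h2.ne'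
    exact h3 h1.symm
  obtain ⟨amax, hamax, hamax'⟩ := Finset.exists_max_image P.coeff.support (fun a => a ⬝ᵥ ν)
    (ne_zero_iff_support.1 hP)
  obtain ⟨bmax, hbmax, hbmax'⟩ := Finset.exists_max_image Q.coeff.support (fun a => a ⬝ᵥ ν)
    (ne_zero_iff_support.1 hQ)
  obtain ⟨cQ, -, -, hcQ, hcQ', -⟩ := ev1_lead hFQ0
  obtain ⟨b₀, hb₀, hb₀c, hb₀'⟩ := mem_support_line hcQ
  have hFPle : ∀ c ∈ FP.coeff.support, c ≤ amax ⬝ᵥ ν := by
    intro c hc
    obtain ⟨a, ha, rfl, -⟩ := mem_support_line hc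
    exact hamax' a (support_der_subset _ _ ha)
  obtain ⟨A, q, hA, hAq⟩ := ev1_bound hFPle
  obtain ⟨A', q', hA', hAq'⟩ := ev1_bound hcQ'
  obtain ⟨c, hc, hclap⟩ := lap_ge hb 0 ν hx₀.1
  have hκ : 0 < (ν ⬝ᵥ ν) * |MvPolynomial.eval ν C₁| * c := by positivity
  have hsum : Nw P + Nw Q = K := by rw [← Nw_mul hP hQ, Nw_eq hb hT]
  have hKle : x₀ ⬝ᵥ ν ≤ amax ⬝ᵥ ν + cQ := by
    have h1 := ev1_exponent_le (F := AddMonoidAlgebra.single (x₀ ⬝ᵥ ν) 1) (c := amax ⬝ᵥ ν + cQ)
      (q + q' + 2) (A * A' / ((ν ⬝ᵥ ν) * |MvPolynomial.eval ν C₁| * c)) ?_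
    · apply h1
      rw [Finsupp.mem_support_iff, AddMonoidAlgebra.coeff_single, Finsupp.single_eq_same]
      exact one_ne_zero
    · filter_upwards [hAq, hAq', eventually_ge_atTop 1] with t ht1 ht2 ht
      rw [ev1_single, Polynomial.eval_one, one_mul, Real.abs_exp]
      have h2 := congrArg abs (hid t)
      rw [abs_mul, abs_mul, abs_mul, abs_mul, abs_of_pos hq, abs_of_pos (lap_pos hb _),
        ← hev, ← hev, abs_of_nonneg (show (0 : ℝ) ≤ t ^ k by positivity)] at h2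
      have h3 := hclap t ht
      rw [zero_add] at h3
      have ht0 : (0 : ℝ) < t := by linarith
      have h4 : (1 : ℝ) ≤ t ^ k := one_le_pow₀ ht
      have h5 : |ev1 t FP| * |ev1 t FQ| ≤ (A * t ^ q * Real.exp (amax ⬝ᵥ ν * t)) *
          (A' * t ^ q' * Real.exp (cQ * t)) :=
        mul_le_mul ht1 ht2 (abs_nonneg _) (by positivity)
      have h6 : (ν ⬝ᵥ ν) * |MvPolynomial.eval ν C₁| * (c / t ^ 2 * Real.exp (t * (x₀ ⬝ᵥ ν))) ≤
          |ev1 t FP| * |ev1 t FQ| := by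
        rw [h2]
        calc (ν ⬝ᵥ ν) * |MvPolynomial.eval ν C₁| * (c / t ^ 2 * Real.exp (t * (x₀ ⬝ᵥ ν)))
            ≤ (ν ⬝ᵥ ν) * |MvPolynomial.eval ν C₁| * lap K (t • ν) :=
              mul_le_mul_of_nonneg_left h3 (by positivity)
          _ = (ν ⬝ᵥ ν) * (1 * |MvPolynomial.eval ν C₁|) * lap K (t • ν) := by ring
          _ ≤ _ := by
              have := (lap_pos hb (t • ν)).le
              gcongr
      have h7 := h6.trans h5
      rw [mul_comm (x₀ ⬝ᵥ ν) t]
      have h8 : Real.exp (t * (x₀ ⬝ᵥ ν)) = (ν ⬝ᵥ ν) * |MvPolynomial.eval ν C₁| *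
          (c / t ^ 2 * Real.exp (t * (x₀ ⬝ᵥ ν))) * t ^ 2 /
            ((ν ⬝ᵥ ν) * |MvPolynomial.eval ν C₁| * c) := by
        have : |MvPolynomial.eval ν C₁| ≠ 0 := abs_ne_zero.2 hC₁ν
        field_simp
      rw [h8]
      have h9 : A * A' / ((ν ⬝ᵥ ν) * |MvPolynomial.eval ν C₁| * c) * t ^ (q + q' + 2) *
          Real.exp ((amax ⬝ᵥ ν + cQ) * t) = (A * t ^ q * Real.exp (amax ⬝ᵥ ν * t)) *
          (A' * t ^ q' * Real.exp (cQ * t)) * t ^ 2 /
            ((ν ⬝ᵥ ν) * |MvPolynomial.eval ν C₁| * c) := by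
        rw [add_mul, Real.exp_add, pow_add, pow_add]
        ring
      rw [h9]
      exact div_le_div_of_nonneg_right (mul_le_mul_of_nonneg_right h7 (by positivity)) hκ.le
  have hmem : amax + bmax ∈ K := by
    rw [← hsum]
    exact Set.add_mem_add (subset_Nw P hamax) (subset_Nw Q hbmax)
  have h10 := hx₀.2 _ hmem
  rw [add_dotProduct] at h10
  have h11 : bmax ⬝ᵥ ν ≤ cQ := by linarith
  refine ⟨b₀, ?_, fun b hb => ?_⟩
  · rw [Finsupp.mem_support_iff, coeff_evAt]
    intro h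
    apply hb₀'
    apply Polynomial.funext
    intro t
    rw [eval_linePol, zero_add, eval_smul_hom (hhQ b₀), h, mul_zero, Polynomial.eval_zero]
  · rw [hb₀c]
    exact (hbmax' b hb).trans h11

theorem lin_neg (u : Vec 2) : lin (-u) = -lin u := by
  apply MvPolynomial.funext
  intro z
  rw [eval_lin_top, map_neg, eval_lin_top, neg_dotProduct]

theorem rot_neg (u : Vec 2) : rot (-u) = -rot u := by
  ext i; fin_cases i <;> simp [rot]

theorem full_aux2 {K : Set (Vec 2)} {C C₁ : Pol 2} {P Q : EA 2} (hb : Body K)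
    (hT : TrC K C (P * Q)) (hP : P ≠ 0) (hQ : Q ≠ 0) {dQ k : ℕ} (hhQ : IsHom dQ Q) {ν : Vec 2}
    (hν : ν ≠ 0) (hCC : C = lin (rot ν) * C₁) (hC₁ : C₁.IsHomogeneous k)
    (hC₁ν : MvPolynomial.eval ν C₁ ≠ 0) (h0 : ∀ t : ℝ, ev (t • ν) P = 0) : FullH ν Q := by
  refine ⟨full_aux hb hT hP hQ hhQ hν hCC hC₁ hC₁ν h0, ?_⟩
  have hneg : ∀ {F : Pol 2} {d : ℕ}, F.IsHomogeneous d → MvPolynomial.eval (-ν) F = 0 →
      MvPolynomial.eval ν F = 0 := by
    intro F d hF h
    have h1 := eval_smul_hom hF (-1) (-ν)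
    rw [h, mul_zero] at h1
    simpa using h1
  obtain ⟨a, ha, ha'⟩ := full_aux (C₁ := -C₁) hb hT hP hQ hhQ (neg_ne_zero.2 hν)
    (by rw [hCC, rot_neg, lin_neg]; ring) (hC₁.neg)
    (by
      rw [map_neg, neg_ne_zero]
      exact fun h => hC₁ν (hneg hC₁ h))
    (fun t => by
      have := h0 (-t)
      rwa [neg_smul, ← smul_neg] at this)
  refine ⟨a, ?_, fun b hb => ?_⟩
  · rw [Finsupp.mem_support_iff, coeff_evAt] at ha ⊢
    intro h
    apply ha
    have h1 := eval_smul_hom (hhQ a) (-1) ν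
    rw [h, mul_zero] at h1
    simpa using h1
  · have := ha' b hb
    rw [dotProduct_neg, dotProduct_neg] at this
    linarith

theorem full {K : Set (Vec 2)} {C C₁ : Pol 2} {P Q : EA 2} (hb : Body K)
    (hT : TrC K C (P * Q)) (hP : P ≠ 0) (hQ : Q ≠ 0) {dP dQ k : ℕ} (hhP : IsHom dP P)
    (hhQ : IsHom dQ Q) {ν : Vec 2}
    (hν : ν ≠ 0) (hCC : C = lin (rot ν) * C₁) (hC₁ : C₁.IsHomogeneous k)
    (hC₁ν : MvPolynomial.eval ν C₁ ≠ 0) : FullH ν P ∨ FullH ν Q := by
  have h1 : line 0 ν P * line 0 ν Q = 0 := by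
    apply ev1_inj
    refine Eventually.of_forall fun t => ?_
    rw [← map_mul, ev1_line, zero_add, hT.eq, hCC, map_mul, eval_lin_top, dotProduct_smul, rot_dot,
      smul_zero, zero_mul, zero_mul]
  have hev : ∀ (t : ℝ) (S : EA 2), ev1 t (line 0 ν S) = ev (t • ν) S := by
    intro t S
    rw [ev1_line, zero_add]
  rcases mul_eq_zero.1 h1 with h | h
  · right
    exact full_aux2 hb hT hP hQ hhQ hν hCC hC₁ hC₁ν fun t => by rw [← hev, h, map_zero]
  · left
    rw [mul_comm] at hT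
    exact full_aux2 hb hT hQ hP hhP hν hCC hC₁ hC₁ν fun t => by rw [← hev, h, map_zero]

end PD
end Pool.Agent.Covg
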