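import Pool.Agent.Work.MP_177351_gt.Defs

/-!
# Planar core, algebraic lemmas
-/

set_option autoImplicit false

open MvPolynomial Set
open scoped Matrix

namespace Pool.Agent.Covg

namespace Pc

/-- The extreme values of an additive functional on supports add up. -/
theorem exists_top {R G : Type*} [CommRing R] [NoZeroDivisors R] [AddCommGroup G] [UniqueSums G]
    (f : G →+ ℝ) {p q : AddMonoidAlgebra R G} {c d : ℝ}
    (hc : ∀ a ∈ p.coeff.support, f a ≤ c) (hc' : ∃ a ∈ p.coeff.support, f a = c)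
    (hd : ∀ a ∈ q.coeff.support, f a ≤ d) (hd' : ∃ a ∈ q.coeff.support, f a = d) :
    ∃ m ∈ (p * q).coeff.support, f m = c + d := by
  classical
  obtain ⟨a0, ha0, hb0, hb0', hu⟩ := UniqueSums.uniqueAdd_of_nonempty
    (A := p.coeff.support.filter fun a => f a = c) (B := q.coeff.support.filter fun a => f a = d)
    (by obtain ⟨a, ha, h⟩ := hc'; exact ⟨a, Finset.mem_filter.2 ⟨ha, h⟩⟩)
    (by obtain ⟨a, ha, h⟩ := hd'; exact ⟨a, Finset.mem_filter.2 ⟨ha, h⟩⟩)
  rw [Finset.mem_filter] at ha0 hb0'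
  have hu' : UniqueAdd p.coeff.support q.coeff.support a0 hb0 := by
    intro a b ha hb hab
    have h1 : f a + f b = c + d := by
      rw [← map_add, hab, map_add, ha0.2, hb0'.2]
    have h2 := hc a ha
    have h3 := hd b hb
    exact hu (Finset.mem_filter.2 ⟨ha, by linarith⟩) (Finset.mem_filter.2 ⟨hb, by linarith⟩) hab
  refine ⟨a0 + hb0, ?_, by rw [map_add, ha0.2, hb0'.2]⟩
  rw [Finsupp.mem_support_iff, AddMonoidAlgebra.coeff_mul_add_of_uniqueAdd hu']
  exact mul_ne_zero (Finsupp.mem_support_iff.1 ha0.1) (Finsupp.mem_support_iff.1 hb0'.1)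

theorem exists_add {R G : Type*} [Semiring R] [Add G] {p q : AddMonoidAlgebra R G} {m : G}
    (hm : m ∈ (p * q).coeff.support) :
    ∃ a ∈ p.coeff.support, ∃ b ∈ q.coeff.support, a + b = m := by
  classical
  have := AddMonoidAlgebra.support_coeff_mul_subset p q hm
  exact Finset.mem_add.1 this

theorem mul_max {R G : Type*} [CommRing R] [NoZeroDivisors R] [AddCommGroup G] [UniqueSums G]
    (f : G →+ ℝ) {p q : AddMonoidAlgebra R G} {m a b : G}
    (hm : ∀ m' ∈ (p * q).coeff.support, f m' ≤ f m)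
    (ha : a ∈ p.coeff.support) (hb : b ∈ q.coeff.support) (hab : a + b = m) :
    (∀ a' ∈ p.coeff.support, f a' ≤ f a) ∧ ∀ b' ∈ q.coeff.support, f b' ≤ f b := by
  obtain ⟨a1, ha1, ha1'⟩ := p.coeff.support.exists_max_image f ⟨a, ha⟩
  obtain ⟨b1, hb1, hb1'⟩ := q.coeff.support.exists_max_image f ⟨b, hb⟩
  obtain ⟨m1, hm1, hm1'⟩ := exists_top f ha1' ⟨a1, ha1, rfl⟩ hb1' ⟨b1, hb1, rfl⟩
  have h1 := hm m1 hm1
  rw [hm1', ← hab, map_add] at h1
  have h2 := ha1' a ha
  have h3 := hb1' b hb
  exact ⟨fun a' ha' => by linarith [ha1' a' ha'], fun b' hb' => by linarith [hb1' b' hb']⟩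


/-- The character `a ↦ e^{iθ t(a)} (1 + ε t(a))`. -/
noncomputable def chD {G : Type*} [AddCommGroup G] (t : G →+ ℝ) (θ : ℝ) : Multiplicative G →* DualNumber ℂ where
  toFun a := (TrivSqZeroExt.inl (Complex.exp (Complex.I * θ * t (Multiplicative.toAdd a))) +
    TrivSqZeroExt.inr ((t (Multiplicative.toAdd a) : ℂ) *
      Complex.exp (Complex.I * θ * t (Multiplicative.toAdd a))) : TrivSqZeroExt ℂ ℂ)
  map_one' := by
    ext <;> simp
  map_mul' a b := by
    ext
    · simp [mul_add, Complex.exp_add]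
    · simp [mul_add, Complex.exp_add, add_mul]
      ring

theorem fst_chD {G : Type*} [AddCommGroup G] (t : G →+ ℝ) (θ : ℝ) (a : G) :
    TrivSqZeroExt.fst (chD t θ (Multiplicative.ofAdd a)) = Complex.exp (Complex.I * θ * t a) := by
  simp [chD]

theorem snd_chD {G : Type*} [AddCommGroup G] (t : G →+ ℝ) (θ : ℝ) (a : G) :
    TrivSqZeroExt.snd (chD t θ (Multiplicative.ofAdd a)) =
      t a * Complex.exp (Complex.I * θ * t a) := by
  simp [chD]

/-- `X^a ↦ χ(a) Y^{f a}` -/
noncomputable def phiD {G : Type*} [AddCommGroup G] (f t : G →+ ℝ) (θ : ℝ) :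
    AddMonoidAlgebra ℝ G →ₐ[ℝ] AddMonoidAlgebra (DualNumber ℂ) ℝ :=
  AddMonoidAlgebra.lift ℝ _ G
    { toFun := fun a => AddMonoidAlgebra.single (f (Multiplicative.toAdd a)) (chD t θ a)
      map_one' := by simp [AddMonoidAlgebra.one_def]
      map_mul' := fun a b => by
        rw [AddMonoidAlgebra.single_mul_single, toAdd_mul, map_add, map_mul] }

theorem phiD_single {G : Type*} [AddCommGroup G] (f t : G →+ ℝ) (θ : ℝ) (a : G) (r : ℝ) :
    phiD f t θ (AddMonoidAlgebra.single a r) =
      r • AddMonoidAlgebra.single (f a) (chD t θ (Multiplicative.ofAdd a)) := by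
  unfold phiD
  rw [AddMonoidAlgebra.lift_single]
  rfl

theorem support_phiD {G : Type*} [AddCommGroup G] (f t : G →+ ℝ) (θ : ℝ)
    (p : AddMonoidAlgebra ℝ G) {h : ℝ} (hh : h ∈ (phiD f t θ p).coeff.support) :
    ∃ a ∈ p.coeff.support, f a = h := by
  by_contra hcon
  push Not at hcon
  rw [Finsupp.mem_support_iff] at hh
  apply hh
  unfold phiD
  rw [AddMonoidAlgebra.lift_apply, Finsupp.sum, AddMonoidAlgebra.coeff_sum, Finsupp.finsetSum_apply]
  refine Finset.sum_eq_zero fun a ha => ?_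
  rw [AddMonoidAlgebra.coeff_smul_apply]
  have : f a ≠ h := hcon a ha
  simp [AddMonoidAlgebra.coeff_single, Finsupp.single_apply, this]

theorem len_aux {G : Type*} [AddCommGroup G] [UniqueSums G] (f t : G →+ ℝ)
    {p q : AddMonoidAlgebra ℝ G} {x x' y y' : G} {c l l' : ℝ} (hc : c ≠ 0)
    (hl' : 0 < l') (hll : l' < l)
    (e : p * q = c • (AddMonoidAlgebra.single y 1 - AddMonoidAlgebra.single x 1 -
      AddMonoidAlgebra.single y' 1 + AddMonoidAlgebra.single x' 1))
    (hy : f y = f x) (hy' : f y' = f x') (hty : t y = t x + l) (hty' : t y' = t x' + l')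
    (hf : f x' < f x) (hp : ∃ a ∈ p.coeff.support, ∃ b ∈ p.coeff.support, f a ≠ f b)
    (hq : ∃ a ∈ q.coeff.support, ∃ b ∈ q.coeff.support, f a ≠ f b) : False := by
  classical
  have hl : 0 < l := hl'.trans hll
  set θ : ℝ := 2 * Real.pi / l with hθ
  -- extreme elements
  obtain ⟨a₁, ha₁, hpa⟩ : ∃ a₁ ∈ p.coeff.support, ∀ a ∈ p.coeff.support, f a ≤ f a₁ := by
    obtain ⟨a, ha, -⟩ := hp
    exact p.coeff.support.exists_max_image f ⟨a, ha⟩
  obtain ⟨a₀, ha₀, hpa'⟩ : ∃ a₀ ∈ p.coeff.support, ∀ a ∈ p.coeff.support, f a₀ ≤ f a := by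
    obtain ⟨a, ha, -⟩ := hp
    exact p.coeff.support.exists_min_image f ⟨a, ha⟩
  obtain ⟨b₁, hb₁, hqb⟩ : ∃ a₁ ∈ q.coeff.support, ∀ a ∈ q.coeff.support, f a ≤ f a₁ := by
    obtain ⟨a, ha, -⟩ := hq
    exact q.coeff.support.exists_max_image f ⟨a, ha⟩
  obtain ⟨b₀, hb₀, hqb'⟩ : ∃ a₁ ∈ q.coeff.support, ∀ a ∈ q.coeff.support, f a₁ ≤ f a := by
    obtain ⟨a, ha, -⟩ := hq
    exact q.coeff.support.exists_min_image f ⟨a, ha⟩
  have hpa01 : f a₀ < f a₁ := by
    obtain ⟨a, ha, b, hb, hab⟩ := hp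
    rcases lt_or_gt_of_ne hab with h | h
    · linarith [hpa b hb, hpa' a ha]
    · linarith [hpa a ha, hpa' b hb]
  have hqb01 : f b₀ < f b₁ := by
    obtain ⟨a, ha, b, hb, hab⟩ := hq
    rcases lt_or_gt_of_ne hab with h | h
    · linarith [hqb b hb, hqb' a ha]
    · linarith [hqb a ha, hqb' b hb]
  -- heights in the product
  have hsup : ∀ m ∈ (p * q).coeff.support, f m = f x ∨ f m = f x' := by
    intro m hm
    rw [Finsupp.mem_support_iff, e, AddMonoidAlgebra.coeff_smul_apply] at hm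
    by_contra hcon
    push Not at hcon
    have h1 : y ≠ m := fun h => hcon.1 (by rw [← h, hy])
    have h2 : x ≠ m := fun h => hcon.1 (by rw [← h])
    have h3 : y' ≠ m := fun h => hcon.2 (by rw [← h, hy'])
    have h4 : x' ≠ m := fun h => hcon.2 (by rw [← h])
    apply hm
    simp [AddMonoidAlgebra.coeff_single, Finsupp.single_apply, h1, h2, h3, h4]
  obtain ⟨m₁, hm₁, hm₁'⟩ := exists_top f hpa ⟨a₁, ha₁, rfl⟩ hqb ⟨b₁, hb₁, rfl⟩
  obtain ⟨m₀, hm₀, hm₀'⟩ := exists_top (-f) (p := p) (q := q) (c := - f a₀) (d := - f b₀)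
    (fun a ha => by simpa using hpa' a ha) ⟨a₀, ha₀, rfl⟩ (fun a ha => by simpa using hqb' a ha)
    ⟨b₀, hb₀, rfl⟩
  have hm₀'' : f m₀ = f a₀ + f b₀ := by
    have : -(f m₀) = - f a₀ + - f b₀ := hm₀'
    linarith
  have hlt : f m₀ < f m₁ := by linarith
  have ht1 : f m₁ = f x := by
    rcases hsup m₁ hm₁ with h | h
    · exact h
    · rcases hsup m₀ hm₀ with h' | h' <;> linarith
  have ht0 : f m₀ = f x' := by
    rcases hsup m₀ hm₀ with h | h
    · linarith
    · exact h
  -- the dual number images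
  have e' : phiD f t θ p * phiD f t θ q = (c : ℝ) • (AddMonoidAlgebra.single (f x)
      (chD t θ (Multiplicative.ofAdd y) - chD t θ (Multiplicative.ofAdd x)) -
      AddMonoidAlgebra.single (f x')
      (chD t θ (Multiplicative.ofAdd y') - chD t θ (Multiplicative.ofAdd x'))) := by
    rw [← map_mul, e, map_smul, map_add, map_sub, map_sub]
    simp only [phiD_single, one_smul, hy, hy']
    have hs : ∀ (h : ℝ) (α β : DualNumber ℂ), AddMonoidAlgebra.single h (α - β) =
        AddMonoidAlgebra.single h α - AddMonoidAlgebra.single h β :=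
      fun h α β => map_sub (AddMonoidAlgebra.singleAddHom h) α β
    rw [hs, hs]
    congr 1
    abel
  set Φp := phiD f t θ p with hΦp
  set Φq := phiD f t θ q with hΦq
  have hbp : ∀ h ∈ Φp.coeff.support, f a₀ ≤ h ∧ h ≤ f a₁ := by
    intro h hh
    obtain ⟨a, ha, rfl⟩ := support_phiD f t θ p hh
    exact ⟨hpa' a ha, hpa a ha⟩
  have hbq : ∀ h ∈ Φq.coeff.support, f b₀ ≤ h ∧ h ≤ f b₁ := by
    intro h hh
    obtain ⟨a, ha, rfl⟩ := support_phiD f t θ q hh
    exact ⟨hqb' a ha, hqb a ha⟩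
  -- top coefficient of the product
  have htop : (Φp * Φq).coeff (f a₁ + f b₁) = Φp.coeff (f a₁) * Φq.coeff (f b₁) := by
    apply AddMonoidAlgebra.coeff_mul_add_of_uniqueAdd
    intro a b ha hb hab
    have h1 := (hbp a ha).2
    have h2 := (hbq b hb).2
    constructor <;> linarith
  have htop' : Φp.coeff (f a₁) * Φq.coeff (f b₁) =
      c • (chD t θ (Multiplicative.ofAdd y) - chD t θ (Multiplicative.ofAdd x)) := by
    rw [← htop, e', ← hm₁', ht1, AddMonoidAlgebra.coeff_smul_apply]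
    have : f x' ≠ f x := hf.ne
    simp [AddMonoidAlgebra.coeff_single, Finsupp.single_apply, this]
  -- reduction modulo ε
  let ρ : AddMonoidAlgebra (DualNumber ℂ) ℝ →+* AddMonoidAlgebra ℂ ℝ :=
    AddMonoidAlgebra.mapRingHom ℝ (TrivSqZeroExt.fstHom ℂ ℂ ℂ).toRingHom
  have hρ : ∀ (F : AddMonoidAlgebra (DualNumber ℂ) ℝ) (h : ℝ),
      (ρ F).coeff h = TrivSqZeroExt.fst (F.coeff h) := by
    intro F h
    simp only [ρ]
    rw [AddMonoidAlgebra.coeff_mapRingHom]
    rfl
  have hρsupp : ∀ F h, h ∈ (ρ F).coeff.support → h ∈ F.coeff.support := by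
    intro F h hh
    rw [Finsupp.mem_support_iff] at hh ⊢
    intro h0
    apply hh
    rw [hρ, h0]
    rfl
  have hexp1 : Complex.exp (Complex.I * θ * (l : ℂ)) = 1 := by
    have : Complex.I * (θ : ℂ) * (l : ℂ) = 2 * Real.pi * Complex.I := by
      rw [hθ]
      have : (l : ℂ) ≠ 0 := by exact_mod_cast hl.ne'
      push_cast
      field_simp
    rw [this, Complex.exp_two_pi_mul_I]
  have hexp2 : Complex.exp (Complex.I * θ * (l' : ℂ)) ≠ 1 := by
    intro h
    rw [Complex.exp_eq_one_iff] at h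
    obtain ⟨n, hn⟩ := h
    have h1 : θ * l' = n * (2 * Real.pi) := by
      have := congrArg Complex.im hn
      simpa using this
    have h2 : l' = n * l := by
      rw [hθ] at h1
      have h3 := Real.pi_pos
      field_simp at h1
      linarith
    have h3 : (0 : ℝ) < n := by
      by_contra hcon
      push Not at hcon
      nlinarith
    have h4 : (n : ℝ) < 1 := by
      by_contra hcon
      push Not at hcon
      nlinarith
    have h5 : (0 : ℤ) < n := by exact_mod_cast h3
    have h6 : n < (1 : ℤ) := by exact_mod_cast h4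
    omega
  have hred : ρ Φp * ρ Φq = AddMonoidAlgebra.single (f x')
      (-(c : ℂ) * (Complex.exp (Complex.I * θ * t y') - Complex.exp (Complex.I * θ * t x'))) := by
    rw [← map_mul, e']
    ext h
    rw [hρ, AddMonoidAlgebra.coeff_smul_apply, AddMonoidAlgebra.coeff_sub, Finsupp.sub_apply,
      AddMonoidAlgebra.coeff_single, AddMonoidAlgebra.coeff_single, AddMonoidAlgebra.coeff_single,
      Finsupp.single_apply, Finsupp.single_apply, Finsupp.single_apply]
    have hz : TrivSqZeroExt.fst (chD t θ (Multiplicative.ofAdd y) -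
        chD t θ (Multiplicative.ofAdd x)) = 0 := by
      rw [TrivSqZeroExt.fst_sub, fst_chD, fst_chD, hty]
      push_cast
      rw [mul_add, Complex.exp_add, hexp1, mul_one, sub_self]
    split_ifs with h1 h2 h2
    · linarith
    · rw [sub_zero, TrivSqZeroExt.fst_smul, hz, smul_zero]
    · rw [zero_sub, TrivSqZeroExt.fst_smul, TrivSqZeroExt.fst_neg, TrivSqZeroExt.fst_sub, fst_chD,
        fst_chD]
      rw [Complex.real_smul]
      ring
    · rw [sub_zero, smul_zero]
      rfl
  have hne : (-(c : ℂ) * (Complex.exp (Complex.I * θ * t y') -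
      Complex.exp (Complex.I * θ * t x'))) ≠ 0 := by
    refine mul_ne_zero (neg_ne_zero.2 (by exact_mod_cast hc)) ?_
    rw [hty']
    push_cast
    rw [mul_add, Complex.exp_add, ← mul_sub_one]
    exact mul_ne_zero (Complex.exp_ne_zero _) (sub_ne_zero.2 hexp2)
  have hρp : ρ Φp ≠ 0 := by
    intro h
    rw [h, zero_mul] at hred
    exact AddMonoidAlgebra.single_ne_zero.2 hne hred.symm
  have hρq : ρ Φq ≠ 0 := by
    intro h
    rw [h, mul_zero] at hred
    exact AddMonoidAlgebra.single_ne_zero.2 hne hred.symm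
  have hnep : (ρ Φp).coeff.support.Nonempty := by
    rw [Finsupp.support_nonempty_iff]
    simpa using hρp
  have hneq : (ρ Φq).coeff.support.Nonempty := by
    rw [Finsupp.support_nonempty_iff]
    simpa using hρq
  obtain ⟨M, hM, hMmax⟩ := (ρ Φp).coeff.support.exists_max_image id hnep
  obtain ⟨N, hN, hNmax⟩ := (ρ Φq).coeff.support.exists_max_image id hneq
  obtain ⟨m, hm, hm'⟩ := exists_top (AddMonoidHom.id ℝ) (p := ρ Φp) (q := ρ Φq) (c := M) (d := N)
    hMmax ⟨M, hM, rfl⟩ hNmax ⟨N, hN, rfl⟩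
  have hmx : m = f x' := by
    rw [hred] at hm
    rw [Finsupp.mem_support_iff, AddMonoidAlgebra.coeff_single, Finsupp.single_apply] at hm
    by_contra hcon
    exact hm (if_neg fun h => hcon h.symm)
  have hMN : M + N = f a₀ + f b₀ := by
    have : m = M + N := hm'
    rw [← this, hmx, ← ht0, hm₀'']
  have h1 := (hbp M (hρsupp _ _ hM)).1
  have h2 := (hbq N (hρsupp _ _ hN)).1
  have hM1 : M < f a₁ := by linarith
  have hN1 : N < f b₁ := by linarith
  have hz1 : TrivSqZeroExt.fst (Φp.coeff (f a₁)) = 0 := by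
    rw [← hρ]
    by_contra hcon
    have := hMmax (f a₁) (Finsupp.mem_support_iff.2 hcon)
    simp only [id] at this
    linarith
  have hz2 : TrivSqZeroExt.fst (Φq.coeff (f b₁)) = 0 := by
    rw [← hρ]
    by_contra hcon
    have := hNmax (f b₁) (Finsupp.mem_support_iff.2 hcon)
    simp only [id] at this
    linarith
  have hsnd := congrArg TrivSqZeroExt.snd htop'
  rw [TrivSqZeroExt.snd_mul, hz1, hz2, TrivSqZeroExt.snd_smul, TrivSqZeroExt.snd_sub, snd_chD,
    snd_chD, hty] at hsnd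
  push_cast at hsnd
  rw [mul_add, Complex.exp_add, hexp1] at hsnd
  have hfin : (c : ℂ) * ((l : ℂ) * Complex.exp (Complex.I * θ * t x)) = 0 := by
    rw [Complex.real_smul] at hsnd
    have h0 : (0 : ℂ) • TrivSqZeroExt.snd (Φq.coeff (f b₁)) +
      MulOpposite.op (0 : ℂ) • TrivSqZeroExt.snd (Φp.coeff (f a₁)) = 0 := by simp
    rw [h0] at hsnd
    rw [hsnd]
    ring
  have hlC : (l : ℂ) ≠ 0 := by exact_mod_cast hl.ne'
  have hcC : (c : ℂ) ≠ 0 := by exact_mod_cast hc
  exact mul_ne_zero hcC (mul_ne_zero hlC (Complex.exp_ne_zero _)) hfin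

theorem len_eq {G : Type*} [AddCommGroup G] [UniqueSums G] (f t : G →+ ℝ)
    {p q : AddMonoidAlgebra ℝ G} {x x' y y' : G} {c l l' : ℝ} (hc : c ≠ 0) (hl : 0 < l)
    (hl' : 0 < l')
    (e : p * q = c • (AddMonoidAlgebra.single y 1 - AddMonoidAlgebra.single x 1 -
      AddMonoidAlgebra.single y' 1 + AddMonoidAlgebra.single x' 1))
    (hy : f y = f x) (hy' : f y' = f x') (hty : t y = t x + l) (hty' : t y' = t x' + l')
    (hf : f x' < f x) (hp : ∃ a ∈ p.coeff.support, ∃ b ∈ p.coeff.support, f a ≠ f b)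
    (hq : ∃ a ∈ q.coeff.support, ∃ b ∈ q.coeff.support, f a ≠ f b) : l = l' := by
  rcases lt_trichotomy l l' with h | h | h
  · exfalso
    refine len_aux (-f) t (p := p) (q := q) (x := x') (x' := x) (y := y') (y' := y) (c := -c)
      (neg_ne_zero.2 hc) hl h ?_ ?_ ?_ hty' hty ?_ ?_ ?_
    · rw [e, neg_smul, ← smul_neg]
      congr 1
      abel
    · simpa using hy'
    · simpa using hy
    · simpa using hf
    · obtain ⟨a, ha, b, hb, hab⟩ := hp
      exact ⟨a, ha, b, hb, by simpa using hab⟩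
    · obtain ⟨a, ha, b, hb, hab⟩ := hq
      exact ⟨a, ha, b, hb, by simpa using hab⟩
  · exact h
  · exact (len_aux f t hc hl' h e hy hy' hty hty' hf hp hq).elim


theorem eval_smul_hom {n d : ℕ} {F : Pol n} (hF : F.IsHomogeneous d) (c : ℝ) (v : Vec n) :
    eval (c • v) F = c ^ d * eval v F := by
  rw [eval_eq', eval_eq', Finset.mul_sum]
  refine Finset.sum_congr rfl fun m hm => ?_
  have h1 : ∑ i, m i = d := by
    have := hF (mem_support_iff.1 hm)
    rw [← this, Finsupp.weight_apply]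
    simp [Finsupp.sum_fintype]
  simp only [Pi.smul_apply, smul_eq_mul, mul_pow, Finset.prod_mul_distrib,
    Finset.prod_pow_eq_pow_sum, h1]
  ring

theorem dot2 (x y : Vec 2) : x ⬝ᵥ y = x 0 * y 0 + x 1 * y 1 := by
  simp [dotProduct, Fin.sum_univ_two]

@[simp] theorem rot0 (x : Vec 2) : rot x 0 = -x 1 := rfl
@[simp] theorem rot1 (x : Vec 2) : rot x 1 = x 0 := rfl

theorem indep_iff {x y : Vec 2} : LinearIndependent ℝ ![x, y] ↔ x 0 * y 1 - x 1 * y 0 ≠ 0 := by
  rw [LinearIndependent.pair_iff]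
  constructor
  · intro h h0
    have h1 := h (y 1) (-x 1) (by
      ext i; fin_cases i <;> simp <;> linarith)
    have h2 := h (y 0) (-x 0) (by
      ext i; fin_cases i <;> simp <;> linarith)
    have h3 := h 1 1
    have h4 : x = 0 := by
      ext i; fin_cases i <;> simp <;> linarith [h1.2, h2.2]
    have := h 1 0 (by simp [h4])
    exact one_ne_zero this.1
  · intro h s t hst
    have h0 := congrFun hst 0
    have h1 := congrFun hst 1
    simp only [Pi.add_apply, Pi.smul_apply, smul_eq_mul, Pi.zero_apply] at h0 h1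
    constructor
    · have : s * (x 0 * y 1 - x 1 * y 0) = 0 := by linear_combination y 1 * h0 - y 0 * h1
      exact (mul_eq_zero.1 this).resolve_right h
    · have : t * (x 0 * y 1 - x 1 * y 0) = 0 := by linear_combination x 0 * h1 - x 1 * h0
      exact (mul_eq_zero.1 this).resolve_right h

theorem ne_zero_sq {x : Vec 2} (h : x ≠ 0) : 0 < x 0 * x 0 + x 1 * x 1 := by
  by_contra hcon
  apply h
  have h0 : x 0 = 0 := by nlinarith [mul_self_nonneg (x 0), mul_self_nonneg (x 1)]
  have h1 : x 1 = 0 := by nlinarith [mul_self_nonneg (x 0), mul_self_nonneg (x 1)]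
  ext i; fin_cases i <;> simp [h0, h1]

/-- A binary form of degree `d` vanishes in at most `d` directions. -/
theorem form_roots {F : Pol 2} {d : ℕ} (hF : F.IsHomogeneous d) (h0 : F ≠ 0)
    {Z : Finset (Vec 2)} (hZ : ∀ ν ∈ Z, eval ν F = 0) (hne : ∀ ν ∈ Z, ν ≠ 0)
    (hind : ∀ ν ∈ Z, ∀ μ ∈ Z, ν ≠ μ → LinearIndependent ℝ ![ν, μ]) : Z.card ≤ d := by
  classical
  rcases Z.eq_empty_or_nonempty with rfl | ⟨ν₀, hν₀⟩
  · simp
  obtain ⟨x, hx⟩ : ∃ x : Vec 2, eval x F ≠ 0 := by
    by_contra hcon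
    push Not at hcon
    exact h0 (MvPolynomial.funext fun x => by rw [hcon x, map_zero])
  have hx0 : x ≠ 0 := by
    rintro rfl
    have h1 := eval_smul_hom hF 0 ν₀
    rw [zero_smul, hZ ν₀ hν₀, mul_zero] at h1
    exact hx h1
  have hxx := ne_zero_sq hx0
  -- the univariate polynomial `g(s) = F(s x + rot x)`
  let g : Polynomial ℝ := MvPolynomial.aeval
    (fun i => Polynomial.X * Polynomial.C (x i) + Polynomial.C (rot x i)) F
  have hg : ∀ s : ℝ, g.eval s = eval (s • x + rot x) F := by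
    intro s
    have : g.eval s = (Polynomial.aeval s) (MvPolynomial.aeval
      (fun i => Polynomial.X * Polynomial.C (x i) + Polynomial.C (rot x i)) F) := by
      rw [Polynomial.coe_aeval_eq_eval]
    rw [this, MvPolynomial.comp_aeval_apply, MvPolynomial.aeval_def]
    rw [MvPolynomial.eval, MvPolynomial.coe_eval₂Hom]
    congr 1
    ext i
    simp
    ring
  have hdeg : g.natDegree ≤ d := by
    have := MvPolynomial.aeval_natDegree_le (m := d) (n := 1) F hF.totalDegree_le
      (fun i => Polynomial.X * Polynomial.C (x i) + Polynomial.C (rot x i)) (fun i => by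
        compute_degree)
    rw [mul_one] at this
    exact this
  have hgne : g ≠ 0 := by
    intro hg0
    -- `F (x + t rot x) = 0` for all `t ≠ 0`
    let k : Polynomial ℝ := MvPolynomial.aeval
      (fun i => Polynomial.X * Polynomial.C (rot x i) + Polynomial.C (x i)) F
    have hk : ∀ s : ℝ, k.eval s = eval (s • rot x + x) F := by
      intro s
      have : k.eval s = (Polynomial.aeval s) (MvPolynomial.aeval
        (fun i => Polynomial.X * Polynomial.C (rot x i) + Polynomial.C (x i)) F) := by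
        rw [Polynomial.coe_aeval_eq_eval]
      rw [this, MvPolynomial.comp_aeval_apply, MvPolynomial.aeval_def]
      rw [MvPolynomial.eval, MvPolynomial.coe_eval₂Hom]
      congr 1
      ext i
      simp
      ring
    have hk0 : k = 0 := by
      apply Polynomial.eq_zero_of_infinite_isRoot
      refine Set.Infinite.mono (s := Set.Ioi (0 : ℝ)) ?_ (Set.Ioi_infinite 0)
      intro s hs
      rw [Set.mem_Ioi] at hs
      change k.eval s = 0
      rw [hk]
      have h1 : s • rot x + x = s • (s⁻¹ • x + rot x) := by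
        rw [smul_add, smul_smul, mul_inv_cancel₀ hs.ne', one_smul, add_comm]
      rw [h1, eval_smul_hom hF, ← hg, hg0]
      simp
    apply hx
    have := hk 0
    rw [hk0] at this
    simpa using this.symm
  -- the roots
  let r : Vec 2 → ℝ := fun ν => (ν ⬝ᵥ x) / (ν ⬝ᵥ rot x)
  have hdotne : ∀ ν ∈ Z, ν ⬝ᵥ rot x ≠ 0 := by
    intro ν hν h
    -- ν is parallel to x
    have h2 : (x 0 * x 0 + x 1 * x 1) • ν = (ν ⬝ᵥ x) • x := by
      rw [dot2, rot0, rot1] at h
      ext i
      fin_cases i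
      · simp [dot2]; linear_combination (-x 1) * h
      · simp [dot2]; linear_combination (x 0) * h
    have h3 : ν = ((x 0 * x 0 + x 1 * x 1)⁻¹ * (ν ⬝ᵥ x)) • x := by
      rw [mul_smul, ← h2, smul_smul, inv_mul_cancel₀ hxx.ne', one_smul]
    have h4 := hZ ν hν
    rw [h3, eval_smul_hom hF] at h4
    rcases mul_eq_zero.1 h4 with h5 | h5
    · have h6 : (x 0 * x 0 + x 1 * x 1)⁻¹ * (ν ⬝ᵥ x) = 0 := by
        by_contra hcon
        exact pow_ne_zero d hcon h5
      exact hne ν hν (by rw [h3, h6, zero_smul])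
    · exact hx h5
  have hroot : ∀ ν ∈ Z, g.IsRoot (r ν) := by
    intro ν hν
    have h1 := hdotne ν hν
    have h2 : r ν • x + rot x = ((x 0 * x 0 + x 1 * x 1) / (ν ⬝ᵥ rot x)) • ν := by
      have h3 : (ν ⬝ᵥ rot x) • (r ν • x + rot x) =
        (ν ⬝ᵥ rot x) • (((x 0 * x 0 + x 1 * x 1) / (ν ⬝ᵥ rot x)) • ν) := by
        have e1 : (ν ⬝ᵥ rot x) * r ν = ν ⬝ᵥ x := by
          simp only [r]
          field_simp
        have e2 : (ν ⬝ᵥ rot x) * ((x 0 * x 0 + x 1 * x 1) / (ν ⬝ᵥ rot x)) =
          x 0 * x 0 + x 1 * x 1 := by field_simp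
        rw [smul_add, smul_smul, smul_smul, e1, e2]
        ext i
        fin_cases i
        · simp [dot2]; ring
        · simp [dot2]; ring
      exact smul_right_injective _ h1 h3
    change g.eval _ = 0
    rw [hg, h2, eval_smul_hom hF, hZ ν hν, mul_zero]
  have hinj : Set.InjOn r (Z : Set (Vec 2)) := by
    intro ν hν μ hμ h
    by_contra hcon
    have h1 := indep_iff.1 (hind ν hν μ hμ hcon)
    have h2 := hdotne ν hν
    have h3 := hdotne μ hμ
    simp only [r] at h
    rw [div_eq_div_iff h2 h3] at h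
    apply h1
    have h4 : (x 0 * x 0 + x 1 * x 1) * (ν 0 * μ 1 - ν 1 * μ 0) = 0 := by
      simp only [dot2, rot0, rot1] at h
      linear_combination h
    exact (mul_eq_zero.1 h4).resolve_left hxx.ne'
  calc Z.card = (Z.image r).card := (Finset.card_image_of_injOn hinj).symm
    _ ≤ g.roots.toFinset.card := by
        apply Finset.card_le_card
        intro s hs
        obtain ⟨ν, hν, rfl⟩ := Finset.mem_image.1 hs
        rw [Multiset.mem_toFinset, Polynomial.mem_roots hgne]
        exact hroot ν hν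
    _ ≤ Multiset.card g.roots := Multiset.toFinset_card_le _
    _ ≤ g.natDegree := Polynomial.card_roots' _
    _ ≤ d := hdeg

theorem evAt_single (ν : Vec 2) (a : Vec 2) (M : Pol 2) :
    evAt ν (AddMonoidAlgebra.single a M) = AddMonoidAlgebra.single a (eval ν M) := by
  unfold evAt
  rw [AddMonoidAlgebra.liftNCRingHom_single]
  simp [AddMonoidAlgebra.single_mul_single]

theorem evAt_coeff (ν : Vec 2) (P : EA 2) (a : Vec 2) :
    (evAt ν P).coeff a = eval ν (P.coeff a) := by
  classical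
  induction P using AddMonoidAlgebra.induction_linear with
  | zero => simp
  | add P Q hP hQ =>
    rw [map_add, AddMonoidAlgebra.coeff_add, AddMonoidAlgebra.coeff_add, Finsupp.add_apply,
      Finsupp.add_apply, hP, hQ, map_add]
  | single b M =>
    rw [evAt_single, AddMonoidAlgebra.coeff_single, AddMonoidAlgebra.coeff_single,
      Finsupp.single_apply, Finsupp.single_apply]
    split_ifs <;> simp

theorem evAt_support (ν : Vec 2) (P : EA 2) : (evAt ν P).coeff.support ⊆ P.coeff.support := by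
  intro a ha
  rw [Finsupp.mem_support_iff] at ha ⊢
  intro h
  apply ha
  rw [evAt_coeff, h, map_zero]

end Pc

end Pool.Agent.Covg
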