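import Pool.Agent.Work.MP_177351_gt.PcSeg

/-!
# Planar core, the counting argument
-/

set_option autoImplicit false

open MvPolynomial Set
open scoped Matrix Pointwise

namespace Pool.Agent.Covg

namespace Pc

theorem ext_seg {A : Set (Vec 2)} {n u e : Vec 2} {s : ℝ} (hun : u ⬝ᵥ n = 0) (hu : u ≠ 0)
    (hs : 0 ≤ s) (hf : fc A n = segment ℝ e (e + s • u)) :
    e ∈ A.extremePoints ℝ ∧ e + s • u ∈ A.extremePoints ℝ := by
  have hinj : ∀ c d : ℝ, c • u = d • u → c = d := fun c d h => smul_left_injective ℝ hu h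
  have key : ∀ κ ∈ Icc (0 : ℝ) s, (κ = 0 ∨ κ = s) → e + κ • u ∈ A.extremePoints ℝ := by
    intro κ hκ hκ'
    have hmem : e + κ • u ∈ fc A n := by rw [hf, mem_seg hs]; exact ⟨κ, hκ, rfl⟩
    rw [mem_extremePoints]
    refine ⟨hmem.1, ?_⟩
    intro x₁ hx₁ x₂ hx₂ hx
    obtain ⟨α, β, hα, hβ, hαβ, hx⟩ := hx
    have h1 := hmem.2 x₁ hx₁
    have h2 := hmem.2 x₂ hx₂
    have h3 : α * (x₁ ⬝ᵥ n) + β * (x₂ ⬝ᵥ n) = (e + κ • u) ⬝ᵥ n := by
      rw [← hx, dot_add', dot_smul', dot_smul']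
    have h4 : x₁ ⬝ᵥ n = (e + κ • u) ⬝ᵥ n := by
      by_contra hne
      have hlt : x₁ ⬝ᵥ n < (e + κ • u) ⬝ᵥ n := lt_of_le_of_ne h1 hne
      have := mul_lt_mul_of_pos_left hlt hα
      have h5 := mul_le_mul_of_nonneg_left h2 hβ.le
      have h6 : α * ((e + κ • u) ⬝ᵥ n) + β * ((e + κ • u) ⬝ᵥ n) = (e + κ • u) ⬝ᵥ n := by
        rw [← add_mul, hαβ, one_mul]
      linarith
    have h5 : x₂ ⬝ᵥ n = (e + κ • u) ⬝ᵥ n := by
      by_contra hne
      have hlt : x₂ ⬝ᵥ n < (e + κ • u) ⬝ᵥ n := lt_of_le_of_ne h2 hne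
      have := mul_lt_mul_of_pos_left hlt hβ
      have h5 := mul_le_mul_of_nonneg_left h1 hα.le
      have h6 : α * ((e + κ • u) ⬝ᵥ n) + β * ((e + κ • u) ⬝ᵥ n) = (e + κ • u) ⬝ᵥ n := by
        rw [← add_mul, hαβ, one_mul]
      linarith
    have m1 : x₁ ∈ fc A n := ⟨hx₁, fun y hy => by rw [h4]; exact hmem.2 y hy⟩
    have m2 : x₂ ∈ fc A n := ⟨hx₂, fun y hy => by rw [h5]; exact hmem.2 y hy⟩
    rw [hf, mem_seg hs] at m1 m2
    obtain ⟨κ₁, hκ₁, rfl⟩ := m1
    obtain ⟨κ₂, hκ₂, rfl⟩ := m2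
    have h6 : α * κ₁ + β * κ₂ = κ := by
      apply hinj
      have h7 : α • (e + κ₁ • u) + β • (e + κ₂ • u) = e + (α * κ₁ + β * κ₂) • u := by
        have : e = (α + β) • e := by rw [hαβ, one_smul]
        conv_rhs => rw [this]
        simp only [smul_add, add_smul, mul_smul]
        abel
      rw [h7] at hx
      exact add_left_cancel hx
    rcases hκ' with rfl | rfl
    · have e1 : κ₁ = 0 := by nlinarith [mul_nonneg hα.le hκ₁.1, mul_nonneg hβ.le hκ₂.1]
      have e2 : κ₂ = 0 := by nlinarith [mul_nonneg hα.le hκ₁.1, mul_nonneg hβ.le hκ₂.1]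
      rw [e1, e2]
      exact ⟨rfl, rfl⟩
    · have h8 : α * (κ - κ₁) + β * (κ - κ₂) = 0 := by
        have : α * κ + β * κ = κ := by rw [← add_mul, hαβ, one_mul]
        linarith
      have h9 := mul_nonneg hα.le (sub_nonneg.2 hκ₁.2)
      have h10 := mul_nonneg hβ.le (sub_nonneg.2 hκ₂.2)
      have e1 : κ₁ = κ := by
        have : α * (κ - κ₁) = 0 := by linarith
        have := (mul_eq_zero.1 this).resolve_left hα.ne'
        linarith
      have e2 : κ₂ = κ := by
        have : β * (κ - κ₂) = 0 := by linarith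
        have := (mul_eq_zero.1 this).resolve_left hβ.ne'
        linarith
      rw [e1, e2]
      exact ⟨rfl, rfl⟩
  refine ⟨?_, key s ⟨hs, le_rfl⟩ (Or.inr rfl)⟩
  have := key 0 ⟨le_rfl, hs⟩ (Or.inl rfl)
  rwa [zero_smul, add_zero] at this

/-- an extreme point inside a parallelogram is a corner -/
theorem corner_of_ext {A : Set (Vec 2)} (hA : Convex ℝ A) {a u w x : Vec 2} {s t r r' : ℝ}
    (h00 : a ∈ A) (h10 : a + s • u ∈ A) (h01 : a + t • w ∈ A) (h11 : a + t • w + s • u ∈ A)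
    (hr : r ∈ Icc (0 : ℝ) s) (hr' : r' ∈ Icc (0 : ℝ) t) (hx : x = a + r • u + r' • w)
    (hext : x ∈ A.extremePoints ℝ) :
    x = a ∨ x = a + s • u ∨ x = a + t • w ∨ x = a + t • w + s • u := by
  set C : Set (Vec 2) := {a, a + s • u, a + t • w, a + t • w + s • u} with hC
  have hs : 0 ≤ s := hr.1.trans hr.2
  have ht : 0 ≤ t := hr'.1.trans hr'.2
  have hCA : C ⊆ A := by
    rintro y (rfl | rfl | rfl | rfl) <;> assumption
  have hconv := convex_convexHull ℝ C
  have m00 : a ∈ convexHull ℝ C := subset_convexHull ℝ _ (by simp [hC])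
  have m10 : a + s • u ∈ convexHull ℝ C := subset_convexHull ℝ _ (by simp [hC])
  have m01 : a + t • w ∈ convexHull ℝ C := subset_convexHull ℝ _ (by simp [hC])
  have m11 : a + t • w + s • u ∈ convexHull ℝ C := subset_convexHull ℝ _ (by simp [hC])
  have m1 : a + r • u ∈ convexHull ℝ C :=
    hconv.segment_subset m00 m10 ((mem_seg hs).2 ⟨r, hr, rfl⟩)
  have m2 : a + t • w + r • u ∈ convexHull ℝ C :=
    hconv.segment_subset m01 m11 ((mem_seg hs).2 ⟨r, hr, rfl⟩)
  have m3 : x ∈ convexHull ℝ C := by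
    have e : a + t • w + r • u = a + r • u + t • w := by abel
    rw [e] at m2
    rw [hx]
    exact hconv.segment_subset m1 m2 ((mem_seg ht).2 ⟨r', hr', rfl⟩)
  have m4 : x ∈ (convexHull ℝ C).extremePoints ℝ :=
    inter_extremePoints_subset_extremePoints_of_subset (convexHull_min hCA hA) ⟨m3, hext⟩
  have m5 := extremePoints_convexHull_subset m4
  simpa [hC] using m5

theorem TV.rot_ne' {A B : Set (Vec 2)} {p q : AddMonoidAlgebra ℝ (Vec 2)} {ν a b w : Vec 2}
    {s s' t t' c : ℝ} (h : TV A B p q ν a b w s s' t t' c) : rot ν ≠ 0 := rot_ne h.ν_ne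

theorem TV.ext {A B : Set (Vec 2)} {p q : AddMonoidAlgebra ℝ (Vec 2)} {ν a b w : Vec 2}
    {s s' t t' c : ℝ} (h : TV A B p q ν a b w s s' t t' c) :
    a ∈ A.extremePoints ℝ ∧ a + s • rot ν ∈ A.extremePoints ℝ ∧ a + t • w ∈ A.extremePoints ℝ ∧
      a + t • w + s • rot ν ∈ A.extremePoints ℝ := by
  obtain ⟨h1, h2⟩ := ext_seg (rot_dot ν) h.rot_ne' h.hs h.A1
  obtain ⟨h3, h4⟩ := ext_seg (by rw [dot_neg', rot_dot, neg_zero]) h.rot_ne' h.hs h.A2
  exact ⟨h1, h2, h3, h4⟩

/-- an extreme point of `A` in the support of `p` is a corner -/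
theorem TV.corner {A B : Set (Vec 2)} {p q : AddMonoidAlgebra ℝ (Vec 2)} {ν a b w : Vec 2}
    {s s' t t' c : ℝ} (h : TV A B p q ν a b w s s' t t' c) (hA : Convex ℝ A) {x : Vec 2}
    (hx : x ∈ p.coeff.support) (hext : x ∈ A.extremePoints ℝ) :
    x = a ∨ x = a + s • rot ν ∨ x = a + t • w ∨ x = a + t • w + s • rot ν := by
  obtain ⟨r, hr, r', hr', e⟩ := h.boxA x hx
  obtain ⟨h1, h2, h3, h4⟩ := h.ext
  exact corner_of_ext hA h1.1 h2.1 h3.1 h4.1 hr hr' e hext

/-- The vertex count: `β (N - d - 1) ≤ N`. -/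
theorem count {A B : Set (Vec 2)} (hA : Convex ℝ A) {P : EA 2} {d : ℕ} (hhom : IsHom d P)
    {D : Finset (Vec 2)} (hne : ∀ ν ∈ D, ν ≠ 0)
    (hind : ∀ ν ∈ D, ∀ μ ∈ D, ν ≠ μ → LinearIndependent ℝ ![ν, μ])
    {q : Vec 2 → AddMonoidAlgebra ℝ (Vec 2)} {a b w : Vec 2 → Vec 2} {s s' t t' c : Vec 2 → ℝ}
    (hT : ∀ ν ∈ D, TV A B (evAt ν P) (q ν) ν (a ν) (b ν) (w ν) (s ν) (s' ν) (t ν) (t' ν) (c ν))
    {DA : Finset (Vec 2)} (hDA : ∀ ν, ν ∈ DA ↔ ν ∈ D ∧ 0 < s ν) :
    DA.card * (D.card - d) ≤ D.card + DA.card := by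
  classical
  let e : Vec 2 × Bool → Vec 2 := fun x =>
    if x.2 then a x.1 + s x.1 • rot x.1 else a x.1 + t x.1 • w x.1
  let nn : Vec 2 × Bool → Vec 2 := fun x => if x.2 then x.1 else -x.1
  -- properties of the ends
  have hrotneg : ∀ ν : Vec 2, rot (-ν) = -rot ν := by
    intro ν; ext i; fin_cases i <;> simp
  have he1 : ∀ x ∈ DA ×ˢ (Finset.univ : Finset Bool), e x ∈ fc A (nn x) := by
    rintro ⟨ν, β⟩ hx
    rw [Finset.mem_product, hDA] at hx
    have h := hT ν hx.1.1
    cases β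
    · simp only [e, nn, Bool.false_eq_true, if_false]
      rw [h.A2]; exact left_mem_segment ℝ _ _
    · simp only [e, nn, if_true]
      rw [h.A1]; exact right_mem_segment ℝ _ _
  have he2 : ∀ x ∈ DA ×ˢ (Finset.univ : Finset Bool), e x - s x.1 • rot (nn x) ∈ A := by
    rintro ⟨ν, β⟩ hx
    rw [Finset.mem_product, hDA] at hx
    have h := hT ν hx.1.1
    obtain ⟨h1, h2, h3, h4⟩ := h.ext
    cases β
    · simp only [e, nn, Bool.false_eq_true, if_false]
      rw [hrotneg, smul_neg, sub_neg_eq_add]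
      exact h4.1
    · simp only [e, nn, if_true]
      rw [add_sub_cancel_right]
      exact h1.1
  have hinj : Set.InjOn e (DA ×ˢ (Finset.univ : Finset Bool) : Finset (Vec 2 × Bool)) := by
    intro x hx y hy hxy
    have hx' := Finset.mem_coe.1 hx
    have hy' := Finset.mem_coe.1 hy
    have a1 := he1 x hx'
    have a2 := he1 y hy'
    have b1 := he2 x hx'
    have b2 := he2 y hy'
    rw [Finset.mem_product, hDA] at hx' hy'
    have c1 := a2.2 _ b1
    have c2 := a1.2 _ b2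
    rw [← hxy] at c1
    rw [← hxy] at c2
    simp only [sub_dotProduct, dot_smul'] at c1 c2
    have d1 : 0 ≤ rot (nn x) ⬝ᵥ nn y := by
      have : 0 ≤ s x.1 * (rot (nn x) ⬝ᵥ nn y) := by linarith
      exact nonneg_of_mul_nonneg_right this hx'.1.2
    have d2 : 0 ≤ rot (nn y) ⬝ᵥ nn x := by
      have : 0 ≤ s y.1 * (rot (nn y) ⬝ᵥ nn x) := by linarith
      exact nonneg_of_mul_nonneg_right this hy'.1.2
    have d3 : rot (nn y) ⬝ᵥ nn x = - (rot (nn x) ⬝ᵥ nn y) := by
      simp only [dot2, rot0, rot1]; ring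
    have d4 : rot (nn x) ⬝ᵥ nn y = 0 := by linarith
    have d5 : x.1 = y.1 := by
      by_contra hne
      have h1 := indep_iff.1 (hind x.1 hx'.1.1 y.1 hy'.1.1 hne)
      apply h1
      simp only [dot2, rot0, rot1, nn] at d4
      split_ifs at d4 <;> (try simp only [Pi.neg_apply] at d4) <;> linarith
    have d6 : x.2 = y.2 := by
      by_contra hne
      have h := hT x.1 hx'.1.1
      have key : ∀ z, z ∈ fc A x.1 → z ∈ fc A (-x.1) → False := by
        intro z hz1 hz2
        have h1 := (fc_neg_mem.1 hz2).2 (a x.1) h.ext.1.1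
        have h2 := hz1.2 _ h.ext.1.1
        have h3 := (fc_neg_mem.1 (show a x.1 + t x.1 • w x.1 ∈ fc A (-x.1) by
          rw [h.A2]; exact left_mem_segment ℝ _ _)).2 _ hz1.1
        have h4 := (show a x.1 ∈ fc A x.1 by rw [h.A1]; exact left_mem_segment ℝ _ _).2 _ hz1.1
        have h5 := (fc_neg_mem.1 hz2).2 _ h.ext.2.2.1.1
        rw [dot_add', dot_smul'] at h3 h5
        have := mul_pos_of_neg_of_neg (neg_lt_zero.2 h.ht) h.hw
        nlinarith
      rw [← hxy] at a2
      simp only [nn, ← d5] at a1 a2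
      cases hx2 : x.2 <;> cases hy2 : y.2 <;> simp only [hx2, hy2, Bool.false_eq_true, if_false, if_true] at a1 a2 hne
      · exact hne trivial
      · exact key _ a2 a1
      · exact key _ a1 a2
      · exact hne trivial
    exact Prod.ext d5 d6
  let E : Finset (Vec 2) := (DA ×ˢ (Finset.univ : Finset Bool)).image e
  have hEcard : E.card = DA.card * 2 := by
    rw [Finset.card_image_of_injOn hinj, Finset.card_product]
    simp
  have hEext : ∀ v ∈ E, v ∈ A.extremePoints ℝ := by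
    intro v hv
    obtain ⟨⟨ν, β⟩, hx, rfl⟩ := Finset.mem_image.1 hv
    rw [Finset.mem_product, hDA] at hx
    obtain ⟨h1, h2, h3, h4⟩ := (hT ν hx.1.1).ext
    cases β
    · simp only [e, Bool.false_eq_true, if_false]; exact h3
    · simp only [e, if_true]; exact h2
  have hEsupp : ∀ v ∈ E, v ∈ P.coeff.support := by
    intro v hv
    obtain ⟨⟨ν, β⟩, hx, rfl⟩ := Finset.mem_image.1 hv
    rw [Finset.mem_product, hDA] at hx
    have h := hT ν hx.1.1
    cases β
    · simp only [e, Bool.false_eq_true, if_false]; exact evAt_support ν P h.a01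
    · simp only [e, if_true]; exact evAt_support ν P h.a10
  -- lower bound
  have hlow : ∀ v ∈ E, D.card - d ≤ (D.filter fun ν => v ∈ (evAt ν P).coeff.support).card := by
    intro v hv
    have h1 : (D.filter fun ν => ¬ v ∈ (evAt ν P).coeff.support).card ≤ d := by
      refine form_roots (hhom v) (Finsupp.mem_support_iff.1 (hEsupp v hv)) ?_ ?_ ?_
      · intro ν hν
        rw [Finset.mem_filter, Finsupp.notMem_support_iff, evAt_coeff] at hν
        exact hν.2
      · intro ν hν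
        exact hne ν (Finset.mem_filter.1 hν).1
      · intro ν hν μ hμ
        exact hind ν (Finset.mem_filter.1 hν).1 μ (Finset.mem_filter.1 hμ).1
    have h2 : D ⊆ (D.filter fun ν => v ∈ (evAt ν P).coeff.support) ∪
        (D.filter fun ν => ¬ v ∈ (evAt ν P).coeff.support) := by
      intro ν hν
      by_cases h0 : v ∈ (evAt ν P).coeff.support
      · exact Finset.mem_union_left _ (Finset.mem_filter.2 ⟨hν, h0⟩)
      · exact Finset.mem_union_right _ (Finset.mem_filter.2 ⟨hν, h0⟩)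
    have h3 := (Finset.card_le_card h2).trans (Finset.card_union_le _ _)
    omega
  -- upper bound
  have hup : ∀ ν ∈ D, (E.filter fun v => v ∈ (evAt ν P).coeff.support).card ≤
      if ν ∈ DA then 4 else 2 := by
    intro ν hν
    have h := hT ν hν
    have hsub : (E.filter fun v => v ∈ (evAt ν P).coeff.support) ⊆
        {a ν, a ν + s ν • rot ν, a ν + t ν • w ν, a ν + t ν • w ν + s ν • rot ν} := by
      intro v hv
      rw [Finset.mem_filter] at hv
      simp only [Finset.mem_insert, Finset.mem_singleton]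
      exact h.corner hA hv.2 (hEext v hv.1)
    split_ifs with hcase
    · exact (Finset.card_le_card hsub).trans Finset.card_le_four
    · have hs0 : s ν = 0 := by
        rw [hDA] at hcase
        have := h.hs
        by_contra hne
        exact hcase ⟨hν, lt_of_le_of_ne this (Ne.symm hne)⟩
      rw [hs0, zero_smul, add_zero, add_zero] at hsub
      refine (Finset.card_le_card (hsub.trans ?_)).trans (Finset.card_le_two (a := a ν) (b := a ν + t ν • w ν))
      intro x hx
      simp only [Finset.mem_insert, Finset.mem_singleton] at hx ⊢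
      tauto
  -- double counting
  have hdc : ∑ v ∈ E, (D.filter fun ν => v ∈ (evAt ν P).coeff.support).card =
      ∑ ν ∈ D, (E.filter fun v => v ∈ (evAt ν P).coeff.support).card := by
    simp only [Finset.card_filter]
    rw [Finset.sum_comm]
  have h1 : DA.card * 2 * (D.card - d) ≤
      ∑ v ∈ E, (D.filter fun ν => v ∈ (evAt ν P).coeff.support).card := by
    rw [← hEcard, ← smul_eq_mul]
    exact Finset.card_nsmul_le_sum _ _ _ hlow
  have h2 : ∑ ν ∈ D, (E.filter fun v => v ∈ (evAt ν P).coeff.support).card ≤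
      ∑ ν ∈ D, (if ν ∈ DA then 4 else 2) := Finset.sum_le_sum hup
  have h3 : ∑ ν ∈ D, (if ν ∈ DA then 4 else 2) = 2 * D.card + 2 * DA.card := by
    have hsub : DA ⊆ D := fun ν hν => ((hDA ν).1 hν).1
    have : ∀ ν ∈ D, (if ν ∈ DA then 4 else 2) = 2 + (if ν ∈ DA then 2 else 0) := by
      intro ν _
      split_ifs <;> rfl
    rw [Finset.sum_congr rfl this, Finset.sum_add_distrib, Finset.sum_ite_mem,
      Finset.inter_eq_right.2 hsub]
    simp only [Finset.sum_const, smul_eq_mul]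
    ring
  rw [hdc] at h1
  have h4 := h1.trans (h2.trans h3.le)
  have h5 : DA.card * 2 * (D.card - d) = 2 * (DA.card * (D.card - d)) := by ring
  omega

end Pc

end Pool.Agent.Covg
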