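import Pool.Agent.Work.MP_177351_gt.PcAlg
import Pool.Agent.Work.MP_177351_gt.Rotate

/-!
# Planar core, convexity lemmas
-/

set_option autoImplicit false

open MvPolynomial Set
open scoped Matrix Pointwise

namespace Pool.Agent.Covg

namespace Pc

theorem dot_add' {n : ℕ} (x y z : Vec n) : (x + y) ⬝ᵥ z = x ⬝ᵥ z + y ⬝ᵥ z := add_dotProduct _ _ _
theorem dot_smul' {n : ℕ} (c : ℝ) (x z : Vec n) : (c • x) ⬝ᵥ z = c * (x ⬝ᵥ z) := by
  rw [smul_dotProduct, smul_eq_mul]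
theorem dot_smul'' {n : ℕ} (c : ℝ) (x z : Vec n) : x ⬝ᵥ (c • z) = c * (x ⬝ᵥ z) := by
  rw [dotProduct_smul, smul_eq_mul]
theorem dot_neg' {n : ℕ} (x z : Vec n) : x ⬝ᵥ (-z) = -(x ⬝ᵥ z) := by
  rw [dotProduct_neg]

theorem rot_dot (ν : Vec 2) : rot ν ⬝ᵥ ν = 0 := by
  rw [dot2, rot0, rot1]; ring

/-- Two coordinates determine the point. -/
theorem eq_of_dots {μ ν x y : Vec 2} (h : μ 0 * ν 1 - μ 1 * ν 0 ≠ 0)
    (h1 : x ⬝ᵥ μ = y ⬝ᵥ μ) (h2 : x ⬝ᵥ ν = y ⬝ᵥ ν) : x = y := by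
  rw [dot2, dot2] at h1 h2
  have e0 : (μ 0 * ν 1 - μ 1 * ν 0) * (x 0 - y 0) = 0 := by
    linear_combination ν 1 * h1 - μ 1 * h2
  have e1 : (μ 0 * ν 1 - μ 1 * ν 0) * (x 1 - y 1) = 0 := by
    linear_combination μ 0 * h2 - ν 0 * h1
  ext i
  fin_cases i
  · exact sub_eq_zero.1 ((mul_eq_zero.1 e0).resolve_left h)
  · exact sub_eq_zero.1 ((mul_eq_zero.1 e1).resolve_left h)

theorem exists_dots {μ ν : Vec 2} (h : μ 0 * ν 1 - μ 1 * ν 0 ≠ 0) (r s : ℝ) :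
    ∃ x : Vec 2, x ⬝ᵥ μ = r ∧ x ⬝ᵥ ν = s := by
  set D := μ 0 * ν 1 - μ 1 * ν 0 with hD
  refine ⟨![(r * ν 1 - s * μ 1) / D, (s * μ 0 - r * ν 0) / D], ?_, ?_⟩
  · rw [dot2]
    simp only [Matrix.cons_val_zero, Matrix.cons_val_one]
    field_simp
    rw [hD]; ring
  · rw [dot2]
    simp only [Matrix.cons_val_zero, Matrix.cons_val_one]
    field_simp
    rw [hD]; ring

/-- Linear functionals on a convex hull. -/
theorem hull_le {S : Set (Vec 2)} {ν : Vec 2} {c : ℝ} (h : ∀ a ∈ S, a ⬝ᵥ ν ≤ c) {x : Vec 2}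
    (hx : x ∈ convexHull ℝ S) : x ⬝ᵥ ν ≤ c := by
  have hc : Convex ℝ {x : Vec 2 | x ⬝ᵥ ν ≤ c} := by
    intro x hx y hy a b ha hb hab
    simp only [mem_ofPred_eq, dot_add', dot_smul'] at *
    calc a * x ⬝ᵥ ν + b * y ⬝ᵥ ν ≤ a * c + b * c :=
          add_le_add (mul_le_mul_of_nonneg_left hx ha) (mul_le_mul_of_nonneg_left hy hb)
      _ = c := by rw [← add_mul, hab, one_mul]
  exact convexHull_min (fun a ha => h a ha) hc hx

theorem hull_ge {S : Set (Vec 2)} {ν : Vec 2} {c : ℝ} (h : ∀ a ∈ S, c ≤ a ⬝ᵥ ν) {x : Vec 2}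
    (hx : x ∈ convexHull ℝ S) : c ≤ x ⬝ᵥ ν := by
  have := hull_le (ν := -ν) (c := -c) (fun a ha => by rw [dot_neg']; linarith [h a ha]) hx
  rw [dot_neg'] at this
  linarith

theorem fc_neg_mem {K : Set (Vec 2)} {ν x : Vec 2} :
    x ∈ fc K (-ν) ↔ x ∈ K ∧ ∀ y ∈ K, x ⬝ᵥ ν ≤ y ⬝ᵥ ν := by
  unfold fc
  simp only [mem_ofPred_eq, dot_neg', neg_le_neg_iff]

theorem fc_mem {K : Set (Vec 2)} {ν x : Vec 2} :
    x ∈ fc K ν ↔ x ∈ K ∧ ∀ y ∈ K, y ⬝ᵥ ν ≤ x ⬝ᵥ ν := Iff.rfl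

/-- The polygon is cut out by its edges. -/
theorem facets {S : Finset (Vec 2)} (hS : (interior (convexHull ℝ (S : Set (Vec 2)))).Nonempty)
    {G : Finset (Vec 2)} (hG : ∀ ν : Vec 2, ν ≠ 0 →
      ¬ (fc (convexHull ℝ (S : Set (Vec 2))) ν).Subsingleton → ∃ μ ∈ G, ∃ c : ℝ, c ≠ 0 ∧ ν = c • μ)
    {x : Vec 2} (hx : ∀ μ ∈ G, ∃ y ∈ convexHull ℝ (S : Set (Vec 2)),
      ∃ y' ∈ convexHull ℝ (S : Set (Vec 2)), y ⬝ᵥ μ ≤ x ⬝ᵥ μ ∧ x ⬝ᵥ μ ≤ y' ⬝ᵥ μ) :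
    x ∈ convexHull ℝ (S : Set (Vec 2)) := by
  by_contra hcon
  obtain ⟨ν, hν, hfin, hsep⟩ := facet_sep (by norm_num) hS hcon
  have h1 : ¬ (fc (convexHull ℝ (S : Set (Vec 2))) ν).Subsingleton := by
    intro hsub
    have hsub' : (face ν S : Set (Vec 2)) ⊆ fc (convexHull ℝ (S : Set (Vec 2))) ν := by
      intro a ha
      rw [Finset.mem_coe, Rot.mem_face] at ha
      exact ⟨subset_convexHull ℝ _ ha.1, fun y hy => hull_le ha.2 hy⟩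
    have h2 : (face ν S : Set (Vec 2)).Subsingleton := hsub.anti hsub'
    have h3 : vectorSpan ℝ (face ν S : Set (Vec 2)) = ⊥ := by
      rcases h2.eq_empty_or_singleton with h | ⟨a, h⟩
      · rw [h]; simp
      · rw [h]; simp
    rw [h3, finrank_bot] at hfin
    norm_num at hfin
  obtain ⟨μ, hμ, c, hc, rfl⟩ := hG ν hν h1
  obtain ⟨y, hy, y', hy', h2, h3⟩ := hx μ hμ
  have h4 := hsep y hy
  have h5 := hsep y' hy'
  simp only [dot_smul''] at h4 h5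
  rcases lt_or_gt_of_ne hc with h | h
  · nlinarith
  · nlinarith

/-- At least two edge directions. -/
theorem two_le_card {S : Finset (Vec 2)}
    (hS : (interior (convexHull ℝ (S : Set (Vec 2)))).Nonempty)
    {G : Finset (Vec 2)} (hG : ∀ ν : Vec 2, ν ≠ 0 →
      ¬ (fc (convexHull ℝ (S : Set (Vec 2))) ν).Subsingleton → ∃ μ ∈ G, ∃ c : ℝ, c ≠ 0 ∧ ν = c • μ) :
    2 ≤ G.card := by
  by_contra hcon
  have hcard : G.card ≤ 1 := by omega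
  obtain ⟨x₀, hx₀⟩ := hS
  have hx₀' := interior_subset hx₀
  obtain ⟨e, he, heG⟩ : ∃ e : Vec 2, e ≠ 0 ∧ ∀ μ ∈ G, e ⬝ᵥ μ = 0 := by
    rcases G.eq_empty_or_nonempty with rfl | ⟨μ, hμ⟩
    · exact ⟨![1, 0], fun h => by simpa using congrFun h 0, by simp⟩
    · by_cases hμ0 : μ = 0
      · refine ⟨![1, 0], fun h => by simpa using congrFun h 0, fun μ' hμ' => ?_⟩
        rw [Finset.card_le_one.1 hcard μ' hμ' μ hμ, hμ0, dotProduct_zero]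
      · refine ⟨rot μ, ?_, fun μ' hμ' => ?_⟩
        · intro h
          apply hμ0
          have h0 := congrFun h 0
          have h1 := congrFun h 1
          simp only [rot0, rot1, Pi.zero_apply] at h0 h1
          ext i; fin_cases i
          · exact h1
          · simpa using h0
        · rw [Finset.card_le_one.1 hcard μ' hμ' μ hμ, rot_dot]
  have hmem : ∀ r : ℝ, x₀ + r • e ∈ convexHull ℝ (S : Set (Vec 2)) := by
    intro r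
    apply facets ⟨x₀, hx₀⟩ hG
    intro μ hμ
    refine ⟨x₀, hx₀', x₀, hx₀', ?_, ?_⟩ <;> simp [dot_add', dot_smul', heG μ hμ]
  -- unbounded
  have hb : ∀ a ∈ S, a ⬝ᵥ e ≤ ∑ a ∈ S, |a ⬝ᵥ e| := by
    intro a ha
    exact (le_abs_self _).trans (Finset.single_le_sum (f := fun a => |a ⬝ᵥ e|)
      (fun i _ => abs_nonneg _) ha)
  set M := ∑ a ∈ S, |a ⬝ᵥ e|
  have hee : 0 < e ⬝ᵥ e := by rw [dot2]; exact ne_zero_sq he
  have := hull_le hb (hmem ((M - x₀ ⬝ᵥ e + 1) / (e ⬝ᵥ e)))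
  rw [dot_add', dot_smul', div_mul_cancel₀ _ hee.ne'] at this
  linarith

/-- A polygon with two edge directions is a parallelogram. -/
theorem par_of_two {S : Finset (Vec 2)}
    (hS : (interior (convexHull ℝ (S : Set (Vec 2)))).Nonempty)
    {G : Finset (Vec 2)} (hG : ∀ ν : Vec 2, ν ≠ 0 →
      ¬ (fc (convexHull ℝ (S : Set (Vec 2))) ν).Subsingleton → ∃ μ ∈ G, ∃ c : ℝ, c ≠ 0 ∧ ν = c • μ)
    (hcard : G.card ≤ 2) (hne : ∀ ν ∈ G, ν ≠ 0)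
    (hind : ∀ ν ∈ G, ∀ μ ∈ G, ν ≠ μ → LinearIndependent ℝ ![ν, μ]) :
    ∃ v d d' : Vec 2, LinearIndependent ℝ ![d, d'] ∧
      convexHull ℝ (S : Set (Vec 2)) =
        {x | ∃ s ∈ Icc (0 : ℝ) 1, ∃ r ∈ Icc (0 : ℝ) 1, x = v + s • d + r • d'} := by
  classical
  have h2 : G.card = 2 := le_antisymm hcard (two_le_card hS hG)
  obtain ⟨μ₁, μ₂, hμ, hGe⟩ := Finset.card_eq_two.1 h2
  have hμ₁ : μ₁ ∈ G := by rw [hGe]; simp
  have hμ₂ : μ₂ ∈ G := by rw [hGe]; simp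
  have hdet := indep_iff.1 (hind μ₁ hμ₁ μ₂ hμ₂ hμ)
  have hSne : S.Nonempty := by
    rw [← Finset.coe_nonempty]
    have := hS.mono interior_subset
    exact convexHull_nonempty_iff.1 this
  -- extreme values
  have hext : ∀ μ : Vec 2, ∃ m M : ℝ, (∀ x ∈ convexHull ℝ (S : Set (Vec 2)), m ≤ x ⬝ᵥ μ ∧ x ⬝ᵥ μ ≤ M) ∧
      (∃ x ∈ convexHull ℝ (S : Set (Vec 2)), x ⬝ᵥ μ = m) ∧
      ∃ x ∈ convexHull ℝ (S : Set (Vec 2)), x ⬝ᵥ μ = M := by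
    intro μ
    obtain ⟨a, ha, ha'⟩ := S.exists_min_image (fun x => x ⬝ᵥ μ) hSne
    obtain ⟨b, hb, hb'⟩ := S.exists_max_image (fun x => x ⬝ᵥ μ) hSne
    exact ⟨a ⬝ᵥ μ, b ⬝ᵥ μ, fun x hx => ⟨hull_ge ha' hx, hull_le hb' hx⟩,
      ⟨a, subset_convexHull ℝ _ ha, rfl⟩, ⟨b, subset_convexHull ℝ _ hb, rfl⟩⟩
  have hlt : ∀ μ : Vec 2, μ ≠ 0 → ∀ m M : ℝ,
      (∀ x ∈ convexHull ℝ (S : Set (Vec 2)), m ≤ x ⬝ᵥ μ ∧ x ⬝ᵥ μ ≤ M) → m < M := by
    intro μ hμ0 m M hmM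
    by_contra hcon
    push Not at hcon
    obtain ⟨x₀, hx₀⟩ := hS
    have hcont : Filter.Tendsto (fun r : ℝ => x₀ + r • μ) (nhds 0) (nhds x₀) := by
      have : Continuous (fun r : ℝ => x₀ + r • μ) := by fun_prop
      have := this.tendsto 0
      simpa using this
    have hev := hcont (mem_interior_iff_mem_nhds.1 hx₀)
    obtain ⟨ε, hε, hball⟩ := Metric.mem_nhds_iff.1 hev
    have hmem : (ε / 2 : ℝ) ∈ Metric.ball (0 : ℝ) ε := by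
      rw [Metric.mem_ball, Real.dist_eq, sub_zero, abs_of_pos (by positivity)]; linarith
    have h3 : x₀ + (ε / 2) • μ ∈ convexHull ℝ (S : Set (Vec 2)) := hball hmem
    have h4 := (hmM _ h3).2
    have h5 := (hmM _ (interior_subset hx₀)).1
    rw [dot_add', dot_smul'] at h4
    have h6 : 0 < μ ⬝ᵥ μ := by rw [dot2]; exact ne_zero_sq hμ0
    nlinarith
  obtain ⟨m₁, M₁, hb₁, ⟨x1, hx1, hx1'⟩, ⟨y1, hy1, hy1'⟩⟩ := hext μ₁
  obtain ⟨m₂, M₂, hb₂, ⟨x2, hx2, hx2'⟩, ⟨y2, hy2, hy2'⟩⟩ := hext μ₂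
  have hlt₁ := hlt μ₁ (hne μ₁ hμ₁) m₁ M₁ hb₁
  have hlt₂ := hlt μ₂ (hne μ₂ hμ₂) m₂ M₂ hb₂
  obtain ⟨v, hv1, hv2⟩ := exists_dots hdet m₁ m₂
  obtain ⟨d, hd1, hd2⟩ := exists_dots hdet (M₁ - m₁) 0
  obtain ⟨d', hd1', hd2'⟩ := exists_dots hdet 0 (M₂ - m₂)
  refine ⟨v, d, d', ?_, ?_⟩
  · rw [indep_iff]
    intro h
    have h1 : (d 0 * d' 1 - d 1 * d' 0) * (μ₁ 0 * μ₂ 1 - μ₁ 1 * μ₂ 0) =
        (d ⬝ᵥ μ₁) * (d' ⬝ᵥ μ₂) - (d ⬝ᵥ μ₂) * (d' ⬝ᵥ μ₁) := by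
      simp only [dot2]; ring
    rw [h, hd1, hd2', hd2] at h1
    nlinarith [mul_pos (sub_pos.2 hlt₁) (sub_pos.2 hlt₂)]
  · ext x
    constructor
    · intro hx
      obtain ⟨h3, h4⟩ := hb₁ x hx
      obtain ⟨h5, h6⟩ := hb₂ x hx
      refine ⟨(x ⬝ᵥ μ₁ - m₁) / (M₁ - m₁), ⟨by apply div_nonneg <;> linarith,
        (div_le_one (by linarith)).2 (by linarith)⟩,
        (x ⬝ᵥ μ₂ - m₂) / (M₂ - m₂), ⟨by apply div_nonneg <;> linarith,
        (div_le_one (by linarith)).2 (by linarith)⟩, ?_⟩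
      apply eq_of_dots hdet
      · rw [dot_add', dot_add', dot_smul', dot_smul', hv1, hd1, hd1',
          div_mul_cancel₀ _ (by linarith)]
        ring
      · rw [dot_add', dot_add', dot_smul', dot_smul', hv2, hd2, hd2',
          div_mul_cancel₀ _ (by linarith)]
        ring
    · rintro ⟨s, hs, r, hr, rfl⟩
      apply facets hS hG
      intro μ hμ
      rw [hGe, Finset.mem_insert, Finset.mem_singleton] at hμ
      rcases hμ with rfl | rfl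
      · refine ⟨x1, hx1, y1, hy1, ?_, ?_⟩
        · rw [dot_add', dot_add', dot_smul', dot_smul', hv1, hd1, hd1', hx1']
          nlinarith [hs.1]
        · rw [dot_add', dot_add', dot_smul', dot_smul', hv1, hd1, hd1', hy1']
          nlinarith [hs.2]
      · refine ⟨x2, hx2, y2, hy2, ?_, ?_⟩
        · rw [dot_add', dot_add', dot_smul', dot_smul', hv2, hd2, hd2', hx2']
          nlinarith [hr.1]
        · rw [dot_add', dot_add', dot_smul', dot_smul', hv2, hd2, hd2', hy2']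
          nlinarith [hr.2]

end Pc

end Pool.Agent.Covg
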