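import Pool.Agent.Work.MP_177351_gt.PcCount

/-!
# Planar core, the octagon
-/

set_option autoImplicit false

open MvPolynomial Set
open scoped Matrix Pointwise

namespace Pool.Agent.Covg

namespace Pc

theorem rot_rot_dot (x y : Vec 2) : rot x ⬝ᵥ rot y = x ⬝ᵥ y := by
  simp only [dot2, rot0, rot1]; ring

section

variable {A B : Set (Vec 2)} {p q : AddMonoidAlgebra ℝ (Vec 2)} {ν a b w : Vec 2}
    {s s' t t' c : ℝ}

theorem TV.four (h : TV A B p q ν a b w s s' t t' c) (m : Vec 2) :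
    m ∈ (p * q).coeff.support ↔ m = a + b ∨ m = a + b + (s + s') • rot ν ∨ m = a + b + w ∨
      m = a + b + w + (s + s') • rot ν := by
  have hu : (s + s') • rot ν ≠ 0 := smul_ne_zero h.hss.ne' h.rot_ne'
  refine four_supp h.hc (dotHom ν) ?_ ?_ ?_ ?_ ?_ h.prod m
  · simp only [dotHom_apply, dot_add', dot_smul', rot_dot, mul_zero, add_zero]
  · simp only [dotHom_apply, dot_add', dot_smul', rot_dot, mul_zero, add_zero]
  · simp only [dotHom_apply, dot_add']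
    linarith [h.hw]
  · intro e
    exact hu (left_eq_add.1 e.symm)
  · intro e
    exact hu (left_eq_add.1 e.symm)

/-- the coordinate killing `w` -/
theorem TV.gu (h : TV A B p q ν a b w s s' t t' c) : rot ν ⬝ᵥ rot w < 0 := by
  rw [rot_rot_dot, dotProduct_comm]; exact h.hw

theorem TV.det (h : TV A B p q ν a b w s s' t t' c) :
    ν 0 * (rot w) 1 - ν 1 * (rot w) 0 ≠ 0 := by
  have := h.hw
  rw [dot2] at this
  rw [rot0, rot1]
  intro h0
  linarith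

theorem TV.lines (h : TV A B p q ν a b w s s' t t' c) (hs' : s' = 0) {x₀ : Vec 2}
    (hx₀ : x₀ ∈ p.coeff.support) :
    ∃ r' ∈ Icc (0 : ℝ) t, x₀ = a + r' • w ∨ x₀ = a + s • rot ν + r' • w := by
  classical
  obtain ⟨r, hr, r', hr', e⟩ := h.boxA x₀ hx₀
  have hww : w ⬝ᵥ rot w = 0 := by rw [dotProduct_comm, rot_dot]
  have hg : ∀ (y : Vec 2) (α β : ℝ), (y + α • rot ν + β • w) ⬝ᵥ rot w =
      y ⬝ᵥ rot w + α * (rot ν ⬝ᵥ rot w) := by
    intro y α β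
    rw [dot_add', dot_add', dot_smul', dot_smul', hww]; ring
  -- element with the same `g`, maximal height
  obtain ⟨x₁, hx₁, hmax⟩ := (p.coeff.support.filter fun x => x ⬝ᵥ rot w = x₀ ⬝ᵥ rot w).exists_max_image
    (fun x => x ⬝ᵥ ν) ⟨x₀, Finset.mem_filter.2 ⟨hx₀, rfl⟩⟩
  rw [Finset.mem_filter] at hx₁
  have hq : ∀ y ∈ q.coeff.support, y ⬝ᵥ rot w = b ⬝ᵥ rot w ∧ y ⬝ᵥ ν ≤ b ⬝ᵥ ν := by
    intro y hy
    obtain ⟨ρ, hρ, ρ', hρ', e'⟩ := h.boxB y hy
    rw [hs'] at hρ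
    have hρ0 : ρ = 0 := le_antisymm hρ.2 hρ.1
    rw [e', hg, hρ0]
    refine ⟨by ring, ?_⟩
    rw [dot_add', dot_add', dot_smul', dot_smul', rot_dot]
    have := mul_nonpos_of_nonneg_of_nonpos hρ'.1 h.hw.le
    linarith
  have hu : UniqueAdd p.coeff.support q.coeff.support x₁ b := by
    intro x y hx hy hxy
    obtain ⟨h1, h2⟩ := hq y hy
    have h3 : x ⬝ᵥ rot w + y ⬝ᵥ rot w = x₁ ⬝ᵥ rot w + b ⬝ᵥ rot w := by
      rw [← dot_add', ← dot_add', hxy]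
    have h4 : x ⬝ᵥ rot w = x₀ ⬝ᵥ rot w := by rw [← hx₁.2]; linarith
    have h5 := hmax x (Finset.mem_filter.2 ⟨hx, h4⟩)
    have h6 : x ⬝ᵥ ν + y ⬝ᵥ ν = x₁ ⬝ᵥ ν + b ⬝ᵥ ν := by
      rw [← dot_add', ← dot_add', hxy]
    have h7 : x = x₁ := by
      apply eq_of_dots h.det
      · linarith
      · rw [h4, hx₁.2]
    refine ⟨h7, ?_⟩
    rw [h7] at hxy
    exact add_left_cancel hxy
  have hmem : x₁ + b ∈ (p * q).coeff.support := by
    rw [Finsupp.mem_support_iff, AddMonoidAlgebra.coeff_mul_add_of_uniqueAdd hu]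
    exact mul_ne_zero (Finsupp.mem_support_iff.1 hx₁.1) (Finsupp.mem_support_iff.1 h.b00)
  have hgu := h.gu
  have e1 : x₁ ⬝ᵥ rot w = a ⬝ᵥ rot w + r * (rot ν ⬝ᵥ rot w) := by
    rw [hx₁.2, e, hg]
  have hr0 : r = 0 ∨ r = s := by
    rw [h.four, hs', add_zero] at hmem
    rcases hmem with h1 | h1 | h1 | h1 <;> have h2 := congrArg (fun z => z ⬝ᵥ rot w) h1 <;>
      simp only [dot_add', dot_smul', hww, e1] at h2
    · left
      have : r * (rot ν ⬝ᵥ rot w) = 0 := by linarith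
      exact (mul_eq_zero.1 this).resolve_right hgu.ne
    · right
      have : (r - s) * (rot ν ⬝ᵥ rot w) = 0 := by linarith
      exact sub_eq_zero.1 ((mul_eq_zero.1 this).resolve_right hgu.ne)
    · left
      have : r * (rot ν ⬝ᵥ rot w) = 0 := by linarith
      exact (mul_eq_zero.1 this).resolve_right hgu.ne
    · right
      have : (r - s) * (rot ν ⬝ᵥ rot w) = 0 := by linarith
      exact sub_eq_zero.1 ((mul_eq_zero.1 this).resolve_right hgu.ne)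
  refine ⟨r', hr', ?_⟩
  rcases hr0 with h0 | h0
  · left; rw [e, h0, zero_smul, add_zero]
  · right; rw [e, h0]

end

/-- All data of the octagon case. -/
structure Oct (A B : Set (Vec 2)) (P Q : EA 2) (D DA DB : Finset (Vec 2))
    (a b w : Vec 2 → Vec 2) (s s' t t' c : Vec 2 → ℝ) : Prop where
  cA : Convex ℝ A
  cB : Convex ℝ B
  homP : IsHom 1 P
  homQ : IsHom 1 Q
  ne : ∀ ν ∈ D, ν ≠ 0
  ind : ∀ ν ∈ D, ∀ μ ∈ D, ν ≠ μ → LinearIndependent ℝ ![ν, μ]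
  tv : ∀ ν ∈ D, TV A B (evAt ν P) (evAt ν Q) ν (a ν) (b ν) (w ν) (s ν) (s' ν) (t ν) (t' ν) (c ν)
  hDA : ∀ ν, ν ∈ DA ↔ ν ∈ D ∧ 0 < s ν
  hDB : ∀ ν, ν ∈ DB ↔ ν ∈ D ∧ 0 < s' ν
  cardA : DA.card = 2
  cardB : DB.card = 2
  disj : ∀ ν, ν ∈ DA → ν ∈ DB → False
  fA : ∀ x, (∀ μ ∈ DA, ∃ y ∈ A, ∃ y' ∈ A, y ⬝ᵥ μ ≤ x ⬝ᵥ μ ∧ x ⬝ᵥ μ ≤ y' ⬝ᵥ μ) → x ∈ A
  fB : ∀ x, (∀ μ ∈ DB, ∃ y ∈ B, ∃ y' ∈ B, y ⬝ᵥ μ ≤ x ⬝ᵥ μ ∧ x ⬝ᵥ μ ≤ y' ⬝ᵥ μ) → x ∈ B

section

variable {A B : Set (Vec 2)} {P Q : EA 2} {D DA DB : Finset (Vec 2)}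
    {a b w : Vec 2 → Vec 2} {s s' t t' c : Vec 2 → ℝ}

theorem Oct.symm (h : Oct A B P Q D DA DB a b w s s' t t' c) :
    Oct B A Q P D DB DA b a w s' s t' t c where
  cA := h.cB
  cB := h.cA
  homP := h.homQ
  homQ := h.homP
  ne := h.ne
  ind := h.ind
  tv := fun ν hν => (h.tv ν hν).symm
  hDA := h.hDB
  hDB := h.hDA
  cardA := h.cardB
  cardB := h.cardA
  disj := fun ν h1 h2 => h.disj ν h2 h1
  fA := h.fB
  fB := h.fA

theorem Oct.s0 (h : Oct A B P Q D DA DB a b w s s' t t' c) {μ : Vec 2} (hμ : μ ∈ DB) :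
    s μ = 0 := by
  have h1 := ((h.hDB μ).1 hμ).1
  by_contra hne
  exact h.disj μ ((h.hDA μ).2 ⟨h1, lt_of_le_of_ne (h.tv μ h1).hs (Ne.symm hne)⟩) hμ

/-- in a direction of `DB` the faces of `A` are points -/
theorem Oct.pt (h : Oct A B P Q D DA DB a b w s s' t t' c) {μ : Vec 2} (hμ : μ ∈ DB) :
    fc A μ = {a μ} ∧ fc A (-μ) = {a μ + t μ • w μ} := by
  have h1 := h.tv μ ((h.hDB μ).1 hμ).1
  have h2 := h1.A1
  have h3 := h1.A2
  rw [h.s0 hμ, zero_smul, add_zero, segment_same] at h2 h3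
  exact ⟨h2, h3⟩

/-- The edges of `A`: the two edge directions are parallel to the sides. -/
theorem Oct.side (h : Oct A B P Q D DA DB a b w s s' t t' c) {ν ν' n : Vec 2} (hν : ν ∈ DA)
    (hν' : ν' ∈ DA) (hne : ν ≠ ν') (hn : n = ν' ∨ n = -ν') (hpos : 0 < rot ν ⬝ᵥ n) :
    w ν ⬝ᵥ n = 0 ∧ (∀ y ∈ A, a ν ⬝ᵥ n ≤ y ⬝ᵥ n) ∧
      ∀ y ∈ A, y ⬝ᵥ n ≤ (a ν + s ν • rot ν) ⬝ᵥ n := by
  classical
  have hT := h.tv ν ((h.hDA ν).1 hν).1
  have hT' := h.tv ν' ((h.hDA ν').1 hν').1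
  have hDA2 : ∀ μ ∈ DA, μ = ν ∨ μ = ν' := by
    intro μ hμ
    by_contra hcon
    push Not at hcon
    have h3 : ({ν, ν', μ} : Finset (Vec 2)) ⊆ DA := by
      intro x hx
      simp only [Finset.mem_insert, Finset.mem_singleton] at hx
      rcases hx with rfl | rfl | rfl <;> assumption
    have h4 := Finset.card_le_card h3
    rw [Finset.card_eq_three.2 ⟨ν, ν', μ, hne, Ne.symm hcon.1, Ne.symm hcon.2, rfl⟩, h.cardA] at h4
    omega
  have hdet : ν 0 * n 1 - ν 1 * n 0 ≠ 0 := by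
    have := hpos.ne'
    rw [dot2, rot0, rot1] at this
    intro h0
    apply this
    linarith
  -- maximiser and minimiser of `n`
  obtain ⟨y₁, hy₁, hy₁'⟩ : ∃ y ∈ A, ∀ z ∈ A, z ⬝ᵥ n ≤ y ⬝ᵥ n := by
    rcases hn with rfl | rfl
    · have : a n ∈ fc A n := by rw [hT'.A1]; exact left_mem_segment ℝ _ _
      exact ⟨_, this.1, this.2⟩
    · have : a ν' + t ν' • w ν' ∈ fc A (-ν') := by rw [hT'.A2]; exact left_mem_segment ℝ _ _
      exact ⟨_, this.1, this.2⟩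
  obtain ⟨y₀, hy₀, hy₀'⟩ : ∃ y ∈ A, ∀ z ∈ A, y ⬝ᵥ n ≤ z ⬝ᵥ n := by
    rcases hn with rfl | rfl
    · have : a n + t n • w n ∈ fc A (-n) := by rw [hT'.A2]; exact left_mem_segment ℝ _ _
      rw [fc_neg_mem] at this
      exact ⟨_, this.1, this.2⟩
    · have : a ν' ∈ fc A ν' := by rw [hT'.A1]; exact left_mem_segment ℝ _ _
      refine ⟨_, this.1, fun z hz => ?_⟩
      have := this.2 z hz
      rw [dot_neg', dot_neg']; linarith
  -- points of `A` with prescribed coordinates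
  have hpt : ∀ z : Vec 2, (∃ y ∈ A, z ⬝ᵥ ν = y ⬝ᵥ ν) → (∃ y ∈ A, z ⬝ᵥ n = y ⬝ᵥ n) → z ∈ A := by
    rintro z ⟨y, hy, hy'⟩ ⟨y2, hy2, hy2'⟩
    apply h.fA
    intro μ hμ
    rcases hDA2 μ hμ with rfl | rfl
    · exact ⟨y, hy, y, hy, hy'.ge, hy'.le⟩
    · refine ⟨y2, hy2, y2, hy2, ?_, ?_⟩
      · rcases hn with rfl | rfl
        · exact hy2'.ge
        · rw [dot_neg', dot_neg'] at hy2'; linarith
      · rcases hn with rfl | rfl
        · exact hy2'.le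
        · rw [dot_neg', dot_neg'] at hy2'; linarith
  have ha := hT.ext.1.1
  have ha1 := hT.ext.2.1.1
  have ha2 := hT.ext.2.2.1.1
  have hamax : a ν ∈ fc A ν := by rw [hT.A1]; exact left_mem_segment ℝ _ _
  have hamin : a ν + t ν • w ν ∈ fc A (-ν) := by rw [hT.A2]; exact left_mem_segment ℝ _ _
  have hamin' := fc_neg_mem.1 hamin
  -- top edge, maximum
  obtain ⟨z1, hz1, hz1'⟩ := exists_dots hdet (a ν ⬝ᵥ ν) (y₁ ⬝ᵥ n)
  have m1 : z1 ∈ fc A ν := by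
    refine ⟨hpt z1 ⟨_, ha, hz1⟩ ⟨_, hy₁, hz1'⟩, fun y hy => ?_⟩
    rw [hz1]; exact hamax.2 y hy
  rw [hT.A1, mem_seg hT.hs] at m1
  obtain ⟨κ, hκ, rfl⟩ := m1
  have hmax : (a ν + s ν • rot ν) ⬝ᵥ n = y₁ ⬝ᵥ n := by
    apply le_antisymm (hy₁' _ ha1)
    rw [← hz1', dot_add', dot_add', dot_smul', dot_smul']
    have := mul_le_mul_of_nonneg_right hκ.2 hpos.le
    linarith
  -- top edge, minimum
  obtain ⟨z2, hz2, hz2'⟩ := exists_dots hdet (a ν ⬝ᵥ ν) (y₀ ⬝ᵥ n)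
  have m2 : z2 ∈ fc A ν := by
    refine ⟨hpt z2 ⟨_, ha, hz2⟩ ⟨_, hy₀, hz2'⟩, fun y hy => ?_⟩
    rw [hz2]; exact hamax.2 y hy
  rw [hT.A1, mem_seg hT.hs] at m2
  obtain ⟨κ2, hκ2, rfl⟩ := m2
  have hmin : a ν ⬝ᵥ n = y₀ ⬝ᵥ n := by
    apply le_antisymm _ (hy₀' _ ha)
    rw [← hz2', dot_add', dot_smul']
    have := mul_nonneg hκ2.1 hpos.le
    linarith
  -- bottom edge, minimum
  obtain ⟨z3, hz3, hz3'⟩ := exists_dots hdet ((a ν + t ν • w ν) ⬝ᵥ ν) (y₀ ⬝ᵥ n)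
  have m3 : z3 ∈ fc A (-ν) := by
    rw [fc_neg_mem]
    refine ⟨hpt z3 ⟨_, ha2, hz3⟩ ⟨_, hy₀, hz3'⟩, fun y hy => ?_⟩
    rw [hz3]; exact hamin'.2 y hy
  rw [hT.A2, mem_seg hT.hs] at m3
  obtain ⟨κ3, hκ3, rfl⟩ := m3
  have hmin2 : (a ν + t ν • w ν) ⬝ᵥ n = y₀ ⬝ᵥ n := by
    apply le_antisymm _ (hy₀' _ ha2)
    rw [← hz3', dot_add' (a ν + t ν • w ν), dot_smul']
    have := mul_nonneg hκ3.1 hpos.le
    linarith
  refine ⟨?_, fun y hy => by rw [hmin]; exact hy₀' y hy, fun y hy => by rw [hmax]; exact hy₁' y hy⟩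
  rw [dot_add', dot_smul'] at hmin2
  have : t ν * (w ν ⬝ᵥ n) = 0 := by linarith
  exact (mul_eq_zero.1 this).resolve_left hT.ht.ne'

/-- opposite vertices are not on a common side -/
theorem Oct.opp (h : Oct A B P Q D DA DB a b w s s' t t' c) {μ ν' n : Vec 2} (hμ : μ ∈ DB)
    (hν' : ν' ∈ DA) (hn : n = ν' ∨ n = -ν') (h0 : a μ ∈ fc A n)
    (h1 : a μ + t μ • w μ ∈ fc A n) : False := by
  have hT' := h.tv ν' ((h.hDA ν').1 hν').1
  have hT := h.tv μ ((h.hDB μ).1 hμ).1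
  obtain ⟨p1, p2⟩ := h.pt hμ
  obtain ⟨ω, hω, hsh⟩ : ∃ ω : Vec 2, ω ≠ 0 ∧ ∀ x ∈ fc A n, x + ω ∈ A := by
    have hne : t ν' • w ν' ≠ 0 := by
      refine smul_ne_zero hT'.ht.ne' fun h0 => ?_
      have := hT'.hw
      rw [h0, zero_dotProduct] at this
      exact lt_irrefl _ this
    rcases hn with rfl | rfl
    · exact ⟨_, hne, fun x hx => (hT'.shiftA hx).1⟩
    · refine ⟨-(t ν' • w ν'), neg_ne_zero.2 hne, fun x hx => ?_⟩
      rw [← sub_eq_add_neg]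
      exact (hT'.shiftA' hx).1
  have m0 : a μ ∈ fc A μ := by rw [p1]; rfl
  have m1 : a μ + t μ • w μ ∈ fc A (-μ) := by rw [p2]; rfl
  have e0 := m0.2 _ (hsh _ h0)
  have e1 := (fc_neg_mem.1 m1).2 _ (hsh _ h1)
  rw [dot_add'] at e0
  rw [dot_add' (a μ + t μ • w μ) ω] at e1
  have e2 : ω ⬝ᵥ μ = 0 := by linarith
  have m2 : a μ + ω ∈ fc A μ := by
    refine ⟨hsh _ h0, fun y hy => ?_⟩
    rw [dot_add', e2, add_zero]
    exact m0.2 y hy
  rw [p1, mem_singleton_iff] at m2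
  exact hω (by simpa using m2)

/-- Claim 1: the support of `P` consists of vertices. -/
theorem Oct.claim1 (h : Oct A B P Q D DA DB a b w s s' t t' c) {x : Vec 2}
    (hx : x ∈ P.coeff.support) : ∃ μ ∈ DB, x = a μ ∨ x = a μ + t μ • w μ := by
  classical
  have hbad : (D.filter fun ν => ¬ x ∈ (evAt ν P).coeff.support).card ≤ 1 := by
    refine form_roots (h.homP x) (Finsupp.mem_support_iff.1 hx) ?_ ?_ ?_
    · intro ν hν
      rw [Finset.mem_filter, Finsupp.notMem_support_iff, evAt_coeff] at hν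
      exact hν.2
    · intro ν hν
      exact h.ne ν (Finset.mem_filter.1 hν).1
    · intro ν hν μ hμ
      exact h.ind ν (Finset.mem_filter.1 hν).1 μ (Finset.mem_filter.1 hμ).1
  have hex : ∀ G : Finset (Vec 2), G ⊆ D → G.card = 2 → ∃ ν ∈ G, x ∈ (evAt ν P).coeff.support := by
    intro G hG hc
    by_contra hcon
    push Not at hcon
    have hsub : G ⊆ D.filter fun ν => ¬ x ∈ (evAt ν P).coeff.support :=
      fun ν hν => Finset.mem_filter.2 ⟨hG hν, hcon ν hν⟩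
    have := Finset.card_le_card hsub
    omega
  obtain ⟨ν, hν, hxν⟩ := hex DA (fun ν hν => ((h.hDA ν).1 hν).1) h.cardA
  obtain ⟨μ, hμ, hxμ⟩ := hex DB (fun ν hν => ((h.hDB ν).1 hν).1) h.cardB
  have hT := h.tv ν ((h.hDA ν).1 hν).1
  have hTμ := h.tv μ ((h.hDB μ).1 hμ).1
  obtain ⟨ρ, hρ, r', hr', e⟩ := hTμ.boxA x hxμ
  rw [h.s0 hμ] at hρ
  have hρ0 : ρ = 0 := le_antisymm hρ.2 hρ.1
  rw [hρ0, zero_smul, add_zero] at e
  refine ⟨μ, hμ, ?_⟩
  by_contra hcon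
  push Not at hcon
  have hr0 : 0 < r' := lt_of_le_of_ne hr'.1 fun h0 => hcon.1 (by rw [e, ← h0, zero_smul, add_zero])
  have hr1 : r' < t μ := lt_of_le_of_ne hr'.2 fun h0 => hcon.2 (by rw [e, h0])
  obtain ⟨ν', hν', hne⟩ : ∃ ν' ∈ DA, ν ≠ ν' := by
    by_contra hcon
    push Not at hcon
    have : DA ⊆ {ν} := fun z hz => Finset.mem_singleton.2 (hcon z hz).symm
    have := Finset.card_le_card this
    rw [h.cardA] at this
    simp at this
  have hrot0 : rot ν ⬝ᵥ ν' ≠ 0 := by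
    have := indep_iff.1 (h.ind ν ((h.hDA ν).1 hν).1 ν' ((h.hDA ν').1 hν').1 hne)
    rw [dot2, rot0, rot1]
    intro h0
    apply this
    linarith
  obtain ⟨n, hn, hpos⟩ : ∃ n, (n = ν' ∨ n = -ν') ∧ 0 < rot ν ⬝ᵥ n := by
    rcases lt_or_gt_of_ne hrot0 with h0 | h0
    · exact ⟨-ν', Or.inr rfl, by rw [dot_neg']; linarith⟩
    · exact ⟨ν', Or.inl rfl, h0⟩
  obtain ⟨s1, s2, s3⟩ := h.side hν hν' hne hn hpos
  have hs'0 : s' ν = 0 := h.symm.s0 hν
  obtain ⟨r2, hr2, hxl⟩ := hT.lines hs'0 hxν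
  have m0 := hTμ.ext.1.1
  have m1 := hTμ.ext.2.2.1.1
  have hxn : x ⬝ᵥ n = a μ ⬝ᵥ n + r' * (w μ ⬝ᵥ n) := by rw [e, dot_add', dot_smul']
  have ht := hTμ.ht
  rcases hxl with hxl | hxl
  · -- minimum of `n`
    have hxmin : x ⬝ᵥ n = a ν ⬝ᵥ n := by rw [hxl, dot_add', dot_smul', s1, mul_zero, add_zero]
    have q0 := s2 _ m0
    have q1 := s2 _ m1
    rw [dot_add', dot_smul'] at q1
    have hw0 : w μ ⬝ᵥ n = 0 := by
      rw [hxmin] at hxn
      have h5 : r' * (w μ ⬝ᵥ n) ≤ 0 := by linarith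
      have h6 : w μ ⬝ᵥ n ≤ 0 := by
        by_contra h7
        push Not at h7
        have := mul_pos hr0 h7
        linarith
      have h8 : 0 ≤ (t μ - r') * (w μ ⬝ᵥ n) := by linarith
      have h9 : 0 ≤ w μ ⬝ᵥ n := nonneg_of_mul_nonneg_right h8 (sub_pos.2 hr1)
      linarith
    rw [hw0, mul_zero, add_zero, hxmin] at hxn
    have hn' : -n = ν' ∨ -n = -ν' := by
      rcases hn with rfl | rfl
      · right; rfl
      · left; rw [neg_neg]
    refine h.opp hμ hν' hn' ?_ ?_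
    · rw [fc_neg_mem]
      exact ⟨m0, fun y hy => by rw [← hxn]; exact s2 y hy⟩
    · rw [fc_neg_mem]
      refine ⟨m1, fun y hy => ?_⟩
      rw [dot_add', dot_smul', hw0, mul_zero, add_zero, ← hxn]
      exact s2 y hy
  · -- maximum of `n`
    have hxmax : x ⬝ᵥ n = (a ν + s ν • rot ν) ⬝ᵥ n := by
      rw [hxl, dot_add' (a ν + s ν • rot ν), dot_smul', s1, mul_zero, add_zero]
    have q0 := s3 _ m0
    have q1 := s3 _ m1
    rw [dot_add' (a μ), dot_smul'] at q1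
    have hw0 : w μ ⬝ᵥ n = 0 := by
      rw [hxmax] at hxn
      have h5 : 0 ≤ r' * (w μ ⬝ᵥ n) := by linarith
      have h6 : 0 ≤ w μ ⬝ᵥ n := nonneg_of_mul_nonneg_right h5 hr0
      have h8 : (t μ - r') * (w μ ⬝ᵥ n) ≤ 0 := by linarith
      by_contra h10
      have h9 : 0 < w μ ⬝ᵥ n := lt_of_le_of_ne h6 (Ne.symm h10)
      have := mul_pos (sub_pos.2 hr1) h9
      linarith
    rw [hw0, mul_zero, add_zero, hxmax] at hxn
    refine h.opp hμ hν' hn ?_ ?_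
    · exact ⟨m0, fun y hy => by rw [← hxn]; exact s3 y hy⟩
    · refine ⟨m1, fun y hy => ?_⟩
      rw [dot_add' (a μ), dot_smul', hw0, mul_zero, add_zero, ← hxn]
      exact s3 y hy

theorem Oct.ext_of_supp (h : Oct A B P Q D DA DB a b w s s' t t' c) {x : Vec 2}
    (hx : x ∈ P.coeff.support) : x ∈ A.extremePoints ℝ := by
  obtain ⟨μ, hμ, hx⟩ := h.claim1 hx
  have hT := h.tv μ ((h.hDB μ).1 hμ).1
  rcases hx with rfl | rfl
  · exact hT.ext.1
  · exact hT.ext.2.2.1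

/-- Claim 3: `t = t'`. -/
theorem Oct.half (h : Oct A B P Q D DA DB a b w s s' t t' c) {μ : Vec 2} (hμ : μ ∈ DB) :
    t μ = t' μ := by
  classical
  have hT := h.tv μ ((h.hDB μ).1 hμ).1
  have hs0 := h.s0 hμ
  have hs' := ((h.hDB μ).1 hμ).2
  have hww : w μ ⬝ᵥ rot (w μ) = 0 := by rw [dotProduct_comm, rot_dot]
  have hgu := hT.gu
  have hw0 : w μ ≠ 0 := fun h0 => by
    have := hT.hw
    rw [h0, zero_dotProduct] at this
    exact lt_irrefl _ this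
  have htw : t μ • w μ ≠ 0 := smul_ne_zero hT.ht.ne' hw0
  -- support of `p`
  have hsuppP : ∀ x ∈ (evAt μ P).coeff.support, x = a μ ∨ x = a μ + t μ • w μ := by
    intro x hx
    have h1 := hT.corner h.cA hx (h.ext_of_supp (evAt_support μ P hx))
    rw [hs0, zero_smul, add_zero, add_zero] at h1
    tauto
  -- `b + t w` is in the support of `q`
  have hmem : b μ + t μ • w μ ∈ (evAt μ Q).coeff.support := by
    by_contra hcon
    have hu : UniqueAdd (evAt μ P).coeff.support (evAt μ Q).coeff.support (a μ + t μ • w μ)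
        (b μ) := by
      intro x y hx hy hxy
      rcases hsuppP x hx with rfl | rfl
      · exfalso
        apply hcon
        have : y = b μ + t μ • w μ := by
          have h2 : a μ + y = a μ + (b μ + t μ • w μ) := by rw [hxy]; abel
          exact add_left_cancel h2
        rw [← this]
        exact hy
      · exact ⟨rfl, add_left_cancel hxy⟩
    have h1 : (a μ + t μ • w μ) + b μ ∈ (evAt μ P * evAt μ Q).coeff.support := by
      rw [Finsupp.mem_support_iff, AddMonoidAlgebra.coeff_mul_add_of_uniqueAdd hu]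
      exact mul_ne_zero (Finsupp.mem_support_iff.1 hT.a01) (Finsupp.mem_support_iff.1 hT.b00)
    rw [hT.four] at h1
    have hss := hT.hss
    rcases h1 with h1 | h1 | h1 | h1
    · apply htw
      have h2 : (a μ + b μ) + t μ • w μ = (a μ + b μ) + 0 := by
        calc (a μ + b μ) + t μ • w μ = (a μ + t μ • w μ) + b μ := by abel
          _ = a μ + b μ := h1
          _ = (a μ + b μ) + 0 := (add_zero _).symm
      exact add_left_cancel h2
    · have h2 := congrArg (fun z => z ⬝ᵥ rot (w μ)) h1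
      simp only [dot_add', dot_smul', hww] at h2
      have : (s μ + s' μ) * (rot μ ⬝ᵥ rot (w μ)) = 0 := by linarith
      rcases mul_eq_zero.1 this with h3 | h3
      · exact hss.ne' h3
      · exact hgu.ne h3
    · have h2 : t μ • w μ = (1 : ℝ) • w μ := by
        have h3 : (a μ + b μ) + t μ • w μ = (a μ + b μ) + w μ := by rw [← h1]; abel
        rw [one_smul]
        exact add_left_cancel h3
      have h4 := smul_left_injective ℝ hw0 h2
      have h5 := hT.htt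
      have h6 := hT.ht'
      linarith
    · have h2 := congrArg (fun z => z ⬝ᵥ rot (w μ)) h1
      simp only [dot_add', dot_smul', hww] at h2
      have : (s μ + s' μ) * (rot μ ⬝ᵥ rot (w μ)) = 0 := by linarith
      rcases mul_eq_zero.1 this with h3 | h3
      · exact hss.ne' h3
      · exact hgu.ne h3
  have h1 := hT.symm.corner h.cB hmem (h.symm.ext_of_supp (evAt_support μ Q hmem))
  rcases h1 with h1 | h1 | h1 | h1
  · exfalso
    exact htw (by simpa using h1)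
  · exfalso
    have h2 := congrArg (fun z => z ⬝ᵥ rot (w μ)) h1
    simp only [dot_add', dot_smul', hww] at h2
    have : s' μ * (rot μ ⬝ᵥ rot (w μ)) = 0 := by linarith
    rcases mul_eq_zero.1 this with h3 | h3
    · exact hs'.ne' h3
    · exact hgu.ne h3
  · exact smul_left_injective ℝ hw0 (add_left_cancel h1)
  · exfalso
    have h2 := congrArg (fun z => z ⬝ᵥ rot (w μ)) h1
    simp only [dot_add', dot_smul', hww] at h2
    have : s' μ * (rot μ ⬝ᵥ rot (w μ)) = 0 := by linarith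
    rcases mul_eq_zero.1 this with h3 | h3
    · exact hs'.ne' h3
    · exact hgu.ne h3

/-- The octagon case is impossible. -/
theorem Oct.false (h : Oct A B P Q D DA DB a b w s s' t t' c) : False := by
  classical
  obtain ⟨ν, hν⟩ : DA.Nonempty := by
    rw [← Finset.card_pos, h.cardA]; norm_num
  obtain ⟨μ₁, μ₂, hμ, hDB⟩ := Finset.card_eq_two.1 h.cardB
  have hμ₁ : μ₁ ∈ DB := by rw [hDB]; simp
  have hμ₂ : μ₂ ∈ DB := by rw [hDB]; simp
  have hd1 := ((h.hDB μ₁).1 hμ₁).1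
  have hd2 := ((h.hDB μ₂).1 hμ₂).1
  have hdet := indep_iff.1 (h.ind μ₁ hd1 μ₂ hd2 hμ)
  have hT := h.tv ν ((h.hDA ν).1 hν).1
  have hsν := ((h.hDA ν).1 hν).2
  -- centre of `B`
  obtain ⟨z₀, hz1, hz2⟩ := exists_dots hdet (b μ₁ ⬝ᵥ μ₁ + t' μ₁ * (w μ₁ ⬝ᵥ μ₁) / 2)
    (b μ₂ ⬝ᵥ μ₂ + t' μ₂ * (w μ₂ ⬝ᵥ μ₂) / 2)
  have hcen : ∀ μ ∈ DB, z₀ ⬝ᵥ μ = b μ ⬝ᵥ μ + t' μ * (w μ ⬝ᵥ μ) / 2 := by
    intro μ hμ'
    rw [hDB, Finset.mem_insert, Finset.mem_singleton] at hμ'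
    rcases hμ' with rfl | rfl
    · exact hz1
    · exact hz2
  -- a difference of points of `A`, halved, stays in `B - z₀`
  have hkey : ∀ x ∈ A, ∀ y ∈ A, z₀ + (1 / 2 : ℝ) • (x - y) ∈ B := by
    intro x hx y hy
    apply h.fB
    intro μ hμ'
    have hTμ := h.tv μ ((h.hDB μ).1 hμ').1
    have hh := h.half hμ'
    have m0 : a μ ∈ fc A μ := by rw [hTμ.A1]; exact left_mem_segment ℝ _ _
    have m1 : a μ + t μ • w μ ∈ fc A (-μ) := by rw [hTμ.A2]; exact left_mem_segment ℝ _ _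
    have e1 := m0.2 x hx
    have e2 := m0.2 y hy
    have e3 := (fc_neg_mem.1 m1).2 x hx
    have e4 := (fc_neg_mem.1 m1).2 y hy
    rw [dot_add', dot_smul'] at e3 e4
    have hc := hcen μ hμ'
    refine ⟨b μ + t' μ • w μ, hTμ.symm.ext.2.2.1.1, b μ, hTμ.symm.ext.1.1, ?_, ?_⟩
    · rw [dot_add', dot_smul', dot_add', dot_smul', sub_dotProduct, hc]
      rw [← hh]
      linarith
    · rw [dot_add', dot_smul', sub_dotProduct, hc]
      rw [← hh]
      linarith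
  have hpt := h.symm.pt hν
  have hhν : t' ν = t ν := h.symm.half hν
  have mB0 : b ν ∈ fc B ν := by rw [hpt.1]; rfl
  have mB1 : b ν + t' ν • w ν ∈ fc B (-ν) := by rw [hpt.2]; rfl
  have hfin : ∀ x ∈ A, ∀ y ∈ A, (x - y) ⬝ᵥ ν = -(t ν * (w ν ⬝ᵥ ν)) →
      z₀ + (1 / 2 : ℝ) • (x - y) = b ν := by
    intro x hx y hy hxy
    have n1 := hkey x hx y hy
    have n2 := hkey y hy x hx
    have e1 := mB0.2 _ n1
    have e2 := (fc_neg_mem.1 mB1).2 _ n2
    have hyx : (y - x) ⬝ᵥ ν = t ν * (w ν ⬝ᵥ ν) := by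
      rw [sub_dotProduct] at hxy ⊢
      linarith
    rw [dot_add' z₀, dot_smul', hxy] at e1
    rw [dot_add' z₀, dot_smul', hyx, dot_add', dot_smul', hhν] at e2
    have m2 : z₀ + (1 / 2 : ℝ) • (x - y) ∈ fc B ν := by
      refine ⟨n1, fun z hz => ?_⟩
      have := mB0.2 z hz
      rw [dot_add' z₀, dot_smul', hxy]
      linarith
    rw [hpt.1] at m2
    exact m2
  obtain ⟨x1, x2, x3, x4⟩ := hT.ext
  have f1 := hfin _ x2.1 _ x3.1 (by
    rw [sub_dotProduct, dot_add', dot_add', dot_smul', dot_smul', rot_dot]; ring)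
  have f2 := hfin _ x1.1 _ x4.1 (by
    rw [sub_dotProduct, dot_add', dot_add', dot_smul', dot_smul', rot_dot]; ring)
  have f3 : (a ν + s ν • rot ν) - (a ν + t ν • w ν) = a ν - (a ν + t ν • w ν + s ν • rot ν) := by
    have := f1.trans f2.symm
    have h5 := add_left_cancel this
    exact smul_right_injective _ (by norm_num : (1 / 2 : ℝ) ≠ 0) h5
  have f4 : (2 * s ν) • rot ν = 0 := by
    have h6 : (2 * s ν) • rot ν = ((a ν + s ν • rot ν) - (a ν + t ν • w ν)) -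
        (a ν - (a ν + t ν • w ν + s ν • rot ν)) := by
      rw [two_mul, add_smul]; abel
    rw [h6, f3, sub_self]
  rcases smul_eq_zero.1 f4 with h7 | h7
  · linarith
  · exact hT.rot_ne' h7

end

end Pc

end Pool.Agent.Covg
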