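import Pool.Agent.Work.MP_177351_gt.PcTv

/-!
# Planar core, the case of a segment
-/

set_option autoImplicit false

open MvPolynomial Set
open scoped Matrix Pointwise

namespace Pool.Agent.Covg

namespace Pc

theorem add_mem_fc {A B : Set (Vec 2)} {ν x y : Vec 2} (hx : x ∈ fc A ν) (hy : y ∈ fc B ν) :
    x + y ∈ fc (A + B) ν := by
  refine ⟨add_mem_add hx.1 hy.1, ?_⟩
  rintro z ⟨x', hx', y', hy', rfl⟩
  simp only [dot_add']
  exact add_le_add (hx.2 x' hx') (hy.2 y' hy')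

theorem of_mem_fc_add {A B : Set (Vec 2)} {ν p : Vec 2} (hp : p ∈ fc (A + B) ν) :
    ∃ x ∈ fc A ν, ∃ y ∈ fc B ν, p = x + y := by
  obtain ⟨⟨x, hx, y, hy, rfl⟩, h⟩ := hp
  refine ⟨x, ⟨hx, fun x' hx' => ?_⟩, y, ⟨hy, fun y' hy' => ?_⟩, rfl⟩
  · have := h _ (add_mem_add hx' hy)
    simp only [dot_add'] at this
    linarith
  · have := h _ (add_mem_add hx hy')
    simp only [dot_add'] at this
    linarith

theorem fc_smul_pos {K : Set (Vec 2)} {ν : Vec 2} {c : ℝ} (hc : 0 < c) :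
    fc K (c • ν) = fc K ν := by
  ext x
  simp only [fc_mem, dot_smul'']
  constructor
  · rintro ⟨h, h'⟩
    exact ⟨h, fun y hy => le_of_mul_le_mul_left (h' y hy) hc⟩
  · rintro ⟨h, h'⟩
    exact ⟨h, fun y hy => mul_le_mul_of_nonneg_left (h' y hy) hc.le⟩

theorem fc_smul_neg {K : Set (Vec 2)} {ν : Vec 2} {c : ℝ} (hc : c < 0) :
    fc K (c • ν) = fc K (-ν) := by
  have : c • ν = (-c) • (-ν) := by rw [smul_neg, neg_smul, neg_neg]
  rw [this, fc_smul_pos (neg_pos.2 hc)]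

variable {A B : Set (Vec 2)} {p q : AddMonoidAlgebra ℝ (Vec 2)} {ν a b w : Vec 2}
    {s s' t t' c : ℝ}

theorem TV.shiftA (h : TV A B p q ν a b w s s' t t' c) {x : Vec 2} (hx : x ∈ fc A ν) :
    x + t • w ∈ fc A (-ν) := by
  rw [h.A1, mem_seg h.hs] at hx
  obtain ⟨κ, hκ, rfl⟩ := hx
  rw [h.A2, mem_seg h.hs]
  exact ⟨κ, hκ, by abel⟩

theorem TV.shiftA' (h : TV A B p q ν a b w s s' t t' c) {x : Vec 2} (hx : x ∈ fc A (-ν)) :
    x - t • w ∈ fc A ν := by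
  rw [h.A2, mem_seg h.hs] at hx
  obtain ⟨κ, hκ, rfl⟩ := hx
  rw [h.A1, mem_seg h.hs]
  exact ⟨κ, hκ, by abel⟩

theorem TV.shift (h : TV A B p q ν a b w s s' t t' c) {x : Vec 2} (hx : x ∈ fc (A + B) ν) :
    x + w ∈ fc (A + B) (-ν) := by
  obtain ⟨y, hy, z, hz, rfl⟩ := of_mem_fc_add hx
  have := add_mem_fc (h.shiftA hy) (h.symm.shiftA hz)
  have e : y + z + w = (y + t • w) + (z + t' • w) := by
    have : w = (t + t') • w := by rw [h.htt, one_smul]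
    conv_lhs => rw [this, add_smul]
    abel
  rw [e]
  exact this

theorem TV.shift' (h : TV A B p q ν a b w s s' t t' c) {x : Vec 2} (hx : x ∈ fc (A + B) (-ν)) :
    x - w ∈ fc (A + B) ν := by
  obtain ⟨y, hy, z, hz, rfl⟩ := of_mem_fc_add hx
  have := add_mem_fc (h.shiftA' hy) (h.symm.shiftA' hz)
  have e : y + z - w = (y - t • w) + (z - t' • w) := by
    have : w = (t + t') • w := by rw [h.htt, one_smul]
    conv_lhs => rw [this, add_smul]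
    abel
  rw [e]
  exact this

theorem TV.ν_ne (h : TV A B p q ν a b w s s' t t' c) : ν ≠ 0 := by
  rintro rfl
  have := h.hw
  simp at this

/-- two different points in the top face -/
theorem TV.two (h : TV A B p q ν a b w s s' t t' c) :
    ∃ x ∈ fc (A + B) ν, ∃ y ∈ fc (A + B) ν, x ≠ y := by
  refine ⟨a + b, ?_, (a + s • rot ν) + (b + s' • rot ν), ?_, ?_⟩
  · exact add_mem_fc (by rw [h.A1]; exact left_mem_segment ℝ _ _)
      (by rw [h.B1]; exact left_mem_segment ℝ _ _)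
  · exact add_mem_fc (by rw [h.A1]; exact right_mem_segment ℝ _ _)
      (by rw [h.B1]; exact right_mem_segment ℝ _ _)
  · intro e
    have h1 : (s + s') • rot ν = 0 := by
      have : (a + s • rot ν) + (b + s' • rot ν) = (a + b) + (s + s') • rot ν := by
        rw [add_smul]; abel
      rw [this] at e
      exact left_eq_add.1 e
    rcases smul_eq_zero.1 h1 with h2 | h2
    · exact h.hss.ne' h2
    · exact rot_ne h.ν_ne h2

theorem two_normals {K : Set (Vec 2)} {u n₁ n₂ : Vec 2} {s₁ s₂ : ℝ}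
    (hdet : n₁ 0 * n₂ 1 - n₁ 1 * n₂ 0 ≠ 0) (h1 : u ⬝ᵥ n₁ = 1) (h2 : u ⬝ᵥ n₂ = 1)
    (hs1 : ∀ x ∈ fc K n₁, x - s₁ • u ∈ fc K (-n₁)) (hs2 : ∀ x ∈ fc K n₂, x - s₂ • u ∈ fc K (-n₂))
    {x x' : Vec 2} (hx : x ∈ fc K n₁) (hx' : x' ∈ fc K n₁) (hxx : x ≠ x')
    {y : Vec 2} (hy : y ∈ fc K n₂) : False := by
  have key : ∀ z ∈ fc K n₁, z = y := by
    intro z hz
    have e1 := hz.2 y hy.1
    have e2 := hy.2 z hz.1
    have e3 := (fc_neg_mem.1 (hs1 z hz)).2 _ (hs2 y hy).1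
    have e4 := (fc_neg_mem.1 (hs2 y hy)).2 _ (hs1 z hz).1
    simp only [sub_dotProduct, dot_smul', h1, h2] at e3 e4
    apply eq_of_dots hdet <;> linarith
  exact hxx ((key x hx).trans (key x' hx').symm)

/-- the convex hull of a collinear finite set -/
theorem col_hull {S : Finset (Vec 2)} (hS : ¬ (S : Set (Vec 2)).Subsingleton) {n : Vec 2}
    (hn : n ≠ 0) (hcol : ∀ x ∈ S, ∀ y ∈ S, x ⬝ᵥ n = y ⬝ᵥ n) :
    ∃ (a : Vec 2) (κ : ℝ), 0 < κ ∧ convexHull ℝ (S : Set (Vec 2)) = segment ℝ a (a + κ • rot n) := by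
  have hSne : S.Nonempty := by
    by_contra h
    rw [Finset.not_nonempty_iff_eq_empty] at h
    apply hS
    rw [h]; simp
  set u := rot n with hu
  have huu : 0 < u ⬝ᵥ u := by rw [dot2]; exact ne_zero_sq (rot_ne hn)
  have hdet : u 0 * n 1 - u 1 * n 0 ≠ 0 := by
    rw [hu, rot0, rot1]
    have := ne_zero_sq hn
    intro h; linarith
  obtain ⟨a, ha, ha'⟩ := S.exists_min_image (fun x => x ⬝ᵥ u) hSne
  obtain ⟨b, hb, hb'⟩ := S.exists_max_image (fun x => x ⬝ᵥ u) hSne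
  have hun : u ⬝ᵥ n = 0 := rot_dot n
  have hform : ∀ x ∈ S, x = a + ((x ⬝ᵥ u - a ⬝ᵥ u) / (u ⬝ᵥ u)) • u := by
    intro x hx
    apply eq_of_dots hdet
    · rw [dot_add', dot_smul', div_mul_cancel₀ _ huu.ne']; ring
    · rw [dot_add', dot_smul', hun, mul_zero, add_zero]; exact hcol x hx a ha
  set κ := (b ⬝ᵥ u - a ⬝ᵥ u) / (u ⬝ᵥ u) with hκ
  have hκ0 : 0 ≤ κ := div_nonneg (sub_nonneg.2 (ha' b hb)) huu.le
  refine ⟨a, κ, ?_, ?_⟩
  · rcases hκ0.eq_or_lt with h | h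
    · exfalso
      apply hS
      have h1 : b ⬝ᵥ u = a ⬝ᵥ u := by
        have : b ⬝ᵥ u - a ⬝ᵥ u = 0 := by
          rcases div_eq_zero_iff.1 h.symm with h2 | h2
          · exact h2
          · exact absurd h2 huu.ne'
        linarith
      intro x hx y hy
      have e1 := ha' x hx
      have e2 := hb' x hx
      have e3 := ha' y hy
      have e4 := hb' y hy
      exact eq_of_dots hdet (by linarith) (hcol x hx y hy)
    · exact h
  · apply Subset.antisymm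
    · apply convexHull_min _ (convex_segment _ _)
      intro x hx
      rw [mem_seg hκ0]
      refine ⟨(x ⬝ᵥ u - a ⬝ᵥ u) / (u ⬝ᵥ u), ⟨div_nonneg (sub_nonneg.2 (ha' x hx)) huu.le, ?_⟩,
        hform x hx⟩
      exact div_le_div_of_nonneg_right (by linarith [hb' x hx]) huu.le
    · apply (convex_convexHull ℝ _).segment_subset
      · exact subset_convexHull ℝ _ ha
      · rw [← hform b hb]; exact subset_convexHull ℝ _ hb

theorem hull_sum (P Q : EA 2) : Nw P + Nw Q =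
    convexHull ℝ ((P.coeff.support + Q.coeff.support : Finset (Vec 2)) : Set (Vec 2)) := by
  rw [Finset.coe_add, convexHull_add]
  rfl

theorem normal_of_tv (h : TV A B p q ν a b w s s' t t' c) {n₀ : Vec 2} (hwn : w ⬝ᵥ n₀ = 0)
    (hn₀ : n₀ ≠ 0) (hν : rot n₀ ⬝ᵥ ν ≠ 0) :
    ∃ (r σ : ℝ), r ≠ 0 ∧ rot n₀ ⬝ᵥ (r • ν) = 1 ∧
      (∀ x ∈ fc (A + B) (r • ν), x - σ • rot n₀ ∈ fc (A + B) (-(r • ν))) ∧
      ∃ x ∈ fc (A + B) (r • ν), ∃ y ∈ fc (A + B) (r • ν), x ≠ y := by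
  set u := rot n₀ with hu
  have huu : 0 < u ⬝ᵥ u := by rw [dot2]; exact ne_zero_sq (rot_ne hn₀)
  have hdet : u 0 * n₀ 1 - u 1 * n₀ 0 ≠ 0 := by
    rw [hu, rot0, rot1]
    have := ne_zero_sq hn₀
    intro h; linarith
  have hwκ : w = ((w ⬝ᵥ u) / (u ⬝ᵥ u)) • u := by
    apply eq_of_dots hdet
    · rw [dot_smul', div_mul_cancel₀ _ huu.ne']
    · rw [dot_smul', hwn, hu, rot_dot, mul_zero]
  set κ := (w ⬝ᵥ u) / (u ⬝ᵥ u) with hκ
  rcases lt_or_gt_of_ne hν with h1 | h1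
  · have hr : (u ⬝ᵥ ν)⁻¹ < 0 := inv_lt_zero.2 h1
    refine ⟨(u ⬝ᵥ ν)⁻¹, κ, hr.ne, ?_, ?_, ?_⟩
    · rw [dot_smul'', inv_mul_cancel₀ hν]
    · intro x hx
      rw [fc_smul_neg hr] at hx
      have e : -((u ⬝ᵥ ν)⁻¹ • ν) = (-(u ⬝ᵥ ν)⁻¹) • ν := by rw [neg_smul]
      rw [e, fc_smul_pos (neg_pos.2 hr), ← hwκ]
      exact h.shift' hx
    · obtain ⟨x, hx, y, hy, hxy⟩ := h.two
      rw [fc_smul_neg hr]
      exact ⟨x + w, h.shift hx, y + w, h.shift hy, fun e => hxy (add_right_cancel e)⟩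
  · have hr : 0 < (u ⬝ᵥ ν)⁻¹ := inv_pos.2 h1
    refine ⟨(u ⬝ᵥ ν)⁻¹, -κ, hr.ne', ?_, ?_, ?_⟩
    · rw [dot_smul'', inv_mul_cancel₀ hν]
    · intro x hx
      rw [fc_smul_pos hr] at hx
      have e : -((u ⬝ᵥ ν)⁻¹ • ν) = (-(u ⬝ᵥ ν)⁻¹) • ν := by rw [neg_smul]
      rw [e, fc_smul_neg (neg_lt_zero.2 hr), neg_smul, sub_neg_eq_add, ← hwκ]
      exact h.shift hx
    · rw [fc_smul_pos hr]
      exact h.two

/-- The case where the Newton polygon of `Q` is a segment. -/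
theorem pc3 {K : Set (Vec 2)} {P Q : EA 2} {dP dQ : ℕ} {D : Finset (Vec 2)}
    (h : PData K P Q dP dQ D) (hP : ¬ Mono P) (hQ : ¬ Mono Q) {n₀ : Vec 2} (hn₀ : n₀ ≠ 0)
    (hcol : ∀ x ∈ Q.coeff.support, ∀ y ∈ Q.coeff.support, x ⬝ᵥ n₀ = y ⬝ᵥ n₀) :
    ∃ v d d' : Vec 2, LinearIndependent ℝ ![d, d'] ∧
      K = {x | ∃ s ∈ Icc (0 : ℝ) 1, ∃ r ∈ Icc (0 : ℝ) 1, x = v + s • d + r • d'} := by
  classical
  obtain ⟨b, κ, hκ, hB⟩ := col_hull hQ hn₀ hcol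
  by_cases h1 : ∃ ν ∈ D, rot n₀ ⬝ᵥ ν ≠ 0 ∧
    ∀ x ∈ P.coeff.support, ∀ y ∈ P.coeff.support, x ⬝ᵥ ν = y ⬝ᵥ ν
  · obtain ⟨ν, hν, hνu, hc⟩ := h1
    obtain ⟨a, κ', hκ', hA⟩ := col_hull hP (h.ne ν hν) hc
    refine ⟨a + b, κ' • rot ν, κ • rot n₀, ?_, ?_⟩
    · rw [indep_iff]
      simp only [Pi.smul_apply, smul_eq_mul, rot0, rot1]
      rw [dot2, rot0, rot1] at hνu
      have : κ' * -ν 1 * (κ * n₀ 0) - κ' * ν 0 * (κ * -n₀ 1) =
        -(κ' * κ * (-n₀ 1 * ν 0 + n₀ 0 * ν 1)) := by ring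
      rw [this]
      exact neg_ne_zero.2 (mul_ne_zero (mul_ne_zero hκ'.ne' hκ.ne') hνu)
    · rw [← h.sum]
      have hA' : Nw P = segment ℝ a (a + κ' • rot ν) := hA
      have hB' : Nw Q = segment ℝ b (b + κ • rot n₀) := hB
      rw [hA', hB']
      ext x
      constructor
      · rintro ⟨y, hy, z, hz, rfl⟩
        rw [mem_seg hκ'.le] at hy
        rw [mem_seg hκ.le] at hz
        obtain ⟨r, hr, rfl⟩ := hy
        obtain ⟨r', hr', rfl⟩ := hz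
        refine ⟨r / κ', ⟨div_nonneg hr.1 hκ'.le, (div_le_one hκ').2 hr.2⟩,
          r' / κ, ⟨div_nonneg hr'.1 hκ.le, (div_le_one hκ).2 hr'.2⟩, ?_⟩
        rw [smul_smul, smul_smul, div_mul_cancel₀ _ hκ'.ne', div_mul_cancel₀ _ hκ.ne']
        simp only
        abel
      · rintro ⟨r, hr, r', hr', rfl⟩
        refine ⟨a + (r * κ') • rot ν, ?_, b + (r' * κ) • rot n₀, ?_, ?_⟩
        · rw [mem_seg hκ'.le]
          exact ⟨r * κ', ⟨mul_nonneg hr.1 hκ'.le, by nlinarith [hr.2]⟩, rfl⟩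
        · rw [mem_seg hκ.le]
          exact ⟨r' * κ, ⟨mul_nonneg hr'.1 hκ.le, by nlinarith [hr'.2]⟩, rfl⟩
        · simp only [smul_smul]
          abel
  · push Not at h1
    -- every direction not orthogonal to the segment is transversal
    have hQn : ∃ x ∈ Q.coeff.support, ∃ y ∈ Q.coeff.support, x ≠ y := by
      by_contra hcon
      push Not at hcon
      exact hQ fun x hx y hy => hcon x hx y hy
    have hdet : (rot n₀) 0 * n₀ 1 - (rot n₀) 1 * n₀ 0 ≠ 0 := by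
      rw [rot0, rot1]
      have := ne_zero_sq hn₀
      intro h; linarith
    have huu : 0 < rot n₀ ⬝ᵥ rot n₀ := by rw [dot2]; exact ne_zero_sq (rot_ne hn₀)
    have htv : ∀ ν ∈ D, rot n₀ ⬝ᵥ ν ≠ 0 → ∃ (r σ : ℝ), r ≠ 0 ∧ rot n₀ ⬝ᵥ (r • ν) = 1 ∧
      (∀ x ∈ fc K (r • ν), x - σ • rot n₀ ∈ fc K (-(r • ν))) ∧
      ∃ x ∈ fc K (r • ν), ∃ y ∈ fc K (r • ν), x ≠ y := by
      intro ν hν hνu
      have hnP := h1 ν hν hνu
      have hnQ : ∃ a ∈ Q.coeff.support, ∃ b ∈ Q.coeff.support, a ⬝ᵥ ν ≠ b ⬝ᵥ ν := by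
        obtain ⟨x, hx, y, hy, hxy⟩ := hQn
        refine ⟨x, hx, y, hy, fun he => hxy ?_⟩
        have e1 : x = y + ((x ⬝ᵥ rot n₀ - y ⬝ᵥ rot n₀) / (rot n₀ ⬝ᵥ rot n₀)) • rot n₀ := by
          apply eq_of_dots hdet
          · rw [dot_add', dot_smul', div_mul_cancel₀ _ huu.ne']; ring
          · rw [dot_add', dot_smul', rot_dot, mul_zero, add_zero]; exact hcol x hx y hy
        have e2 : x ⬝ᵥ ν = y ⬝ᵥ ν +
            ((x ⬝ᵥ rot n₀ - y ⬝ᵥ rot n₀) / (rot n₀ ⬝ᵥ rot n₀)) * (rot n₀ ⬝ᵥ ν) := by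
          conv_lhs => rw [e1]
          rw [dot_add', dot_smul']
        have e3 : ((x ⬝ᵥ rot n₀ - y ⬝ᵥ rot n₀) / (rot n₀ ⬝ᵥ rot n₀)) * (rot n₀ ⬝ᵥ ν) = 0 := by
          linarith
        have e4 := (mul_eq_zero.1 e3).resolve_right hνu
        rw [e1, e4, zero_smul, add_zero]
      obtain ⟨a', b', w, s, s', t, t', c, hT⟩ :=
        exists_tv h.sum (h.ne ν hν) (h.full ν hν) (h.prod ν hν) hnP hnQ
      have hb00 := evAt_support ν Q hT.b00
      have hb01 := evAt_support ν Q hT.b01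
      have hwn : w ⬝ᵥ n₀ = 0 := by
        have := hcol _ hb01 _ hb00
        rw [dot_add', dot_smul'] at this
        have h3 : t' * (w ⬝ᵥ n₀) = 0 := by linarith
        exact (mul_eq_zero.1 h3).resolve_left hT.ht'.ne'
      have := normal_of_tv hT hwn hn₀ hνu
      rw [h.sum] at this
      exact this
    have hcard : D.card ≤ 2 := by
      obtain ⟨F₁, hF₁⟩ : ∃ F : Finset (Vec 2), ∀ ν, ν ∈ F ↔ ν ∈ D ∧ rot n₀ ⬝ᵥ ν ≠ 0 :=
        ⟨D.filter fun ν => rot n₀ ⬝ᵥ ν ≠ 0, fun ν => Finset.mem_filter⟩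
      obtain ⟨F₂, hF₂⟩ : ∃ F : Finset (Vec 2), ∀ ν, ν ∈ F ↔ ν ∈ D ∧ ¬ rot n₀ ⬝ᵥ ν ≠ 0 :=
        ⟨D.filter fun ν => ¬ rot n₀ ⬝ᵥ ν ≠ 0, fun ν => Finset.mem_filter⟩
      have hc1 : F₁.card ≤ 1 := by
        rw [Finset.card_le_one]
        intro ν hν μ hμ
        rw [hF₁] at hν hμ
        by_contra hne
        obtain ⟨r, σ, hr, hr1, hs, x, hx, x', hx', hxx⟩ := htv ν hν.1 hν.2
        obtain ⟨r2, σ2, hr2, hr21, hs2, y, hy, -⟩ := htv μ hμ.1 hμ.2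
        have hd := indep_iff.1 (h.indep ν hν.1 μ hμ.1 hne)
        refine two_normals (n₁ := r • ν) (n₂ := r2 • μ) ?_ hr1 hr21 hs hs2 hx hx' hxx hy
        simp only [Pi.smul_apply, smul_eq_mul]
        have : r * ν 0 * (r2 * μ 1) - r * ν 1 * (r2 * μ 0) = r * r2 * (ν 0 * μ 1 - ν 1 * μ 0) := by
          ring
        rw [this]
        exact mul_ne_zero (mul_ne_zero hr hr2) hd
      have hc2 : F₂.card ≤ 1 := by
        rw [Finset.card_le_one]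
        intro ν hν μ hμ
        rw [hF₂] at hν hμ
        by_contra hne
        have hd := indep_iff.1 (h.indep ν hν.1 μ hμ.1 hne)
        have e1 := not_not.1 hν.2
        have e2 := not_not.1 hμ.2
        rw [dot2, rot0, rot1] at e1 e2
        have hnn := ne_zero_sq hn₀
        apply hd
        have e3 : (n₀ 0 * n₀ 0 + n₀ 1 * n₀ 1) * (ν 0 * μ 1 - ν 1 * μ 0) = 0 := by
          linear_combination (n₀ 0 * ν 0 + n₀ 1 * ν 1) * e2 - (n₀ 0 * μ 0 + n₀ 1 * μ 1) * e1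
        exact (mul_eq_zero.1 e3).resolve_left hnn.ne'
      have hsub : D ⊆ F₁ ∪ F₂ := by
        intro ν hν
        rw [Finset.mem_union, hF₁, hF₂]
        by_cases h0 : rot n₀ ⬝ᵥ ν ≠ 0
        · exact Or.inl ⟨hν, h0⟩
        · exact Or.inr ⟨hν, h0⟩
      have h3 := (Finset.card_le_card hsub).trans (Finset.card_union_le _ _)
      omega
    have hint := h.body.int
    have hedge := h.edge
    rw [← h.sum, hull_sum] at hint hedge ⊢
    exact par_of_two hint hedge hcard h.ne h.indep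

end Pc

end Pool.Agent.Covg
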