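import Pool.Agent.Work.MP_177351_gt.PcGeo

/-!
# Planar core, the structure in a transversal direction
-/

set_option autoImplicit false

open MvPolynomial Set
open scoped Matrix Pointwise

namespace Pool.Agent.Covg

namespace Pc

theorem mem_seg {a u y : Vec 2} {s : ℝ} (hs : 0 ≤ s) :
    y ∈ segment ℝ a (a + s • u) ↔ ∃ κ ∈ Icc (0 : ℝ) s, y = a + κ • u := by
  rw [segment_eq_image']
  constructor
  · rintro ⟨θ, hθ, rfl⟩
    refine ⟨θ * s, ⟨mul_nonneg hθ.1 hs, by nlinarith [hθ.2]⟩, ?_⟩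
    simp only [add_sub_cancel_left, smul_smul]
  · rintro ⟨κ, hκ, rfl⟩
    rcases hs.eq_or_lt with h | h
    · have : κ = 0 := le_antisymm (by linarith [hκ.2]) hκ.1
      refine ⟨0, ⟨le_rfl, zero_le_one⟩, ?_⟩
      simp [this]
    · refine ⟨κ / s, ⟨div_nonneg hκ.1 h.le, (div_le_one h).2 hκ.2⟩, ?_⟩
      simp only [add_sub_cancel_left, smul_smul]
      rw [div_mul_cancel₀ _ h.ne']

theorem fc_seg {A B K : Set (Vec 2)} (hA : Convex ℝ A) (hK : A + B = K) {n u x a b : Vec 2}
    {s s' : ℝ} (hun : u ⬝ᵥ n = 0) (hu : u ≠ 0)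
    (hfK : fc K n = segment ℝ x (x + (s + s') • u)) (hx : a + b = x) (ha : a ∈ A)
    (ha' : a + s • u ∈ A) (hb : b ∈ B) (hb' : b + s' • u ∈ B) (hs : 0 ≤ s) (hs' : 0 ≤ s') :
    fc A n = segment ℝ a (a + s • u) := by
  have hss : 0 ≤ s + s' := add_nonneg hs hs'
  have hxK : x ∈ fc K n := by rw [hfK]; exact left_mem_segment ℝ _ _
  have hmax : ∀ y ∈ A, y ⬝ᵥ n ≤ a ⬝ᵥ n := by
    intro y hy
    have h1 := hxK.2 (y + b) (by rw [← hK]; exact add_mem_add hy hb)
    rw [← hx, dot_add', dot_add'] at h1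
    linarith
  have hinj : ∀ c d : ℝ, c • u = d • u → c = d := fun c d h => smul_left_injective ℝ hu h
  ext y
  rw [mem_seg hs]
  constructor
  · rintro ⟨hy, hy'⟩
    have hyn : y ⬝ᵥ n = a ⬝ᵥ n := le_antisymm (hmax y hy) (hy' a ha)
    have h1 : y + b ∈ fc K n := by
      refine ⟨by rw [← hK]; exact add_mem_add hy hb, fun z hz => ?_⟩
      have := hxK.2 z hz
      rw [← hx, dot_add'] at this
      rw [dot_add', hyn]; exact this
    have h2 : y + (b + s' • u) ∈ fc K n := by
      refine ⟨by rw [← hK]; exact add_mem_add hy hb', fun z hz => ?_⟩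
      have := hxK.2 z hz
      rw [← hx, dot_add'] at this
      rw [dot_add', dot_add', dot_smul', hun, hyn]; linarith
    rw [hfK, mem_seg hss] at h1 h2
    obtain ⟨κ, hκ, h1⟩ := h1
    obtain ⟨κ', hκ', h2⟩ := h2
    have hy1 : y = a + κ • u := by
      have : y = x + κ • u - b := by rw [← h1]; abel
      rw [this, ← hx]; abel
    have h3 : κ + s' = κ' := by
      apply hinj
      rw [add_smul]
      have : x + κ' • u = x + κ • u + s' • u := by rw [← h1, ← h2]; abel
      have h4 : κ' • u = κ • u + s' • u := by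
        rw [add_assoc] at this
        exact add_left_cancel this
      exact h4.symm
    exact ⟨κ, ⟨hκ.1, by linarith [hκ'.2]⟩, hy1⟩
  · rintro ⟨κ, hκ, rfl⟩
    refine ⟨?_, fun z hz => ?_⟩
    · have : a + κ • u ∈ segment ℝ a (a + s • u) := (mem_seg hs).2 ⟨κ, hκ, rfl⟩
      exact hA.segment_subset ha ha' this
    · rw [dot_add', dot_smul', hun, mul_zero, add_zero]
      exact hmax z hz

/-- The structure of the factors in a transversal direction. -/
structure TV (A B : Set (Vec 2)) (p q : AddMonoidAlgebra ℝ (Vec 2)) (ν a b w : Vec 2)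
    (s s' t t' c : ℝ) : Prop where
  hs : 0 ≤ s
  hs' : 0 ≤ s'
  hss : 0 < s + s'
  ht : 0 < t
  ht' : 0 < t'
  htt : t + t' = 1
  hw : w ⬝ᵥ ν < 0
  hc : c ≠ 0
  prod : p * q = c • (AddMonoidAlgebra.single (a + b + (s + s') • rot ν) 1 -
    AddMonoidAlgebra.single (a + b) 1 - AddMonoidAlgebra.single (a + b + w + (s + s') • rot ν) 1 +
    AddMonoidAlgebra.single (a + b + w) 1)
  A1 : fc A ν = segment ℝ a (a + s • rot ν)
  A2 : fc A (-ν) = segment ℝ (a + t • w) (a + t • w + s • rot ν)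
  B1 : fc B ν = segment ℝ b (b + s' • rot ν)
  B2 : fc B (-ν) = segment ℝ (b + t' • w) (b + t' • w + s' • rot ν)
  boxA : ∀ x ∈ p.coeff.support, ∃ r ∈ Icc (0 : ℝ) s, ∃ r' ∈ Icc (0 : ℝ) t,
    x = a + r • rot ν + r' • w
  boxB : ∀ x ∈ q.coeff.support, ∃ r ∈ Icc (0 : ℝ) s', ∃ r' ∈ Icc (0 : ℝ) t',
    x = b + r • rot ν + r' • w
  a00 : a ∈ p.coeff.support
  a10 : a + s • rot ν ∈ p.coeff.support
  a01 : a + t • w ∈ p.coeff.support
  a11 : a + t • w + s • rot ν ∈ p.coeff.support
  b00 : b ∈ q.coeff.support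
  b10 : b + s' • rot ν ∈ q.coeff.support
  b01 : b + t' • w ∈ q.coeff.support
  b11 : b + t' • w + s' • rot ν ∈ q.coeff.support

theorem TV.symm {A B : Set (Vec 2)} {p q : AddMonoidAlgebra ℝ (Vec 2)} {ν a b w : Vec 2}
    {s s' t t' c : ℝ} (h : TV A B p q ν a b w s s' t t' c) : TV B A q p ν b a w s' s t' t c where
  hs := h.hs'
  hs' := h.hs
  hss := by rw [add_comm]; exact h.hss
  ht := h.ht'
  ht' := h.ht
  htt := by rw [add_comm]; exact h.htt
  hw := h.hw
  hc := h.hc
  prod := by rw [mul_comm, h.prod, add_comm a b, add_comm s s']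
  A1 := h.B1
  A2 := h.B2
  B1 := h.A1
  B2 := h.A2
  boxA := h.boxB
  boxB := h.boxA
  a00 := h.b00
  a10 := h.b10
  a01 := h.b01
  a11 := h.b11
  b00 := h.a00
  b10 := h.a10
  b01 := h.a01
  b11 := h.a11

/-- dot product with a fixed vector as an additive map -/
noncomputable def dotHom (ν : Vec 2) : Vec 2 →+ ℝ where
  toFun x := x ⬝ᵥ ν
  map_zero' := by simp
  map_add' x y := dot_add' x y ν

@[simp] theorem dotHom_apply (ν x : Vec 2) : dotHom ν x = x ⬝ᵥ ν := rfl

theorem rot_ne {ν : Vec 2} (h : ν ≠ 0) : rot ν ≠ 0 := by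
  intro h'
  apply h
  have h0 := congrFun h' 0
  have h1 := congrFun h' 1
  simp only [rot0, rot1, Pi.zero_apply] at h0 h1
  ext i; fin_cases i
  · exact h1
  · simpa using h0

/-- four corners -/
theorem four_supp {x x' y y' : Vec 2} {c : ℝ} (hc : c ≠ 0) (f : Vec 2 →+ ℝ) (hy : f y = f x)
    (hy' : f y' = f x') (hf : f x' < f x) (hxy : y ≠ x) (hxy' : y' ≠ x')
    {r : AddMonoidAlgebra ℝ (Vec 2)}
    (e : r = c • (AddMonoidAlgebra.single y 1 - AddMonoidAlgebra.single x 1 -
      AddMonoidAlgebra.single y' 1 + AddMonoidAlgebra.single x' 1)) :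
    ∀ m, m ∈ r.coeff.support ↔ m = x ∨ m = y ∨ m = x' ∨ m = y' := by
  classical
  have hd : ∀ u v : Vec 2, f u ≠ f v → u ≠ v := fun u v h h' => h (by rw [h'])
  have h1 : x ≠ x' := hd _ _ hf.ne'
  have h2 : x ≠ y' := hd _ _ (by rw [hy']; exact hf.ne')
  have h3 : y ≠ x' := hd _ _ (by rw [hy]; exact hf.ne')
  have h4 : y ≠ y' := hd _ _ (by rw [hy, hy']; exact hf.ne')
  intro m
  have hco : r.coeff m = c * ((if y = m then 1 else 0) - (if x = m then 1 else 0) -
      (if y' = m then 1 else 0) + (if x' = m then 1 else 0)) := by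
    rw [e, AddMonoidAlgebra.coeff_smul_apply, AddMonoidAlgebra.coeff_add,
      AddMonoidAlgebra.coeff_sub, AddMonoidAlgebra.coeff_sub, Finsupp.add_apply, Finsupp.sub_apply,
      Finsupp.sub_apply, AddMonoidAlgebra.coeff_single, AddMonoidAlgebra.coeff_single,
      AddMonoidAlgebra.coeff_single, AddMonoidAlgebra.coeff_single, Finsupp.single_apply,
      Finsupp.single_apply, Finsupp.single_apply, Finsupp.single_apply, smul_eq_mul]
  rw [Finsupp.mem_support_iff, hco]
  constructor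
  · intro h
    by_contra hcon
    push Not at hcon
    rw [if_neg hcon.2.1.symm, if_neg hcon.1.symm, if_neg hcon.2.2.2.symm,
      if_neg hcon.2.2.1.symm] at h
    simp at h
  · rintro (rfl | rfl | rfl | rfl)
    · rw [if_neg hxy, if_pos rfl, if_neg h2.symm, if_neg h1.symm]; simpa using hc
    · rw [if_pos rfl, if_neg hxy.symm, if_neg h4.symm, if_neg h3.symm]; simpa using hc
    · rw [if_neg h3, if_neg h1, if_neg hxy', if_pos rfl]; simpa using hc
    · rw [if_neg h4, if_neg h2, if_pos rfl, if_neg hxy'.symm]; simpa using hc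

theorem exists_tv_aux {P Q : EA 2} {K : Set (Vec 2)}
    (hsum : Nw P + Nw Q = K) {ν : Vec 2} (hν : ν ≠ 0) (hfull : FullH ν P)
    (hprod : ∃ (c l l' : ℝ) (p p' : Vec 2), c ≠ 0 ∧ 0 ≤ l ∧ 0 ≤ l' ∧ 0 < l + l' ∧
    fc K ν = segment ℝ p (p + l • rot ν) ∧ fc K (-ν) = segment ℝ p' (p' + l' • rot ν) ∧
    evAt ν P * evAt ν Q = c • (AddMonoidAlgebra.single (p + l • rot ν) 1 -
      AddMonoidAlgebra.single p 1 - AddMonoidAlgebra.single (p' + l' • rot ν) 1 +
      AddMonoidAlgebra.single p' 1))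
    (hnP : ∃ a ∈ P.coeff.support, ∃ b ∈ P.coeff.support, a ⬝ᵥ ν ≠ b ⬝ᵥ ν)
    (hnQ : ∃ a ∈ Q.coeff.support, ∃ b ∈ Q.coeff.support, a ⬝ᵥ ν ≠ b ⬝ᵥ ν) :
    ∃ (a b w : Vec 2) (s s' t t' c : ℝ),
      TV (Nw P) (Nw Q) (evAt ν P) (evAt ν Q) ν a b w s s' t t' c := by
  classical
  obtain ⟨c, l, l', x, x', hc, hl0, hl0', hll, hfc, hfc', e⟩ := hprod
  set p := evAt ν P with hp
  set q := evAt ν Q with hq
  set u := rot ν with hu
  have hu0 : u ≠ 0 := rot_ne hν
  have huν : u ⬝ᵥ ν = 0 := rot_dot ν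
  have huu : 0 < u ⬝ᵥ u := by rw [dot2]; exact ne_zero_sq hu0
  let f := dotHom ν
  let τ : Vec 2 →+ ℝ :=
    { toFun := fun y => (y ⬝ᵥ u) / (u ⬝ᵥ u)
      map_zero' := by simp
      map_add' := fun y z => by simp only [dot_add']; ring }
  have hτ : ∀ y, τ y = (y ⬝ᵥ u) / (u ⬝ᵥ u) := fun y => rfl
  have hτu : ∀ (y : Vec 2) (r : ℝ), τ (y + r • u) = τ y + r := by
    intro y r
    rw [hτ, hτ, dot_add', dot_smul']
    field_simp
  have hfu : ∀ (y : Vec 2) (r : ℝ), f (y + r • u) = f y := by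
    intro y r
    simp only [f, dotHom_apply, dot_add', dot_smul', huν, mul_zero, add_zero]
  -- heights over K
  have hx : x ∈ fc K ν := by rw [hfc]; exact left_mem_segment ℝ _ _
  have hx' : x' ∈ fc K (-ν) := by rw [hfc']; exact left_mem_segment ℝ _ _
  rw [fc_neg_mem] at hx'
  have hsubP : ∀ a ∈ P.coeff.support, a ∈ Nw P := fun a ha => subset_convexHull ℝ _ ha
  have hsubQ : ∀ a ∈ Q.coeff.support, a ∈ Nw Q := fun a ha => subset_convexHull ℝ _ ha
  have hK : ∀ a ∈ P.coeff.support, ∀ b ∈ Q.coeff.support, a + b ∈ K := by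
    intro a ha b hb
    rw [← hsum]
    exact add_mem_add (hsubP a ha) (hsubQ b hb)
  have hf : f x' < f x := by
    obtain ⟨a, ha, a', ha', haa⟩ := hnP
    obtain ⟨b, hb, -⟩ := hnQ
    have h1 := hx.2 _ (hK a ha b hb)
    have h2 := hx.2 _ (hK a' ha' b hb)
    have h3 := hx'.2 _ (hK a ha b hb)
    have h4 := hx'.2 _ (hK a' ha' b hb)
    simp only [dot_add', f, dotHom_apply] at *
    rcases lt_or_gt_of_ne haa with h | h <;> linarith
  -- p, q nonzero
  obtain ⟨⟨a₁, ha₁, ha₁'⟩, ⟨a₀, ha₀, ha₀'⟩⟩ := hfull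
  have ha01 : f a₀ < f a₁ := by
    obtain ⟨a, ha, a', ha', haa⟩ := hnP
    have h1 := ha₁' a ha
    have h2 := ha₁' a' ha'
    have h3 := ha₀' a ha
    have h4 := ha₀' a' ha'
    simp only [f, dotHom_apply]
    rcases lt_or_gt_of_ne haa with h | h <;> linarith
  have hsup : ∀ m ∈ (p * q).coeff.support,
      m = x + l • u ∨ m = x ∨ m = x' + l' • u ∨ m = x' := by
    intro m hm
    rw [Finsupp.mem_support_iff, e, AddMonoidAlgebra.coeff_smul_apply] at hm
    by_contra hcon
    push Not at hcon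
    apply hm
    simp [AddMonoidAlgebra.coeff_single, Ne.symm hcon.1, Ne.symm hcon.2.1,
      Ne.symm hcon.2.2.1, Ne.symm hcon.2.2.2]
  have hpq0 : p * q ≠ 0 := by
    intro h0
    rw [h0] at e
    rcases hl0.eq_or_lt with h | h
    · have hl' : 0 < l' := by linarith
      have h1 := congrArg (fun F => AddMonoidAlgebra.coeff F x') e
      have n1 : x + l • u ≠ x' := fun h => hf.ne (by rw [← h, hfu])
      have n2 : x ≠ x' := fun h => hf.ne (by rw [← h])
      have n3 : x' + l' • u ≠ x' := fun h => hl'.ne' (by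
        have := congrArg τ h
        rw [hτu] at this
        linarith)
      simp [AddMonoidAlgebra.coeff_single, n1, n2, n3] at h1
      exact hc h1.symm
    · have h1 := congrArg (fun F => AddMonoidAlgebra.coeff F x) e
      have n1 : x' + l' • u ≠ x := fun h => hf.ne (by rw [← h, hfu])
      have n2 : x' ≠ x := fun h => hf.ne (by rw [← h])
      have n3 : x + l • u ≠ x := fun h' => h.ne' (by
        have := congrArg τ h'
        rw [hτu] at this
        linarith)
      simp [AddMonoidAlgebra.coeff_single, n1, n2, n3] at h1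
      exact hc h1
  have hq0 : q ≠ 0 := fun h => hpq0 (by rw [h, mul_zero])
  have hqne : q.coeff.support.Nonempty := by
    rw [Finsupp.support_nonempty_iff]
    simpa using hq0
  obtain ⟨b₁, hb₁, hb₁'⟩ := q.coeff.support.exists_max_image f hqne
  obtain ⟨b₀, hb₀, hb₀'⟩ := q.coeff.support.exists_min_image f hqne
  have hsP : ∀ a ∈ p.coeff.support, a ∈ P.coeff.support := fun a ha => evAt_support ν P ha
  have hsQ : ∀ a ∈ q.coeff.support, a ∈ Q.coeff.support := fun a ha => evAt_support ν Q ha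
  obtain ⟨m₁, hm₁, hm₁'⟩ := exists_top f (fun a ha => ha₁' a (hsP a ha)) ⟨a₁, ha₁, rfl⟩ hb₁'
    ⟨b₁, hb₁, rfl⟩
  obtain ⟨m₀, hm₀, hm₀'⟩ := exists_top (-f) (p := p) (q := q) (c := - f a₀) (d := - f b₀)
    (fun a ha => neg_le_neg (ha₀' a (hsP a ha))) ⟨a₀, ha₀, rfl⟩
    (fun a ha => by simpa using hb₀' a ha) ⟨b₀, hb₀, rfl⟩
  have hm₀'' : f m₀ = f a₀ + f b₀ := by
    have : -(f m₀) = - f a₀ + - f b₀ := hm₀'
    linarith
  have hm₁'' : f m₁ = f a₁ + f b₁ := hm₁'
  have hb01 : f b₀ ≤ f b₁ := hb₁' b₀ hb₀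
  have hlt : f m₀ < f m₁ := by linarith
  have hheights : ∀ m ∈ (p * q).coeff.support, f m = f x ∨ f m = f x' := by
    intro m hm
    rcases hsup m hm with h | h | h | h
    · left; rw [h, hfu]
    · left; rw [h]
    · right; rw [h, hfu]
    · right; rw [h]
  have ht1 : f m₁ = f x := by
    rcases hheights m₁ hm₁ with h | h
    · exact h
    · rcases hheights m₀ hm₀ with h' | h' <;> linarith
  have ht0 : f m₀ = f x' := by
    rcases hheights m₀ hm₀ with h | h
    · linarith
    · exact h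
  -- `b₁`, `b₀` reach the extreme heights of `Q`
  have hb₁Q : ∀ b ∈ Q.coeff.support, f b ≤ f b₁ := by
    intro b hb
    have h1 := hx.2 _ (hK a₁ (hsP _ ha₁) b hb)
    simp only [dot_add', f, dotHom_apply] at *
    linarith
  have hb₀Q : ∀ b ∈ Q.coeff.support, f b₀ ≤ f b := by
    intro b hb
    have h1 := hx'.2 _ (hK a₀ (hsP _ ha₀) b hb)
    simp only [dot_add', f, dotHom_apply] at *
    linarith
  have hb01' : f b₀ < f b₁ := by
    obtain ⟨b, hb, b', hb', hbb⟩ := hnQ
    have h1 := hb₁Q b hb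
    have h2 := hb₁Q b' hb'
    have h3 := hb₀Q b hb
    have h4 := hb₀Q b' hb'
    simp only [f, dotHom_apply] at *
    rcases lt_or_gt_of_ne hbb with h | h <;> linarith
  -- both lengths are positive
  have hl : 0 < l := by
    rcases hl0.eq_or_lt with h | h
    · exfalso
      have e2 : p * q = c • (AddMonoidAlgebra.single x' 1 -
          AddMonoidAlgebra.single (x' + l' • u) 1) := by
        rw [e, ← h, zero_smul, add_zero]
        congr 1
        abel
      have := Finsupp.mem_support_iff.1 hm₁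
      rw [e2, AddMonoidAlgebra.coeff_smul_apply] at this
      apply this
      have n1 : x' ≠ m₁ := fun h => hf.ne (by rw [h, ht1])
      have n2 : x' + l' • u ≠ m₁ := fun h => hf.ne (by rw [← hfu x' l', h, ht1])
      simp [AddMonoidAlgebra.coeff_single, n1, n2]
    · exact h
  have hl' : 0 < l' := by
    rcases hl0'.eq_or_lt with h | h
    · exfalso
      have e2 : p * q = c • (AddMonoidAlgebra.single (x + l • u) 1 -
          AddMonoidAlgebra.single x 1) := by
        rw [e, ← h, zero_smul, add_zero]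
        congr 1
        abel
      have := Finsupp.mem_support_iff.1 hm₀
      rw [e2, AddMonoidAlgebra.coeff_smul_apply] at this
      apply this
      have n1 : x ≠ m₀ := fun h => hf.ne (by rw [h, ht0])
      have n2 : x + l • u ≠ m₀ := fun h => hf.ne (by rw [← hfu x l, h, ht0])
      simp [AddMonoidAlgebra.coeff_single, n1, n2]
    · exact h
  have hleq : l = l' := by
    refine len_eq f τ hc hl hl' e (hfu x l) (hfu x' l') (hτu x l) (hτu x' l') hf ?_ ?_
    · exact ⟨a₀, ha₀, a₁, ha₁, ha01.ne⟩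
    · exact ⟨b₀, hb₀, b₁, hb₁, hb01'.ne⟩
  subst hleq
  -- the four corners
  have hxy : x + l • u ≠ x := fun h => hl.ne' (by
    have := congrArg τ h
    rw [hτu] at this
    linarith)
  have hxy' : x' + l • u ≠ x' := fun h => hl.ne' (by
    have := congrArg τ h
    rw [hτu] at this
    linarith)
  have hfour := four_supp hc f (hfu x l) (hfu x' l) hf hxy hxy' e
  set w := x' - x with hw
  have hwx : x' = x + w := by rw [hw]; abel
  have hfw : f w < 0 := by
    have : f w = f x' - f x := by rw [hw, map_sub]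
    linarith
  -- the functional vanishing on `w`
  let g : Vec 2 →+ ℝ :=
    { toFun := fun y => τ y - τ w / f w * f y
      map_zero' := by simp
      map_add' := fun y z => by simp only [map_add]; ring }
  have hg : ∀ y, g y = τ y - τ w / f w * f y := fun y => rfl
  have hgu : ∀ (y : Vec 2) (r : ℝ), g (y + r • u) = g y + r := by
    intro y r
    rw [hg, hg, hτu, hfu]; ring
  have hgw : g w = 0 := by
    rw [hg, div_mul_cancel₀ _ hfw.ne]; ring
  have hgx' : g x' = g x := by rw [hwx, map_add, hgw, add_zero]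
  have hτfeq : ∀ y z : Vec 2, τ y = τ z → f y = f z → y = z := by
    intro y z h1 h2
    have h3 : y ⬝ᵥ u = z ⬝ᵥ u := by
      rw [hτ, hτ] at h1
      field_simp at h1
      exact h1
    refine eq_of_dots (μ := u) (ν := ν) ?_ h3 h2
    rw [hu, rot0, rot1]
    have := ne_zero_sq hν
    intro h
    linarith
  have hgfeq : ∀ y z : Vec 2, g y = g z → f y = f z → y = z := by
    intro y z h1 h2
    apply hτfeq _ _ _ h2
    rw [hg, hg, h2] at h1
    linarith
  obtain ⟨a, ha, b, hb, hab⟩ := exists_add ((hfour x).2 (Or.inl rfl))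
  obtain ⟨a10, ha10, b10, hb10, hab10⟩ := exists_add ((hfour (x + l • u)).2 (Or.inr (Or.inl rfl)))
  obtain ⟨a01, ha01m, b01, hb01m, hab01⟩ :=
    exists_add ((hfour x').2 (Or.inr (Or.inr (Or.inl rfl))))
  obtain ⟨a11, ha11, b11, hb11, hab11⟩ :=
    exists_add ((hfour (x' + l • u)).2 (Or.inr (Or.inr (Or.inr rfl))))
  have Fmax : ∀ m' ∈ (p * q).coeff.support, f m' ≤ f x := by
    intro m' hm'
    rcases hheights m' hm' with h | h <;> linarith
  have Fmin : ∀ m' ∈ (p * q).coeff.support, (-f) m' ≤ (-f) x' := by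
    intro m' hm'
    simp only [AddMonoidHom.neg_apply, neg_le_neg_iff]
    rcases hheights m' hm' with h | h <;> linarith
  have Gmax : ∀ m' ∈ (p * q).coeff.support, g m' ≤ g (x + l • u) := by
    intro m' hm'
    rw [hgu]
    rcases (hfour m').1 hm' with rfl | rfl | rfl | rfl
    · linarith
    · rw [hgu]
    · rw [hgx']; linarith
    · rw [hgu, hgx']
  have Gmin : ∀ m' ∈ (p * q).coeff.support, (-g) m' ≤ (-g) x := by
    intro m' hm'
    simp only [AddMonoidHom.neg_apply, neg_le_neg_iff]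
    rcases (hfour m').1 hm' with rfl | rfl | rfl | rfl
    · exact le_rfl
    · rw [hgu]; linarith
    · rw [hgx']
    · rw [hgu, hgx']; linarith
  have E00 := mul_max f (fun m' hm' => Fmax m' hm') ha hb hab
  have E10 := mul_max f (fun m' hm' => by rw [hfu]; exact Fmax m' hm') ha10 hb10 hab10
  have E01 := mul_max (-f) (fun m' hm' => Fmin m' hm') ha01m hb01m hab01
  have E11 := mul_max (-f) (m := x' + l • u) (fun m' hm' => by
    rw [AddMonoidHom.neg_apply, AddMonoidHom.neg_apply, hfu]; exact Fmin m' hm') ha11 hb11 hab11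
  have G00 := mul_max (-g) (fun m' hm' => Gmin m' hm') ha hb hab
  have G01 := mul_max (-g) (m := x') (fun m' hm' => by
    have := Gmin m' hm'
    rw [AddMonoidHom.neg_apply, AddMonoidHom.neg_apply] at this ⊢
    rw [hgx']; exact this) ha01m hb01m hab01
  have G10 := mul_max g (fun m' hm' => Gmax m' hm') ha10 hb10 hab10
  have G11 := mul_max g (m := x' + l • u) (fun m' hm' => by
    have := Gmax m' hm'
    rw [hgu, hgx', ← hgu]; exact this) ha11 hb11 hab11
  simp only [AddMonoidHom.neg_apply, neg_le_neg_iff] at E01 E11 G00 G01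
  -- coordinates of the corners
  set s := g a10 - g a with hsdef
  set s' := g b10 - g b with hs'def
  set t := (f a01 - f a) / f w with htdef
  set t' := (f b01 - f b) / f w with ht'def
  have hs0 : 0 ≤ s := sub_nonneg.2 (G00.1 _ ha10)
  have hs0' : 0 ≤ s' := sub_nonneg.2 (G00.2 _ hb10)
  have hss : s + s' = l := by
    have h1 := congrArg g hab10
    have h2 := congrArg g hab
    rw [map_add, hgu] at h1
    rw [map_add] at h2
    linarith
  have htt : t + t' = 1 := by
    have h1 := congrArg f hab01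
    have h2 := congrArg f hab
    rw [map_add] at h1 h2
    rw [htdef, ht'def, ← add_div, div_eq_one_iff_eq hfw.ne]
    have : f w = f x' - f x := by rw [hw, map_sub]
    linarith
  have hfa : ∀ a' ∈ P.coeff.support, f a' ≤ f a := by
    intro a' ha'
    have h1 := ha₁' a' ha'
    have h2 := E00.1 a₁ ha₁
    simp only [f, dotHom_apply] at *
    linarith
  have hfa0 : ∀ a' ∈ P.coeff.support, f a01 ≤ f a' := by
    intro a' ha'
    have h1 := ha₀' a' ha'
    have h2 := E01.1 a₀ ha₀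
    simp only [f, dotHom_apply] at *
    linarith
  have ht0p : 0 < t := by
    apply div_pos_of_neg_of_neg _ hfw
    have h1 := hfa0 a₀ (hsP _ ha₀)
    have h2 := hfa a₁ (hsP _ ha₁)
    linarith
  have ht0p' : 0 < t' := by
    apply div_pos_of_neg_of_neg _ hfw
    have h1 := E00.2 b₁ hb₁
    have h2 := E01.2 b₀ hb₀
    linarith
  have ea10 : a10 = a + s • u := by
    apply hgfeq
    · rw [hgu]; linarith
    · rw [hfu]; exact le_antisymm (E00.1 _ ha10) (E10.1 _ ha)
  have eb10 : b10 = b + s' • u := by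
    apply hgfeq
    · rw [hgu]; linarith
    · rw [hfu]; exact le_antisymm (E00.2 _ hb10) (E10.2 _ hb)
  have hgsw : ∀ (y : Vec 2) (r : ℝ), g (y + r • w) = g y := by
    intro y r
    have : g (r • w) = r * g w := by
      rw [hg, hg, hτ, hτ]
      simp only [f, dotHom_apply, dot_smul']
      ring
    rw [map_add, this, hgw, mul_zero, add_zero]
  have hfsw : ∀ (y : Vec 2) (r : ℝ), f (y + r • w) = f y + r * f w := by
    intro y r
    simp only [f, dotHom_apply, dot_add', dot_smul']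
  have ea01 : a01 = a + t • w := by
    apply hgfeq
    · rw [hgsw]; exact le_antisymm (G01.1 _ ha) (G00.1 _ ha01m)
    · rw [hfsw, htdef, div_mul_cancel₀ _ hfw.ne]; ring
  have eb01 : b01 = b + t' • w := by
    apply hgfeq
    · rw [hgsw]; exact le_antisymm (G01.2 _ hb) (G00.2 _ hb01m)
    · rw [hfsw, ht'def, div_mul_cancel₀ _ hfw.ne]; ring
  have ea11 : a11 = a + t • w + s • u := by
    apply hgfeq
    · rw [hgu, hgsw]
      have : g a11 = g a10 := le_antisymm (G10.1 _ ha11) (G11.1 _ ha10)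
      rw [this]; linarith
    · rw [hfu, ← ea01]
      exact le_antisymm (E11.1 _ ha01m) (E01.1 _ ha11)
  have eb11 : b11 = b + t' • w + s' • u := by
    apply hgfeq
    · rw [hgu, hgsw]
      have : g b11 = g b10 := le_antisymm (G10.2 _ hb11) (G11.2 _ hb10)
      rw [this]; linarith
    · rw [hfu, ← eb01]
      exact le_antisymm (E11.2 _ hb01m) (E01.2 _ hb11)
  rw [ea10] at ha10 G10
  rw [eb10] at hb10 G10
  rw [hgu, hgu] at G10
  rw [ea01] at ha01m hab01 E01
  rw [eb01] at hb01m hab01 E01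
  rw [ea11] at ha11
  rw [eb11] at hb11
  have hconvP : Convex ℝ (Nw P) := convex_convexHull ℝ _
  have hconvQ : Convex ℝ (Nw Q) := convex_convexHull ℝ _
  have mA : ∀ y ∈ p.coeff.support, y ∈ Nw P := fun y hy => hsubP y (hsP y hy)
  have mB : ∀ y ∈ q.coeff.support, y ∈ Nw Q := fun y hy => hsubQ y (hsQ y hy)
  have hunegν : u ⬝ᵥ (-ν) = 0 := by rw [dot_neg', huν, neg_zero]
  have hsum' : Nw Q + Nw P = K := by rw [add_comm]; exact hsum
  refine ⟨a, b, w, s, s', t, t', c, ?_⟩
  exact {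
    hs := hs0
    hs' := hs0'
    hss := by rw [hss]; exact hl
    ht := ht0p
    ht' := ht0p'
    htt := htt
    hw := hfw
    hc := hc
    prod := by rw [hss, hab, ← hwx]; exact e
    A1 := fc_seg hconvP hsum huν hu0 (by rw [hss]; exact hfc) hab (mA _ ha) (mA _ ha10) (mB _ hb)
      (mB _ hb10) hs0 hs0'
    A2 := fc_seg hconvP hsum hunegν hu0 (by rw [hss]; exact hfc') hab01 (mA _ ha01m) (mA _ ha11)
      (mB _ hb01m) (mB _ hb11) hs0 hs0'
    B1 := fc_seg hconvQ hsum' huν hu0 (by rw [add_comm s' s, hss]; exact hfc)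
      (by rw [add_comm b a]; exact hab) (mB _ hb) (mB _ hb10) (mA _ ha) (mA _ ha10) hs0' hs0
    B2 := fc_seg hconvQ hsum' hunegν hu0 (by rw [add_comm s' s, hss]; exact hfc')
      (by rw [add_comm (b + _) _]; exact hab01) (mB _ hb01m) (mB _ hb11) (mA _ ha01m) (mA _ ha11)
      hs0' hs0
    boxA := by
      intro y hy
      refine ⟨g y - g a, ⟨sub_nonneg.2 (G00.1 _ hy), by linarith [G10.1 _ hy]⟩,
        (f y - f a) / f w, ⟨div_nonneg_of_nonpos (by linarith [E00.1 _ hy]) hfw.le, ?_⟩, ?_⟩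
      · rw [div_le_iff_of_neg hfw]
        have h1 := E01.1 _ hy
        rw [hfsw] at h1
        linarith
      · apply hgfeq
        · rw [hgsw, hgu]; ring
        · rw [hfsw, hfu, div_mul_cancel₀ _ hfw.ne]; ring
    boxB := by
      intro y hy
      refine ⟨g y - g b, ⟨sub_nonneg.2 (G00.2 _ hy), by linarith [G10.2 _ hy]⟩,
        (f y - f b) / f w, ⟨div_nonneg_of_nonpos (by linarith [E00.2 _ hy]) hfw.le, ?_⟩, ?_⟩
      · rw [div_le_iff_of_neg hfw]
        have h1 := E01.2 _ hy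
        rw [hfsw] at h1
        linarith
      · apply hgfeq
        · rw [hgsw, hgu]; ring
        · rw [hfsw, hfu, div_mul_cancel₀ _ hfw.ne]; ring
    a00 := ha
    a10 := ha10
    a01 := ha01m
    a11 := ha11
    b00 := hb
    b10 := hb10
    b01 := hb01m
    b11 := hb11 }

theorem exists_tv {P Q : EA 2} {K : Set (Vec 2)}
    (hsum : Nw P + Nw Q = K) {ν : Vec 2} (hν : ν ≠ 0) (hfull : FullH ν P ∨ FullH ν Q)
    (hprod : ∃ (c l l' : ℝ) (p p' : Vec 2), c ≠ 0 ∧ 0 ≤ l ∧ 0 ≤ l' ∧ 0 < l + l' ∧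
    fc K ν = segment ℝ p (p + l • rot ν) ∧ fc K (-ν) = segment ℝ p' (p' + l' • rot ν) ∧
    evAt ν P * evAt ν Q = c • (AddMonoidAlgebra.single (p + l • rot ν) 1 -
      AddMonoidAlgebra.single p 1 - AddMonoidAlgebra.single (p' + l' • rot ν) 1 +
      AddMonoidAlgebra.single p' 1))
    (hnP : ∃ a ∈ P.coeff.support, ∃ b ∈ P.coeff.support, a ⬝ᵥ ν ≠ b ⬝ᵥ ν)
    (hnQ : ∃ a ∈ Q.coeff.support, ∃ b ∈ Q.coeff.support, a ⬝ᵥ ν ≠ b ⬝ᵥ ν) :
    ∃ (a b w : Vec 2) (s s' t t' c : ℝ),
      TV (Nw P) (Nw Q) (evAt ν P) (evAt ν Q) ν a b w s s' t t' c := by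
  rcases hfull with h | h
  · exact exists_tv_aux hsum hν h hprod hnP hnQ
  · have hprod' := hprod
    simp only [mul_comm (evAt ν P)] at hprod'
    obtain ⟨a, b, w, s, s', t, t', c, hT⟩ :=
      exists_tv_aux (by rw [add_comm]; exact hsum) hν h hprod' hnQ hnP
    exact ⟨b, a, w, s', s, t', t, c, hT.symm⟩

end Pc

end Pool.Agent.Covg
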