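import Pool.Agent.Work.MP_177351_gt.PcOct

/-!
# Planar core
-/

set_option autoImplicit false

open MvPolynomial Set
open scoped Matrix Pointwise

namespace Pool.Agent.Covg

namespace Pc

theorem PData.symm {K : Set (Vec 2)} {P Q : EA 2} {dP dQ : ℕ} {D : Finset (Vec 2)}
    (h : PData K P Q dP dQ D) : PData K Q P dQ dP D where
  body := h.body
  neP := h.neQ
  neQ := h.neP
  sum := by rw [add_comm]; exact h.sum
  homP := h.homQ
  homQ := h.homP
  card := by rw [add_comm dQ dP]; exact h.card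
  ne := h.ne
  indep := h.indep
  edge := h.edge
  full := fun ν hν => (h.full ν hν).symm
  prod := fun ν hν => by
    have := h.prod ν hν
    simp only [mul_comm (evAt ν P)] at this
    exact this

theorem int_of_not_col {S : Finset (Vec 2)} (hS : S.Nonempty)
    (h : ∀ n : Vec 2, n ≠ 0 → ∃ x ∈ S, ∃ y ∈ S, x ⬝ᵥ n ≠ y ⬝ᵥ n) :
    (interior (convexHull ℝ (S : Set (Vec 2)))).Nonempty := by
  rw [interior_convexHull_nonempty_iff_affineSpan_eq_top,
    AffineSubspace.affineSpan_eq_top_iff_vectorSpan_eq_top_of_nonempty ℝ _ _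
      (Finset.coe_nonempty.2 hS)]
  by_contra hne
  obtain ⟨f, hf, hle⟩ := Submodule.exists_le_ker_of_lt_top _ (lt_top_iff_ne_top.2 hne)
  obtain ⟨n, hn⟩ := Rot.exists_rep f
  have hn0 : n ≠ 0 := by
    rintro rfl
    apply hf
    ext x
    simp [hn]
  obtain ⟨x, hx, y, hy, hxy⟩ := h n hn0
  apply hxy
  have h1 := hle (vsub_mem_vectorSpan ℝ (Finset.mem_coe.2 hx) (Finset.mem_coe.2 hy))
  rw [LinearMap.mem_ker, vsub_eq_sub, map_sub, hn, hn] at h1
  linarith

/-- Edge directions of `A` among `D`. -/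
theorem edgeA {P Q : EA 2} {K : Set (Vec 2)} (hsum : Nw P + Nw Q = K) (hQ : Q ≠ 0)
    {D DA : Finset (Vec 2)}
    (hedge : ∀ ν : Vec 2, ν ≠ 0 → ¬ (fc K ν).Subsingleton → ∃ μ ∈ D, ∃ c : ℝ, c ≠ 0 ∧ ν = c • μ)
    {q p : Vec 2 → AddMonoidAlgebra ℝ (Vec 2)} {a b w : Vec 2 → Vec 2}
    {s s' t t' c : Vec 2 → ℝ} {B : Set (Vec 2)}
    (hT : ∀ ν ∈ D, TV (Nw P) B (p ν) (q ν) ν (a ν) (b ν) (w ν) (s ν) (s' ν) (t ν) (t' ν) (c ν))
    (hDA : ∀ ν, ν ∈ DA ↔ ν ∈ D ∧ 0 < s ν) :
    ∀ ν : Vec 2, ν ≠ 0 → ¬ (fc (convexHull ℝ (P.coeff.support : Set (Vec 2))) ν).Subsingleton →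
      ∃ μ ∈ DA, ∃ c : ℝ, c ≠ 0 ∧ ν = c • μ := by
  intro ν hν hns
  have hns' : ¬ (fc (Nw P) ν).Subsingleton := hns
  have hQne : Q.coeff.support.Nonempty := by
    rw [Finsupp.support_nonempty_iff]
    simpa using hQ
  obtain ⟨b₀, hb₀, hb₀'⟩ := Q.coeff.support.exists_max_image (fun x => x ⬝ᵥ ν) hQne
  have hbm : b₀ ∈ fc (Nw Q) ν := ⟨subset_convexHull ℝ _ hb₀, fun y hy => hull_le hb₀' hy⟩
  have hK : ¬ (fc K ν).Subsingleton := by
    intro hsub
    apply hns'
    intro x hx y hy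
    rw [← hsum] at hsub
    exact add_right_cancel (hsub (add_mem_fc hx hbm) (add_mem_fc hy hbm))
  obtain ⟨μ, hμ, r, hr, rfl⟩ := hedge ν hν hK
  refine ⟨μ, ?_, r, hr, rfl⟩
  rw [hDA]
  refine ⟨hμ, ?_⟩
  have h := hT μ hμ
  rcases h.hs.eq_or_lt with h0 | h0
  · exfalso
    apply hns'
    have h1 := h.A1
    have h2 := h.A2
    rw [← h0, zero_smul, add_zero, segment_same] at h1 h2
    rcases lt_or_gt_of_ne hr with h3 | h3
    · rw [fc_smul_neg h3, h2]; exact subsingleton_singleton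
    · rw [fc_smul_pos h3, h1]; exact subsingleton_singleton
  · exact h0

end Pc

open Pc in
theorem planar_core {K : Set (Vec 2)} {P Q : EA 2} {dP dQ : ℕ} {D : Finset (Vec 2)}
    (h : PData K P Q dP dQ D) (hP : ¬ Mono P) (hQ : ¬ Mono Q) :
    ∃ v d d' : Vec 2, LinearIndependent ℝ ![d, d'] ∧
      K = {x | ∃ s ∈ Icc (0 : ℝ) 1, ∃ r ∈ Icc (0 : ℝ) 1, x = v + s • d + r • d'} := by
  classical
  by_cases hcQ : ∃ n : Vec 2, n ≠ 0 ∧
    ∀ x ∈ Q.coeff.support, ∀ y ∈ Q.coeff.support, x ⬝ᵥ n = y ⬝ᵥ n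
  · obtain ⟨n, hn, hc⟩ := hcQ
    exact pc3 h hP hQ hn hc
  by_cases hcP : ∃ n : Vec 2, n ≠ 0 ∧
    ∀ x ∈ P.coeff.support, ∀ y ∈ P.coeff.support, x ⬝ᵥ n = y ⬝ᵥ n
  · obtain ⟨n, hn, hc⟩ := hcP
    exact pc3 (PData.symm h) hQ hP hn hc
  push Not at hcQ hcP
  -- all directions are transversal
  have hall : ∀ ν ∈ D, ∃ (a b w : Vec 2) (s s' t t' c : ℝ),
      TV (Nw P) (Nw Q) (evAt ν P) (evAt ν Q) ν a b w s s' t t' c := fun ν hν =>
    exists_tv h.sum (h.ne ν hν) (h.full ν hν) (h.prod ν hν) (hcP ν (h.ne ν hν))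
      (hcQ ν (h.ne ν hν))
  choose! a b w s s' t t' c hT using hall
  have hT' : ∀ ν ∈ D, TV (Nw Q) (Nw P) (evAt ν Q) (evAt ν P) ν (b ν) (a ν) (w ν) (s' ν) (s ν)
      (t' ν) (t ν) (c ν) := fun ν hν => (hT ν hν).symm
  obtain ⟨DA, hDA⟩ : ∃ F : Finset (Vec 2), ∀ ν, ν ∈ F ↔ ν ∈ D ∧ 0 < s ν :=
    ⟨D.filter fun ν => 0 < s ν, fun ν => Finset.mem_filter⟩
  obtain ⟨DB, hDB⟩ : ∃ F : Finset (Vec 2), ∀ ν, ν ∈ F ↔ ν ∈ D ∧ 0 < s' ν :=
    ⟨D.filter fun ν => 0 < s' ν, fun ν => Finset.mem_filter⟩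
  have hPne : P.coeff.support.Nonempty := by
    rw [Finsupp.support_nonempty_iff]
    simpa using h.neP
  have hQne : Q.coeff.support.Nonempty := by
    rw [Finsupp.support_nonempty_iff]
    simpa using h.neQ
  have hintP := int_of_not_col hPne hcP
  have hintQ := int_of_not_col hQne hcQ
  have heA := edgeA h.sum h.neQ h.edge hT hDA
  have heB := edgeA (by rw [add_comm]; exact h.sum) h.neP h.edge hT' hDB
  have hA2 := two_le_card hintP heA
  have hB2 := two_le_card hintQ heB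
  have hcA := count (convex_convexHull ℝ _) h.homP h.ne h.indep hT hDA
  have hcB := count (convex_convexHull ℝ _) h.homQ h.ne h.indep hT' hDB
  have hN := h.card
  have hsub : D ⊆ DA ∪ DB := by
    intro ν hν
    have h1 := hT ν hν
    rw [Finset.mem_union, hDA, hDB]
    have h2 := h1.hss
    rcases h1.hs.eq_or_lt with h0 | h0
    · right; exact ⟨hν, by linarith⟩
    · left; exact ⟨hν, h0⟩
  have hN2 := (Finset.card_le_card hsub).trans (Finset.card_union_le _ _)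
  have e1 : D.card - dP = dQ + 2 := by omega
  have e2 : D.card - dQ = dP + 2 := by omega
  rw [e1] at hcA
  rw [e2] at hcB
  have f1 : DA.card * (dQ + 1) ≤ dP + dQ + 2 := by
    have : DA.card * (dQ + 2) = DA.card * (dQ + 1) + DA.card := by ring
    omega
  have f2 : DB.card * (dP + 1) ≤ dP + dQ + 2 := by
    have : DB.card * (dP + 2) = DB.card * (dP + 1) + DB.card := by ring
    omega
  have g1 : 2 * (dQ + 1) ≤ dP + dQ + 2 := (Nat.mul_le_mul_right _ hA2).trans f1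
  have g2 : 2 * (dP + 1) ≤ dP + dQ + 2 := (Nat.mul_le_mul_right _ hB2).trans f2
  have hdd : dP = dQ := by omega
  subst hdd
  have k1 : DA.card ≤ 2 := by
    have : DA.card * (dP + 1) ≤ 2 * (dP + 1) := by omega
    exact Nat.le_of_mul_le_mul_right this (Nat.succ_pos _)
  have k2 : DB.card ≤ 2 := by
    have : DB.card * (dP + 1) ≤ 2 * (dP + 1) := by omega
    exact Nat.le_of_mul_le_mul_right this (Nat.succ_pos _)
  have hd : dP = 0 ∨ dP = 1 := by omega
  rcases hd with hd | hd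
  · -- two directions
    have hcard : D.card ≤ 2 := by omega
    have hint := h.body.int
    have hedge := h.edge
    rw [← h.sum, hull_sum] at hint hedge ⊢
    exact par_of_two hint hedge hcard h.ne h.indep
  · exfalso
    subst hd
    have hdisj : ∀ ν, ν ∈ DA → ν ∈ DB → False := by
      intro ν h1 h2
      have h3 := Finset.card_union_add_card_inter DA DB
      have h4 : 0 < (DA ∩ DB).card := Finset.card_pos.2 ⟨ν, Finset.mem_inter.2 ⟨h1, h2⟩⟩
      have h5 := Finset.card_le_card hsub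
      omega
    have hO : Oct (Nw P) (Nw Q) P Q D DA DB a b w s s' t t' c := {
      cA := convex_convexHull ℝ _
      cB := convex_convexHull ℝ _
      homP := h.homP
      homQ := h.homQ
      ne := h.ne
      ind := h.indep
      tv := hT
      hDA := hDA
      hDB := hDB
      cardA := by omega
      cardB := by omega
      disj := hdisj
      fA := fun x hx => facets hintP heA hx
      fB := fun x hx => facets hintQ heB hx }
    exact hO.false

end Pool.Agent.Covg
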