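import Pool.Agent.Work.MP_177351_gt.Alg

/-!
# Module Theta: factors of an exponential polynomial supported on the corners of a parallelogram
-/

set_option autoImplicit false

open MeasureTheory MvPolynomial Set Filter Topology
open scoped Pointwise Matrix

namespace Pool.Agent.Covg

namespace Theta

theorem mono_of_mul {R A : Type*} [Semiring R] [NoZeroDivisors R] [Add A] [TwoUniqueSums A]
    {f g : AddMonoidAlgebra R A} (hf : f ≠ 0) (hg : g ≠ 0)
    (h : ((f * g).coeff.support : Set A).Subsingleton) :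
    (f.coeff.support : Set A).Subsingleton := by
  classical
  have hf' : f.coeff.support.Nonempty := by
    rwa [Finsupp.support_nonempty_iff, Ne, AddMonoidAlgebra.coeff_eq_zero]
  have hg' : g.coeff.support.Nonempty := by
    rwa [Finsupp.support_nonempty_iff, Ne, AddMonoidAlgebra.coeff_eq_zero]
  by_contra hcon
  have hc : 1 < f.coeff.support.card := by
    by_contra h1
    apply hcon
    have h2 := Finset.card_le_one.1 (not_lt.1 h1)
    intro a ha b hb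
    exact h2 a ha b hb
  have hc2 : 1 < f.coeff.support.card * g.coeff.support.card := by
    have := hg'.card_pos
    nlinarith
  obtain ⟨p, hp, q, hq, hne, hup, huq⟩ := TwoUniqueSums.uniqueAdd_of_one_lt_card hc2
  rw [Finset.mem_product] at hp hq
  have h1 : (f * g).coeff (p.1 + p.2) ≠ 0 := by
    rw [AddMonoidAlgebra.coeff_mul_add_of_uniqueAdd hup]
    exact mul_ne_zero (Finsupp.mem_support_iff.1 hp.1) (Finsupp.mem_support_iff.1 hp.2)
  have h2 : (f * g).coeff (q.1 + q.2) ≠ 0 := by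
    rw [AddMonoidAlgebra.coeff_mul_add_of_uniqueAdd huq]
    exact mul_ne_zero (Finsupp.mem_support_iff.1 hq.1) (Finsupp.mem_support_iff.1 hq.2)
  have h3 : q.1 + q.2 = p.1 + p.2 :=
    h (Finsupp.mem_support_iff.2 h2) (Finsupp.mem_support_iff.2 h1)
  obtain ⟨h4, h5⟩ := hup hq.1 hq.2 h3
  exact hne (Prod.ext h4.symm h5.symm)

variable {n : ℕ}

/-- the character `a ↦ exp (c (a ⬝ σ))` -/
noncomputable def chC (σ : Vec n) (c : ℂ) : Multiplicative (Vec n) →* ℂ where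
  toFun a := Complex.exp (c * ((Multiplicative.toAdd a ⬝ᵥ σ : ℝ) : ℂ))
  map_one' := by simp
  map_mul' a b := by
    rw [toAdd_mul, add_dotProduct, Complex.ofReal_add, mul_add, Complex.exp_add]

/-- numerical evaluation with a complex parameter -/
noncomputable def psi (z0 σ : Vec n) (c : ℂ) : EA n →+* ℂ :=
  AddMonoidAlgebra.liftNCRingHom ((algebraMap ℝ ℂ).comp (MvPolynomial.eval z0)) (chC σ c)
    (fun _ _ => Commute.all _ _)

theorem psi_single (z0 σ : Vec n) (c : ℂ) (a : Vec n) (M : Pol n) :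
    psi z0 σ c (AddMonoidAlgebra.single a M) =
      ((MvPolynomial.eval z0 M : ℝ) : ℂ) * Complex.exp (c * ((a ⬝ᵥ σ : ℝ) : ℂ)) := by
  unfold psi
  exact AddMonoidAlgebra.liftNCRingHom_single _ _ _ _ _

theorem psi_apply (z0 σ : Vec n) (c : ℂ) (P : EA n) :
    psi z0 σ c P = ∑ a ∈ P.coeff.support,
      ((MvPolynomial.eval z0 (P.coeff a) : ℝ) : ℂ) * Complex.exp (c * ((a ⬝ᵥ σ : ℝ) : ℂ)) := by
  conv_lhs => rw [← AddMonoidAlgebra.sum_coeff_single P, Finsupp.sum, map_sum]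
  exact Finset.sum_congr rfl fun a _ => psi_single z0 σ c a _

/-- the character `a ↦ exp (c (a ⬝ σ)) Y^(a ⬝ ρ)` -/
noncomputable def chY (σ ρ : Vec n) (c : ℂ) : Multiplicative (Vec n) →* AddMonoidAlgebra ℂ ℝ where
  toFun a := AddMonoidAlgebra.single (Multiplicative.toAdd a ⬝ᵥ ρ)
    (Complex.exp (c * ((Multiplicative.toAdd a ⬝ᵥ σ : ℝ) : ℂ)))
  map_one' := by simp [AddMonoidAlgebra.one_def]
  map_mul' a b := by
    rw [AddMonoidAlgebra.single_mul_single, toAdd_mul, add_dotProduct, add_dotProduct,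
      Complex.ofReal_add, mul_add, Complex.exp_add]

noncomputable def Phi (z0 σ ρ : Vec n) (c : ℂ) : EA n →+* AddMonoidAlgebra ℂ ℝ :=
  AddMonoidAlgebra.liftNCRingHom
    (AddMonoidAlgebra.singleZeroRingHom.comp ((algebraMap ℝ ℂ).comp (MvPolynomial.eval z0)))
    (chY σ ρ c) (fun _ _ => Commute.all _ _)

theorem Phi_single (z0 σ ρ : Vec n) (c : ℂ) (a : Vec n) (M : Pol n) :
    Phi z0 σ ρ c (AddMonoidAlgebra.single a M) = AddMonoidAlgebra.single (a ⬝ᵥ ρ)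
      (((MvPolynomial.eval z0 M : ℝ) : ℂ) * Complex.exp (c * ((a ⬝ᵥ σ : ℝ) : ℂ))) := by
  unfold Phi
  rw [AddMonoidAlgebra.liftNCRingHom_single]
  change AddMonoidAlgebra.single (0 : ℝ) ((MvPolynomial.eval z0 M : ℝ) : ℂ) *
    AddMonoidAlgebra.single (a ⬝ᵥ ρ) (Complex.exp (c * ((a ⬝ᵥ σ : ℝ) : ℂ))) = _
  rw [AddMonoidAlgebra.single_mul_single, zero_add]

theorem Phi_apply (z0 σ ρ : Vec n) (c : ℂ) (P : EA n) :
    Phi z0 σ ρ c P = ∑ a ∈ P.coeff.support, AddMonoidAlgebra.single (a ⬝ᵥ ρ)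
      (((MvPolynomial.eval z0 (P.coeff a) : ℝ) : ℂ) * Complex.exp (c * ((a ⬝ᵥ σ : ℝ) : ℂ))) := by
  conv_lhs => rw [← AddMonoidAlgebra.sum_coeff_single P, Finsupp.sum, map_sum]
  exact Finset.sum_congr rfl fun a _ => Phi_single z0 σ ρ c a _

/-- the coefficient of `Phi` on an extreme level -/
theorem coeff_Phi (z0 σ ρ w : Vec n) (c : ℂ) (P : EA n) {a0 : Vec n}
    (ha0 : a0 ∈ (lead w P).coeff.support) (hw : w = ρ ∨ w = -ρ) :
    (Phi z0 σ ρ c P).coeff (a0 ⬝ᵥ ρ) = psi z0 σ c (lead w P) := by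
  classical
  rw [Phi_apply, psi_apply]
  have h1 : (∑ a ∈ P.coeff.support, AddMonoidAlgebra.single (a ⬝ᵥ ρ)
      (((MvPolynomial.eval z0 (P.coeff a) : ℝ) : ℂ) *
        Complex.exp (c * ((a ⬝ᵥ σ : ℝ) : ℂ)))).coeff (a0 ⬝ᵥ ρ) =
      ∑ a ∈ P.coeff.support, if a ⬝ᵥ ρ = a0 ⬝ᵥ ρ then
        (((MvPolynomial.eval z0 (P.coeff a) : ℝ) : ℂ) *
          Complex.exp (c * ((a ⬝ᵥ σ : ℝ) : ℂ))) else 0 := by
    rw [AddMonoidAlgebra.coeff_sum, Finsupp.finsetSum_apply]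
    refine Finset.sum_congr rfl fun a _ => ?_
    rw [AddMonoidAlgebra.coeff_single, Finsupp.single_apply]
  rw [h1, ← Finset.sum_filter]
  have h2 : (lead w P).coeff.support = P.coeff.support.filter fun a => a ⬝ᵥ ρ = a0 ⬝ᵥ ρ := by
    obtain ⟨h3, h4⟩ := mem_support_lead.1 ha0
    ext a
    rw [mem_support_lead, Finset.mem_filter]
    refine and_congr_right fun ha => ?_
    rcases hw with rfl | rfl
    · constructor
      · intro h5
        exact le_antisymm (h4 a ha) (h5 a0 h3)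
      · intro h5 b hb
        rw [h5]
        exact h4 b hb
    · simp only [dotProduct_neg, neg_le_neg_iff] at h4 ⊢
      constructor
      · intro h5
        exact le_antisymm (h5 a0 h3) (h4 a ha)
      · intro h5 b hb
        rw [h5]
        exact h4 b hb
  rw [← h2]
  refine Finset.sum_congr rfl fun a ha => ?_
  rw [coeff_lead w P ha]

/-- a corner of the product comes from a corner of the factor -/
theorem corner {P Q : EA n} {v : Vec n} (hv : v ∈ (P * Q).coeff.support) :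
    ∃ a ∈ P.coeff.support, ∀ w : Vec n, (∀ u ∈ (P * Q).coeff.support, u ⬝ᵥ w ≤ v ⬝ᵥ w) →
      ∀ a' ∈ P.coeff.support, a' ⬝ᵥ w ≤ a ⬝ᵥ w := by
  classical
  have h1 := AddMonoidAlgebra.support_coeff_mul_subset P Q hv
  obtain ⟨a, ha, b, hb, rfl⟩ := Finset.mem_add.1 h1
  refine ⟨a, ha, fun w hw => ?_⟩
  have hPQ : P * Q ≠ 0 := ne_zero_iff_support.2 ⟨_, hv⟩
  obtain ⟨v', hv'⟩ := ne_zero_iff_support.1 (lead_ne_zero w hPQ)
  have hv'2 := (mem_support_lead.1 hv').1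
  rw [lead_mul] at hv'
  have h2 := AddMonoidAlgebra.support_coeff_mul_subset _ _ hv'
  obtain ⟨a', ha', b', hb', rfl⟩ := Finset.mem_add.1 h2
  obtain ⟨ha1, ha2⟩ := mem_support_lead.1 ha'
  obtain ⟨hb1, hb2⟩ := mem_support_lead.1 hb'
  have h3 := hw _ hv'2
  rw [add_dotProduct, add_dotProduct] at h3
  have h4 := hb2 b hb
  intro a'' ha''
  have h5 := ha2 a'' ha''
  linarith

/-- everything about the support of a factor -/
structure Box (P : EA n) (e f σ ρ : Vec n) (a00 a10 a01 a11 : Vec n) : Prop where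
  m00 : a00 ∈ P.coeff.support
  m10 : a10 ∈ P.coeff.support
  m01 : a01 ∈ P.coeff.support
  m11 : a11 ∈ P.coeff.support
  l00 : a00 ∈ (lead (-ρ) P).coeff.support
  l10 : a10 ∈ (lead (-ρ) P).coeff.support
  l01 : a01 ∈ (lead ρ P).coeff.support
  l11 : a11 ∈ (lead ρ P).coeff.support
  s0 : ∀ a ∈ P.coeff.support, a00 ⬝ᵥ σ ≤ a ⬝ᵥ σ
  s1 : ∀ a ∈ P.coeff.support, a ⬝ᵥ σ ≤ a10 ⬝ᵥ σ
  s01 : a01 ⬝ᵥ σ = a00 ⬝ᵥ σ
  s11 : a11 ⬝ᵥ σ = a10 ⬝ᵥ σ
  diff : ∀ a ∈ P.coeff.support, ∀ b ∈ P.coeff.support,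
    a - b = ((a - b) ⬝ᵥ σ) • e + ((a - b) ⬝ᵥ ρ) • f

theorem exists_box {P Q : EA n} {x e f σ ρ : Vec n}
    (hsupp : ((P * Q).coeff.support : Set (Vec n)) = {x, x + e, x + f, x + e + f})
    (heσ : e ⬝ᵥ σ = 1) (hfσ : f ⬝ᵥ σ = 0) (heρ : e ⬝ᵥ ρ = 0) (hfρ : f ⬝ᵥ ρ = 1) :
    ∃ a00 a10 a01 a11, Box P e f σ ρ a00 a10 a01 a11 := by
  have hmem : ∀ u, u ∈ (P * Q).coeff.support ↔ u = x ∨ u = x + e ∨ u = x + f ∨ u = x + e + f := by
    intro u
    have : u ∈ ((P * Q).coeff.support : Set (Vec n)) ↔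
        u ∈ ({x, x + e, x + f, x + e + f} : Set (Vec n)) := by rw [hsupp]
    simpa using this
  obtain ⟨a00, m00, c00⟩ := corner (P := P) (Q := Q) (v := x) ((hmem _).2 (by simp))
  obtain ⟨a10, m10, c10⟩ := corner (P := P) (Q := Q) (v := x + e) ((hmem _).2 (by simp))
  obtain ⟨a01, m01, c01⟩ := corner (P := P) (Q := Q) (v := x + f) ((hmem _).2 (by simp))
  obtain ⟨a11, m11, c11⟩ := corner (P := P) (Q := Q) (v := x + e + f) ((hmem _).2 (by simp))
  have k : ∀ {v w : Vec n}, (x ⬝ᵥ w ≤ v ⬝ᵥ w) → (x ⬝ᵥ w + e ⬝ᵥ w ≤ v ⬝ᵥ w) →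
      (x ⬝ᵥ w + f ⬝ᵥ w ≤ v ⬝ᵥ w) → (x ⬝ᵥ w + e ⬝ᵥ w + f ⬝ᵥ w ≤ v ⬝ᵥ w) →
      ∀ u ∈ (P * Q).coeff.support, u ⬝ᵥ w ≤ v ⬝ᵥ w := by
    intro v w h1 h2 h3 h4 u hu
    rcases (hmem u).1 hu with rfl | rfl | rfl | rfl
    · exact h1
    · rw [add_dotProduct]; exact h2
    · rw [add_dotProduct]; exact h3
    · rw [add_dotProduct, add_dotProduct]; exact h4
  have s00 : ∀ a ∈ P.coeff.support, a00 ⬝ᵥ σ ≤ a ⬝ᵥ σ := by
    intro a ha
    have := c00 (-σ) (by apply k <;> simp [dotProduct_neg, heσ, hfσ, add_dotProduct]) a ha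
    simpa [dotProduct_neg] using this
  have s01 : ∀ a ∈ P.coeff.support, a01 ⬝ᵥ σ ≤ a ⬝ᵥ σ := by
    intro a ha
    have := c01 (-σ) (by apply k <;> simp [dotProduct_neg, heσ, hfσ, add_dotProduct]) a ha
    simpa [dotProduct_neg] using this
  have s10 : ∀ a ∈ P.coeff.support, a ⬝ᵥ σ ≤ a10 ⬝ᵥ σ := by
    intro a ha
    exact c10 σ (by apply k <;> simp [heσ, hfσ, add_dotProduct]) a ha
  have s11 : ∀ a ∈ P.coeff.support, a ⬝ᵥ σ ≤ a11 ⬝ᵥ σ := by
    intro a ha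
    exact c11 σ (by apply k <;> simp [heσ, hfσ, add_dotProduct]) a ha
  refine ⟨a00, a10, a01, a11, m00, m10, m01, m11, ?_, ?_, ?_, ?_, s00, s10,
    le_antisymm (s01 _ m00) (s00 _ m01), le_antisymm (s10 _ m11) (s11 _ m10), ?_⟩
  · exact mem_support_lead.2 ⟨m00, c00 (-ρ) (by
      apply k <;> simp [dotProduct_neg, heρ, hfρ, add_dotProduct])⟩
  · exact mem_support_lead.2 ⟨m10, c10 (-ρ) (by
      apply k <;> simp [dotProduct_neg, heρ, hfρ, add_dotProduct])⟩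
  · exact mem_support_lead.2 ⟨m01, c01 ρ (by
      apply k <;> simp [heρ, hfρ, add_dotProduct])⟩
  · exact mem_support_lead.2 ⟨m11, c11 ρ (by
      apply k <;> simp [heρ, hfρ, add_dotProduct])⟩
  · intro a ha b hb
    have hconst : ∀ w : Vec n, e ⬝ᵥ w = 0 → f ⬝ᵥ w = 0 → (a - b) ⬝ᵥ w = 0 := by
      intro w hw1 hw2
      have h1 : ∀ a ∈ P.coeff.support, a ⬝ᵥ w = a00 ⬝ᵥ w := by
        intro a ha
        have h2 := c00 w (by apply k <;> simp [hw1, hw2]) a ha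
        have h3 := c00 (-w) (by apply k <;> simp [hw1, hw2, dotProduct_neg]) a ha
        rw [dotProduct_neg, dotProduct_neg] at h3
        linarith
      rw [sub_dotProduct, h1 a ha, h1 b hb, sub_self]
    rw [← sub_eq_zero]
    apply dotProduct_self_eq_zero.1
    set d := a - b - (((a - b) ⬝ᵥ σ) • e + ((a - b) ⬝ᵥ ρ) • f) with hd
    have h2 := hconst (d - (e ⬝ᵥ d) • σ - (f ⬝ᵥ d) • ρ)
      (by rw [dotProduct_sub, dotProduct_sub, dotProduct_smul, dotProduct_smul, heσ, heρ]; simp)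
      (by rw [dotProduct_sub, dotProduct_sub, dotProduct_smul, dotProduct_smul, hfσ, hfρ]; simp)
    rw [dotProduct_sub, dotProduct_sub, dotProduct_smul, dotProduct_smul, smul_eq_mul,
      smul_eq_mul] at h2
    have h3 : d ⬝ᵥ d = (a - b) ⬝ᵥ d - (((a - b) ⬝ᵥ σ) * (e ⬝ᵥ d) + ((a - b) ⬝ᵥ ρ) * (f ⬝ᵥ d)) := by
      conv_lhs => rw [hd, sub_dotProduct, add_dotProduct, smul_dotProduct, smul_dotProduct,
        smul_eq_mul, smul_eq_mul, ← hd]
    rw [h3]
    linarith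

theorem box_ne {P : EA n} {e f σ ρ ω a00 a10 a01 a11 : Vec n}
    (hB : Box P e f σ ρ a00 a10 a01 a11) (h2 : f ⬝ᵥ ω < 0)
    (hP : ¬ Mono (lead ω P)) : a00 ⬝ᵥ σ < a10 ⬝ᵥ σ := by
  refine lt_of_le_of_ne (hB.s0 _ hB.m10) fun heq => hP ?_
  intro a ha b hb
  obtain ⟨ha1, ha2⟩ := mem_support_lead.1 (Finset.mem_coe.1 ha)
  obtain ⟨hb1, hb2⟩ := mem_support_lead.1 (Finset.mem_coe.1 hb)
  have h3 : a ⬝ᵥ ω = b ⬝ᵥ ω := le_antisymm (hb2 a ha1) (ha2 b hb1)
  have h4 : a ⬝ᵥ σ = b ⬝ᵥ σ := by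
    have e1 := hB.s0 a ha1
    have e2 := hB.s1 a ha1
    have e3 := hB.s0 b hb1
    have e4 := hB.s1 b hb1
    linarith
  have h5 := hB.diff a ha1 b hb1
  have h6 : (a - b) ⬝ᵥ σ = 0 := by rw [sub_dotProduct, h4, sub_self]
  rw [h6, zero_smul, zero_add] at h5
  have h7 : (a - b) ⬝ᵥ ω = ((a - b) ⬝ᵥ ρ) * (f ⬝ᵥ ω) := by
    conv_lhs => rw [h5, smul_dotProduct, smul_eq_mul]
  have h8 : (a - b) ⬝ᵥ ρ = 0 := by
    have : ((a - b) ⬝ᵥ ρ) * (f ⬝ᵥ ω) = 0 := by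
      rw [← h7, sub_dotProduct, h3, sub_self]
    rcases mul_eq_zero.1 this with h | h
    · exact h
    · exact absurd h h2.ne
  rw [h8, zero_smul] at h5
  exact sub_eq_zero.1 h5

theorem box_top {P : EA n} {e f σ ρ ω' a00 a10 a01 a11 : Vec n}
    (hB : Box P e f σ ρ a00 a10 a01 a11) (h3 : e ⬝ᵥ ω' = 0) (h4 : 0 < f ⬝ᵥ ω')
    (hne : a00 ⬝ᵥ σ < a10 ⬝ᵥ σ) : ¬ Mono (lead ω' P) := by
  have key : ∀ a ∈ P.coeff.support, (∀ b ∈ P.coeff.support, b ⬝ᵥ ρ ≤ a ⬝ᵥ ρ) →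
      a ∈ (lead ω' P).coeff.support := by
    intro a ha hmax
    refine mem_support_lead.2 ⟨ha, fun b hb => ?_⟩
    have h5 := hB.diff a ha b hb
    have h6 : (a - b) ⬝ᵥ ω' = ((a - b) ⬝ᵥ ρ) * (f ⬝ᵥ ω') := by
      conv_lhs => rw [h5, add_dotProduct, smul_dotProduct, smul_dotProduct, smul_eq_mul,
        smul_eq_mul, h3, mul_zero, zero_add]
    have h7 : 0 ≤ (a - b) ⬝ᵥ ρ := by
      rw [sub_dotProduct]
      linarith [hmax b hb]
    have h8 : 0 ≤ (a - b) ⬝ᵥ ω' := by rw [h6]; positivity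
    rw [sub_dotProduct] at h8
    linarith
  intro hmono
  have h01 := key _ hB.m01 (mem_support_lead.1 hB.l01).2
  have h11 := key _ hB.m11 (mem_support_lead.1 hB.l11).2
  have h9 : a01 = a11 := hmono (Finset.mem_coe.2 h01) (Finset.mem_coe.2 h11)
  have h10 := hB.s01
  rw [h9, hB.s11] at h10
  linarith

/-- the four coefficients of the product -/
theorem parts {R : EA n} {x e f σ ρ : Vec n}
    (hsupp : (R.coeff.support : Set (Vec n)) = {x, x + e, x + f, x + e + f})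
    (heσ : e ⬝ᵥ σ = 1) (hfσ : f ⬝ᵥ σ = 0) (heρ : e ⬝ᵥ ρ = 0) (hfρ : f ⬝ᵥ ρ = 1) :
    lead (-ρ) R = AddMonoidAlgebra.single x (R.coeff x) +
      AddMonoidAlgebra.single (x + e) (R.coeff (x + e)) ∧
    lead ρ R = AddMonoidAlgebra.single (x + f) (R.coeff (x + f)) +
      AddMonoidAlgebra.single (x + e + f) (R.coeff (x + e + f)) ∧
    R = lead (-ρ) R + lead ρ R := by
  classical
  have hmem : ∀ u, u ∈ R.coeff.support ↔ u = x ∨ u = x + e ∨ u = x + f ∨ u = x + e + f := by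
    intro u
    have : u ∈ (R.coeff.support : Set (Vec n)) ↔
        u ∈ ({x, x + e, x + f, x + e + f} : Set (Vec n)) := by rw [hsupp]
    simpa using this
  have he0 : e ≠ 0 := by
    rintro rfl
    simp at heσ
  have d1 : x ≠ x + e := by simpa using he0
  have d2 : x + f ≠ x + e + f := by
    intro h
    apply d1
    exact add_right_cancel h
  have d3 : x ≠ x + f := by
    intro h
    have := congrArg (fun v => v ⬝ᵥ ρ) h
    simp only [add_dotProduct, hfρ] at this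
    linarith
  have d4 : x ≠ x + e + f := by
    intro h
    have := congrArg (fun v => v ⬝ᵥ ρ) h
    simp only [add_dotProduct, hfρ, heρ] at this
    linarith
  have d5 : x + e ≠ x + f := by
    intro h
    have := congrArg (fun v => v ⬝ᵥ ρ) h
    simp only [add_dotProduct, hfρ, heρ] at this
    linarith
  have d6 : x + e ≠ x + e + f := by
    intro h
    have := congrArg (fun v => v ⬝ᵥ ρ) h
    simp only [add_dotProduct, hfρ, heρ] at this
    linarith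
  have hm : ∀ u, u ∈ (lead (-ρ) R).coeff.support ↔ u = x ∨ u = x + e := by
    intro u
    rw [mem_support_lead, hmem]
    constructor
    · rintro ⟨h1, h2⟩
      have h3 := h2 x ((hmem x).2 (Or.inl rfl))
      rcases h1 with rfl | rfl | rfl | rfl
      · exact Or.inl rfl
      · exact Or.inr rfl
      · simp only [dotProduct_neg, add_dotProduct, hfρ] at h3
        linarith
      · simp only [dotProduct_neg, add_dotProduct, hfρ, heρ] at h3
        linarith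
    · intro h
      refine ⟨by tauto, fun b hb => ?_⟩
      rcases h with rfl | rfl <;> rcases (hmem b).1 hb with rfl | rfl | rfl | rfl <;>
        simp [dotProduct_neg, add_dotProduct, hfρ, heρ]
  have hM : ∀ u, u ∈ (lead ρ R).coeff.support ↔ u = x + f ∨ u = x + e + f := by
    intro u
    rw [mem_support_lead, hmem]
    constructor
    · rintro ⟨h1, h2⟩
      have h3 := h2 (x + f) ((hmem (x + f)).2 (Or.inr (Or.inr (Or.inl rfl))))
      rcases h1 with rfl | rfl | rfl | rfl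
      · simp only [add_dotProduct, hfρ] at h3
        linarith
      · simp only [add_dotProduct, hfρ, heρ] at h3
        linarith
      · exact Or.inl rfl
      · exact Or.inr rfl
    · intro h
      refine ⟨by tauto, fun b hb => ?_⟩
      rcases h with rfl | rfl <;> rcases (hmem b).1 hb with rfl | rfl | rfl | rfl <;>
        simp [add_dotProduct, hfρ, heρ]
  have sm : (lead (-ρ) R).coeff.support = {x, x + e} := by
    ext u; rw [hm]; simp
  have sM : (lead ρ R).coeff.support = {x + f, x + e + f} := by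
    ext u; rw [hM]; simp
  have sR : R.coeff.support = {x, x + e} ∪ {x + f, x + e + f} := by
    ext u; rw [hmem]; simp
    tauto
  have e1 : lead (-ρ) R = AddMonoidAlgebra.single x (R.coeff x) +
      AddMonoidAlgebra.single (x + e) (R.coeff (x + e)) := by
    rw [← AddMonoidAlgebra.sum_coeff_single (lead (-ρ) R), Finsupp.sum, sm, Finset.sum_pair d1,
      coeff_lead _ _ ((hm x).2 (Or.inl rfl)), coeff_lead _ _ ((hm (x + e)).2 (Or.inr rfl))]
  have e2 : lead ρ R = AddMonoidAlgebra.single (x + f) (R.coeff (x + f)) +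
      AddMonoidAlgebra.single (x + e + f) (R.coeff (x + e + f)) := by
    rw [← AddMonoidAlgebra.sum_coeff_single (lead ρ R), Finsupp.sum, sM, Finset.sum_pair d2,
      coeff_lead _ _ ((hM (x + f)).2 (Or.inl rfl)),
      coeff_lead _ _ ((hM (x + e + f)).2 (Or.inr rfl))]
  refine ⟨e1, e2, ?_⟩
  rw [e1, e2]
  conv_lhs => rw [← AddMonoidAlgebra.sum_coeff_single R, Finsupp.sum, sR]
  rw [Finset.sum_union, Finset.sum_pair d1, Finset.sum_pair d2]
  rw [Finset.disjoint_left]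
  intro u hu hu'
  simp only [Finset.mem_insert, Finset.mem_singleton] at hu hu'
  rcases hu with rfl | rfl <;> rcases hu' with h | h
  · exact d3 h
  · exact d4 h
  · exact d5 h
  · exact d6 h

theorem lead_self {P : EA n} {w : Vec n}
    (h : ∀ a ∈ P.coeff.support, ∀ b ∈ P.coeff.support, b ⬝ᵥ w ≤ a ⬝ᵥ w) : lead w P = P := by
  classical
  have hs : (lead w P).coeff.support = P.coeff.support := by
    ext a
    rw [mem_support_lead]
    exact ⟨fun h1 => h1.1, fun h1 => ⟨h1, h a h1⟩⟩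
  apply AddMonoidAlgebra.coeff_injective
  ext a : 1
  by_cases ha : a ∈ (lead w P).coeff.support
  · exact coeff_lead w P ha
  · rw [Finsupp.notMem_support_iff.1 ha]
    rw [hs] at ha
    rw [Finsupp.notMem_support_iff.1 ha]

theorem key {P Q : EA n} {x e f σ ρ a00 a10 a01 a11 z0 : Vec n} {c0 : ℂ}
    (hsupp : ((P * Q).coeff.support : Set (Vec n)) = {x, x + e, x + f, x + e + f})
    (heσ : e ⬝ᵥ σ = 1) (hfσ : f ⬝ᵥ σ = 0) (heρ : e ⬝ᵥ ρ = 0) (hfρ : f ⬝ᵥ ρ = 1)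
    (hB : Box P e f σ ρ a00 a10 a01 a11) (hne : a00 ⬝ᵥ σ < a10 ⬝ᵥ σ)
    (h0 : ((MvPolynomial.eval z0 ((P * Q).coeff x) : ℝ) : ℂ) +
      ((MvPolynomial.eval z0 ((P * Q).coeff (x + e)) : ℝ) : ℂ) * Complex.exp c0 = 0)
    (h1 : ((MvPolynomial.eval z0 ((P * Q).coeff (x + f)) : ℝ) : ℂ) +
      ((MvPolynomial.eval z0 ((P * Q).coeff (x + e + f)) : ℝ) : ℂ) * Complex.exp c0 ≠ 0)
    (hp : psi z0 σ c0 (lead (-ρ) P) ≠ 0)
    (hD : (P * Q).coeff x * (P * Q).coeff (x + e + f) ≠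
      (P * Q).coeff (x + e) * (P * Q).coeff (x + f)) : False := by
  classical
  obtain ⟨e1, e2, e3⟩ := parts hsupp heσ hfσ heρ hfρ
  have hxe : Complex.exp (c0 * (((x + e) ⬝ᵥ σ : ℝ) : ℂ)) =
      Complex.exp (c0 * ((x ⬝ᵥ σ : ℝ) : ℂ)) * Complex.exp c0 := by
    rw [add_dotProduct, heσ, ← Complex.exp_add]
    congr 1
    push_cast
    ring
  have hxf : Complex.exp (c0 * (((x + f) ⬝ᵥ σ : ℝ) : ℂ)) =
      Complex.exp (c0 * ((x ⬝ᵥ σ : ℝ) : ℂ)) := by
    rw [add_dotProduct, hfσ, add_zero]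
  have hxef : Complex.exp (c0 * (((x + e + f) ⬝ᵥ σ : ℝ) : ℂ)) =
      Complex.exp (c0 * ((x ⬝ᵥ σ : ℝ) : ℂ)) * Complex.exp c0 := by
    rw [add_dotProduct, add_dotProduct, heσ, hfσ, add_zero, ← Complex.exp_add]
    congr 1
    push_cast
    ring
  set E := Complex.exp (c0 * ((x ⬝ᵥ σ : ℝ) : ℂ)) with hE
  have hE0 : E ≠ 0 := Complex.exp_ne_zero _
  set κ := (((MvPolynomial.eval z0 ((P * Q).coeff (x + f)) : ℝ) : ℂ) +
      ((MvPolynomial.eval z0 ((P * Q).coeff (x + e + f)) : ℝ) : ℂ) * Complex.exp c0) * E with hκ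
  have hκ0 : κ ≠ 0 := mul_ne_zero h1 hE0
  have hPhi : Phi z0 σ ρ c0 P * Phi z0 σ ρ c0 Q = AddMonoidAlgebra.single (x ⬝ᵥ ρ + 1) κ := by
    rw [← map_mul, e3, e1, e2, map_add (Phi z0 σ ρ c0), map_add (Phi z0 σ ρ c0),
      map_add (Phi z0 σ ρ c0), Phi_single, Phi_single, Phi_single, Phi_single, hxe, hxf, hxef]
    simp only [add_dotProduct, heρ, hfρ, add_zero]
    rw [← AddMonoidAlgebra.single_add, ← AddMonoidAlgebra.single_add]
    have k1 : ((MvPolynomial.eval z0 ((P * Q).coeff x) : ℝ) : ℂ) * E +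
        ((MvPolynomial.eval z0 ((P * Q).coeff (x + e)) : ℝ) : ℂ) * (E * Complex.exp c0) = 0 := by
      linear_combination E * h0
    have k2 : ((MvPolynomial.eval z0 ((P * Q).coeff (x + f)) : ℝ) : ℂ) * E +
        ((MvPolynomial.eval z0 ((P * Q).coeff (x + e + f)) : ℝ) : ℂ) * (E * Complex.exp c0) = κ := by
      rw [hκ]; ring
    rw [k1, k2, AddMonoidAlgebra.single_zero, zero_add]
  have hc00 := coeff_Phi z0 σ ρ (-ρ) c0 P hB.l00 (Or.inr rfl)
  have hc01 := coeff_Phi z0 σ ρ ρ c0 P hB.l01 (Or.inl rfl)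
  have hP1 : psi z0 σ c0 (lead ρ P) ≠ 0 := by
    intro h
    have h2 : psi z0 σ c0 (lead ρ (P * Q)) = κ := by
      rw [e2, map_add, psi_single, psi_single, hxf, hxef, hκ]
      ring
    rw [lead_mul, map_mul, h, zero_mul] at h2
    exact hκ0 h2.symm
  have hf0 : Phi z0 σ ρ c0 P ≠ 0 := by
    intro h
    rw [h] at hc00
    apply hp
    rw [← hc00]
    simp
  have hg0 : Phi z0 σ ρ c0 Q ≠ 0 := by
    intro h
    rw [h, mul_zero] at hPhi
    have h2 := congrArg (fun g => g.coeff (x ⬝ᵥ ρ + 1)) hPhi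
    simp at h2
    exact hκ0 h2.symm
  have hmono : ((Phi z0 σ ρ c0 P).coeff.support : Set ℝ).Subsingleton := by
    apply mono_of_mul hf0 hg0
    rw [hPhi]
    intro a ha b hb
    have k : ∀ t, t ∈ ((AddMonoidAlgebra.single (x ⬝ᵥ ρ + 1) κ :
        AddMonoidAlgebra ℂ ℝ).coeff.support : Set ℝ) → t = x ⬝ᵥ ρ + 1 := by
      intro t ht
      rw [AddMonoidAlgebra.coeff_single, Finset.mem_coe, Finsupp.mem_support_single] at ht
      exact ht.1
    rw [k a ha, k b hb]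
  have hρ : a00 ⬝ᵥ ρ = a01 ⬝ᵥ ρ := by
    apply hmono
    · rw [Finset.mem_coe, Finsupp.mem_support_iff, hc00]; exact hp
    · rw [Finset.mem_coe, Finsupp.mem_support_iff, hc01]; exact hP1
  have hlev : ∀ a ∈ P.coeff.support, a ⬝ᵥ ρ = a00 ⬝ᵥ ρ := by
    intro a ha
    have k1 := (mem_support_lead.1 hB.l00).2 a ha
    have k2 := (mem_support_lead.1 hB.l01).2 a ha
    rw [dotProduct_neg, dotProduct_neg] at k1
    linarith
  have hs1 : lead (-ρ) P = P := lead_self fun a ha b hb => by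
    rw [dotProduct_neg, dotProduct_neg, hlev a ha, hlev b hb]
  have hs2 : lead ρ P = P := lead_self fun a ha b hb => by
    rw [hlev a ha, hlev b hb]
  have hprod : P * (AddMonoidAlgebra.single f ((P * Q).coeff (x + f)) * lead (-ρ) Q -
      AddMonoidAlgebra.single 0 ((P * Q).coeff x) * lead ρ Q) =
      AddMonoidAlgebra.single (x + e + f) ((P * Q).coeff (x + e) * (P * Q).coeff (x + f) -
        (P * Q).coeff x * (P * Q).coeff (x + e + f)) := by
    have k1 : P * lead (-ρ) Q = lead (-ρ) (P * Q) := by rw [lead_mul, hs1]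
    have k2 : P * lead ρ Q = lead ρ (P * Q) := by rw [lead_mul, hs2]
    have k3 : P * (AddMonoidAlgebra.single f ((P * Q).coeff (x + f)) * lead (-ρ) Q -
        AddMonoidAlgebra.single 0 ((P * Q).coeff x) * lead ρ Q) =
        AddMonoidAlgebra.single f ((P * Q).coeff (x + f)) * (P * lead (-ρ) Q) -
        AddMonoidAlgebra.single 0 ((P * Q).coeff x) * (P * lead ρ Q) := by ring
    rw [k3, k1, k2, e1, e2, mul_add, mul_add, AddMonoidAlgebra.single_mul_single,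
      AddMonoidAlgebra.single_mul_single, AddMonoidAlgebra.single_mul_single,
      AddMonoidAlgebra.single_mul_single, zero_add, zero_add, add_comm f x, add_comm f (x + e),
      mul_comm ((P * Q).coeff (x + f)) ((P * Q).coeff x),
      mul_comm ((P * Q).coeff (x + f)) ((P * Q).coeff (x + e)), AddMonoidAlgebra.single_sub]
    abel
  have hP0 : P ≠ 0 := ne_zero_iff_support.2 ⟨_, hB.m00⟩
  have hne' : (P * Q).coeff (x + e) * (P * Q).coeff (x + f) -
        (P * Q).coeff x * (P * Q).coeff (x + e + f) ≠ 0 := fun h => hD (sub_eq_zero.1 h).symm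
  have hW0 : (AddMonoidAlgebra.single f ((P * Q).coeff (x + f)) * lead (-ρ) Q -
      AddMonoidAlgebra.single 0 ((P * Q).coeff x) * lead ρ Q) ≠ 0 := by
    intro h
    rw [h, mul_zero] at hprod
    have h2 := congrArg (fun g => g.coeff (x + e + f)) hprod
    simp at h2
    exact hne' h2.symm
  have hPm : (P.coeff.support : Set (Vec n)).Subsingleton := by
    apply mono_of_mul hP0 hW0
    rw [hprod]
    intro a ha b hb
    rw [AddMonoidAlgebra.coeff_single, Finset.mem_coe, Finsupp.mem_support_single] at ha hb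
    rw [ha.1, hb.1]
  have := hPm (Finset.mem_coe.2 hB.m00) (Finset.mem_coe.2 hB.m10)
  rw [this] at hne
  exact lt_irrefl _ hne

theorem hasDerivAt_psi (z0 σ : Vec n) (P : EA n) (c0 : ℂ) :
    ∃ p', HasDerivAt (fun c => psi z0 σ c P) p' c0 := by
  simp only [psi_apply]
  refine ⟨∑ a ∈ P.coeff.support, ((MvPolynomial.eval z0 (P.coeff a) : ℝ) : ℂ) *
    (Complex.exp (c0 * ((a ⬝ᵥ σ : ℝ) : ℂ)) * ((a ⬝ᵥ σ : ℝ) : ℂ)),
    HasDerivAt.fun_sum fun a _ => ?_⟩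
  have h1 : HasDerivAt (fun c : ℂ => c * ((a ⬝ᵥ σ : ℝ) : ℂ)) ((a ⬝ᵥ σ : ℝ) : ℂ) c0 := by
    simpa using (hasDerivAt_id c0).mul_const ((a ⬝ᵥ σ : ℝ) : ℂ)
  exact (h1.cexp).const_mul _

end Theta

open Theta

/-- Module `Theta`. -/
theorem theta {n : ℕ} {P Q : EA n} {x e f ω ω' : Vec n} (hef : LinearIndependent ℝ ![e, f])
    (hsupp : ((P * Q).coeff.support : Set (Vec n)) = {x, x + e, x + f, x + e + f})
    (h1 : e ⬝ᵥ ω = 0) (h2 : f ⬝ᵥ ω < 0) (h3 : e ⬝ᵥ ω' = 0) (h4 : 0 < f ⬝ᵥ ω')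
    (hP : ¬ Mono (lead ω P)) (hQ : ¬ Mono (lead ω Q)) :
    (P * Q).coeff x * (P * Q).coeff (x + e + f) = (P * Q).coeff (x + e) * (P * Q).coeff (x + f) ∧
      ¬ Mono (lead ω' P) ∧ ¬ Mono (lead ω' Q) := by
  classical
  -- coordinates
  have hf0 : f ≠ 0 := by
    rintro rfl
    simp at h2
  have hff : f ⬝ᵥ f ≠ 0 := fun h => hf0 (dotProduct_self_eq_zero.1 h)
  obtain ⟨σ, heσ, hfσ⟩ : ∃ σ : Vec n, e ⬝ᵥ σ = 1 ∧ f ⬝ᵥ σ = 0 := by
    set t := (e ⬝ᵥ f) / (f ⬝ᵥ f) with ht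
    set g := e - t • f with hg
    have hg0 : g ≠ 0 := by
      intro h
      have h5 := LinearIndependent.pair_iff.1 hef 1 (-t) (by
        rw [one_smul, neg_smul, ← sub_eq_add_neg]; exact h)
      exact one_ne_zero h5.1
    have hfg : f ⬝ᵥ g = 0 := by
      rw [hg, dotProduct_sub, dotProduct_smul, smul_eq_mul, ht, dotProduct_comm f e,
        div_mul_cancel₀ _ hff, sub_self]
    have heg : e ⬝ᵥ g = g ⬝ᵥ g := by
      conv_rhs => rw [hg, sub_dotProduct, smul_dotProduct, ← hg, hfg, smul_zero, sub_zero]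
    refine ⟨(g ⬝ᵥ g)⁻¹ • g, ?_, ?_⟩
    · rw [dotProduct_smul, smul_eq_mul, heg,
        inv_mul_cancel₀ fun h => hg0 (dotProduct_self_eq_zero.1 h)]
    · rw [dotProduct_smul, hfg, smul_zero]
  obtain ⟨ρ, heρ, hfρ⟩ : ∃ ρ : Vec n, e ⬝ᵥ ρ = 0 ∧ f ⬝ᵥ ρ = 1 := by
    refine ⟨(f ⬝ᵥ ω)⁻¹ • ω, ?_, ?_⟩
    · rw [dotProduct_smul, h1, smul_zero]
    · rw [dotProduct_smul, smul_eq_mul, inv_mul_cancel₀ h2.ne]
  have hsupp' : ((Q * P).coeff.support : Set (Vec n)) = {x, x + e, x + f, x + e + f} := by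
    rw [mul_comm]; exact hsupp
  obtain ⟨a00, a10, a01, a11, hBP⟩ := exists_box hsupp heσ hfσ heρ hfρ
  obtain ⟨b00, b10, b01, b11, hBQ⟩ := exists_box hsupp' heσ hfσ heρ hfρ
  have hneP := box_ne hBP h2 hP
  have hneQ := box_ne hBQ h2 hQ
  refine ⟨?_, box_top hBP h3 h4 hneP, box_top hBQ h3 h4 hneQ⟩
  by_contra hD
  have hmem : ∀ u, u ∈ ({x, x + e, x + f, x + e + f} : Set (Vec n)) → (P * Q).coeff u ≠ 0 := by
    intro u hu
    rw [← hsupp] at hu
    exact Finsupp.mem_support_iff.1 (Finset.mem_coe.1 hu)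
  have n00 := hmem x (by simp)
  have n10 := hmem (x + e) (by simp)
  have n01 := hmem (x + f) (by simp)
  have n11 := hmem (x + e + f) (by simp)
  obtain ⟨z0, hz0⟩ : ∃ z0 : Vec n, MvPolynomial.eval z0 (((P * Q).coeff x *
      (P * Q).coeff (x + e + f) - (P * Q).coeff (x + e) * (P * Q).coeff (x + f)) *
      ((P * Q).coeff x * (P * Q).coeff (x + e))) ≠ 0 := by
    by_contra hcon
    push Not at hcon
    have h5 : ((P * Q).coeff x * (P * Q).coeff (x + e + f) -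
        (P * Q).coeff (x + e) * (P * Q).coeff (x + f)) *
        ((P * Q).coeff x * (P * Q).coeff (x + e)) = 0 :=
      MvPolynomial.funext fun z => by rw [hcon z, map_zero]
    exact mul_ne_zero (sub_ne_zero.2 hD) (mul_ne_zero n00 n10) h5
  simp only [map_mul, map_sub] at hz0
  obtain ⟨g1, g2⟩ := mul_ne_zero_iff.1 hz0
  obtain ⟨g3, g4⟩ := mul_ne_zero_iff.1 g2
  set r00 := MvPolynomial.eval z0 ((P * Q).coeff x) with hr00
  set r10 := MvPolynomial.eval z0 ((P * Q).coeff (x + e)) with hr10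
  set r01 := MvPolynomial.eval z0 ((P * Q).coeff (x + f)) with hr01
  set r11 := MvPolynomial.eval z0 ((P * Q).coeff (x + e + f)) with hr11
  have g3' : (r00 : ℂ) ≠ 0 := Complex.ofReal_ne_zero.2 g3
  have g4' : (r10 : ℂ) ≠ 0 := Complex.ofReal_ne_zero.2 g4
  obtain ⟨c0, hc0⟩ : ∃ c0 : ℂ, Complex.exp c0 = -(r00 : ℂ) / r10 :=
    ⟨Complex.log (-(r00 : ℂ) / r10), Complex.exp_log (div_ne_zero (neg_ne_zero.2 g3') g4')⟩
  have k0 : (r00 : ℂ) + r10 * Complex.exp c0 = 0 := by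
    rw [hc0]; field_simp; ring
  have k1 : (r01 : ℂ) + r11 * Complex.exp c0 ≠ 0 := by
    intro h
    apply g1
    have h5 : ((r00 * r11 - r10 * r01 : ℝ) : ℂ) = 0 := by
      push_cast
      rw [hc0] at h
      field_simp at h
      linear_combination -h
    exact_mod_cast h5
  -- the simple zero
  obtain ⟨p', hp'⟩ := hasDerivAt_psi z0 σ (lead (-ρ) P) c0
  obtain ⟨q', hq'⟩ := hasDerivAt_psi z0 σ (lead (-ρ) Q) c0
  obtain ⟨e1, e2, e3⟩ := parts hsupp heσ hfσ heρ hfρ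
  have hprod : ∀ c : ℂ, psi z0 σ c (lead (-ρ) P) * psi z0 σ c (lead (-ρ) Q) =
      (r00 : ℂ) * Complex.exp (c * ((x ⬝ᵥ σ : ℝ) : ℂ)) +
        (r10 : ℂ) * Complex.exp (c * (((x + e) ⬝ᵥ σ : ℝ) : ℂ)) := by
    intro c
    rw [← map_mul, ← lead_mul, e1, map_add, psi_single, psi_single]
  have hboth : ¬ (psi z0 σ c0 (lead (-ρ) P) = 0 ∧ psi z0 σ c0 (lead (-ρ) Q) = 0) := by
    rintro ⟨hp, hq⟩
    have d1 := hp'.mul hq'
    rw [hp, hq, mul_zero, zero_mul, add_zero] at d1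
    have d2 : HasDerivAt (fun c : ℂ => (r00 : ℂ) * Complex.exp (c * ((x ⬝ᵥ σ : ℝ) : ℂ)) +
        (r10 : ℂ) * Complex.exp (c * (((x + e) ⬝ᵥ σ : ℝ) : ℂ)))
        ((r00 : ℂ) * (Complex.exp (c0 * ((x ⬝ᵥ σ : ℝ) : ℂ)) * ((x ⬝ᵥ σ : ℝ) : ℂ)) +
        (r10 : ℂ) * (Complex.exp (c0 * (((x + e) ⬝ᵥ σ : ℝ) : ℂ)) * (((x + e) ⬝ᵥ σ : ℝ) : ℂ))) c0 := by
      have m1 : ∀ s : ℂ, HasDerivAt (fun c : ℂ => c * s) s c0 := fun s => by
        simpa using (hasDerivAt_id c0).mul_const s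
      exact ((m1 _).cexp.const_mul _).add ((m1 _).cexp.const_mul _)
    have d3 : HasDerivAt (fun c : ℂ => (r00 : ℂ) * Complex.exp (c * ((x ⬝ᵥ σ : ℝ) : ℂ)) +
        (r10 : ℂ) * Complex.exp (c * (((x + e) ⬝ᵥ σ : ℝ) : ℂ))) 0 c0 := by
      have e4 : (fun c : ℂ => (r00 : ℂ) * Complex.exp (c * ((x ⬝ᵥ σ : ℝ) : ℂ)) +
        (r10 : ℂ) * Complex.exp (c * (((x + e) ⬝ᵥ σ : ℝ) : ℂ))) =
        (fun c => psi z0 σ c (lead (-ρ) P)) * fun c => psi z0 σ c (lead (-ρ) Q) := by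
        funext c
        rw [Pi.mul_apply, hprod]
      rw [e4]
      exact d1
    have d4 := d2.unique d3
    have hxe : Complex.exp (c0 * (((x + e) ⬝ᵥ σ : ℝ) : ℂ)) =
        Complex.exp (c0 * ((x ⬝ᵥ σ : ℝ) : ℂ)) * Complex.exp c0 := by
      rw [add_dotProduct, heσ, ← Complex.exp_add]
      congr 1
      push_cast
      ring
    have hE0 : Complex.exp (c0 * ((x ⬝ᵥ σ : ℝ) : ℂ)) ≠ 0 := Complex.exp_ne_zero _
    have d5 : (r10 : ℂ) * (Complex.exp (c0 * ((x ⬝ᵥ σ : ℝ) : ℂ)) * Complex.exp c0) = 0 := by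
      rw [hxe, add_dotProduct, heσ] at d4
      push_cast at d4
      linear_combination d4 - (Complex.exp (c0 * ((x ⬝ᵥ σ : ℝ) : ℂ)) * ((x ⬝ᵥ σ : ℝ) : ℂ)) * k0
    exact mul_ne_zero g4' (mul_ne_zero hE0 (Complex.exp_ne_zero _)) d5
  by_cases hp : psi z0 σ c0 (lead (-ρ) P) = 0
  · have hq : psi z0 σ c0 (lead (-ρ) Q) ≠ 0 := fun h => hboth ⟨hp, h⟩
    refine key (P := Q) (Q := P) (z0 := z0) (c0 := c0) hsupp' heσ hfσ heρ hfρ hBQ hneQ ?_ ?_ hq ?_
    · rw [mul_comm Q P]; exact k0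
    · rw [mul_comm Q P]; exact k1
    · rw [mul_comm Q P]; exact hD
  · exact key hsupp heσ hfσ heρ hfρ hBP hneP k0 k1 hp hD

end Pool.Agent.Covg
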