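import Pool.Agent.Work.MP_177351_gt.Uniform
import Pool.Agent.Work.MP_177351_gt.Ufl

/-!
# Prisms from uniform parallel edges
-/

set_option autoImplicit false

open MeasureTheory MvPolynomial Set Filter Topology
open scoped Pointwise Matrix

namespace Pool.Agent.Covg

theorem uflStatement (n : ℕ) : UflStatement n := by
  intro K hb C R hT A B hAc hAk hBc hBk hB0 hK ω hω x₁ x₂ hx₁ hx₂ h1 h2 M₁ M₂ d₁ d₂ hM₁ hM₂
    hd₁ hd₂ hrel
  exact ufl hb hT hAc hAk hBc hBk hB0 hK hω hx₁ hx₂ h1 h2 hM₁ hM₂ hd₁ hd₂ hrel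

theorem prism_of_uniform {n : ℕ} {K : Set (Vec n)} {C : Pol n} {R : EA n} (hb : Body K)
    (hT : TrC K C R) {e x₀ : Vec n} (he : e ≠ 0) (hx₀ : R.coeff x₀ ≠ 0)
    (hx₁ : R.coeff (x₀ + e) ≠ 0)
    (h : ∀ ω : Vec n, e ⬝ᵥ ω = 0 →
      (∀ v ∈ R.coeff.support, ∀ v' ∈ R.coeff.support, v ⬝ᵥ ω = v' ⬝ᵥ ω →
        v - v' ∈ Submodule.span ℝ {e}) →
      ∃ x, ((lead ω R).coeff.support : Set (Vec n)) = {x, x + e} ∧
        R.coeff x * R.coeff (x₀ + e) = R.coeff (x + e) * R.coeff x₀) :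
    ∃ A : Set (Vec n), Convex ℝ A ∧ IsCompact A ∧ K = A + segment ℝ 0 e ∧
      ∀ a ∈ A, ∀ a' ∈ A, a - a' ∈ Submodule.span ℝ {e} → a = a' :=
  prism_of_uniform_of (uflStatement n) hb hT he hx₀ hx₁ h

end Pool.Agent.Covg
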