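import Pool.Agent.Work.MP_177351_gt.PrismB
import Pool.Agent.Work.MP_177351_gt.Wrap
import Pool.Agent.Work.MP_177351_gt.Facet
import Pool.Agent.Work.MP_177351_gt.Planar
import Pool.Agent.Work.MP_177351_gt.Theta
import Pool.Agent.Work.MP_177351_gt.Uniform2

/-!
# The prism lemma
-/

set_option autoImplicit false

open MeasureTheory MvPolynomial Set Filter Topology
open scoped Pointwise Matrix

namespace Pool.Agent.Covg

theorem tr_ne_zero' {n : ℕ} {K : Set (Vec n)} {C : Pol n} {R : EA n} (hb : Body K)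
    (hT : TrC K C R) : R ≠ 0 := by
  intro h0
  apply hT.ne
  apply MvPolynomial.funext
  intro z
  have h1 := hT.eq z
  rw [h0, map_zero] at h1
  rw [map_zero]
  exact (mul_eq_zero.1 h1.symm).resolve_right (lap_pos hb z).ne'

/-- One step: the split edge `x, x + e` is moved to a parallel split edge. -/
theorem step {n : ℕ} {K : Set (Vec n)} {P Q : EA n} (h : FP K P Q) {e x ω ω₁ : Vec n}
    (he : e ≠ 0) (heω : e ⬝ᵥ ω = 0) (heω₁ : e ⬝ᵥ ω₁ = 0)
    (hs : ((lead ω (P * Q)).coeff.support : Set (Vec n)) = {x, x + e})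
    (hP : ¬ Mono (lead ω P)) (hQ : ¬ Mono (lead ω Q))
    (hv : ∃ v ∈ (P * Q).coeff.support, x ⬝ᵥ ω₁ < v ⬝ᵥ ω₁) :
    ∃ x' ω' : Vec n, e ⬝ᵥ ω' = 0 ∧
      ((lead ω' (P * Q)).coeff.support : Set (Vec n)) = {x', x' + e} ∧
      ¬ Mono (lead ω' P) ∧ ¬ Mono (lead ω' Q) ∧ x ⬝ᵥ ω₁ < x' ⬝ᵥ ω₁ ∧
      (P * Q).coeff x * (P * Q).coeff (x' + e) = (P * Q).coeff (x + e) * (P * Q).coeff x' := by
  classical
  obtain ⟨C, hT⟩ := h.tr
  have hR : P * Q ≠ 0 := tr_ne_zero' h.body hT
  have hP0 : P ≠ 0 := left_ne_zero_of_mul hR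
  have hQ0 : Q ≠ 0 := right_ne_zero_of_mul hR
  have hNw := Nw_eq h.body hT
  have hext := support_tr h.body hT
  let y : Vec n × Vec n → Vec n := fun p =>
    ((p.1 - x) ⬝ᵥ ω₁)⁻¹ • (p.1 - x) - ((p.2 - x) ⬝ᵥ ω₁)⁻¹ • (p.2 - x)
  let Y : Finset (Vec n) :=
    (((P * Q).coeff.support ×ˢ (P * Q).coeff.support).image y).filter
      fun w => w ∉ Submodule.span ℝ {e}
  obtain ⟨ω₂, heω₂, hl, hlP, hlQ, hY⟩ := perturb hP0 hQ0 he heω hs Y
    (fun w hw => (Finset.mem_filter.1 hw).2)
  have hs₂ : ((lead ω₂ (P * Q)).coeff.support : Set (Vec n)) = {x, x + e} := by rw [hl]; exact hs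
  have hx₂ : x ∈ (lead ω₂ (P * Q)).coeff.support := by
    rw [← Finset.mem_coe, hs₂]; simp
  have hxe₂ : x + e ∈ (lead ω₂ (P * Q)).coeff.support := by
    rw [← Finset.mem_coe, hs₂]; simp
  have hface := (mem_support_lead.1 hx₂).2
  have hface' : ∀ w ∈ (P * Q).coeff.support, w ⬝ᵥ ω₂ = x ⬝ᵥ ω₂ → w = x ∨ w = x + e := by
    intro w hw hwx
    have h1 : w ∈ (lead ω₂ (P * Q)).coeff.support :=
      mem_support_lead.2 ⟨hw, fun b hb => (hface b hb).trans hwx.ge⟩
    rw [← Finset.mem_coe, hs₂] at h1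
    exact h1
  obtain ⟨t, ht, v, hvS, hvx, hA, hB, hCc⟩ := star hface hface' heω₁ hv (by
    intro v hv v' hv' _ _ h0
    by_contra hns
    refine hY (y (v, v')) (Finset.mem_filter.2 ⟨Finset.mem_image.2 ⟨(v, v'), ?_, rfl⟩, hns⟩) h0
    exact Finset.mem_product.2 ⟨hv, hv'⟩)
  set ωs := ω₂ + t • ω₁ with hωs
  have heωs : e ⬝ᵥ ωs = 0 := by
    rw [hωs, dotProduct_add, dotProduct_smul, heω₂, heω₁, smul_zero, add_zero]
  have memF : ∀ w, w ∈ (lead ωs (P * Q)).coeff.support ↔
      w ∈ (P * Q).coeff.support ∧ w ⬝ᵥ ωs = x ⬝ᵥ ωs := by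
    intro w
    rw [mem_support_lead]
    constructor
    · rintro ⟨h1, h2⟩
      exact ⟨h1, le_antisymm (hA w h1) (h2 x (mem_support_lead.1 hx₂).1)⟩
    · rintro ⟨h1, h2⟩
      exact ⟨h1, fun b hb => (hA b hb).trans h2.ge⟩
  have hxF : x ∈ (lead ωs (P * Q)).coeff.support :=
    (memF x).2 ⟨(mem_support_lead.1 hx₂).1, rfl⟩
  have hxeF : x + e ∈ (lead ωs (P * Q)).coeff.support :=
    (memF _).2 ⟨(mem_support_lead.1 hxe₂).1, by rw [add_dotProduct, heωs, add_zero]⟩
  have hvF : v ∈ (lead ωs (P * Q)).coeff.support := (memF v).2 ⟨hvS, hB⟩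
  have hli : LinearIndependent ℝ ![e, v - x] := by
    rw [LinearIndependent.pair_iff]
    intro a b hab
    have h1 : (a • e + b • (v - x)) ⬝ᵥ ω₁ = 0 := by rw [hab, zero_dotProduct]
    rw [add_dotProduct, smul_dotProduct, smul_dotProduct, heω₁, smul_zero, zero_add,
      smul_eq_mul, sub_dotProduct] at h1
    have hb : b = 0 := (mul_eq_zero.1 h1).resolve_right (sub_pos.2 hvx).ne'
    rw [hb, zero_smul, add_zero] at hab
    exact ⟨(smul_eq_zero.1 hab).resolve_right he, hb⟩
  have hvs : vs (lead ωs (P * Q)) = Submodule.span ℝ (range ![e, v - x]) := by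
    rw [Matrix.range_cons, Matrix.range_cons, Matrix.range_empty, union_empty, singleton_union]
    rw [vs, vectorSpan_eq_span_vsub_set_right ℝ (Finset.mem_coe.2 hxF)]
    apply le_antisymm
    · rw [Submodule.span_le]
      rintro _ ⟨w, hw, rfl⟩
      simp only [vsub_eq_sub, SetLike.mem_coe]
      obtain ⟨h1, h2⟩ := (memF w).1 hw
      rcases hCc w h1 h2 with rfl | rfl | ⟨-, h3⟩
      · rw [sub_self]; exact Submodule.zero_mem _
      · rw [add_sub_cancel_left]
        exact Submodule.subset_span (mem_insert _ _)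
      · exact h3
    · rw [Submodule.span_le]
      rintro _ (rfl | rfl)
      · exact Submodule.subset_span ⟨x + _, hxeF, by simp⟩
      · exact Submodule.subset_span ⟨v, hvF, by simp⟩
  have hdim : Module.finrank ℝ (vs (lead ωs (P * Q))) = 2 := by
    rw [hvs, finrank_span_eq_card hli, Fintype.card_fin]
  obtain ⟨K', P', Q', j, p, q, hFP, hj, hNP, hNQ⟩ := face_descent h ωs hdim
  have hsub : (lead ω₂ (P * Q)).coeff.support ⊆ (lead ωs (P * Q)).coeff.support := by
    intro w hw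
    rw [← Finset.mem_coe, hs₂] at hw
    rcases hw with rfl | rfl
    · exact hxF
    · exact hxeF
  have hsubP : (lead ω₂ P).coeff.support ⊆ (lead ωs P).coeff.support := lead_sub hP0 hQ0 hsub
  have hsubQ : (lead ω₂ Q).coeff.support ⊆ (lead ωs Q).coeff.support :=
    lead_sub hQ0 hP0 (by rw [mul_comm Q P]; exact hsub)
  have mono : ∀ (A : EA n) (A' : EA 2) (p : Vec n), (lead ω₂ A).coeff.support ⊆
      (lead ωs A).coeff.support → Nw (lead ωs A) = (fun x => p + j x) '' Nw A' →
      ¬ Mono (lead ω₂ A) → ¬ Mono A' := by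
    intro A A' p h1 h2 h3 h4
    apply h3
    have h5 : (Nw A').Subsingleton := by
      rcases h4.eq_empty_or_singleton with h6 | ⟨a, h6⟩
      · rw [Nw, h6, convexHull_empty]; exact subsingleton_empty
      · rw [Nw, h6, convexHull_singleton]; exact subsingleton_singleton
    have h7 : (Nw (lead ωs A)).Subsingleton := by rw [h2]; exact h5.image _
    exact h7.anti ((Finset.coe_subset.2 h1).trans (subset_Nw _))
  have hP2 : ¬ Mono (lead ω₂ P) := by rw [hlP]; exact hP
  have hQ2 : ¬ Mono (lead ω₂ Q) := by rw [hlQ]; exact hQ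
  obtain ⟨v', d, d', hdd, hK'⟩ := planar hFP (mono P P' p hsubP hNP hP2) (mono Q Q' q hsubQ hNQ hQ2)
  obtain ⟨C', hT'⟩ := hFP.tr
  have hR' : P' * Q' ≠ 0 := tr_ne_zero' hFP.body hT'
  have hNw' := Nw_eq hFP.body hT'
  rw [Nw_mul (left_ne_zero_of_mul hR') (right_ne_zero_of_mul hR')] at hNw'
  have hT1 : convexHull ℝ ((lead ωs (P * Q)).coeff.support : Set (Vec n)) =
      {w | ∃ s ∈ Icc (0 : ℝ) 1, ∃ r ∈ Icc (0 : ℝ) 1,
        w = (p + q + j v') + s • j d + r • j d'} := by
    change Nw (lead ωs (P * Q)) = _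
    rw [lead_mul, Nw_mul (lead_ne_zero _ hP0) (lead_ne_zero _ hQ0), hNP, hNQ]
    ext w
    constructor
    · rintro ⟨_, ⟨a, ha, rfl⟩, _, ⟨b, hb, rfl⟩, rfl⟩
      have hab : a + b ∈ K' := hNw' ▸ add_mem_add ha hb
      rw [hK'] at hab
      obtain ⟨s, hs, r, hr, hab⟩ := hab
      refine ⟨s, hs, r, hr, ?_⟩
      have h1 : j a + j b = j v' + s • j d + r • j d' := by
        rw [← map_add, hab, map_add, map_add, map_smul, map_smul]
      calc p + j a + (q + j b) = p + q + (j a + j b) := by abel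
        _ = p + q + j v' + s • j d + r • j d' := by rw [h1]; abel
    · rintro ⟨s, hs, r, hr, rfl⟩
      have h1 : v' + s • d + r • d' ∈ K' := by rw [hK']; exact ⟨s, hs, r, hr, rfl⟩
      rw [← hNw'] at h1
      obtain ⟨a, ha, b, hb, hab⟩ := h1
      refine ⟨p + j a, ⟨a, ha, rfl⟩, q + j b, ⟨b, hb, rfl⟩, ?_⟩
      have h1 : j a + j b = j v' + s • j d + r • j d' := by
        rw [← map_add]
        have hab' : a + b = v' + s • d + r • d' := hab
        rw [hab', map_add, map_add, map_smul, map_smul]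
      calc p + j a + (q + j b) = p + q + (j a + j b) := by abel
        _ = p + q + j v' + s • j d + r • j d' := by rw [h1]; abel
  have hjd : LinearIndependent ℝ ![j d, j d'] := by
    rw [LinearIndependent.pair_iff] at hdd ⊢
    intro a b hab
    apply hdd a b
    apply hj
    rw [map_add, map_smul, map_smul, map_zero]
    exact hab
  have hFcor := corners hjd hT1 (by
    intro w hw
    apply inter_extremePoints_subset_extremePoints_of_subset
      (A := K) (𝕜 := ℝ)
    · rw [← hNw]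
      apply convexHull_mono
      intro b hb
      exact ((memF b).1 hb).1
    · refine ⟨subset_convexHull _ _ hw, ?_⟩
      rw [← hext]
      exact ((memF w).1 hw).1)
  obtain ⟨f, hef, hFf⟩ := side (F := ((lead ωs (P * Q)).coeff.support : Set (Vec n))) hjd hFcor he
    hxF hxeF heω₂ (fun w hw => hface w ((memF w).1 hw).1)
    (fun w hw => hface' w ((memF w).1 hw).1)
  have hefp := LinearIndependent.pair_iff.1 hef
  have hf0 : f ≠ 0 := hef.ne_zero 1
  have hfe : e ≠ f := fun h0 => by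
    have := hefp 1 (-1) (by rw [h0]; module)
    exact one_ne_zero this.1
  have hxfF : x + f ∈ (lead ωs (P * Q)).coeff.support := by
    rw [← Finset.mem_coe, hFf]; simp
  obtain ⟨hxf1, hxf2⟩ := (memF _).1 hxfF
  have hfpos : 0 < f ⬝ᵥ ω₁ := by
    rcases hCc _ hxf1 hxf2 with h1 | h1 | ⟨h1, -⟩
    · exact absurd (by simpa using h1) hf0
    · exact absurd (add_left_cancel h1).symm hfe
    · rw [add_dotProduct] at h1; linarith
  have hfneg : f ⬝ᵥ ω₂ < 0 := by
    rw [add_dotProduct] at hxf2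
    have h1 : f ⬝ᵥ ω₂ + t * (f ⬝ᵥ ω₁) = 0 := by
      have h2 : f ⬝ᵥ ωs = 0 := by linarith
      rw [hωs, dotProduct_add, dotProduct_smul, smul_eq_mul] at h2
      exact h2
    have h2 : 0 < t * (f ⬝ᵥ ω₁) := mul_pos ht hfpos
    linarith
  have hmulF : lead ωs P * lead ωs Q = lead ωs (P * Q) := (lead_mul _ _ _).symm
  obtain ⟨hth, hth1, hth2⟩ := theta (P := lead ωs P) (Q := lead ωs Q) hef
    (by rw [hmulF]; exact hFf) heω₂ hfneg heω₁ hfpos
    (by rw [lead_lead_of_sub hsubP]; exact hP2) (by rw [lead_lead_of_sub hsubQ]; exact hQ2)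
  obtain ⟨s₁, hs₁⟩ := lead_lead ωs ω₁ P
  obtain ⟨s₂, hs₂'⟩ := lead_lead ωs ω₁ Q
  obtain ⟨s₃, hs₃⟩ := lead_lead ωs ω₁ (P * Q)
  set s := max s₁ (max s₂ s₃) with hsdef
  have hsP := hs₁ s (le_max_left _ _)
  have hsQ := hs₂' s ((le_max_left _ _).trans (le_max_right _ _))
  have hsR := hs₃ s ((le_max_right _ _).trans (le_max_right _ _))
  refine ⟨x + f, s • ωs + ω₁, ?_, ?_, ?_, ?_, ?_, ?_⟩
  · rw [dotProduct_add, dotProduct_smul, heωs, heω₁, smul_zero, add_zero]
  · rw [hsR]
    ext w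
    rw [Finset.mem_coe, mem_support_lead, ← Finset.mem_coe, hFf]
    simp only [mem_insert_iff, mem_singleton_iff]
    have hmem : ∀ b ∈ (lead ωs (P * Q)).coeff.support, b = x ∨ b = x + e ∨ b = x + f ∨
        b = x + e + f := by
      intro b hb
      rw [← Finset.mem_coe, hFf] at hb
      exact hb
    constructor
    · rintro ⟨h1, h2⟩
      have h3 := h2 (x + f) hxfF
      rcases h1 with rfl | rfl | rfl | rfl
      · rw [add_dotProduct] at h3; linarith
      · rw [add_dotProduct, add_dotProduct, heω₁] at h3; linarith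
      · exact Or.inl rfl
      · right; abel
    · intro h1
      refine ⟨?_, ?_⟩
      · rcases h1 with rfl | rfl
        · exact Or.inr (Or.inr (Or.inl rfl))
        · exact Or.inr (Or.inr (Or.inr (by abel)))
      · intro b hb
        have h4 : w ⬝ᵥ ω₁ = x ⬝ᵥ ω₁ + f ⬝ᵥ ω₁ := by
          rcases h1 with rfl | rfl
          · rw [add_dotProduct]
          · rw [add_dotProduct, add_dotProduct, heω₁]; ring
        rw [h4]
        rcases hmem b hb with rfl | rfl | rfl | rfl
        · linarith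
        · rw [add_dotProduct, heω₁]; linarith
        · rw [add_dotProduct]
        · rw [add_dotProduct, add_dotProduct, heω₁]; linarith
  · rw [hsP]; exact hth1
  · rw [hsQ]; exact hth2
  · rw [add_dotProduct]; linarith
  · rw [hmulF] at hth
    have hxefF : x + e + f ∈ (lead ωs (P * Q)).coeff.support := by
      rw [← Finset.mem_coe, hFf]; simp
    rw [coeff_lead _ _ hxF, coeff_lead _ _ hxeF, coeff_lead _ _ hxfF, coeff_lead _ _ hxefF] at hth
    have h1 : x + f + e = x + e + f := by abel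
    rw [h1]
    exact hth

/-- Moving a split edge all the way to the `ω₁`-face. -/
theorem move {n : ℕ} {K : Set (Vec n)} {P Q : EA n} (h : FP K P Q) {e x₀ ω₁ : Vec n}
    (he : e ≠ 0) (heω₁ : e ⬝ᵥ ω₁ = 0) (N : ℕ) :
    ∀ (x ω : Vec n), e ⬝ᵥ ω = 0 → ((lead ω (P * Q)).coeff.support : Set (Vec n)) = {x, x + e} →
    ¬ Mono (lead ω P) → ¬ Mono (lead ω Q) →
    (P * Q).coeff x * (P * Q).coeff (x₀ + e) = (P * Q).coeff (x + e) * (P * Q).coeff x₀ →
    ((P * Q).coeff.support.filter fun v => x ⬝ᵥ ω₁ < v ⬝ᵥ ω₁).card ≤ N →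
    ∃ x' ω' : Vec n, e ⬝ᵥ ω' = 0 ∧
      ((lead ω' (P * Q)).coeff.support : Set (Vec n)) = {x', x' + e} ∧
      (∀ v ∈ (P * Q).coeff.support, v ⬝ᵥ ω₁ ≤ x' ⬝ᵥ ω₁) ∧
      (P * Q).coeff x' * (P * Q).coeff (x₀ + e) = (P * Q).coeff (x' + e) * (P * Q).coeff x₀ := by
  classical
  induction N with
  | zero =>
    intro x ω h1 h2 h3 h4 h5 h6
    refine ⟨x, ω, h1, h2, ?_, h5⟩
    intro v hv
    by_contra hlt
    rw [not_le] at hlt
    have h7 : v ∈ (P * Q).coeff.support.filter fun v => x ⬝ᵥ ω₁ < v ⬝ᵥ ω₁ :=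
      Finset.mem_filter.2 ⟨hv, hlt⟩
    rw [Nat.le_zero, Finset.card_eq_zero] at h6
    rw [h6] at h7
    exact absurd h7 (Finset.notMem_empty _)
  | succ N ih =>
    intro x ω h1 h2 h3 h4 h5 h6
    by_cases hv : ∃ v ∈ (P * Q).coeff.support, x ⬝ᵥ ω₁ < v ⬝ᵥ ω₁
    · obtain ⟨x', ω', k1, k2, k3, k4, k5, k6⟩ := step h he h1 heω₁ h2 h3 h4 hv
      have hxs : x ∈ (P * Q).coeff.support := by
        have : x ∈ (lead ω (P * Q)).coeff.support := by rw [← Finset.mem_coe, h2]; simp
        exact (mem_support_lead.1 this).1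
      have hxs' : x' ∈ (P * Q).coeff.support := by
        have : x' ∈ (lead ω' (P * Q)).coeff.support := by rw [← Finset.mem_coe, k2]; simp
        exact (mem_support_lead.1 this).1
      refine ih x' ω' k1 k2 k3 k4 ?_ ?_
      · have hx0 : (P * Q).coeff x ≠ 0 := Finsupp.mem_support_iff.1 hxs
        apply mul_left_cancel₀ hx0
        calc (P * Q).coeff x * ((P * Q).coeff x' * (P * Q).coeff (x₀ + e))
            = (P * Q).coeff x' * ((P * Q).coeff x * (P * Q).coeff (x₀ + e)) := by ring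
          _ = (P * Q).coeff x' * ((P * Q).coeff (x + e) * (P * Q).coeff x₀) := by rw [h5]
          _ = ((P * Q).coeff (x + e) * (P * Q).coeff x') * (P * Q).coeff x₀ := by ring
          _ = ((P * Q).coeff x * (P * Q).coeff (x' + e)) * (P * Q).coeff x₀ := by rw [k6]
          _ = (P * Q).coeff x * ((P * Q).coeff (x' + e) * (P * Q).coeff x₀) := by ring
      · have hlt : ((P * Q).coeff.support.filter fun v => x' ⬝ᵥ ω₁ < v ⬝ᵥ ω₁).card <
            ((P * Q).coeff.support.filter fun v => x ⬝ᵥ ω₁ < v ⬝ᵥ ω₁).card := by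
          apply Finset.card_lt_card
          rw [Finset.ssubset_iff_of_subset]
          · refine ⟨x', Finset.mem_filter.2 ⟨hxs', k5⟩, ?_⟩
            intro h7
            exact lt_irrefl _ (Finset.mem_filter.1 h7).2
          · intro w hw
            obtain ⟨h7, h8⟩ := Finset.mem_filter.1 hw
            exact Finset.mem_filter.2 ⟨h7, k5.trans h8⟩
        omega
    · push Not at hv
      exact ⟨x, ω, h1, h2, hv, h5⟩

theorem prism {n : ℕ} (_hn : 2 ≤ n) {K : Set (Vec n)} {P Q : EA n} (h : FP K P Q) {ω : Vec n}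
    (hω : Module.finrank ℝ (vs (lead ω (P * Q))) = 1) (hP : ¬ Mono (lead ω P))
    (hQ : ¬ Mono (lead ω Q)) :
    ∃ (e : Vec n) (A : Set (Vec n)), e ≠ 0 ∧ Convex ℝ A ∧ IsCompact A ∧
      K = A + segment ℝ 0 e ∧ ∀ a ∈ A, ∀ a' ∈ A, a - a' ∈ Submodule.span ℝ {e} → a = a' := by
  classical
  obtain ⟨C, hT⟩ := h.tr
  have hR : P * Q ≠ 0 := tr_ne_zero' h.body hT
  have hext := support_tr h.body hT
  -- two points of the edge
  have hns : ¬ ((lead ω (P * Q)).coeff.support : Set (Vec n)).Subsingleton := by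
    intro hss
    rw [vs, vectorSpan_of_subsingleton ℝ hss, finrank_bot] at hω
    exact zero_ne_one hω
  rw [Set.not_subsingleton_iff] at hns
  obtain ⟨x₀, hx₀, x₁, hx₁, hne⟩ := hns
  set e := x₁ - x₀ with hedef
  have he : e ≠ 0 := sub_ne_zero.2 (Ne.symm hne)
  have hx₁e : x₁ = x₀ + e := by rw [hedef]; abel
  have hdot : ∀ w ∈ (lead ω (P * Q)).coeff.support, w ⬝ᵥ ω = x₀ ⬝ᵥ ω := by
    intro w hw
    exact le_antisymm ((mem_support_lead.1 hx₀).2 w (mem_support_lead.1 hw).1)
      ((mem_support_lead.1 hw).2 x₀ (mem_support_lead.1 hx₀).1)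
  have heω : e ⬝ᵥ ω = 0 := by
    rw [hedef, sub_dotProduct, hdot x₁ hx₁, sub_self]
  have hmemvs : e ∈ vs (lead ω (P * Q)) := vsub_mem_vectorSpan ℝ hx₁ hx₀
  have hvs : vs (lead ω (P * Q)) = Submodule.span ℝ {e} := by
    symm
    apply Submodule.eq_of_le_of_finrank_eq
    · rw [Submodule.span_singleton_le_iff_mem]; exact hmemvs
    · rw [hω, finrank_span_singleton he]
  have hs : ((lead ω (P * Q)).coeff.support : Set (Vec n)) = {x₀, x₀ + e} := by
    apply Subset.antisymm
    · intro w hw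
      have h1 : w - x₀ ∈ Submodule.span ℝ {e} := hvs ▸ vsub_mem_vectorSpan ℝ hw hx₀
      rw [Submodule.mem_span_singleton] at h1
      obtain ⟨t, ht⟩ := h1
      have hw' : w = x₀ + t • e := by rw [ht]; abel
      have ew : w ∈ K.extremePoints ℝ := hext ▸ (mem_support_lead.1 hw).1
      have e0 : x₀ ∈ K.extremePoints ℝ := hext ▸ (mem_support_lead.1 hx₀).1
      have e1 : x₁ ∈ K.extremePoints ℝ := hext ▸ (mem_support_lead.1 hx₁).1
      by_cases ht0 : t = 0
      · left; rw [hw', ht0, zero_smul, add_zero]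
      by_cases ht1 : t = 1
      · right; rw [mem_singleton_iff, hw', ht1, one_smul]
      exfalso
      rcases lt_or_gt_of_ne ht0 with h2 | h2
      · -- x₀ between w and x₁
        have h3 := e0.2 (x₁ := w) ew.1 (x₂ := x₁) e1.1
          ⟨1 / (1 - t), -t / (1 - t), by apply div_pos <;> linarith, by apply div_pos <;> linarith,
            by have : 1 - t ≠ 0 := by linarith
               field_simp; ring, by
            have h4 : 1 - t ≠ 0 := by linarith
            rw [hw', hx₁e]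
            have h5 : (1 / (1 - t)) • (x₀ + t • e) + (-t / (1 - t)) • (x₀ + e) =
              ((1 - t) / (1 - t)) • x₀ + ((t + -t) / (1 - t)) • e := by module
            rw [h5, div_self h4]; simp⟩
        rw [h3] at hw'
        have h4 : t • e = 0 := by simpa using hw'
        rcases smul_eq_zero.1 h4 with h5 | h5
        · exact ht0 h5
        · exact he h5
      · rcases lt_or_gt_of_ne ht1 with h3 | h3
        · have h4 := ew.2 (x₁ := x₀) e0.1 (x₂ := x₁) e1.1
            ⟨1 - t, t, by linarith, h2, by ring, by rw [hw', hx₁e]; module⟩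
          rw [← h4] at hw'
          have h5 : t • e = 0 := by simpa using hw'
          rcases smul_eq_zero.1 h5 with h6 | h6
          · exact ht0 h6
          · exact he h6
        · have h4 := e1.2 (x₁ := x₀) e0.1 (x₂ := w) ew.1
            ⟨(t - 1) / t, 1 / t, by apply div_pos <;> linarith, by apply div_pos <;> linarith,
              by field_simp; ring, by
              have h5 : ((t - 1) / t) • x₀ + (1 / t) • (x₀ + t • e) =
                (t / t) • x₀ + (t / t) • e := by module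
              rw [hw', hx₁e, h5, div_self h2.ne']; simp⟩
          exact hne h4
    · rintro w (rfl | rfl)
      · exact hx₀
      · rw [← hx₁e]; exact hx₁
  have hc0 : (P * Q).coeff x₀ ≠ 0 := Finsupp.mem_support_iff.1 (mem_support_lead.1 hx₀).1
  have hc1 : (P * Q).coeff (x₀ + e) ≠ 0 := by
    rw [← hx₁e]; exact Finsupp.mem_support_iff.1 (mem_support_lead.1 hx₁).1
  obtain ⟨A, hA1, hA2, hA3, hA4⟩ := prism_of_uniform h.body hT he hc0 hc1 (by
    intro ω₁ heω₁ hsep
    obtain ⟨x', ω', k1, k2, k3, k4⟩ := move h (x₀ := x₀) he heω₁ _ x₀ ω heω hs hP hQ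
      (mul_comm _ _) le_rfl
    refine ⟨x', ?_, k4⟩
    have hx' : x' ∈ (lead ω' (P * Q)).coeff.support := by rw [← Finset.mem_coe, k2]; simp
    have hxe' : x' + e ∈ (lead ω' (P * Q)).coeff.support := by rw [← Finset.mem_coe, k2]; simp
    ext w
    rw [Finset.mem_coe, mem_support_lead]
    constructor
    · rintro ⟨h1, h2⟩
      have h3 : w ⬝ᵥ ω₁ = x' ⬝ᵥ ω₁ := le_antisymm (k3 w h1) (h2 x' (mem_support_lead.1 hx').1)
      have h4 := hsep w h1 x' (mem_support_lead.1 hx').1 h3
      rw [Submodule.mem_span_singleton] at h4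
      obtain ⟨t, ht⟩ := h4
      have hw' : w = x' + t • e := by rw [ht]; abel
      have h5 : w ∈ (lead ω' (P * Q)).coeff.support := by
        rw [mem_support_lead]
        refine ⟨h1, fun b hb => ?_⟩
        have h6 : w ⬝ᵥ ω' = x' ⬝ᵥ ω' := by
          rw [hw', add_dotProduct, smul_dotProduct, k1, smul_zero, add_zero]
        rw [h6]
        exact (mem_support_lead.1 hx').2 b hb
      rw [← Finset.mem_coe, k2] at h5
      exact h5
    · rintro (rfl | rfl)
      · exact ⟨(mem_support_lead.1 hx').1, k3⟩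
      · refine ⟨(mem_support_lead.1 hxe').1, fun b hb => ?_⟩
        rw [add_dotProduct, heω₁, add_zero]
        exact k3 b hb)
  exact ⟨e, A, he, hA1, hA2, hA3, hA4⟩

end Pool.Agent.Covg
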