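import Pool.Agent.Work.MP_177351_gt.Alg

/-!
# Prism lemma, part A: auxiliary facts on leading parts
-/

set_option autoImplicit false

open MeasureTheory MvPolynomial Set Filter Topology
open scoped Pointwise Matrix

namespace Pool.Agent.Covg

/-- If `ω` is constant on the support, then `lead ω P = P`. -/
theorem lead_of_const {n : ℕ} {ω : Vec n} {P : EA n}
    (h : ∀ a ∈ P.coeff.support, ∀ b ∈ P.coeff.support, a ⬝ᵥ ω = b ⬝ᵥ ω) : lead ω P = P := by
  classical
  apply AddMonoidAlgebra.coeff_injective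
  ext a : 1
  by_cases ha : a ∈ P.coeff.support
  · exact coeff_lead _ _ (mem_support_lead.2 ⟨ha, fun b hb => (h b hb a ha).le⟩)
  · rw [Finsupp.notMem_support_iff.1 ha, Finsupp.notMem_support_iff.1]
    exact fun h' => ha (mem_support_lead.1 h').1

theorem eq_of_support_eq_lead {n : ℕ} {ω ω' : Vec n} {P : EA n}
    (h : (lead ω P).coeff.support = (lead ω' P).coeff.support) : lead ω P = lead ω' P := by
  classical
  apply AddMonoidAlgebra.coeff_injective
  ext a : 1
  by_cases ha : a ∈ (lead ω P).coeff.support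
  · rw [coeff_lead _ _ ha, coeff_lead _ _ (h ▸ ha)]
  · rw [Finsupp.notMem_support_iff.1 ha, Finsupp.notMem_support_iff.1 (h ▸ ha)]

/-- A face of a product determines the faces of the factors. -/
theorem lead_sub {n : ℕ} {ω ω' : Vec n} {P Q : EA n} (hP : P ≠ 0) (hQ : Q ≠ 0)
    (h : (lead ω (P * Q)).coeff.support ⊆ (lead ω' (P * Q)).coeff.support) :
    (lead ω P).coeff.support ⊆ (lead ω' P).coeff.support := by
  classical
  intro a ha
  obtain ⟨b, hb⟩ := ne_zero_iff_support.1 (lead_ne_zero ω hQ)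
  have h1 : a + b ∈ Nw (lead ω (P * Q)) := by
    rw [lead_mul, Nw_mul (lead_ne_zero ω hP) (lead_ne_zero ω hQ)]
    exact add_mem_add (subset_Nw _ ha) (subset_Nw _ hb)
  have h2 : a + b ∈ Nw (lead ω' (P * Q)) := convexHull_mono (Finset.coe_subset.2 h) h1
  rw [Nw_lead] at h2
  rw [mem_support_lead] at ha hb ⊢
  refine ⟨ha.1, fun a' ha' => ?_⟩
  have h3 := h2.2 (a' + b) (by
    rw [Nw_mul hP hQ]
    exact add_mem_add (subset_Nw _ ha') (subset_Nw _ hb.1))
  rw [add_dotProduct, add_dotProduct] at h3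
  linarith

theorem lead_lead_of_sub {n : ℕ} {ω ω' : Vec n} {P : EA n}
    (h : (lead ω P).coeff.support ⊆ (lead ω' P).coeff.support) :
    lead ω (lead ω' P) = lead ω P := by
  classical
  by_cases hP : P = 0
  · rw [hP, lead_zero, lead_zero]
  have hs : (lead ω (lead ω' P)).coeff.support = (lead ω P).coeff.support := by
    ext a
    constructor
    · intro ha
      have ha1 := mem_support_lead.1 ha
      obtain ⟨b, hb⟩ := ne_zero_iff_support.1 (lead_ne_zero ω hP)
      have h3 := ha1.2 b (h hb)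
      rw [mem_support_lead]
      refine ⟨(mem_support_lead.1 ha1.1).1, fun c hc => ?_⟩
      exact ((mem_support_lead.1 hb).2 c hc).trans h3
    · intro ha
      rw [mem_support_lead]
      exact ⟨h ha, fun c hc => (mem_support_lead.1 ha).2 c (mem_support_lead.1 hc).1⟩
  apply AddMonoidAlgebra.coeff_injective
  ext a : 1
  by_cases ha : a ∈ (lead ω (lead ω' P)).coeff.support
  · rw [coeff_lead _ _ ha, coeff_lead _ _ (mem_support_lead.1 ha).1, coeff_lead _ _ (hs ▸ ha)]
  · rw [Finsupp.notMem_support_iff.1 ha, Finsupp.notMem_support_iff.1 (hs ▸ ha)]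

/-- A generic functional vanishing at `e`. -/
theorem exists_generic {n : ℕ} {e : Vec n} (he : e ≠ 0) (Y : Finset (Vec n))
    (hY : ∀ y ∈ Y, y ∉ Submodule.span ℝ {e}) :
    ∃ g : Vec n, e ⬝ᵥ g = 0 ∧ ∀ y ∈ Y, y ⬝ᵥ g ≠ 0 := by
  have hee : e ⬝ᵥ e ≠ 0 := by
    rw [Ne, dotProduct_self_eq_zero]; exact he
  let p : Submodule ℝ (Vec n) :=
    { carrier := {g | e ⬝ᵥ g = 0}
      add_mem' := fun {a b} ha hb => by
        simp only [Set.mem_setOf_eq] at *
        rw [dotProduct_add, ha, hb, add_zero]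
      zero_mem' := by simp
      smul_mem' := fun c a ha => by
        simp only [Set.mem_setOf_eq] at *
        rw [dotProduct_smul, ha, smul_zero] }
  let f : Y → Module.Dual ℝ (Vec n) := fun y =>
    { toFun := fun g => (y : Vec n) ⬝ᵥ g
      map_add' := fun a b => dotProduct_add _ _ _
      map_smul' := fun c a => by simp }
  obtain ⟨g, hg, hg'⟩ := Module.Dual.exists_forall_mem_ne_zero_of_forall_exists p f (by
    rintro ⟨y, hy⟩
    refine ⟨y - ((y ⬝ᵥ e) / (e ⬝ᵥ e)) • e, ?_, ?_⟩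
    · change e ⬝ᵥ (y - ((y ⬝ᵥ e) / (e ⬝ᵥ e)) • e) = 0
      rw [dotProduct_sub, dotProduct_smul, smul_eq_mul, div_mul_cancel₀ _ hee,
        dotProduct_comm e y, sub_self]
    · change y ⬝ᵥ (y - ((y ⬝ᵥ e) / (e ⬝ᵥ e)) • e) ≠ 0
      set w := y - ((y ⬝ᵥ e) / (e ⬝ᵥ e)) • e with hw
      have h1 : e ⬝ᵥ w = 0 := by
        rw [hw, dotProduct_sub, dotProduct_smul, smul_eq_mul, div_mul_cancel₀ _ hee,
          dotProduct_comm e y, sub_self]
      have h2 : y = w + ((y ⬝ᵥ e) / (e ⬝ᵥ e)) • e := by rw [hw]; abel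
      have h3 : y ⬝ᵥ w = w ⬝ᵥ w := by
        conv_lhs => rw [h2]
        rw [add_dotProduct, smul_dotProduct, h1, smul_zero, add_zero]
      rw [h3, Ne, dotProduct_self_eq_zero]
      intro h4
      apply hY y hy
      rw [h2, h4, zero_add]
      exact Submodule.smul_mem _ _ (Submodule.mem_span_singleton_self e))
  exact ⟨g, hg, fun y hy => hg' ⟨y, hy⟩⟩

/-- Nonvanishing on a finite set is stable under large multiples. -/
theorem eventually_ne {n : ℕ} {ω g : Vec n} (Y : Finset (Vec n))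
    (hY : ∀ y ∈ Y, y ⬝ᵥ ω = 0 → y ⬝ᵥ g ≠ 0) :
    ∀ᶠ s : ℝ in atTop, ∀ y ∈ Y, y ⬝ᵥ (s • ω + g) ≠ 0 := by
  rw [eventually_all_finset]
  intro y hy
  by_cases h : y ⬝ᵥ ω = 0
  · refine Eventually.of_forall fun s => ?_
    rw [dotProduct_add, dotProduct_smul, h, smul_zero, zero_add]
    exact hY y hy h
  · filter_upwards [eventually_gt_atTop (|y ⬝ᵥ g| / |y ⬝ᵥ ω|)] with s hs
    rw [dotProduct_add, dotProduct_smul, smul_eq_mul]
    intro h0
    have hpos : 0 < |y ⬝ᵥ ω| := abs_pos.2 h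
    rw [div_lt_iff₀ hpos] at hs
    have h1 : s * (y ⬝ᵥ ω) = -(y ⬝ᵥ g) := by linarith
    have h2 : |s| * |y ⬝ᵥ ω| = |y ⬝ᵥ g| := by rw [← abs_mul, h1, abs_neg]
    have h3 : s * |y ⬝ᵥ ω| ≤ |s| * |y ⬝ᵥ ω| := mul_le_mul_of_nonneg_right (le_abs_self s) hpos.le
    linarith

end Pool.Agent.Covg
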