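import Pool.Agent.Work.MP_177351_gt.PrismA

/-!
# Prism lemma, part B: turning the edge and parallelograms
-/

set_option autoImplicit false

open MeasureTheory MvPolynomial Set Filter Topology
open scoped Pointwise Matrix

namespace Pool.Agent.Covg

/-- Perturbation of the functional of an edge. -/
theorem perturb {n : ℕ} {P Q : EA n} (hP : P ≠ 0) (hQ : Q ≠ 0) {e x ω : Vec n} (he : e ≠ 0)
    (heω : e ⬝ᵥ ω = 0) (hs : ((lead ω (P * Q)).coeff.support : Set (Vec n)) = {x, x + e})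
    (Y : Finset (Vec n)) (hY : ∀ y ∈ Y, y ∉ Submodule.span ℝ {e}) :
    ∃ ω₂ : Vec n, e ⬝ᵥ ω₂ = 0 ∧ lead ω₂ (P * Q) = lead ω (P * Q) ∧ lead ω₂ P = lead ω P ∧
      lead ω₂ Q = lead ω Q ∧ ∀ y ∈ Y, y ⬝ᵥ ω₂ ≠ 0 := by
  classical
  obtain ⟨g, hg, hgY⟩ := exists_generic he Y hY
  obtain ⟨s₀, hs₀⟩ := lead_lead ω g (P * Q)
  obtain ⟨s, hs1, hs2⟩ := ((eventually_ge_atTop s₀).and
    (eventually_ne (ω := ω) (g := g) Y fun y hy _ => hgY y hy)).exists
  have h1 : lead (s • ω + g) (P * Q) = lead ω (P * Q) := by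
    rw [hs₀ s hs1]
    apply lead_of_const
    intro a ha b hb
    have ha' : a ∈ ({x, x + e} : Set (Vec n)) := hs ▸ ha
    have hb' : b ∈ ({x, x + e} : Set (Vec n)) := hs ▸ hb
    rcases ha' with rfl | rfl <;> rcases hb' with rfl | rfl <;> simp [add_dotProduct, hg]
  have h2 : ∀ A B : EA n, A ≠ 0 → B ≠ 0 → lead (s • ω + g) (A * B) = lead ω (A * B) →
      lead (s • ω + g) A = lead ω A := by
    intro A B hA hB hAB
    apply eq_of_support_eq_lead
    apply Finset.Subset.antisymm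
    · exact lead_sub hA hB (by rw [hAB])
    · exact lead_sub hA hB (by rw [hAB])
  refine ⟨s • ω + g, ?_, h1, h2 P Q hP hQ h1, h2 Q P hQ hP (by rw [mul_comm Q P]; exact h1), hs2⟩
  rw [dotProduct_add, dotProduct_smul, heω, hg, smul_zero, add_zero]

/-- Turning the functional of an edge until a new vertex appears. -/
theorem star {n : ℕ} {S : Finset (Vec n)} {x e ω₂ ω₁ : Vec n}
    (hface : ∀ w ∈ S, w ⬝ᵥ ω₂ ≤ x ⬝ᵥ ω₂)
    (hface' : ∀ w ∈ S, w ⬝ᵥ ω₂ = x ⬝ᵥ ω₂ → w = x ∨ w = x + e) (he : e ⬝ᵥ ω₁ = 0)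
    (hv : ∃ v ∈ S, x ⬝ᵥ ω₁ < v ⬝ᵥ ω₁)
    (hgen : ∀ v ∈ S, ∀ v' ∈ S, x ⬝ᵥ ω₁ < v ⬝ᵥ ω₁ → x ⬝ᵥ ω₁ < v' ⬝ᵥ ω₁ →
      (((v - x) ⬝ᵥ ω₁)⁻¹ • (v - x) - ((v' - x) ⬝ᵥ ω₁)⁻¹ • (v' - x)) ⬝ᵥ ω₂ = 0 →
      ((v - x) ⬝ᵥ ω₁)⁻¹ • (v - x) - ((v' - x) ⬝ᵥ ω₁)⁻¹ • (v' - x) ∈ Submodule.span ℝ {e}) :
    ∃ t : ℝ, 0 < t ∧ ∃ v ∈ S, x ⬝ᵥ ω₁ < v ⬝ᵥ ω₁ ∧
      (∀ w ∈ S, w ⬝ᵥ (ω₂ + t • ω₁) ≤ x ⬝ᵥ (ω₂ + t • ω₁)) ∧
      v ⬝ᵥ (ω₂ + t • ω₁) = x ⬝ᵥ (ω₂ + t • ω₁) ∧
      ∀ w ∈ S, w ⬝ᵥ (ω₂ + t • ω₁) = x ⬝ᵥ (ω₂ + t • ω₁) → w = x ∨ w = x + e ∨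
        (x ⬝ᵥ ω₁ < w ⬝ᵥ ω₁ ∧ w - x ∈ Submodule.span ℝ {e, v - x}) := by
  classical
  let r : Vec n → ℝ := fun v => (x ⬝ᵥ ω₂ - v ⬝ᵥ ω₂) / (v ⬝ᵥ ω₁ - x ⬝ᵥ ω₁)
  let T := S.filter fun v => x ⬝ᵥ ω₁ < v ⬝ᵥ ω₁
  have hT : T.Nonempty := by
    obtain ⟨v, hv1, hv2⟩ := hv
    exact ⟨v, Finset.mem_filter.2 ⟨hv1, hv2⟩⟩
  obtain ⟨v, hvT, hmin⟩ := T.exists_min_image r hT
  obtain ⟨hvS, hvx⟩ := Finset.mem_filter.1 hvT
  have hpos : ∀ w ∈ S, x ⬝ᵥ ω₁ < w ⬝ᵥ ω₁ → 0 < r w := by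
    intro w hw hwx
    apply div_pos _ (sub_pos.2 hwx)
    rw [sub_pos]
    apply lt_of_le_of_ne (hface w hw)
    intro h0
    rcases hface' w hw h0 with rfl | rfl
    · exact lt_irrefl _ hwx
    · rw [add_dotProduct, he, add_zero] at hwx
      exact lt_irrefl _ hwx
  have key : ∀ w, w ⬝ᵥ (ω₂ + r v • ω₁) - x ⬝ᵥ (ω₂ + r v • ω₁) =
      (w ⬝ᵥ ω₂ - x ⬝ᵥ ω₂) + r v * (w ⬝ᵥ ω₁ - x ⬝ᵥ ω₁) := by
    intro w
    rw [dotProduct_add, dotProduct_add, dotProduct_smul, dotProduct_smul, smul_eq_mul,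
      smul_eq_mul]
    ring
  have key2 : ∀ w, x ⬝ᵥ ω₁ < w ⬝ᵥ ω₁ → w ⬝ᵥ (ω₂ + r v • ω₁) - x ⬝ᵥ (ω₂ + r v • ω₁) =
      (r v - r w) * (w ⬝ᵥ ω₁ - x ⬝ᵥ ω₁) := by
    intro w hw
    rw [key w]
    have h1 : w ⬝ᵥ ω₁ - x ⬝ᵥ ω₁ ≠ 0 := (sub_pos.2 hw).ne'
    have h2 : r w * (w ⬝ᵥ ω₁ - x ⬝ᵥ ω₁) = x ⬝ᵥ ω₂ - w ⬝ᵥ ω₂ := div_mul_cancel₀ _ h1
    linarith
  refine ⟨r v, hpos v hvS hvx, v, hvS, hvx, ?_, ?_, ?_⟩
  · intro w hw
    rw [← sub_nonpos]
    by_cases hwx : x ⬝ᵥ ω₁ < w ⬝ᵥ ω₁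
    · rw [key2 w hwx]
      apply mul_nonpos_of_nonpos_of_nonneg
      · exact sub_nonpos.2 (hmin w (Finset.mem_filter.2 ⟨hw, hwx⟩))
      · exact (sub_pos.2 hwx).le
    · rw [key w]
      have h1 := hface w hw
      have h2 : r v * (w ⬝ᵥ ω₁ - x ⬝ᵥ ω₁) ≤ 0 :=
        mul_nonpos_of_nonneg_of_nonpos (hpos v hvS hvx).le (by linarith)
      linarith
  · rw [← sub_eq_zero, key2 v hvx, sub_self, zero_mul]
  · intro w hw hwe
    by_cases hwx : x ⬝ᵥ ω₁ < w ⬝ᵥ ω₁
    · right; right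
      refine ⟨hwx, ?_⟩
      rw [← sub_eq_zero, key2 w hwx, mul_eq_zero] at hwe
      have hrw : r w = r v := by
        rcases hwe with h | h
        · linarith
        · exact absurd h (sub_pos.2 hwx).ne'
      have h3 := hgen w hw v hvS hwx hvx (by
        rw [sub_dotProduct, smul_dotProduct, smul_dotProduct, sub_dotProduct, sub_dotProduct,
          sub_dotProduct, sub_dotProduct, smul_eq_mul, smul_eq_mul]
        have h4 : (w ⬝ᵥ ω₁ - x ⬝ᵥ ω₁)⁻¹ * (w ⬝ᵥ ω₂ - x ⬝ᵥ ω₂) = -r w := by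
          simp only [r]; rw [div_eq_inv_mul]; ring
        have h5 : (v ⬝ᵥ ω₁ - x ⬝ᵥ ω₁)⁻¹ * (v ⬝ᵥ ω₂ - x ⬝ᵥ ω₂) = -r v := by
          simp only [r]; rw [div_eq_inv_mul]; ring
        rw [h4, h5, hrw, sub_self])
      rw [Submodule.mem_span_singleton] at h3
      obtain ⟨c, hc⟩ := h3
      have hwp : (w - x) ⬝ᵥ ω₁ ≠ 0 := by
        rw [sub_dotProduct]; exact (sub_pos.2 hwx).ne'
      rw [Submodule.mem_span_pair]
      refine ⟨(w - x) ⬝ᵥ ω₁ * c, (w - x) ⬝ᵥ ω₁ * ((v - x) ⬝ᵥ ω₁)⁻¹, ?_⟩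
      have h6 : ((w - x) ⬝ᵥ ω₁)⁻¹ • (w - x) = c • e + ((v - x) ⬝ᵥ ω₁)⁻¹ • (v - x) := by
        rw [hc]; abel
      have h7 : w - x = ((w - x) ⬝ᵥ ω₁) • (c • e + ((v - x) ⬝ᵥ ω₁)⁻¹ • (v - x)) := by
        rw [← h6, smul_smul, mul_inv_cancel₀ hwp, one_smul]
      conv_rhs => rw [h7]
      rw [smul_add, smul_smul, smul_smul]
    · rw [← sub_eq_zero, key w] at hwe
      have h1 := hface w hw
      have h2 : r v * (w ⬝ᵥ ω₁ - x ⬝ᵥ ω₁) ≤ 0 :=
        mul_nonpos_of_nonneg_of_nonpos (hpos v hvS hvx).le (by linarith)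
      rcases hface' w hw (by linarith) with h | h
      · exact Or.inl h
      · exact Or.inr (Or.inl h)

/-- Dual functionals. -/
theorem exists_dual {n : ℕ} {d d' : Vec n} (h : LinearIndependent ℝ ![d, d']) (α β : ℝ) :
    ∃ a : Vec n, d ⬝ᵥ a = α ∧ d' ⬝ᵥ a = β := by
  have hne : ∀ s : ℝ × ℝ, s.1 • d + s.2 • d' = 0 → s.1 = 0 ∧ s.2 = 0 := by
    intro s hs
    exact LinearIndependent.pair_iff.1 h s.1 s.2 hs
  -- the map a ↦ (d ⬝ a, d' ⬝ a) is surjective
  let L : Vec n →ₗ[ℝ] ℝ × ℝ :=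
    { toFun := fun a => (d ⬝ᵥ a, d' ⬝ᵥ a)
      map_add' := fun a b => by simp [dotProduct_add]
      map_smul' := fun c a => by simp }
  have hsurj : LinearMap.range L = ⊤ := by
    by_contra hr
    obtain ⟨f, hf, hf0⟩ := Submodule.exists_le_ker_of_lt_top _ (lt_top_iff_ne_top.2 hr)
    apply hf
    have h1 : ∀ a : Vec n, f (1, 0) * (d ⬝ᵥ a) + f (0, 1) * (d' ⬝ᵥ a) = 0 := by
      intro a
      have h2 : f (L a) = 0 := hf0 (LinearMap.mem_range_self L a)
      have h3 : L a = (d ⬝ᵥ a) • ((1, 0) : ℝ × ℝ) + (d' ⬝ᵥ a) • ((0, 1) : ℝ × ℝ) := by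
        simp [L]
      rw [h3, map_add, map_smul, map_smul, smul_eq_mul, smul_eq_mul] at h2
      linarith
    have h4 : f (1, 0) • d + f (0, 1) • d' = 0 := by
      rw [← dotProduct_self_eq_zero, add_dotProduct, smul_dotProduct, smul_dotProduct,
        smul_eq_mul, smul_eq_mul]
      exact h1 _
    obtain ⟨h5, h6⟩ := hne (f (1, 0), f (0, 1)) h4
    refine LinearMap.ext fun s => ?_
    have h7 : s = s.1 • ((1, 0) : ℝ × ℝ) + s.2 • ((0, 1) : ℝ × ℝ) := by simp
    rw [h7, map_add, map_smul, map_smul]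
    simp only at h5 h6
    rw [h5, h6]
    simp
  obtain ⟨a, ha⟩ := LinearMap.range_eq_top.1 hsurj (α, β)
  have ha' : (d ⬝ᵥ a, d' ⬝ᵥ a) = (α, β) := ha
  exact ⟨a, (Prod.mk.inj ha').1, (Prod.mk.inj ha').2⟩

/-- Corners of a parallelogram. -/
theorem corners {n : ℕ} {F : Finset (Vec n)} {u d d' : Vec n}
    (hd : LinearIndependent ℝ ![d, d'])
    (hF : convexHull ℝ (F : Set (Vec n)) =
      {x | ∃ s ∈ Icc (0 : ℝ) 1, ∃ r ∈ Icc (0 : ℝ) 1, x = u + s • d + r • d'})
    (hext : ∀ w ∈ F, w ∈ (convexHull ℝ (F : Set (Vec n))).extremePoints ℝ) :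
    (F : Set (Vec n)) = {u, u + d, u + d', u + d + d'} := by
  classical
  apply Subset.antisymm
  · intro w hw
    have h1 := hext w hw
    rw [hF] at h1
    obtain ⟨⟨s, hs, r, hr, hwe⟩, h2⟩ := h1
    -- `s` is 0 or 1
    have hs' : s = 0 ∨ s = 1 := by
      by_contra hne
      push Not at hne
      have hs0 : 0 < s := lt_of_le_of_ne hs.1 (Ne.symm hne.1)
      have hs1 : s < 1 := lt_of_le_of_ne hs.2 hne.2
      have h3 := h2 (x₁ := u + (0 : ℝ) • d + r • d') ⟨0, ⟨le_rfl, zero_le_one⟩, r, hr, rfl⟩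
        (x₂ := u + (1 : ℝ) • d + r • d') ⟨1, ⟨zero_le_one, le_rfl⟩, r, hr, rfl⟩
        ⟨1 - s, s, by linarith, hs0, by ring, by rw [hwe]; module⟩
      have h4 : s • d = 0 := by
        have h5 : u + (0 : ℝ) • d + r • d' = u + s • d + r • d' := by rw [← hwe]; exact h3
        have h6 : u + (0 : ℝ) • d + r • d' - (u + r • d') = u + s • d + r • d' - (u + r • d') := by
          rw [h5]
        have h7 : u + (0 : ℝ) • d + r • d' - (u + r • d') = 0 := by module
        have h8 : u + s • d + r • d' - (u + r • d') = s • d := by module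
        rw [← h8, ← h6, h7]
      rcases smul_eq_zero.1 h4 with h5 | h5
      · exact hs0.ne' h5
      · exact hd.ne_zero 0 h5
    have hr' : r = 0 ∨ r = 1 := by
      by_contra hne
      push Not at hne
      have hr0 : 0 < r := lt_of_le_of_ne hr.1 (Ne.symm hne.1)
      have hr1 : r < 1 := lt_of_le_of_ne hr.2 hne.2
      have h3 := h2 (x₁ := u + s • d + (0 : ℝ) • d') ⟨s, hs, 0, ⟨le_rfl, zero_le_one⟩, rfl⟩
        (x₂ := u + s • d + (1 : ℝ) • d') ⟨s, hs, 1, ⟨zero_le_one, le_rfl⟩, rfl⟩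
        ⟨1 - r, r, by linarith, hr0, by ring, by rw [hwe]; module⟩
      have h4 : r • d' = 0 := by
        have h5 : u + s • d + (0 : ℝ) • d' = u + s • d + r • d' := by rw [← hwe]; exact h3
        have h6 : u + s • d + (0 : ℝ) • d' - (u + s • d) = u + s • d + r • d' - (u + s • d) := by
          rw [h5]
        have h7 : u + s • d + (0 : ℝ) • d' - (u + s • d) = 0 := by module
        have h8 : u + s • d + r • d' - (u + s • d) = r • d' := by module
        rw [← h8, ← h6, h7]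
      rcases smul_eq_zero.1 h4 with h5 | h5
      · exact hr0.ne' h5
      · exact hd.ne_zero 1 h5
    rcases hs' with rfl | rfl <;> rcases hr' with rfl | rfl <;> simp [hwe]
  · -- each corner is in `F`
    have hc : ∀ s₀ r₀ : ℝ, (s₀ = 0 ∨ s₀ = 1) → (r₀ = 0 ∨ r₀ = 1) → u + s₀ • d + r₀ • d' ∈ F := by
      intro s₀ r₀ hs₀ hr₀
      by_contra hcF
      obtain ⟨a, ha1, ha2⟩ := exists_dual hd (2 * s₀ - 1) (2 * r₀ - 1)
      set c := u + s₀ • d + r₀ • d' with hcdef
      have hlt : ∀ w ∈ F, w ⬝ᵥ a < c ⬝ᵥ a := by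
        intro w hw
        have hwT : w ∈ convexHull ℝ (F : Set (Vec n)) := subset_convexHull _ _ hw
        rw [hF] at hwT
        obtain ⟨s, hs, r, hr, hwe⟩ := hwT
        have h1 : w ⬝ᵥ a = u ⬝ᵥ a + s * (2 * s₀ - 1) + r * (2 * r₀ - 1) := by
          rw [hwe, add_dotProduct, add_dotProduct, smul_dotProduct, smul_dotProduct, ha1, ha2,
            smul_eq_mul, smul_eq_mul]
        have h2 : c ⬝ᵥ a = u ⬝ᵥ a + s₀ * (2 * s₀ - 1) + r₀ * (2 * r₀ - 1) := by
          rw [hcdef, add_dotProduct, add_dotProduct, smul_dotProduct, smul_dotProduct, ha1, ha2,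
            smul_eq_mul, smul_eq_mul]
        rw [h1, h2]
        have h3 : (s₀ - s) * (2 * s₀ - 1) ≥ 0 := by
          rcases hs₀ with rfl | rfl
          · nlinarith [hs.1]
          · nlinarith [hs.2]
        have h4 : (r₀ - r) * (2 * r₀ - 1) ≥ 0 := by
          rcases hr₀ with rfl | rfl
          · nlinarith [hr.1]
          · nlinarith [hr.2]
        have h5 : ¬ ((s₀ - s) * (2 * s₀ - 1) = 0 ∧ (r₀ - r) * (2 * r₀ - 1) = 0) := by
          rintro ⟨h6, h7⟩
          have h8 : s = s₀ := by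
            rcases hs₀ with rfl | rfl
            · nlinarith
            · nlinarith
          have h9 : r = r₀ := by
            rcases hr₀ with rfl | rfl
            · nlinarith
            · nlinarith
          apply hcF
          rw [hcdef, ← h8, ← h9, ← hwe]
          exact hw
        rcases lt_or_eq_of_le h3.le with h6 | h6
        · nlinarith
        · rcases lt_or_eq_of_le h4.le with h7 | h7
          · nlinarith
          · exact absurd ⟨h6.symm, h7.symm⟩ h5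
      have hcT : c ∈ convexHull ℝ (F : Set (Vec n)) := by
        rw [hF]
        refine ⟨s₀, ?_, r₀, ?_, rfl⟩
        · rcases hs₀ with rfl | rfl <;> simp
        · rcases hr₀ with rfl | rfl <;> simp
      have hFne : F.Nonempty := by
        rw [← Finset.coe_nonempty, ← convexHull_nonempty_iff (𝕜 := ℝ)]
        exact ⟨c, hcT⟩
      obtain ⟨w, hw, hmax⟩ := F.exists_max_image (fun w => w ⬝ᵥ a) hFne
      have h1 := dot_le_of_mem_convexHull (c := w ⬝ᵥ a) (fun v hv => hmax v hv) hcT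
      exact absurd (hlt w hw) (not_lt.2 h1)
    rintro w (rfl | rfl | rfl | rfl)
    · have := hc 0 0 (Or.inl rfl) (Or.inl rfl); simpa using this
    · have := hc 1 0 (Or.inr rfl) (Or.inl rfl); simpa using this
    · have := hc 0 1 (Or.inl rfl) (Or.inr rfl); simpa using this
    · have := hc 1 1 (Or.inr rfl) (Or.inr rfl); simpa using this

/-- In a parallelogram, a pair of corners which is a face is a side. -/
theorem side {n : ℕ} {F : Set (Vec n)} {u d d' x e ω : Vec n}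
    (hd : LinearIndependent ℝ ![d, d']) (hF : F = {u, u + d, u + d', u + d + d'}) (he : e ≠ 0)
    (hx : x ∈ F) (hxe : x + e ∈ F) (heω : e ⬝ᵥ ω = 0) (hle : ∀ w ∈ F, w ⬝ᵥ ω ≤ x ⬝ᵥ ω)
    (hmax : ∀ w ∈ F, w ⬝ᵥ ω = x ⬝ᵥ ω → w = x ∨ w = x + e) :
    ∃ f : Vec n, LinearIndependent ℝ ![e, f] ∧ F = {x, x + e, x + f, x + e + f} := by
  have hd0 : d ≠ 0 := hd.ne_zero 0
  have hd0' : d' ≠ 0 := hd.ne_zero 1
  have hp := LinearIndependent.pair_iff.1 hd
  have hdd : d ≠ d' := fun h => by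
    have := hp 1 (-1) (by rw [h]; module)
    exact one_ne_zero this.1
  have hdd' : d + d' ≠ 0 := fun h => by
    have := hp 1 1 (by rw [one_smul, one_smul]; exact h)
    exact one_ne_zero this.1
  -- linear independence of the four sign variants
  have li : ∀ s r : ℝ, s ≠ 0 → r ≠ 0 → LinearIndependent ℝ ![s • d, r • d'] ∧
      LinearIndependent ℝ ![r • d', s • d] := by
    intro s r hs hr
    constructor
    · rw [LinearIndependent.pair_iff]
      intro a b hab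
      rw [smul_smul, smul_smul] at hab
      obtain ⟨h1, h2⟩ := hp _ _ hab
      exact ⟨(mul_eq_zero.1 h1).resolve_right hs, (mul_eq_zero.1 h2).resolve_right hr⟩
    · rw [LinearIndependent.pair_iff]
      intro a b hab
      rw [smul_smul, smul_smul, add_comm] at hab
      obtain ⟨h1, h2⟩ := hp _ _ hab
      exact ⟨(mul_eq_zero.1 h2).resolve_right hr, (mul_eq_zero.1 h1).resolve_right hs⟩
  have diag : ∀ c c' : Vec n, c ∈ F → c' ∈ F → c + c' = x + (x + e) → c ≠ x → c ≠ x + e → False := by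
    intro c c' hc hc' hcc h1 h2
    have h3 : c ⬝ᵥ ω + c' ⬝ᵥ ω = x ⬝ᵥ ω + x ⬝ᵥ ω := by
      rw [← add_dotProduct, hcc, add_dotProduct, add_dotProduct, heω, add_zero]
    have h4 := hle c hc
    have h5 := hle c' hc'
    rcases hmax c hc (by linarith) with h | h
    · exact h1 h
    · exact h2 h
  have hx' := hx
  have hxe' := hxe
  rw [hF] at hx' hxe'
  simp only [mem_insert_iff, mem_singleton_iff] at hx' hxe'
  rcases hx' with h | h | h | h <;> rcases hxe' with h' | h' | h' | h'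
  · exact absurd (by rw [h] at h'; simpa using h') he
  · -- x = u, x + e = u + d
    have h2 : e = (1 : ℝ) • d := by rw [h] at h'; rw [one_smul]; exact add_left_cancel h'
    refine ⟨(1 : ℝ) • d', ?_, ?_⟩
    · rw [h2]; exact (li 1 1 one_ne_zero one_ne_zero).1
    · rw [hF, h2, h, one_smul, one_smul]
  · have h2 : e = (1 : ℝ) • d' := by rw [h] at h'; rw [one_smul]; exact add_left_cancel h'
    refine ⟨(1 : ℝ) • d, ?_, ?_⟩
    · rw [h2]; exact (li 1 1 one_ne_zero one_ne_zero).2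
    · rw [hF, h2, h, one_smul, one_smul]
      ext w
      simp only [mem_insert_iff, mem_singleton_iff]
      have h3 : u + d' + d = u + d + d' := by abel
      rw [h3]
      tauto
  · exfalso
    refine diag (u + d) (u + d') (by rw [hF]; simp) (by rw [hF]; simp) ?_ ?_ ?_
    · rw [h', h]; abel
    · rw [h]; simpa using hd0
    · rw [h']; simpa using hd0'
  · -- x = u + d, x + e = u
    have h2 : e = (-1 : ℝ) • d := by
      rw [h] at h'
      have : e = u + d + e - (u + d) := by abel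
      rw [this, h']; module
    refine ⟨(1 : ℝ) • d', ?_, ?_⟩
    · rw [h2]; exact (li (-1) 1 (by norm_num) one_ne_zero).1
    · rw [hF, h2, h]
      ext w
      simp only [mem_insert_iff, mem_singleton_iff]
      have h3 : u + d + (-1 : ℝ) • d = u := by module
      have h4 : u + d + (1 : ℝ) • d' = u + d + d' := by module
      have h5 : u + (1 : ℝ) • d' = u + d' := by module
      rw [h3, h4, h5]
      tauto
  · exact absurd (by rw [h] at h'; simpa using h') he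
  · exfalso
    refine diag u (u + d + d') (by rw [hF]; simp) (by rw [hF]; simp) ?_ ?_ ?_
    · rw [h', h]; abel
    · rw [h]; simpa using hd0
    · rw [h']; simpa using hd0'
  · have h2 : e = (1 : ℝ) • d' := by
      rw [h] at h'; rw [one_smul]; exact add_left_cancel h'
    refine ⟨(-1 : ℝ) • d, ?_, ?_⟩
    · rw [h2]; exact (li (-1) 1 (by norm_num) one_ne_zero).2
    · rw [hF, h2, h]
      ext w
      simp only [mem_insert_iff, mem_singleton_iff]
      have h3 : u + d + (-1 : ℝ) • d = u := by module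
      have h4 : u + d + (1 : ℝ) • d' = u + d + d' := by module
      have h5 : u + d + d' + (-1 : ℝ) • d = u + d' := by module
      rw [h3, h4, h5]
      tauto
  · -- x = u + d', x + e = u
    have h2 : e = (-1 : ℝ) • d' := by
      rw [h] at h'
      have : e = u + d' + e - (u + d') := by abel
      rw [this, h']; module
    refine ⟨(1 : ℝ) • d, ?_, ?_⟩
    · rw [h2]; exact (li 1 (-1) one_ne_zero (by norm_num)).2
    · rw [hF, h2, h]
      ext w
      simp only [mem_insert_iff, mem_singleton_iff]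
      have h3 : u + d' + (-1 : ℝ) • d' = u := by module
      have h4 : u + d' + (1 : ℝ) • d = u + d + d' := by module
      have h5 : u + (1 : ℝ) • d = u + d := by module
      rw [h3, h4, h5]
      tauto
  · exfalso
    refine diag u (u + d + d') (by rw [hF]; simp) (by rw [hF]; simp) ?_ ?_ ?_
    · rw [h', h]; abel
    · rw [h]; simpa using hd0'
    · rw [h']; simpa using hd0
  · exact absurd (by rw [h] at h'; simpa using h') he
  · -- x = u + d', x + e = u + d + d'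
    have h2 : e = (1 : ℝ) • d := by
      rw [h] at h'
      have : e = u + d' + e - (u + d') := by abel
      rw [this, h']; module
    refine ⟨(-1 : ℝ) • d', ?_, ?_⟩
    · rw [h2]; exact (li 1 (-1) one_ne_zero (by norm_num)).1
    · rw [hF, h2, h]
      ext w
      simp only [mem_insert_iff, mem_singleton_iff]
      have h3 : u + d' + (-1 : ℝ) • d' = u := by module
      have h4 : u + d' + (1 : ℝ) • d = u + d + d' := by module
      have h5 : u + d + d' + (-1 : ℝ) • d' = u + d := by module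
      rw [h3, h4, h5]
      tauto
  · -- x = u + d + d', x + e = u
    exfalso
    refine diag (u + d) (u + d') (by rw [hF]; simp) (by rw [hF]; simp) ?_ ?_ ?_
    · rw [h', h]; abel
    · rw [h]; simpa using hd0'
    · rw [h']; simpa using hd0
  · -- x = u + d + d', x + e = u + d
    have h2 : e = (-1 : ℝ) • d' := by
      rw [h] at h'
      have : e = u + d + d' + e - (u + d + d') := by abel
      rw [this, h']; module
    refine ⟨(-1 : ℝ) • d, ?_, ?_⟩
    · rw [h2]; exact (li (-1) (-1) (by norm_num) (by norm_num)).2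
    · rw [hF, h2, h]
      ext w
      simp only [mem_insert_iff, mem_singleton_iff]
      have h3 : u + d + d' + (-1 : ℝ) • d' = u + d := by module
      have h4 : u + d + d' + (-1 : ℝ) • d = u + d' := by module
      have h5 : u + d + (-1 : ℝ) • d = u := by module
      rw [h3, h4, h5]
      tauto
  · -- x = u + d + d', x + e = u + d'
    have h2 : e = (-1 : ℝ) • d := by
      rw [h] at h'
      have : e = u + d + d' + e - (u + d + d') := by abel
      rw [this, h']; module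
    refine ⟨(-1 : ℝ) • d', ?_, ?_⟩
    · rw [h2]; exact (li (-1) (-1) (by norm_num) (by norm_num)).1
    · rw [hF, h2, h]
      ext w
      simp only [mem_insert_iff, mem_singleton_iff]
      have h3 : u + d + d' + (-1 : ℝ) • d = u + d' := by module
      have h4 : u + d + d' + (-1 : ℝ) • d' = u + d := by module
      have h5 : u + d' + (-1 : ℝ) • d' = u := by module
      rw [h3, h4, h5]
      tauto
  · exact absurd (by rw [h] at h'; simpa using h') he

end Pool.Agent.Covg
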