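import Pool.Agent.Work.MP_177351_gt.Struct

/-!
# Two joins with the same difference body agree up to translation and reflection
-/

set_option autoImplicit false

open Set Pointwise

namespace Pool.MP_177351_gt

variable {V : Type*} [NormedAddCommGroup V] [NormedSpace ℝ V]

/-- Membership in the difference body. -/
def Diff (K : Set V) (x : V) : Prop := ∃ a ∈ K, ∃ b ∈ K, x = a - b

omit [NormedSpace ℝ V] in
theorem diff_eq (K : Set V) (x : V) : Diff K x ↔ x ∈ K - K := by
  constructor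
  · rintro ⟨a, ha, b, hb, rfl⟩
    exact sub_mem_sub ha hb
  · rintro ⟨a, ha, b, hb, rfl⟩
    exact ⟨a, ha, b, hb, rfl⟩

theorem diff_smul {K : Set V} (hK : Convex ℝ K) {x : V} (hx : Diff K x) {t : ℝ} (h0 : 0 ≤ t)
    (h1 : t ≤ 1) : Diff K (t • x) := by
  obtain ⟨a, ha, b, hb, rfl⟩ := hx
  refine ⟨t • a + (1 - t) • b, hK ha hb h0 (by linarith) (by ring), b, hb, ?_⟩
  module

omit [NormedSpace ℝ V] in
theorem diff_zero {K : Set V} (hK : K.Nonempty) : Diff K 0 := by
  obtain ⟨a, ha⟩ := hK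
  exact ⟨a, ha, a, ha, by simp⟩

theorem diff_mem_span {K : Set V} {x : V} (hx : Diff K x) : x ∈ vectorSpan ℝ K := by
  obtain ⟨a, ha, b, hb, rfl⟩ := hx
  exact vsub_mem_vectorSpan ℝ ha hb

/-- A subspace contained in the union of two subspaces is contained in one of them. -/
theorem le_or_le {p q r : Submodule ℝ V} (h : ∀ v ∈ p, v ∈ q ∨ v ∈ r) : p ≤ q ∨ p ≤ r := by
  by_contra hcon
  rw [not_or] at hcon
  obtain ⟨h1, h2⟩ := hcon
  obtain ⟨v, hv, hvq⟩ := SetLike.not_le_iff_exists.1 h1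
  obtain ⟨w, hw, hwr⟩ := SetLike.not_le_iff_exists.1 h2
  have hvr : v ∈ r := (h v hv).resolve_left hvq
  have hwq : w ∈ q := (h w hw).resolve_right hwr
  rcases h _ (add_mem hv hw) with h3 | h3
  · exact hvq (by simpa using sub_mem h3 hwq)
  · exact hwr (by simpa using sub_mem h3 hvr)

theorem vectorSpan_neg' (A : Set V) : vectorSpan ℝ (-A) = vectorSpan ℝ A := by
  rw [vectorSpan_def, vectorSpan_def]
  have : -A -ᵥ -A = A -ᵥ A := by
    ext x
    constructor
    · rintro ⟨a, ha, b, hb, rfl⟩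
      refine ⟨-b, hb, -a, ha, ?_⟩
      simp only [vsub_eq_sub]
      abel
    · rintro ⟨a, ha, b, hb, rfl⟩
      refine ⟨-b, by simpa using hb, -a, by simpa using ha, ?_⟩
      simp only [vsub_eq_sub]
      abel
  rw [this]

namespace Join

variable {K F G H F' G' : Set V} {l : V →ₗ[ℝ] ℝ} {m m' : ℝ}

theorem diff_one (J : Join K F G l m) {x : V} (hx : Diff K x) (h : l x = 1) :
    ∃ a ∈ F, ∃ b ∈ G, x = a - b := by
  obtain ⟨a, ha, b, hb, rfl⟩ := hx
  rw [map_sub] at h
  have h1 := J.le_height ha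
  have h2 := J.le_height hb
  exact ⟨a, J.mem_F ha (by linarith), b, J.mem_G hb (by linarith), rfl⟩

theorem sub_mem_diff (J : Join K F G l m) {a b : V} (ha : a ∈ F) (hb : b ∈ G) :
    Diff K (a - b) := ⟨a, J.F_sub ha, b, J.G_sub hb, rfl⟩

theorem l_sub (J : Join K F G l m) {a b : V} (ha : a ∈ F) (hb : b ∈ G) : l (a - b) = 1 := by
  rw [map_sub, J.lF a ha, J.lG b hb]; ring

/-- `F - G = F' - G'`. -/
theorem sub_sub (J : Join K F G l m) (J' : Join H F' G' l m') (h : ∀ x, Diff K x → Diff H x)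
    {a b : V} (ha : a ∈ F) (hb : b ∈ G) : ∃ a' ∈ F', ∃ b' ∈ G', a - b = a' - b' :=
  J'.diff_one (h _ (J.sub_mem_diff ha hb)) (J.l_sub ha hb)

/-- `DF + DG = DF' + DG'`. -/
theorem add_diff (J : Join K F G l m) (J' : Join H F' G' l m') (h : ∀ x, Diff K x → Diff H x)
    {u v : V} (hu : Diff F u) (hv : Diff G v) :
    ∃ u' v', Diff F' u' ∧ Diff G' v' ∧ u + v = u' + v' := by
  obtain ⟨a, ha, b, hb, rfl⟩ := hu
  obtain ⟨c, hc, d, hd, rfl⟩ := hv
  obtain ⟨a1, ha1, d1, hd1, e1⟩ := J.sub_sub J' h ha hd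
  obtain ⟨b1, hb1, c1, hc1, e2⟩ := J.sub_sub J' h hb hc
  refine ⟨a1 - b1, c1 - d1, ⟨a1, ha1, b1, hb1, rfl⟩, ⟨c1, hc1, d1, hd1, rfl⟩, ?_⟩
  have : a - b + (c - d) = (a - d) - (b - c) := by abel
  rw [this, e1, e2]
  abel

/-- Horizontal part of the difference body. -/
theorem diff_ker (J : Join K F G l m) {x : V} (hx : Diff K x) (h : l x = 0) :
    ∃ s : ℝ, 0 ≤ s ∧ s ≤ 1 ∧ ∃ u v, Diff F u ∧ Diff G v ∧ x = s • u + (1 - s) • v := by
  obtain ⟨a, ha, b, hb, rfl⟩ := hx
  obtain ⟨s, h0, h1, f, hf, g, hg, rfl⟩ := (J.mem a).1 ha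
  obtain ⟨t, h0', h1', f', hf', g', hg', rfl⟩ := (J.mem b).1 hb
  rw [map_sub, J.height hf hg, J.height hf' hg'] at h
  have : t = s := by linarith
  subst this
  refine ⟨t, h0, h1, f - f', g - g', ⟨f, hf, f', hf', rfl⟩, ⟨g, hg, g', hg', rfl⟩, ?_⟩
  module

theorem diff_F (J : Join K F G l m) {x : V} (hx : Diff F x) : Diff K x ∧ l x = 0 := by
  obtain ⟨a, ha, b, hb, rfl⟩ := hx
  refine ⟨⟨a, J.F_sub ha, b, J.F_sub hb, rfl⟩, ?_⟩
  rw [map_sub, J.lF a ha, J.lF b hb, sub_self]

/-- Each vector of the span of `F` lies in the span of `F'` or in the span of `G'`. -/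
theorem span_union [FiniteDimensional ℝ V] (J : Join K F G l m) (J' : Join H F' G' l m')
    (h : ∀ x, Diff K x ↔ Diff H x) {v : V} (hv : v ∈ vectorSpan ℝ F) :
    v ∈ vectorSpan ℝ F' ∨ v ∈ vectorSpan ℝ G' := by
  by_cases hv0 : v = 0
  · left; rw [hv0]; exact zero_mem _
  obtain ⟨f, hf⟩ := exists_relInt J.convF J.neF
  obtain ⟨e, he, hfe⟩ := hf.2 v hv
  -- the maximal multiple of v in the difference body of F
  have hcomp : IsCompact (F - F) := by
    have := J.compF.add J.compF.neg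
    rwa [← sub_eq_add_neg] at this
  let S : Set ℝ := {r | r • v ∈ F - F}
  have hSc : IsClosed S := hcomp.isClosed.preimage (by fun_prop : Continuous fun r : ℝ => r • v)
  have hSb : BddAbove S := by
    obtain ⟨C, hC⟩ := hcomp.isBounded.exists_norm_le
    refine ⟨C / ‖v‖, fun r hr => ?_⟩
    have h1 := hC _ hr
    rw [norm_smul] at h1
    rw [le_div_iff₀ (norm_pos_iff.2 hv0)]
    exact (mul_le_mul_of_nonneg_right (le_abs_self r) (norm_nonneg _)).trans h1
  have heS : e ∈ S := by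
    have : f + e • v ∈ F := hfe e (by rw [abs_of_pos he])
    exact ⟨f + e • v, this, f, hf.1, by simp⟩
  set r := sSup S with hr
  have hrS : r ∈ S := hSc.csSup_mem ⟨e, heS⟩ hSb
  have hr0 : 0 < r := he.trans_le (le_csSup hSb heS)
  have hmax : ∀ t, r < t → ¬ Diff F (t • v) := by
    intro t ht hd
    have : t ∈ S := (diff_eq F _).1 hd
    exact absurd (le_csSup hSb this) (not_le.2 ht)
  have hu : Diff F (r • v) := (diff_eq F _).2 hrS
  obtain ⟨hK, hl⟩ := J.diff_F hu
  obtain ⟨s, h0, h1, a, b, ha, hb, hab⟩ := J'.diff_ker ((h _).1 hK) hl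
  have back : ∀ p : Submodule ℝ V, r • v ∈ p → v ∈ p := by
    intro p hp
    have := p.smul_mem (1 / r) hp
    rwa [smul_smul, one_div_mul_cancel hr0.ne', one_smul] at this
  rcases h0.eq_or_lt with h0 | h0
  · right
    apply back
    rw [hab, ← h0]
    simpa using diff_mem_span hb
  rcases h1.eq_or_lt with h1 | h1
  · left
    apply back
    rw [hab, h1]
    simpa using diff_mem_span ha
  exfalso
  set M := max s (1 - s) with hM
  have hM0 : 0 < M := lt_max_of_lt_left h0
  have hM1 : M < 1 := max_lt h1 (by linarith)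
  have ha' : Diff F' ((s / M) • a) := diff_smul J'.convF ha (div_nonneg h0.le hM0.le)
    ((div_le_one hM0).2 (le_max_left _ _))
  have hb' : Diff G' (((1 - s) / M) • b) := diff_smul J'.convG hb
    (div_nonneg (by linarith) hM0.le) ((div_le_one hM0).2 (le_max_right _ _))
  obtain ⟨u, w, hu', hw', huw⟩ := J'.add_diff J (fun x => (h x).2) ha' hb'
  have e1 : (s / M) • a + ((1 - s) / M) • b = (r / M) • v := by
    rw [div_eq_inv_mul, div_eq_inv_mul, div_eq_inv_mul, mul_smul, mul_smul, mul_smul, ← smul_add,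
      ← hab]
  rw [e1] at huw
  have hw0 : (r / M) • v - u = 0 := by
    apply J.eq_zero (v := (r / M) • v - u) (w := w)
    · exact sub_mem (Submodule.smul_mem _ _ hv) (diff_mem_span hu')
    · exact diff_mem_span hw'
    · rw [huw]; abel
  apply hmax (r / M)
  · rw [lt_div_iff₀ hM0]
    nlinarith
  · rw [sub_eq_zero] at hw0
    rw [hw0]
    exact hu'

/-- The reversed join. -/
theorem rev (J : Join K F G l m) : Join K G F (-l) (-(m + 1)) where
  convF := J.convG
  convG := J.convF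
  compF := J.compG
  compG := J.compF
  neF := J.neG
  neG := J.neF
  lF := fun x hx => by rw [LinearMap.neg_apply, J.lG x hx]; ring
  lG := fun x hx => by rw [LinearMap.neg_apply, J.lF x hx]
  disj := J.disj.symm
  sup := by
    rw [sup_comm, J.sup]
    ext x
    simp
  mem := fun x => by
    rw [J.mem]
    constructor
    · rintro ⟨s, h0, h1, a, ha, b, hb, rfl⟩
      exact ⟨1 - s, by linarith, by linarith, b, hb, a, ha, by module⟩
    · rintro ⟨s, h0, h1, a, ha, b, hb, rfl⟩
      exact ⟨1 - s, by linarith, by linarith, b, hb, a, ha, by module⟩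

theorem span_le [FiniteDimensional ℝ V] (J : Join K F G l m) (J' : Join H F' G' l m')
    (h : ∀ x, Diff K x ↔ Diff H x) :
    (vectorSpan ℝ F ≤ vectorSpan ℝ F' ∨ vectorSpan ℝ F ≤ vectorSpan ℝ G') ∧
      (vectorSpan ℝ G ≤ vectorSpan ℝ F' ∨ vectorSpan ℝ G ≤ vectorSpan ℝ G') := by
  refine ⟨le_or_le fun v hv => J.span_union J' h hv, le_or_le fun v hv => ?_⟩
  exact (J.rev.span_union J'.rev h hv).symm

/-- Case of equal spans. -/
theorem translate (J : Join K F G l m) (J' : Join H F' G' l m')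
    (h : ∀ x, Diff K x ↔ Diff H x) (hF : vectorSpan ℝ F = vectorSpan ℝ F')
    (hG : vectorSpan ℝ G = vectorSpan ℝ G') : ∃ c : V, ∀ x, x ∈ H ↔ x - c ∈ K := by
  obtain ⟨a', ha'⟩ := J'.neF
  obtain ⟨b', hb'⟩ := J'.neG
  obtain ⟨a, ha, b, hb, hab⟩ := J'.sub_sub J (fun x => (h x).2) ha' hb'
  have hc : a' - a = b' - b := by
    rw [sub_eq_sub_iff_add_eq_add] at hab ⊢
    rw [hab, add_comm]
  have F1 : ∀ x ∈ F, x + (a' - a) ∈ F' := by
    intro x hx
    obtain ⟨x', hx', y', hy', e⟩ := J.sub_sub J' (fun x => (h x).1) hx hb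
    have h0 : (x' - a') - (x - a) = 0 := by
      apply J'.eq_zero (w := y' - b')
      · exact sub_mem (vsub_mem_vectorSpan ℝ hx' ha') (hF ▸ vsub_mem_vectorSpan ℝ hx ha)
      · exact vsub_mem_vectorSpan ℝ hy' hb'
      · have e2 : x = x' - y' + b := by rw [← e]; abel
        have e3 : a' = a - b + b' := by rw [← hab]; abel
        rw [e2, e3]; abel
    have : x + (a' - a) = x' := by
      rw [← sub_eq_zero, ← neg_eq_zero, ← h0]; abel
    rwa [this]
  have G1 : ∀ y ∈ G, y + (a' - a) ∈ G' := by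
    intro y hy
    obtain ⟨x', hx', y', hy', e⟩ := J.sub_sub J' (fun x => (h x).1) ha hy
    have h0 : (x' - a') = 0 := by
      apply J'.eq_zero (w := (y' - b') - (y - b))
      · exact vsub_mem_vectorSpan ℝ hx' ha'
      · exact sub_mem (vsub_mem_vectorSpan ℝ hy' hb') (hG ▸ vsub_mem_vectorSpan ℝ hy hb)
      · have e2 : y = a - (x' - y') := by rw [← e]; abel
        have e3 : a' = a - b + b' := by rw [← hab]; abel
        rw [e2, e3]; abel
    have : y + (a' - a) = y' := by
      have e2 : y = a - (x' - y') := by rw [← e]; abel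
      rw [sub_eq_zero] at h0
      rw [e2, h0]; abel
    rwa [this]
  have F2 : ∀ x ∈ F', x - (a' - a) ∈ F := by
    intro x hx
    obtain ⟨x', hx', y', hy', e⟩ := J'.sub_sub J (fun x => (h x).2) hx hb'
    have h0 : (x' - a) - (x - a') = 0 := by
      apply J.eq_zero (w := y' - b)
      · exact sub_mem (vsub_mem_vectorSpan ℝ hx' ha) (hF.symm ▸ vsub_mem_vectorSpan ℝ hx ha')
      · exact vsub_mem_vectorSpan ℝ hy' hb
      · have e2 : x = x' - y' + b' := by rw [← e]; abel
        have e3 : a' = a - b + b' := by rw [← hab]; abel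
        rw [e2, e3]; abel
    have : x - (a' - a) = x' := by
      rw [← sub_eq_zero, ← neg_eq_zero, ← h0]; abel
    rwa [this]
  have G2 : ∀ y ∈ G', y - (a' - a) ∈ G := by
    intro y hy
    obtain ⟨x', hx', y', hy', e⟩ := J'.sub_sub J (fun x => (h x).2) ha' hy
    have h0 : (x' - a) = 0 := by
      apply J.eq_zero (w := (y' - b) - (y - b'))
      · exact vsub_mem_vectorSpan ℝ hx' ha
      · exact sub_mem (vsub_mem_vectorSpan ℝ hy' hb) (hG.symm ▸ vsub_mem_vectorSpan ℝ hy hb')
      · have e2 : y = a' - (x' - y') := by rw [← e]; abel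
        have e3 : a' = a - b + b' := by rw [← hab]; abel
        rw [e2, e3]; abel
    have : y - (a' - a) = y' := by
      have e2 : y = a' - (x' - y') := by rw [← e]; abel
      rw [sub_eq_zero] at h0
      rw [e2, h0]; abel
    rwa [this]
  refine ⟨a' - a, fun x => ?_⟩
  rw [J'.mem, J.mem]
  constructor
  · rintro ⟨s, h0, h1, f, hf, g, hg, rfl⟩
    exact ⟨s, h0, h1, _, F2 f hf, _, G2 g hg, by module⟩
  · rintro ⟨s, h0, h1, f, hf, g, hg, e⟩
    refine ⟨s, h0, h1, _, F1 f hf, _, G1 g hg, ?_⟩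
    rw [← sub_add_cancel x (a' - a), e]
    module

/-- The reflected join. -/
theorem neg (J : Join K F G l m) : Join (-K) (-G) (-F) l (-(m + 1)) where
  convF := J.convG.neg
  convG := J.convF.neg
  compF := J.compG.neg
  compG := J.compF.neg
  neF := J.neG.neg
  neG := J.neF.neg
  lF := fun x hx => by
    have := J.lG _ hx
    rw [map_neg] at this
    linarith
  lG := fun x hx => by
    have := J.lF _ hx
    rw [map_neg] at this
    linarith
  disj := by
    rw [vectorSpan_neg', vectorSpan_neg']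
    exact J.disj.symm
  sup := by
    rw [vectorSpan_neg', vectorSpan_neg', sup_comm]
    exact J.sup
  mem := fun x => by
    rw [mem_neg, J.mem]
    constructor
    · rintro ⟨s, h0, h1, a, ha, b, hb, e⟩
      refine ⟨1 - s, by linarith, by linarith, -b, by simpa using hb, -a, by simpa using ha, ?_⟩
      rw [← neg_neg x, e]
      module
    · rintro ⟨s, h0, h1, a, ha, b, hb, rfl⟩
      exact ⟨1 - s, by linarith, by linarith, -b, hb, -a, ha, by module⟩

omit [NormedSpace ℝ V] in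
theorem diff_neg (K : Set V) (x : V) : Diff (-K) x ↔ Diff K x := by
  constructor
  · rintro ⟨a, ha, b, hb, rfl⟩
    exact ⟨-b, hb, -a, ha, by abel⟩
  · rintro ⟨a, ha, b, hb, rfl⟩
    exact ⟨-b, by simpa using hb, -a, by simpa using ha, by abel⟩

/-- Two joins with the same difference body agree up to translation and reflection. -/
theorem determined [FiniteDimensional ℝ V] (J : Join K F G l m) (J' : Join H F' G' l m')
    (h : ∀ x, Diff K x ↔ Diff H x) :
    (∃ c : V, ∀ x, x ∈ H ↔ x - c ∈ K) ∨ (∃ c : V, ∀ x, x ∈ H ↔ x - c ∈ -K) := by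
  have h1 := J.span_le J' h
  have h2 := J'.span_le J (fun x => (h x).symm)
  have e : vectorSpan ℝ F ⊔ vectorSpan ℝ G = vectorSpan ℝ F' ⊔ vectorSpan ℝ G' := by
    rw [J.sup, J'.sup]
  -- reduce to inclusions
  have key1 : vectorSpan ℝ F ≤ vectorSpan ℝ F' → vectorSpan ℝ G ≤ vectorSpan ℝ G' →
      vectorSpan ℝ F = vectorSpan ℝ F' ∧ vectorSpan ℝ G = vectorSpan ℝ G' := by
    intro a b
    constructor
    · apply le_antisymm a
      intro v hv
      obtain ⟨x, hx, y, hy, hxy⟩ := Submodule.mem_sup.1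
        (e ▸ Submodule.mem_sup_left hv : v ∈ vectorSpan ℝ F ⊔ vectorSpan ℝ G)
      have : v - x = 0 := J'.eq_zero (w := y) (sub_mem hv (a hx)) (b hy) (by rw [← hxy]; abel)
      rw [sub_eq_zero] at this
      rwa [this]
    · apply le_antisymm b
      intro v hv
      obtain ⟨x, hx, y, hy, hxy⟩ := Submodule.mem_sup.1
        (e ▸ Submodule.mem_sup_right hv : v ∈ vectorSpan ℝ F ⊔ vectorSpan ℝ G)
      have : x = 0 := J'.eq_zero (w := v - y) (a hx) (sub_mem hv (b hy)) (by rw [← hxy]; abel)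
      rw [this, zero_add] at hxy
      rwa [← hxy]
  have key2 : vectorSpan ℝ F ≤ vectorSpan ℝ G' → vectorSpan ℝ G ≤ vectorSpan ℝ F' →
      vectorSpan ℝ F = vectorSpan ℝ G' ∧ vectorSpan ℝ G = vectorSpan ℝ F' := by
    intro a b
    constructor
    · apply le_antisymm a
      intro v hv
      obtain ⟨x, hx, y, hy, hxy⟩ := Submodule.mem_sup.1
        (e ▸ Submodule.mem_sup_right hv : v ∈ vectorSpan ℝ F ⊔ vectorSpan ℝ G)
      have : y = 0 := J'.eq_zero (w := v - x) (b hy) (sub_mem hv (a hx)) (by rw [← hxy]; abel)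
      rw [this, add_zero] at hxy
      rwa [← hxy]
    · apply le_antisymm b
      intro v hv
      obtain ⟨x, hx, y, hy, hxy⟩ := Submodule.mem_sup.1
        (e ▸ Submodule.mem_sup_left hv : v ∈ vectorSpan ℝ F ⊔ vectorSpan ℝ G)
      have : v - y = 0 := J'.eq_zero (w := x) (sub_mem hv (b hy)) (a hx) (by rw [← hxy]; abel)
      rw [sub_eq_zero] at this
      rwa [this]
  have fin1 : vectorSpan ℝ F ≤ vectorSpan ℝ F' → vectorSpan ℝ G ≤ vectorSpan ℝ G' →
      (∃ c : V, ∀ x, x ∈ H ↔ x - c ∈ K) ∨ (∃ c : V, ∀ x, x ∈ H ↔ x - c ∈ -K) := by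
    intro a b
    obtain ⟨h3, h4⟩ := key1 a b
    exact Or.inl (J.translate J' h h3 h4)
  have fin2 : vectorSpan ℝ F ≤ vectorSpan ℝ G' → vectorSpan ℝ G ≤ vectorSpan ℝ F' →
      (∃ c : V, ∀ x, x ∈ H ↔ x - c ∈ K) ∨ (∃ c : V, ∀ x, x ∈ H ↔ x - c ∈ -K) := by
    intro a b
    obtain ⟨h3, h4⟩ := key2 a b
    refine Or.inr (J.neg.translate J' (fun x => (diff_neg K x).trans (h x)) ?_ ?_)
    · rw [vectorSpan_neg', h4]
    · rw [vectorSpan_neg', h3]
  rcases h1 with ⟨a | a, b | b⟩
  · -- both in F'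
    have hG0 : vectorSpan ℝ G' = ⊥ := by
      rw [eq_bot_iff]
      intro v hv
      have h3 : v ∈ vectorSpan ℝ F ⊔ vectorSpan ℝ G := e ▸ Submodule.mem_sup_right hv
      have h4 : v ∈ vectorSpan ℝ F' := (sup_le a b) h3
      exact Submodule.disjoint_def.1 J'.disj v h4 hv
    rcases h2.1 with c | c
    · -- F' ≤ F, so G ≤ F' ≤ F, G = ⊥
      have : vectorSpan ℝ G = ⊥ := by
        rw [eq_bot_iff]
        intro v hv
        exact Submodule.disjoint_def.1 J.disj v (c (b hv)) hv
      exact fin1 a (by rw [this]; exact bot_le)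
    · have : vectorSpan ℝ F = ⊥ := by
        rw [eq_bot_iff]
        intro v hv
        exact Submodule.disjoint_def.1 J.disj v hv (c (a hv))
      exact fin2 (by rw [this]; exact bot_le) b
  · exact fin1 a b
  · exact fin2 a b
  · have hF0 : vectorSpan ℝ F' = ⊥ := by
      rw [eq_bot_iff]
      intro v hv
      have h3 : v ∈ vectorSpan ℝ F ⊔ vectorSpan ℝ G := e ▸ Submodule.mem_sup_left hv
      have h4 : v ∈ vectorSpan ℝ G' := (sup_le a b) h3
      exact Submodule.disjoint_def.1 J'.disj v hv h4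
    rcases h2.2 with c | c
    · have : vectorSpan ℝ G = ⊥ := by
        rw [eq_bot_iff]
        intro v hv
        exact Submodule.disjoint_def.1 J.disj v (c (b hv)) hv
      exact fin2 a (by rw [this]; exact bot_le)
    · have : vectorSpan ℝ F = ⊥ := by
        rw [eq_bot_iff]
        intro v hv
        exact Submodule.disjoint_def.1 J.disj v hv (c (a hv))
      exact fin1 (by rw [this]; exact bot_le) b

end Join

end Pool.MP_177351_gt
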