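import Pool.Agent.Work.MP_177351_gt.Lap
import Pool.Agent.Work.MP_177351_gt.One

/-!
# Uniform fibre lemma: algebraic preparations
-/

set_option autoImplicit false

open MeasureTheory MvPolynomial Set Filter Topology
open scoped Pointwise Matrix Nat

namespace Pool.Agent.Covg

namespace UflAux

/-- `M ↦ M (η u + τ ω)`; the outer variable is `η`, the inner one is `τ`. -/
noncomputable def lin2 {n : ℕ} (u ω : Vec n) : Pol n →ₐ[ℝ] Polynomial (Polynomial ℝ) :=
  MvPolynomial.aeval fun i => Polynomial.C (Polynomial.C (ω i) * Polynomial.X) +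
    Polynomial.C (Polynomial.C (u i)) * Polynomial.X

lemma eval_lin2 {n : ℕ} (u ω : Vec n) (M : Pol n) (η τ : ℝ) :
    ((lin2 u ω M).map (Polynomial.evalRingHom τ)).eval η = eval (η • u + τ • ω) M := by
  have h : (Polynomial.evalRingHom η).comp ((Polynomial.mapRingHom (Polynomial.evalRingHom τ)).comp
      (lin2 u ω).toRingHom) = (MvPolynomial.eval (η • u + τ • ω) : Pol n →+* ℝ) := by
    refine MvPolynomial.ringHom_ext (fun r => ?_) fun i => ?_
    · simp [lin2]
    · simp only [lin2, AlgHom.toRingHom_eq_coe, RingHom.comp_apply, RingHom.coe_coe,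
        MvPolynomial.aeval_X, Polynomial.coe_evalRingHom, Polynomial.coe_mapRingHom,
        Polynomial.map_add, Polynomial.map_mul, Polynomial.map_C, Polynomial.map_X,
        Polynomial.eval_add, Polynomial.eval_mul,
        Polynomial.eval_C, Polynomial.eval_X, MvPolynomial.eval_X, Pi.add_apply, Pi.smul_apply,
        smul_eq_mul]
      ring
  exact congrArg (fun f : Pol n →+* ℝ => f M) h

lemma eval_smul_hom {n : ℕ} {M : Pol n} {d : ℕ} (hM : M.IsHomogeneous d) (s : ℝ) (x : Vec n) :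
    eval (s • x) M = s ^ d * eval x M := by
  rw [eval_eq, eval_eq, Finset.mul_sum]
  refine Finset.sum_congr rfl fun e he => ?_
  have h1 : e.sum (fun _ k => k) = d := by
    have := hM (mem_support_iff.1 he)
    rw [← this, Finsupp.weight_apply]
    simp [Finsupp.sum]
  have h2 : ∏ i ∈ e.support, (s • x) i ^ e i = s ^ d * ∏ i ∈ e.support, x i ^ e i := by
    simp only [Pi.smul_apply, smul_eq_mul, mul_pow]
    rw [Finset.prod_mul_distrib, Finset.prod_pow_eq_pow_sum, ← h1, Finsupp.sum]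
  rw [h2]
  ring

lemma lin2_hom {n : ℕ} (u ω : Vec n) {M : Pol n} {d : ℕ} (hM : M.IsHomogeneous d) (i : ℕ)
    (τ : ℝ) : τ ^ i * ((lin2 u ω M).coeff i).eval τ =
      τ ^ d * ((lin2 u ω M).coeff i).eval 1 := by
  have h : ((lin2 u ω M).map (Polynomial.evalRingHom τ)).comp
      (Polynomial.C τ * Polynomial.X) =
      Polynomial.C (τ ^ d) * (lin2 u ω M).map (Polynomial.evalRingHom 1) := by
    refine Polynomial.funext fun η => ?_
    rw [Polynomial.eval_comp, Polynomial.eval_mul, Polynomial.eval_mul, Polynomial.eval_C,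
      Polynomial.eval_C, Polynomial.eval_X, eval_lin2, eval_lin2, ← eval_smul_hom hM]
    congr 1
    rw [smul_add, smul_smul, one_smul]
  have h2 := congrArg (fun p : Polynomial ℝ => p.coeff i) h
  simp only [Polynomial.comp_C_mul_X_coeff, Polynomial.coeff_C_mul, Polynomial.coeff_map,
    Polynomial.coe_evalRingHom] at h2
  rw [mul_comm, h2]

lemma lim_low (H : Polynomial ℝ) (k : ℕ) (h : ∀ j < k, H.coeff j = 0) :
    Tendsto (fun η : ℝ => H.eval η / η ^ k) (𝓝[≠] 0) (𝓝 (H.coeff k)) := by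
  obtain ⟨H', hH'⟩ := Polynomial.X_pow_dvd_iff.2 h
  have h1 : H.coeff k = H'.eval 0 := by
    rw [hH', Polynomial.coeff_X_pow_mul', if_pos le_rfl, Nat.sub_self,
      Polynomial.coeff_zero_eq_eval_zero]
  have h2 : Tendsto (fun η : ℝ => H'.eval η) (𝓝[≠] 0) (𝓝 (H'.eval 0)) :=
    (H'.continuous.tendsto 0).mono_left nhdsWithin_le_nhds
  rw [h1]
  refine h2.congr' ?_
  filter_upwards [self_mem_nhdsWithin] with η hη
  have hη' : η ≠ 0 := hη
  rw [hH', Polynomial.eval_mul, Polynomial.eval_pow, Polynomial.eval_X]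
  field_simp

lemma lim_pow {k : ℕ} (hk : 0 < k) : Tendsto (fun η : ℝ => η ^ k) (𝓝[≠] 0) (𝓝 0) := by
  have h2 : Tendsto (fun η : ℝ => η ^ k) (𝓝[≠] 0) (𝓝 (0 ^ k)) :=
    ((continuous_pow k).tendsto 0).mono_left nhdsWithin_le_nhds
  rwa [zero_pow hk.ne'] at h2

lemma of_lim {H : Polynomial ℝ} {c : ℕ} {L : ℝ}
    (h : Tendsto (fun η : ℝ => H.eval η / η ^ c) (𝓝[≠] 0) (𝓝 L)) :
    (∀ j < c, H.coeff j = 0) ∧ H.coeff c = L := by
  have h1 : ∀ j < c, H.coeff j = 0 := by
    intro j
    induction j using Nat.strong_induction_on with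
    | _ j ih =>
      intro hj
      have h2 := lim_low H j fun i hi => ih i hi (hi.trans hj)
      have h3 := h.mul (lim_pow (Nat.sub_pos_of_lt hj))
      rw [mul_zero] at h3
      refine tendsto_nhds_unique h2 (h3.congr' ?_)
      filter_upwards [self_mem_nhdsWithin] with η hη
      have hη' : η ≠ 0 := hη
      have h4 : η ^ c = η ^ j * η ^ (c - j) := by
        rw [← pow_add, Nat.add_sub_cancel' hj.le]
      rw [h4]
      field_simp
  exact ⟨h1, tendsto_nhds_unique (lim_low H c h1) h⟩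

/-- truncated exponential `e^{xη}` -/
noncomputable def Ec (c : ℕ) (x : ℝ) : Polynomial ℝ :=
  ∑ i ∈ Finset.range (c + 1), Polynomial.C (x ^ i / i !) * Polynomial.X ^ i

lemma Ec_lim (c : ℕ) (x : ℝ) :
    Tendsto (fun η : ℝ => (Real.exp (η * x) - (Ec c x).eval η) / η ^ c) (𝓝[≠] 0) (𝓝 0) := by
  have h1 := (Real.exp_sub_sum_range_succ_isLittleO_pow c)
  have h2 : Tendsto (fun η : ℝ => η * x) (𝓝 0) (𝓝 0) := by
    have := (continuous_mul_right x).tendsto 0
    simpa using this
  have h3 := h1.comp_tendsto h2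
  have h4 : (fun η : ℝ => (η * x) ^ c) =O[𝓝 0] fun η : ℝ => η ^ c := by
    refine Asymptotics.IsBigO.of_bound (|x| ^ c) (Eventually.of_forall fun η => ?_)
    rw [mul_pow, norm_mul, norm_pow, norm_pow, Real.norm_eq_abs, Real.norm_eq_abs, mul_comm]
  have h5 : (fun η : ℝ => Real.exp (η * x) - (Ec c x).eval η) =o[𝓝 0] fun η : ℝ => η ^ c := by
    refine (h3.trans_isBigO h4).congr_left fun η => ?_
    simp only [Function.comp_apply]
    congr 1
    unfold Ec
    rw [Polynomial.eval_finsetSum]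
    refine Finset.sum_congr rfl fun i _ => ?_
    rw [Polynomial.eval_mul, Polynomial.eval_C, Polynomial.eval_pow, Polynomial.eval_X, mul_pow]
    ring
  exact (h5.mono nhdsWithin_le_nhds).tendsto_div_nhds_zero

/-- Taylor expansion of a finite sum of exponential polynomials in `η`. -/
lemma sum_lim {ι : Type} (S : Finset ι) (w x : ι → ℝ) (P : ι → Polynomial ℝ) (c : ℕ) :
    Tendsto (fun η : ℝ => (∑ a ∈ S, w a * ((P a).eval η * Real.exp (η * x a)) -
      (∑ a ∈ S, Polynomial.C (w a) * (P a * Ec c (x a))).eval η) / η ^ c) (𝓝[≠] 0) (𝓝 0) := by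
  have h1 : ∀ a ∈ S, Tendsto (fun η : ℝ => w a * (P a).eval η *
      ((Real.exp (η * x a) - (Ec c (x a)).eval η) / η ^ c)) (𝓝[≠] 0) (𝓝 0) := by
    intro a _
    have h2 : Tendsto (fun η : ℝ => w a * (P a).eval η) (𝓝[≠] 0) (𝓝 (w a * (P a).eval 0)) :=
      ((continuous_const.mul (P a).continuous).tendsto 0).mono_left nhdsWithin_le_nhds
    have h3 := h2.mul (Ec_lim c (x a))
    rwa [mul_zero] at h3
  have h4 := tendsto_finsetSum S h1
  rw [Finset.sum_const_zero] at h4
  refine h4.congr fun η => ?_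
  rw [Polynomial.eval_finsetSum, ← Finset.sum_sub_distrib, Finset.sum_div]
  refine Finset.sum_congr rfl fun a _ => ?_
  rw [Polynomial.eval_mul, Polynomial.eval_C, Polynomial.eval_mul]
  ring

end UflAux

end Pool.Agent.Covg
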