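import Pool.Agent.Work.MP_177351_gt.Ufl1

/-!
# Uniform fibre lemma: the restricted expansion
-/

set_option autoImplicit false

open MeasureTheory MvPolynomial Set Filter Topology
open scoped Pointwise Matrix Nat

namespace Pool.Agent.Covg

namespace UflAux

variable {n : ℕ}

/-- Taylor coefficient polynomials. -/
noncomputable def Qa (c : ℕ) (u ω : Vec n) (R : EA n) (a : Vec n) :
    Polynomial (Polynomial ℝ) :=
  lin2 u ω (R.coeff a) * (Ec c (a ⬝ᵥ u)).map Polynomial.C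

lemma Qa_map (c : ℕ) (u ω : Vec n) (R : EA n) (a : Vec n) (τ : ℝ) :
    (Qa c u ω R a).map (Polynomial.evalRingHom τ) =
      (lin2 u ω (R.coeff a)).map (Polynomial.evalRingHom τ) * Ec c (a ⬝ᵥ u) := by
  unfold Qa
  rw [Polynomial.map_mul, Polynomial.map_map]
  have : (Polynomial.evalRingHom τ).comp Polynomial.C = RingHom.id ℝ := by
    ext
    simp
  rw [this, Polynomial.map_id]

lemma Qa_coeff (c : ℕ) (u ω : Vec n) (R : EA n) (a : Vec n) (τ : ℝ) (j : ℕ) :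
    ((Qa c u ω R a).coeff j).eval τ =
      ((lin2 u ω (R.coeff a)).map (Polynomial.evalRingHom τ) * Ec c (a ⬝ᵥ u)).coeff j := by
  rw [← Qa_map, Polynomial.coeff_map, Polynomial.coe_evalRingHom]

/-- The `j`-th coefficient in `η` of `ev (η u + τ ω) R`. -/
noncomputable def Gj (c : ℕ) (u ω : Vec n) (R : EA n) (j : ℕ) : E1 :=
  ∑ a ∈ R.coeff.support, AddMonoidAlgebra.single (a ⬝ᵥ ω) ((Qa c u ω R a).coeff j)

lemma ev1_Gj (c : ℕ) (u ω : Vec n) (R : EA n) (j : ℕ) (τ : ℝ) :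
    ev1 τ (Gj c u ω R j) = ∑ a ∈ R.coeff.support,
      ((Qa c u ω R a).coeff j).eval τ * Real.exp ((a ⬝ᵥ ω) * τ) := by
  unfold Gj
  rw [map_sum]
  exact Finset.sum_congr rfl fun a _ => ev1_single _ _ _

lemma coeff_Gj (c : ℕ) (u ω : Vec n) (R : EA n) (j : ℕ) (y : ℝ) :
    (Gj c u ω R j).coeff y = ∑ a ∈ R.coeff.support with a ⬝ᵥ ω = y,
      (Qa c u ω R a).coeff j := by
  classical
  unfold Gj
  rw [AddMonoidAlgebra.coeff_sum, Finsupp.finsetSum_apply, Finset.sum_filter]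
  refine Finset.sum_congr rfl fun a _ => ?_
  rw [AddMonoidAlgebra.coeff_single, Finsupp.single_apply]

lemma ev_line2 (u ω : Vec n) (R : EA n) (η τ : ℝ) (S : Finset (Vec n)) :
    ∑ a ∈ S, eval (η • u + τ • ω) (R.coeff a) * Real.exp (a ⬝ᵥ (η • u + τ • ω)) =
      ∑ a ∈ S, Real.exp ((a ⬝ᵥ ω) * τ) *
        (((lin2 u ω (R.coeff a)).map (Polynomial.evalRingHom τ)).eval η *
          Real.exp (η * (a ⬝ᵥ u))) := by
  refine Finset.sum_congr rfl fun a _ => ?_
  rw [eval_lin2, dotProduct_add, dotProduct_smul, dotProduct_smul, Real.exp_add, smul_eq_mul,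
    smul_eq_mul, mul_comm τ]
  ring

/-- limit of `C(ηu+τω)/η^c` -/
lemma lin2_lim (u ω : Vec n) (M : Pol n) (τ : ℝ) :
    Tendsto (fun η : ℝ => eval (η • u + τ • ω) M / η ^ (lin2 u ω M).natTrailingDegree)
      (𝓝[≠] 0) (𝓝 ((lin2 u ω M).trailingCoeff.eval τ)) := by
  have h := lim_low ((lin2 u ω M).map (Polynomial.evalRingHom τ))
    (lin2 u ω M).natTrailingDegree (fun j hj => by
      rw [Polynomial.coeff_map, Polynomial.coeff_eq_zero_of_lt_natTrailingDegree hj, map_zero])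
  simp only [eval_lin2, Polynomial.coeff_map, Polynomial.coe_evalRingHom] at h
  exact h

lemma ev_lim {K : Set (Vec n)} {C : Pol n} {R : EA n} (hb : Body K) (hT : TrC K C R)
    (u ω : Vec n) (τ : ℝ) :
    Tendsto (fun η : ℝ => ev (η • u + τ • ω) R / η ^ (lin2 u ω C).natTrailingDegree)
      (𝓝[≠] 0) (𝓝 ((lin2 u ω C).trailingCoeff.eval τ * lap K (τ • ω))) := by
  have h1 := lin2_lim u ω C τ
  have h2 : Tendsto (fun η : ℝ => lap K (η • u + τ • ω)) (𝓝[≠] 0) (𝓝 (lap K (τ • ω))) := by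
    have h3 : Continuous fun η : ℝ => lap K (η • u + τ • ω) :=
      (continuous_lap hb.comp).comp (by fun_prop)
    have h4 := (h3.tendsto 0).mono_left (nhdsWithin_le_nhds (s := {0}ᶜ))
    simpa using h4
  refine (h1.mul h2).congr fun η => ?_
  rw [hT.eq]
  ring

/-- All coefficients below the lowest order vanish. -/
lemma Gj_eval {K : Set (Vec n)} {C : Pol n} {R : EA n} (hb : Body K) (hT : TrC K C R)
    (u ω : Vec n) {c : ℕ} (hc : c = (lin2 u ω C).natTrailingDegree) (τ : ℝ) :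
    (∀ j < c, ev1 τ (Gj c u ω R j) = 0) ∧
      ev1 τ (Gj c u ω R c) = (lin2 u ω C).trailingCoeff.eval τ * lap K (τ • ω) := by
  have h1 := ev_lim hb hT u ω τ
  rw [← hc] at h1
  set H : Polynomial ℝ := ∑ a ∈ R.coeff.support, Polynomial.C (Real.exp ((a ⬝ᵥ ω) * τ)) *
    ((lin2 u ω (R.coeff a)).map (Polynomial.evalRingHom τ) * Ec c (a ⬝ᵥ u)) with hH
  have h2 := sum_lim R.coeff.support (fun a => Real.exp ((a ⬝ᵥ ω) * τ)) (fun a => a ⬝ᵥ u)
    (fun a => (lin2 u ω (R.coeff a)).map (Polynomial.evalRingHom τ)) c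
  have h3 : Tendsto (fun η : ℝ => H.eval η / η ^ c) (𝓝[≠] 0)
      (𝓝 ((lin2 u ω C).trailingCoeff.eval τ * lap K (τ • ω))) := by
    have h4 := h1.sub h2
    rw [sub_zero] at h4
    refine h4.congr fun η => ?_
    rw [ev_apply, ev_line2]
    ring
  have hcoef : ∀ j, H.coeff j = ev1 τ (Gj c u ω R j) := by
    intro j
    rw [ev1_Gj, hH, Polynomial.finsetSum_coeff]
    refine Finset.sum_congr rfl fun a _ => ?_
    rw [Polynomial.coeff_C_mul, Qa_coeff, mul_comm]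
  obtain ⟨h5, h6⟩ := of_lim h3
  exact ⟨fun j hj => by rw [← hcoef]; exact h5 j hj, by rw [← hcoef]; exact h6⟩

lemma Gj_low {K : Set (Vec n)} {C : Pol n} {R : EA n} (hb : Body K) (hT : TrC K C R)
    (u ω : Vec n) {c : ℕ} (hc : c = (lin2 u ω C).natTrailingDegree) {j : ℕ} (hj : j < c) :
    Gj c u ω R j = 0 :=
  ev1_inj (Eventually.of_forall fun τ => (Gj_eval hb hT u ω hc τ).1 j hj)

/-- the part of height `y` -/
lemma part_lim {K : Set (Vec n)} {C : Pol n} {R : EA n} (hb : Body K) (hT : TrC K C R)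
    (u ω : Vec n) {c : ℕ} (hc : c = (lin2 u ω C).natTrailingDegree) (y τ : ℝ) :
    Tendsto (fun η : ℝ => (∑ a ∈ R.coeff.support with a ⬝ᵥ ω = y,
      ((lin2 u ω (R.coeff a)).map (Polynomial.evalRingHom τ)).eval η *
          Real.exp (η * (a ⬝ᵥ u))) / η ^ c) (𝓝[≠] 0)
      (𝓝 (((Gj c u ω R c).coeff y).eval τ)) := by
  set S := R.coeff.support.filter fun a => a ⬝ᵥ ω = y with hS
  have h2 := sum_lim S (fun _ => 1) (fun a => a ⬝ᵥ u)
    (fun a => (lin2 u ω (R.coeff a)).map (Polynomial.evalRingHom τ)) c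
  simp only [Polynomial.C_1, one_mul] at h2
  set H : Polynomial ℝ := ∑ a ∈ S,
    ((lin2 u ω (R.coeff a)).map (Polynomial.evalRingHom τ) * Ec c (a ⬝ᵥ u)) with hH
  have hcoef : ∀ j, H.coeff j = ((Gj c u ω R j).coeff y).eval τ := by
    intro j
    rw [coeff_Gj, hH, Polynomial.finsetSum_coeff, Polynomial.eval_finsetSum]
    refine Finset.sum_congr rfl fun a _ => ?_
    rw [Qa_coeff]
  have h3 := lim_low H c fun j hj => by
    rw [hcoef, Gj_low hb hT u ω hc hj]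
    simp
  rw [hcoef] at h3
  have h4 := h2.add h3
  rw [zero_add] at h4
  refine h4.congr fun η => ?_
  rw [sub_div, sub_add_cancel]

lemma fin_upper {ι : Type} (S : Finset ι) (q : ι → Polynomial ℝ) (e : ι → ℝ) (h : ℝ)
    (hS : ∀ b ∈ S, e b ≤ h) : ∃ (A : ℝ) (N : ℕ), 0 ≤ A ∧ ∀ t : ℝ, 1 ≤ t →
      |∑ b ∈ S, (q b).eval t * Real.exp (e b * t)| ≤ A * t ^ N * Real.exp (h * t) := by
  classical
  induction S using Finset.induction_on with
  | empty => exact ⟨0, 0, le_rfl, fun t _ => by simp⟩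
  | insert b S hb ih =>
    obtain ⟨A, N, hA, hAN⟩ := ih fun a ha => hS a (Finset.mem_insert_of_mem ha)
    obtain ⟨A', N', hA', hAN'⟩ := LapAux.poly_upper (q b)
    refine ⟨A + A', max N N', by positivity, fun t ht => ?_⟩
    rw [Finset.sum_insert hb]
    have ht0 : 0 ≤ t := by linarith
    have h1 := hAN t ht
    have h2 := hAN' t ht
    have h3 : |(q b).eval t * Real.exp (e b * t)| ≤ A' * t ^ N' * Real.exp (h * t) := by
      rw [abs_mul, abs_of_pos (Real.exp_pos _)]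
      have h4 : Real.exp (e b * t) ≤ Real.exp (h * t) :=
        Real.exp_le_exp.2 (mul_le_mul_of_nonneg_right (hS b (Finset.mem_insert_self b S)) ht0)
      gcongr
    have h5 : A * t ^ N * Real.exp (h * t) ≤ A * t ^ max N N' * Real.exp (h * t) := by
      gcongr
      exact le_max_left _ _
    have h6 : A' * t ^ N' * Real.exp (h * t) ≤ A' * t ^ max N N' * Real.exp (h * t) := by
      gcongr
      exact le_max_right _ _
    calc |(q b).eval t * Real.exp (e b * t) + ∑ a ∈ S, (q a).eval t * Real.exp (e a * t)| ≤ _ :=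
          abs_add_le _ _
      _ ≤ A' * t ^ max N N' * Real.exp (h * t) + A * t ^ max N N' * Real.exp (h * t) := by
          linarith
      _ = _ := by ring

lemma side_ne {K : Set (Vec n)} (hb : Body K) (ω : Vec n) {x₀ : Vec n} (hx₀ : x₀ ∈ K)
    {ρ : Polynomial ℝ} (hρ : ρ ≠ 0) {ι : Type} (S : Finset ι) (q : ι → Polynomial ℝ)
    (e : ι → ℝ) {h : ℝ} (hS : ∀ b ∈ S, e b ≤ h) (hlt : h < x₀ ⬝ᵥ ω)
    (heq : ∀ t : ℝ, ∑ b ∈ S, (q b).eval t * Real.exp (e b * t) = ρ.eval t * lap K (t • ω)) :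
    False := by
  obtain ⟨c, hc, hlow⟩ := LapAux.poly_lower hρ
  obtain ⟨cK, hcK, hK⟩ := lap_ge hb 0 ω hx₀
  obtain ⟨A, N, hA, hAN⟩ := fin_upper S q e h hS
  have hlim := LapAux.lim_zero A (N + n) (sub_pos.2 hlt)
  obtain ⟨t, ht1, ht2, ht3⟩ := ((hlim.eventually_lt_const (mul_pos hc hcK)).and
    (hlow.and (eventually_ge_atTop 1))).exists
  have ht0 : 0 < t := by linarith
  have e1 := hAN t ht3
  rw [heq, abs_mul, abs_of_pos (lap_pos hb _)] at e1
  have e2 := hK t ht3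
  rw [zero_add] at e2
  have e3 : c * (cK / t ^ n * Real.exp (t * (x₀ ⬝ᵥ ω))) ≤ A * t ^ N * Real.exp (h * t) := by
    refine le_trans ?_ e1
    exact mul_le_mul ht2 e2 (by positivity) (abs_nonneg _)
  have h1 : Real.exp (h * t) = Real.exp (t * (x₀ ⬝ᵥ ω)) *
      Real.exp (-((x₀ ⬝ᵥ ω - h) * t)) := by
    rw [← Real.exp_add]; ring_nf
  have e4 : Real.exp (t * (x₀ ⬝ᵥ ω)) * (c * cK) ≤ Real.exp (t * (x₀ ⬝ᵥ ω)) *
      (A * t ^ (N + n) * Real.exp (-((x₀ ⬝ᵥ ω - h) * t))) := by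
    rw [h1] at e3
    calc Real.exp (t * (x₀ ⬝ᵥ ω)) * (c * cK) =
        t ^ n * (c * (cK / t ^ n * Real.exp (t * (x₀ ⬝ᵥ ω)))) := by field_simp
      _ ≤ t ^ n * (A * t ^ N * (Real.exp (t * (x₀ ⬝ᵥ ω)) *
          Real.exp (-((x₀ ⬝ᵥ ω - h) * t)))) := by gcongr
      _ = _ := by ring
  have e5 := le_of_mul_le_mul_left e4 (Real.exp_pos _)
  linarith

lemma side_bigO {ρ : Polynomial ℝ} (hρ : ρ ≠ 0) {ι : Type} (S : Finset ι)
    (q : ι → Polynomial ℝ) (e : ι → ℝ) {h y δ : ℝ} (hS : ∀ b ∈ S, e b ≤ h)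
    (hδ : 0 < δ) (hhy : 2 * δ ≤ y - h) :
    (fun t : ℝ => (∑ b ∈ S, (q b).eval t * Real.exp (e b * t)) / ρ.eval t * Real.exp (-y * t))
      =O[atTop] fun t : ℝ => Real.exp (-δ * t) := by
  obtain ⟨c, hc, hlow⟩ := LapAux.poly_lower hρ
  obtain ⟨A, N, hA, hAN⟩ := fin_upper S q e h hS
  have hlim := LapAux.lim_zero A N hδ
  refine Asymptotics.IsBigO.of_bound c⁻¹ ?_
  filter_upwards [hlim.eventually_lt_const one_pos, hlow, eventually_ge_atTop 1] with t ht1 ht2 ht3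
  have ht0 : 0 < t := by linarith
  rw [norm_mul, norm_div, Real.norm_eq_abs, Real.norm_eq_abs, Real.norm_eq_abs,
    Real.norm_eq_abs, abs_of_pos (Real.exp_pos _), abs_of_pos (Real.exp_pos _)]
  have e1 := hAN t ht3
  have e2 : Real.exp (h * t) * Real.exp (-y * t) ≤ Real.exp (-(δ * t)) * Real.exp (-δ * t) := by
    rw [← Real.exp_add, ← Real.exp_add]
    refine Real.exp_le_exp.2 ?_
    nlinarith
  have hρpos : 0 < |ρ.eval t| := hc.trans_le ht2
  calc |∑ b ∈ S, (q b).eval t * Real.exp (e b * t)| / |ρ.eval t| * Real.exp (-y * t) ≤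
      (A * t ^ N * Real.exp (h * t)) / c * Real.exp (-y * t) := by
        gcongr
    _ = c⁻¹ * (A * t ^ N * (Real.exp (h * t) * Real.exp (-y * t))) := by ring
    _ ≤ c⁻¹ * (A * t ^ N * (Real.exp (-(δ * t)) * Real.exp (-δ * t))) := by gcongr
    _ = c⁻¹ * ((A * t ^ N * Real.exp (-(δ * t))) * Real.exp (-δ * t)) := by ring
    _ ≤ c⁻¹ * (1 * Real.exp (-δ * t)) := by gcongr
    _ = _ := by rw [one_mul]

end UflAux

end Pool.Agent.Covg
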