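import Pool.Agent.Work.MP_177351_gt.Ufl2

/-!
# Uniform fibre lemma: the one-variable relation
-/

set_option autoImplicit false

open MeasureTheory MvPolynomial Set Filter Topology
open scoped Pointwise Matrix Nat

namespace Pool.Agent.Covg

namespace UflAux

variable {n : ℕ}

lemma ev_single (z a : Vec n) (M : Pol n) :
    ev z (AddMonoidAlgebra.single a M) = eval z M * Real.exp (a ⬝ᵥ z) := by
  unfold ev
  exact AddMonoidAlgebra.liftNC_single _ _ _ _

lemma lin2_ne {u ω : Vec n} {M : Pol n} (h : eval u M ≠ 0) : lin2 u ω M ≠ 0 := by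
  intro h0
  apply h
  have := eval_lin2 u ω M 1 0
  rw [h0] at this
  simpa using this.symm

lemma trail_ne {u ω : Vec n} {M : Pol n} (h : lin2 u ω M ≠ 0) :
    (lin2 u ω M).trailingCoeff ≠ 0 := by
  rwa [Ne, Polynomial.trailingCoeff_eq_zero]

lemma trail_hom (u ω : Vec n) {M : Pol n} {d : ℕ} (hM : M.IsHomogeneous d) (τ : ℝ) :
    τ ^ (lin2 u ω M).natTrailingDegree * (lin2 u ω M).trailingCoeff.eval τ =
      τ ^ d * (lin2 u ω M).trailingCoeff.eval 1 :=
  lin2_hom u ω hM _ τ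

lemma trail_one_ne {u ω : Vec n} {M : Pol n} {d : ℕ} (hM : M.IsHomogeneous d)
    (h : lin2 u ω M ≠ 0) : (lin2 u ω M).trailingCoeff.eval 1 ≠ 0 := by
  intro h0
  have h1 : (Polynomial.X ^ (lin2 u ω M).natTrailingDegree : Polynomial ℝ) *
      (lin2 u ω M).trailingCoeff = 0 := by
    refine Polynomial.funext fun τ => ?_
    rw [Polynomial.eval_mul, Polynomial.eval_pow, Polynomial.eval_X, trail_hom u ω hM, h0]
    simp
  rcases mul_eq_zero.1 h1 with h2 | h2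
  · exact pow_ne_zero _ Polynomial.X_ne_zero h2
  · exact trail_ne h h2

lemma exists_lt_bound (S : Finset ℝ) {y : ℝ} (h : ∀ b ∈ S, b < y) : ∃ h' < y, ∀ b ∈ S, b ≤ h' := by
  rcases S.eq_empty_or_nonempty with he | hne
  · exact ⟨y - 1, by linarith, fun b hb => by rw [he] at hb; simp at hb⟩
  · obtain ⟨b, hb, hmax⟩ := Finset.exists_max_image S id hne
    exact ⟨b, h b hb, hmax⟩

lemma lim_lt {A : ℝ → ℝ} {p q : ℕ} {a b : ℝ}
    (ha : Tendsto (fun η : ℝ => A η / η ^ p) (𝓝[≠] 0) (𝓝 a))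
    (hb : Tendsto (fun η : ℝ => A η / η ^ q) (𝓝[≠] 0) (𝓝 b)) (h : p < q) : a = 0 := by
  have h3 := hb.mul (lim_pow (Nat.sub_pos_of_lt h))
  rw [mul_zero] at h3
  refine tendsto_nhds_unique ha (h3.congr' ?_)
  filter_upwards [self_mem_nhdsWithin] with η hη
  have hη' : η ≠ 0 := hη
  have h4 : η ^ q = η ^ p * η ^ (q - p) := by
    rw [← pow_add, Nat.add_sub_cancel' h.le]
  rw [h4]
  field_simp

lemma mul_lim {u ω x : Vec n} (M : Pol n) {F : ℝ → ℝ} {c : ℕ} {r : ℝ} (τ : ℝ)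
    (hF : Tendsto (fun η : ℝ => F η / η ^ c) (𝓝[≠] 0) (𝓝 r)) :
    Tendsto (fun η : ℝ => (eval (η • u + τ • ω) M * Real.exp (η * (x ⬝ᵥ u)) * F η) /
      η ^ ((lin2 u ω M).natTrailingDegree + c)) (𝓝[≠] 0)
      (𝓝 ((lin2 u ω M).trailingCoeff.eval τ * r)) := by
  have h1 := lin2_lim u ω M τ
  have h2 : Tendsto (fun η : ℝ => Real.exp (η * (x ⬝ᵥ u))) (𝓝[≠] 0) (𝓝 1) := by
    have h3 : Continuous fun η : ℝ => Real.exp (η * (x ⬝ᵥ u)) := by fun_prop
    have h4 := (h3.tendsto 0).mono_left (nhdsWithin_le_nhds (s := {0}ᶜ))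
    simpa using h4
  have h3 := (h1.mul h2).mul hF
  rw [mul_one] at h3
  refine h3.congr fun η => ?_
  rw [pow_add]
  ring

theorem key {K : Set (Vec n)} (hb : Body K) {C : Pol n} {R : EA n} (hT : TrC K C R)
    (ω : Vec n) {x₁ x₂ : Vec n} {M₁ M₂ : Pol n} {d₁ d₂ : ℕ} (hM₁ : M₁ ≠ 0) (hM₂ : M₂ ≠ 0)
    (hd₁ : M₁.IsHomogeneous d₁) (hd₂ : M₂.IsHomogeneous d₂)
    (hrel : AddMonoidAlgebra.single x₂ M₂ * lead ω R =
      AddMonoidAlgebra.single x₁ M₁ * lead (-ω) R)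
    {yp ym : ℝ} (hyp : ∀ a ∈ R.coeff.support, a ⬝ᵥ ω ≤ yp)
    (hyp' : ∃ a ∈ R.coeff.support, a ⬝ᵥ ω = yp)
    (hym : ∀ a ∈ R.coeff.support, ym ≤ a ⬝ᵥ ω) (hym' : ∃ a ∈ R.coeff.support, a ⬝ᵥ ω = ym)
    (hx : x₂ ⬝ᵥ ω + yp = x₁ ⬝ᵥ ω + ym) :
    ∃ (G : E1) (ρ : Polynomial ℝ) (c D : ℕ) (γ κ : ℝ) (s : ℤ), γ ≠ 0 ∧ ρ ≠ 0 ∧
      (∀ τ, τ ^ c * ρ.eval τ = τ ^ D * γ) ∧ (∀ τ, ev1 τ G = ρ.eval τ * lap K (τ • ω)) ∧
      (∀ b ∈ G.coeff.support, ym ≤ b ∧ b ≤ yp) ∧
      ∀ τ : ℝ, τ ≠ 0 → (G.coeff ym).eval τ = κ * τ ^ s * (G.coeff yp).eval τ := by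
  classical
  obtain ⟨u, hu⟩ : ∃ u, eval u (C * M₁ * M₂) ≠ 0 := by
    by_contra hcon
    push Not at hcon
    exact mul_ne_zero (mul_ne_zero hT.ne hM₁) hM₂
      (MvPolynomial.funext fun x => by rw [hcon x, map_zero])
  rw [map_mul, map_mul] at hu
  have huM₂ := right_ne_zero_of_mul hu
  have huM₁ := right_ne_zero_of_mul (left_ne_zero_of_mul hu)
  have huC := left_ne_zero_of_mul (left_ne_zero_of_mul hu)
  obtain ⟨d, hChom, -⟩ := hT.hom
  set c := (lin2 u ω C).natTrailingDegree with hc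
  set ρ := (lin2 u ω C).trailingCoeff with hρ
  have hρ0 : ρ ≠ 0 := trail_ne (lin2_ne huC)
  set G := Gj c u ω R c with hG
  have hGev : ∀ τ, ev1 τ G = ρ.eval τ * lap K (τ • ω) := fun τ => (Gj_eval hb hT u ω hc τ).2
  have hGsupp : ∀ b ∈ G.coeff.support, ym ≤ b ∧ b ≤ yp := by
    intro b hbs
    rw [Finsupp.mem_support_iff, hG, coeff_Gj] at hbs
    obtain ⟨a, ha, -⟩ := Finset.exists_ne_zero_of_sum_ne_zero hbs
    rw [Finset.mem_filter] at ha
    rw [← ha.2]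
    exact ⟨hym a ha.1, hyp a ha.1⟩
  have hsub : ∀ a ∈ R.coeff.support, a ∈ K := fun a ha => by
    rw [← Nw_eq hb hT]
    exact subset_convexHull ℝ _ ha
  have hrp : G.coeff yp ≠ 0 := by
    intro h0
    obtain ⟨h, hh, hh'⟩ := exists_lt_bound G.coeff.support (y := yp) fun b hb' =>
      lt_of_le_of_ne (hGsupp b hb').2 fun he => by
        rw [he, Finsupp.mem_support_iff] at hb'
        exact hb' h0
    obtain ⟨a, ha, haω⟩ := hyp'
    refine side_ne hb ω (hsub a ha) hρ0 G.coeff.support (fun b => G.coeff b) id hh'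
      (by rw [haω]; exact hh) fun t => ?_
    rw [← hGev, ev1_apply]
    rfl
  have hrm : G.coeff ym ≠ 0 := by
    intro h0
    obtain ⟨h, hh, hh'⟩ := exists_lt_bound (G.coeff.support.image fun b => -b) (y := -ym)
      fun b hb' => by
        rw [Finset.mem_image] at hb'
        obtain ⟨b', hb', rfl⟩ := hb'
        refine neg_lt_neg (lt_of_le_of_ne (hGsupp b' hb').1 fun he => ?_)
        rw [← he, Finsupp.mem_support_iff] at hb'
        exact hb' h0
    obtain ⟨a, ha, haω⟩ := hym'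
    have hρ' : ρ.comp (-Polynomial.X) ≠ 0 := by
      intro h1
      apply hρ0
      refine Polynomial.funext fun t => ?_
      have h2 := congrArg (fun p : Polynomial ℝ => p.eval (-t)) h1
      simpa using h2
    refine side_ne hb (-ω) (hsub a ha) hρ' G.coeff.support
      (fun b => (G.coeff b).comp (-Polynomial.X)) (fun b => -b)
      (fun b hb' => hh' _ (Finset.mem_image_of_mem _ hb'))
      (by rw [dotProduct_neg, haω]; exact hh) fun t => ?_
    have h3 := hGev (-t)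
    rw [ev1_apply] at h3
    have h4 : t • -ω = (-t) • ω := by rw [smul_neg, neg_smul]
    rw [h4, Polynomial.eval_comp, Polynomial.eval_neg, Polynomial.eval_X, ← h3]
    refine Finset.sum_congr rfl fun b _ => ?_
    rw [Polynomial.eval_comp, Polynomial.eval_neg, Polynomial.eval_X]
    congr 2
    ring
  -- the supports of the leading parts
  obtain ⟨ap, hap, hapω⟩ := hyp'
  obtain ⟨am, ham, hamω⟩ := hym'
  have hSp : (lead ω R).coeff.support = R.coeff.support.filter fun a => a ⬝ᵥ ω = yp := by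
    rw [support_lead]
    refine Finset.filter_congr fun a ha => ?_
    constructor
    · intro h1
      exact le_antisymm (hyp a ha) (by rw [← hapω]; exact h1 ap hap)
    · intro h1 b hb'
      rw [h1]
      exact hyp b hb'
  have hSm : (lead (-ω) R).coeff.support = R.coeff.support.filter fun a => a ⬝ᵥ ω = ym := by
    rw [support_lead]
    refine Finset.filter_congr fun a ha => ?_
    simp only [dotProduct_neg, neg_le_neg_iff]
    constructor
    · intro h1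
      exact le_antisymm (by rw [← hamω]; exact h1 am ham) (hym a ha)
    · intro h1 b hb'
      rw [h1]
      exact hym b hb'
  -- comparison
  set Fy : ℝ → ℝ → ℝ → ℝ := fun y τ η => ∑ a ∈ R.coeff.support with a ⬝ᵥ ω = y,
      ((lin2 u ω (R.coeff a)).map (Polynomial.evalRingHom τ)).eval η *
          Real.exp (η * (a ⬝ᵥ u)) with hFy
  have hlead : ∀ (ω' : Vec n) (y τ η : ℝ), (lead ω' R).coeff.support =
      (R.coeff.support.filter fun a => a ⬝ᵥ ω = y) →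
      ev (η • u + τ • ω) (lead ω' R) = Real.exp (y * τ) * Fy y τ η := by
    intro ω' y τ η hS
    rw [ev_apply, hS]
    have h1 : ∑ a ∈ R.coeff.support with a ⬝ᵥ ω = y,
        eval (η • u + τ • ω) ((lead ω' R).coeff a) * Real.exp (a ⬝ᵥ (η • u + τ • ω)) =
        ∑ a ∈ R.coeff.support with a ⬝ᵥ ω = y,
        eval (η • u + τ • ω) (R.coeff a) * Real.exp (a ⬝ᵥ (η • u + τ • ω)) := by
      refine Finset.sum_congr rfl fun a ha => ?_
      rw [coeff_lead ω' R (by rw [hS]; exact ha)]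
    rw [h1, ev_line2, hFy]
    simp only
    rw [Finset.mul_sum]
    refine Finset.sum_congr rfl fun a ha => ?_
    rw [Finset.mem_filter] at ha
    rw [ha.2]
  have hAB : ∀ τ η : ℝ, eval (η • u + τ • ω) M₂ * Real.exp (η * (x₂ ⬝ᵥ u)) * Fy yp τ η =
      eval (η • u + τ • ω) M₁ * Real.exp (η * (x₁ ⬝ᵥ u)) * Fy ym τ η := by
    intro τ η
    have h1 := congrArg (fun P : EA n => ev (η • u + τ • ω) P) hrel
    simp only [map_mul, ev_single] at h1
    rw [hlead ω yp τ η hSp, hlead (-ω) ym τ η hSm, dotProduct_add, dotProduct_add,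
      dotProduct_smul, dotProduct_smul, dotProduct_smul, dotProduct_smul, smul_eq_mul,
      smul_eq_mul, smul_eq_mul, smul_eq_mul, Real.exp_add, Real.exp_add] at h1
    have h2 : Real.exp (τ * (x₂ ⬝ᵥ ω)) * Real.exp (yp * τ) =
        Real.exp (τ * (x₁ ⬝ᵥ ω)) * Real.exp (ym * τ) := by
      rw [← Real.exp_add, ← Real.exp_add]
      congr 1
      linear_combination τ * hx
    have h3 : Real.exp (τ * (x₁ ⬝ᵥ ω)) * Real.exp (ym * τ) ≠ 0 := by positivity
    apply mul_left_cancel₀ h3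
    calc Real.exp (τ * (x₁ ⬝ᵥ ω)) * Real.exp (ym * τ) *
          (eval (η • u + τ • ω) M₂ * Real.exp (η * (x₂ ⬝ᵥ u)) * Fy yp τ η) =
        Real.exp (τ * (x₂ ⬝ᵥ ω)) * Real.exp (yp * τ) *
          (eval (η • u + τ • ω) M₂ * Real.exp (η * (x₂ ⬝ᵥ u)) * Fy yp τ η) := by rw [h2]
      _ = eval (η • u + τ • ω) M₂ * (Real.exp (η * (x₂ ⬝ᵥ u)) * Real.exp (τ * (x₂ ⬝ᵥ ω))) *
          (Real.exp (yp * τ) * Fy yp τ η) := by ring
      _ = _ := by rw [h1]; ring
  set e₁ := (lin2 u ω M₁).natTrailingDegree with he₁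
  set e₂ := (lin2 u ω M₂).natTrailingDegree with he₂
  set μ₁ := (lin2 u ω M₁).trailingCoeff with hμ₁
  set μ₂ := (lin2 u ω M₂).trailingCoeff with hμ₂
  have hμ₁0 : μ₁ ≠ 0 := trail_ne (lin2_ne huM₁)
  have hμ₂0 : μ₂ ≠ 0 := trail_ne (lin2_ne huM₂)
  have limA : ∀ τ, Tendsto (fun η : ℝ => (eval (η • u + τ • ω) M₂ *
      Real.exp (η * (x₂ ⬝ᵥ u)) * Fy yp τ η) / η ^ (e₂ + c)) (𝓝[≠] 0)
      (𝓝 (μ₂.eval τ * (G.coeff yp).eval τ)) := fun τ =>
    mul_lim M₂ τ (part_lim hb hT u ω hc yp τ)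
  have limB : ∀ τ, Tendsto (fun η : ℝ => (eval (η • u + τ • ω) M₂ *
      Real.exp (η * (x₂ ⬝ᵥ u)) * Fy yp τ η) / η ^ (e₁ + c)) (𝓝[≠] 0)
      (𝓝 (μ₁.eval τ * (G.coeff ym).eval τ)) := fun τ => by
    simp only [hAB]
    exact mul_lim M₁ τ (part_lim hb hT u ω hc ym τ)
  have he : e₁ = e₂ := by
    rcases lt_trichotomy e₁ e₂ with hlt | heq | hgt
    · exfalso
      have h1 : μ₁ * G.coeff ym = 0 := Polynomial.funext fun τ => by
        rw [Polynomial.eval_mul, Polynomial.eval_zero]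
        exact lim_lt (limB τ) (limA τ) (by omega)
      exact mul_ne_zero hμ₁0 hrm h1
    · exact heq
    · exfalso
      have h1 : μ₂ * G.coeff yp = 0 := Polynomial.funext fun τ => by
        rw [Polynomial.eval_mul, Polynomial.eval_zero]
        exact lim_lt (limA τ) (limB τ) (by omega)
      exact mul_ne_zero hμ₂0 hrp h1
  have hrr : ∀ τ, μ₂.eval τ * (G.coeff yp).eval τ = μ₁.eval τ * (G.coeff ym).eval τ := fun τ => by
    have h1 := limB τ
    rw [he] at h1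
    exact tendsto_nhds_unique (limA τ) h1
  have hone₁ : μ₁.eval 1 ≠ 0 := trail_one_ne hd₁ (lin2_ne huM₁)
  refine ⟨G, ρ, c, d + n, ρ.eval 1, μ₂.eval 1 / μ₁.eval 1, (d₂ : ℤ) - d₁,
    trail_one_ne hChom (lin2_ne huC), hρ0, fun τ => trail_hom u ω hChom τ, hGev, hGsupp,
    fun τ hτ => ?_⟩
  have h1 := trail_hom u ω hd₁ τ
  have h2 := trail_hom u ω hd₂ τ
  rw [← he₁, ← hμ₁] at h1
  rw [← he₂, ← hμ₂, ← he] at h2
  have h3 : τ ^ d₂ * μ₂.eval 1 * (G.coeff yp).eval τ =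
      τ ^ d₁ * μ₁.eval 1 * (G.coeff ym).eval τ := by
    rw [← h1, ← h2]
    linear_combination τ ^ e₁ * hrr τ
  rw [zpow_sub₀ hτ, zpow_natCast, zpow_natCast]
  have hτ1 : τ ^ d₁ ≠ 0 := pow_ne_zero _ hτ
  field_simp
  linear_combination -h3

end UflAux

end Pool.Agent.Covg
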