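import Pool.Agent.Work.MP_177351_gt.Lap

set_option autoImplicit false

open MeasureTheory MvPolynomial Set Filter Topology
open scoped Pointwise Matrix

namespace Pool.Agent.Covg

/-! ## Module `Uniform` -/

/-- `ω` is orthogonal to `e` and separates `S` modulo `span e` -/
def Good {n : ℕ} (e : Vec n) (S : Finset (Vec n)) (ω : Vec n) : Prop :=
  e ⬝ᵥ ω = 0 ∧ ∀ v ∈ S, ∀ v' ∈ S, v ⬝ᵥ ω = v' ⬝ᵥ ω → v - v' ∈ Submodule.span ℝ {e}

theorem Good.neg {n : ℕ} {e : Vec n} {S : Finset (Vec n)} {ω : Vec n} (h : Good e S ω) :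
    Good e S (-ω) := by
  refine ⟨by rw [dotProduct_neg, h.1, neg_zero], fun v hv v' hv' he => h.2 v hv v' hv' ?_⟩
  rw [dotProduct_neg, dotProduct_neg] at he
  linarith

theorem dot_self_pos {n : ℕ} {e : Vec n} (he : e ≠ 0) : 0 < e ⬝ᵥ e := by
  have h1 : 0 ≤ e ⬝ᵥ e := Finset.sum_nonneg fun i _ => mul_self_nonneg _
  exact lt_of_le_of_ne h1 fun h => he (dotProduct_self_eq_zero.mp h.symm)

theorem exists_good {n : ℕ} {e : Vec n} (he : e ≠ 0) (S : Finset (Vec n)) :
    ∃ ω : Vec n, Good e S ω := by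
  classical
  have hee := dot_self_pos he
  let W : Finset (Vec n) := ((S ×ˢ S).image fun p => p.1 - p.2).filter fun w =>
    w ∉ Submodule.span ℝ {e}
  let pr : Vec n → Vec n := fun w => w - ((w ⬝ᵥ e) / (e ⬝ᵥ e)) • e
  obtain ⟨ω₀, hω₀⟩ := exists_sep (W.image pr) (by
    intro v hv h0
    obtain ⟨w, hw, rfl⟩ := Finset.mem_image.mp hv
    apply (Finset.mem_filter.mp hw).2
    rw [sub_eq_zero.mp h0]
    exact Submodule.smul_mem _ _ (Submodule.mem_span_singleton_self e))
  have key : ∀ w : Vec n, w ⬝ᵥ pr ω₀ = pr w ⬝ᵥ ω₀ := by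
    intro w
    simp only [pr, dotProduct_sub, sub_dotProduct, dotProduct_smul, smul_dotProduct, smul_eq_mul]
    rw [dotProduct_comm ω₀ e]
    field_simp
  refine ⟨pr ω₀, ?_, fun v hv v' hv' hvv => ?_⟩
  · rw [key]
    have : pr e = 0 := by
      simp only [pr]
      rw [div_self hee.ne', one_smul, sub_self]
    rw [this, zero_dotProduct]
  · by_contra hns
    have hmem : v - v' ∈ W := Finset.mem_filter.mpr
      ⟨Finset.mem_image.mpr ⟨(v, v'), Finset.mem_product.mpr ⟨hv, hv'⟩, rfl⟩, hns⟩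
    have h1 := hω₀ _ (Finset.mem_image_of_mem pr hmem)
    rw [← key, sub_dotProduct, hvv, sub_self] at h1
    exact h1 rfl

/-- `s g + ω` is good for large `s` -/
theorem good_perturb {n : ℕ} {e : Vec n} {S : Finset (Vec n)} {ω g : Vec n} (h : Good e S ω)
    (hg : e ⬝ᵥ g = 0) : ∀ᶠ s : ℝ in atTop, Good e S (s • g + ω) := by
  have h1 : ∀ v ∈ S, ∀ᶠ s : ℝ in atTop, ∀ v' ∈ S,
      v ⬝ᵥ (s • g + ω) = v' ⬝ᵥ (s • g + ω) → v - v' ∈ Submodule.span ℝ {e} := by
    intro v hv
    rw [Finset.eventually_all]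
    intro v' hv'
    by_cases h0 : (v - v') ⬝ᵥ g = 0
    · refine Eventually.of_forall fun s hs => h.2 v hv v' hv' ?_
      rw [dotProduct_add, dotProduct_add, dotProduct_smul, dotProduct_smul] at hs
      rw [sub_dotProduct, sub_eq_zero] at h0
      rw [h0] at hs
      linarith
    · filter_upwards [eventually_gt_atTop (-((v - v') ⬝ᵥ ω) / ((v - v') ⬝ᵥ g))] with s hs he
      exfalso
      have h2 : s * ((v - v') ⬝ᵥ g) + (v - v') ⬝ᵥ ω = 0 := by
        rw [dotProduct_add, dotProduct_add, dotProduct_smul, dotProduct_smul] at he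
        simp only [sub_dotProduct, smul_eq_mul] at he ⊢
        linarith
      have h3 : s = -((v - v') ⬝ᵥ ω) / ((v - v') ⬝ᵥ g) := by
        rw [eq_div_iff h0]; linarith
      linarith
  have h2 := (Finset.eventually_all S).mpr h1
  filter_upwards [h2] with s hs
  refine ⟨?_, hs⟩
  rw [dotProduct_add, dotProduct_smul, hg, h.1]; simp

/-- the structure of the good faces gives a decomposition -/
theorem uniform_split {n : ℕ} {K : Set (Vec n)} {R : EA n} (hb : Body K) (hN : Nw R = K)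
    {e : Vec n} (he : e ≠ 0)
    (h : ∀ ω : Vec n, Good e R.coeff.support ω →
      ∃ x, ((lead ω R).coeff.support : Set (Vec n)) = {x, x + e}) :
    K = {y | y ∈ K ∧ y + e ∈ K} + segment ℝ 0 e := by
  classical
  have hmem : ∀ (ω v : Vec n), v ∈ (lead ω R).coeff.support → v ∈ K ∧ ∀ y ∈ K, y ⬝ᵥ ω ≤ v ⬝ᵥ ω := by
    intro ω v hv
    have h1 : v ∈ Nw (lead ω R) := subset_Nw _ hv
    rw [Nw_lead, hN] at h1
    exact h1
  have hsub : ∀ (ω v : Vec n), v ∈ (lead ω R).coeff.support → v ∈ R.coeff.support := by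
    intro ω v hv
    rw [support_lead] at hv
    exact (Finset.mem_filter.mp hv).1
  -- the set of good vertices
  obtain ⟨X, hX⟩ : ∃ X : Set (Vec n), X = {x | ∃ ω, Good e R.coeff.support ω ∧
    ((lead ω R).coeff.support : Set (Vec n)) = {x, x + e}} := ⟨_, rfl⟩
  have hXS : X ⊆ (R.coeff.support : Set (Vec n)) := by
    rintro x hx
    rw [hX] at hx
    obtain ⟨ω, -, hω⟩ := hx
    exact hsub ω x (by rw [← Finset.mem_coe, hω]; exact Or.inl rfl)
  have hXA : X ⊆ {y | y ∈ K ∧ y + e ∈ K} := by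
    rintro x hx
    rw [hX] at hx
    obtain ⟨ω, -, hω⟩ := hx
    refine ⟨(hmem ω x ?_).1, (hmem ω (x + e) ?_).1⟩
    · rw [← Finset.mem_coe, hω]; exact Or.inl rfl
    · rw [← Finset.mem_coe, hω]; exact Or.inr rfl
  have hAc : Convex ℝ {y | y ∈ K ∧ y + e ∈ K} := by
    have h1 : Convex ℝ ((fun y : Vec n => y + e) ⁻¹' K) := by
      have := hb.conv.translate_preimage_left (z := e)
      simpa using this
    exact hb.conv.inter h1
  have hconvA : convexHull ℝ X ⊆ {y | y ∈ K ∧ y + e ∈ K} := convexHull_min hXA hAc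
  obtain ⟨ω₀, hω₀⟩ := exists_good he R.coeff.support
  obtain ⟨x₁, hx₁⟩ := h ω₀ hω₀
  have hx₁X : x₁ ∈ X := by rw [hX]; exact ⟨ω₀, hω₀, hx₁⟩
  have hcomp : IsCompact (convexHull ℝ X) :=
    ((Finset.finite_toSet _).subset hXS).isCompact_convexHull ℝ
  have hclosed : IsClosed (convexHull ℝ X + ((Submodule.span ℝ {e} : Submodule ℝ (Vec n)) :
      Set (Vec n))) :=
    IsClosed.add_left_of_isCompact (Submodule.closed_of_finiteDimensional _) hcomp
  have hconv : Convex ℝ (convexHull ℝ X + ((Submodule.span ℝ {e} : Submodule ℝ (Vec n)) :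
      Set (Vec n))) := (convex_convexHull ℝ X).add (Submodule.convex _)
  have hKT : K ⊆ convexHull ℝ X + ((Submodule.span ℝ {e} : Submodule ℝ (Vec n)) :
      Set (Vec n)) := by
    refine sub_of_support hconv hclosed fun ω y hy => ?_
    by_cases h0 : e ⬝ᵥ ω = 0
    · obtain ⟨s₀, hs₀⟩ := lead_lead ω ω₀ R
      obtain ⟨s, hs1, hs2⟩ := ((good_perturb hω₀ h0).and (eventually_ge_atTop s₀)).exists
      obtain ⟨x', hx'⟩ := h _ hs1
      have hx'm : x' ∈ (lead ω₀ (lead ω R)).coeff.support := by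
        rw [← hs₀ s hs2, ← Finset.mem_coe, hx']; exact Or.inl rfl
      rw [support_lead] at hx'm
      have hx'l := (Finset.mem_filter.mp hx'm).1
      refine ⟨x', ?_, (hmem ω x' hx'l).2 y hy⟩
      refine ⟨x', subset_convexHull ℝ X (by rw [hX]; exact ⟨_, hs1, hx'⟩), 0,
        Submodule.zero_mem _, add_zero _⟩
    · refine ⟨x₁ + ((y ⬝ᵥ ω - x₁ ⬝ᵥ ω) / (e ⬝ᵥ ω)) • e, ?_, ?_⟩
      · exact ⟨x₁, subset_convexHull ℝ X hx₁X, _,
          Submodule.smul_mem _ _ (Submodule.mem_span_singleton_self e), rfl⟩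
      · rw [add_dotProduct, smul_dotProduct, smul_eq_mul]
        field_simp
        linarith
  apply Subset.antisymm
  · intro y hy
    obtain ⟨a₀, ha₀, w, hw, hyw⟩ := hKT hy
    obtain ⟨t, rfl⟩ := Submodule.mem_span_singleton.mp hw
    simp only at hyw
    obtain ⟨hk0, hk1⟩ := hconvA ha₀
    -- convexity along the line
    have hline : ∀ r s u : ℝ, a₀ + r • e ∈ K → a₀ + s • e ∈ K → r ≤ u → u ≤ s →
        a₀ + u • e ∈ K := by
      intro r s u hr hs hru hus
      rcases eq_or_lt_of_le (hru.trans hus) with hrs | hrs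
      · have : u = r := le_antisymm (by rw [hrs]; exact hus) hru
        rw [this]; exact hr
      · have hc := hb.conv hr hs (a := (s - u) / (s - r)) (b := (u - r) / (s - r))
          (div_nonneg (by linarith) (by linarith)) (div_nonneg (by linarith) (by linarith))
          (by rw [← add_div]; rw [div_eq_one_iff_eq (by linarith)]; ring)
        have e1 : ((s - u) / (s - r)) • (a₀ + r • e) + ((u - r) / (s - r)) • (a₀ + s • e) =
            a₀ + u • e := by
          have hsr : s - r ≠ 0 := by linarith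
          rw [smul_add, smul_add, smul_smul, smul_smul, add_add_add_comm, ← add_smul, ← add_smul,
            show (s - u) / (s - r) + (u - r) / (s - r) = 1 by field_simp; ring,
            show (s - u) / (s - r) * r + (u - r) / (s - r) * s = u by field_simp; ring, one_smul]
        rwa [e1] at hc
    have k0 : a₀ + (0 : ℝ) • e ∈ K := by simpa using hk0
    have k1 : a₀ + (1 : ℝ) • e ∈ K := by simpa using hk1
    have kt : a₀ + t • e ∈ K := by rw [hyw]; exact hy
    rw [← hyw]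
    rcases lt_trichotomy t 0 with ht | ht | ht
    · refine ⟨a₀ + t • e, ⟨kt, ?_⟩, 0, left_mem_segment ℝ 0 e, add_zero _⟩
      have := hline t 1 (t + 1) kt k1 (by linarith) (by linarith)
      rwa [add_smul, one_smul, ← add_assoc] at this
    · subst ht
      exact ⟨a₀, ⟨hk0, hk1⟩, 0, left_mem_segment ℝ 0 e, by simp⟩
    · rcases le_or_gt t 1 with ht1 | ht1
      · refine ⟨a₀, ⟨hk0, hk1⟩, t • e, ?_, rfl⟩
        exact ⟨1 - t, t, by linarith, ht.le, by ring, by simp⟩
      · refine ⟨a₀ + (t - 1) • e, ⟨hline 0 t (t - 1) k0 kt (by linarith) (by linarith), ?_⟩,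
          e, right_mem_segment ℝ 0 e, ?_⟩
        · have : a₀ + (t - 1) • e + e = a₀ + t • e := by rw [sub_smul, one_smul]; abel
          rw [this]; exact kt
        · simp only; rw [sub_smul, one_smul]; abel
  · rintro _ ⟨a, ⟨ha, hae⟩, w, ⟨r, s, hr, hs, hrs, rfl⟩, rfl⟩
    have hc := hb.conv ha hae hr hs hrs
    have e1 : r • a + s • (a + e) = a + (r • (0 : Vec n) + s • e) := by
      rw [smul_add, ← add_assoc, ← add_smul, hrs, one_smul, smul_zero, zero_add]
    rw [e1] at hc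
    exact hc

/-- uniqueness of the maximiser on `A` -/
theorem unique_max {n : ℕ} {K : Set (Vec n)} {R : EA n} (hN : Nw R = K)
    {e x ω : Vec n} (he : e ≠ 0) (heω : e ⬝ᵥ ω = 0)
    (hx : ((lead ω R).coeff.support : Set (Vec n)) = {x, x + e}) {y : Vec n}
    (hy : y ∈ K) (hye : y + e ∈ K) (hne : y ≠ x) : y ⬝ᵥ ω < x ⬝ᵥ ω := by
  have hface : ∀ z, z ∈ Nw (lead ω R) ↔ z ∈ K ∧ ∀ y ∈ K, y ⬝ᵥ ω ≤ z ⬝ᵥ ω := by
    intro z; rw [Nw_lead, hN]; exact Iff.rfl
  have hseg : Nw (lead ω R) = segment ℝ x (x + e) := by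
    unfold Nw; rw [hx, convexHull_pair]
  have hxf : x ∈ Nw (lead ω R) := by rw [hseg]; exact left_mem_segment ℝ _ _
  have hmax := ((hface x).mp hxf).2
  refine lt_of_le_of_ne (hmax y hy) fun heq => hne ?_
  have h1 : y ∈ Nw (lead ω R) := (hface y).mpr ⟨hy, fun z hz => by rw [heq]; exact hmax z hz⟩
  have h2 : y + e ∈ Nw (lead ω R) := (hface _).mpr ⟨hye, fun z hz => by
    rw [add_dotProduct, heω, add_zero, heq]; exact hmax z hz⟩
  rw [hseg] at h1 h2
  obtain ⟨r, s, hr, hs, hrs, hy1⟩ := h1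
  obtain ⟨r', s', hr', hs', hrs', hy2⟩ := h2
  have g1 : y = x + s • e := by
    rw [← hy1, smul_add, ← add_assoc, ← add_smul, hrs, one_smul]
  have g2 : y + e = x + s' • e := by
    rw [← hy2, smul_add, ← add_assoc, ← add_smul, hrs', one_smul]
  have g3 : (s + 1) • e = s' • e := by
    rw [g1, add_assoc] at g2
    have := add_left_cancel g2
    rw [← this, add_smul, one_smul]
  have g4 : s + 1 = s' := by
    have := sub_eq_zero.mpr g3
    rw [← sub_smul] at this
    rcases smul_eq_zero.mp this with h | h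
    · linarith
    · exact absurd h he
  have g5 : s = 0 := by linarith
  rw [g1, g5, zero_smul, add_zero]

theorem lead_two {n : ℕ} {R : EA n} {ω x e : Vec n} (he : e ≠ 0)
    (hx : ((lead ω R).coeff.support : Set (Vec n)) = {x, x + e}) :
    lead ω R = AddMonoidAlgebra.single x (R.coeff x) +
      AddMonoidAlgebra.single (x + e) (R.coeff (x + e)) := by
  classical
  have hne : x ≠ x + e := fun h => he (by simpa using h.symm)
  have hfs : (lead ω R).coeff.support = {x, x + e} := by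
    apply Finset.coe_injective
    rw [hx]; simp
  have h1 : x ∈ (lead ω R).coeff.support := by rw [hfs]; simp
  have h2 : x + e ∈ (lead ω R).coeff.support := by rw [hfs]; simp
  conv_lhs => rw [← AddMonoidAlgebra.sum_coeff_single (lead ω R), Finsupp.sum, hfs,
    Finset.sum_pair hne, coeff_lead ω R h1, coeff_lead ω R h2]

/-- statement of the uniform fibre lemma -/
def UflStatement (n : ℕ) : Prop := ∀ {K : Set (Vec n)} (_ : Body K) {C : Pol n} {R : EA n}
    (_ : TrC K C R)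
    {A B : Set (Vec n)} (_ : Convex ℝ A) (_ : IsCompact A)
    (_ : Convex ℝ B) (_ : IsCompact B) (_ : vectorSpan ℝ B ≠ ⊥) (_ : K = A + B)
    {ω : Vec n} (_ : ∀ w ∈ vectorSpan ℝ B, w ⬝ᵥ ω = 0) {x₁ x₂ : Vec n} (_ : x₁ ∈ A)
    (_ : x₂ ∈ A) (_ : ∀ x ∈ A, x ≠ x₁ → x ⬝ᵥ ω < x₁ ⬝ᵥ ω)
    (_ : ∀ x ∈ A, x ≠ x₂ → x₂ ⬝ᵥ ω < x ⬝ᵥ ω)
    {M₁ M₂ : Pol n} {d₁ d₂ : ℕ} (_ : M₁ ≠ 0) (_ : M₂ ≠ 0) (_ : M₁.IsHomogeneous d₁)
    (_ : M₂.IsHomogeneous d₂)
    (_ : AddMonoidAlgebra.single x₂ M₂ * lead ω R =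
      AddMonoidAlgebra.single x₁ M₁ * lead (-ω) R),
    ∀ a ∈ A, ∀ a' ∈ A, a - a' ∈ vectorSpan ℝ B → a = a'

theorem vectorSpan_seg {n : ℕ} (e : Vec n) :
    vectorSpan ℝ (segment ℝ 0 e) = Submodule.span ℝ {e} := by
  have h1 : segment ℝ (0 : Vec n) e = convexHull ℝ {0, e} := by rw [convexHull_pair]
  rw [h1, vectorSpan_convexHull', vectorSpan_pair]
  rw [vsub_eq_sub, zero_sub, ← Set.neg_singleton, Submodule.span_neg]

/-- Module `Uniform`, from the uniform fibre lemma. -/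
theorem prism_of_uniform_of {n : ℕ} (hufl : UflStatement n) {K : Set (Vec n)} {C : Pol n}
    {R : EA n} (hb : Body K)
    (hT : TrC K C R) {e x₀ : Vec n} (he : e ≠ 0) (hx₀ : R.coeff x₀ ≠ 0)
    (hx₁ : R.coeff (x₀ + e) ≠ 0)
    (h : ∀ ω : Vec n, e ⬝ᵥ ω = 0 →
      (∀ v ∈ R.coeff.support, ∀ v' ∈ R.coeff.support, v ⬝ᵥ ω = v' ⬝ᵥ ω →
        v - v' ∈ Submodule.span ℝ {e}) →
      ∃ x, ((lead ω R).coeff.support : Set (Vec n)) = {x, x + e} ∧
        R.coeff x * R.coeff (x₀ + e) = R.coeff (x + e) * R.coeff x₀) :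
    ∃ A : Set (Vec n), Convex ℝ A ∧ IsCompact A ∧ K = A + segment ℝ 0 e ∧
      ∀ a ∈ A, ∀ a' ∈ A, a - a' ∈ Submodule.span ℝ {e} → a = a' := by
  classical
  have hN : Nw R = K := Nw_eq hb hT
  have hK := uniform_split hb hN he fun ω hω => by
    obtain ⟨x, hx, -⟩ := h ω hω.1 hω.2
    exact ⟨x, hx⟩
  have hAc : Convex ℝ {y | y ∈ K ∧ y + e ∈ K} := by
    have h1 : Convex ℝ ((fun y : Vec n => y + e) ⁻¹' K) := by
      have := hb.conv.translate_preimage_left (z := e)
      simpa using this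
    exact hb.conv.inter h1
  have hAk : IsCompact {y | y ∈ K ∧ y + e ∈ K} := by
    have hc : Continuous fun y : Vec n => y + e := continuous_id.add continuous_const
    exact hb.comp.inter_right (hb.comp.isClosed.preimage hc)
  refine ⟨{y | y ∈ K ∧ y + e ∈ K}, hAc, hAk, hK, ?_⟩
  obtain ⟨ω, hω⟩ := exists_good he R.coeff.support
  obtain ⟨x, hx, hxr⟩ := h ω hω.1 hω.2
  obtain ⟨x', hx', hxr'⟩ := h (-ω) hω.neg.1 hω.neg.2
  have hmem : ∀ (ω v : Vec n), v ∈ (lead ω R).coeff.support → v ∈ K := by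
    intro ω v hv
    have h1 : v ∈ Nw (lead ω R) := subset_Nw _ hv
    rw [Nw_lead, hN] at h1
    exact h1.1
  have hne : ∀ (ω v : Vec n), v ∈ (lead ω R).coeff.support → R.coeff v ≠ 0 := by
    intro ω v hv
    rw [support_lead] at hv
    exact Finsupp.mem_support_iff.mp (Finset.mem_filter.mp hv).1
  have m1 : x ∈ (lead ω R).coeff.support := by rw [← Finset.mem_coe, hx]; exact Or.inl rfl
  have m2 : x + e ∈ (lead ω R).coeff.support := by rw [← Finset.mem_coe, hx]; exact Or.inr rfl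
  have m3 : x' ∈ (lead (-ω) R).coeff.support := by rw [← Finset.mem_coe, hx']; exact Or.inl rfl
  have m4 : x' + e ∈ (lead (-ω) R).coeff.support := by
    rw [← Finset.mem_coe, hx']; exact Or.inr rfl
  obtain ⟨d, -, hd⟩ := hT.hom
  have hcross : R.coeff x' * R.coeff (x + e) = R.coeff x * R.coeff (x' + e) := by
    have h1 : R.coeff x₀ * R.coeff (x₀ + e) * (R.coeff x' * R.coeff (x + e)) =
        R.coeff x₀ * R.coeff (x₀ + e) * (R.coeff x * R.coeff (x' + e)) := by
      linear_combination (-(R.coeff x' * R.coeff (x₀ + e))) * hxr +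
        R.coeff x * R.coeff (x₀ + e) * hxr'
    exact mul_left_cancel₀ (mul_ne_zero hx₀ hx₁) h1
  have hrel : (AddMonoidAlgebra.single x' (R.coeff x') * lead ω R : EA n) =
      AddMonoidAlgebra.single x (R.coeff x) * lead (-ω) R := by
    rw [lead_two he hx, lead_two he hx', mul_add, mul_add, AddMonoidAlgebra.single_mul_single,
      AddMonoidAlgebra.single_mul_single, AddMonoidAlgebra.single_mul_single,
      AddMonoidAlgebra.single_mul_single, hcross, add_comm x' x, mul_comm (R.coeff x'),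
      show x' + (x + e) = x + (x' + e) by abel]
  have hB0 : vectorSpan ℝ (segment ℝ 0 e) ≠ ⊥ := by
    rw [vectorSpan_seg]
    intro h0
    exact he (Submodule.span_singleton_eq_bot.mp h0)
  have hBk : IsCompact (segment ℝ (0 : Vec n) e) := by
    rw [← convexHull_pair]
    exact (Set.toFinite _).isCompact_convexHull ℝ
  have := hufl hb hT hAc hAk (convex_segment 0 e) hBk hB0 hK (ω := ω) (by
      intro w hw
      rw [vectorSpan_seg] at hw
      obtain ⟨t, rfl⟩ := Submodule.mem_span_singleton.mp hw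
      rw [smul_dotProduct, hω.1, smul_zero])
    (x₁ := x) (x₂ := x') ⟨hmem _ _ m1, hmem _ _ m2⟩ ⟨hmem _ _ m3, hmem _ _ m4⟩
    (fun y hy hne => unique_max hN he hω.1 hx hy.1 hy.2 hne)
    (fun y hy hne => by
      have := unique_max hN he hω.neg.1 hx' hy.1 hy.2 hne
      rw [dotProduct_neg, dotProduct_neg] at this
      linarith)
    (hne _ _ m1) (hne _ _ m3) (hd x) (hd x') hrel
  rwa [vectorSpan_seg] at this

end Pool.Agent.Covg
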